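import Pool.Agent.Lib.MP_a7b2aa_an.SHX.Arr18

/-!
SHX, array level: products and contractions over one shared string (helper18).
-/

set_option autoImplicit false

open Finset

namespace Pool.Agent.SHX.Arr18

variable {Sg : Type} [Fintype Sg] [DecidableEq Sg]

theorem sum_bx_insert {M : Type} [AddCommMonoid M] {E : Sg → ℕ} {X : Finset Sg} {e : Sg}
    (he : e ∉ X) (f : (Sg → ℕ) → M) :
    ∑ z ∈ bx E (insert e X), f z =
      ∑ j ∈ range (E e), ∑ x ∈ bx E X, f (Pi.single e j + x) := by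
  rw [Finset.insert_eq, sum_bx_union (Finset.disjoint_singleton_left.2 he), sum_bx_single]

theorem sum4 {α β γ δ M : Type} [AddCommMonoid M] (A : Finset α) (B : Finset β) (C : Finset γ)
    (D : Finset δ) (f : α → β → γ → δ → M) :
    ∑ a ∈ A, ∑ b ∈ B, ∑ c ∈ C, ∑ d ∈ D, f a b c d =
      ∑ c ∈ C, ∑ d ∈ D, ∑ a ∈ A, ∑ b ∈ B, f a b c d := by
  rw [← Finset.sum_product' A B (fun a b => ∑ c ∈ C, ∑ d ∈ D, f a b c d),
    ← Finset.sum_product' C D (fun c d => ∑ a ∈ A, ∑ b ∈ B, f a b c d)]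
  have h1 : ∀ x ∈ A ×ˢ B, (∑ c ∈ C, ∑ d ∈ D, f x.1 x.2 c d) =
      ∑ y ∈ C ×ˢ D, f x.1 x.2 y.1 y.2 := fun x _ =>
    (Finset.sum_product' C D (fun c d => f x.1 x.2 c d)).symm
  have h2 : ∀ y ∈ C ×ˢ D, (∑ a ∈ A, ∑ b ∈ B, f a b y.1 y.2) =
      ∑ x ∈ A ×ˢ B, f x.1 x.2 y.1 y.2 := fun y _ =>
    (Finset.sum_product' A B (fun a b => f a b y.1 y.2)).symm
  rw [Finset.sum_congr rfl h1, Finset.sum_congr rfl h2, Finset.sum_comm]

theorem sum_sq_union {E : Sg → ℕ} {X X' : Finset Sg} (h : Disjoint X X')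
    (f : (Sg → ℕ) → ℝ) : n2 E (X ∪ X') f ^ 2 =
      ∑ x ∈ bx E X, ∑ x' ∈ bx E X', f (x + x') ^ 2 := by
  rw [n2_sq, sum_bx_union h]

/-- Cauchy - Schwarz for three indices -/
theorem cs3 {α β γ : Type} (A : Finset α) (B : Finset β) (C : Finset γ) (b : γ → ℝ)
    (hb : ∀ j ∈ C, |b j| ≤ 1) (V W : α → β → γ → ℝ) {v w : ℝ} (hv : 0 ≤ v) (hw : 0 ≤ w)
    (hV : ∑ x ∈ A, ∑ y ∈ B, ∑ j ∈ C, V x y j ^ 2 ≤ v ^ 2)
    (hW : ∑ x ∈ A, ∑ y ∈ B, ∑ j ∈ C, W x y j ^ 2 ≤ w ^ 2) :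
    |∑ x ∈ A, ∑ y ∈ B, ∑ j ∈ C, b j * (V x y j * W x y j)| ≤ v * w := by
  have e : ∀ F : α → β → γ → ℝ, ∑ x ∈ A, ∑ y ∈ B, ∑ j ∈ C, F x y j =
      ∑ z ∈ A ×ˢ (B ×ˢ C), F z.1 z.2.1 z.2.2 := by
    intro F
    rw [Finset.sum_product]
    refine Finset.sum_congr rfl fun x _ => ?_
    rw [Finset.sum_product]
  rw [e] at hV hW
  rw [e]
  have h1 : |∑ z ∈ A ×ˢ (B ×ˢ C), b z.2.2 * (V z.1 z.2.1 z.2.2 * W z.1 z.2.1 z.2.2)| ≤
      ∑ z ∈ A ×ˢ (B ×ˢ C), |V z.1 z.2.1 z.2.2| * |W z.1 z.2.1 z.2.2| := by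
    refine (Finset.abs_sum_le_sum_abs _ _).trans (Finset.sum_le_sum fun z hz => ?_)
    rw [abs_mul, abs_mul]
    have h2 := hb z.2.2 (Finset.mem_product.1 (Finset.mem_product.1 hz).2).2
    exact mul_le_of_le_one_left (mul_nonneg (abs_nonneg _) (abs_nonneg _)) h2
  refine h1.trans ?_
  have h3 := Finset.sum_mul_sq_le_sq_mul_sq (A ×ˢ (B ×ˢ C)) (fun z => |V z.1 z.2.1 z.2.2|)
    (fun z => |W z.1 z.2.1 z.2.2|)
  simp only [sq_abs] at h3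
  refine le_of_sq_le_sq ?_ (mul_nonneg hv hw) |> fun h => h
  · rw [mul_pow]
    exact h3.trans (mul_le_mul hV hW (Finset.sum_nonneg fun _ _ => sq_nonneg _) (sq_nonneg _))

/-- contraction over one shared string `e`, which is a row index of the first factor and a column
index of the second one -/
theorem star2 {E : Sg → ℕ} {X1 X2 Y1 Y2 : Finset Sg} {e : Sg} (hX : Disjoint X1 X2)
    (hY : Disjoint Y1 Y2) (h1 : e ∉ X1) (h2 : e ∉ Y2) {U1 U2 T : (Sg → ℕ) → ℝ} {k1 k2 : ℝ}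
    (hk1 : 0 ≤ k1) (hk2 : 0 ≤ k2) (hU1 : FN E (insert e X1) Y1 U1 k1)
    (hU2 : FN E X2 (insert e Y2) U2 k2) {b : ℕ → ℝ} (hb : ∀ j < E e, |b j| ≤ 1)
    (hT : ∀ x1 ∈ bx E X1, ∀ x2 ∈ bx E X2, ∀ y1 ∈ bx E Y1, ∀ y2 ∈ bx E Y2,
      T ((x1 + x2) + (y1 + y2)) = ∑ j ∈ range (E e), b j *
        (U1 ((Pi.single e j + x1) + y1) * U2 (x2 + (Pi.single e j + y2)))) :
    FN E (X1 ∪ X2) (Y1 ∪ Y2) T (k1 * k2) := by
  intro p q
  -- expansion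
  have e1 : ∑ x ∈ bx E (X1 ∪ X2), ∑ y ∈ bx E (Y1 ∪ Y2), p x * T (x + y) * q y =
      ∑ x1 ∈ bx E X1, ∑ y2 ∈ bx E Y2, ∑ j ∈ range (E e), b j *
        ((∑ y1 ∈ bx E Y1, U1 ((Pi.single e j + x1) + y1) * q (y1 + y2)) *
          (∑ x2 ∈ bx E X2, p (x1 + x2) * U2 (x2 + (Pi.single e j + y2)))) := by
    rw [sum_bx_union hX]
    refine Finset.sum_congr rfl fun x1 hx1 => ?_
    have e2 : ∀ x2 ∈ bx E X2, ∑ y ∈ bx E (Y1 ∪ Y2), p (x1 + x2) * T (x1 + x2 + y) * q y =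
        ∑ y1 ∈ bx E Y1, ∑ y2 ∈ bx E Y2, ∑ j ∈ range (E e), p (x1 + x2) * (b j *
        (U1 ((Pi.single e j + x1) + y1) * U2 (x2 + (Pi.single e j + y2)))) * q (y1 + y2) := by
      intro x2 hx2
      rw [sum_bx_union hY]
      refine Finset.sum_congr rfl fun y1 hy1 => Finset.sum_congr rfl fun y2 hy2 => ?_
      rw [hT x1 hx1 x2 hx2 y1 hy1 y2 hy2, Finset.mul_sum, Finset.sum_mul]
    rw [Finset.sum_congr rfl e2, sum4]
    refine Finset.sum_congr rfl fun y2 _ => Finset.sum_congr rfl fun j _ => ?_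
    rw [Finset.sum_mul_sum, Finset.mul_sum, Finset.sum_comm]
    refine Finset.sum_congr rfl fun y1 _ => ?_
    rw [Finset.mul_sum]
    refine Finset.sum_congr rfl fun x2 _ => ?_
    ring
  rw [e1]
  have hb' : ∀ j ∈ range (E e), |b j| ≤ 1 := fun j hj => hb j (mem_range.1 hj)
  have hV : ∑ x1 ∈ bx E X1, ∑ y2 ∈ bx E Y2, ∑ j ∈ range (E e),
      (∑ y1 ∈ bx E Y1, U1 ((Pi.single e j + x1) + y1) * q (y1 + y2)) ^ 2 ≤
        (k1 * n2 E (Y1 ∪ Y2) q) ^ 2 := by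
    rw [mul_pow, sum_sq_union hY, Finset.sum_comm' (s := bx E X1) (t := fun _ => bx E Y2)
      (t' := bx E Y2) (s' := fun _ => bx E X1) (by intro x y; tauto)]
    rw [Finset.sum_comm (s := bx E Y1), Finset.mul_sum]
    refine Finset.sum_le_sum fun y2 _ => ?_
    rw [Finset.sum_comm]
    have h3 := hU1.vec hk1 (fun y => q (y + y2))
    rw [sum_bx_insert h1] at h3
    exact h3
  have hW : ∑ x1 ∈ bx E X1, ∑ y2 ∈ bx E Y2, ∑ j ∈ range (E e),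
      (∑ x2 ∈ bx E X2, p (x1 + x2) * U2 (x2 + (Pi.single e j + y2))) ^ 2 ≤
        (k2 * n2 E (X1 ∪ X2) p) ^ 2 := by
    rw [mul_pow, sum_sq_union hX, Finset.mul_sum]
    refine Finset.sum_le_sum fun x1 _ => ?_
    rw [Finset.sum_comm]
    have h3 := hU2.symm.vec hk2 (fun x => p (x1 + x))
    rw [sum_bx_insert h2] at h3
    refine le_trans (le_of_eq ?_) h3
    refine Finset.sum_congr rfl fun j _ => Finset.sum_congr rfl fun y2 _ => ?_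
    congr 1
    refine Finset.sum_congr rfl fun x2 _ => ?_
    rw [mul_comm, add_comm x2]
  have h4 := cs3 (bx E X1) (bx E Y2) (range (E e)) b hb' _ _
    (mul_nonneg hk1 (n2_nonneg _ _ _)) (mul_nonneg hk2 (n2_nonneg _ _ _)) hV hW
  refine h4.trans (le_of_eq ?_)
  ring

/-- `T` restricted to the value `j` of string `e`, flattening `(X | Y)` -/
def FJ (E : Sg → ℕ) (e : Sg) (X Y : Finset Sg) (T : (Sg → ℕ) → ℝ) (k : ℝ) : Prop :=
  ∀ j < E e, FN E X Y (fun z => T (Pi.single e j + z)) k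

/-- the product of two arrays with one common string `e`, kept: `e` a row index; the first
factor has a column index, the second one is used at fixed `j` -/
theorem mul2 {E : Sg → ℕ} {X1 X2 Y1 Y2 : Finset Sg} {e : Sg} (hX : Disjoint X1 X2)
    (hY : Disjoint Y1 Y2) (h1 : e ∉ X1) (h2 : e ∉ X2) {U1 U2 T : (Sg → ℕ) → ℝ} {k1 k2 : ℝ}
    (hk1 : 0 ≤ k1) (hk2 : 0 ≤ k2) (hU1 : FN E (insert e X1) Y1 U1 k1)
    (hU2 : FJ E e X2 Y2 U2 k2)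
    (hT : ∀ j < E e, ∀ x1 ∈ bx E X1, ∀ x2 ∈ bx E X2, ∀ y1 ∈ bx E Y1, ∀ y2 ∈ bx E Y2,
      T ((Pi.single e j + (x1 + x2)) + (y1 + y2)) =
        U1 ((Pi.single e j + x1) + y1) * U2 (Pi.single e j + (x2 + y2))) :
    FN E (insert e (X1 ∪ X2)) (Y1 ∪ Y2) T (k1 * k2) := by
  intro p q
  have he : e ∉ X1 ∪ X2 := by rw [mem_union]; tauto
  set V : (Sg → ℕ) → (Sg → ℕ) → ℕ → ℝ := fun x1 y2 j =>
    ∑ y1 ∈ bx E Y1, U1 ((Pi.single e j + x1) + y1) * q (y1 + y2) with hV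
  have e1 : ∑ x ∈ bx E (insert e (X1 ∪ X2)), ∑ y ∈ bx E (Y1 ∪ Y2), p x * T (x + y) * q y =
      ∑ j ∈ range (E e), ∑ x1 ∈ bx E X1, ∑ x2 ∈ bx E X2, ∑ y2 ∈ bx E Y2,
        p (Pi.single e j + (x1 + x2)) * U2 (Pi.single e j + (x2 + y2)) * V x1 y2 j := by
    rw [sum_bx_insert he]
    refine Finset.sum_congr rfl fun j hj => ?_
    rw [sum_bx_union hX]
    refine Finset.sum_congr rfl fun x1 hx1 => Finset.sum_congr rfl fun x2 hx2 => ?_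
    rw [sum_bx_union hY, Finset.sum_comm]
    refine Finset.sum_congr rfl fun y2 hy2 => ?_
    rw [hV]
    beta_reduce
    rw [Finset.mul_sum]
    refine Finset.sum_congr rfl fun y1 hy1 => ?_
    rw [hT j (mem_range.1 hj) x1 hx1 x2 hx2 y1 hy1 y2 hy2]
    ring
  have hVV : ∑ j ∈ range (E e), ∑ x1 ∈ bx E X1, n2 E Y2 (fun y2 => V x1 y2 j) ^ 2 ≤
      (k1 * n2 E (Y1 ∪ Y2) q) ^ 2 := by
    rw [mul_pow, sum_sq_union hY, Finset.sum_comm (s := bx E Y1), Finset.mul_sum]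
    have e2 : ∑ j ∈ range (E e), ∑ x1 ∈ bx E X1, n2 E Y2 (fun y2 => V x1 y2 j) ^ 2 =
        ∑ y2 ∈ bx E Y2, ∑ j ∈ range (E e), ∑ x1 ∈ bx E X1, V x1 y2 j ^ 2 := by
      have e3 : ∀ j ∈ range (E e), ∑ x1 ∈ bx E X1, n2 E Y2 (fun y2 => V x1 y2 j) ^ 2 =
          ∑ y2 ∈ bx E Y2, ∑ x1 ∈ bx E X1, V x1 y2 j ^ 2 := by
        intro j _
        rw [Finset.sum_comm]
        refine Finset.sum_congr rfl fun x1 _ => ?_
        rw [n2_sq]
      rw [Finset.sum_congr rfl e3, Finset.sum_comm]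
    rw [e2]
    refine Finset.sum_le_sum fun y2 _ => ?_
    have h3 := hU1.vec hk1 (fun y => q (y + y2))
    rw [sum_bx_insert h1] at h3
    exact h3
  rw [e1]
  have h4 : |∑ j ∈ range (E e), ∑ x1 ∈ bx E X1, ∑ x2 ∈ bx E X2, ∑ y2 ∈ bx E Y2,
        p (Pi.single e j + (x1 + x2)) * U2 (Pi.single e j + (x2 + y2)) * V x1 y2 j| ≤
      ∑ z ∈ range (E e) ×ˢ bx E X1, (k2 * n2 E X2 (fun x2 => p (Pi.single e z.1 + (z.2 + x2)))) *
        n2 E Y2 (fun y2 => V z.2 y2 z.1) := by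
    have e5 : ∑ j ∈ range (E e), ∑ x1 ∈ bx E X1, ∑ x2 ∈ bx E X2, ∑ y2 ∈ bx E Y2,
        p (Pi.single e j + (x1 + x2)) * U2 (Pi.single e j + (x2 + y2)) * V x1 y2 j =
        ∑ z ∈ range (E e) ×ˢ bx E X1, ∑ x2 ∈ bx E X2, ∑ y2 ∈ bx E Y2,
          p (Pi.single e z.1 + (z.2 + x2)) * U2 (Pi.single e z.1 + (x2 + y2)) * V z.2 y2 z.1 := by
      rw [Finset.sum_product]
    rw [e5]
    refine (Finset.abs_sum_le_sum_abs _ _).trans (Finset.sum_le_sum fun z hz => ?_)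
    have h5 := hU2 z.1 (mem_range.1 (mem_product.1 hz).1)
      (fun x2 => p (Pi.single e z.1 + (z.2 + x2))) (fun y2 => V z.2 y2 z.1)
    rw [mul_assoc]
    exact h5
  refine h4.trans ?_
  have h6 := Finset.sum_mul_sq_le_sq_mul_sq (range (E e) ×ˢ bx E X1)
    (fun z => k2 * n2 E X2 (fun x2 => p (Pi.single e z.1 + (z.2 + x2))))
    (fun z => n2 E Y2 (fun y2 => V z.2 y2 z.1))
  have h7 : ∑ z ∈ range (E e) ×ˢ bx E X1,
      (k2 * n2 E X2 (fun x2 => p (Pi.single e z.1 + (z.2 + x2)))) ^ 2 =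
        (k2 * n2 E (insert e (X1 ∪ X2)) p) ^ 2 := by
    rw [mul_pow, n2_sq, sum_bx_insert he, Finset.mul_sum, Finset.sum_product]
    refine Finset.sum_congr rfl fun j _ => ?_
    rw [sum_bx_union hX, Finset.mul_sum]
    refine Finset.sum_congr rfl fun x1 _ => ?_
    rw [mul_pow, n2_sq]
  have h8 : ∑ z ∈ range (E e) ×ˢ bx E X1, n2 E Y2 (fun y2 => V z.2 y2 z.1) ^ 2 ≤
      (k1 * n2 E (Y1 ∪ Y2) q) ^ 2 := by
    rw [Finset.sum_product]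
    exact hVV
  have h9 : (0 : ℝ) ≤ k2 * n2 E (insert e (X1 ∪ X2)) p := mul_nonneg hk2 (n2_nonneg _ _ _)
  have h10 : (0 : ℝ) ≤ k1 * n2 E (Y1 ∪ Y2) q := mul_nonneg hk1 (n2_nonneg _ _ _)
  rw [h7] at h6
  have h11 := h6.trans (mul_le_mul_of_nonneg_left h8 (sq_nonneg _))
  rw [← mul_pow] at h11
  have h12 := abs_le_of_sq_le_sq h11 (mul_nonneg h9 h10)
  refine (le_abs_self _).trans (h12.trans (le_of_eq ?_))
  ring

end Pool.Agent.SHX.Arr18
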