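import Pool.Agent.Lib.MP_a7b2aa_an.SHX.StmtsX65
import Pool.Agent.Lib.MP_a7b2aa_an.SHX.Arr2_18

/-!
SHX, track ALL: module ARR (helper18), from the generic lemmas of Arr18, Arr2_18.
-/

set_option autoImplicit false

open Finset

namespace Pool.Agent.SHXA

open Pool.Agent.SHX

namespace ArrX18

variable {m : ℕ}

/-- the ranges -/
def EX (H : Fin (m + 1) → ℕ) : Fin (m + 1) → ℕ := fun a => H a + 1

theorem bxeq (H : Fin (m + 1) → ℕ) (C : Finset (Fin (m + 1))) :
    bx H C 0 = Arr18.bx (EX H) C := rfl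

theorem nx_fn {H : Fin (m + 1) → ℕ} {C1 C2 : Finset (Fin (m + 1))} {b : ℝ}
    {F : (Fin (m + 1) → ℕ) → ℝ} (hb : 0 ≤ b) (h : NX H C1 C2 b F) :
    Arr18.FN (EX H) C1 C2 F b := Arr18.FN.of_vec hb h

theorem fn_nx {H : Fin (m + 1) → ℕ} {C1 C2 : Finset (Fin (m + 1))} {b : ℝ}
    {F : (Fin (m + 1) → ℕ) → ℝ} (hb : 0 ≤ b) (h : Arr18.FN (EX H) C1 C2 F b) :
    NX H C1 C2 b F := fun u => Arr18.FN.vec hb h u

theorem dep_eq {C : Finset (Fin (m + 1))} {F : (Fin (m + 1) → ℕ) → ℝ} (h : Dep C F)
    {c c' : Fin (m + 1) → ℕ} (hc : ∀ s ∈ C, c s = c' s) : F c = F c' := by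
  have key : ∀ S : Finset (Fin (m + 1)), Disjoint S C → ∀ c c' : Fin (m + 1) → ℕ,
      (∀ s ∉ S, c s = c' s) → F c = F c' := by
    intro S
    induction S using Finset.induction_on with
    | empty =>
      intro _ c c' hcc
      have : c = c' := funext fun s => hcc s (Finset.notMem_empty s)
      rw [this]
    | insert a S ha ih =>
      intro hd c c' hcc
      have haC : a ∉ C := Finset.disjoint_left.1 hd (mem_insert_self a S)
      rw [← h c a (c' a) haC]
      refine ih (Finset.disjoint_of_subset_left (Finset.subset_insert a S) hd) _ _ ?_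
      intro s hs
      by_cases hsa : s = a
      · subst hsa
        rw [Function.update_self]
      · rw [Function.update_of_ne hsa]
        exact hcc s (by rw [mem_insert]; tauto)
  refine key Cᶜ disjoint_compl_left c c' fun s hs => ?_
  rw [mem_compl, not_not] at hs
  exact hc s hs

theorem bx0 {E : Fin (m + 1) → ℕ} {X : Finset (Fin (m + 1))} {x : Fin (m + 1) → ℕ}
    (hx : x ∈ Arr18.bx E X) {s : Fin (m + 1)} (hs : s ∉ X) : x s = 0 :=
  (Arr18.mem_bx.1 hx).2 s hs

theorem bx_add {E : Fin (m + 1) → ℕ} {X Y : Finset (Fin (m + 1))} (h : Disjoint X Y)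
    {x y : Fin (m + 1) → ℕ} (hx : x ∈ Arr18.bx E X) (hy : y ∈ Arr18.bx E Y) :
    x + y ∈ Arr18.bx E (X ∪ Y) := by
  rw [Arr18.mem_bx]
  refine ⟨fun s hs => ?_, fun s hs => ?_⟩
  · rw [Pi.add_apply]
    rcases mem_union.1 hs with hs | hs
    · rw [bx0 hy (Finset.disjoint_left.1 h hs), add_zero]
      exact (Arr18.mem_bx.1 hx).1 s hs
    · rw [bx0 hx (Finset.disjoint_right.1 h hs), zero_add]
      exact (Arr18.mem_bx.1 hy).1 s hs
  · rw [mem_union, not_or] at hs
    rw [Pi.add_apply, bx0 hx hs.1, bx0 hy hs.2]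

/-- fixed value of the string `e` -/
theorem fn_fix {E : Fin (m + 1) → ℕ} {X Y : Finset (Fin (m + 1))} {e : Fin (m + 1)}
    (he : e ∉ X) {T : (Fin (m + 1) → ℕ) → ℝ} {k : ℝ} (h : Arr18.FN E (insert e X) Y T k)
    (heY : e ∉ Y) {j : ℕ} (hj : j < E e) :
    Arr18.FN E X Y (fun z => T (Pi.single e j + z)) k := by
  intro p q
  have h1 := h (fun x => if x e = j then p (Function.update x e 0) else 0) q
  have hup : ∀ x ∈ Arr18.bx E X, ∀ i : ℕ, Function.update (Pi.single e i + x) e 0 = x := by
    intro x hx i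
    funext s
    by_cases hs : s = e
    · subst hs
      rw [Function.update_self, bx0 hx he]
    · rw [Function.update_of_ne hs, Pi.add_apply, Pi.single_eq_of_ne hs, zero_add]
  have hev : ∀ x ∈ Arr18.bx E X, ∀ i : ℕ, (Pi.single e i + x : Fin (m + 1) → ℕ) e = i := by
    intro x hx i
    rw [Pi.add_apply, Pi.single_eq_same, bx0 hx he, add_zero]
  have e1 : ∑ x ∈ Arr18.bx E (insert e X), ∑ y ∈ Arr18.bx E Y,
      (if x e = j then p (Function.update x e 0) else 0) * T (x + y) * q y =
      ∑ x ∈ Arr18.bx E X, ∑ y ∈ Arr18.bx E Y, p x * T (Pi.single e j + (x + y)) * q y := by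
    rw [Arr18.sum_bx_insert he, Finset.sum_eq_single_of_mem j (mem_range.2 hj)]
    · refine Finset.sum_congr rfl fun x hx => Finset.sum_congr rfl fun y _ => ?_
      rw [hev x hx j, if_pos rfl, hup x hx j, add_assoc]
    · intro i _ hij
      refine Finset.sum_eq_zero fun x hx => Finset.sum_eq_zero fun y _ => ?_
      rw [hev x hx i, if_neg hij, zero_mul, zero_mul]
  have e2 : Arr18.n2 E (insert e X) (fun x => if x e = j then p (Function.update x e 0) else 0) =
      Arr18.n2 E X p := by
    unfold Arr18.n2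
    congr 1
    rw [Arr18.sum_bx_insert he, Finset.sum_eq_single_of_mem j (mem_range.2 hj)]
    · refine Finset.sum_congr rfl fun x hx => ?_
      beta_reduce
      rw [hev x hx j, if_pos rfl, hup x hx j]
    · intro i _ hij
      refine Finset.sum_eq_zero fun x hx => ?_
      beta_reduce
      rw [hev x hx i, if_neg hij]
      simp
  rw [e1, e2] at h1
  exact h1

/-- `FN` as family of flattenings, with fixed value of `e` -/
theorem fj_of {H : Fin (m + 1) → ℕ} {e : Fin (m + 1)} {C X Y : Finset (Fin (m + 1))} {a : ℝ}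
    {F : (Fin (m + 1) → ℕ) → ℝ} (he : e ∉ C) (ha : 0 ≤ a) (hXY : Disjoint X Y)
    (hC : X ∪ Y = C) (hF : FN H (insert e C) a F) : Arr18.FJ (EX H) e X Y F a := by
  intro j hj
  have heX : e ∉ X := fun h => he (hC ▸ mem_union_left Y h)
  have heY : e ∉ Y := fun h => he (hC ▸ mem_union_right X h)
  by_cases hY : Y.Nonempty
  · refine fn_fix heX (nx_fn ha (hF.mat (insert e X) Y ?_ ?_ ⟨e, mem_insert_self e X⟩ hY)) heY hj
    · rw [Finset.disjoint_insert_left]; exact ⟨heY, hXY⟩
    · rw [Finset.insert_union, hC]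
  · rw [Finset.not_nonempty_iff_eq_empty] at hY
    subst hY
    by_cases hX : X.Nonempty
    · have h1 := hF.mat X (insert e ∅) (by
        rw [Finset.disjoint_insert_right]; exact ⟨heX, Finset.disjoint_empty_right X⟩) (by
        rw [Finset.union_insert, hC]) hX ⟨e, mem_insert_self e ∅⟩
      exact (fn_fix (Finset.notMem_empty e) (nx_fn ha h1).symm heX hj).symm
    · rw [Finset.not_nonempty_iff_eq_empty] at hX
      subst hX
      intro p q
      have h2 : Pi.single e j ∈ bx H (insert e C) 0 := by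
        rw [bxeq, Arr18.mem_bx]
        refine ⟨fun s hs => ?_, fun s hs => ?_⟩
        · rw [← hC, Finset.empty_union, mem_insert] at hs
          rcases hs with rfl | hs
          · rw [Pi.single_eq_same]; exact hj
          · exact absurd hs (Finset.notMem_empty s)
        · rw [mem_insert, not_or] at hs
          exact Pi.single_eq_of_ne (M := fun _ : Fin (m + 1) => ℕ) hs.1 j
      have h3 := hF.sup _ h2
      unfold Arr18.n2
      rw [Arr18.bx_empty, Finset.sum_singleton, Finset.sum_singleton, Finset.sum_singleton,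
        Finset.sum_singleton, add_zero, Real.sqrt_sq_eq_abs, Real.sqrt_sq_eq_abs, abs_mul,
        abs_mul]
      beta_reduce
      rw [add_zero]
      have h4 : |p 0| * |F (Pi.single e j)| * |q 0| = |F (Pi.single e j)| * (|p 0| * |q 0|) := by
        ring
      rw [h4]
      exact mul_le_mul_of_nonneg_right h3 (mul_nonneg (abs_nonneg _) (abs_nonneg _))

/-- the splitting of the own set -/
theorem split_eq {C C' D : Finset (Fin (m + 1))} (h : D ⊆ C ∪ C') : D ∩ C ∪ D ∩ C' = D := by
  rw [← Finset.inter_union_distrib_left]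
  exact Finset.inter_eq_left.2 h

theorem hadA {H : Fin (m + 1) → ℕ} {e : Fin (m + 1)} {C C' : Finset (Fin (m + 1))} {a a' : ℝ}
    {F G : (Fin (m + 1) → ℕ) → ℝ} (he : e ∉ C) (he' : e ∉ C') (hd : Disjoint C C')
    (ha : 0 ≤ a) (ha' : 0 ≤ a') (hDF : Dep (insert e C) F) (hDG : Dep (insert e C') G)
    (hF : FN H (insert e C) a F) (hG : FN H (insert e C') a' G) {C1 C2 : Finset (Fin (m + 1))}
    (h12 : Disjoint C1 C2) (hU : C1 ∪ C2 = insert e (C ∪ C')) (h1 : e ∈ C1)
    (hY : (C2 ∩ C).Nonempty) : Arr18.FN (EX H) C1 C2 (fun c => F c * G c) (a * a') := by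
  have h2 : e ∉ C2 := Finset.disjoint_left.1 h12 h1
  have hC2 : C2 ⊆ C ∪ C' := by
    intro s hs
    have h3 : s ∈ insert e (C ∪ C') := hU ▸ mem_union_right C1 hs
    rcases mem_insert.1 h3 with rfl | h3
    · exact absurd hs h2
    · exact h3
  have hC1 : C1.erase e ⊆ C ∪ C' := by
    intro s hs
    have h3 : s ∈ insert e (C ∪ C') := hU ▸ mem_union_left C2 (mem_of_mem_erase hs)
    rcases mem_insert.1 h3 with h3 | h3
    · exact absurd h3 (ne_of_mem_erase hs)
    · exact h3
  have e1 : insert e (C1.erase e ∩ C ∪ C1.erase e ∩ C') = C1 := by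
    rw [split_eq hC1, insert_erase h1]
  have e2 : C2 ∩ C ∪ C2 ∩ C' = C2 := split_eq hC2
  have hCin : ∀ s ∈ C, s ∈ C1.erase e ∨ s ∈ C2 := by
    intro s hs
    have h3 : s ∈ C1 ∪ C2 := by
      rw [hU]; exact mem_insert_of_mem (mem_union_left _ hs)
    rcases mem_union.1 h3 with h3 | h3
    · exact Or.inl (mem_erase.2 ⟨fun h => he (h ▸ hs), h3⟩)
    · exact Or.inr h3
  have hCin' : ∀ s ∈ C', s ∈ C1.erase e ∨ s ∈ C2 := by
    intro s hs
    have h3 : s ∈ C1 ∪ C2 := by
      rw [hU]; exact mem_insert_of_mem (mem_union_right _ hs)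
    rcases mem_union.1 h3 with h3 | h3
    · exact Or.inl (mem_erase.2 ⟨fun h => he' (h ▸ hs), h3⟩)
    · exact Or.inr h3
  have hu1 : (C1.erase e ∩ C) ∪ (C2 ∩ C) = C := by
    ext s
    simp only [mem_union, mem_inter]
    constructor
    · rintro (h | h) <;> exact h.2
    · intro hs
      rcases hCin s hs with h | h
      · exact Or.inl ⟨h, hs⟩
      · exact Or.inr ⟨h, hs⟩
  have hu2 : (C1.erase e ∩ C') ∪ (C2 ∩ C') = C' := by
    ext s
    simp only [mem_union, mem_inter]
    constructor
    · rintro (h | h) <;> exact h.2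
    · intro hs
      rcases hCin' s hs with h | h
      · exact Or.inl ⟨h, hs⟩
      · exact Or.inr ⟨h, hs⟩
  have hd12 : ∀ S S' : Finset (Fin (m + 1)), Disjoint (C1.erase e ∩ S) (C2 ∩ S') := fun S S' =>
    Finset.disjoint_of_subset_left (Finset.inter_subset_left.trans (Finset.erase_subset e C1))
      (Finset.disjoint_of_subset_right Finset.inter_subset_left h12)
  have hdC : ∀ S S' : Finset (Fin (m + 1)), Disjoint (S ∩ C) (S' ∩ C') := fun S S' =>
    Finset.disjoint_of_subset_left Finset.inter_subset_right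
      (Finset.disjoint_of_subset_right Finset.inter_subset_right hd)
  have n1 : e ∉ C1.erase e ∩ C := fun h => he (mem_of_mem_inter_right h)
  have n2 : e ∉ C1.erase e ∩ C' := fun h => he' (mem_of_mem_inter_right h)
  have n3 : e ∉ C2 ∩ C := fun h => he (mem_of_mem_inter_right h)
  have hU1 : Arr18.FN (EX H) (insert e (C1.erase e ∩ C)) (C2 ∩ C) F a := by
    refine nx_fn ha (hF.mat _ _ ?_ ?_ ⟨e, mem_insert_self _ _⟩ hY)
    · rw [Finset.disjoint_insert_left]; exact ⟨n3, hd12 C C⟩
    · rw [Finset.insert_union, hu1]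
  have hU2 : Arr18.FJ (EX H) e (C1.erase e ∩ C') (C2 ∩ C') G a' :=
    fj_of he' ha' (hd12 C' C') hu2 hG
  have h5 := Arr18.mul2 (T := fun c => F c * G c) (hdC (C1.erase e) (C1.erase e)) (hdC C2 C2)
    n1 n2 ha ha' hU1 hU2 (by
      intro j hj x1 hx1 x2 hx2 y1 hy1 y2 hy2
      congr 1
      · refine dep_eq hDF fun s hs => ?_
        have g1 : s ∉ C1.erase e ∩ C' := by
          rcases mem_insert.1 hs with rfl | hs
          · exact n2
          · exact fun h => Finset.disjoint_left.1 hd hs (mem_of_mem_inter_right h)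
        have g2 : s ∉ C2 ∩ C' := by
          rcases mem_insert.1 hs with rfl | hs
          · exact fun h => he' (mem_of_mem_inter_right h)
          · exact fun h => Finset.disjoint_left.1 hd hs (mem_of_mem_inter_right h)
        simp only [Pi.add_apply]
        rw [bx0 hx2 g1, bx0 hy2 g2]
        ring
      · refine dep_eq hDG fun s hs => ?_
        have g1 : s ∉ C1.erase e ∩ C := by
          rcases mem_insert.1 hs with rfl | hs
          · exact n1
          · exact fun h => Finset.disjoint_left.1 hd (mem_of_mem_inter_right h) hs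
        have g2 : s ∉ C2 ∩ C := by
          rcases mem_insert.1 hs with rfl | hs
          · exact n3
          · exact fun h => Finset.disjoint_left.1 hd (mem_of_mem_inter_right h) hs
        simp only [Pi.add_apply]
        rw [bx0 hx1 g1, bx0 hy1 g2]
        ring)
  rw [e1, e2] at h5
  exact h5

theorem conA {H : Fin (m + 1) → ℕ} {e : Fin (m + 1)} {C C' : Finset (Fin (m + 1))} {a a' : ℝ}
    {F G : (Fin (m + 1) → ℕ) → ℝ} {μ : ℕ → ℝ} (hμ : ∀ n, |μ n| ≤ 1) (he : e ∉ C) (he' : e ∉ C')
    (hd : Disjoint C C')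
    (ha : 0 ≤ a) (ha' : 0 ≤ a') (hDF : Dep (insert e C) F) (hDG : Dep (insert e C') G)
    (hF : FN H (insert e C) a F) (hG : FN H (insert e C') a' G) {C1 C2 : Finset (Fin (m + 1))}
    (h12 : Disjoint C1 C2) (hU : C1 ∪ C2 = C ∪ C')
    (hY : (C2 ∩ C).Nonempty) (hX : (C1 ∩ C').Nonempty) :
    Arr18.FN (EX H) C1 C2 (fun c => ∑ r ∈ range (H e + 1), μ r *
      (F (Function.update c e r) * G (Function.update c e r))) (a * a') := by
  have hC1 : C1 ⊆ C ∪ C' := hU ▸ subset_union_left
  have hC2 : C2 ⊆ C ∪ C' := hU ▸ subset_union_right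
  have e1 : C1 ∩ C ∪ C1 ∩ C' = C1 := split_eq hC1
  have e2 : C2 ∩ C ∪ C2 ∩ C' = C2 := split_eq hC2
  have hCC : C ⊆ C1 ∪ C2 := hU ▸ subset_union_left
  have hCC' : C' ⊆ C1 ∪ C2 := hU ▸ subset_union_right
  have hu1 : (C1 ∩ C) ∪ (C2 ∩ C) = C := by
    rw [← Finset.union_inter_distrib_right]
    exact Finset.inter_eq_right.2 hCC
  have hu2 : (C1 ∩ C') ∪ (C2 ∩ C') = C' := by
    rw [← Finset.union_inter_distrib_right]
    exact Finset.inter_eq_right.2 hCC'
  have hd12 : ∀ S S' : Finset (Fin (m + 1)), Disjoint (C1 ∩ S) (C2 ∩ S') := fun S S' =>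
    Finset.disjoint_of_subset_left Finset.inter_subset_left
      (Finset.disjoint_of_subset_right Finset.inter_subset_left h12)
  have hdC : ∀ S S' : Finset (Fin (m + 1)), Disjoint (S ∩ C) (S' ∩ C') := fun S S' =>
    Finset.disjoint_of_subset_left Finset.inter_subset_right
      (Finset.disjoint_of_subset_right Finset.inter_subset_right hd)
  have n1 : ∀ S : Finset (Fin (m + 1)), e ∉ S ∩ C := fun S h => he (mem_of_mem_inter_right h)
  have n2 : ∀ S : Finset (Fin (m + 1)), e ∉ S ∩ C' := fun S h => he' (mem_of_mem_inter_right h)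
  have hU1 : Arr18.FN (EX H) (insert e (C1 ∩ C)) (C2 ∩ C) F a := by
    refine nx_fn ha (hF.mat _ _ ?_ ?_ ⟨e, mem_insert_self _ _⟩ hY)
    · rw [Finset.disjoint_insert_left]; exact ⟨n1 _, hd12 C C⟩
    · rw [Finset.insert_union, hu1]
  have hU2 : Arr18.FN (EX H) (C1 ∩ C') (insert e (C2 ∩ C')) G a' := by
    refine nx_fn ha' (hG.mat _ _ ?_ ?_ hX ⟨e, mem_insert_self _ _⟩)
    · rw [Finset.disjoint_insert_right]; exact ⟨n2 _, hd12 C' C'⟩
    · rw [Finset.union_insert, hu2]
  have h5 := Arr18.star2 (T := fun c => ∑ r ∈ range (H e + 1), μ r *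
      (F (Function.update c e r) * G (Function.update c e r))) (hdC C1 C1) (hdC C2 C2)
    (n1 C1) (n2 C2) ha ha' hU1 hU2 (b := μ) (fun j _ => hμ j) (by
      intro x1 hx1 x2 hx2 y1 hy1 y2 hy2
      refine Finset.sum_congr rfl fun j _ => ?_
      congr 1
      congr 1
      · refine dep_eq hDF fun s hs => ?_
        by_cases hse : s = e
        · subst hse
          rw [Function.update_self]
          simp only [Pi.add_apply, Pi.single_eq_same]
          rw [bx0 hx1 (n1 C1), bx0 hy1 (n1 C2)]
          ring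
        · rw [Function.update_of_ne hse]
          have hsC : s ∈ C := (mem_insert.1 hs).resolve_left hse
          simp only [Pi.add_apply, Pi.single_eq_of_ne hse]
          rw [bx0 hx2 (s := s) (fun h => Finset.disjoint_left.1 hd hsC (mem_of_mem_inter_right h)),
            bx0 hy2 (s := s) (fun h => Finset.disjoint_left.1 hd hsC (mem_of_mem_inter_right h))]
          ring
      · refine dep_eq hDG fun s hs => ?_
        by_cases hse : s = e
        · subst hse
          rw [Function.update_self]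
          simp only [Pi.add_apply, Pi.single_eq_same]
          rw [bx0 hx2 (n2 C1), bx0 hy2 (n2 C2)]
          ring
        · rw [Function.update_of_ne hse]
          have hsC : s ∈ C' := (mem_insert.1 hs).resolve_left hse
          simp only [Pi.add_apply, Pi.single_eq_of_ne hse]
          rw [bx0 hx1 (s := s) (fun h => Finset.disjoint_right.1 hd hsC (mem_of_mem_inter_right h)),
            bx0 hy1 (s := s) (fun h => Finset.disjoint_right.1 hd hsC (mem_of_mem_inter_right h))]
          ring)
  rw [e1, e2] at h5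
  exact h5

/-- rows are bounded -/
theorem row_sq {H : Fin (m + 1) → ℕ} {e : Fin (m + 1)} {C : Finset (Fin (m + 1))} {a : ℝ}
    {F : (Fin (m + 1) → ℕ) → ℝ} (he : e ∉ C) (hC : C.Nonempty) (ha : 0 ≤ a)
    (hF : FN H (insert e C) a F) {x : Fin (m + 1) → ℕ} (hx : x ∈ bx H C 0) :
    ∑ r ∈ range (H e + 1), F (Pi.single e r + x) ^ 2 ≤ a ^ 2 := by
  have h1 := hF.mat {e} C (Finset.disjoint_singleton_left.2 he) (by
    rw [Finset.insert_eq]) ⟨e, mem_singleton_self e⟩ hC (fun y => if y = x then 1 else 0)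
  have e1 : ∑ y ∈ bx H C 0, (if y = x then (1 : ℝ) else 0) ^ 2 = 1 := by
    rw [Finset.sum_eq_single_of_mem x hx]
    · rw [if_pos rfl]; norm_num
    · intro y _ hy
      rw [if_neg hy]; norm_num
  rw [e1, mul_one, bxeq, Arr18.sum_bx_single] at h1
  refine le_trans (le_of_eq ?_) h1
  refine Finset.sum_congr rfl fun r _ => ?_
  congr 1
  rw [Finset.sum_eq_single_of_mem x hx]
  · rw [if_pos rfl, mul_one]
  · intro y _ hy
    rw [if_neg hy, mul_zero]

/-- the part of an index on `C` -/
theorem rs_mem {H : Fin (m + 1) → ℕ} {C D : Finset (Fin (m + 1))} (hCD : C ⊆ D)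
    {z : Fin (m + 1) → ℕ} (hz : z ∈ bx H D 0) : Arr18.rs C z ∈ bx H C 0 := by
  rw [bxeq, Arr18.mem_bx] at hz ⊢
  refine ⟨fun s hs => ?_, fun s hs => ?_⟩
  · simp only [Arr18.rs, hs, if_true]
    exact hz.1 s (hCD hs)
  · simp only [Arr18.rs, hs, if_false]

theorem arrF (m : ℕ) : ArrF m where
  mono H C a b F ha hab h :=
    ⟨fun x hx => (h.sup x hx).trans hab, fun C1 C2 h1 h2 h3 h4 u =>
      (h.mat C1 C2 h1 h2 h3 h4 u).trans (mul_le_mul_of_nonneg_right
        (pow_le_pow_left₀ ha hab 2) (Finset.sum_nonneg fun _ _ => sq_nonneg _))⟩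
  add H C a b F G ha hb hF hG :=
    ⟨fun x hx => (abs_add_le _ _).trans (add_le_add (hF.sup x hx) (hG.sup x hx)),
      fun C1 C2 h1 h2 h3 h4 => fn_nx (add_nonneg ha hb)
        ((nx_fn ha (hF.mat C1 C2 h1 h2 h3 h4)).add (nx_fn hb (hG.mat C1 C2 h1 h2 h3 h4)))⟩
  smul H C a r F ha hF :=
    ⟨fun x hx => by
      rw [abs_mul]
      exact mul_le_mul_of_nonneg_left (hF.sup x hx) (abs_nonneg r),
      fun C1 C2 h1 h2 h3 h4 => fn_nx (mul_nonneg (abs_nonneg r) ha)
        ((nx_fn ha (hF.mat C1 C2 h1 h2 h3 h4)).smul r)⟩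
  cg H C a F G hFG hF :=
    ⟨fun x hx => by rw [← hFG x hx]; exact hF.sup x hx,
      fun C1 C2 h1 h2 h3 h4 u => by
        have h5 := hF.mat C1 C2 h1 h2 h3 h4 u
        refine le_trans (le_of_eq ?_) h5
        refine Finset.sum_congr rfl fun x hx => ?_
        congr 1
        refine Finset.sum_congr rfl fun y hy => ?_
        rw [hFG (x + y) (h2 ▸ bx_add h1 hx hy)]⟩
  uni H C a j μ F ha hμ hF :=
    ⟨fun x hx => by
      rw [abs_mul]
      exact (mul_le_of_le_one_left (abs_nonneg _) (hμ _)).trans (hF.sup x hx),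
      fun C1 C2 h1 h2 h3 h4 => fn_nx ha ((nx_fn ha (hF.mat C1 C2 h1 h2 h3 h4)).diag ha
        (a := fun x => if j ∈ C1 then μ (x j) else 1)
        (b := fun y => if j ∈ C1 then 1 else μ (y j))
        (fun x => by
          by_cases hj : j ∈ C1
          · simp only [hj, if_true]; exact hμ _
          · simp only [hj, if_false, abs_one, le_refl])
        (fun x => by
          by_cases hj : j ∈ C1
          · simp only [hj, if_true, abs_one, le_refl]
          · simp only [hj, if_false]; exact hμ _)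
        (c := fun c => μ (c j))
        (fun x hx y hy => by
          by_cases hj : j ∈ C1
          · simp only [hj, if_true]
            rw [Pi.add_apply, bx0 hy (Finset.disjoint_left.1 h1 hj), add_zero, mul_one]
          · simp only [hj, if_false]
            rw [Pi.add_apply, bx0 hx hj, zero_add, one_mul]))⟩
  tr H C1 C2 a F ha h := fn_nx ha (nx_fn ha h).symm
  had H e C C' a a' F G he he' hd ha ha' hDF hDG hF hG := by
    refine ⟨fun z hz => ?_, fun C1 C2 h1 h2 h3 h4 => ?_⟩
    · have g1 : |F z| ≤ a := by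
        rw [dep_eq hDF (c' := Arr18.rs (insert e C) z) (fun s hs => by
          simp only [Arr18.rs, hs, if_true])]
        exact hF.sup _ (rs_mem (Finset.insert_subset_insert e subset_union_left) hz)
      have g2 : |G z| ≤ a' := by
        rw [dep_eq hDG (c' := Arr18.rs (insert e C') z) (fun s hs => by
          simp only [Arr18.rs, hs, if_true])]
        exact hG.sup _ (rs_mem (Finset.insert_subset_insert e subset_union_right) hz)
      rw [abs_mul]
      exact mul_le_mul g1 g2 (abs_nonneg _) ha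
    · -- the case `e ∈ D1`
      have key : ∀ D1 D2 : Finset (Fin (m + 1)), Disjoint D1 D2 → D1 ∪ D2 = insert e (C ∪ C') →
          D2.Nonempty → e ∈ D1 → Arr18.FN (EX H) D1 D2 (fun c => F c * G c) (a * a') := by
        intro D1 D2 hD hDU hD2 heD
        obtain ⟨s, hs⟩ := hD2
        have g1 : s ∈ insert e (C ∪ C') := hDU ▸ mem_union_right D1 hs
        have g2 : s ≠ e := fun h => Finset.disjoint_left.1 hD heD (h ▸ hs)
        rcases mem_union.1 ((mem_insert.1 g1).resolve_left g2) with g3 | g3
        · exact hadA he he' hd ha ha' hDF hDG hF hG hD hDU heD ⟨s, mem_inter.2 ⟨hs, g3⟩⟩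
        · have g4 := hadA he' he hd.symm ha' ha hDG hDF hG hF hD (by
            rw [hDU, Finset.union_comm C C']) heD ⟨s, mem_inter.2 ⟨hs, g3⟩⟩
          rw [mul_comm a' a] at g4
          exact g4.congr fun x _ y _ => mul_comm _ _
      refine fn_nx (mul_nonneg ha ha') ?_
      have h5 : e ∈ C1 ∪ C2 := h2 ▸ mem_insert_self _ _
      rcases mem_union.1 h5 with h5 | h5
      · exact key C1 C2 h1 h2 h4 h5
      · exact (key C2 C1 h1.symm (by rw [Finset.union_comm]; exact h2) h3 h5).symm
  con H e C C' a a' μ F G he he' hd hC hC' ha ha' hμ hDF hDG hF hG := by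
    refine ⟨fun z hz => ?_, fun C1 C2 h1 h2 h3 h4 => ?_⟩
    · have g1 : ∀ r, F (Function.update z e r) = F (Pi.single e r + Arr18.rs C z) := by
        intro r
        refine dep_eq hDF fun s hs => ?_
        by_cases hse : s = e
        · subst hse
          rw [Function.update_self, Pi.add_apply, Pi.single_eq_same]
          simp only [Arr18.rs, he, if_false, add_zero]
        · rw [Function.update_of_ne hse, Pi.add_apply, Pi.single_eq_of_ne hse]
          simp only [Arr18.rs, (mem_insert.1 hs).resolve_left hse, if_true, zero_add]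
      have g2 : ∀ r, G (Function.update z e r) = G (Pi.single e r + Arr18.rs C' z) := by
        intro r
        refine dep_eq hDG fun s hs => ?_
        by_cases hse : s = e
        · subst hse
          rw [Function.update_self, Pi.add_apply, Pi.single_eq_same]
          simp only [Arr18.rs, he', if_false, add_zero]
        · rw [Function.update_of_ne hse, Pi.add_apply, Pi.single_eq_of_ne hse]
          simp only [Arr18.rs, (mem_insert.1 hs).resolve_left hse, if_true, zero_add]
      have g3 := row_sq he hC ha hF (rs_mem subset_union_left hz)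
      have g4 := row_sq he' hC' ha' hG (rs_mem subset_union_right hz)
      have g5 : |∑ r ∈ range (H e + 1), μ r *
          (F (Function.update z e r) * G (Function.update z e r))| ≤
          ∑ r ∈ range (H e + 1), |F (Pi.single e r + Arr18.rs C z)| *
            |G (Pi.single e r + Arr18.rs C' z)| := by
        refine (Finset.abs_sum_le_sum_abs _ _).trans (Finset.sum_le_sum fun r _ => ?_)
        rw [abs_mul, abs_mul, g1, g2]
        exact mul_le_of_le_one_left (mul_nonneg (abs_nonneg _) (abs_nonneg _)) (hμ r)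
      refine g5.trans ?_
      have g6 := Finset.sum_mul_sq_le_sq_mul_sq (range (H e + 1))
        (fun r => |F (Pi.single e r + Arr18.rs C z)|)
        (fun r => |G (Pi.single e r + Arr18.rs C' z)|)
      simp only [sq_abs] at g6
      have g7 := g6.trans (mul_le_mul g3 g4 (Finset.sum_nonneg fun _ _ => sq_nonneg _)
        (sq_nonneg _))
      rw [← mul_pow] at g7
      exact (le_abs_self _).trans (abs_le_of_sq_le_sq g7 (mul_nonneg ha ha'))
    · refine fn_nx (mul_nonneg ha ha') ?_
      -- one of the two cases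
      by_cases g : (C2 ∩ C).Nonempty ∧ (C1 ∩ C').Nonempty
      · exact conA hμ he he' hd ha ha' hDF hDG hF hG h1 h2 g.1 g.2
      · have g' : (C2 ∩ C').Nonempty ∧ (C1 ∩ C).Nonempty := by
          have cover : ∀ s ∈ C ∪ C', s ∈ C1 ∨ s ∈ C2 := fun s hs => mem_union.1 (h2 ▸ hs)
          have cover1 : ∀ s ∈ C1, s ∈ C ∨ s ∈ C' := fun s hs =>
            mem_union.1 (h2 ▸ mem_union_left C2 hs)
          have cover2 : ∀ s ∈ C2, s ∈ C ∨ s ∈ C' := fun s hs =>
            mem_union.1 (h2 ▸ mem_union_right C1 hs)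
          rw [not_and_or, Finset.not_nonempty_iff_eq_empty, Finset.not_nonempty_iff_eq_empty] at g
          rcases g with g | g
          · obtain ⟨s, hs⟩ := h4
            obtain ⟨t, ht⟩ := hC
            have k1 : s ∈ C' := by
              rcases cover2 s hs with k | k
              · exact absurd (mem_inter.2 ⟨hs, k⟩) (g ▸ Finset.notMem_empty s)
              · exact k
            have k2 : t ∈ C1 := by
              rcases cover t (mem_union_left _ ht) with k | k
              · exact k
              · exact absurd (mem_inter.2 ⟨k, ht⟩) (g ▸ Finset.notMem_empty t)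
            exact ⟨⟨s, mem_inter.2 ⟨hs, k1⟩⟩, ⟨t, mem_inter.2 ⟨k2, ht⟩⟩⟩
          · obtain ⟨s, hs⟩ := h3
            obtain ⟨t, ht⟩ := hC'
            have k1 : s ∈ C := by
              rcases cover1 s hs with k | k
              · exact k
              · exact absurd (mem_inter.2 ⟨hs, k⟩) (g ▸ Finset.notMem_empty s)
            have k2 : t ∈ C2 := by
              rcases cover t (mem_union_right _ ht) with k | k
              · exact absurd (mem_inter.2 ⟨k, ht⟩) (g ▸ Finset.notMem_empty t)
              · exact k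
            exact ⟨⟨t, mem_inter.2 ⟨k2, ht⟩⟩, ⟨s, mem_inter.2 ⟨hs, k1⟩⟩⟩
        have g4 := conA hμ he' he hd.symm ha' ha hDG hDF hG hF h1 (by
            rw [h2, Finset.union_comm C C']) g'.1 g'.2
        rw [mul_comm a' a] at g4
        refine g4.congr fun x _ y _ => Finset.sum_congr rfl fun r _ => ?_
        rw [mul_comm (G _)]

end ArrX18

/-- ARR -/
theorem arr_18 : StArr := ArrX18.arrF

end Pool.Agent.SHXA
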