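import Pool.Agent.Lib.MP_a7b2aa_an.SHX.StmtsX65

/-!
SHX, track ALL, module BAYX (helper97): the exact law on the good classes.
-/

set_option autoImplicit false

namespace Pool.Agent.SHXA

open Finset Pool.Agent.SB3 Pool.Agent.SBT Pool.Agent.SBD Pool.Agent.SHD Pool.Agent.SHX
open Pool.Agent.Lib.MP_a7b2aa_an.SHX

theorem mem_bx97 {m : ℕ} {H : Fin (m + 1) → ℕ} {Q : Finset (Fin (m + 1))}
    {c l : Fin (m + 1) → ℕ} :
    l ∈ bx H Q c ↔ ∀ a, (a ∈ Q → l a ≤ H a) ∧ (a ∉ Q → l a = c a) := by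
  unfold bx
  rw [Fintype.mem_piFinset]
  refine forall_congr' fun a => ?_
  by_cases h : a ∈ Q
  · simp [h]
  · simp [h]

theorem Ph_cg97 {m : ℕ} (H d : Fin (m + 1) → ℕ) (w : Fin (m + 1) → Finset ℕ)
    (Q : Finset (Fin (m + 1))) (F G : (Fin (m + 1) → ℕ) → ℝ) (c : Fin (m + 1) → ℕ)
    (h : ∀ l ∈ bx H Q c, F l = G l) : Ph H d w Q F c = Ph H d w Q G c := by
  unfold Ph
  exact Finset.sum_congr rfl fun l hl => by rw [h l hl]

theorem bx_le97 {m : ℕ} {H : Fin (m + 1) → ℕ} {Q : Finset (Fin (m + 1))}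
    {c l : Fin (m + 1) → ℕ} (hl : l ∈ bx H Q c) (hc : ∀ a, a ∉ Q → c a ≤ H a) :
    ∀ a, l a ≤ H a := by
  intro a
  by_cases h : a ∈ Q
  · exact (mem_bx97.1 hl a).1 h
  · rw [(mem_bx97.1 hl a).2 h]
    exact hc a h

theorem add_le97 {m : ℕ} {H : Fin (m + 1) → ℕ} {C1 C2 : Finset (Fin (m + 1))}
    (hd : Disjoint C1 C2) {x y : Fin (m + 1) → ℕ} (hx : x ∈ bx H C1 0) (hy : y ∈ bx H C2 0) :
    ∀ a, (x + y) a ≤ H a := by
  intro a
  rw [Pi.add_apply]
  by_cases h : a ∈ C1
  · have h2 : a ∉ C2 := Finset.disjoint_left.1 hd h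
    have e : y a = 0 := (mem_bx97.1 hy a).2 h2
    rw [e, add_zero]
    exact (mem_bx97.1 hx a).1 h
  · have e : x a = 0 := (mem_bx97.1 hx a).2 h
    rw [e, zero_add]
    exact bx_le97 hy (fun b _ => by simp) a

theorem FN_cg97 {m : ℕ} {H : Fin (m + 1) → ℕ} {C : Finset (Fin (m + 1))} {b : ℝ}
    {F G : (Fin (m + 1) → ℕ) → ℝ} (h : ∀ c, (∀ a, c a ≤ H a) → F c = G c)
    (hF : FN H C b F) : FN H C b G := by
  constructor
  · intro x hx
    rw [← h x (bx_le97 hx (fun b _ => by simp))]
    exact hF.sup x hx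
  · intro C1 C2 hd hu h1 h2 u
    have key := hF.mat C1 C2 hd hu h1 h2 u
    refine le_trans (le_of_eq ?_) key
    refine Finset.sum_congr rfl fun x hx => ?_
    congr 1
    refine Finset.sum_congr rfl fun y hy => ?_
    rw [h (x + y) (add_le97 hd hx hy)]

theorem Nm_cg97 {m K : ℕ} {H : Fin (m + 1) → ℕ} {C : Finset (Fin (m + 1))} {b : ℝ}
    {F G : (Fin (m + 1) → ℕ) → ℝ} (h : ∀ c, (∀ a, c a ≤ H a) → F c = G c)
    (hF : Nm K H C b F) : Nm K H C b G := by
  intro w hw
  refine FN_cg97 (fun c hc => ?_) (hF w hw)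
  exact Ph_cg97 H tm w Cᶜ F G c fun l hl => h l (bx_le97 hl (fun a _ => hc a))

theorem msG97 {m L K : ℕ} {lam : ℝ} {bs : ℕ → ℝ} {u Z W : (Fin (m + 1) → ℕ) → Pt m L → ℝ}
    {ka : Finset (Fin (m + 1)) → (Fin (m + 1) → ℕ) → Pt m L → ℝ} (E : Exact lam u Z ka W)
    (h : Fin (m + 1) → ℕ) : Ms h (Gk K bs ka h) := by
  intro ω ω' hc
  have e : ∀ (B : Finset (Fin (m + 1))) (c : Fin (m + 1) → ℕ), (∀ a, c a ≤ h a) →
      ka B c ω' = ka B c ω := fun B c hcl =>
    E.msk B c ω ω' (cl_mono (fun a => Or.inl (hcl a)) hc)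
  refine propext ⟨fun hG B hB => ?_, fun hG B hB => ?_⟩
  · exact Nm_cg97 (fun c hcl => e B c hcl) (hG B hB)
  · exact Nm_cg97 (fun c hcl => (e B c hcl).symm) (hG B hB)

/-- a function which vanishes on the box -/
theorem FN_zero97 {m : ℕ} {H : Fin (m + 1) → ℕ} {C : Finset (Fin (m + 1))} {b : ℝ}
    {F : (Fin (m + 1) → ℕ) → ℝ} (hb : 0 ≤ b) (h : ∀ c, (∀ a, c a ≤ H a) → F c = 0) :
    FN H C b F := by
  constructor
  · intro x hx
    rw [h x (bx_le97 hx (fun b _ => by simp)), abs_zero]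
    exact hb
  · intro C1 C2 hd hu h1 h2 u
    have : ∑ x ∈ bx H C1 0, (∑ y ∈ bx H C2 0, F (x + y) * u y) ^ 2 = 0 := by
      refine Finset.sum_eq_zero fun x hx => ?_
      rw [Finset.sum_eq_zero, zero_pow two_ne_zero]
      intro y hy
      rw [h (x + y) (add_le97 hd hx hy), zero_mul]
    rw [this]
    exact mul_nonneg (sq_nonneg b) (Finset.sum_nonneg fun y _ => sq_nonneg _)

theorem bx_zero97 {m : ℕ} (C : Finset (Fin (m + 1))) :
    bx (fun _ => 0) C (0 : Fin (m + 1) → ℕ) = {0} := by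
  ext l
  rw [mem_bx97, Finset.mem_singleton]
  constructor
  · intro h
    funext a
    by_cases ha : a ∈ C
    · exact Nat.le_zero.1 ((h a).1 ha)
    · exact (h a).2 ha
  · rintro rfl a
    exact ⟨fun _ => le_refl _, fun _ => rfl⟩

theorem start97 {m L K N R : ℕ} {lam b η : ℝ} {bs : ℕ → ℝ}
    {u Z W : (Fin (m + 1) → ℕ) → Pt m L → ℝ}
    {ka : Finset (Fin (m + 1)) → (Fin (m + 1) → ℕ) → Pt m L → ℝ} (E : Exact lam u Z ka W)
    (hA : ArF N R u) (hl : 0 ≤ lam) (hη : 0 ≤ η)
    (h2 : (2 * (R : ℝ) + 1) ^ 2 * lam ^ 2 * ((L : ℝ) + 1) ^ (m - 1) ≤ η ^ 2)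
    (hS : Sz m b η bs) (ω : Pt m L) : Gk K bs ka (fun _ => 0) ω := by
  have hlam : lam ≤ η := by
    have h3 : lam ^ 2 ≤ η ^ 2 := by
      refine le_trans ?_ h2
      have a1 : (1 : ℝ) ≤ (2 * (R : ℝ) + 1) ^ 2 := by
        have : (0 : ℝ) ≤ R := Nat.cast_nonneg _
        nlinarith
      have a2 : (1 : ℝ) ≤ ((L : ℝ) + 1) ^ (m - 1) := by
        refine one_le_pow₀ ?_
        have : (0 : ℝ) ≤ L := Nat.cast_nonneg _
        linarith
      have a3 : lam ^ 2 ≤ (2 * (R : ℝ) + 1) ^ 2 * lam ^ 2 :=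
        le_mul_of_one_le_left (sq_nonneg _) a1
      exact a3.trans (le_mul_of_one_le_right (by positivity) a2)
    exact (sq_le_sq₀ hl hη).1 h3
  intro B hB w hw
  by_cases hBu : B = univ
  · subst hBu
    have hcard : (univ : Finset (Fin (m + 1))).card = m + 1 := by simp
    rw [hcard]
    have hv : |ka univ (fun _ => 0) ω| ≤ bs (m + 1) := by
      rw [E.top, abs_mul, abs_of_nonneg hl]
      have h4 := hA.abs (fun _ => 0) ω
      calc lam * |u (fun _ => 0) ω| ≤ lam * 1 := mul_le_mul_of_nonneg_left h4 hl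
        _ = lam := mul_one _
        _ ≤ η := hlam
        _ ≤ bs (m + 1) := hS.top
    have hPh : ∀ c : Fin (m + 1) → ℕ, (∀ a, c a ≤ 0) →
        Ph (fun _ => 0) tm w (univ : Finset (Fin (m + 1)))ᶜ (fun c => ka univ c ω) c =
          ka univ (fun _ => 0) ω := by
      intro c hc
      have e0 : c = 0 := by
        funext a
        exact Nat.le_zero.1 (hc a)
      subst e0
      unfold Ph
      rw [bx_zero97, Finset.sum_singleton]
      simp
      rfl
    have key : FN (fun _ => 0) univ (bs (m + 1))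
        (fun _ : Fin (m + 1) → ℕ => ka univ (fun _ => 0) ω) := by
      constructor
      · intro x _
        exact hv
      · intro C1 C2 _ _ _ _ v
        rw [bx_zero97, bx_zero97]
        simp only [Finset.sum_singleton]
        rw [mul_pow]
        refine mul_le_mul_of_nonneg_right ?_ (sq_nonneg _)
        exact sq_le_sq' (by linarith [abs_le.1 hv |>.1]) (le_trans (le_abs_self _) hv)
    exact FN_cg97 (fun c hc => (hPh c hc).symm) key
  · refine FN_zero97 (hS.nn _) fun c hc => ?_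
    obtain ⟨p, hp⟩ : ∃ p, p ∉ B := by
      by_contra hcon
      push Not at hcon
      exact hBu (Finset.eq_univ_iff_forall.2 hcon)
    unfold Ph
    refine Finset.sum_eq_zero fun l hl => ?_
    have hl0 : l p = 0 := Nat.le_zero.1 (bx_le97 hl (fun a _ => hc a) p)
    show (∏ j ∈ Bᶜ, wt 0 (tm j) (w j) (l j)) * ka B l ω = 0
    rw [E.van B l ω p hB hp hl0, mul_zero]

/-- BAYX -/
theorem bayx_97 (hP : StPrd) : StBayx := by
  intro m L K N R lam b η bs u Z ka W hm hL hLK E hA hl hη h2 hS hb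
  have hT : (0 : ℝ) ≤ T0 K := by
    unfold T0
    positivity
  have habs : ∀ (c : Fin (m + 1)) (h : Fin (m + 1) → ℕ) (ω : Pt m L), (∀ a, h a ≤ L) →
      Gk K bs ka h ω → |ka {c} h ω| ≤ 1 / 2 := by
    intro c h ω hh hG
    have hN := hG {c} (Finset.singleton_nonempty c)
    have hN2 : Nm K h {c} b (fun c' => ka {c} c' ω) := by
      intro w hw
      have h3 := hN w hw
      have hle := hS.le ({c} : Finset (Fin (m + 1))).card
      have hnn := hS.nn ({c} : Finset (Fin (m + 1))).card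
      constructor
      · intro x hx
        exact (h3.sup x hx).trans hle
      · intro C1 C2 hd hu h1 h22 v
        refine (h3.mat C1 C2 hd hu h1 h22 v).trans ?_
        refine mul_le_mul_of_nonneg_right ?_ (Finset.sum_nonneg fun y _ => sq_nonneg _)
        exact pow_le_pow_left₀ hnn hle 2
    have hb0 : 0 ≤ b := (hS.nn 0).trans (hS.le 0)
    have key := (hP m).sup K h {c} b (fun c' => ka {c} c' ω)
      (fun j => lt_of_le_of_lt (hh j) hLK) hb0
      (fun c' p hp h0 => E.van {c} c' ω p (Finset.singleton_nonempty c) hp h0) hN2 h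
      (fun j => le_refl _)
    have key2 : |ka {c} h ω| ≤ T0 K ^ (m + 1) * b := key
    linarith
  have hpos : ∀ n (h : Fin (m + 1) → ℕ) (ω : Pt m L), ∑ a, h a = n → (∀ a, h a ≤ L) →
      Gl (Gk K bs ka) h ω → 0 < Z h ω := by
    intro n
    induction n with
    | zero =>
      intro h ω hs _ _
      have h0 : h 0 = 0 := by
        have := Finset.sum_eq_zero_iff.1 hs 0 (Finset.mem_univ _)
        exact this
      rw [E.zero h ω ⟨0, h0⟩]
      exact one_pos
    | succ n ih =>
      intro h ω hs hh hG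
      by_cases hz : ∃ a, h a = 0
      · rw [E.zero h ω hz]
        exact one_pos
      · push Not at hz
        set c : Fin (m + 1) := 0 with hc
        have hc1 : 1 ≤ h c := Nat.one_le_iff_ne_zero.2 (hz c)
        set h' : Fin (m + 1) → ℕ := Function.update h c (h c - 1) with hh'
        have e1 : h' c = h c - 1 := Function.update_self ..
        have e2 : upc h' c = h := by
          unfold upc
          rw [e1, hh', Function.update_idem, Nat.sub_add_cancel hc1, Function.update_eq_self]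
        have hle : h' ≤ h := by
          intro a
          by_cases hac : a = c
          · subst hac
            rw [e1]
            exact Nat.sub_le _ _
          · rw [hh', Function.update_of_ne hac]
        have hne : ∀ r, r ≤ h' → r ≤ h ∧ r ≠ h := by
          intro r hr
          refine ⟨hr.trans hle, ?_⟩
          intro hEq
          have h5 : r c ≤ h' c := hr c
          rw [e1, hEq] at h5
          omega
        have hGd : Gd (Gk K bs ka) h' ω := fun r hr => hG r (hne r hr).1 (hne r hr).2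
        have hGl : Gl (Gk K bs ka) h' ω := fun r hr _ => hGd r hr
        have hL' : ∀ a, h' a ≤ L := fun a => (hle a).trans (hh a)
        have hs' : ∑ a, h' a = n := by
          have e3 : ∑ a, h a = ∑ a, h' a + 1 := by
            rw [← Finset.sum_erase_add _ _ (Finset.mem_univ c),
              ← Finset.sum_erase_add (univ : Finset (Fin (m + 1))) h' (Finset.mem_univ c), e1]
            have : ∑ x ∈ univ.erase c, h' x = ∑ x ∈ univ.erase c, h x := by
              refine Finset.sum_congr rfl fun x hx => ?_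
              rw [hh', Function.update_of_ne (Finset.ne_of_mem_erase hx)]
            rw [this]
            omega
          omega
        have hZ := ih h' ω hs' hL' hGl
        have hst := E.step h' c ω (ne_of_gt hZ)
        rw [e2] at hst
        rw [hst]
        refine mul_pos hZ ?_
        have hb1 := habs c h' ω hL' (hGd h' (le_refl _))
        have hsb : |sb c (h' c) ω * ka {c} h' ω| ≤ 1 / 2 := by
          rw [abs_mul, sb_abs, one_mul]
          exact hb1
        linarith [(abs_le.1 hsb).1]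
  have hposl : ∀ h ω, (∀ a, h a ≤ L) → Gl (Gk K bs ka) h ω → 0 < Z h ω :=
    fun h ω hh hG => hpos _ h ω rfl hh hG
  have hposd : ∀ h ω, (∀ a, h a ≤ L) → Gd (Gk K bs ka) h ω → 0 < Z h ω :=
    fun h ω hh hG => hposl h ω hh (fun r hr _ => hG r hr)
  refine ⟨?_, hposd, hposl⟩
  constructor
  · exact fun h => msG97 E h
  · exact fun c h => E.msk {c} h
  · exact fun h => E.msZ h
  · exact fun ω => start97 E hA hl hη h2 hS ω
  · exact fun h ω hz => E.zero h ω hz
  · exact fun c h ω hh _ hG => habs c h ω hh (hG h (le_refl _))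
  · exact fun c h ω hh _ hG => E.step h c ω (ne_of_gt (hposd h ω hh hG))

end Pool.Agent.SHXA
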