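import Pool.Agent.Lib.MP_a7b2aa_an.SHX.StmtsX65

/-!
SHX, track ALL (helper30): EXACTW, the existence of the exact law, with the relation between the
top coefficient and the top cumulant.
-/

set_option autoImplicit false

namespace Pool.Agent.SHXA

open Finset Pool.Agent.SB3 Pool.Agent.SBT Pool.Agent.SBD Pool.Agent.SHD Pool.Agent.SHX
open Pool.Agent.Lib.MP_a7b2aa_an.SHX

/-- EXACTW: existence of the exact law; the top coefficient is the top cumulant up to products of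
at least two cumulants -/
def StExactW : Prop := ∀ m : ℕ, ∃ c : ℝ, 1 ≤ c ∧
  ∀ (L : ℕ) (lam : ℝ) (u : (Fin (m + 1) → ℕ) → Pt m L → ℝ), (∀ q, Ms q (u q)) →
    ∃ (Z : (Fin (m + 1) → ℕ) → Pt m L → ℝ)
      (ka : Finset (Fin (m + 1)) → (Fin (m + 1) → ℕ) → Pt m L → ℝ)
      (W : (Fin (m + 1) → ℕ) → Pt m L → ℝ), Exact lam u Z ka W ∧
      ∀ (q : Fin (m + 1) → ℕ) (ω : Pt m L) (x : ℝ), Z q ω ≠ 0 → x ≤ 1 / 2 →
        (∀ B : Finset (Fin (m + 1)), B.Nonempty → |ka B q ω| ≤ x) →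
        |W q ω - Z q ω * ka univ q ω| ≤ c * x ^ 2 * |Z q ω|

end Pool.Agent.SHXA
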