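import Pool.Agent.Lib.MP_a7b2aa_an.SHX.ExB25
import Pool.Agent.Lib.MP_a7b2aa_an.SHX.StmtsW30

/-!
SHX, track ALL (helper25): module EXACTW, the top coefficient and the top cumulant.
-/

set_option autoImplicit false

open Finset

namespace Pool.Agent.SHX.Ex25

open Pool.Agent.SB3 Pool.Agent.SBT Pool.Agent.SBD Pool.Agent.SHD Pool.Agent.SHX Pool.Agent.SHXA

variable {m L : ℕ}

theorem log_rec {K M : SC (Fin (m + 1))} (h : SC.IsLog K M) {A : Finset (Fin (m + 1))}
    {a : Fin (m + 1)} (ha : a ∈ A) :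
    M A - K A = ∑ C ∈ A.powerset.erase ∅, M C * (if a ∈ A \ C then K (A \ C) else 0) := by
  have h1 := congrFun (h.2.2 a) A
  rw [SC.E_apply, if_pos ha, SC.mul_apply,
    ← Finset.add_sum_erase _ _ (Finset.empty_mem_powerset A), Finset.sdiff_empty, h.2.1, one_mul,
    SC.E_apply, if_pos ha] at h1
  rw [h1, add_sub_cancel_left]
  rfl

theorem log_bd {K M : SC (Fin (m + 1))} (h : SC.IsLog K M) {x : ℝ} (hx : x ≤ 1 / 2)
    (hK : ∀ B : Finset (Fin (m + 1)), B.Nonempty → |K B| ≤ x) (n : ℕ) :
    ∀ A : Finset (Fin (m + 1)), A.card = n + 1 →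
      |M A - K A| ≤ (2 ^ (m + 1)) ^ (n + 1) * x ^ 2 ∧ |M A| ≤ (2 ^ (m + 1)) ^ (n + 1) * x := by
  induction n using Nat.strong_induction_on with
  | _ n ih =>
    intro A hA
    have hne : A.Nonempty := Finset.card_pos.1 (by omega)
    obtain ⟨a, ha⟩ := hne
    have hx0 : 0 ≤ x := (abs_nonneg _).trans (hK A ⟨a, ha⟩)
    have hQ : (2 : ℝ) ≤ 2 ^ (m + 1) := by
      calc (2 : ℝ) = 2 ^ 1 := by norm_num
        _ ≤ 2 ^ (m + 1) := pow_le_pow_right₀ (by norm_num) (by omega)
    have h1 : |M A - K A| ≤ (2 ^ (m + 1)) ^ (n + 1) * x ^ 2 := by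
      rw [log_rec h ha]
      calc |∑ C ∈ A.powerset.erase ∅, M C * (if a ∈ A \ C then K (A \ C) else 0)|
          ≤ ∑ C ∈ A.powerset.erase ∅, |M C * (if a ∈ A \ C then K (A \ C) else 0)| :=
            Finset.abs_sum_le_sum_abs _ _
        _ ≤ ∑ C ∈ A.powerset.erase ∅, (2 ^ (m + 1)) ^ n * x ^ 2 := by
            refine Finset.sum_le_sum fun C hC => ?_
            rw [Finset.mem_erase, Finset.mem_powerset] at hC
            by_cases hac : a ∈ A \ C
            · rw [if_pos hac, abs_mul]
              have hC0 : 0 < C.card := Finset.card_pos.2 (Finset.nonempty_iff_ne_empty.2 hC.1)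
              have hlt : C.card < A.card := by
                apply Finset.card_lt_card
                exact ⟨hC.2, fun hh => (Finset.mem_sdiff.1 hac).2 (hh ha)⟩
              obtain ⟨j, hj⟩ : ∃ j, C.card = j + 1 := ⟨C.card - 1, by omega⟩
              have h2 := (ih j (by omega) C hj).2
              have h3 : (2 ^ (m + 1)) ^ (j + 1) * x ≤ (2 ^ (m + 1)) ^ n * x :=
                mul_le_mul_of_nonneg_right
                  (pow_le_pow_right₀ (by linarith) (by omega)) hx0
              calc |M C| * |K (A \ C)| ≤ ((2 ^ (m + 1)) ^ n * x) * x :=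
                    mul_le_mul (h2.trans h3) (hK _ ⟨a, hac⟩) (abs_nonneg _) (by positivity)
                _ = _ := by ring
            · rw [if_neg hac, mul_zero, abs_zero]
              positivity
        _ = ((A.powerset.erase ∅).card : ℝ) * ((2 ^ (m + 1)) ^ n * x ^ 2) := by
            rw [Finset.sum_const, nsmul_eq_mul]
        _ ≤ (2 ^ (m + 1)) * ((2 ^ (m + 1)) ^ n * x ^ 2) := by
            apply mul_le_mul_of_nonneg_right _ (by positivity)
            have h4 : (A.powerset.erase ∅).card ≤ 2 ^ (m + 1) := by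
              calc (A.powerset.erase ∅).card ≤ A.powerset.card :=
                    Finset.card_le_card (Finset.erase_subset _ _)
                _ = 2 ^ A.card := Finset.card_powerset A
                _ ≤ 2 ^ (m + 1) := by
                    apply Nat.pow_le_pow_right (by norm_num)
                    have := Finset.card_le_univ A
                    rwa [Fintype.card_fin] at this
            exact_mod_cast h4
        _ = _ := by ring
    refine ⟨h1, ?_⟩
    have h2 : |M A| ≤ |M A - K A| + |K A| := by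
      have := abs_add_le (M A - K A) (K A)
      rwa [sub_add_cancel] at this
    have h3 := hK A ⟨a, ha⟩
    have hQ1 : (2 : ℝ) ≤ (2 ^ (m + 1)) ^ (n + 1) := by
      calc (2 : ℝ) ≤ 2 ^ (m + 1) := hQ
        _ = (2 ^ (m + 1)) ^ 1 := by rw [pow_one]
        _ ≤ _ := pow_le_pow_right₀ (by linarith) (by omega)
    generalize ((2 : ℝ) ^ (m + 1)) ^ (n + 1) = q at h1 hQ1
    have h4 : q * x ^ 2 ≤ q * (x * (1 / 2)) := by
      apply mul_le_mul_of_nonneg_left _ (by linarith)
      nlinarith
    nlinarith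

/-- EXACTW -/
theorem exactw_25 : StExactW := by
  intro m
  refine ⟨(2 ^ (m + 1)) ^ (m + 1), one_le_pow₀ (one_le_pow₀ (by norm_num)), ?_⟩
  intro L lam u hu
  refine ⟨ZZ (WW lam u), KA lam u, WW lam u, exact lam hu, ?_⟩
  intro q ω x hZ hx hk
  have hlog := SC.isLog_cum (MM_empty (WW lam u) q ω)
  have h1 := (log_bd hlog hx (fun B hB => by
    rw [← KA_eq lam u B q ω hZ]
    exact hk B hB) m univ (by rw [Finset.card_univ, Fintype.card_fin])).1
  have h2 : WW lam u q ω = ZZ (WW lam u) q ω * MM (WW lam u) q ω univ := by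
    rw [MM_ne _ _ _ empty_ne_univ.symm, CC_univ]
    field_simp
  rw [KA_eq lam u univ q ω hZ, h2, ← mul_sub, abs_mul, mul_comm]
  exact mul_le_mul_of_nonneg_right h1 (abs_nonneg _)

end Pool.Agent.SHX.Ex25
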