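import Pool.Agent.Lib.MP_a7b2aa_an.SHX.GridF30
import Pool.Agent.Lib.MP_a7b2aa_an.SHD.NumK74
import Pool.Agent.Lib.MP_a7b2aa_an.SHD.FinalL74

/-!
SHX, torus part (helper30, copy of helper74's FinalL74 with another factor): FINF, from the
discrete torus to the torus.
-/

set_option autoImplicit false

namespace Pool.Agent.SHX

open Finset MeasureTheory Pool.Agent.SB3 Pool.Agent.SBT Pool.Agent.SBD Pool.Agent.SHD

/-- `log (n + 1) + 1 ≤ 2 log (n + 1)` for `n ≥ 2` -/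
theorem lf_le_log {p : ℝ} {E M : ℕ} (hM : 1 ≤ M) : lf p E (2 * M) ≤
    2 ^ E * (((2 * M : ℕ) : ℝ) ^ p * Real.log (((2 * M : ℕ) : ℝ) + 1) ^ E) := by
  unfold lf
  have h1 : 1 ≤ Real.log (((2 * M : ℕ) : ℝ) + 1) := by
    have h2 : Real.exp 1 ≤ ((2 * M : ℕ) : ℝ) + 1 := by
      have h3 := Real.exp_one_lt_d9
      have h4 : (2 : ℝ) ≤ ((2 * M : ℕ) : ℝ) := by
        exact_mod_cast (by omega : 2 ≤ 2 * M)
      linarith
    have h3 := Real.log_le_log (Real.exp_pos 1) h2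
    rwa [Real.log_exp] at h3
  have h5 : (Real.log (((2 * M : ℕ) : ℝ) + 1) + 1) ^ E ≤
      2 ^ E * Real.log (((2 * M : ℕ) : ℝ) + 1) ^ E := by
    rw [← mul_pow]
    exact pow_le_pow_left₀ (by linarith) (by linarith) E
  calc _ ≤ ((2 * M : ℕ) : ℝ) ^ p * (2 ^ E * Real.log (((2 * M : ℕ) : ℝ) + 1) ^ E) :=
        mul_le_mul_of_nonneg_left h5 (by positivity)
    _ = _ := by ring

/-- FINF -/
theorem finf_30 (m : ℕ) (p : ℝ) (E : ℕ) (hD : StGridF m p E) (hA : StAvgD) : StFinF m p E := by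
  obtain ⟨C, hC, hD⟩ := hD
  refine ⟨1 / (2 * C * 2 ^ E), by positivity, fun M0 c hm => ?_⟩
  have hlg := lf_le_log (p := p) (E := E) hm
  set N : ℕ := 2 ^ (2 * M0 + 3) with hN
  have hN1 : 1 ≤ N := Nat.one_le_two_pow
  have : NeZero N := ⟨by omega⟩
  set A := Finset.Nat.antidiagonalTuple (m + 1) M0 with hAdef
  set f : (Fin (m + 1) → ℝ) → ℂ := fun x => ∑ l ∈ A, bpD c l x with hf
  set S : ℝ := ⨆ x : Fin (m + 1) → ℝ, ‖f x‖ with hS
  -- boundedness
  have hbd : BddAbove (Set.range fun x : Fin (m + 1) → ℝ => ‖f x‖) := by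
    refine ⟨∑ l ∈ A, ∑ k ∈ blkD l, ‖c k‖, ?_⟩
    rintro _ ⟨x, rfl⟩
    refine (norm_sum_le _ _).trans (sum_le_sum fun l _ => ?_)
    unfold bpD
    refine (norm_sum_le _ _).trans (sum_le_sum fun k _ => ?_)
    rw [norm_mul, ← Complex.ofReal_sum, mul_comm Complex.I, Complex.norm_exp_ofReal_mul_I, mul_one]
  have hfS : ∀ x, ‖f x‖ ≤ S := fun x => le_ciSup hbd x
  have hS0 : 0 ≤ S := (norm_nonneg _).trans (hfS 0)
  -- averaging
  set φ : (Fin (m + 1) → ℝ) → ℝ := fun x => ∑ l ∈ A, ‖bpD c l x‖ with hφ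
  have hφc : Continuous φ := continuous_finsetSum _ fun l _ => (bpD_cont33 c l).norm
  obtain ⟨v, hv⟩ := hA (m + 1) N φ hN1 hφc (fun x j => by simp only [hφ, bpD_per33])
  have hnorm : ∑ l ∈ A, nrmD (bpD c l) = (1 / (2 * Real.pi)) ^ (m + 1) *
      (∫ x in Set.pi Set.univ (fun _ : Fin (m + 1) => Set.Icc (0 : ℝ) (2 * Real.pi)), φ x) := by
    simp only [hφ, nrmD]
    rw [integral_finsetSum, mul_sum]
    intro l _
    exact (bpD_cont33 c l).norm.continuousOn.integrableOn_compact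
      (isCompact_univ_pi fun _ => isCompact_Icc)
  rw [← hnorm] at hv
  -- reindexing
  have hre : ∑ g : Fin (m + 1) → Fin N, φ (fun j => v j + 2 * Real.pi * (g j : ℕ) / N) =
      ∑ u : Fin (m + 1) → ZMod N, φ (fun j => v j + 2 * Real.pi * ((u j).val : ℕ) / N) := by
    symm
    refine Fintype.sum_bijective
      (fun u : Fin (m + 1) → ZMod N => fun j => (⟨(u j).val, ZMod.val_lt _⟩ : Fin N))
      ?_ _ _ (fun u => rfl)
    rw [Fintype.bijective_iff_injective_and_card]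
    refine ⟨fun u u' h => ?_, by simp⟩
    funext j
    have := congrFun h j
    simp only [Fin.mk.injEq] at this
    exact ZMod.val_injective N this
  rw [hre] at hv
  -- the two applications
  have hpt : ∀ u : Fin (m + 1) → ZMod N, φ (fun j => v j + 2 * Real.pi * ((u j).val : ℕ) / N) ≤
      ∑ l ∈ A, (|PT (blkD l) (cv33 v 1 c) u| + |PT (blkD l) (cv33 v (-Complex.I) c) u|) := by
    intro u
    refine sum_le_sum fun l _ => ?_
    rw [← bpD_grid33, ← bpD_grid33]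
    refine (Complex.norm_le_abs_re_add_abs_im _).trans (le_of_eq ?_)
    simp
  have hF : ∀ (w : ℂ), ‖w‖ ≤ 1 → ∀ u, |FmD (m + 1) M0 (cv33 v w c) u| ≤ S := by
    intro w hw u
    unfold FmD
    have h1 : ∑ l ∈ Finset.Nat.antidiagonalTuple (m + 1) M0, PT (blkD l) (cv33 v w c) u =
        (w * f (fun j => v j + 2 * Real.pi * ((u j).val : ℕ) / N)).re := by
      simp only [hf]
      rw [mul_sum, Complex.re_sum]
      exact sum_congr rfl fun l _ => (bpD_grid33 _ _ _ _ _).symm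
    rw [h1]
    refine (Complex.abs_re_le_norm _).trans ?_
    rw [norm_mul]
    calc ‖w‖ * _ ≤ 1 * S := mul_le_mul hw (hfS _) (norm_nonneg _) zero_le_one
      _ = S := one_mul S
  have h1 := hD M0 (cv33 v 1 c) S hm (hF 1 (by simp))
  have h2 := hD M0 (cv33 v (-Complex.I) c) S hm (hF (-Complex.I) (by simp))
  have hsum : ∑ u : Fin (m + 1) → ZMod N, φ (fun j => v j + 2 * Real.pi * ((u j).val : ℕ) / N) ≤
      ∑ l ∈ A, S1 (N := N) (PT (blkD l) (cv33 v 1 c)) +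
      ∑ l ∈ A, S1 (N := N) (PT (blkD l) (cv33 v (-Complex.I) c)) := by
    refine (sum_le_sum fun u _ => hpt u).trans (le_of_eq ?_)
    rw [sum_comm, ← sum_add_distrib]
    refine sum_congr rfl fun l _ => ?_
    rw [sum_add_distrib]
    rfl
  have hNpos : (0 : ℝ) < (N : ℝ) ^ (m + 1) := by positivity
  have hNc : ((2 : ℝ) ^ (2 * M0 + 3)) ^ (m + 1) = (N : ℝ) ^ (m + 1) := by rw [hN]; push_cast; ring
  have h3 : (∑ l ∈ A, nrmD (bpD c l)) * (N : ℝ) ^ (m + 1) ≤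
      2 * (C * lf p E (2 * M0) * S) * (N : ℝ) ^ (m + 1) := by
    refine hv.trans (hsum.trans ?_)
    rw [hNc] at h1 h2
    linarith
  have h4 := le_of_mul_le_mul_right h3 hNpos
  calc 1 / (2 * C * 2 ^ E) * ∑ l ∈ A, nrmD (bpD c l)
      ≤ 1 / (2 * C * 2 ^ E) * (2 * (C * lf p E (2 * M0) * S)) :=
        mul_le_mul_of_nonneg_left h4 (by positivity)
    _ = lf p E (2 * M0) * S / 2 ^ E := by
        field_simp
    _ ≤ 2 ^ E * (((2 * M0 : ℕ) : ℝ) ^ p * Real.log (((2 * M0 : ℕ) : ℝ) + 1) ^ E) * S / 2 ^ E := by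
        gcongr
    _ = ((2 * M0 : ℕ) : ℝ) ^ p * Real.log (((2 * M0 : ℕ) : ℝ) + 1) ^ E * S := by
        field_simp

/-- the torus part: from the digits theorem to the torus -/
theorem torusf_30 (m : ℕ) (hm : 1 ≤ m) (p : ℝ) (E : ℕ) (hp : ((m : ℝ) - 1) / 2 ≤ p)
    (hE : StEndF m p E) : StFinF m p E :=
  finf_30 m p E (gridf_30 m hm p E hp hE (cfek_21 eeb_36) (blkb_3 k1d_75) numk_74 bgb_69 intk_69
    (supbD_38 (ext_30 (vp_30 fej_30)) (vp_30 fej_30)) pard_71) avgd_33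

/-- from the system to the torus -/
theorem torusS_30 (hM : StMinBad) (m : ℕ) (hm : 2 ≤ m) (p : ℝ) (E : ℕ)
    (hp : ((m : ℝ) - 1) / 2 ≤ p) (hS : StSysF m p E) : StFinF m p E := by
  have hm2 : (2 : ℝ) ≤ m := by exact_mod_cast hm
  have hp0 : 0 < p := by linarith
  exact torusf_30 m (by omega) p E hp
    (endf_30 m p E hp0.le (bandf_30 m p E hp0.le (lawf_30 m p E hp0 hM hS)))

end Pool.Agent.SHX
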