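import Pool.Agent.Lib.MP_a7b2aa_an.SHX.MfA21
import Pool.Agent.Lib.MP_a7b2aa_an.SHD.Sc74

/-!
# Matrix Freedman (seat 21)

`super`: the exponential supermartingale; `tail`: the tail bound for rectangular matrices;
`mfree_21`: event form.
-/

set_option autoImplicit false

open Finset Matrix

namespace Pool.Agent.SHX

open Pool.Agent.SB3 Pool.Agent.SBT Pool.Agent.SBD Pool.Agent.SHD

/-- MFREE: matrix martingales with bounded square functions, in event form -/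
def StMfree : Prop := ∀ (D n : ℕ) (ε : ℝ), 0 < ε → ∃ C : ℝ, 1 ≤ C ∧
  ∀ (m L T : ℕ) (c : Fin (m + 1)) (κ κ' : Type) [Fintype κ] [Fintype κ']
    (K : ℕ → Pt m L → Matrix κ κ' ℝ) (k B : ℝ)
    (ρ : Pt m L → ℝ) (G : Pt m L → Prop), 1 ≤ L → Law k ρ → 0 ≤ B →
    (Fintype.card κ : ℝ) ≤ ((L : ℝ) + 1) ^ D → (Fintype.card κ' : ℝ) ≤ ((L : ℝ) + 1) ^ D →
    (∀ t, Ms (one L c t) (K t)) →
    (∀ ω, G ω → ∀ w : κ' → ℝ,
      ∑ t ∈ range T, ∑ x, (∑ y, K t ω x y * w y) ^ 2 ≤ B * ∑ y, w y ^ 2) →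
    (∀ ω, G ω → ∀ w : κ → ℝ,
      ∑ t ∈ range T, ∑ y, (∑ x, K t ω x y * w x) ^ 2 ≤ B * ∑ x, w x ^ 2) →
    Pr ρ (fun ω => G ω ∧ ¬ NB (∑ t ∈ range T, (sb c t ω - al ρ c t ω) • K t ω)
      (C * (L : ℝ) ^ ε * B)) ≤ C / ((L : ℝ) + 1) ^ n

namespace Mf21

theorem sym_sum {n : Type} [Fintype n] (a : ℕ → ℝ) (F : ℕ → Matrix n n ℝ)
    (hF : ∀ t, (F t)ᵀ = F t) (T : ℕ) :
    (∑ t ∈ range T, (a t • F t - (4 : ℝ) • (F t * F t)))ᵀ =
      ∑ t ∈ range T, (a t • F t - (4 : ℝ) • (F t * F t)) := by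
  rw [transpose_sum]
  refine sum_congr rfl fun t _ => ?_
  rw [transpose_sub, transpose_smul, transpose_smul, transpose_mul, hF]

section martingale

variable {m L : ℕ} {k : ℝ} {ρ : Pt m L → ℝ}

/-- the exponential supermartingale -/
theorem super (hρ : Law k ρ) (c : Fin (m + 1)) {n : Type} [Fintype n] [DecidableEq n]
    (F : ℕ → Pt m L → Matrix n n ℝ) (hFs : ∀ t ω, (F t ω)ᵀ = F t ω)
    (hF : ∀ t, Ms (one L c t) (F t)) (T : ℕ) :
    Ex ρ (fun ω => (NormedSpace.exp (∑ t ∈ range T,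
      ((sb c t ω - al ρ c t ω) • F t ω - (4 : ℝ) • (F t ω * F t ω)))).trace) ≤
      Fintype.card n := by
  have hA := alf_74 eeb_36 m L k ρ hρ
  induction T with
  | zero =>
    have e : (fun ω : Pt m L => (NormedSpace.exp (∑ t ∈ range 0,
        ((sb c t ω - al ρ c t ω) • F t ω - (4 : ℝ) • (F t ω * F t ω)))).trace) =
        fun _ => (Fintype.card n : ℝ) := by
      funext ω
      rw [range_zero, sum_empty, NormedSpace.exp_zero, Matrix.trace_one]
    rw [e, Ex_const hρ]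
  | succ T ih =>
    refine le_trans ?_ ih
    set A : Pt m L → Matrix n n ℝ := fun ω => ∑ t ∈ range T,
      ((sb c t ω - al ρ c t ω) • F t ω - (4 : ℝ) • (F t ω * F t ω)) with hAdef
    have hAs : ∀ ω, (A ω)ᵀ = A ω := by
      intro ω
      simp only [hAdef]
      rw [transpose_sum]
      refine sum_congr rfl fun t _ => ?_
      rw [transpose_sub, transpose_smul, transpose_smul, transpose_mul, hFs]
    have hAm : ∀ ω ω', cl (one L c T) ω' ω → A ω' = A ω := by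
      intro ω ω' hc
      simp only [hAdef]
      refine sum_congr rfl fun t ht => ?_
      have ht' := mem_range.1 ht
      rw [A74.sb_ms c ht' ω ω' hc, A74.Ms_mono (A74.one_le c ht'.le) (hA.ms c t) ω ω' hc,
        A74.Ms_mono (A74.one_le c ht'.le) (hF t) ω ω' hc]
    set G : ℝ → Pt m L → ℝ := fun s ω => (NormedSpace.exp (A ω + ((s - al ρ c T ω) • F T ω -
      (4 : ℝ) • (F T ω * F T ω)))).trace with hG
    have hGm : ∀ s, Ms (one L c T) (G s) := by
      intro s ω ω' hc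
      simp only [hG]
      rw [hAm ω ω' hc, hA.ms c T ω ω' hc, hF T ω ω' hc]
    have e1 : Ex ρ (fun ω => (NormedSpace.exp (∑ t ∈ range (T + 1),
        ((sb c t ω - al ρ c t ω) • F t ω - (4 : ℝ) • (F t ω * F t ω)))).trace) =
        Ex ρ (fun ω => (G 1 ω + G (-1) ω) / 2 + sb c T ω * ((G 1 ω - G (-1) ω) / 2)) := by
      refine A74.Ex_congr fun ω => ?_
      rw [sum_range_succ]
      have hs := A74.sb_sq c T ω
      have hs2 : (sb c T ω - 1) * (sb c T ω + 1) = 0 := by linarith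
      rcases mul_eq_zero.1 hs2 with h | h
      · have h1 : sb c T ω = 1 := by linarith
        simp only [hG, hAdef]
        rw [h1]
        ring
      · have h1 : sb c T ω = -1 := by linarith
        simp only [hG, hAdef]
        rw [h1]
        ring
    have hdm : Ms (one L c T) (fun ω => (G 1 ω - G (-1) ω) / 2) := by
      intro ω ω' hc
      beta_reduce
      rw [hGm 1 ω ω' hc, hGm (-1) ω ω' hc]
    rw [e1, Ex_add, hA.ex c T _ hdm, ← Ex_add]
    refine Ex_mono hρ fun ω => ?_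
    have h1 := step (hA.abs c T ω) (A ω) (F T ω) (hAs ω) (hFs T ω)
    have h2 : (1 : ℝ) - al ρ c T ω = 1 - al ρ c T ω := rfl
    have h3 : (-1 : ℝ) - al ρ c T ω = -(1 + al ρ c T ω) := by ring
    simp only [hG]
    rw [h3]
    refine le_trans (le_of_eq ?_) h1
    ring

/-- **the tail bound** -/
theorem tail (hρ : Law k ρ) (c : Fin (m + 1)) {κ κ' : Type} [Fintype κ] [Fintype κ']
    (K : ℕ → Pt m L → Matrix κ κ' ℝ) (hK : ∀ t, Ms (one L c t) (K t)) (T : ℕ) {B s : ℝ}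
    (hB : 0 < B) (hs : 0 ≤ s) :
    Pr ρ (fun ω => ∃ (x : κ → ℝ) (y : κ' → ℝ), x ⬝ᵥ x = 1 ∧ y ⬝ᵥ y = 1 ∧
      ∑ t ∈ range T, ((K t ω)ᵀ *ᵥ x) ⬝ᵥ ((K t ω)ᵀ *ᵥ x) ≤ B ∧
      ∑ t ∈ range T, (K t ω *ᵥ y) ⬝ᵥ (K t ω *ᵥ y) ≤ B ∧
      s * √B ≤ x ⬝ᵥ ((∑ t ∈ range T, (sb c t ω - al ρ c t ω) • K t ω) *ᵥ y)) ≤
      (Fintype.card κ + Fintype.card κ') * Real.exp (-(s ^ 2 / 16)) := by
  classical
  have hsB : 0 < √B := Real.sqrt_pos.2 hB
  set θ : ℝ := s / (8 * √B) with hθ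
  set F : ℕ → Pt m L → Matrix (κ ⊕ κ') (κ ⊕ κ') ℝ := fun t ω => θ • dil (K t ω) with hF
  have hFs : ∀ t ω, (F t ω)ᵀ = F t ω := by
    intro t ω
    simp only [hF]
    rw [transpose_smul, dil_symm]
  have hFm : ∀ t, Ms (one L c t) (F t) := by
    intro t ω ω' hc
    simp only [hF]
    rw [hK t ω ω' hc]
  have h1 := super hρ c F hFs hFm T
  have hcard : (Fintype.card (κ ⊕ κ') : ℝ) = Fintype.card κ + Fintype.card κ' := by
    rw [Fintype.card_sum]
    push_cast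
    rfl
  rw [hcard] at h1
  set W : Pt m L → ℝ := fun ω => (NormedSpace.exp (∑ t ∈ range T,
      ((sb c t ω - al ρ c t ω) • F t ω - (4 : ℝ) • (F t ω * F t ω)))).trace with hW
  -- pointwise
  have hpt : ∀ ω, (if ∃ (x : κ → ℝ) (y : κ' → ℝ), x ⬝ᵥ x = 1 ∧ y ⬝ᵥ y = 1 ∧
      ∑ t ∈ range T, ((K t ω)ᵀ *ᵥ x) ⬝ᵥ ((K t ω)ᵀ *ᵥ x) ≤ B ∧
      ∑ t ∈ range T, (K t ω *ᵥ y) ⬝ᵥ (K t ω *ᵥ y) ≤ B ∧
      s * √B ≤ x ⬝ᵥ ((∑ t ∈ range T, (sb c t ω - al ρ c t ω) • K t ω) *ᵥ y) then (1 : ℝ)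
      else 0) ≤ Real.exp (-(s ^ 2 / 16)) * W ω := by
    intro ω
    have hW0 : 0 ≤ W ω := by
      simp only [hW]
      refine Finset.sum_nonneg fun i _ => ?_
      have hsym : (∑ t ∈ range T, ((sb c t ω - al ρ c t ω) • F t ω -
          (4 : ℝ) • (F t ω * F t ω)))ᵀ = ∑ t ∈ range T, ((sb c t ω - al ρ c t ω) • F t ω -
          (4 : ℝ) • (F t ω * F t ω)) :=
        sym_sum (fun t => sb c t ω - al ρ c t ω) (fun t => F t ω) (fun t => hFs t ω) T
      have := conj_nonneg (1 : Matrix (κ ⊕ κ') (κ ⊕ κ') ℝ) _ hsym i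
      rwa [transpose_one, Matrix.one_mul, Matrix.mul_one] at this
    split_ifs with hE
    · obtain ⟨x, y, hx, hy, hVx, hVy, hS⟩ := hE
      set M := ∑ t ∈ range T, ((sb c t ω - al ρ c t ω) • F t ω -
        (4 : ℝ) • (F t ω * F t ω)) with hM
      have hMs : Mᵀ = M :=
        sym_sum (fun t => sb c t ω - al ρ c t ω) (fun t => F t ω) (fun t => hFs t ω) T
      set w : κ ⊕ κ' → ℝ := Sum.elim x y with hw
      set r : ℝ := 1 / √2 with hr
      have hr2 : r * r = 1 / 2 := by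
        rw [hr, div_mul_div_comm, Real.mul_self_sqrt (by norm_num), one_mul]
      have hww : (r • w) ⬝ᵥ (r • w) = 1 := by
        rw [smul_dotProduct, dotProduct_smul, hw, sumElim_dotProduct_sumElim, hx, hy,
          smul_eq_mul, smul_eq_mul, ← mul_assoc, hr2]
        norm_num
      have hform : (r • w) ⬝ᵥ (M *ᵥ (r • w)) = θ * (x ⬝ᵥ ((∑ t ∈ range T,
          (sb c t ω - al ρ c t ω) • K t ω) *ᵥ y)) - 2 * θ ^ 2 *
          (∑ t ∈ range T, ((K t ω)ᵀ *ᵥ x) ⬝ᵥ ((K t ω)ᵀ *ᵥ x) +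
            ∑ t ∈ range T, (K t ω *ᵥ y) ⬝ᵥ (K t ω *ᵥ y)) := by
        rw [mulVec_smul, smul_dotProduct, dotProduct_smul, smul_eq_mul, smul_eq_mul,
          ← mul_assoc, hr2, hM, Matrix.sum_mulVec, Matrix.sum_mulVec, dotProduct_sum,
          dotProduct_sum, ← sum_add_distrib, mul_sum, mul_sum, mul_sum, ← sum_sub_distrib]
        refine sum_congr rfl fun t _ => ?_
        have e1 : w ⬝ᵥ (((sb c t ω - al ρ c t ω) • F t ω - (4 : ℝ) • (F t ω * F t ω)) *ᵥ w) =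
            (sb c t ω - al ρ c t ω) * θ * (w ⬝ᵥ (dil (K t ω) *ᵥ w)) -
            4 * θ ^ 2 * (w ⬝ᵥ ((dil (K t ω) * dil (K t ω)) *ᵥ w)) := by
          simp only [hF]
          rw [Matrix.sub_mulVec, dotProduct_sub, Matrix.smul_mulVec, Matrix.smul_mulVec,
            dotProduct_smul, dotProduct_smul, Matrix.smul_mulVec, dotProduct_smul,
            Matrix.smul_mul, Matrix.mul_smul, Matrix.smul_mulVec, Matrix.smul_mulVec,
            dotProduct_smul, dotProduct_smul]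
          simp only [smul_eq_mul]
          ring
        rw [e1, hw, dil_form, dil_sq_form, Matrix.smul_mulVec, dotProduct_smul, smul_eq_mul]
        ring
      have h2 := exp_le_trace M hMs (r • w) hww
      have hθ0 : 0 ≤ θ := by positivity
      have h3 : s ^ 2 / 16 ≤ (r • w) ⬝ᵥ (M *ᵥ (r • w)) := by
        rw [hform]
        have h4 : θ * (s * √B) ≤ θ * (x ⬝ᵥ ((∑ t ∈ range T,
            (sb c t ω - al ρ c t ω) • K t ω) *ᵥ y)) := mul_le_mul_of_nonneg_left hS hθ0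
        have h5 : 2 * θ ^ 2 * (∑ t ∈ range T, ((K t ω)ᵀ *ᵥ x) ⬝ᵥ ((K t ω)ᵀ *ᵥ x) +
            ∑ t ∈ range T, (K t ω *ᵥ y) ⬝ᵥ (K t ω *ᵥ y)) ≤ 2 * θ ^ 2 * (B + B) :=
          mul_le_mul_of_nonneg_left (add_le_add hVx hVy) (by positivity)
        have h6 : θ * (s * √B) = s ^ 2 / 8 := by
          rw [hθ]
          field_simp
        have h7 : 2 * θ ^ 2 * (B + B) = s ^ 2 / 16 := by
          rw [hθ, div_pow, mul_pow, Real.sq_sqrt hB.le]
          field_simp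
          ring
        linarith
      have h8 : Real.exp (s ^ 2 / 16) ≤ W ω := (Real.exp_le_exp.2 h3).trans h2
      calc (1 : ℝ) = Real.exp (-(s ^ 2 / 16)) * Real.exp (s ^ 2 / 16) := by
            rw [← Real.exp_add]; simp
        _ ≤ _ := mul_le_mul_of_nonneg_left h8 (Real.exp_pos _).le
    · positivity
  unfold Pr
  calc _ ≤ Ex ρ (fun ω => Real.exp (-(s ^ 2 / 16)) * W ω) := by
        refine Ex_mono hρ fun ω => ?_
        refine le_trans (le_of_eq ?_) (hpt ω)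
        congr
    _ = Real.exp (-(s ^ 2 / 16)) * Ex ρ W := Ex_smul _ _
    _ ≤ Real.exp (-(s ^ 2 / 16)) * (Fintype.card κ + Fintype.card κ') :=
        mul_le_mul_of_nonneg_left h1 (Real.exp_pos _).le
    _ = _ := by ring

end martingale

/-- a vector which is not contracted -/
theorem not_NB {κ κ' : Type} [Fintype κ] [Fintype κ'] {S : Matrix κ κ' ℝ} {b : ℝ} (hb : 0 ≤ b)
    (h : ¬ NB S b) : ∃ (x : κ → ℝ) (y : κ' → ℝ), x ⬝ᵥ x = 1 ∧ y ⬝ᵥ y = 1 ∧
      √b ≤ x ⬝ᵥ (S *ᵥ y) := by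
  unfold NB at h
  push Not at h
  obtain ⟨u, hu⟩ := h
  set a : ℝ := ∑ y, u y ^ 2 with ha
  have ha0 : 0 ≤ a := sum_nonneg fun _ _ => sq_nonneg _
  have hSu : ∑ x, (∑ y, S x y * u y) ^ 2 = (S *ᵥ u) ⬝ᵥ (S *ᵥ u) := by
    rw [dotProduct]
    refine sum_congr rfl fun x _ => ?_
    rw [sq]
    rfl
  rw [hSu] at hu
  have hapos : 0 < a := by
    rcases ha0.lt_or_eq with h1 | h1
    · exact h1
    · exfalso
      have h2 : ∀ y ∈ (Finset.univ : Finset κ'), u y ^ 2 = 0 :=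
        (sum_eq_zero_iff_of_nonneg fun _ _ => sq_nonneg _).1 (ha.symm.trans h1.symm)
      have h3 : u = 0 := by
        funext y
        exact pow_eq_zero_iff (two_ne_zero) |>.1 (h2 y (mem_univ y))
      rw [h3, mulVec_zero, zero_dotProduct, ← h1, mul_zero] at hu
      exact lt_irrefl _ hu
  have hsa : 0 < √a := Real.sqrt_pos.2 hapos
  set y : κ' → ℝ := (1 / √a) • u with hy
  have huu : u ⬝ᵥ u = a := by
    rw [ha, dotProduct]
    exact sum_congr rfl fun y _ => by ring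
  have hyy : y ⬝ᵥ y = 1 := by
    rw [hy, smul_dotProduct, dotProduct_smul, huu, smul_eq_mul, smul_eq_mul]
    have := Real.mul_self_sqrt ha0
    field_simp
    rw [sq, this]
  set q : ℝ := (S *ᵥ y) ⬝ᵥ (S *ᵥ y) with hq
  have hqb : b < q := by
    have h1 : q = ((S *ᵥ u) ⬝ᵥ (S *ᵥ u)) / a := by
      rw [hq, hy, mulVec_smul, smul_dotProduct, dotProduct_smul, smul_eq_mul, smul_eq_mul]
      have := Real.mul_self_sqrt ha0
      field_simp
      rw [sq, this]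
      ring
    rw [h1, lt_div_iff₀ hapos]
    exact hu
  have hq0 : 0 < q := lt_of_le_of_lt hb hqb
  have hsq : 0 < √q := Real.sqrt_pos.2 hq0
  refine ⟨(1 / √q) • (S *ᵥ y), y, ?_, hyy, ?_⟩
  · rw [smul_dotProduct, dotProduct_smul, ← hq, smul_eq_mul, smul_eq_mul]
    have := Real.mul_self_sqrt hq0.le
    field_simp
    rw [sq, this]
  · rw [smul_dotProduct, ← hq, smul_eq_mul]
    have h1 := Real.mul_self_sqrt hq0.le
    have h2 : 1 / √q * q = √q := by
      rw [div_mul_eq_mul_div, one_mul, div_eq_iff hsq.ne', h1]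
    rw [h2]
    exact Real.sqrt_le_sqrt hqb.le

end Mf21

open Mf21 in
/-- **matrix Freedman, event form** -/
theorem mfree_21 : StMfree := by
  classical
  intro D n ε hε
  set C' : ℝ := ((⌈((D + n : ℕ) : ℝ) / ε⌉₊).factorial : ℝ) * 16 ^ ⌈((D + n : ℕ) : ℝ) / ε⌉₊ *
    2 ^ (D + n) with hC'
  have hC'0 : 0 < C' := by positivity
  refine ⟨2 * C' + 1, by linarith, ?_⟩
  intro m L T c κ κ' _ _ K k B ρ G hL hρ hB hκ hκ' hK hG1 hG2
  have hL1 : (1 : ℝ) ≤ L := by exact_mod_cast hL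
  set C := 2 * C' + 1 with hC
  have hC1 : 1 ≤ C := by linarith
  have hLe : (0 : ℝ) < (L : ℝ) ^ ε := Real.rpow_pos_of_pos (by linarith) _
  have hRHS : 0 ≤ C / ((L : ℝ) + 1) ^ n := by positivity
  have h0 : Ex ρ (fun _ : Pt m L => (0 : ℝ)) = 0 := Ex_const hρ 0
  have conv1 : ∀ (ω : Pt m L) (w : κ' → ℝ), ∑ t ∈ range T, (K t ω *ᵥ w) ⬝ᵥ (K t ω *ᵥ w) =
      ∑ t ∈ range T, ∑ x, (∑ y, K t ω x y * w y) ^ 2 := by
    intro ω w
    refine sum_congr rfl fun t _ => ?_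
    rw [dotProduct]
    refine sum_congr rfl fun x _ => ?_
    rw [sq]
    rfl
  have conv2 : ∀ (ω : Pt m L) (w : κ → ℝ), ∑ t ∈ range T, ((K t ω)ᵀ *ᵥ w) ⬝ᵥ ((K t ω)ᵀ *ᵥ w) =
      ∑ t ∈ range T, ∑ y, (∑ x, K t ω x y * w x) ^ 2 := by
    intro ω w
    refine sum_congr rfl fun t _ => ?_
    rw [dotProduct]
    refine sum_congr rfl fun x _ => ?_
    rw [sq]
    rfl
  rcases hB.lt_or_eq with hB0 | hB0
  swap
  · -- `B = 0`
    have hzero : ∀ ω, ¬ (G ω ∧ ¬ NB (∑ t ∈ range T, (sb c t ω - al ρ c t ω) • K t ω)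
        (C * (L : ℝ) ^ ε * B)) := by
      rintro ω ⟨hGω, hnb⟩
      obtain ⟨x, y, hx, hy, -⟩ := not_NB (by rw [← hB0, mul_zero]) hnb
      apply hnb
      intro u
      have h1 := hG1 ω hGω u
      rw [← hB0, zero_mul] at h1
      have h2 : ∀ t ∈ range T, ∑ x, (∑ y, K t ω x y * u y) ^ 2 = 0 := by
        apply (sum_eq_zero_iff_of_nonneg ?_).1 ?_
        · intro t _
          exact sum_nonneg fun _ _ => sq_nonneg _
        · exact le_antisymm h1 (sum_nonneg fun t _ => sum_nonneg fun _ _ => sq_nonneg _)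
      have h3 : ∀ x, ∑ y, (∑ t ∈ range T, (sb c t ω - al ρ c t ω) • K t ω) x y * u y = 0 := by
        intro x
        have h4 : ∀ t ∈ range T, ∑ y, K t ω x y * u y = 0 := by
          intro t ht
          have h5 := (sum_eq_zero_iff_of_nonneg fun _ _ => sq_nonneg _).1 (h2 t ht) x
            (mem_univ x)
          exact pow_eq_zero_iff (two_ne_zero) |>.1 h5
        have h6 : ∑ y, (∑ t ∈ range T, (sb c t ω - al ρ c t ω) • K t ω) x y * u y =
            ∑ t ∈ range T, (sb c t ω - al ρ c t ω) * ∑ y, K t ω x y * u y := by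
          simp only [Matrix.sum_apply, Matrix.smul_apply, smul_eq_mul, sum_mul, mul_sum]
          rw [sum_comm]
          refine sum_congr rfl fun t _ => sum_congr rfl fun y _ => ?_
          ring
        rw [h6]
        exact sum_eq_zero fun t ht => by rw [h4 t ht, mul_zero]
      rw [← hB0, mul_zero, zero_mul]
      exact (sum_eq_zero fun x _ => by rw [h3 x]; ring).le
    unfold Pr
    refine (Ex_mono hρ (ψ := fun _ => 0) fun ω => ?_).trans (h0.le.trans hRHS)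
    rw [if_neg (hzero ω)]
  · set s : ℝ := √(C * (L : ℝ) ^ ε) with hs
    have hs2 : s ^ 2 = C * (L : ℝ) ^ ε := Real.sq_sqrt (by positivity)
    have htail := tail hρ c K hK T (s := s) hB0 (Real.sqrt_nonneg _)
    rw [hs2] at htail
    have hsub : ∀ ω, (G ω ∧ ¬ NB (∑ t ∈ range T, (sb c t ω - al ρ c t ω) • K t ω)
        (C * (L : ℝ) ^ ε * B)) → ∃ (x : κ → ℝ) (y : κ' → ℝ), x ⬝ᵥ x = 1 ∧ y ⬝ᵥ y = 1 ∧
      ∑ t ∈ range T, ((K t ω)ᵀ *ᵥ x) ⬝ᵥ ((K t ω)ᵀ *ᵥ x) ≤ B ∧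
      ∑ t ∈ range T, (K t ω *ᵥ y) ⬝ᵥ (K t ω *ᵥ y) ≤ B ∧
      s * √B ≤ x ⬝ᵥ ((∑ t ∈ range T, (sb c t ω - al ρ c t ω) • K t ω) *ᵥ y) := by
      rintro ω ⟨hGω, hnb⟩
      obtain ⟨x, y, hx, hy, hxy⟩ := not_NB (by positivity) hnb
      refine ⟨x, y, hx, hy, ?_, ?_, ?_⟩
      · rw [conv2]
        refine (hG2 ω hGω x).trans (le_of_eq ?_)
        have : ∑ i, x i ^ 2 = 1 := by
          rw [← hx, dotProduct]
          exact sum_congr rfl fun i _ => by ring
        rw [this, mul_one]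
      · rw [conv1]
        refine (hG1 ω hGω y).trans (le_of_eq ?_)
        have : ∑ i, y i ^ 2 = 1 := by
          rw [← hy, dotProduct]
          exact sum_congr rfl fun i _ => by ring
        rw [this, mul_one]
      · rw [hs, ← Real.sqrt_mul (by positivity)]
        exact hxy
    have hPr : Pr ρ (fun ω => G ω ∧ ¬ NB (∑ t ∈ range T, (sb c t ω - al ρ c t ω) • K t ω)
        (C * (L : ℝ) ^ ε * B)) ≤ (Fintype.card κ + Fintype.card κ') *
          Real.exp (-(C * (L : ℝ) ^ ε / 16)) := by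
      refine le_trans ?_ htail
      unfold Pr
      refine Ex_mono hρ fun ω => ?_
      by_cases h1 : G ω ∧ ¬ NB (∑ t ∈ range T, (sb c t ω - al ρ c t ω) • K t ω)
        (C * (L : ℝ) ^ ε * B)
      · rw [if_pos h1, if_pos (hsub ω h1)]
      · rw [if_neg h1]
        split_ifs
        · exact zero_le_one
        · exact le_rfl
    have hnum := C74.num (n := D + n) hε hL hC1
    rw [← hC'] at hnum
    refine hPr.trans ?_
    have hL2 : (0 : ℝ) < ((L : ℝ) + 1) := by linarith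
    calc ((Fintype.card κ : ℝ) + Fintype.card κ') * Real.exp (-(C * (L : ℝ) ^ ε / 16)) ≤
          (((L : ℝ) + 1) ^ D + ((L : ℝ) + 1) ^ D) * (C' / ((L : ℝ) + 1) ^ (D + n)) :=
          mul_le_mul (add_le_add hκ hκ') hnum (Real.exp_pos _).le (by positivity)
      _ = 2 * C' / ((L : ℝ) + 1) ^ n := by
          rw [pow_add]
          field_simp
          ring
      _ ≤ C / ((L : ℝ) + 1) ^ n := by
          apply div_le_div_of_nonneg_right _ (by positivity)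
          linarith

end Pool.Agent.SHX
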