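import Pool.Agent.Lib.MP_a7b2aa_an.SHX.PathD23
import Pool.Agent.Lib.MP_a7b2aa_an.SBD.EEB36

/-!
# SHX, PATHLAW: the path law (seat 23)
-/

set_option autoImplicit false

namespace Pool.Agent.SHX

open Finset Pool.Agent.SB3 Pool.Agent.SBT Pool.Agent.SBD

namespace P23

variable {m L : ℕ}

theorem EE_sb (E : Eeb m L) {a : Fin (m + 1)} {t : ℕ} (ht : t < L) (ω : Pt m L) :
    EE (one L a t) (sb a t) ω = 0 := by
  have h1 := E.step (one L a t) a (fun _ => (1 : ℝ)) ω (by rw [one, Function.update_self]; exact ht)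
  rw [E.const, E.const, sub_self] at h1
  have h2 : one L a t a = t := by rw [one, Function.update_self]
  rw [h2] at h1
  have h3 : (fun ω' : Pt m L => sb a t ω' * (1 : ℝ)) = sb a t := by
    funext ω'
    rw [mul_one]
  rw [h3] at h1
  have h4 := sb_sq a t ω
  have h5 : sb a t ω * (sb a t ω * EE (one L a t) (sb a t) ω) = 0 := by rw [← h1, mul_zero]
  rw [← mul_assoc, h4, one_mul] at h5
  exact h5

/-- a product of biased digits of the string `s` -/
noncomputable def pp (s : Fin (m + 1)) (b : ℕ → Pt m L → ℝ) (n : ℕ) (ω : Pt m L) : ℝ :=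
  ∏ v ∈ range n, (1 + sb s v ω * b v ω)

variable {s : Fin (m + 1)} {b : ℕ → Pt m L → ℝ}

theorem one_s (t : ℕ) : (one L s t : Fin (m + 1) → ℕ) s = t := by
  rw [one, Function.update_self]

theorem one_mono {t t' : ℕ} (h : t ≤ t') (a : Fin (m + 1)) :
    (one L s t : Fin (m + 1) → ℕ) a ≤ one L s t' a ∨ L ≤ one L s t' a := by
  by_cases ha : a = s
  · subst ha
    left
    rw [one_s, one_s]
    exact h
  · right
    rw [one, Function.update_of_ne ha]

theorem pp_ms (hb : ∀ v, Ms (one L s v) (b v)) (n : ℕ) : Ms (one L s n) (pp s b n) := by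
  intro ω ω' h
  unfold pp
  refine prod_congr rfl fun v hv => ?_
  have hv' := mem_range.1 hv
  have h1 : Ms (one L s n) (sb (L := L) s v) := Ms_sb (by rw [one_s]; exact hv')
  have h2 : Ms (one L s n) (b v) := (hb v).mono (one_mono hv'.le)
  rw [h1 ω ω' h, h2 ω ω' h]

theorem min_one {t t' : ℕ} (h : t ≤ t') :
    (fun a => min ((one L s t : Fin (m + 1) → ℕ) a) (one L s t' a)) = one L s t := by
  funext a
  by_cases ha : a = s
  · subst ha
    rw [one_s, one_s]
    exact min_eq_left h
  · rw [one, one, Function.update_of_ne ha, Function.update_of_ne ha]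
    exact min_self _

theorem EE_pp (E : Eeb m L) (hb : ∀ v, Ms (one L s v) (b v)) {v n : ℕ} (hv : v ≤ n) (hn : n ≤ L)
    (ω : Pt m L) : EE (one L s v) (pp s b n) ω = pp s b v ω := by
  induction n, hv using Nat.le_induction generalizing ω with
  | base => exact E.idem _ _ (pp_ms hb v) ω
  | succ n hvn ih =>
    have h1 : EE (one L s n) (pp s b (n + 1)) = pp s b n := by
      funext ω
      have h2 : pp s b (n + 1) = fun ω => pp s b n ω * (1 + sb s n ω * b n ω) := by
        funext ω
        unfold pp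
        rw [prod_range_succ]
      rw [h2, E.pull _ _ _ (pp_ms hb n), E.add, E.const]
      have h3 : (fun ω' : Pt m L => sb s n ω' * b n ω') = fun ω' => b n ω' * sb s n ω' := by
        funext ω'
        ring
      rw [h3, E.pull _ _ _ (hb n), EE_sb E (by omega), mul_zero, add_zero, mul_one]
    have h4 := E.comp (one L s v) (one L s n) (pp s b (n + 1)) ω
    rw [min_one hvn, h1, ih (by omega)] at h4
    exact h4.symm

theorem pp_pos (hb : ∀ v < L, ∀ ω, |b v ω| ≤ 1 / 2) {n : ℕ} (hn : n ≤ L) (ω : Pt m L) :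
    0 < pp s b n ω := by
  unfold pp
  refine prod_pos fun v hv => ?_
  have hv' := mem_range.1 hv
  have h1 : |sb s v ω * b v ω| ≤ 1 / 2 := by
    rw [abs_mul, sb_abs, one_mul]
    exact hb v (by omega) ω
  have := (abs_le.1 h1).1
  linarith

theorem pp_le (hb : ∀ v < L, ∀ ω, |b v ω| ≤ 1 / 2) {n : ℕ} (hn : n ≤ L) (ω : Pt m L) :
    pp s b n ω ≤ Real.exp L := by
  have h1 : pp s b n ω ≤ ∏ _v ∈ range n, Real.exp 1 := by
    unfold pp
    refine prod_le_prod (fun v hv => ?_) fun v hv => ?_
    · have hv' := mem_range.1 hv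
      have h1 : |sb s v ω * b v ω| ≤ 1 / 2 := by
        rw [abs_mul, sb_abs, one_mul]
        exact hb v (by omega) ω
      have := (abs_le.1 h1).1
      linarith
    · have hv' := mem_range.1 hv
      have h1 : |sb s v ω * b v ω| ≤ 1 / 2 := by
        rw [abs_mul, sb_abs, one_mul]
        exact hb v (by omega) ω
      have := (abs_le.1 h1).2
      have h3 := Real.add_one_le_exp (1 : ℝ)
      linarith
  rw [prod_const, card_range, ← Real.exp_nat_mul] at h1
  refine h1.trans ?_
  rw [Real.exp_le_exp, mul_one]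
  exact_mod_cast hn

theorem pp_mean (E : Eeb m L) (hb : ∀ v, Ms (one L s v) (b v)) {n : ℕ} (hn : n ≤ L) :
    Av (pp s b n) = 1 := by
  rw [← E.mean (one L s 0)]
  have : EE (one L s 0) (pp s b n) = fun _ => 1 := by
    funext ω
    rw [EE_pp E hb (Nat.zero_le n) hn]
    simp [pp]
  rw [this, Av_const]

theorem pp_law (E : Eeb m L) (hb : ∀ v, Ms (one L s v) (b v))
    (hb' : ∀ v < L, ∀ ω, |b v ω| ≤ 1 / 2) {n : ℕ} (hn : n ≤ L) : Law (L : ℝ) (pp s b n) :=
  ⟨fun ω => (pp_pos hb' hn ω).le, pp_mean E hb hn, fun ω => pp_le hb' hn ω⟩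

theorem EE_pp_sb (E : Eeb m L) (hb : ∀ v, Ms (one L s v) (b v)) {v n : ℕ} (hv : v < n)
    (hn : n ≤ L) (ω : Pt m L) :
    EE (one L s v) (fun ω' => pp s b n ω' * sb s v ω') ω = pp s b v ω * b v ω := by
  have h1 : EE (one L s (v + 1)) (fun ω' => pp s b n ω' * sb s v ω') =
      fun ω => pp s b v ω * (sb s v ω + b v ω) := by
    funext ω
    have h2 : (fun ω' : Pt m L => pp s b n ω' * sb s v ω') =
        fun ω' => sb s v ω' * pp s b n ω' := by
      funext ω'
      ring
    have h3 : Ms (one L s (v + 1)) (sb (L := L) s v) := Ms_sb (by rw [one_s]; omega)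
    rw [h2, E.pull _ _ _ h3, EE_pp E hb (by omega) hn]
    unfold pp
    rw [prod_range_succ]
    have := sb_sq s v ω
    linear_combination (∏ v ∈ range v, (1 + sb s v ω * b v ω)) * b v ω * this
  have h4 := E.comp (one L s v) (one L s (v + 1)) (fun ω' => pp s b n ω' * sb s v ω') ω
  rw [min_one (by omega), h1, E.pull _ _ _ (pp_ms hb v), E.add, EE_sb E (by omega),
    E.idem _ _ (hb v), zero_add] at h4
  exact h4.symm

theorem al_pp (E : Eeb m L) (hb : ∀ v, Ms (one L s v) (b v))
    (hb' : ∀ v < L, ∀ ω, |b v ω| ≤ 1 / 2) {v n : ℕ} (hv : v < n) (hn : n ≤ L) (ω : Pt m L) :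
    al (pp s b n) s v ω = b v ω := by
  unfold al
  rw [EE_pp_sb E hb hv hn, EE_pp E hb hv.le hn]
  have := pp_pos (s := s) hb' (show v ≤ L by omega) ω
  field_simp

theorem al_pp_zero (E : Eeb m L) (hb : ∀ v, Ms (one L s v) (b v)) {v n : ℕ} (hv : n ≤ v)
    (hvL : v < L) (ω : Pt m L) : al (pp s b n) s v ω = 0 := by
  unfold al
  have h1 : Ms (one L s v) (pp s b n) := (pp_ms hb n).mono (one_mono hv)
  rw [E.pull _ _ _ h1, EE_sb E hvL, mul_zero, zero_div]

end P23

theorem Gd_mono {m L : ℕ} {G : (Fin (m + 1) → ℕ) → Pt m L → Prop} {h h' : Fin (m + 1) → ℕ}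
    (hh : h ≤ h') {ω : Pt m L} (hG : Gd G h' ω) : Gd G h ω := fun r hr => hG r (hr.trans hh)

theorem Gd_iff {m L : ℕ} {G : (Fin (m + 1) → ℕ) → Pt m L → Prop} {h : Fin (m + 1) → ℕ}
    {ω : Pt m L} : Gd G h ω ↔ Gl G h ω ∧ G h ω := by
  constructor
  · intro hG
    exact ⟨fun r hr _ => hG r hr, hG h le_rfl⟩
  · rintro ⟨h1, h2⟩ r hr
    by_cases hrh : r = h
    · rw [hrh]
      exact h2
    · exact h1 r hr hrh

theorem Gl_Gd {m L : ℕ} {G : (Fin (m + 1) → ℕ) → Pt m L → Prop} {h h' : Fin (m + 1) → ℕ}
    (hh : h' ≤ h) (hne : h' ≠ h) {ω : Pt m L} (hG : Gl G h ω) : Gd G h' ω := by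
  intro r hr
  refine hG r (hr.trans hh) ?_
  rintro rfl
  exact hne (le_antisymm hh hr)

theorem Gd_ms {m L : ℕ} {G : (Fin (m + 1) → ℕ) → Pt m L → Prop} (hG : ∀ h, Ms h (G h))
    (h : Fin (m + 1) → ℕ) : Ms h (Gd G h) := by
  intro ω ω' hω
  refine propext ?_
  constructor
  · intro h1 r hr
    have h2 := ((hG r).mono (r := h) (fun a => Or.inl (hr a))) ω ω' hω
    rw [← h2]
    exact h1 r hr
  · intro h1 r hr
    have h2 := ((hG r).mono (r := h) (fun a => Or.inl (hr a))) ω ω' hω
    rw [h2]
    exact h1 r hr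

theorem bh_ms {m L : ℕ} {G : (Fin (m + 1) → ℕ) → Pt m L → Prop}
    {be : Fin (m + 1) → (Fin (m + 1) → ℕ) → Pt m L → ℝ} {Z : (Fin (m + 1) → ℕ) → Pt m L → ℝ}
    (hB : Bay G be Z) (c : Fin (m + 1)) (h : Fin (m + 1) → ℕ) : Ms h (bh G be c h) := by
  classical
  have h1 := (Gd_ms hB.msG h).comp2 (hB.msb c h) (fun P x => if P then x else (0 : ℝ))
  intro ω ω' hω
  have := h1 ω ω' hω
  unfold bh
  convert this

theorem bh_abs {m L : ℕ} {G : (Fin (m + 1) → ℕ) → Pt m L → Prop}
    {be : Fin (m + 1) → (Fin (m + 1) → ℕ) → Pt m L → ℝ} {Z : (Fin (m + 1) → ℕ) → Pt m L → ℝ}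
    (hB : Bay G be Z) {c : Fin (m + 1)} {h : Fin (m + 1) → ℕ} (hh : ∀ a, h a ≤ L) (hc : h c < L)
    (ω : Pt m L) : |bh G be c h ω| ≤ 1 / 2 := by
  unfold bh
  split_ifs with h1
  · exact hB.abs c h ω hh hc h1
  · simp

theorem update_ms {m L : ℕ} {β : Type} {φ : Pt m L → β} {h : Fin (m + 1) → ℕ} {s : Fin (m + 1)}
    {v : ℕ} (hφ : Ms (Function.update h s v) φ) : Ms (one L s v) φ :=
  hφ.one s v (by rw [Function.update_self])

theorem pathlaw_23 : StPathLaw := by
  intro m L G be Z h s hB hh
  have E := eeb_36 m L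
  have e0 : Qp G be h s = P23.pp s (fun v => if v < h s then
      bh G be s (Function.update h s v) else fun _ => 0) (h s) := by
    funext ω
    unfold Qp P23.pp
    refine prod_congr rfl fun v hv => ?_
    simp only [if_pos (mem_range.1 hv)]
  have hb : ∀ v, Ms (one L s v) ((fun v => if v < h s then
      bh G be s (Function.update h s v) else fun _ => 0) v) := by
    intro v
    dsimp only
    split_ifs with hv
    · exact update_ms (bh_ms hB s _)
    · exact Ms.cst _ _
  have hb' : ∀ v < L, ∀ ω, |(fun v => if v < h s then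
      bh G be s (Function.update h s v) else fun _ => 0) v ω| ≤ 1 / 2 := by
    intro v hv ω
    dsimp only
    split_ifs with hv'
    · refine bh_abs hB (fun a => ?_) (by rw [Function.update_self]; exact hv) ω
      by_cases ha : a = s
      · subst ha
        rw [Function.update_self]
        exact hv.le
      · rw [Function.update_of_ne ha]
        exact hh a
    · simp
  have hQZ : ∀ ω, Gl G h ω → Qp G be h s ω = Z h ω := by
    intro ω hG
    have key : ∀ n, n ≤ h s → ∏ v ∈ range n,
        (1 + sb s v ω * bh G be s (Function.update h s v) ω) = Z (Function.update h s n) ω := by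
      intro n
      induction n with
      | zero =>
        intro _
        rw [prod_range_zero, hB.zero _ _ ⟨s, by rw [Function.update_self]⟩]
      | succ n ih =>
        intro hn
        have h1 : Gd G (Function.update h s n) ω := by
          refine Gl_Gd ?_ ?_ hG
          · intro a
            by_cases ha : a = s
            · subst ha
              rw [Function.update_self]
              exact Nat.le_of_succ_le hn
            · rw [Function.update_of_ne ha]
          · intro h2
            have := congrFun h2 s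
            rw [Function.update_self] at this
            omega
        have h2 := hB.step s (Function.update h s n) ω (fun a => by
          by_cases ha : a = s
          · subst ha
            rw [Function.update_self]
            have := hh a
            omega
          · rw [Function.update_of_ne ha]
            exact hh a) (by
              rw [Function.update_self]
              have := hh s
              omega) h1
        have h3 : upc (Function.update h s n) s = Function.update h s (n + 1) := by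
          unfold upc
          rw [Function.update_self, Function.update_idem]
        rw [h3, Function.update_self] at h2
        rw [prod_range_succ, ih (by omega), h2]
        unfold bh
        rw [if_pos h1]
    unfold Qp
    rw [key (h s) le_rfl, Function.update_eq_self]
  refine ⟨?_, ?_, ?_, hQZ, ?_⟩
  · rw [e0]
    exact P23.pp_law E hb hb' (hh s)
  · intro v hv ω
    rw [e0, P23.al_pp E hb hb' hv (hh s)]
    simp only [if_pos hv]
  · intro v hv hvL ω
    rw [e0, P23.al_pp_zero E hb hv hvL]
  · intro ω hG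
    rw [← hQZ ω hG, e0]
    exact (P23.pp_pos hb' (hh s) ω).le

open Classical in
/-- the density against an event is at most the probability of the event, for every string -/
theorem Av_Gl_le {m L : ℕ} {G : (Fin (m + 1) → ℕ) → Pt m L → Prop}
    {be : Fin (m + 1) → (Fin (m + 1) → ℕ) → Pt m L → ℝ} {Z : (Fin (m + 1) → ℕ) → Pt m L → ℝ}
    {h : Fin (m + 1) → ℕ} (s : Fin (m + 1)) (hB : Bay G be Z) (hh : ∀ a, h a ≤ L)
    (P : Pt m L → Prop) :
    Av (fun ω => if Gl G h ω ∧ P ω then Z h ω else 0) ≤
      Pr (Qp G be h s) (fun ω => Gl G h ω ∧ P ω) := by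
  obtain ⟨h1, -, -, h4, -⟩ := pathlaw_23 m L G be Z h s hB hh
  unfold Pr Ex
  refine Av_mono fun ω => ?_
  beta_reduce
  by_cases hP : Gl G h ω ∧ P ω
  · rw [if_pos hP, if_pos hP, mul_one, h4 ω hP.1]
  · rw [if_neg hP, if_neg hP, mul_zero]

end Pool.Agent.SHX
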