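import Pool.Agent.Lib.MP_a7b2aa_an.SHX.StmtsL21
import Pool.Agent.Lib.MP_a7b2aa_an.SHX.MfB21
import Pool.Agent.Lib.MP_a7b2aa_an.SHX.PathA23

/-!
# SHX, FRESHL: sums against centred signs of one string, with one logarithm (seat 21)

The path law of the string and the matrix Freedman inequality with its exponential tail.
-/

set_option autoImplicit false

namespace Pool.Agent.SHXA

open Finset Matrix Pool.Agent.SB3 Pool.Agent.SBT Pool.Agent.SBD Pool.Agent.SHD Pool.Agent.SHX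
open Pool.Agent.SHX.Mf21

/-- **matrix Freedman, event form**, exponential tail -/
theorem mfree_gen {m L T : ℕ} (c : Fin (m + 1)) {κ κ' : Type} [Fintype κ] [Fintype κ']
    (K : ℕ → Pt m L → Matrix κ κ' ℝ) {k B : ℝ} {ρ : Pt m L → ℝ} (G : Pt m L → Prop) {s : ℝ}
    (hs0 : 0 ≤ s) (hρ : Law k ρ) (hB : 0 ≤ B) (hK : ∀ t, Ms (one L c t) (K t))
    (hG1 : ∀ ω, G ω → ∀ w : κ' → ℝ,
      ∑ t ∈ range T, ∑ x, (∑ y, K t ω x y * w y) ^ 2 ≤ B * ∑ y, w y ^ 2)
    (hG2 : ∀ ω, G ω → ∀ w : κ → ℝ,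
      ∑ t ∈ range T, ∑ y, (∑ x, K t ω x y * w x) ^ 2 ≤ B * ∑ x, w x ^ 2) :
    Pr ρ (fun ω => G ω ∧ ¬ NB (∑ t ∈ range T, (sb c t ω - al ρ c t ω) • K t ω) (s ^ 2 * B)) ≤
      (Fintype.card κ + Fintype.card κ') * Real.exp (-(s ^ 2 / 16)) := by
  classical
  have hRHS : 0 ≤ ((Fintype.card κ : ℝ) + Fintype.card κ') * Real.exp (-(s ^ 2 / 16)) := by
    positivity
  have h0 : Ex ρ (fun _ : Pt m L => (0 : ℝ)) = 0 := Ex_const hρ 0
  have conv1 : ∀ (ω : Pt m L) (w : κ' → ℝ), ∑ t ∈ range T, (K t ω *ᵥ w) ⬝ᵥ (K t ω *ᵥ w) =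
      ∑ t ∈ range T, ∑ x, (∑ y, K t ω x y * w y) ^ 2 := by
    intro ω w
    refine sum_congr rfl fun t _ => ?_
    rw [dotProduct]
    refine sum_congr rfl fun x _ => ?_
    rw [sq]
    rfl
  have conv2 : ∀ (ω : Pt m L) (w : κ → ℝ), ∑ t ∈ range T, ((K t ω)ᵀ *ᵥ w) ⬝ᵥ ((K t ω)ᵀ *ᵥ w) =
      ∑ t ∈ range T, ∑ y, (∑ x, K t ω x y * w x) ^ 2 := by
    intro ω w
    refine sum_congr rfl fun t _ => ?_
    rw [dotProduct]
    refine sum_congr rfl fun x _ => ?_
    rw [sq]
    rfl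
  rcases hB.lt_or_eq with hB0 | hB0
  swap
  · -- `B = 0`
    have hzero : ∀ ω, ¬ (G ω ∧ ¬ NB (∑ t ∈ range T, (sb c t ω - al ρ c t ω) • K t ω)
        (s ^ 2 * B)) := by
      rintro ω ⟨hGω, hnb⟩
      apply hnb
      intro u
      have h1 := hG1 ω hGω u
      rw [← hB0, zero_mul] at h1
      have h2 : ∀ t ∈ range T, ∑ x, (∑ y, K t ω x y * u y) ^ 2 = 0 := by
        apply (sum_eq_zero_iff_of_nonneg ?_).1 ?_
        · intro t _
          exact sum_nonneg fun _ _ => sq_nonneg _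
        · exact le_antisymm h1 (sum_nonneg fun t _ => sum_nonneg fun _ _ => sq_nonneg _)
      have h3 : ∀ x, ∑ y, (∑ t ∈ range T, (sb c t ω - al ρ c t ω) • K t ω) x y * u y = 0 := by
        intro x
        have h4 : ∀ t ∈ range T, ∑ y, K t ω x y * u y = 0 := by
          intro t ht
          have h5 := (sum_eq_zero_iff_of_nonneg fun _ _ => sq_nonneg _).1 (h2 t ht) x
            (mem_univ x)
          exact pow_eq_zero_iff (two_ne_zero) |>.1 h5
        have h6 : ∑ y, (∑ t ∈ range T, (sb c t ω - al ρ c t ω) • K t ω) x y * u y =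
            ∑ t ∈ range T, (sb c t ω - al ρ c t ω) * ∑ y, K t ω x y * u y := by
          simp only [Matrix.sum_apply, Matrix.smul_apply, smul_eq_mul, sum_mul, mul_sum]
          rw [sum_comm]
          refine sum_congr rfl fun t _ => sum_congr rfl fun y _ => ?_
          ring
        rw [h6]
        exact sum_eq_zero fun t ht => by rw [h4 t ht, mul_zero]
      rw [← hB0, mul_zero, zero_mul]
      exact (sum_eq_zero fun x _ => by rw [h3 x]; ring).le
    unfold Pr
    refine (Ex_mono hρ (ψ := fun _ => 0) fun ω => ?_).trans (h0.le.trans hRHS)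
    rw [if_neg (hzero ω)]
  · have htail := tail hρ c K hK T (s := s) hB0 hs0
    have hsub : ∀ ω, (G ω ∧ ¬ NB (∑ t ∈ range T, (sb c t ω - al ρ c t ω) • K t ω)
        (s ^ 2 * B)) → ∃ (x : κ → ℝ) (y : κ' → ℝ), x ⬝ᵥ x = 1 ∧ y ⬝ᵥ y = 1 ∧
      ∑ t ∈ range T, ((K t ω)ᵀ *ᵥ x) ⬝ᵥ ((K t ω)ᵀ *ᵥ x) ≤ B ∧
      ∑ t ∈ range T, (K t ω *ᵥ y) ⬝ᵥ (K t ω *ᵥ y) ≤ B ∧
      s * √B ≤ x ⬝ᵥ ((∑ t ∈ range T, (sb c t ω - al ρ c t ω) • K t ω) *ᵥ y) := by
      rintro ω ⟨hGω, hnb⟩
      obtain ⟨x, y, hx, hy, hxy⟩ := not_NB (by positivity) hnb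
      refine ⟨x, y, hx, hy, ?_, ?_, ?_⟩
      · rw [conv2]
        refine (hG2 ω hGω x).trans (le_of_eq ?_)
        have : ∑ i, x i ^ 2 = 1 := by
          rw [← hx, dotProduct]
          exact sum_congr rfl fun i _ => by ring
        rw [this, mul_one]
      · rw [conv1]
        refine (hG1 ω hGω y).trans (le_of_eq ?_)
        have : ∑ i, y i ^ 2 = 1 := by
          rw [← hy, dotProduct]
          exact sum_congr rfl fun i _ => by ring
        rw [this, mul_one]
      · refine le_trans (le_of_eq ?_) hxy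
        rw [Real.sqrt_mul (by positivity), Real.sqrt_sq hs0]
    refine le_trans ?_ htail
    unfold Pr
    refine Ex_mono hρ fun ω => ?_
    by_cases h1 : G ω ∧ ¬ NB (∑ t ∈ range T, (sb c t ω - al ρ c t ω) • K t ω) (s ^ 2 * B)
    · rw [if_pos h1, if_pos (hsub ω h1)]
    · rw [if_neg h1]
      split_ifs
      · exact zero_le_one
      · exact le_rfl

/-- the logarithm is at most `T0 K` -/
theorem log_le_T0 {L K : ℕ} (h : L < 2 ^ K) : Real.log ((L : ℝ) + 1) ≤ T0 K := by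
  have h1 : (L : ℝ) + 1 ≤ 2 ^ K := by exact_mod_cast h
  have h2 : (0 : ℝ) < (L : ℝ) + 1 := by positivity
  have h3 := Real.log_le_log h2 h1
  rw [Real.log_pow] at h3
  have h4 : Real.log 2 ≤ 1 := by
    have := Real.log_two_lt_d9
    linarith
  have h5 : (K : ℝ) * Real.log 2 ≤ K * 1 := mul_le_mul_of_nonneg_left h4 (Nat.cast_nonneg K)
  unfold T0
  have h6 : (0 : ℝ) ≤ K := Nat.cast_nonneg K
  linarith

open Classical in
theorem freshL_21 : StFreshL := by
  intro n D
  refine ⟨16 * ((D : ℝ) + n + 1), by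
    have h1 : (0 : ℝ) ≤ D := Nat.cast_nonneg D
    have h2 : (0 : ℝ) ≤ n := Nat.cast_nonneg n
    linarith, ?_⟩
  intro m L Kb X Y _ _ _ _ G be Z H f B M hL hLK hB hH hX hY hB0 hM
  obtain ⟨hlaw, hal, -, -, -⟩ := pathlaw_23 m L G be Z H f hB hH
  set ρ := Qp G be H f with hρ
  set K : ℕ → Pt m L → Matrix X Y ℝ := fun t ω =>
    if t < H f then Matrix.of (fun x y => M t x y ω) else 0 with hK
  have hKms : ∀ t, Ms (one L f t) (K t) := by
    intro t ω ω' hω
    simp only [hK]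
    split_ifs with ht
    · ext x y
      simp only [Matrix.of_apply]
      exact update_ms (h := H) (s := f) (v := t) (hM t ht x y) ω ω' hω
    · rfl
  have hX' : (Fintype.card X : ℝ) ≤ ((L : ℝ) + 1) ^ D := by exact_mod_cast hX
  have hY' : (Fintype.card Y : ℝ) ≤ ((L : ℝ) + 1) ^ D := by exact_mod_cast hY
  have hD0 : (0 : ℝ) ≤ D := Nat.cast_nonneg D
  have hn0 : (0 : ℝ) ≤ n := Nat.cast_nonneg n
  have hK0 : 0 ≤ T0 Kb := by
    unfold T0
    positivity
  set s : ℝ := √(16 * ((D : ℝ) + n + 1) * T0 Kb) with hs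
  have hs2 : s ^ 2 = 16 * ((D : ℝ) + n + 1) * T0 Kb := Real.sq_sqrt (by positivity)
  have h1 := mfree_gen (T := H f) f K (k := (L : ℝ)) (B := B) (ρ := ρ)
    (fun ω => SQ (H f) B (fun r x y => M r x y ω)) (s := s) (Real.sqrt_nonneg _) hlaw hB0 hKms
    (by
      intro ω hω w
      refine le_trans (le_of_eq ?_) (hω.1 w)
      refine sum_congr rfl fun t ht => ?_
      simp only [hK, if_pos (mem_range.1 ht), Matrix.of_apply])
    (by
      intro ω hω w
      refine le_trans (le_of_eq ?_) (hω.2 w)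
      refine sum_congr rfl fun t ht => ?_
      simp only [hK, if_pos (mem_range.1 ht), Matrix.of_apply])
  rw [hs2] at h1
  have h2 : (Fintype.card X + Fintype.card Y : ℝ) *
      Real.exp (-(16 * ((D : ℝ) + n + 1) * T0 Kb / 16)) ≤
      16 * ((D : ℝ) + n + 1) / ((L : ℝ) + 1) ^ n := by
    have hL1 : (0 : ℝ) < (L : ℝ) + 1 := by positivity
    have hLg := log_le_T0 hLK
    have hexp : Real.exp (-(16 * ((D : ℝ) + n + 1) * T0 Kb / 16)) ≤
        1 / ((L : ℝ) + 1) ^ (D + n + 1) := by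
      have h3 : -(16 * ((D : ℝ) + n + 1) * T0 Kb / 16) ≤
          -(((D + n + 1 : ℕ) : ℝ) * Real.log ((L : ℝ) + 1)) := by
        push_cast
        have : ((D : ℝ) + n + 1) * Real.log ((L : ℝ) + 1) ≤ ((D : ℝ) + n + 1) * T0 Kb :=
          mul_le_mul_of_nonneg_left hLg (by linarith)
        linarith
      refine (Real.exp_le_exp.2 h3).trans (le_of_eq ?_)
      rw [Real.exp_neg, ← Real.log_pow, Real.exp_log (by positivity), one_div]
    calc (Fintype.card X + Fintype.card Y : ℝ) *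
          Real.exp (-(16 * ((D : ℝ) + n + 1) * T0 Kb / 16))
        ≤ (((L : ℝ) + 1) ^ D + ((L : ℝ) + 1) ^ D) * (1 / ((L : ℝ) + 1) ^ (D + n + 1)) :=
          mul_le_mul (add_le_add hX' hY') hexp (Real.exp_pos _).le (by positivity)
      _ = 2 / (((L : ℝ) + 1) ^ n * ((L : ℝ) + 1)) := by
          rw [pow_add, pow_add, pow_one]
          field_simp
          ring
      _ ≤ 16 * ((D : ℝ) + n + 1) / ((L : ℝ) + 1) ^ n := by
          have hL2 : (1 : ℝ) ≤ (L : ℝ) + 1 := by
            have : (0 : ℝ) ≤ L := Nat.cast_nonneg L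
            linarith
          have h4 : ((L : ℝ) + 1) ^ n ≤ ((L : ℝ) + 1) ^ n * ((L : ℝ) + 1) :=
            le_mul_of_one_le_right (by positivity) hL2
          have h5 : (0 : ℝ) < ((L : ℝ) + 1) ^ n := by positivity
          calc 2 / (((L : ℝ) + 1) ^ n * ((L : ℝ) + 1)) ≤ 2 / ((L : ℝ) + 1) ^ n :=
                div_le_div_of_nonneg_left (by norm_num) h5 h4
            _ ≤ _ := div_le_div_of_nonneg_right (by linarith) h5.le
  refine le_trans ?_ (h1.trans h2)
  unfold PP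
  refine (Av_Gl_le f hB hH _).trans ?_
  refine Pr_mono hlaw ?_
  rintro ω ⟨hG, hS, hN⟩
  refine ⟨hS, fun hN' => hN ?_⟩
  have e1 : (∑ t ∈ range (H f), (sb f t ω - al ρ f t ω) • K t ω) =
      Matrix.of (fun x y => ∑ r ∈ range (H f),
        (sb f r ω - be f (Function.update H f r) ω) * M r x y ω) := by
    ext x y
    rw [Matrix.sum_apply]
    simp only [Matrix.of_apply]
    refine sum_congr rfl fun t ht => ?_
    have ht' := mem_range.1 ht
    have h2 : Gd G (Function.update H f t) ω := by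
      refine Gl_Gd ?_ ?_ hG
      · intro a
        by_cases ha : a = f
        · subst ha
          rw [Function.update_self]
          exact ht'.le
        · rw [Function.update_of_ne ha]
      · intro h2
        have := congrFun h2 f
        rw [Function.update_self] at this
        omega
    have h3 : al ρ f t ω = be f (Function.update H f t) ω := by
      rw [hal t ht' ω]
      unfold SHX.bh
      rw [if_pos h2]
    rw [h3]
    simp only [hK, if_pos ht', Matrix.smul_apply, Matrix.of_apply, smul_eq_mul]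
  rw [e1] at hN'
  exact hN'

end Pool.Agent.SHXA
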