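import Pool.Agent.Lib.MP_a7b2aa_an.SBD.Base30

/-!
# SHX: path laws and minimal bad classes, every dimension (seat 23). Definitions, statements

`be c h` is the bias of the next digit of the string `c` after the class `h`, `Z h` is the density
of the class `h`, `G h` are the good classes.
-/

set_option autoImplicit false

namespace Pool.Agent.SHX

open Finset Pool.Agent.SB3 Pool.Agent.SBT Pool.Agent.SBD

/-- one more digit of the string `c` -/
def upc {m : ℕ} (h : Fin (m + 1) → ℕ) (c : Fin (m + 1)) : Fin (m + 1) → ℕ :=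
  Function.update h c (h c + 1)

/-- all classes `r ≤ h` are good -/
def Gd {m L : ℕ} (G : (Fin (m + 1) → ℕ) → Pt m L → Prop) (h : Fin (m + 1) → ℕ) (ω : Pt m L) :
    Prop := ∀ r, r ≤ h → G r ω

/-- all classes `r < h` are good -/
def Gl {m L : ℕ} (G : (Fin (m + 1) → ℕ) → Pt m L → Prop) (h : Fin (m + 1) → ℕ) (ω : Pt m L) :
    Prop := ∀ r, r ≤ h → r ≠ h → G r ω

/-- densities and biases which fit together on the good classes -/
structure Bay {m L : ℕ} (G : (Fin (m + 1) → ℕ) → Pt m L → Prop)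
    (be : Fin (m + 1) → (Fin (m + 1) → ℕ) → Pt m L → ℝ)
    (Z : (Fin (m + 1) → ℕ) → Pt m L → ℝ) : Prop where
  msG : ∀ h, Ms h (G h)
  msb : ∀ c h, Ms h (be c h)
  msZ : ∀ h, Ms h (Z h)
  start : ∀ ω, G (fun _ => 0) ω
  zero : ∀ h ω, (∃ a, h a = 0) → Z h ω = 1
  abs : ∀ c h ω, (∀ a, h a ≤ L) → h c < L → Gd G h ω → |be c h ω| ≤ 1 / 2
  step : ∀ c h ω, (∀ a, h a ≤ L) → h c < L → Gd G h ω →
    Z (upc h c) ω = Z h ω * (1 + sb c (h c) ω * be c h ω)

open Classical in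
/-- the bias, switched off at the first bad class -/
noncomputable def bh {m L : ℕ} (G : (Fin (m + 1) → ℕ) → Pt m L → Prop)
    (be : Fin (m + 1) → (Fin (m + 1) → ℕ) → Pt m L → ℝ) (c : Fin (m + 1))
    (h : Fin (m + 1) → ℕ) (ω : Pt m L) : ℝ := if Gd G h ω then be c h ω else 0

/-- the path law: only the digits of the string `s` are biased, the other strings have the
lengths `h` -/
noncomputable def Qp {m L : ℕ} (G : (Fin (m + 1) → ℕ) → Pt m L → Prop)
    (be : Fin (m + 1) → (Fin (m + 1) → ℕ) → Pt m L → ℝ) (h : Fin (m + 1) → ℕ) (s : Fin (m + 1))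
    (ω : Pt m L) : ℝ :=
  ∏ v ∈ range (h s), (1 + sb s v ω * bh G be s (Function.update h s v) ω)

open Classical in
/-- the density on the good classes -/
noncomputable def ze {m L : ℕ} (G : (Fin (m + 1) → ℕ) → Pt m L → Prop)
    (Z : (Fin (m + 1) → ℕ) → Pt m L → ℝ) (h : Fin (m + 1) → ℕ) (ω : Pt m L) : ℝ :=
  if Gd G h ω then Z h ω else 0

/-- PATHLAW: the path law is a law, its biases, it is the density if all smaller classes are
good -/
def StPathLaw : Prop := ∀ (m L : ℕ) (G : (Fin (m + 1) → ℕ) → Pt m L → Prop)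
    (be : Fin (m + 1) → (Fin (m + 1) → ℕ) → Pt m L → ℝ)
    (Z : (Fin (m + 1) → ℕ) → Pt m L → ℝ) (h : Fin (m + 1) → ℕ) (s : Fin (m + 1)),
    Bay G be Z → (∀ a, h a ≤ L) →
  Law L (Qp G be h s) ∧
  (∀ v < h s, ∀ ω, al (Qp G be h s) s v ω = bh G be s (Function.update h s v) ω) ∧
  (∀ v, h s ≤ v → v < L → ∀ ω, al (Qp G be h s) s v ω = 0) ∧
  (∀ ω, Gl G h ω → Qp G be h s ω = Z h ω) ∧
  (∀ ω, Gl G h ω → 0 ≤ Z h ω)

open Classical in
/-- MINBAD: if for every class `h` the event that `h` is bad and all smaller classes are good has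
probability at most `δ` then every past is as it should be -/
def StMinBad : Prop := ∀ m : ℕ, ∃ C : ℝ, 1 ≤ C ∧ ∀ (L : ℕ)
    (G : (Fin (m + 1) → ℕ) → Pt m L → Prop)
    (be : Fin (m + 1) → (Fin (m + 1) → ℕ) → Pt m L → ℝ)
    (Z : (Fin (m + 1) → ℕ) → Pt m L → ℝ) (s : Fin (m + 1)) (δ : ℝ),
    Bay G be Z → 0 ≤ δ →
    (∀ h : Fin (m + 1) → ℕ, (∀ a, h a ≤ L) →
      Av (fun ω => if Gl G h ω ∧ ¬ G h ω then Z h ω else 0) ≤ δ) →
  Law L (Qp G be (fun _ => L) s) ∧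
  (∀ (p : Fin (m + 1) → ℕ) (f : Pt m L → ℝ) (B : ℝ), (∀ a, p a ≤ L) → Ms p f → (∀ ω, |f ω| ≤ B) →
    |Ex (Qp G be (fun _ => L) s) f - Av (fun ω => ze G Z p ω * f ω)| ≤
      C * (L + 1) ^ (m + 2) * δ * B) ∧
  (∀ (p : Fin (m + 1) → ℕ) (f X : Pt m L → ℝ) (B K : ℝ), (∀ a, p a < L) →
    Ms (fun a => p a + 1) f → (∀ ω, |f ω| ≤ B) → 0 ≤ K →
    (∀ ω, Gd G (fun a => p a + 1) ω → X ω = Z (fun a => p a + 1) ω) →
    (∀ ω, Gd G p ω → |X ω| ≤ K * Z p ω) →
    |Ex (Qp G be (fun _ => L) s) f - Av (fun ω => if Gd G p ω then X ω * f ω else 0)| ≤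
      C * (L + 1) ^ (m + 2) * δ * B * (K + 1))

end Pool.Agent.SHX
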