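import Pool.Agent.Lib.MP_a7b2aa_an.SHX.StmtsEnd30
import Pool.Agent.Lib.MP_a7b2aa_an.SHX.PathD23

/-!
MP_a7b2aa_an, beyond the gain `1 / 4` (helper30): interface between the exact law and LAWX. `ka A h`
is the joint cumulant of the next signs of the strings in `A`, given the class `h`; `Z h` is the
density of the class `h`.
-/

set_option autoImplicit false

namespace Pool.Agent.SHX

open Finset Pool.Agent.SB3 Pool.Agent.SBT Pool.Agent.SBD Pool.Agent.SHD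

/-- what NEAR and LAWX use of the exact law -/
structure ExB {m L : ℕ} (c lam : ℝ) (u : (Fin (m + 1) → ℕ) → Pt m L → ℝ)
    (ka : Finset (Fin (m + 1)) → (Fin (m + 1) → ℕ) → Pt m L → ℝ)
    (Z : (Fin (m + 1) → ℕ) → Pt m L → ℝ) : Prop where
  /-- `m` strings are uniform -/
  zero : ∀ h ω, (∃ a, h a = 0) → Z h ω = 1
  /-- the top cumulant -/
  top : ∀ h ω, ka Finset.univ h ω = lam * u h ω
  /-- `m` strings are uniform -/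
  van : ∀ (A : Finset (Fin (m + 1))) h p ω, A.Nonempty → p ∉ A → h p = 0 → ka A h ω = 0
  /-- one more digit of the string `e`: the density -/
  step : ∀ e h ω, Z h ω ≠ 0 →
    Z (upc h e) ω = Z h ω * (1 + sb e (h e) ω * ka {e} h ω)
  /-- one more digit of the string `e`: the cumulants -/
  star : ∀ (A : Finset (Fin (m + 1))) e h ω x, A.Nonempty → e ∉ A → Z h ω ≠ 0 → x ≤ 1 / 2 →
    (∀ B : Finset (Fin (m + 1)), B.Nonempty → |ka B h ω| ≤ x) →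
    |ka A (upc h e) ω - ka A h ω| ≤ c * (|ka (insert e A) h ω| + x ^ 2)
  /-- the coefficient of the cell `p` -/
  coef : ∀ p ω x, (∀ a, p a < L) → Z p ω ≠ 0 → x ≤ 1 / 2 →
    (∀ B : Finset (Fin (m + 1)), B.Nonempty → |ka B p ω| ≤ x) →
    |EE p (fun ω' => ps Finset.univ p ω' * Z (fun a => p a + 1) ω') ω -
      Z p ω * ka Finset.univ p ω| ≤ c * x ^ 2 * |Z p ω|

/-- the classes near the band (from ExB): the crude bounds, for every point -/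
def StNearX : Prop := ∀ (m : ℕ) (c : ℝ), 1 ≤ c → ∃ C : ℝ, 1 ≤ C ∧
  ∀ (L N R : ℕ) (lam : ℝ) (u : (Fin (m + 1) → ℕ) → Pt m L → ℝ)
    (ka : Finset (Fin (m + 1)) → (Fin (m + 1) → ℕ) → Pt m L → ℝ)
    (Z : (Fin (m + 1) → ℕ) → Pt m L → ℝ), 0 ≤ lam → ArF N R u → ExB c lam u ka Z →
    C * lam * ((R : ℝ) + 1) ^ (2 * m + 2) ≤ 1 →
    ∀ (h : Fin (m + 1) → ℕ) (ω : Pt m L), ∑ a, h a ≤ N + R + 1 →
      |Z h ω - 1| ≤ C * lam * ((R : ℝ) + 1) ^ (m + 1) ∧ 1 / 2 ≤ Z h ω ∧ Z h ω ≤ 2 ∧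
      ∀ A : Finset (Fin (m + 1)), A.Nonempty → |ka A h ω| ≤ C * lam * ((R : ℝ) + 1) ^ m

open Classical in
/-- LAWC: from densities, biases and good classes to a law -/
def StLawC : Prop := ∀ m : ℕ, ∃ C : ℝ, 1 ≤ C ∧
  ∀ (L N R : ℕ) (lam δ : ℝ) (u : (Fin (m + 1) → ℕ) → Pt m L → ℝ)
    (be : Fin (m + 1) → (Fin (m + 1) → ℕ) → Pt m L → ℝ)
    (Z : (Fin (m + 1) → ℕ) → Pt m L → ℝ) (G : (Fin (m + 1) → ℕ) → Pt m L → Prop),
    1 ≤ L → 0 < lam → 0 ≤ δ → Bay G be Z →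
    (∀ (h : Fin (m + 1) → ℕ) (ω : Pt m L), ∑ a, h a ≤ N + R + (m + 1) →
      1 / 2 ≤ Z h ω ∧ Z h ω ≤ 2) →
    (∀ (q : Fin (m + 1) → ℕ) (ω : Pt m L), (∀ a, q a < L) → ∑ a, q a ≤ N + R →
      |EE q (fun ω' => ps univ q ω' * Z (fun a => q a + 1) ω') ω - lam * u q ω| ≤ lam / 4) →
    (∀ h : Fin (m + 1) → ℕ, (∀ a, h a ≤ L) →
      Av (fun ω => if Gl G h ω ∧ ¬ G h ω then Z h ω else 0) ≤ δ) →
    ∃ ρ : Pt m L → ℝ, (∀ ω, 0 ≤ ρ ω) ∧ Av ρ = 1 ∧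
      ∀ q ∈ All m L, dst (∑ a, q a) N ≤ R → ∀ w : Pt m L → ℝ, Ms q w → (∀ ω, |w ω| ≤ 1) →
        (∀ ω, w ω * u q ω = |w ω|) →
        lam * Av (fun ω => |w ω|) ≤ 4 * Ex ρ (fun ω => ps Finset.univ q ω * w ω) +
          C * (1 + lam) * (((L : ℝ) + 1) ^ (m + 2) * δ)

open Classical in
/-- SYSX: the exact system with its good classes, for the tilt `L ^ (-p)` -/
def StSysX (m : ℕ) (p : ℝ) : Prop := ∃ c : ℝ, 1 ≤ c ∧ ∀ (n : ℕ) (K : ℝ), 0 < K →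
  ∃ C : ℝ, 1 ≤ C ∧ ∀ (L N R : ℕ) (u : (Fin (m + 1) → ℕ) → Pt m L → ℝ), C ≤ (L : ℝ) →
    (R : ℝ) ≤ K * Real.log (L + 1) + 1 → ArF N R u →
    ∃ (ka : Finset (Fin (m + 1)) → (Fin (m + 1) → ℕ) → Pt m L → ℝ)
      (Z : (Fin (m + 1) → ℕ) → Pt m L → ℝ) (G : (Fin (m + 1) → ℕ) → Pt m L → Prop),
      ExB c ((L : ℝ) ^ (-p)) u ka Z ∧ Bay G (fun e => ka {e}) Z ∧
      ∀ h : Fin (m + 1) → ℕ, (∀ a, h a ≤ L) →
        Av (fun ω => if Gl G h ω ∧ ¬ G h ω then Z h ω else 0) ≤ C / (L + 1) ^ n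

end Pool.Agent.SHX
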