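import Pool.Agent.Lib.MP_a7b2aa_an.SHX.StmtsX65
import Pool.Agent.Lib.MP_a7b2aa_an.SHX.StmtsSys30

/-!
SHX, polylogarithmic version (helper21): the statements which in `StmtsX65` lose a factor `L ^ ε`,
with a power of `T0 K` (that is, of the logarithm) instead. No number of steps `n0`. The exponent
`e` does not depend on `n`.
-/

set_option autoImplicit false

namespace Pool.Agent.SHXA

open Finset Pool.Agent.SB3 Pool.Agent.SBT Pool.Agent.SBD Pool.Agent.SHD Pool.Agent.SHX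
open Pool.Agent.Lib.MP_a7b2aa_an.SHX

/-- FRESHL: fresh sums, with one logarithm -/
def StFreshL : Prop := ∀ (n D : ℕ), ∃ C : ℝ, 1 ≤ C ∧
  ∀ (m L K : ℕ) (X Y : Type) [Fintype X] [Fintype Y] [DecidableEq X] [DecidableEq Y]
    (G : (Fin (m + 1) → ℕ) → Pt m L → Prop)
    (be : Fin (m + 1) → (Fin (m + 1) → ℕ) → Pt m L → ℝ)
    (Z : (Fin (m + 1) → ℕ) → Pt m L → ℝ) (H : Fin (m + 1) → ℕ) (f : Fin (m + 1)) (B : ℝ)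
    (M : ℕ → X → Y → Pt m L → ℝ), 1 ≤ L → L < 2 ^ K → Bay G be Z → (∀ a, H a ≤ L) →
    Fintype.card X ≤ (L + 1) ^ D → Fintype.card Y ≤ (L + 1) ^ D → 0 ≤ B →
    (∀ r < H f, ∀ x y, Ms (Function.update H f r) (M r x y)) →
    PP G Z H (fun ω => SQ (H f) B (fun r x y => M r x y ω) ∧
      ¬ NB (Matrix.of (fun x y => ∑ r ∈ range (H f),
        (sb f r ω - be f (Function.update H f r) ω) * M r x y ω)) (C * T0 K * B)) ≤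
      C / (L + 1) ^ n

/-- RECL: sums against centred signs (from FRESHL, RID, RKER, RNRM, RCR) -/
def StRecL : Prop := ∀ m : ℕ, ∃ e : ℕ, ∀ n D : ℕ, ∃ C : ℝ, 1 ≤ C ∧
  ∀ (L K : ℕ) (lam b B : ℝ) (bs : ℕ → ℝ) (u Z W : (Fin (m + 1) → ℕ) → Pt m L → ℝ)
    (ka : Finset (Fin (m + 1)) → (Fin (m + 1) → ℕ) → Pt m L → ℝ) (H : Fin (m + 1) → ℕ)
    (f : Fin (m + 1)) (d : Fin (m + 1) → ℕ) (w : Fin (m + 1) → Finset ℕ) (X Y : Type)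
    [Fintype X] [Fintype Y] [DecidableEq X] [DecidableEq Y]
    (Ψ : X → Y → (Fin (m + 1) → ℕ) → Pt m L → ℝ), 1 ≤ L → L < 2 ^ K → 2 ^ K ≤ 2 * (L + 1) →
    (∀ a, H a ≤ L) →
    Exact lam u Z ka W → Bay (Gk K bs ka) (fun c h => ka {c} h) Z →
    (∀ h ω, (∀ a, h a ≤ L) → Gd (Gk K bs ka) h ω → 0 < Z h ω) →
    (∀ j, 0 ≤ bs j) → (∀ j, bs j ≤ b) → C * T0 K ^ e * b ≤ 1 →
    Fintype.card X ≤ (L + 1) ^ D → Fintype.card Y ≤ (L + 1) ^ D → (∀ a, w a ⊆ range K) →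
    Ker H f d Ψ → 0 ≤ B →
    PP (Gk K bs ka) Z H (fun ω => KN K H f d B Ψ ω ∧
      ¬ NB (Matrix.of (fun x y => SS ka H f d w Ψ ω x y)) (C * T0 K ^ e * B)) ≤
      C / (L + 1) ^ n

/-- GOODXL: minimal bad classes are rare (from RECL, UV, TOPU, BAYX, PHI, WALX) -/
def StGoodxL : Prop := ∀ m : ℕ, 1 ≤ m → ∃ e : ℕ, ∀ n : ℕ, ∃ C : ℝ, 1 ≤ C ∧
  ∀ (L K N R : ℕ) (lam b η : ℝ) (bs : ℕ → ℝ) (u Z W : (Fin (m + 1) → ℕ) → Pt m L → ℝ)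
    (ka : Finset (Fin (m + 1)) → (Fin (m + 1) → ℕ) → Pt m L → ℝ) (H : Fin (m + 1) → ℕ),
    1 ≤ L → L < 2 ^ K → 2 ^ K ≤ 2 * (L + 1) → (∀ a, H a ≤ L) → ArF N R u → 0 ≤ lam → 0 ≤ η →
    (2 * (R : ℝ) + 1) ^ 2 * lam ^ 2 * ((L : ℝ) + 1) ^ (m - 1) ≤ η ^ 2 →
    Exact lam u Z ka W → Sz m b η bs → C * T0 K ^ e * b ≤ 1 →
    (∀ j, 1 ≤ j → j ≤ m → C * T0 K ^ e * (bs (j + 1) + b ^ 2) ≤ bs j) →
    PP (Gk K bs ka) Z H (fun ω => ¬ Gk K bs ka H ω) ≤ C / (L + 1) ^ n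

open Classical in
/-- SYSL: the exact system with its good classes, for a tilt
`≥ L ^ (- (m - 1) / 2) (log (L + 1) + 1) ^ (-E) / C` (from EXACTB, BAYX, GOODXL) -/
def StSysL (m : ℕ) : Prop := ∃ c : ℝ, 1 ≤ c ∧ ∃ E : ℕ, ∀ (n : ℕ) (K : ℝ), 0 < K →
  ∃ C : ℝ, 1 ≤ C ∧ ∀ (L N R : ℕ) (u : (Fin (m + 1) → ℕ) → Pt m L → ℝ), C ≤ (L : ℝ) →
    (R : ℝ) ≤ K * Real.log (L + 1) + 1 → ArF N R u →
    ∃ (lam : ℝ) (ka : Finset (Fin (m + 1)) → (Fin (m + 1) → ℕ) → Pt m L → ℝ)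
      (Z : (Fin (m + 1) → ℕ) → Pt m L → ℝ) (G : (Fin (m + 1) → ℕ) → Pt m L → Prop),
      0 < lam ∧ lam ≤ (L : ℝ) ^ (-(1 / 2) : ℝ) ∧
      1 ≤ C * ((L : ℝ) ^ (((m : ℝ) - 1) / 2) * (Real.log ((L : ℝ) + 1) + 1) ^ E) * lam ∧
      ExB c lam u ka Z ∧ Bay G (fun e => ka {e}) Z ∧
      ∀ h : Fin (m + 1) → ℕ, (∀ a, h a ≤ L) →
        Av (fun ω => if Gl G h ω ∧ ¬ G h ω then Z h ω else 0) ≤ C / ((L : ℝ) + 1) ^ n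

/-- SYSL for all dimensions `≥ 3` -/
def StSysAllL : Prop := ∀ m : ℕ, 2 ≤ m → StSysL m

end Pool.Agent.SHXA
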