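import Pool.Agent.Lib.MP_a7b2aa_an.SHX.Goodx31
import Pool.Agent.Lib.MP_a7b2aa_an.SHX.StmtsL21

/-!
SHX, module GOODXL (helper31): minimal bad classes are rare, with a power of the logarithm.
-/

set_option autoImplicit false

namespace Pool.Agent.SHXA

open Finset Pool.Agent.SB3 Pool.Agent.SBT Pool.Agent.SBD Pool.Agent.SHD Pool.Agent.SHX
open Pool.Agent.Lib.MP_a7b2aa_an.SHX

namespace Gx31L

open Gx31

/-- one own set -/
theorem evBL {m L K : ℕ} {lam c1 b : ℝ} {n1 : ℕ} {bs : ℕ → ℝ}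
    {u Z W : (Fin (m + 1) → ℕ) → Pt m L → ℝ}
    {ka : Finset (Fin (m + 1)) → (Fin (m + 1) → ℕ) → Pt m L → ℝ} {H : Fin (m + 1) → ℕ}
    (h : Cx K lam c1 b n1 bs u Z W ka H) (h2K : 2 ^ K ≤ 2 * (L + 1)) {c2 q : ℝ} {n : ℕ}
    (hc2 : 1 ≤ c2) (hq : 0 ≤ q)
    (hrec : ∀ (B : ℝ) (f : Fin (m + 1)) (d : Fin (m + 1) → ℕ) (w : Fin (m + 1) → Finset ℕ)
      (X Y : Type) [Fintype X] [Fintype Y] [DecidableEq X] [DecidableEq Y]
      (Ψ : X → Y → (Fin (m + 1) → ℕ) → Pt m L → ℝ),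
      Fintype.card X ≤ (L + 1) ^ (m + 1) → Fintype.card Y ≤ (L + 1) ^ (m + 1) →
      (∀ a, w a ⊆ range K) → Ker H f d Ψ → 0 ≤ B →
      PP (Gk K bs ka) Z H (fun ω => KN K H f d B Ψ ω ∧
        ¬ NB (Matrix.of (fun x y => SS ka H f d w Ψ ω x y)) (q * B)) ≤
        c2 / (L + 1) ^ (n + 2 * (m + 1)))
    {B : Finset (Fin (m + 1))} {e : Fin (m + 1)} (he : e ∉ B) (hB : B.Nonempty)
    (hfin : c1 * T0 K ^ n1 * b ^ 2 + Real.sqrt q *
      (2 * bs (B.card + 1) + c1 * T0 K ^ n1 * b ^ 2) ≤ bs B.card) :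
    PP (Gk K bs ka) Z H (fun ω => ¬ Nm K H B (bs B.card) (fun c => ka B c ω)) ≤
      (2 : ℝ) ^ (m + 1) * (1 + 2 ^ (m + 1)) * c2 / (L + 1) ^ n := by
  classical
  set δ : ℝ := c2 / (L + 1) ^ (n + 2 * (m + 1)) with hδ
  have hL0 : (0 : ℝ) < (L : ℝ) + 1 := by positivity
  have hδ0 : 0 ≤ δ := by positivity
  have hb0 : 0 ≤ b := (h.bs0 0).trans (h.bsb 0)
  set b3 : ℝ := 2 * bs (B.card + 1) + c1 * T0 K ^ n1 * b ^ 2 with hb3
  -- the events
  have hone : ∀ w : Fin (m + 1) → Finset ℕ, (∀ a, w a ⊆ range K) →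
      PP (Gk K bs ka) Z H (fun ω => (∃ x ∈ bx H B 0,
        ¬ |Ph H tm w Bᶜ (fun c => ka B c ω) x| ≤ bs B.card) ∨
        ∃ C1 ∈ B.powerset.filter (fun C1 => C1.Nonempty ∧ (B \ C1).Nonempty),
          ¬ NX H C1 (B \ C1) (bs B.card) (Ph H tm w Bᶜ (fun c => ka B c ω))) ≤
      (1 + 2 ^ (m + 1)) * ((L : ℝ) + 1) ^ (m + 1) * δ := by
    intro w hw
    have hwm : ∀ a, wm B w a ⊆ range K := fun a => by
      unfold wm
      split_ifs
      · exact empty_subset _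
      · exact hw a
    have g1 : PP (Gk K bs ka) Z H (fun ω => ∃ x ∈ bx H B 0,
        ¬ |Ph H tm w Bᶜ (fun c => ka B c ω) x| ≤ bs B.card) ≤ (bx H B 0).card * δ := by
      refine pp_ex _ h.z0 fun x hx => h.evu he hB w hw x hx hb3 hq hfin ?_
      refine hrec (b3 ^ 2) e (dm B) (wm B w) Unit Unit _ ?_ ?_ hwm (ker_psg h.hE H w B e _)
        (sq_nonneg _)
      · simp only [Fintype.card_unit]
        exact Nat.one_le_pow _ _ (Nat.succ_pos L)
      · simp only [Fintype.card_unit]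
        exact Nat.one_le_pow _ _ (Nat.succ_pos L)
    have g2 : PP (Gk K bs ka) Z H (fun ω => ∃ C1 ∈ B.powerset.filter
        (fun C1 => C1.Nonempty ∧ (B \ C1).Nonempty),
          ¬ NX H C1 (B \ C1) (bs B.card) (Ph H tm w Bᶜ (fun c => ka B c ω))) ≤
        (B.powerset.filter (fun C1 => C1.Nonempty ∧ (B \ C1).Nonempty)).card * δ := by
      refine pp_ex _ h.z0 fun C1 hC1 => ?_
      rw [mem_filter, mem_powerset] at hC1
      refine h.evs he Finset.disjoint_sdiff (Finset.union_sdiff_of_subset hC1.1) hC1.2.1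
        hC1.2.2 w hw hb3 hq hfin ?_
      refine hrec (b3 ^ 2) e (dm B) (wm B w) _ _ _ ?_ ?_ hwm (ker_psg h.hE H w B e _)
        (sq_nonneg _)
      · rw [Fintype.card_coe]
        exact card_bx h.hH C1
      · rw [Fintype.card_coe]
        exact card_bx h.hH _
    refine (pp_or h.z0 g1 g2).trans ?_
    have k1 : ((bx H B 0).card : ℝ) ≤ ((L : ℝ) + 1) ^ (m + 1) := by
      have := card_bx h.hH B
      exact_mod_cast this
    have k2 : ((B.powerset.filter (fun C1 => C1.Nonempty ∧ (B \ C1).Nonempty)).card : ℝ) ≤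
        2 ^ (m + 1) := by
      have : (B.powerset.filter (fun C1 => C1.Nonempty ∧ (B \ C1).Nonempty)).card ≤
          2 ^ (m + 1) := by
        refine (Finset.card_filter_le _ _).trans ?_
        rw [card_powerset]
        exact Nat.pow_le_pow_right (by norm_num) ((card_le_univ B).trans (by simp))
      exact_mod_cast this
    have k3 : (1 : ℝ) ≤ ((L : ℝ) + 1) ^ (m + 1) := one_le_pow₀ (by linarith [Nat.cast_nonneg (α := ℝ) L])
    have k4 : (0 : ℝ) ≤ 2 ^ (m + 1) := by positivity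
    nlinarith [mul_le_mul_of_nonneg_right k1 hδ0, mul_le_mul_of_nonneg_right k2 hδ0,
      mul_le_mul_of_nonneg_left k3 (mul_nonneg k4 hδ0)]
  set Ws : Finset (Fin (m + 1) → Finset ℕ) :=
    Fintype.piFinset (fun _ : Fin (m + 1) => (range K).powerset) with hWs
  have hWsc : (Ws.card : ℝ) ≤ 2 ^ (m + 1) * ((L : ℝ) + 1) ^ (m + 1) := by
    have h1 : Ws.card = (2 ^ K) ^ (m + 1) := by
      rw [hWs, Fintype.card_piFinset]
      simp
    rw [h1]
    have h2 : ((2 ^ K) ^ (m + 1) : ℕ) ≤ (2 * (L + 1)) ^ (m + 1) := Nat.pow_le_pow_left h2K _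
    calc (((2 ^ K) ^ (m + 1) : ℕ) : ℝ) ≤ (((2 * (L + 1)) ^ (m + 1) : ℕ) : ℝ) := by
          exact_mod_cast h2
      _ = 2 ^ (m + 1) * ((L : ℝ) + 1) ^ (m + 1) := by
          push_cast
          rw [mul_pow]
  have hall : PP (Gk K bs ka) Z H (fun ω => ∃ w ∈ Ws, ((∃ x ∈ bx H B 0,
        ¬ |Ph H tm w Bᶜ (fun c => ka B c ω) x| ≤ bs B.card) ∨
        ∃ C1 ∈ B.powerset.filter (fun C1 => C1.Nonempty ∧ (B \ C1).Nonempty),
          ¬ NX H C1 (B \ C1) (bs B.card) (Ph H tm w Bᶜ (fun c => ka B c ω)))) ≤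
      Ws.card * ((1 + 2 ^ (m + 1)) * ((L : ℝ) + 1) ^ (m + 1) * δ) := by
    refine pp_ex _ h.z0 fun w hw => hone w fun a => ?_
    rw [hWs, Fintype.mem_piFinset] at hw
    exact mem_powerset.1 (hw a)
  refine (pp_mono h.z0 fun ω hg hbad => ?_).trans (hall.trans ?_)
  · by_contra hno
    refine hbad fun w hw => ?_
    have hwW : w ∈ Ws := by
      rw [hWs, Fintype.mem_piFinset]
      exact fun a => mem_powerset.2 (hw a)
    have h1 : ¬ ((∃ x ∈ bx H B 0,
        ¬ |Ph H tm w Bᶜ (fun c => ka B c ω) x| ≤ bs B.card) ∨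
        ∃ C1 ∈ B.powerset.filter (fun C1 => C1.Nonempty ∧ (B \ C1).Nonempty),
          ¬ NX H C1 (B \ C1) (bs B.card) (Ph H tm w Bᶜ (fun c => ka B c ω))) :=
      fun h' => hno ⟨w, hwW, h'⟩
    rw [not_or] at h1
    refine ⟨fun x hx => ?_, fun C1 C2 hd hu hn1 hn2 => ?_⟩
    · by_contra h2
      exact h1.1 ⟨x, hx, h2⟩
    · by_contra h2
      have h3 : B \ C1 = C2 := by
        rw [← hu, Finset.union_sdiff_left]
        exact Finset.sdiff_eq_self_of_disjoint hd.symm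
      refine h1.2 ⟨C1, ?_, ?_⟩
      · rw [mem_filter, mem_powerset, h3]
        exact ⟨hu ▸ subset_union_left, hn1, hn2⟩
      · rw [h3]
        exact h2
  · refine (mul_le_mul_of_nonneg_right hWsc (by positivity)).trans (le_of_eq ?_)
    have e1 : ((L : ℝ) + 1) ^ (n + 2 * (m + 1)) =
        ((L : ℝ) + 1) ^ n * (((L : ℝ) + 1) ^ (m + 1) * ((L : ℝ) + 1) ^ (m + 1)) := by
      rw [← pow_add, ← pow_add]
      congr 1
      omega
    rw [hδ, e1]
    have e2 : ((L : ℝ) + 1) ^ n ≠ 0 := by positivity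
    have e3 : ((L : ℝ) + 1) ^ (m + 1) ≠ 0 := by positivity
    generalize ((L : ℝ) + 1) ^ (m + 1) = Q at e3 ⊢
    generalize ((L : ℝ) + 1) ^ n = Q' at e2 ⊢
    field_simp

end Gx31L

open Gx31L in
theorem goodxl_31 (hRec : StRecL) (hUv : StUv) (hTop : StTopu) (hBay : StBayx) (hPhi : StPhi)
    (hWx : StWalx) (hArr : StArr) : StGoodxL := by
  classical
  intro m hm
  obtain ⟨c1, n1, hc1, huv⟩ := hUv m
  obtain ⟨n2, hRec2⟩ := hRec m
  refine ⟨n1 + n2 + (m + 1), fun n => ?_⟩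
  obtain ⟨c2, hc2, hrec⟩ := hRec2 (n + 2 * (m + 1)) (m + 1)
  set M : ℝ := 2 ^ (m + 1) * (2 ^ (m + 1) * (1 + 2 ^ (m + 1))) with hM
  have hM0 : 0 ≤ M := by positivity
  have hX0 : 0 ≤ c2 * (2 + c1) := by positivity
  have hY0 : 0 ≤ M * c2 := by positivity
  set C : ℝ := c1 + c2 * (2 + c1) + 2 + M * c2 with hC
  have hC1 : 1 ≤ C := by rw [hC]; linarith
  have hCc1 : c1 ≤ C := by rw [hC]; linarith
  have hCc2 : c2 ≤ C := by rw [hC]; nlinarith
  have hC2 : 2 ≤ C := by rw [hC]; linarith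
  have hCM : M * c2 ≤ C := by rw [hC]; linarith
  refine ⟨C, hC1, ?_⟩
  intro L K N R lam b η bs u Z W ka H hL1 hLK h2K hH hAr hlam hη hSch hE hSz hs1 hbs
  have hT := Gx31.t0_one K
  have hb0 : 0 ≤ b := (hSz.nn 0).trans (hSz.le 0)
  have hTe : ∀ k, k ≤ n1 + n2 + (m + 1) → T0 K ^ k ≤ T0 K ^ (n1 + n2 + (m + 1)) := fun k hk =>
    pow_le_pow_right₀ hT hk
  have hT0 : ∀ k, (0 : ℝ) ≤ T0 K ^ k := fun k => by positivity
  have hcmp : ∀ c k, 0 ≤ c → c ≤ C → k ≤ n1 + n2 + (m + 1) →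
      c * T0 K ^ k ≤ C * T0 K ^ (n1 + n2 + (m + 1)) := fun c k h1 h2 h3 =>
    mul_le_mul h2 (hTe k h3) (hT0 k) (by linarith)
  have hsm : ∀ c k, 0 ≤ c → c ≤ C → k ≤ n1 + n2 + (m + 1) → c * T0 K ^ k * b ≤ 1 :=
    fun c k h1 h2 h3 => (mul_le_mul_of_nonneg_right (hcmp c k h1 h2 h3) hb0).trans hs1
  obtain ⟨hBy, hp1, hp2⟩ := hBay m L K N R lam b η bs u Z ka W hm hL1 hLK hE hAr hlam hη hSch hSz
    (hsm 2 (m + 1) (by norm_num) hC2 (by omega))
  have hcx : Gx31.Cx K lam c1 b n1 bs u Z W ka H :=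
    { hP := hPhi m
      hA := hArr m
      hW := fun M hM => hWx K M hM
      hE := hE
      hB := hBy
      pos := hp1
      posl := hp2
      hL := hLK
      hH := hH
      bs0 := hSz.nn
      bsb := hSz.le
      c1n := hc1
      small := hsm c1 n1 (by linarith) hCc1 (by omega)
      uv := huv }
  have hP1 : (1 : ℝ) ≤ T0 K ^ n2 := one_le_pow₀ hT
  have hq1 : (1 : ℝ) ≤ c2 * T0 K ^ n2 := by nlinarith
  have hsq : Real.sqrt (c2 * T0 K ^ n2) ≤ c2 * T0 K ^ n2 := by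
    refine Real.sqrt_le_iff.2 ⟨by linarith, ?_⟩
    nlinarith
  have hB : ∀ B ∈ (univ : Finset (Finset (Fin (m + 1)))).filter (fun B => B.Nonempty ∧ B ≠ univ),
      PP (Gk K bs ka) Z H (fun ω => ¬ Nm K H B (bs B.card) (fun c => ka B c ω)) ≤
        (2 : ℝ) ^ (m + 1) * (1 + 2 ^ (m + 1)) * c2 / (L + 1) ^ n := by
    intro B hB
    rw [mem_filter] at hB
    obtain ⟨_, hBn, hBu⟩ := hB
    obtain ⟨e, he⟩ : ∃ e, e ∉ B := by
      by_contra hno
      push Not at hno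
      exact hBu (Finset.eq_univ_iff_forall.2 hno)
    refine evBL hcx h2K hc2 (zero_le_one.trans hq1) (fun B f d w X Y _ _ _ _ Ψ hX hY hw hk hB0 =>
      hrec L K lam b B bs u Z W ka H f d w X Y Ψ hL1 hLK h2K hH hE hBy hp1 hSz.nn hSz.le
        (hsm c2 n2 (by linarith) hCc2 (by omega)) hX hY hw hk hB0) he hBn ?_
    have hcard : B.card ≤ m := by
      have h1 : B.card < Fintype.card (Fin (m + 1)) := Finset.card_lt_univ_of_notMem he
      simp only [Fintype.card_fin] at h1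
      omega
    have hj := hbs B.card hBn.card_pos hcard
    refine le_trans ?_ hj
    set x := bs (B.card + 1) with hx
    have hx0 : 0 ≤ x := hSz.nn _
    set T := T0 K ^ n1 with hTd
    have hT1 : 1 ≤ T := one_le_pow₀ hT
    have hTT : T ≤ T0 K ^ (n1 + (m + 1)) := pow_le_pow_right₀ hT (by omega)
    set U := T0 K ^ (n1 + (m + 1)) with hU
    have hUP : T0 K ^ (n1 + n2 + (m + 1)) = U * T0 K ^ n2 := by
      rw [hU, ← pow_add]
      congr 1
      omega
    set P := T0 K ^ n2 with hPd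
    have h0 : 0 ≤ 2 * x + c1 * T * b ^ 2 :=
      add_nonneg (by linarith) (mul_nonneg (mul_nonneg (by linarith) (by linarith)) (sq_nonneg b))
    refine (add_le_add_right (mul_le_mul_of_nonneg_right hsq h0) _).trans ?_
    rw [hUP, ← mul_assoc]
    exact Gx31.fin_arith hc1 hc2 hT1 hTT hP1 hx0 (sq_nonneg b) hM0
  have hfin := Gx31.pp_ex _ hcx.z0 hB
  refine (Gx31.pp_mono hcx.z0 fun ω hg hbad => ?_).trans (hfin.trans ?_)
  · by_contra hno
    refine hbad fun B hBn => ?_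
    by_cases hBu : B = univ
    · subst hBu
      have h1 := hTop m L N R K lam η (fun q => u q ω) H hm hH hlam hη (fun q => hAr.abs q ω)
        (fun q hq => hAr.bd q ω hq) hSch
      have h2 : (fun c => ka univ c ω) = fun c => lam * u c ω := by
        funext c
        exact hE.top c ω
      have h3 : (univ : Finset (Fin (m + 1))).card = m + 1 := by simp
      rw [h2, h3]
      exact Gx31.nm_mono (hArr m) hη hSz.top h1
    · by_contra h1
      refine hno ⟨B, ?_, h1⟩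
      rw [mem_filter]
      exact ⟨mem_univ _, hBn, hBu⟩
  · have h1 : (((univ : Finset (Finset (Fin (m + 1)))).filter
        (fun B => B.Nonempty ∧ B ≠ univ)).card : ℝ) ≤ 2 ^ (m + 1) := by
      have : ((univ : Finset (Finset (Fin (m + 1)))).filter
          (fun B => B.Nonempty ∧ B ≠ univ)).card ≤ 2 ^ (m + 1) := by
        refine (Finset.card_filter_le _ _).trans ?_
        simp
      exact_mod_cast this
    have hL0 : (0 : ℝ) < (L : ℝ) + 1 := by positivity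
    refine (mul_le_mul_of_nonneg_right h1 (by positivity)).trans ?_
    rw [← mul_div_assoc]
    refine div_le_div_of_nonneg_right ?_ (by positivity)
    refine le_trans (le_of_eq ?_) hCM
    rw [hM]
    ring

end Pool.Agent.SHXA
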