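import Pool.Agent.Lib.MP_a7b2aa_an.SHX.StmtsSys30

/-!
SHX, module NEARX (helper30): the classes near the band.
-/

set_option autoImplicit false

namespace Pool.Agent.SHX

open Finset Pool.Agent.SB3 Pool.Agent.SBT Pool.Agent.SBD Pool.Agent.SHD

namespace NearX30

/-- the constants -/
noncomputable def cc (c : ℝ) : ℕ → ℝ
  | 0 => 1
  | j + 1 => c * (cc c j + 1)

variable {c : ℝ}

theorem cc_ge (hc : 1 ≤ c) (j : ℕ) : 1 ≤ cc c j := by
  induction j with
  | zero => exact le_refl _
  | succ j ih =>
    have : cc c (j + 1) = c * (cc c j + 1) := rfl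
    rw [this]
    nlinarith

theorem cc_succ (hc : 1 ≤ c) (j : ℕ) : cc c j ≤ cc c (j + 1) := by
  have h1 : cc c (j + 1) = c * (cc c j + 1) := rfl
  have h2 := cc_ge hc j
  rw [h1]
  nlinarith

theorem cc_mono (hc : 1 ≤ c) {i j : ℕ} (h : i ≤ j) : cc c i ≤ cc c j :=
  monotone_nat_of_le_succ (cc_succ hc) h

variable {m L N R : ℕ} {lam : ℝ} {u : (Fin (m + 1) → ℕ) → Pt m L → ℝ}
  {ka : Finset (Fin (m + 1)) → (Fin (m + 1) → ℕ) → Pt m L → ℝ}
  {Z : (Fin (m + 1) → ℕ) → Pt m L → ℝ}

/-- one digit less -/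
theorem split_up (h : Fin (m + 1) → ℕ) (e : Fin (m + 1)) (he : h e ≠ 0) :
    ∃ h' : Fin (m + 1) → ℕ, h = upc h' e ∧ ∑ a, h a = ∑ a, h' a + 1 := by
  refine ⟨Function.update h e (h e - 1), ?_, ?_⟩
  · unfold upc
    rw [Function.update_self, Function.update_idem]
    funext a
    by_cases ha : a = e
    · subst ha
      rw [Function.update_self]
      omega
    · rw [Function.update_of_ne ha]
  · have h1 := Finset.add_sum_erase univ h (mem_univ e)
    have h2 := Finset.add_sum_erase univ (Function.update h e (h e - 1)) (mem_univ e)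
    have h3 : ∑ x ∈ univ.erase e, Function.update h e (h e - 1) x = ∑ x ∈ univ.erase e, h x := by
      refine sum_congr rfl fun a ha => ?_
      rw [Function.update_of_ne (ne_of_mem_erase ha)]
    rw [Function.update_self, h3] at h2
    omega

/-- the induction -/
theorem core (hc : 1 ≤ c) (hlam : 0 ≤ lam) (hu : ArF N R u) (hE : ExB c lam u ka Z)
    (h1 : cc c m ^ 2 * (lam * (2 * ((R : ℝ) + 1)) ^ (2 * m)) ≤ 1)
    (h2 : 8 * (cc c m * (lam * (2 * ((R : ℝ) + 1)) ^ (m + 1))) ≤ 1) (ω : Pt m L) (s : ℕ) :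
    ∀ h : Fin (m + 1) → ℕ, ∑ a, h a = s → s ≤ N + R + 1 →
      |Z h ω - 1| ≤ 2 * (cc c m * (lam * (2 * ((R : ℝ) + 1)) ^ m)) * ((s + R - N : ℕ) : ℝ) ∧
      ∀ A : Finset (Fin (m + 1)), A.Nonempty →
        |ka A h ω| ≤ cc c (Finset.univ \ A).card * lam *
          ((s + R + 1 - N : ℕ) : ℝ) ^ (Finset.univ \ A).card := by
  have hcm := cc_ge hc m
  set D2 : ℝ := 2 * ((R : ℝ) + 1) with hD2
  have hD21 : 1 ≤ D2 := by
    have : (0 : ℝ) ≤ R := Nat.cast_nonneg R
    rw [hD2]
    linarith
  set y : ℝ := cc c m * (lam * D2 ^ m) with hy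
  have hy0 : 0 ≤ y := by positivity
  have hyD : 8 * (y * D2) ≤ 1 := by
    have : y * D2 = cc c m * (lam * D2 ^ (m + 1)) := by rw [hy]; ring
    rw [this]
    exact h2
  induction s with
  | zero =>
    intro h hs hsN
    have h0 : ∀ a, h a = 0 := by
      intro a
      have := (Finset.sum_eq_zero_iff.1 hs) a (mem_univ a)
      exact this
    refine ⟨?_, fun A hA => ?_⟩
    · rw [hE.zero h ω ⟨0, h0 0⟩, sub_self, abs_zero]
      positivity
    · by_cases hAu : A = Finset.univ
      · subst hAu
        rw [hE.top, abs_mul, abs_of_nonneg hlam, Finset.sdiff_self]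
        simp only [card_empty, pow_zero, mul_one]
        have hcc0 : cc c 0 = 1 := rfl
        rw [hcc0, one_mul]
        exact mul_le_of_le_one_right hlam (hu.abs h ω)
      · obtain ⟨p, hp⟩ : ∃ p, p ∉ A := by
          by_contra hcon
          push Not at hcon
          exact hAu (Finset.eq_univ_iff_forall.2 hcon)
        rw [hE.van A h p ω hA hp (h0 p), abs_zero]
        have := cc_ge hc (Finset.univ \ A).card
        positivity
  | succ s ih =>
    intro h hs hsN
    -- the case where nothing happens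
    have hDs : ((s + R + 1 - N : ℕ) : ℝ) ≤ D2 := by
      have : s + R + 1 - N ≤ 2 * (R + 1) := by omega
      have h3 : ((s + R + 1 - N : ℕ) : ℝ) ≤ ((2 * (R + 1) : ℕ) : ℝ) := by exact_mod_cast this
      push_cast at h3
      rw [hD2]
      exact h3
    set D : ℝ := ((s + R + 1 - N : ℕ) : ℝ) with hD
    have hD0 : 0 ≤ D := Nat.cast_nonneg _
    -- facts at a class of size `s`
    have hprev : ∀ h' : Fin (m + 1) → ℕ, ∑ a, h' a = s →
        1 / 2 ≤ Z h' ω ∧ Z h' ω ≤ 2 ∧ ∃ x : ℝ, 0 ≤ x ∧ x ≤ 1 / 2 ∧ x ≤ y ∧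
          (s + R < N → x = 0) ∧ (N ≤ s + R → x ^ 2 ≤ lam) ∧
          ∀ B : Finset (Fin (m + 1)), B.Nonempty → |ka B h' ω| ≤ x := by
      intro h' hs'
      obtain ⟨i1, i2⟩ := ih h' hs' (by omega)
      have hZ1 : |Z h' ω - 1| ≤ 1 / 2 := by
        refine i1.trans ?_
        have h3 : ((s + R - N : ℕ) : ℝ) ≤ D2 := by
          have h4 : ((s + R - N : ℕ) : ℝ) ≤ D := by
            rw [hD]
            exact_mod_cast (by omega : s + R - N ≤ s + R + 1 - N)
          linarith
        have h4 : 0 ≤ ((s + R - N : ℕ) : ℝ) := Nat.cast_nonneg _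
        nlinarith
      have hZ2 := abs_le.1 hZ1
      refine ⟨by linarith, by linarith, ?_⟩
      by_cases hlow : s + R < N
      · refine ⟨0, le_refl _, by norm_num, hy0, fun _ => rfl, fun h3 => by omega, ?_⟩
        intro B hB
        have h3 := i2 B hB
        have h4 : D = 0 := by
          rw [hD]
          have : s + R + 1 - N = 0 := by omega
          rw [this]
          simp
        by_cases hBu : B = Finset.univ
        · subst hBu
          rw [hE.top, hu.bd h' ω (by
            unfold dst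
            rw [hs']
            omega), mul_zero, abs_zero]
        · have h5 : (Finset.univ \ B).card ≠ 0 := by
            rw [Finset.card_ne_zero, Finset.sdiff_nonempty]
            intro h6
            exact hBu (Finset.univ_subset_iff.1 h6)
          rw [h4, zero_pow h5, mul_zero] at h3
          exact h3
      · have hD1 : 1 ≤ D := by
          rw [hD]
          exact_mod_cast (by omega : 1 ≤ s + R + 1 - N)
        refine ⟨cc c m * (lam * D ^ m), by positivity, ?_, ?_, fun h3 => by omega, fun _ => ?_, ?_⟩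
        · have h3 : D ^ m ≤ D2 ^ m := pow_le_pow_left₀ hD0 hDs m
          have h4 : cc c m * (lam * D ^ m) ≤ y := by
            rw [hy]
            gcongr
          nlinarith
        · have h3 : D ^ m ≤ D2 ^ m := pow_le_pow_left₀ hD0 hDs m
          rw [hy]
          gcongr
        · have h3 : D ^ (2 * m) ≤ D2 ^ (2 * m) := pow_le_pow_left₀ hD0 hDs _
          have h4 : cc c m ^ 2 * (lam * D ^ (2 * m)) ≤ 1 := by
            refine le_trans ?_ h1
            gcongr
          have h5 : (cc c m * (lam * D ^ m)) ^ 2 = lam * (cc c m ^ 2 * (lam * D ^ (2 * m))) := by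
            rw [pow_mul']
            ring
          rw [h5]
          exact mul_le_of_le_one_right hlam h4
        · intro B hB
          refine (i2 B hB).trans ?_
          have h3 : (Finset.univ \ B).card ≤ m := by
            have h4 := Finset.card_sdiff_of_subset (Finset.subset_univ B)
            rw [Finset.card_univ, Fintype.card_fin] at h4
            have := hB.card_pos
            omega
          calc cc c (Finset.univ \ B).card * lam * D ^ (Finset.univ \ B).card
              ≤ cc c m * lam * D ^ m := by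
                gcongr
                exact cc_mono hc h3
            _ = cc c m * (lam * D ^ m) := by ring
    refine ⟨?_, fun A hA => ?_⟩
    · -- the density
      by_cases hz : ∃ a, h a = 0
      · rw [hE.zero h ω hz, sub_self, abs_zero]
        positivity
      · push Not at hz
        obtain ⟨h', rfl, hs1⟩ := split_up h 0 (hz 0)
        have hs' : ∑ a, h' a = s := by omega
        obtain ⟨p1, p2, x, x0, x1, x2, x3, x4, x5⟩ := hprev h' hs'
        obtain ⟨i1, i2⟩ := ih h' hs' (by omega)
        have hZ0 : Z h' ω ≠ 0 := by linarith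
        have hst := hE.step 0 h' ω hZ0
        have hb := x5 {0} (singleton_nonempty 0)
        have h3 : Z (upc h' 0) ω - 1 = (Z h' ω - 1) + Z h' ω * (sb 0 (h' 0) ω * ka {0} h' ω) := by
          rw [hst]
          ring
        rw [h3]
        refine (abs_add_le _ _).trans ?_
        have h4 : |Z h' ω * (sb 0 (h' 0) ω * ka {0} h' ω)| ≤ 2 * x := by
          rw [abs_mul, abs_mul, sb_abs, one_mul, abs_of_nonneg (by linarith)]
          exact mul_le_mul p2 hb (abs_nonneg _) (by norm_num)
        by_cases hlow : s + R < N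
        · have h5 : x = 0 := x3 hlow
          have h6 : s + 1 + R - N = s + R - N := by omega
          rw [h6]
          rw [h5, mul_zero] at h4
          linarith
        · have h6 : ((s + 1 + R - N : ℕ) : ℝ) = ((s + R - N : ℕ) : ℝ) + 1 := by
            have : s + 1 + R - N = (s + R - N) + 1 := by omega
            rw [this]
            push_cast
            ring
          rw [h6]
          linarith
    · -- the cumulants
      by_cases hAu : A = Finset.univ
      · subst hAu
        rw [hE.top, abs_mul, abs_of_nonneg hlam, Finset.sdiff_self]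
        simp only [card_empty, pow_zero, mul_one]
        have hcc0 : cc c 0 = 1 := rfl
        rw [hcc0, one_mul]
        exact mul_le_of_le_one_right hlam (hu.abs h ω)
      · obtain ⟨e, he⟩ : ∃ p, p ∉ A := by
          by_contra hcon
          push Not at hcon
          exact hAu (Finset.eq_univ_iff_forall.2 hcon)
        by_cases hhe : h e = 0
        · rw [hE.van A h e ω hA he hhe, abs_zero]
          have := cc_ge hc (Finset.univ \ A).card
          positivity
        · obtain ⟨h', rfl, hs1⟩ := split_up h e hhe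
          have hs' : ∑ a, h' a = s := by omega
          obtain ⟨p1, p2, x, x0, x1, x2, x3, x4, x5⟩ := hprev h' hs'
          obtain ⟨i1, i2⟩ := ih h' hs' (by omega)
          have hZ0 : Z h' ω ≠ 0 := by linarith
          have hst := hE.star A e h' ω x hA he hZ0 x1 x5
          have hcard : (Finset.univ \ A).card = (Finset.univ \ insert e A).card + 1 := by
            rw [Finset.sdiff_insert, Finset.card_erase_of_mem (by simp [he])]
            have : 0 < (Finset.univ \ A).card := Finset.card_pos.2 ⟨e, by simp [he]⟩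
            omega
          have hA1 := i2 A hA
          have hA2 := i2 (insert e A) (Finset.insert_nonempty e A)
          set j := (Finset.univ \ insert e A).card with hj
          rw [hcard] at hA1 ⊢
          have h3 : |ka A (upc h' e) ω| ≤ |ka A h' ω| + c * (|ka (insert e A) h' ω| + x ^ 2) := by
            have h4 : ka A (upc h' e) ω = (ka A (upc h' e) ω - ka A h' ω) + ka A h' ω := by ring
            rw [h4]
            refine (abs_add_le _ _).trans ?_
            linarith
          refine h3.trans ?_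
          have hccj : cc c (j + 1) = c * (cc c j + 1) := rfl
          have hccj1 := cc_ge hc (j + 1)
          have hccj0 := cc_ge hc j
          by_cases hlow : s + R < N
          · have h5 : x = 0 := x3 hlow
            have h6 : |ka (insert e A) h' ω| ≤ 0 := by
              rw [← h5]
              exact x5 _ (Finset.insert_nonempty e A)
            have h7 : |ka A h' ω| ≤ 0 := by
              rw [← h5]
              exact x5 _ hA
            rw [h5]
            have h8 : 0 ≤ cc c (j + 1) * lam * ((s + 1 + R + 1 - N : ℕ) : ℝ) ^ (j + 1) := by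
              positivity
            nlinarith
          · have hD1 : 1 ≤ D := by
              rw [hD]
              exact_mod_cast (by omega : 1 ≤ s + R + 1 - N)
            have h6 : ((s + 1 + R + 1 - N : ℕ) : ℝ) = D + 1 := by
              have : s + 1 + R + 1 - N = (s + R + 1 - N) + 1 := by omega
              rw [this, hD]
              push_cast
              ring
            rw [h6]
            have h7 : x ^ 2 ≤ lam := x4 (not_lt.1 hlow)
            have h8 : D ^ (j + 1) + D ^ j ≤ (D + 1) ^ (j + 1) := by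
              have h9 : D ^ j ≤ (D + 1) ^ j := pow_le_pow_left₀ hD0 (by linarith) j
              calc D ^ (j + 1) + D ^ j = D ^ j * (D + 1) := by ring
                _ ≤ (D + 1) ^ j * (D + 1) := by gcongr
                _ = (D + 1) ^ (j + 1) := by ring
            have h10 : lam ≤ lam * D ^ j := le_mul_of_one_le_right hlam (one_le_pow₀ hD1)
            calc |ka A h' ω| + c * (|ka (insert e A) h' ω| + x ^ 2)
                ≤ cc c (j + 1) * lam * D ^ (j + 1) + c * (cc c j * lam * D ^ j + lam * D ^ j) := by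
                  have hc0 : 0 ≤ c := by linarith
                  gcongr
                  linarith
              _ = cc c (j + 1) * lam * (D ^ (j + 1) + D ^ j) := by
                  rw [hccj]
                  ring
              _ ≤ cc c (j + 1) * lam * (D + 1) ^ (j + 1) := by
                  gcongr

end NearX30

open NearX30

/-- module NEARX -/
theorem nearx_30 : StNearX := by
  intro m c hc
  have hcm := cc_ge hc m
  refine ⟨8 * (cc c m ^ 2 * 4 ^ m * 2), ?_, ?_⟩
  · have : (1 : ℝ) ≤ 4 ^ m := one_le_pow₀ (by norm_num)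
    nlinarith [mul_le_mul (one_le_pow₀ hcm : 1 ≤ cc c m ^ 2) this (by norm_num) (by positivity)]
  intro L N R lam u ka Z hlam hu hE hsm h ω hs
  have hR : (0 : ℝ) ≤ R := Nat.cast_nonneg R
  have hR1 : (1 : ℝ) ≤ (R : ℝ) + 1 := by linarith
  have h41 : (1 : ℝ) ≤ 4 ^ m := one_le_pow₀ (by norm_num)
  have h21 : (1 : ℝ) ≤ 2 ^ m := one_le_pow₀ (by norm_num)
  have h24 : (2 : ℝ) ^ m ≤ 4 ^ m := pow_le_pow_left₀ (by norm_num) (by norm_num) m
  have hcm2 : cc c m ≤ cc c m ^ 2 := by nlinarith
  have hR2 : ((R : ℝ) + 1) ^ (2 * m) ≤ ((R : ℝ) + 1) ^ (2 * m + 2) :=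
    pow_le_pow_right₀ hR1 (by omega)
  have hR3 : ((R : ℝ) + 1) ^ (m + 1) ≤ ((R : ℝ) + 1) ^ (2 * m + 2) :=
    pow_le_pow_right₀ hR1 (by omega)
  have e1 : (2 * ((R : ℝ) + 1)) ^ (2 * m) = 4 ^ m * ((R : ℝ) + 1) ^ (2 * m) := by
    rw [mul_pow, pow_mul]
    norm_num
  have e2 : (2 * ((R : ℝ) + 1)) ^ (m + 1) = 2 ^ m * 2 * ((R : ℝ) + 1) ^ (m + 1) := by
    rw [mul_pow, pow_succ]
  have h1 : cc c m ^ 2 * (lam * (2 * ((R : ℝ) + 1)) ^ (2 * m)) ≤ 1 := by
    rw [e1]
    refine le_trans ?_ hsm
    calc cc c m ^ 2 * (lam * (4 ^ m * ((R : ℝ) + 1) ^ (2 * m)))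
        ≤ cc c m ^ 2 * (lam * (4 ^ m * ((R : ℝ) + 1) ^ (2 * m + 2))) := by gcongr
      _ = 1 * (cc c m ^ 2 * 4 ^ m * lam * ((R : ℝ) + 1) ^ (2 * m + 2)) := by ring
      _ ≤ 16 * (cc c m ^ 2 * 4 ^ m * lam * ((R : ℝ) + 1) ^ (2 * m + 2)) := by
          gcongr
          norm_num
      _ = 8 * (cc c m ^ 2 * 4 ^ m * 2) * lam * ((R : ℝ) + 1) ^ (2 * m + 2) := by ring
  have h2 : 8 * (cc c m * (lam * (2 * ((R : ℝ) + 1)) ^ (m + 1))) ≤ 1 := by
    rw [e2]
    refine le_trans ?_ hsm
    calc 8 * (cc c m * (lam * (2 ^ m * 2 * ((R : ℝ) + 1) ^ (m + 1))))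
        ≤ 8 * (cc c m ^ 2 * (lam * (4 ^ m * 2 * ((R : ℝ) + 1) ^ (2 * m + 2)))) := by gcongr
      _ = 8 * (cc c m ^ 2 * 4 ^ m * 2) * lam * ((R : ℝ) + 1) ^ (2 * m + 2) := by ring
  obtain ⟨k1, k2⟩ := core hc hlam hu hE h1 h2 ω (∑ a, h a) h rfl hs
  have hD : ((∑ a, h a + R - N : ℕ) : ℝ) ≤ 2 * ((R : ℝ) + 1) := by
    have : ∑ a, h a + R - N ≤ 2 * (R + 1) := by omega
    exact_mod_cast this
  have hD' : ((∑ a, h a + R + 1 - N : ℕ) : ℝ) ≤ 2 * ((R : ℝ) + 1) := by
    have : ∑ a, h a + R + 1 - N ≤ 2 * (R + 1) := by omega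
    exact_mod_cast this
  have hZ' : |Z h ω - 1| ≤ 8 * (cc c m ^ 2 * 4 ^ m * 2) * lam * ((R : ℝ) + 1) ^ (m + 1) := by
    refine k1.trans ?_
    calc 2 * (cc c m * (lam * (2 * ((R : ℝ) + 1)) ^ m)) * ((∑ a, h a + R - N : ℕ) : ℝ)
        ≤ 2 * (cc c m * (lam * (2 * ((R : ℝ) + 1)) ^ m)) * (2 * ((R : ℝ) + 1)) := by gcongr
      _ = 4 * (cc c m * 2 ^ m) * (lam * ((R : ℝ) + 1) ^ (m + 1)) := by
          rw [mul_pow, pow_succ]
          ring
      _ ≤ 4 * (cc c m ^ 2 * 4 ^ m) * (lam * ((R : ℝ) + 1) ^ (m + 1)) := by gcongr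
      _ ≤ 16 * (cc c m ^ 2 * 4 ^ m) * (lam * ((R : ℝ) + 1) ^ (m + 1)) := by
          gcongr
          norm_num
      _ = 8 * (cc c m ^ 2 * 4 ^ m * 2) * lam * ((R : ℝ) + 1) ^ (m + 1) := by ring
  have hZ : |Z h ω - 1| ≤ 1 / 2 := by
    refine k1.trans ?_
    have h3 : 0 ≤ cc c m * (lam * (2 * ((R : ℝ) + 1)) ^ m) := by positivity
    calc 2 * (cc c m * (lam * (2 * ((R : ℝ) + 1)) ^ m)) * ((∑ a, h a + R - N : ℕ) : ℝ)
        ≤ 2 * (cc c m * (lam * (2 * ((R : ℝ) + 1)) ^ m)) * (2 * ((R : ℝ) + 1)) := by gcongr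
      _ = 2 * (cc c m * (lam * (2 * ((R : ℝ) + 1)) ^ (m + 1))) := by ring
      _ ≤ 1 / 2 := by linarith
  have hZ2 := abs_le.1 hZ
  refine ⟨hZ', by linarith, by linarith, fun A hA => ?_⟩
  refine (k2 A hA).trans ?_
  have h3 : (Finset.univ \ A).card ≤ m := by
    have h4 := Finset.card_sdiff_of_subset (Finset.subset_univ A)
    rw [Finset.card_univ, Fintype.card_fin] at h4
    have := hA.card_pos
    omega
  have hcj := cc_ge hc (Finset.univ \ A).card
  calc cc c (Finset.univ \ A).card * lam * ((∑ a, h a + R + 1 - N : ℕ) : ℝ) ^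
        (Finset.univ \ A).card
      ≤ cc c m * lam * (2 * ((R : ℝ) + 1)) ^ (Finset.univ \ A).card := by
        gcongr
        exact cc_mono hc h3
    _ ≤ cc c m * lam * (2 * ((R : ℝ) + 1)) ^ m := by
        gcongr
        · linarith
    _ = cc c m * 2 ^ m * lam * ((R : ℝ) + 1) ^ m := by
        rw [mul_pow]
        ring
    _ ≤ 8 * (cc c m ^ 2 * 4 ^ m * 2) * lam * ((R : ℝ) + 1) ^ m := by
        have h5 : cc c m * 2 ^ m ≤ 8 * (cc c m ^ 2 * 4 ^ m * 2) := by
          have h6 : cc c m * 2 ^ m ≤ cc c m ^ 2 * 4 ^ m := by gcongr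
          have h7 : 0 ≤ cc c m ^ 2 * 4 ^ m := by positivity
          linarith
        exact mul_le_mul_of_nonneg_right (mul_le_mul_of_nonneg_right h5 hlam) (by positivity)

end Pool.Agent.SHX
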