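import Pool.Agent.Lib.MP_a7b2aa_an.SHX.StmtsX65
import Pool.Agent.Lib.MP_a7b2aa_an.SHX.StmtsSys30

/-!
SHX, track ALL (helper65): interface between EXACT (25), GOODX and the system of 30.
-/

set_option autoImplicit false

namespace Pool.Agent.SHXA

open Finset Pool.Agent.SB3 Pool.Agent.SBT Pool.Agent.SBD Pool.Agent.SHD Pool.Agent.SHX
open Pool.Agent.Lib.MP_a7b2aa_an.SHX

/-- EXACTB: existence of the exact law, with the bounds of 30 -/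
def StExactB : Prop := ∀ m : ℕ, ∃ c : ℝ, 1 ≤ c ∧
  ∀ (L : ℕ) (lam : ℝ) (u : (Fin (m + 1) → ℕ) → Pt m L → ℝ), (∀ q, Ms q (u q)) →
    ∃ (Z : (Fin (m + 1) → ℕ) → Pt m L → ℝ)
      (ka : Finset (Fin (m + 1)) → (Fin (m + 1) → ℕ) → Pt m L → ℝ)
      (W : (Fin (m + 1) → ℕ) → Pt m L → ℝ), Exact lam u Z ka W ∧ ExB c lam u ka Z

/-- SYSALL (from EXACTB, BAYX, GOODX) -/
def StSysAll : Prop := ∀ (m : ℕ) (ε : ℝ), 2 ≤ m → 0 < ε → StSysX m (((m : ℝ) - 1) / 2 + ε)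

end Pool.Agent.SHXA
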