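import Pool.Agent.Lib.MP_a7b2aa_an.SHX.StmtsW30
import Pool.Agent.Lib.MP_a7b2aa_an.SHX.StmtsY65
import Pool.Agent.Lib.MP_a7b2aa_an.SHX.NearX30

/-!
SHX, track ALL, module NEAR (helper30): sizes up to the band, from EXACTW.
-/

set_option autoImplicit false

namespace Pool.Agent.SHXA

open Finset Pool.Agent.SB3 Pool.Agent.SBT Pool.Agent.SBD Pool.Agent.SHD Pool.Agent.SHX
open Pool.Agent.Lib.MP_a7b2aa_an.SHX

namespace NearW30

variable {m : ℕ}

/-- number of subsets -/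
noncomputable def P2 (m : ℕ) : ℝ := 2 ^ (m + 2)

theorem P2_ge (m : ℕ) : 1 ≤ P2 m := one_le_pow₀ (by norm_num)

theorem card_pow_le (D : Finset (Fin (m + 1))) (p : Finset (Fin (m + 1)) → Prop)
    [DecidablePred p] : 2 * ((D.powerset.filter p).card : ℝ) ≤ P2 m := by
  have h1 : (D.powerset.filter p).card ≤ 2 ^ (m + 1) := by
    refine (card_filter_le _ _).trans ?_
    rw [card_powerset]
    refine Nat.pow_le_pow_right (by norm_num) ?_
    have := card_le_univ D
    rwa [Fintype.card_fin] at this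
  have h2 : ((D.powerset.filter p).card : ℝ) ≤ 2 ^ (m + 1) := by exact_mod_cast h1
  unfold P2
  rw [pow_succ (2 : ℝ) (m + 1)]
  linarith

theorem Rn_le {z x : ℝ} {g : Finset (Fin (m + 1)) → ℝ} (hz : |z| ≤ 2) (hx : x ≤ 1 / 2)
    (hg : ∀ C : Finset (Fin (m + 1)), C.Nonempty → |g C| ≤ x) (n : ℕ) :
    ∀ D : Finset (Fin (m + 1)), |Rn z g n D| ≤ P2 m ^ n := by
  have hP := P2_ge m
  induction n with
  | zero =>
    intro D
    unfold Rn
    simp
  | succ n ih =>
    intro D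
    unfold Rn
    split_ifs with hD
    · rw [abs_one]
      exact one_le_pow₀ hP
    · rw [abs_neg]
      refine (abs_sum_le_sum_abs _ _).trans ?_
      have h1 : ∀ C ∈ D.powerset.filter (fun C => C ≠ ∅), |z * g C * Rn z g n (D \ C)| ≤
          P2 m ^ n := by
        intro C hC
        rw [mem_filter] at hC
        have hC1 := hg C (nonempty_iff_ne_empty.2 hC.2)
        rw [abs_mul, abs_mul]
        have h2 : |z| * |g C| ≤ 1 := by nlinarith [abs_nonneg z, abs_nonneg (g C)]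
        calc |z| * |g C| * |Rn z g n (D \ C)| ≤ 1 * P2 m ^ n :=
              mul_le_mul h2 (ih _) (abs_nonneg _) (by norm_num)
          _ = P2 m ^ n := one_mul _
      refine (sum_le_sum h1).trans ?_
      rw [sum_const, nsmul_eq_mul, pow_succ, mul_comm]
      have h2 := card_pow_le D (fun C => C ≠ ∅)
      have h3 : (0 : ℝ) ≤ ((D.powerset.filter (fun C => C ≠ ∅)).card : ℝ) := Nat.cast_nonneg _
      exact mul_le_mul_of_nonneg_left (by linarith) (by positivity)

/-- the coefficients are bounded, and small for a nonempty set -/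
theorem Rr_le {z x : ℝ} {g : Finset (Fin (m + 1)) → ℝ} (hz : |z| ≤ 2) (hx : x ≤ 1 / 2)
    (hg : ∀ C : Finset (Fin (m + 1)), C.Nonempty → |g C| ≤ x) (D : Finset (Fin (m + 1))) :
    |Rr z g D| ≤ P2 m ^ (m + 1) ∧ (D.Nonempty → |Rr z g D| ≤ P2 m ^ (m + 1) * x) := by
  have hP := P2_ge m
  refine ⟨Rn_le hz hx hg (m + 1) D, fun hD => ?_⟩
  have hx0 : 0 ≤ x := (abs_nonneg _).trans (hg D hD)
  unfold Rr Rn
  rw [if_neg (nonempty_iff_ne_empty.1 hD), abs_neg]
  refine (abs_sum_le_sum_abs _ _).trans ?_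
  have h1 : ∀ C ∈ D.powerset.filter (fun C => C ≠ ∅), |z * g C * Rn z g m (D \ C)| ≤
      2 * x * P2 m ^ m := by
    intro C hC
    rw [mem_filter] at hC
    have hC1 := hg C (nonempty_iff_ne_empty.2 hC.2)
    rw [abs_mul, abs_mul]
    have h2 : |z| * |g C| ≤ 2 * x := mul_le_mul hz hC1 (abs_nonneg _) (by norm_num)
    exact mul_le_mul h2 (Rn_le hz hx hg m _) (abs_nonneg _) (by positivity)
  refine (sum_le_sum h1).trans ?_
  rw [sum_const, nsmul_eq_mul, pow_succ]
  have h2 := card_pow_le D (fun C => C ≠ ∅)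
  calc ((D.powerset.filter (fun C => C ≠ ∅)).card : ℝ) * (2 * x * P2 m ^ m)
      = (2 * ((D.powerset.filter (fun C => C ≠ ∅)).card : ℝ)) * (x * P2 m ^ m) := by ring
    _ ≤ P2 m * (x * P2 m ^ m) := mul_le_mul_of_nonneg_right h2 (by positivity)
    _ = P2 m ^ m * P2 m * x := by ring

theorem hd_ne {B C : Finset (Fin (m + 1))} (hB : B.Nonempty) (h : hd C B) : C.Nonempty := by
  obtain ⟨b, hb⟩ := hB
  obtain ⟨y, hy, _⟩ := h b hb
  exact ⟨y, hy⟩

theorem div_le {β : ℝ} (hβ : |β| ≤ 1 / 2) :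
    |1 / (1 + β)| ≤ 2 ∧ |-(1 / (1 - β))| ≤ 2 ∧ |1 / (1 - β)| ≤ 2 := by
  have h := abs_le.1 hβ
  have h1 : 1 / 2 ≤ 1 + β := by linarith
  have h2 : 1 / 2 ≤ 1 - β := by linarith
  have h3 : 1 / (1 + β) ≤ 2 := by
    rw [div_le_iff₀ (by linarith)]
    linarith
  have h4 : 1 / (1 - β) ≤ 2 := by
    rw [div_le_iff₀ (by linarith)]
    linarith
  have h5 : 0 ≤ 1 / (1 + β) := div_nonneg (by norm_num) (by linarith)
  have h6 : 0 ≤ 1 / (1 - β) := div_nonneg (by norm_num) (by linarith)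
  refine ⟨?_, ?_, ?_⟩
  · rw [abs_of_nonneg h5]
    exact h3
  · rw [abs_neg, abs_of_nonneg h6]
    exact h4
  · rw [abs_of_nonneg h6]
    exact h4

theorem Vv_le {β x : ℝ} {g : Finset (Fin (m + 1)) → ℝ} (hβ : |β| ≤ 1 / 2) (hx : x ≤ 1 / 2)
    (hg : ∀ C : Finset (Fin (m + 1)), C.Nonempty → |g C| ≤ x) {B : Finset (Fin (m + 1))}
    (hB : B.Nonempty) : |Vv β g B| ≤ P2 m ^ (m + 2) * x ^ 2 := by
  classical
  have hP := P2_ge m
  have hx0 : 0 ≤ x := (abs_nonneg _).trans (hg B hB)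
  obtain ⟨h1, h2, -⟩ := div_le hβ
  unfold Vv
  refine (abs_sum_le_sum_abs _ _).trans ?_
  have h3 : ∀ C ∈ B.powerset.filter (fun C => hd C B ∧ C ≠ B),
      |g C * ((Rr (1 / (1 + β)) g (B \ C) - Rr (-(1 / (1 - β))) g (B \ C)) / 2)| ≤
        x * (P2 m ^ (m + 1) * x) := by
    intro C hC
    rw [mem_filter, mem_powerset] at hC
    have hC1 := hg C (hd_ne hB hC.2.1)
    have hne : (B \ C).Nonempty := by
      rw [sdiff_nonempty]
      intro h4
      exact hC.2.2 (subset_antisymm hC.1 h4)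
    have r1 := (Rr_le h1 hx hg (B \ C)).2 hne
    have r2 := (Rr_le h2 hx hg (B \ C)).2 hne
    rw [abs_mul, abs_div, abs_two]
    have h4 := abs_sub (Rr (1 / (1 + β)) g (B \ C)) (Rr (-(1 / (1 - β))) g (B \ C))
    refine mul_le_mul hC1 ?_ (by positivity) hx0
    rw [div_le_iff₀ (by norm_num)]
    linarith
  refine (sum_le_sum h3).trans ?_
  rw [sum_const, nsmul_eq_mul]
  have h4 := card_pow_le B (fun C => hd C B ∧ C ≠ B)
  have h5 : (0 : ℝ) ≤ ((B.powerset.filter (fun C => hd C B ∧ C ≠ B)).card : ℝ) :=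
    Nat.cast_nonneg _
  calc ((B.powerset.filter (fun C => hd C B ∧ C ≠ B)).card : ℝ) * (x * (P2 m ^ (m + 1) * x))
      ≤ P2 m * (x * (P2 m ^ (m + 1) * x)) :=
        mul_le_mul_of_nonneg_right (by linarith) (by positivity)
    _ = P2 m ^ (m + 2) * x ^ 2 := by ring

theorem Kk_le {β x : ℝ} {g : Finset (Fin (m + 1)) → ℝ} (hβ : |β| ≤ 1 / 2) (hx : x ≤ 1 / 2)
    (hg : ∀ C : Finset (Fin (m + 1)), C.Nonempty → |g C| ≤ x) {B : Finset (Fin (m + 1))}
    (hB : B.Nonempty) :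
    |Kk β g B| ≤ 2 * P2 m ^ (m + 1) * |g B| + 2 * P2 m ^ (m + 2) * x ^ 2 := by
  classical
  have hP := P2_ge m
  have hx0 : 0 ≤ x := (abs_nonneg _).trans (hg B hB)
  obtain ⟨h1, h2, h3⟩ := div_le hβ
  unfold Kk
  refine (abs_sum_le_sum_abs _ _).trans ?_
  set S := B.powerset.filter (fun C => hd C B) with hS
  have hBS : B ∈ S := by
    rw [hS, mem_filter, mem_powerset]
    exact ⟨subset_rfl, fun y hy => ⟨y, hy, le_refl _⟩⟩
  rw [← add_sum_erase S _ hBS]
  refine add_le_add ?_ ?_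
  · have r1 := (Rr_le h1 hx hg (B \ B)).1
    have r2 := (Rr_le h2 hx hg (B \ B)).1
    rw [abs_mul, abs_div, abs_two, mul_comm]
    refine mul_le_mul_of_nonneg_right ?_ (abs_nonneg _)
    rw [div_le_iff₀ (by norm_num)]
    refine (abs_add_le _ _).trans ?_
    rw [abs_mul, abs_mul]
    have h5 := mul_le_mul h1 r1 (abs_nonneg _) (by norm_num)
    have h6 := mul_le_mul h3 r2 (abs_nonneg _) (by norm_num)
    linarith
  · have h7 : ∀ C ∈ S.erase B, |g C * ((1 / (1 + β) * Rr (1 / (1 + β)) g (B \ C) +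
        1 / (1 - β) * Rr (-(1 / (1 - β))) g (B \ C)) / 2)| ≤
          x * (2 * (P2 m ^ (m + 1) * x)) := by
      intro C hC
      rw [mem_erase, hS, mem_filter, mem_powerset] at hC
      have hC1 := hg C (hd_ne hB hC.2.2)
      have hne : (B \ C).Nonempty := by
        rw [sdiff_nonempty]
        intro h4
        exact hC.1 (subset_antisymm hC.2.1 h4)
      have r1 := (Rr_le h1 hx hg (B \ C)).2 hne
      have r2 := (Rr_le h2 hx hg (B \ C)).2 hne
      rw [abs_mul, abs_div, abs_two]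
      refine mul_le_mul hC1 ?_ (by positivity) hx0
      rw [div_le_iff₀ (by norm_num)]
      refine (abs_add_le _ _).trans ?_
      rw [abs_mul, abs_mul]
      have h5 := mul_le_mul h1 r1 (abs_nonneg _) (by norm_num)
      have h6 := mul_le_mul h3 r2 (abs_nonneg _) (by norm_num)
      linarith
    refine (sum_le_sum h7).trans ?_
    rw [sum_const, nsmul_eq_mul]
    have h4 := card_pow_le B (fun C => hd C B)
    have h5 : ((S.erase B).card : ℝ) ≤ (S.card : ℝ) := by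
      exact_mod_cast card_le_card (erase_subset _ _)
    have h6 : (0 : ℝ) ≤ (S.card : ℝ) := Nat.cast_nonneg _
    calc ((S.erase B).card : ℝ) * (x * (2 * (P2 m ^ (m + 1) * x)))
        ≤ P2 m * (x * (2 * (P2 m ^ (m + 1) * x))) := by
          refine mul_le_mul_of_nonneg_right ?_ (by positivity)
          rw [← hS] at h4
          linarith
      _ = 2 * P2 m ^ (m + 2) * x ^ 2 := by ring

variable {L : ℕ} {lam : ℝ} {u : (Fin (m + 1) → ℕ) → Pt m L → ℝ}
  {Z : (Fin (m + 1) → ℕ) → Pt m L → ℝ}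
  {ka : Finset (Fin (m + 1)) → (Fin (m + 1) → ℕ) → Pt m L → ℝ}
  {W : (Fin (m + 1) → ℕ) → Pt m L → ℝ}

/-- the exact law satisfies the crude bounds -/
theorem toExB {c : ℝ} (hc : 5 * P2 m ^ (m + 2) ≤ c) (h : Exact lam u Z ka W)
    (hw : ∀ (q : Fin (m + 1) → ℕ) (ω : Pt m L) (x : ℝ), Z q ω ≠ 0 → x ≤ 1 / 2 →
        (∀ B : Finset (Fin (m + 1)), B.Nonempty → |ka B q ω| ≤ x) →
        |W q ω - Z q ω * ka univ q ω| ≤ c * x ^ 2 * |Z q ω|) : ExB c lam u ka Z where
  coef := by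
    intro p ω x hp hZ hx hB
    rw [h.coef p ω hp]
    exact hw p ω x hZ hx hB
  zero := h.zero
  top := h.top
  van := fun A h' p ω hA hp h0 => h.van A h' ω p hA hp h0
  step := fun e h' ω hZ => h.step h' e ω hZ
  star := by
    intro A e h' ω x hA he hZ hx hB
    have hP := P2_ge m
    have hβ : |ka {e} h' ω| ≤ 1 / 2 := (hB {e} (singleton_nonempty e)).trans hx
    have hst := h.star A e h' ω hA he hZ (by linarith)
    set g : Finset (Fin (m + 1)) → ℝ := fun C => ka (insert e C) h' ω with hg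
    have hgx : ∀ C : Finset (Fin (m + 1)), C.Nonempty → |g C| ≤ x :=
      fun C _ => hB _ (insert_nonempty e C)
    have h1 := Vv_le hβ hx hgx hA
    have h2 := Kk_le hβ hx hgx hA
    have h3 : |sb e (h' e) ω - ka {e} h' ω| ≤ 2 := by
      have := abs_sub (sb e (h' e) ω) (ka {e} h' ω)
      rw [sb_abs] at this
      linarith
    have h4 : ka A (upc h' e) ω - ka A h' ω = Vv (ka {e} h' ω) g A +
        Kk (ka {e} h' ω) g A * (sb e (h' e) ω - ka {e} h' ω) := by
      rw [hst]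
      ring
    rw [h4]
    refine (abs_add_le _ _).trans ?_
    rw [abs_mul]
    have h5 : |Kk (ka {e} h' ω) g A| * |sb e (h' e) ω - ka {e} h' ω| ≤
        (2 * P2 m ^ (m + 1) * |g A| + 2 * P2 m ^ (m + 2) * x ^ 2) * 2 :=
      mul_le_mul h2 h3 (abs_nonneg _) (by positivity)
    have h6 : P2 m ^ (m + 1) ≤ P2 m ^ (m + 2) := pow_le_pow_right₀ hP (by omega)
    have h7 : P2 m ^ (m + 1) * |g A| ≤ P2 m ^ (m + 2) * |g A| :=
      mul_le_mul_of_nonneg_right h6 (abs_nonneg _)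
    have h8 : 0 ≤ P2 m ^ (m + 2) * |g A| := by positivity
    have h9 : 5 * P2 m ^ (m + 2) * (|ka (insert e A) h' ω| + x ^ 2) =
        5 * (P2 m ^ (m + 2) * |g A|) + 5 * (P2 m ^ (m + 2) * x ^ 2) := by
      rw [hg]
      ring
    refine le_trans ?_ (mul_le_mul_of_nonneg_right hc (by positivity))
    rw [h9]
    linarith

end NearW30

open NearW30

/-- module EXACTB: from EXACTW -/
theorem exactb_30 (hW : StExactW) : StExactB := by
  intro m
  obtain ⟨c, hc, hW⟩ := hW m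
  have hP : 0 ≤ 5 * P2 m ^ (m + 2) := by
    have := P2_ge m
    positivity
  refine ⟨c + 5 * P2 m ^ (m + 2), by linarith, ?_⟩
  intro L lam u hu
  obtain ⟨Z, ka, W, hE, hw⟩ := hW L lam u hu
  refine ⟨Z, ka, W, hE, toExB (by linarith) hE ?_⟩
  intro q ω x hZ hx hB
  refine (hw q ω x hZ hx hB).trans ?_
  refine mul_le_mul_of_nonneg_right (mul_le_mul_of_nonneg_right (by linarith) (sq_nonneg x))
    (abs_nonneg _)

end Pool.Agent.SHXA
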