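import Pool.Agent.Lib.MP_a7b2aa_an.SHX.PathB23

/-!
# SHX, MINBAD: the theorem (seat 23)
-/

set_option autoImplicit false

namespace Pool.Agent.SHX

open Finset Pool.Agent.SB3 Pool.Agent.SBT Pool.Agent.SBD

namespace P23

variable {m L : ℕ}

theorem Av_abs_le {X Y : Pt m L → ℝ} (h : ∀ ω, |X ω| ≤ Y ω) : |Av X| ≤ Av Y := by
  rw [abs_le]
  constructor
  · have : Av (fun ω => -1 * Y ω) ≤ Av X := Av_mono fun ω => by
      have := (abs_le.1 (h ω)).1
      linarith
    rw [Av_smul] at this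
    linarith
  · exact Av_mono fun ω => (abs_le.1 (h ω)).2

end P23

open P23 in
theorem minbad_23 : StMinBad := by
  classical
  intro m
  refine ⟨(m + 1) * 2 ^ (m + 4), ?_, ?_⟩
  · have h1 : (1 : ℝ) ≤ 2 ^ (m + 4) := one_le_pow₀ (by norm_num)
    have h2 : (1 : ℝ) ≤ (m : ℝ) + 1 := by
      have : (0 : ℝ) ≤ m := Nat.cast_nonneg m
      linarith
    nlinarith
  intro L G be Z s δ hB hδ0 hδ'
  have E := eeb_36 m L
  have hδ : ∀ h : Fin (m + 1) → ℕ, (∀ a, h a ≤ L) → Av (fun ω => bd G h ω * Z h ω) ≤ δ := by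
    intro h hh
    refine le_trans (le_of_eq ?_) (hδ' h hh)
    congr 1
    funext ω
    unfold bd
    by_cases hP : Gl G h ω ∧ ¬ G h ω
    · rw [if_pos hP, if_pos hP, one_mul]
    · rw [if_neg hP, if_neg hP, zero_mul]
  set D : ℝ := 2 ^ (m + 1) * ((L : ℝ) + 1) ^ (m + 1) * δ with hD
  have hD0 : 0 ≤ D := by positivity
  set tp : Fin (m + 1) → ℕ := fun _ => L with htp
  have htp' : ∀ a, tp a ≤ L := fun a => le_rfl
  obtain ⟨hlaw, -, -, hQZ, -⟩ := pathlaw_23 m L G be Z tp s hB htp'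
  -- the total loss
  set D' : ℝ := ((m : ℝ) + 1) * L * (2 * D) with hD'
  have hD'0 : 0 ≤ D' := by positivity
  have htot : 1 ≤ Av (ze G Z tp) + D' := by
    have h1 := loss_all E hB hδ0 hδ (∑ a, tp a) tp rfl htp'
    have h2 : ((∑ a, tp a : ℕ) : ℝ) = ((m : ℝ) + 1) * L := by
      rw [htp]
      simp
    rw [h2] at h1
    exact h1
  have hρ : ∀ ω, ze G Z tp ω ≤ Qp G be tp s ω := by
    intro ω
    by_cases hG : Gd G tp ω
    · rw [ze_of hG, hQZ ω (Gd_iff.1 hG).1]
    · rw [ze_off hG]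
      exact hlaw.nonneg ω
  -- (ii)
  have hii : ∀ (p : Fin (m + 1) → ℕ) (f : Pt m L → ℝ) (B : ℝ), (∀ a, p a ≤ L) → Ms p f →
      (∀ ω, |f ω| ≤ B) →
      |Ex (Qp G be tp s) f - Av (fun ω => ze G Z p ω * f ω)| ≤ 2 * B * D' := by
    intro p f B hp hf hfB
    have hB0 : 0 ≤ B := (abs_nonneg _).trans (hfB (Classical.arbitrary _))
    have h1 : |Ex (Qp G be tp s) f - Av (fun ω => ze G Z tp ω * f ω)| ≤ B * D' := by
      have e1 : Ex (Qp G be tp s) f - Av (fun ω => ze G Z tp ω * f ω) =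
          Av (fun ω => (Qp G be tp s ω - ze G Z tp ω) * f ω) := by
        unfold Ex
        rw [← Av_sub]
        congr 1
        funext ω
        ring
      rw [e1]
      have h2 := Av_abs_le (X := fun ω => (Qp G be tp s ω - ze G Z tp ω) * f ω)
        (Y := fun ω => B * (Qp G be tp s ω - ze G Z tp ω)) (fun ω => by
          beta_reduce
          rw [abs_mul, abs_of_nonneg (sub_nonneg.2 (hρ ω)), mul_comm]
          exact mul_le_mul_of_nonneg_right (hfB ω) (sub_nonneg.2 (hρ ω)))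
      rw [Av_smul, Av_sub, hlaw.mean] at h2
      refine h2.trans (mul_le_mul_of_nonneg_left ?_ hB0)
      linarith
    have hptp : p ≤ tp := hp
    have h3 : |Av (fun ω => ze G Z tp ω * f ω) - Av (fun ω => ze G Z p ω * f ω)| ≤ B * D' := by
      have e1 : Av (fun ω => ze G Z tp ω * f ω) = Av (fun ω => EE p (ze G Z tp) ω * f ω) := by
        rw [← E.mean p (fun ω => ze G Z tp ω * f ω)]
        congr 1
        funext ω
        have e2 : (fun ω => ze G Z tp ω * f ω) = fun ω => f ω * ze G Z tp ω := by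
          funext ω
          ring
        rw [e2, E.pull _ _ _ hf, mul_comm]
      rw [e1, abs_sub_comm, ← Av_sub]
      have hs : ∀ ω, 0 ≤ ze G Z p ω - EE p (ze G Z tp) ω := fun ω =>
        sub_nonneg.2 (super E hB htp' hptp ω)
      have h2 := Av_abs_le (X := fun ω => ze G Z p ω * f ω - EE p (ze G Z tp) ω * f ω)
        (Y := fun ω => B * (ze G Z p ω - EE p (ze G Z tp) ω)) (fun ω => by
          beta_reduce
          rw [← sub_mul, abs_mul, abs_of_nonneg (hs ω), mul_comm]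
          exact mul_le_mul_of_nonneg_right (hfB ω) (hs ω))
      have e5 : Av (fun ω => ze G Z p ω - EE p (ze G Z tp) ω) =
          Av (fun ω => ze G Z p ω) - Av (fun ω => EE p (ze G Z tp) ω) := Av_sub _ _
      rw [Av_smul, e5] at h2
      refine h2.trans (mul_le_mul_of_nonneg_left ?_ hB0)
      have e3 : Av (fun ω => EE p (ze G Z tp) ω) = Av (ze G Z tp) := E.mean p _
      have e4 : Av (fun ω => ze G Z p ω) = Av (ze G Z p) := rfl
      rw [e3, e4]
      have := Av_ze_le_one E hB hp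
      linarith
    have h4 := abs_add_le (Ex (Qp G be tp s) f - Av (fun ω => ze G Z tp ω * f ω))
      (Av (fun ω => ze G Z tp ω * f ω) - Av (fun ω => ze G Z p ω * f ω))
    rw [sub_add_sub_cancel] at h4
    linarith
  -- the constants
  have hL0 : (0 : ℝ) ≤ L := Nat.cast_nonneg L
  have hm0 : (0 : ℝ) ≤ m := Nat.cast_nonneg m
  have hc1 : 4 * D' ≤ ((m : ℝ) + 1) * 2 ^ (m + 4) * ((L : ℝ) + 1) ^ (m + 2) * δ := by
    rw [hD', hD]
    have h1 : (L : ℝ) * ((L : ℝ) + 1) ^ (m + 1) ≤ ((L : ℝ) + 1) ^ (m + 2) := by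
      rw [pow_succ ((L : ℝ) + 1) (m + 1), mul_comm (((L : ℝ) + 1) ^ (m + 1))]
      exact mul_le_mul_of_nonneg_right (by linarith) (by positivity)
    calc 4 * (((m : ℝ) + 1) * L * (2 * (2 ^ (m + 1) * ((L : ℝ) + 1) ^ (m + 1) * δ)))
        = ((m : ℝ) + 1) * 2 ^ (m + 4) * δ * (L * ((L : ℝ) + 1) ^ (m + 1)) := by
          rw [pow_add 2 m 4, pow_add 2 m 1]
          ring
      _ ≤ ((m : ℝ) + 1) * 2 ^ (m + 4) * δ * ((L : ℝ) + 1) ^ (m + 2) :=
          mul_le_mul_of_nonneg_left h1 (by positivity)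
      _ = _ := by ring
  have hc2 : D ≤ ((m : ℝ) + 1) * 2 ^ (m + 4) * ((L : ℝ) + 1) ^ (m + 2) * δ := by
    rw [hD]
    have h1 : ((L : ℝ) + 1) ^ (m + 1) ≤ ((L : ℝ) + 1) ^ (m + 2) :=
      pow_le_pow_right₀ (by linarith) (by omega)
    have h2 : (2 : ℝ) ^ (m + 1) ≤ ((m : ℝ) + 1) * 2 ^ (m + 4) := by
      have : (2 : ℝ) ^ (m + 1) ≤ 2 ^ (m + 4) := pow_le_pow_right₀ (by norm_num) (by omega)
      have h3 : (0 : ℝ) < 2 ^ (m + 4) := by positivity
      nlinarith
    have h3 : (2 : ℝ) ^ (m + 1) * ((L : ℝ) + 1) ^ (m + 1) ≤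
        ((m : ℝ) + 1) * 2 ^ (m + 4) * ((L : ℝ) + 1) ^ (m + 2) :=
      mul_le_mul h2 h1 (by positivity) (by positivity)
    exact mul_le_mul_of_nonneg_right h3 hδ0
  refine ⟨hlaw, ?_, ?_⟩
  · intro p f B hp hf hfB
    have hB0 : 0 ≤ B := (abs_nonneg _).trans (hfB (Classical.arbitrary _))
    refine (hii p f B hp hf hfB).trans ?_
    have h1 : 2 * B * D' ≤ B * (4 * D') := by nlinarith [mul_nonneg hB0 hD'0]
    refine h1.trans ?_
    rw [mul_comm B]
    exact mul_le_mul_of_nonneg_right hc1 hB0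
  · intro p f X B K hp hf hfB hK hX hXK
    have hB0 : 0 ≤ B := (abs_nonneg _).trans (hfB (Classical.arbitrary _))
    have hp1 : ∀ a, p a ≤ L := fun a => (hp a).le
    have hp2 : ∀ a, (fun a => p a + 1) a ≤ L := fun a => hp a
    have h1 := hii (fun a => p a + 1) f B hp2 hf hfB
    have h2 : |Av (fun ω => ze G Z (fun a => p a + 1) ω * f ω) -
        Av (fun ω => if Gd G p ω then X ω * f ω else 0)| ≤ B * K * D := by
      rw [← Av_sub]
      have h3 := Av_abs_le (X := fun ω => ze G Z (fun a => p a + 1) ω * f ω -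
          (if Gd G p ω then X ω * f ω else 0))
        (Y := fun ω => B * K * (if Gd G (fun a => p a + 1) ω then 0 else ze G Z p ω)) (fun ω => by
          beta_reduce
          by_cases hG : Gd G (fun a => p a + 1) ω
          · have hG' : Gd G p ω := Gd_mono (fun a => Nat.le_succ _) hG
            rw [if_pos hG, if_pos hG', ze_of hG, hX ω hG, sub_self, abs_zero, mul_zero]
          · rw [if_neg hG, ze_off hG, zero_mul, zero_sub, abs_neg]
            by_cases hG' : Gd G p ω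
            · rw [if_pos hG', ze_of hG', abs_mul]
              have h5 := hXK ω hG'
              have h6 : |X ω| * |f ω| ≤ K * Z p ω * B :=
                mul_le_mul h5 (hfB ω) (abs_nonneg _) ((abs_nonneg _).trans h5)
              linarith
            · rw [if_neg hG', ze_off hG', abs_zero, mul_zero])
      rw [Av_smul] at h3
      refine h3.trans (mul_le_mul_of_nonneg_left ?_ (mul_nonneg hB0 hK))
      exact near_bad E hB hp1 hp2 (fun a => le_rfl) hδ0 hδ
    have h4 := abs_add_le (Ex (Qp G be tp s) f -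
        Av (fun ω => ze G Z (fun a => p a + 1) ω * f ω))
      (Av (fun ω => ze G Z (fun a => p a + 1) ω * f ω) -
        Av (fun ω => if Gd G p ω then X ω * f ω else 0))
    rw [sub_add_sub_cancel] at h4
    have h5 : 2 * B * D' + B * K * D ≤
        ((m : ℝ) + 1) * 2 ^ (m + 4) * ((L : ℝ) + 1) ^ (m + 2) * δ * (B * (K + 1)) := by
      have h6 := mul_le_mul_of_nonneg_right hc1 hB0
      have h7 := mul_le_mul_of_nonneg_right hc2 (mul_nonneg hB0 hK)
      have h8 : 0 ≤ D' * B := mul_nonneg hD'0 hB0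
      linarith
    rw [mul_assoc _ B (K + 1)]
    linarith

end Pool.Agent.SHX
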