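import Pool.Agent.Lib.MP_a7b2aa_an.SHX.StmtsX65

/-!
SHX, track ALL, PROD (helper84): products of functions of the class, with times.
-/

set_option autoImplicit false

namespace Pool.Agent.SHXA.Prod84

open Finset Pool.Agent.SHXA Pool.Agent.Lib.MP_a7b2aa_an.SHX

variable {m : ℕ}

/-- a function which depends on `C` only -/
theorem dep_eq {C : Finset (Fin (m + 1))} {F : (Fin (m + 1) → ℕ) → ℝ} (h : Dep C F)
    {c c' : Fin (m + 1) → ℕ} (hc : ∀ j ∈ C, c j = c' j) : F c = F c' := by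
  classical
  have key : ∀ Q : Finset (Fin (m + 1)), (∀ j ∈ Q, j ∉ C) →
      F (fun j => if j ∈ Q then c' j else c j) = F c := by
    intro Q
    induction Q using Finset.induction_on with
    | empty => intro _; simp
    | insert i Q hi ih =>
      intro hQ
      rw [← ih (fun j hj => hQ j (mem_insert_of_mem hj)),
        ← h (fun j => if j ∈ Q then c' j else c j) i (c' i) (hQ i (mem_insert_self _ _))]
      congr 1
      funext j
      by_cases hji : j = i
      · subst hji; simp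
      · simp [mem_insert, hji]
  rw [← key Cᶜ (fun j hj => by simpa using hj)]
  congr 1
  funext j
  by_cases hj : j ∈ C
  · simp [hj, hc j hj]
  · simp [hj]

theorem ph_van {H d : Fin (m + 1) → ℕ} {w : Fin (m + 1) → Finset ℕ} {Q : Finset (Fin (m + 1))}
    {F : (Fin (m + 1) → ℕ) → ℝ} {j : Fin (m + 1)} (hj : j ∉ Q) (hF : ∀ c, c j = 0 → F c = 0) :
    ∀ c, c j = 0 → Ph H d w Q F c = 0 := by
  intro c hc
  unfold Ph
  refine Finset.sum_eq_zero fun l hl => ?_
  have h0 : l j = 0 := by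
    have h1 := (Fintype.mem_piFinset.1 hl) j
    rw [if_neg hj] at h1
    rw [mem_singleton.1 h1, hc]
  rw [hF l h0, mul_zero]

theorem ph_dep (P : PhF m) (H d : Fin (m + 1) → ℕ) (w : Fin (m + 1) → Finset ℕ)
    (C : Finset (Fin (m + 1))) (F : (Fin (m + 1) → ℕ) → ℝ) : Dep C (Ph H d w Cᶜ F) :=
  fun c j t hj => P.off H d w Cᶜ j t F c (mem_compl.2 hj)

theorem le_of_mem {H : Fin (m + 1) → ℕ} {C : Finset (Fin (m + 1))} {c : Fin (m + 1) → ℕ}
    (hc : c ∈ bx H C 0) : ∀ j ∈ C, c j ≤ H j := by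
  intro j hj
  have h1 := (Fintype.mem_piFinset.1 hc) j
  rw [if_pos hj, mem_range] at h1
  omega

theorem fn_zero (H : Fin (m + 1) → ℕ) (C : Finset (Fin (m + 1))) :
    FN H C 0 (fun _ => (0 : ℝ)) :=
  ⟨fun x _ => by simp, fun C1 C2 _ _ _ _ u => by simp⟩

theorem fn_sum (A : ArrF m) {ι : Type} (I : Finset ι) (H : Fin (m + 1) → ℕ)
    (C : Finset (Fin (m + 1))) (b : ι → ℝ) (F : ι → (Fin (m + 1) → ℕ) → ℝ)
    (hb : ∀ i ∈ I, 0 ≤ b i) (hF : ∀ i ∈ I, FN H C (b i) (F i)) :
    FN H C (∑ i ∈ I, b i) (fun c => ∑ i ∈ I, F i c) := by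
  classical
  induction I using Finset.induction_on with
  | empty => simpa using fn_zero H C
  | insert i I hi ih =>
    simp only [Finset.sum_insert hi]
    exact A.add H C _ _ _ _ (hb i (mem_insert_self _ _))
      (Finset.sum_nonneg fun k hk => hb k (mem_insert_of_mem hk)) (hF i (mem_insert_self _ _))
      (ih (fun k hk => hb k (mem_insert_of_mem hk)) (fun k hk => hF k (mem_insert_of_mem hk)))

theorem fn_wal (A : ArrF m) (H : Fin (m + 1) → ℕ) (C : Finset (Fin (m + 1))) {a : ℝ}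
    (ha : 0 ≤ a) (s : Fin (m + 1) → Finset ℕ) (Q : Finset (Fin (m + 1)))
    (F : (Fin (m + 1) → ℕ) → ℝ) (hF : FN H C a F) :
    FN H C a (fun c => (∏ j ∈ Q, wal (s j) (c j)) * F c) := by
  classical
  induction Q using Finset.induction_on with
  | empty => simpa using hF
  | insert i Q hi ih =>
    refine A.cg H C a _ _ (fun c _ => ?_)
      (A.uni H C a i (wal (s i)) _ ha (fun n => (wal_abs _ _).le) ih)
    rw [Finset.prod_insert hi]; ring

open Classical in
/-- two weights merged -/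
noncomputable def mg (Q : Finset (Fin (m + 1))) (w w' : Fin (m + 1) → Finset ℕ) :
    Fin (m + 1) → Finset ℕ := fun j => if j ∈ Q then w j else w' j

theorem mg_sub {Q : Finset (Fin (m + 1))} {w w' : Fin (m + 1) → Finset ℕ} {K : ℕ}
    (h : ∀ j, w j ⊆ range K) (h' : ∀ j, w' j ⊆ range K) (j : Fin (m + 1)) :
    mg Q w w' j ⊆ range K := by
  unfold mg
  split_ifs
  · exact h j
  · exact h' j

theorem merge (P : PhF m) (H d : Fin (m + 1) → ℕ) (w w' : Fin (m + 1) → Finset ℕ)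
    (Q Q' : Finset (Fin (m + 1))) (hd : Disjoint Q Q') (F : (Fin (m + 1) → ℕ) → ℝ)
    (c : Fin (m + 1) → ℕ) :
    Ph H d w Q (Ph H d w' Q' F) c = Ph H d (mg Q w w') (Q ∪ Q') F c := by
  rw [P.union _ _ _ Q Q' F c hd]
  have h1 : Ph H d (mg Q w w') Q' F = Ph H d w' Q' F := funext fun c =>
    P.cgw H H d d _ _ Q' F c (fun j hj => ⟨rfl, rfl, by
      unfold mg
      rw [if_neg (fun h => (Finset.disjoint_left.1 hd) h hj)]⟩)
  rw [h1]
  refine (P.cgw H H d d _ _ Q _ c (fun j hj => ⟨rfl, rfl, ?_⟩)).symm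
  unfold mg
  rw [if_pos hj]

theorem T0_one (K : ℕ) : 1 ≤ T0 K := by
  unfold T0
  have : (0 : ℝ) ≤ K := Nat.cast_nonneg K
  linarith

/-- the expansion of a product at fixed own indices -/
theorem expand (M : MstF m) (P : PhF m) (K : ℕ) (H : Fin (m + 1) → ℕ) (e : Fin (m + 1))
    (C C' : Finset (Fin (m + 1))) (w : Fin (m + 1) → Finset ℕ) (hK : ∀ j, H j < 2 ^ K)
    (hw : ∀ j, w j ⊆ range K) (he : e ∉ C) (he' : e ∉ C') (hd : Disjoint C C') :
    ∃ (ι : Type) (I : Finset ι) (cf : ι → ℝ) (s s' wF wG : ι → Fin (m + 1) → Finset ℕ),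
      ∑ i ∈ I, |cf i| ≤ T0 K ^ m ∧
      (∀ i ∈ I, (∀ a, wF i a ⊆ range K) ∧ ∀ a, wG i a ⊆ range K) ∧
      ∀ F G : (Fin (m + 1) → ℕ) → ℝ, Van (insert e C) F → Van (insert e C') G →
        ∀ c : Fin (m + 1) → ℕ, (∀ j ∈ C ∪ C', c j ≤ H j) →
        Ph H tm w (insert e (C ∪ C'))ᶜ (fun l => F l * G l) c =
          ∑ i ∈ I, cf i * ((∏ j ∈ C', wal (s i j) (c j)) * ((∏ j ∈ C, wal (s' i j) (c j)) *
            (Ph H tm (wF i) (insert e C)ᶜ F c * Ph H tm (wG i) (insert e C')ᶜ G c))) := by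
  classical
  obtain ⟨I1, c1, hc1, hI1, h1⟩ := M.star K H tm w (insert e (C ∪ C'))ᶜ hK hw
  obtain ⟨I2, c2, hc2, hI2, h2⟩ := M.tie K H C' hK
  obtain ⟨I3, c3, hc3, hI3, h3⟩ := M.tie K H C hK
  have hT : (0 : ℝ) ≤ T0 K := zero_le_one.trans (T0_one K)
  refine ⟨_, I1 ×ˢ (I2 ×ˢ I3), fun i => c1 i.1 * (c2 i.2.1 * c3 i.2.2), fun i => i.2.1.1,
    fun i => i.2.2.1, fun i => mg C' i.2.1.2 i.1.1, fun i => mg C i.2.2.2 i.1.2, ?_, ?_, ?_⟩
  · have e1 : ∑ i ∈ I1 ×ˢ (I2 ×ˢ I3), |c1 i.1 * (c2 i.2.1 * c3 i.2.2)| =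
        (∑ i ∈ I1, |c1 i|) * ((∑ i ∈ I2, |c2 i|) * ∑ i ∈ I3, |c3 i|) := by
      rw [Finset.sum_product, Finset.sum_mul]
      refine Finset.sum_congr rfl fun i _ => ?_
      rw [Finset.sum_product, Finset.sum_mul_sum, Finset.mul_sum]
      refine Finset.sum_congr rfl fun k _ => ?_
      rw [Finset.mul_sum]
      exact Finset.sum_congr rfl fun l _ => by rw [abs_mul, abs_mul]
    rw [e1]
    have hcard : (insert e (C ∪ C'))ᶜ.card + (C'.card + C.card) = m := by
      have h4 : (insert e (C ∪ C')).card = C.card + C'.card + 1 := by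
        rw [card_insert_of_notMem (by simp [he, he']), card_union_of_disjoint hd]
      have h5 : (insert e (C ∪ C')).card ≤ m + 1 := by
        have := card_le_univ (insert e (C ∪ C'))
        simpa using this
      rw [card_compl, Fintype.card_fin]
      omega
    calc (∑ i ∈ I1, |c1 i|) * ((∑ i ∈ I2, |c2 i|) * ∑ i ∈ I3, |c3 i|)
        ≤ T0 K ^ (insert e (C ∪ C'))ᶜ.card * (T0 K ^ C'.card * T0 K ^ C.card) := by
          refine mul_le_mul hc1 (mul_le_mul hc2 hc3 (Finset.sum_nonneg fun _ _ => abs_nonneg _)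
            (pow_nonneg hT _)) (mul_nonneg (Finset.sum_nonneg fun _ _ => abs_nonneg _)
            (Finset.sum_nonneg fun _ _ => abs_nonneg _)) (pow_nonneg hT _)
      _ = T0 K ^ m := by rw [← pow_add, ← pow_add, hcard]
  · intro i hi
    obtain ⟨hi1, hi23⟩ := mem_product.1 hi
    obtain ⟨hi2, hi3⟩ := mem_product.1 hi23
    exact ⟨mg_sub (fun a => (hI2 _ hi2 a).2) (fun a => (hI1 _ hi1 a).1),
      mg_sub (fun a => (hI3 _ hi3 a).2) (fun a => (hI1 _ hi1 a).2)⟩
  · intro F G hF hG c hc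
    have hdF : Disjoint C' (insert e (C ∪ C'))ᶜ := by
      rw [Finset.disjoint_left]
      intro x hx hx'
      exact (mem_compl.1 hx') (mem_insert_of_mem (mem_union_right _ hx))
    have hdG : Disjoint C (insert e (C ∪ C'))ᶜ := by
      rw [Finset.disjoint_left]
      intro x hx hx'
      exact (mem_compl.1 hx') (mem_insert_of_mem (mem_union_left _ hx))
    have huF : C' ∪ (insert e (C ∪ C'))ᶜ = (insert e C)ᶜ := by
      ext x
      simp only [mem_union, mem_compl, mem_insert, not_or]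
      constructor
      · rintro (h | h)
        · exact ⟨fun h' => he' (h' ▸ h), fun h' => (Finset.disjoint_left.1 hd) h' h⟩
        · exact ⟨h.1, h.2.1⟩
      · rintro ⟨h, h'⟩
        by_cases hx : x ∈ C'
        · exact Or.inl hx
        · exact Or.inr ⟨h, h', hx⟩
    have huG : C ∪ (insert e (C ∪ C'))ᶜ = (insert e C')ᶜ := by
      ext x
      simp only [mem_union, mem_compl, mem_insert, not_or]
      constructor
      · rintro (h | h)
        · exact ⟨fun h' => he (h' ▸ h), fun h' => (Finset.disjoint_left.1 hd) h h'⟩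
        · exact ⟨h.1, h.2.2⟩
      · rintro ⟨h, h'⟩
        by_cases hx : x ∈ C
        · exact Or.inl hx
        · exact Or.inr ⟨h, hx, h'⟩
    have tF : ∀ i : (Fin (m + 1) → Finset ℕ) × (Fin (m + 1) → Finset ℕ),
        Ph H tm i.1 (insert e (C ∪ C'))ᶜ F c = ∑ k ∈ I2, c2 k *
          ((∏ j ∈ C', wal (k.1 j) (c j)) * Ph H tm (mg C' k.2 i.1) (insert e C)ᶜ F c) := by
      intro i
      rw [h2 (Ph H tm i.1 (insert e (C ∪ C'))ᶜ F) (fun j hj => ph_van
        (fun h => (Finset.disjoint_left.1 hdF) hj h) (fun c' hc' => hF c' j (fun h => by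
          rcases mem_insert.1 h with h | h
          · exact he' (h ▸ hj)
          · exact (Finset.disjoint_left.1 hd) h hj) hc')) c
        (fun j hj => hc j (mem_union_right _ hj))]
      refine Finset.sum_congr rfl fun k _ => ?_
      rw [merge P H tm k.2 i.1 C' _ hdF F c, huF]
    have tG : ∀ i : (Fin (m + 1) → Finset ℕ) × (Fin (m + 1) → Finset ℕ),
        Ph H tm i.2 (insert e (C ∪ C'))ᶜ G c = ∑ k ∈ I3, c3 k *
          ((∏ j ∈ C, wal (k.1 j) (c j)) * Ph H tm (mg C k.2 i.2) (insert e C')ᶜ G c) := by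
      intro i
      rw [h3 (Ph H tm i.2 (insert e (C ∪ C'))ᶜ G) (fun j hj => ph_van
        (fun h => (Finset.disjoint_left.1 hdG) hj h) (fun c' hc' => hG c' j (fun h => by
          rcases mem_insert.1 h with h | h
          · exact he (h ▸ hj)
          · exact (Finset.disjoint_left.1 hd) hj h) hc')) c
        (fun j hj => hc j (mem_union_left _ hj))]
      refine Finset.sum_congr rfl fun k _ => ?_
      rw [merge P H tm k.2 i.2 C _ hdG G c, huG]
    have hvF : ∀ j ∈ (insert e (C ∪ C'))ᶜ, ∀ c', c' j = 0 → F c' = 0 := fun j hj c' hc' =>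
      hF c' j (fun h => (mem_compl.1 hj) (by
        rcases mem_insert.1 h with h | h
        · exact h ▸ mem_insert_self _ _
        · exact mem_insert_of_mem (mem_union_left _ h))) hc'
    have hvG : ∀ j ∈ (insert e (C ∪ C'))ᶜ, ∀ c', c' j = 0 → G c' = 0 := fun j hj c' hc' =>
      hG c' j (fun h => (mem_compl.1 hj) (by
        rcases mem_insert.1 h with h | h
        · exact h ▸ mem_insert_self _ _
        · exact mem_insert_of_mem (mem_union_right _ h))) hc'
    rw [h1 F G hvG (fun j hj _ c' hc' => hvF j hj c' hc') c, Finset.sum_product]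
    refine Finset.sum_congr rfl fun i _ => ?_
    rw [tF i, tG i, Finset.sum_mul_sum, Finset.sum_product, Finset.mul_sum]
    refine Finset.sum_congr rfl fun k _ => ?_
    rw [Finset.mul_sum]
    refine Finset.sum_congr rfl fun l _ => ?_
    ring

theorem had (M : MstF m) (P : PhF m) (A : ArrF m) (K : ℕ) (H : Fin (m + 1) → ℕ)
    (e : Fin (m + 1)) (C C' : Finset (Fin (m + 1))) (a a' : ℝ) (F G : (Fin (m + 1) → ℕ) → ℝ)
    (hK : ∀ j, H j < 2 ^ K) (he : e ∉ C) (he' : e ∉ C') (hd : Disjoint C C') (ha : 0 ≤ a)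
    (ha' : 0 ≤ a') (hVF : Van (insert e C) F) (hVG : Van (insert e C') G)
    (hF : Nm K H (insert e C) a F) (hG : Nm K H (insert e C') a' G) :
    Nm K H (insert e (C ∪ C')) (T0 K ^ m * (a * a')) (fun c => F c * G c) := by
  intro w hw
  obtain ⟨ι, I, cf, s, s', wF, wG, hcf, hIw, hexp⟩ := expand M P K H e C C' w hK hw he he' hd
  have haa : 0 ≤ a * a' := mul_nonneg ha ha'
  have h1 : FN H (insert e (C ∪ C')) (∑ i ∈ I, |cf i| * (a * a')) (fun c => ∑ i ∈ I, cf i *
      ((∏ j ∈ C', wal (s i j) (c j)) * ((∏ j ∈ C, wal (s' i j) (c j)) *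
        (Ph H tm (wF i) (insert e C)ᶜ F c * Ph H tm (wG i) (insert e C')ᶜ G c)))) := by
    refine fn_sum A I H _ _ _ (fun i _ => mul_nonneg (abs_nonneg _) haa) fun i hi => ?_
    refine A.smul H _ _ _ _ haa (fn_wal A H _ haa _ _ _ (fn_wal A H _ haa _ _ _ ?_))
    exact A.had H e C C' a a' _ _ he he' hd ha ha' (ph_dep P H tm _ _ F) (ph_dep P H tm _ _ G)
      (hF _ (hIw i hi).1) (hG _ (hIw i hi).2)
  refine A.mono H _ _ _ _ (Finset.sum_nonneg fun i _ => mul_nonneg (abs_nonneg _) haa) ?_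
    (A.cg H _ _ _ _ (fun c hc => ?_) h1)
  · rw [← Finset.sum_mul]
    exact mul_le_mul_of_nonneg_right hcf haa
  · refine (hexp F G hVF hVG c fun j hj => ?_).symm
    exact le_of_mem hc j (mem_insert_of_mem hj)

theorem con (M : MstF m) (P : PhF m) (A : ArrF m) (K : ℕ) (H : Fin (m + 1) → ℕ)
    (e : Fin (m + 1)) (C C' : Finset (Fin (m + 1))) (a a' : ℝ) (μ : ℕ → ℝ)
    (w : Fin (m + 1) → Finset ℕ) (F G : (Fin (m + 1) → ℕ) → ℝ) (hK : ∀ j, H j < 2 ^ K)
    (he : e ∉ C) (he' : e ∉ C') (hd : Disjoint C C') (hC : C.Nonempty) (hC' : C'.Nonempty)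
    (ha : 0 ≤ a) (ha' : 0 ≤ a') (hμ : ∀ n, |μ n| ≤ 1) (hw : ∀ j, w j ⊆ range K)
    (hVF : Van (insert e C) F) (hVG : Van (insert e C') G)
    (hF : Nm K H (insert e C) a F) (hG : Nm K H (insert e C') a' G) :
    FN H (C ∪ C') (T0 K ^ m * (a * a')) (fun c => ∑ r ∈ range (H e + 1), μ r *
      Ph H tm w (insert e (C ∪ C'))ᶜ (fun l => F l * G l) (Function.update c e r)) := by
  classical
  obtain ⟨ι, I, cf, s, s', wF, wG, hcf, hIw, hexp⟩ := expand M P K H e C C' w hK hw he he' hd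
  have haa : 0 ≤ a * a' := mul_nonneg ha ha'
  have h1 : FN H (C ∪ C') (∑ i ∈ I, |cf i| * (a * a')) (fun c => ∑ i ∈ I, cf i *
      ((∏ j ∈ C', wal (s i j) (c j)) * ((∏ j ∈ C, wal (s' i j) (c j)) *
        ∑ r ∈ range (H e + 1), μ r * (Ph H tm (wF i) (insert e C)ᶜ F (Function.update c e r) *
          Ph H tm (wG i) (insert e C')ᶜ G (Function.update c e r))))) := by
    refine fn_sum A I H _ _ _ (fun i _ => mul_nonneg (abs_nonneg _) haa) fun i hi => ?_
    refine A.smul H _ _ _ _ haa (fn_wal A H _ haa _ _ _ (fn_wal A H _ haa _ _ _ ?_))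
    exact A.con H e C C' a a' μ _ _ he he' hd hC hC' ha ha' hμ (ph_dep P H tm _ _ F)
      (ph_dep P H tm _ _ G) (hF _ (hIw i hi).1) (hG _ (hIw i hi).2)
  refine A.mono H _ _ _ _ (Finset.sum_nonneg fun i _ => mul_nonneg (abs_nonneg _) haa) ?_
    (A.cg H _ _ _ _ (fun c hc => ?_) h1)
  · rw [← Finset.sum_mul]
    exact mul_le_mul_of_nonneg_right hcf haa
  · have hu : ∀ r, ∀ j ∈ C ∪ C', Function.update c e r j = c j := fun r j hj =>
      Function.update_of_ne (fun h => by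
        rcases mem_union.1 hj with h' | h'
        · exact he (h ▸ h')
        · exact he' (h ▸ h')) _ _
    have h2 : ∀ r ∈ range (H e + 1), μ r *
        Ph H tm w (insert e (C ∪ C'))ᶜ (fun l => F l * G l) (Function.update c e r) =
        ∑ i ∈ I, cf i * ((∏ j ∈ C', wal (s i j) (c j)) * ((∏ j ∈ C, wal (s' i j) (c j)) *
          (μ r * (Ph H tm (wF i) (insert e C)ᶜ F (Function.update c e r) *
            Ph H tm (wG i) (insert e C')ᶜ G (Function.update c e r))))) := by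
      intro r _
      rw [hexp F G hVF hVG _ (fun j hj => by
        rw [hu r j hj]
        exact le_of_mem hc j hj), Finset.mul_sum]
      refine Finset.sum_congr rfl fun i _ => ?_
      have p1 : ∏ j ∈ C', wal (s i j) (Function.update c e r j) = ∏ j ∈ C', wal (s i j) (c j) :=
        Finset.prod_congr rfl fun j hj => by rw [hu r j (mem_union_right _ hj)]
      have p2 : ∏ j ∈ C, wal (s' i j) (Function.update c e r j) = ∏ j ∈ C, wal (s' i j) (c j) :=
        Finset.prod_congr rfl fun j hj => by rw [hu r j (mem_union_left _ hj)]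
      rw [p1, p2]
      ring
    rw [Finset.sum_congr rfl h2, Finset.sum_comm]
    refine Finset.sum_congr rfl fun i _ => ?_
    rw [← Finset.mul_sum, ← Finset.mul_sum, ← Finset.mul_sum]

theorem sup (M : MstF m) (P : PhF m) (K : ℕ) (H : Fin (m + 1) → ℕ)
    (C : Finset (Fin (m + 1))) (a : ℝ) (F : (Fin (m + 1) → ℕ) → ℝ) (hK : ∀ j, H j < 2 ^ K)
    (ha : 0 ≤ a) (hV : Van C F) (hF : Nm K H C a F) (c : Fin (m + 1) → ℕ)
    (hc : ∀ j, c j ≤ H j) : |F c| ≤ T0 K ^ (m + 1) * a := by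
  classical
  obtain ⟨I, cf, hcf, hI, hexp⟩ := M.tie K H Cᶜ hK
  rw [hexp F (fun j hj c' hc' => hV c' j (mem_compl.1 hj) hc') c (fun j _ => hc j)]
  have h1 : ∀ i ∈ I, |cf i * ((∏ j ∈ Cᶜ, wal (i.1 j) (c j)) * Ph H tm i.2 Cᶜ F c)| ≤
      |cf i| * a := by
    intro i hi
    rw [abs_mul, abs_mul, Finset.abs_prod,
      Finset.prod_eq_one (fun j _ => wal_abs (i.1 j) (c j)), one_mul]
    refine mul_le_mul_of_nonneg_left ?_ (abs_nonneg _)
    have h2 : Ph H tm i.2 Cᶜ F c = Ph H tm i.2 Cᶜ F (fun j => if j ∈ C then c j else 0) :=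
      dep_eq (ph_dep P H tm _ C F) (fun j hj => by simp [hj])
    rw [h2]
    refine (hF i.2 (fun a => (hI i hi a).2)).sup _ ?_
    refine Fintype.mem_piFinset.2 fun j => ?_
    by_cases hj : j ∈ C
    · simp only [hj, if_true, mem_range]
      exact Nat.lt_succ_of_le (hc j)
    · simp [hj]
  refine (Finset.abs_sum_le_sum_abs _ _).trans ((Finset.sum_le_sum h1).trans ?_)
  rw [← Finset.sum_mul]
  refine mul_le_mul_of_nonneg_right (hcf.trans ?_) ha
  refine pow_le_pow_right₀ (T0_one K) ?_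
  have := card_le_univ Cᶜ
  simpa using this

end Pool.Agent.SHXA.Prod84

namespace Pool.Agent.SHXA

/-- PROD -/
theorem prod_84 (hM : StMst) (hP : StPhi) (hA : StArr) : StPrd := fun m =>
  { had := Prod84.had (hM m) (hP m) (hA m)
    con := Prod84.con (hM m) (hP m) (hA m)
    sup := Prod84.sup (hM m) (hP m) }

end Pool.Agent.SHXA
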