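import Pool.Agent.Lib.MP_a7b2aa_an.SHX.StmtsX65

/-! SHX RKER (helper74): the chain step, predictability. -/

set_option autoImplicit false

namespace Pool.Agent.SHXA

open Finset Pool.Agent.SB3 Pool.Agent.SBT Pool.Agent.SBD Pool.Agent.SHD Pool.Agent.SHX
open Pool.Agent.Lib.MP_a7b2aa_an.SHX

namespace Rker74

theorem cl_mono' {m L : ℕ} {q r : Fin (m + 1) → ℕ} (hqr : ∀ a, q a ≤ r a) {ω' ω : Pt m L}
    (h : cl r ω' ω) : cl q ω' ω := cl_mono (fun a => Or.inl (hqr a)) h

theorem mem_bx {m : ℕ} {H : Fin (m + 1) → ℕ} {Q : Finset (Fin (m + 1))} {c l : Fin (m + 1) → ℕ} :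
    l ∈ bx H Q c ↔ (∀ j ∈ Q, l j ≤ H j) ∧ ∀ j, j ∉ Q → l j = c j := by
  unfold bx
  rw [Fintype.mem_piFinset]
  constructor
  · intro h
    refine ⟨fun j hj => ?_, fun j hj => ?_⟩
    · have := h j
      rw [if_pos hj, mem_range] at this
      omega
    · have := h j
      rw [if_neg hj, mem_singleton] at this
      exact this
  · intro h j
    by_cases hj : j ∈ Q
    · rw [if_pos hj, mem_range]
      have := h.1 j hj
      omega
    · rw [if_neg hj, mem_singleton]
      exact h.2 j hj

/-- the weight of a string in top mode vanishes below `H` -/
theorem wt_top {H d : ℕ} {S : Finset ℕ} {l : ℕ} (h0 : d ≠ 0) (h1 : d ≠ 1) (hl : l ≠ H) :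
    wt H d S l = 0 := by
  unfold wt
  rw [if_neg h0, if_neg h1, if_neg hl]

end Rker74

open Rker74

/-- RKER -/
theorem rker_74 : StRker := by
  intro m L lam u Z W ka H f d w X Y Ψ ex hK
  refine ⟨fun g hg => ⟨?_, ?_⟩, ?_⟩
  · -- measurability of the new kernel
    intro x y c hc htop ω ω' hcl
    unfold Psn
    by_cases hf : c f < H f
    · rw [if_pos hf, if_pos hf]
      have k1 : ka {f, g} c ω' = ka {f, g} c ω := ex.msk _ _ ω ω' hcl
      have k2 : ka {g} c ω' = ka {g} c ω := ex.msk _ _ ω ω' hcl
      rw [k1, k2]
      congr 1
      unfold Ph
      refine Finset.sum_congr rfl (fun l hl => ?_)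
      rw [mem_bx] at hl
      by_cases hw : ∏ j ∈ univ.filter (fun j => j < g ∧ j ≠ f), wt (H j) (d j) (w j) (l j) = 0
      · rw [hw, zero_mul, zero_mul]
      · congr 1
        unfold Fu
        refine Finset.sum_congr rfl (fun t ht => ?_)
        rw [mem_range] at ht
        simp only []
        by_cases htg : t ≤ c g
        · rw [if_pos htg, if_pos htg]
          by_cases hwt : wt (H g) (d g) (w g) t = 0
          · rw [hwt, zero_mul, zero_mul]
          · congr 1
            have hle : ∀ a, Function.update l g t a ≤ c a := by
              intro a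
              by_cases ha : a = g
              · subst ha; rw [Function.update_self]; exact htg
              · rw [Function.update_of_ne ha]
                by_cases hq : a < g ∧ a ≠ f
                · have hq' : a ∈ univ.filter (fun j => j < g ∧ j ≠ f) := by
                    rw [mem_filter]; exact ⟨mem_univ _, hq⟩
                  have h1 := hl.1 a hq'
                  have h2 : dn f g d a = 2 := by
                    unfold dn; rw [if_neg hq.2, if_pos hq.1]
                  have h3 := htop a ha (by rw [h2]; decide) (by rw [h2]; decide)
                  rw [h3]; exact h1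
                · have hq' : a ∉ univ.filter (fun j => j < g ∧ j ≠ f) := by
                    rw [mem_filter]; exact fun h => hq h.2
                  rw [hl.2 a hq']
            refine hK.ms x y (Function.update l g t) (fun a => (hle a).trans (hc a)) ?_ ω ω'
              (cl_mono' hle hcl)
            intro j hj hd0 hd1
            by_cases hjg : j = g
            · subst hjg
              rw [Function.update_self]
              by_contra hne
              exact hwt (wt_top hd0 hd1 hne)
            · rw [Function.update_of_ne hjg]
              by_cases hq : j < g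
              · have hq' : j ∈ univ.filter (fun j => j < g ∧ j ≠ f) := by
                  rw [mem_filter]; exact ⟨mem_univ _, hq, hj⟩
                by_contra hne
                exact hw (Finset.prod_eq_zero hq' (wt_top hd0 hd1 hne))
              · have hq' : j ∉ univ.filter (fun j => j < g ∧ j ≠ f) := by
                  rw [mem_filter]; exact fun h => hq h.2.1
                rw [hl.2 j hq']
                have h2 : dn f g d j = d j := by
                  unfold dn; rw [if_neg hj, if_neg hq]
                exact htop j hjg (by rw [h2]; exact hd0) (by rw [h2]; exact hd1)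
        · rw [if_neg htg, if_neg htg]
    · rw [if_neg hf, if_neg hf]
  · -- the new kernel vanishes at time 0
    intro x y c j ω hj hd hcj
    have h1 : j ≠ f := by
      intro h; subst h
      unfold dn at hd; rw [if_pos rfl] at hd; omega
    unfold Psn
    split_ifs
    · have h2 : ka {f, g} c ω = 0 := ex.van {f, g} c ω j (by simp)
        (by rw [mem_insert, mem_singleton]; rintro (h | h) <;> contradiction) hcj
      rw [h2]; ring
    · rfl
  · intro r hr x y ω ω' hcl
    unfold KM Ph
    refine Finset.sum_congr rfl (fun l hl => ?_)
    rw [mem_bx] at hl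
    by_cases hw : ∏ j ∈ univ.erase f, wt (H j) (d j) (w j) (l j) = 0
    · rw [hw, zero_mul, zero_mul]
    · congr 1
      have hlf : l f = r := by
        rw [hl.2 f (by simp), Function.update_self]
      have hle : ∀ a, l a ≤ Function.update H f r a := by
        intro a
        by_cases ha : a = f
        · subst ha; rw [Function.update_self, hlf]
        · rw [Function.update_of_ne ha]
          exact hl.1 a (mem_erase.2 ⟨ha, mem_univ _⟩)
      refine hK.ms x y l (fun a => ?_) ?_ ω ω' (cl_mono' hle hcl)
      · by_cases ha : a = f
        · subst ha; rw [hlf]; exact hr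
        · exact hl.1 a (mem_erase.2 ⟨ha, mem_univ _⟩)
      · intro j hj hd0 hd1
        by_contra hne
        exact hw (Finset.prod_eq_zero (mem_erase.2 ⟨hj, mem_univ _⟩) (wt_top hd0 hd1 hne))

end Pool.Agent.SHXA
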