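import Pool.Agent.Lib.MP_a7b2aa_an.SHX.StmtsX65
import Pool.Agent.Lib.MP_a7b2aa_an.SHX.Rker74

/-! SHX RCR (helper74): the crude bound of the remainder. -/

set_option autoImplicit false

namespace Pool.Agent.SHXA

open Finset Pool.Agent.SB3 Pool.Agent.SBT Pool.Agent.SBD Pool.Agent.SHD Pool.Agent.SHX
open Pool.Agent.Lib.MP_a7b2aa_an.SHX

namespace Rcr74

theorem T0_one (K : ℕ) : 1 ≤ T0 K := by
  unfold T0
  have : (0 : ℝ) ≤ K := Nat.cast_nonneg K
  linarith

/-- a combination of vectors with bounded coefficients, against the square function -/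
theorem comb {X Y : Type} [Fintype X] [Fintype Y] (n L : ℕ) (hn : n ≤ L) (B : ℝ)
    (M : ℕ → X → Y → ℝ) (a : ℕ → ℝ) (ha : ∀ r < n, |a r| ≤ 1)
    (hM : ∀ v : Y → ℝ, ∑ r ∈ range n, ∑ x, (∑ y, M r x y * v y) ^ 2 ≤ B * ∑ y, v y ^ 2)
    (v : Y → ℝ) :
    ∑ x, (∑ r ∈ range n, a r * ∑ y, M r x y * v y) ^ 2 ≤ L * (B * ∑ y, v y ^ 2) := by
  have h1 : ∀ x, (∑ r ∈ range n, a r * ∑ y, M r x y * v y) ^ 2 ≤
      L * ∑ r ∈ range n, (∑ y, M r x y * v y) ^ 2 := by
    intro x
    have c1 := Finset.sum_mul_sq_le_sq_mul_sq (range n) a (fun r => ∑ y, M r x y * v y)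
    refine c1.trans ?_
    refine mul_le_mul_of_nonneg_right ?_ (Finset.sum_nonneg (fun r _ => sq_nonneg _))
    have c2 : ∑ r ∈ range n, a r ^ 2 ≤ ∑ r ∈ range n, (1 : ℝ) := by
      refine Finset.sum_le_sum (fun r hr => ?_)
      have := ha r (mem_range.1 hr)
      have h2 := sq_abs (a r)
      nlinarith [abs_nonneg (a r)]
    refine c2.trans ?_
    rw [Finset.sum_const, card_range, nsmul_eq_mul, mul_one]
    exact_mod_cast hn
  calc ∑ x, (∑ r ∈ range n, a r * ∑ y, M r x y * v y) ^ 2
      ≤ ∑ x, L * ∑ r ∈ range n, (∑ y, M r x y * v y) ^ 2 := Finset.sum_le_sum (fun x _ => h1 x)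
    _ = L * ∑ r ∈ range n, ∑ x, (∑ y, M r x y * v y) ^ 2 := by
        rw [← Finset.mul_sum, Finset.sum_comm]
    _ ≤ L * (B * ∑ y, v y ^ 2) := mul_le_mul_of_nonneg_left (hM v) (Nat.cast_nonneg L)

end Rcr74

open Rcr74 Rker74

/-- RCR -/
theorem rcr_74 (hMst : StMst) (hPhi : StPhi) : StRcr := by
  intro m
  refine ⟨4, 2 * m, by norm_num, ?_⟩
  intro L K lam b bs u Z W ka H f d w X Y _ _ Ψ ω B hL hLK hH ex hbs hbsb hb hG hw hK hB hN
  have hT : (1 : ℝ) ≤ T0 K := T0_one K
  have hTm : (1 : ℝ) ≤ T0 K ^ m := one_le_pow₀ hT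
  have hL0 : (0 : ℝ) ≤ L := Nat.cast_nonneg L
  rcases Nat.eq_zero_or_pos (H f) with hf0 | hfpos
  · intro v
    have e0 : ∀ x y, SS ka H f d w Ψ ω x y = 0 := by
      intro x y; unfold SS; rw [hf0]; simp
    simp only [Matrix.of_apply, e0, zero_mul, Finset.sum_const_zero]
    have : (0 : ℝ) ^ 2 = 0 := by norm_num
    rw [this, Finset.sum_const_zero]
    have h1 : 0 ≤ ∑ y, v y ^ 2 := Finset.sum_nonneg (fun y _ => sq_nonneg _)
    positivity
  -- the class below
  have hG' : Gk K bs ka (Function.update H f (H f - 1)) ω := by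
    refine hG _ ?_ ?_
    · intro a
      by_cases ha : a = f
      · subst ha; rw [Function.update_self]; exact Nat.sub_le _ _
      · rw [Function.update_of_ne ha]
    · intro h
      have := congrFun h f
      rw [Function.update_self] at this
      omega
  have hQ : univ.erase f = ({f} : Finset (Fin (m + 1)))ᶜ := by
    ext j; simp
  have hcard : (univ.erase f : Finset (Fin (m + 1))).card = m := by
    rw [Finset.card_erase_of_mem (Finset.mem_univ f), Finset.card_univ, Fintype.card_fin]; rfl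
  -- the expansion
  obtain ⟨I, cf, hcf, hI, hst⟩ := (hMst m).star K H d w (univ.erase f)
    (fun j => lt_of_le_of_lt (hH j) hLK) hw
  rw [hcard] at hcf
  have key : ∀ x y, SS ka H f d w Ψ ω x y =
      (∑ r ∈ range (H f), sb f r ω * KM H f d w Ψ ω r x y) -
      ∑ i ∈ I, cf i * ∑ r ∈ range (H f),
        Ph H tm i.2 (univ.erase f) (fun c => ka {f} c ω) (Function.update 0 f r) *
          KM H f d i.1 Ψ ω r x y := by
    intro x y
    unfold SS
    have e1 : ∀ r, Ph H d w (univ.erase f)
        (fun c => Ψ x y c ω * (sb f (c f) ω - ka {f} c ω)) (Function.update 0 f r) =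
        sb f r ω * KM H f d w Ψ ω r x y -
        ∑ i ∈ I, cf i * (Ph H tm i.2 (univ.erase f) (fun c => ka {f} c ω)
          (Function.update 0 f r) * KM H f d i.1 Ψ ω r x y) := by
      intro r
      have a1 := (hPhi m).mul H d w (univ.erase f) (fun c => Ψ x y c ω)
        (fun c => sb f (c f) ω) (Function.update 0 f r) (by
          intro c j t hj
          have hj' : j ≠ f := by
            intro h; subst h; simp at hj
          simp only []
          rw [Function.update_of_ne hj'.symm])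
      have a2 := hst (fun c => Ψ x y c ω) (fun c => ka {f} c ω)
        (by
          intro j hj c hc
          exact ex.van {f} c ω j (by simp)
            (by rw [mem_singleton]; exact Finset.ne_of_mem_erase hj) hc)
        (by
          intro j hj hd c hc
          exact hK.van x y c j ω (Finset.ne_of_mem_erase hj) hd hc)
        (Function.update 0 f r)
      have a3 := (hPhi m).add H d w (univ.erase f) (fun c => sb f (c f) ω * Ψ x y c ω)
        (fun c => (-1) * (Ψ x y c ω * ka {f} c ω)) (Function.update 0 f r)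
      have a4 := (hPhi m).smul H d w (univ.erase f) (-1)
        (fun c => Ψ x y c ω * ka {f} c ω) (Function.update 0 f r)
      have a5 : (fun c => Ψ x y c ω * (sb f (c f) ω - ka {f} c ω)) =
          (fun c => (fun c => sb f (c f) ω * Ψ x y c ω) c +
            (fun c => (-1) * (Ψ x y c ω * ka {f} c ω)) c) := by
        funext c; simp only []; ring
      rw [a5, a3, a4, a1, a2]
      simp only [Function.update_self]
      unfold KM
      rw [sub_eq_add_neg]
      congr 1
      rw [neg_one_mul]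
      congr 1
      refine Finset.sum_congr rfl (fun i _ => ?_)
      ring
    rw [Finset.sum_congr rfl (fun r _ => e1 r), Finset.sum_sub_distrib, Finset.sum_comm]
    congr 1
    refine Finset.sum_congr rfl (fun i _ => ?_)
    rw [Finset.mul_sum]
  -- the coefficients are bounded
  have hco : ∀ i ∈ I, ∀ r < H f,
      |Ph H tm i.2 (univ.erase f) (fun c => ka {f} c ω) (Function.update 0 f r)| ≤ 1 := by
    intro i hi r hr
    have g1 := hG' {f} (by simp) i.2 (fun a => (hI i hi a).2)
    have g2 := g1.sup (Function.update 0 f r) (by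
      rw [mem_bx]
      refine ⟨fun j hj => ?_, fun j hj => ?_⟩
      · rw [mem_singleton] at hj; subst hj
        rw [Function.update_self, Function.update_self]; omega
      · rw [mem_singleton] at hj
        rw [Function.update_of_ne hj])
    have g3 : Ph (Function.update H f (H f - 1)) tm i.2 ({f} : Finset (Fin (m + 1)))ᶜ
        (fun c => ka {f} c ω) (Function.update 0 f r) =
        Ph H tm i.2 (univ.erase f) (fun c => ka {f} c ω) (Function.update 0 f r) := by
      rw [hQ]
      refine (hPhi m).cgw _ _ _ _ _ _ _ _ _ ?_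
      intro j hj
      have hj' : j ≠ f := by
        intro h; subst h; simp at hj
      exact ⟨Function.update_of_ne hj' _ _, rfl, rfl⟩
    rw [g3] at g2
    exact g2.trans ((hbsb _).trans hb)
  intro v
  simp only [Matrix.of_apply]
  obtain ⟨V, hV⟩ : ∃ V, V = ∑ y, v y ^ 2 := ⟨_, rfl⟩
  have hV0 : 0 ≤ V := by rw [hV]; exact Finset.sum_nonneg (fun y _ => sq_nonneg _)
  obtain ⟨S, hS⟩ : ∃ S, S = ∑ i ∈ I, |cf i| := ⟨_, rfl⟩
  have hS0 : 0 ≤ S := by rw [hS]; exact Finset.sum_nonneg (fun i _ => abs_nonneg _)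
  -- the rows
  have row : ∀ x, ∑ y, SS ka H f d w Ψ ω x y * v y =
      (∑ r ∈ range (H f), sb f r ω * ∑ y, KM H f d w Ψ ω r x y * v y) -
      ∑ i ∈ I, cf i * ∑ r ∈ range (H f),
        Ph H tm i.2 (univ.erase f) (fun c => ka {f} c ω) (Function.update 0 f r) *
          ∑ y, KM H f d i.1 Ψ ω r x y * v y := by
    intro x
    rw [Finset.sum_congr rfl (fun y _ => by rw [key x y, sub_mul]), Finset.sum_sub_distrib]
    congr 1
    · simp only [Finset.sum_mul, Finset.mul_sum]
      rw [Finset.sum_comm]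
      refine Finset.sum_congr rfl (fun r _ => Finset.sum_congr rfl (fun y _ => ?_))
      ring
    · simp only [Finset.sum_mul, Finset.mul_sum]
      rw [Finset.sum_comm]
      refine Finset.sum_congr rfl (fun i _ => ?_)
      rw [Finset.sum_comm]
      refine Finset.sum_congr rfl (fun r _ => Finset.sum_congr rfl (fun y _ => ?_))
      ring
  have hfL : H f ≤ L := hH f
  have b0 : ∑ x, (∑ r ∈ range (H f), sb f r ω * ∑ y, KM H f d w Ψ ω r x y * v y) ^ 2 ≤
      L * (B * V) := by
    rw [hV]
    exact comb (H f) L hfL B (KM H f d w Ψ ω) (fun r => sb f r ω)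
      (fun r _ => (sb_abs f r ω).le) (hN w hw).1 v
  have bi : ∀ i ∈ I, ∑ x, (∑ r ∈ range (H f),
        Ph H tm i.2 (univ.erase f) (fun c => ka {f} c ω) (Function.update 0 f r) *
          ∑ y, KM H f d i.1 Ψ ω r x y * v y) ^ 2 ≤ L * (B * V) := by
    intro i hi
    rw [hV]
    exact comb (H f) L hfL B (KM H f d i.1 Ψ ω)
      (fun r => Ph H tm i.2 (univ.erase f) (fun c => ka {f} c ω) (Function.update 0 f r))
      (hco i hi) (hN i.1 (fun a => (hI i hi a).1)).1 v
  have fin : ∑ x, (∑ y, SS ka H f d w Ψ ω x y * v y) ^ 2 ≤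
      2 * (L * (B * V)) + 2 * (S * (S * (L * (B * V)))) := by
    have c1 : ∀ x, (∑ y, SS ka H f d w Ψ ω x y * v y) ^ 2 ≤
        2 * (∑ r ∈ range (H f), sb f r ω * ∑ y, KM H f d w Ψ ω r x y * v y) ^ 2 +
        2 * (S * ∑ i ∈ I, |cf i| * (∑ r ∈ range (H f),
          Ph H tm i.2 (univ.erase f) (fun c => ka {f} c ω) (Function.update 0 f r) *
          ∑ y, KM H f d i.1 Ψ ω r x y * v y) ^ 2) := by
      intro x
      rw [row x]
      have c2 := Finset.sum_sq_le_sum_mul_sum_of_sq_le_mul I
        (r := fun i => cf i * ∑ r ∈ range (H f),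
          Ph H tm i.2 (univ.erase f) (fun c => ka {f} c ω) (Function.update 0 f r) *
          ∑ y, KM H f d i.1 Ψ ω r x y * v y)
        (f := fun i => |cf i|)
        (g := fun i => |cf i| * (∑ r ∈ range (H f),
          Ph H tm i.2 (univ.erase f) (fun c => ka {f} c ω) (Function.update 0 f r) *
          ∑ y, KM H f d i.1 Ψ ω r x y * v y) ^ 2)
        (fun i _ => abs_nonneg _) (fun i _ => mul_nonneg (abs_nonneg _) (sq_nonneg _))
        (fun i _ => le_of_eq (by rw [← mul_assoc, abs_mul_abs_self]; ring))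
      rw [← hS] at c2
      nlinarith [c2, sq_nonneg ((∑ r ∈ range (H f), sb f r ω * ∑ y, KM H f d w Ψ ω r x y * v y) +
        ∑ i ∈ I, cf i * ∑ r ∈ range (H f),
        Ph H tm i.2 (univ.erase f) (fun c => ka {f} c ω) (Function.update 0 f r) *
          ∑ y, KM H f d i.1 Ψ ω r x y * v y)]
    refine (Finset.sum_le_sum (fun x _ => c1 x)).trans ?_
    rw [Finset.sum_add_distrib, ← Finset.mul_sum, ← Finset.mul_sum, ← Finset.mul_sum]
    refine add_le_add (mul_le_mul_of_nonneg_left b0 (by norm_num)) ?_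
    refine mul_le_mul_of_nonneg_left ?_ (by norm_num)
    refine mul_le_mul_of_nonneg_left ?_ hS0
    rw [Finset.sum_comm]
    have c3 : ∀ i ∈ I, ∑ x, |cf i| * (∑ r ∈ range (H f),
          Ph H tm i.2 (univ.erase f) (fun c => ka {f} c ω) (Function.update 0 f r) *
          ∑ y, KM H f d i.1 Ψ ω r x y * v y) ^ 2 ≤ |cf i| * (L * (B * V)) := by
      intro i hi
      rw [← Finset.mul_sum]
      exact mul_le_mul_of_nonneg_left (bi i hi) (abs_nonneg _)
    refine (Finset.sum_le_sum c3).trans ?_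
    rw [← Finset.sum_mul, ← hS]
  refine fin.trans ?_
  rw [← hV]
  have hS1 : S ≤ T0 K ^ m := by rw [hS]; exact hcf
  have hSS : S * S ≤ T0 K ^ (2 * m) := by
    rw [two_mul, pow_add]
    exact mul_le_mul hS1 hS1 hS0 (by positivity)
  have hT2 : (1 : ℝ) ≤ T0 K ^ (2 * m) := one_le_pow₀ hT
  have hLBV : 0 ≤ L * (B * V) := by positivity
  have : 2 * (L * (B * V)) + 2 * (S * (S * (L * (B * V)))) =
    (2 + 2 * (S * S)) * (L * (B * V)) := by ring
  rw [this]
  have h4 : 4 * T0 K ^ (2 * m) * L * B * V = (4 * T0 K ^ (2 * m)) * (L * (B * V)) := by ring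
  rw [h4]
  refine mul_le_mul_of_nonneg_right ?_ hLBV
  linarith

end Pool.Agent.SHXA
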