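import Pool.Agent.Lib.MP_a7b2aa_an.SHX.StmtsX65
import Pool.Agent.Lib.MP_a7b2aa_an.SHX.PathA23

/-!
# SHX, REC: sums of kernels against centred signs (seat 21)

Induction on the number of steps of the chain.
-/

set_option autoImplicit false

namespace Pool.Agent.SHXA

open Finset Pool.Agent.SB3 Pool.Agent.SBT Pool.Agent.SBD Pool.Agent.SHD Pool.Agent.SHX

namespace Rec21

theorem T0_one (K : ℕ) : 1 ≤ T0 K := by
  unfold T0
  have : (0 : ℝ) ≤ K := Nat.cast_nonneg K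
  linarith

theorem NB_mono {X Y : Type} [Fintype X] [Fintype Y] {A : Matrix X Y ℝ} {a b : ℝ} (h : NB A a)
    (hab : a ≤ b) : NB A b := by
  intro v
  refine (h v).trans ?_
  refine mul_le_mul_of_nonneg_right hab (sum_nonneg fun y _ => sq_nonneg _)

theorem NB_add {X Y : Type} [Fintype X] [Fintype Y] {A A' : Matrix X Y ℝ} {a b : ℝ} (h : NB A a)
    (h' : NB A' b) : NB (A + A') (2 * (a + b)) := by
  intro v
  have h1 := h v
  have h2 := h' v
  calc ∑ x, (∑ y, (A + A') x y * v y) ^ 2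
      ≤ ∑ x, (2 * (∑ y, A x y * v y) ^ 2 + 2 * (∑ y, A' x y * v y) ^ 2) := by
        refine sum_le_sum fun x _ => ?_
        have e : ∑ y, (A + A') x y * v y = ∑ y, A x y * v y + ∑ y, A' x y * v y := by
          rw [← sum_add_distrib]
          refine sum_congr rfl fun y _ => ?_
          rw [Matrix.add_apply]
          ring
        rw [e]
        nlinarith [sq_nonneg ((∑ y, A x y * v y) - ∑ y, A' x y * v y)]
    _ = 2 * ∑ x, (∑ y, A x y * v y) ^ 2 + 2 * ∑ x, (∑ y, A' x y * v y) ^ 2 := by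
        rw [sum_add_distrib, ← mul_sum, ← mul_sum]
    _ ≤ 2 * (a * ∑ y, v y ^ 2) + 2 * (b * ∑ y, v y ^ 2) := by linarith
    _ = 2 * (a + b) * ∑ y, v y ^ 2 := by ring

theorem NB_sum {X Y ι : Type} [Fintype X] [Fintype Y] (s : Finset ι) {A : ι → Matrix X Y ℝ}
    {b : ℝ} (h : ∀ i ∈ s, NB (A i) b) : NB (∑ i ∈ s, A i) ((s.card : ℝ) ^ 2 * b) := by
  intro v
  calc ∑ x, (∑ y, (∑ i ∈ s, A i) x y * v y) ^ 2
      ≤ ∑ x, ((s.card : ℝ) * ∑ i ∈ s, (∑ y, A i x y * v y) ^ 2) := by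
        refine sum_le_sum fun x _ => ?_
        have e : ∑ y, (∑ i ∈ s, A i) x y * v y = ∑ i ∈ s, ∑ y, A i x y * v y := by
          rw [sum_comm]
          refine sum_congr rfl fun y _ => ?_
          rw [Matrix.sum_apply, sum_mul]
        rw [e]
        exact sq_sum_le_card_mul_sum_sq
    _ = (s.card : ℝ) * ∑ i ∈ s, ∑ x, (∑ y, A i x y * v y) ^ 2 := by
        rw [← mul_sum, sum_comm]
    _ ≤ (s.card : ℝ) * ∑ i ∈ s, (b * ∑ y, v y ^ 2) := by
        refine mul_le_mul_of_nonneg_left (sum_le_sum fun i hi => h i hi v) (Nat.cast_nonneg _)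
    _ = (s.card : ℝ) ^ 2 * b * ∑ y, v y ^ 2 := by
        rw [sum_const, nsmul_eq_mul]
        ring

theorem SQ_mono {X Y : Type} [Fintype X] [Fintype Y] {n : ℕ} {B B' : ℝ} {M : ℕ → X → Y → ℝ}
    (h : SQ n B M) (hB : B ≤ B') : SQ n B' M := by
  refine ⟨fun v => (h.1 v).trans ?_, fun v => (h.2 v).trans ?_⟩
  · exact mul_le_mul_of_nonneg_right hB (sum_nonneg fun y _ => sq_nonneg _)
  · exact mul_le_mul_of_nonneg_right hB (sum_nonneg fun y _ => sq_nonneg _)

open Classical in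
theorem PP_union {m L : ℕ} {G : (Fin (m + 1) → ℕ) → Pt m L → Prop}
    {Z : (Fin (m + 1) → ℕ) → Pt m L → ℝ} {H : Fin (m + 1) → ℕ}
    (hZ : ∀ ω, Gl G H ω → 0 ≤ Z H ω) {ι : Type} (s : Finset ι) (E E0 : Pt m L → Prop)
    (F : ι → Pt m L → Prop) (h : ∀ ω, Gl G H ω → E ω → E0 ω ∨ ∃ i ∈ s, F i ω) :
    PP G Z H E ≤ PP G Z H E0 + ∑ i ∈ s, PP G Z H (F i) := by
  unfold PP
  rw [← Av_sum, ← Av_add]
  refine Av_mono fun ω => ?_
  by_cases hG : Gl G H ω
  · have h0 := hZ ω hG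
    by_cases hE : E ω
    · have h1 : ∀ i ∈ s, 0 ≤ (if Gl G H ω ∧ F i ω then Z H ω else 0) := by
        intro i _
        split_ifs
        · exact h0
        · exact le_rfl
      rw [if_pos ⟨hG, hE⟩]
      rcases h ω hG hE with h2 | ⟨i, hi, h2⟩
      · rw [if_pos ⟨hG, h2⟩]
        have := sum_nonneg h1
        linarith
      · have h3 := single_le_sum h1 hi
        rw [if_pos ⟨hG, h2⟩] at h3
        have h4 : 0 ≤ (if Gl G H ω ∧ E0 ω then Z H ω else 0) := by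
          split_ifs
          · exact h0
          · exact le_rfl
        linarith
    · rw [if_neg (fun h => hE h.2)]
      refine add_nonneg ?_ (sum_nonneg fun i _ => ?_)
      · split_ifs
        · exact h0
        · exact le_rfl
      · split_ifs
        · exact h0
        · exact le_rfl
  · rw [if_neg (fun h => hG h.1), if_neg (fun h => hG h.1)]
    refine add_nonneg le_rfl (sum_nonneg fun i _ => ?_)
    rw [if_neg (fun h => hG h.1)]

open Classical in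
theorem PP_zero {m L : ℕ} {G : (Fin (m + 1) → ℕ) → Pt m L → Prop}
    {Z : (Fin (m + 1) → ℕ) → Pt m L → ℝ} {H : Fin (m + 1) → ℕ} {E : Pt m L → Prop}
    (h : ∀ ω, Gl G H ω → ¬ E ω) : PP G Z H E = 0 := by
  unfold PP
  have : (fun ω => if Gl G H ω ∧ E ω then Z H ω else 0) = fun _ => 0 := by
    funext ω
    rw [if_neg (fun h' => h ω h'.1 h'.2)]
  rw [this, Av_const]

open Classical in
theorem PP_mono {m L : ℕ} {G : (Fin (m + 1) → ℕ) → Pt m L → Prop}
    {Z : (Fin (m + 1) → ℕ) → Pt m L → ℝ} {H : Fin (m + 1) → ℕ}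
    (hZ : ∀ ω, Gl G H ω → 0 ≤ Z H ω) {E F : Pt m L → Prop}
    (h : ∀ ω, Gl G H ω → E ω → F ω) : PP G Z H E ≤ PP G Z H F := by
  have := PP_union hZ (∅ : Finset ℕ) E F (fun _ _ => False) (fun ω hG hE => Or.inl (h ω hG hE))
  simpa using this

/-- the statement of `k` steps, bounds with the remainder -/
def Stp (m n D k : ℕ) (ε q : ℝ) (e : ℕ) (C : ℝ) : Prop :=
  ∀ (L K : ℕ) (lam b B : ℝ) (bs : ℕ → ℝ) (u Z W : (Fin (m + 1) → ℕ) → Pt m L → ℝ)
    (ka : Finset (Fin (m + 1)) → (Fin (m + 1) → ℕ) → Pt m L → ℝ) (H : Fin (m + 1) → ℕ)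
    (f : Fin (m + 1)) (d : Fin (m + 1) → ℕ) (w : Fin (m + 1) → Finset ℕ) (X Y : Type)
    [Fintype X] [Fintype Y] [DecidableEq X] [DecidableEq Y]
    (Ψ : X → Y → (Fin (m + 1) → ℕ) → Pt m L → ℝ), 1 ≤ L → L < 2 ^ K → (∀ a, H a ≤ L) →
    Exact lam u Z ka W → Bay (Gk K bs ka) (fun c h => ka {c} h) Z →
    (∀ h ω, (∀ a, h a ≤ L) → Gd (Gk K bs ka) h ω → 0 < Z h ω) →
    (∀ j, 0 ≤ bs j) → (∀ j, bs j ≤ b) → q * T0 K ^ e * b ≤ 1 →
    Fintype.card X ≤ (L + 1) ^ D → Fintype.card Y ≤ (L + 1) ^ D → (∀ a, w a ⊆ range K) →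
    Ker H f d Ψ → 0 ≤ B →
    PP (Gk K bs ka) Z H (fun ω => KN K H f d B Ψ ω ∧
      ¬ NB (Matrix.of (fun x y => SS ka H f d w Ψ ω x y))
        (C * ((L : ℝ) ^ ε + T0 K ^ e * L * (q * T0 K ^ e * b) ^ (2 * k)) * B)) ≤
      C / (L + 1) ^ n

theorem rec_aux (hF : StFresh) (hRid : StRid) (hRk : StRker) (hRn : StRnrm) (hRc : StRcr)
    (m n D : ℕ) (ε : ℝ) (hε : 0 < ε) : ∃ (q : ℝ) (e : ℕ), 1 ≤ q ∧
      ∀ k : ℕ, ∃ C : ℝ, 1 ≤ C ∧ Stp m n D k ε q e C := by
  obtain ⟨Cn, en, hCn, hn⟩ := hRn m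
  obtain ⟨Cc, ec, hCc, hc⟩ := hRc m
  obtain ⟨Cf, hCf, hf⟩ := hF n D ε hε
  refine ⟨max Cn Cc, max en ec, hCn.trans (le_max_left _ _), ?_⟩
  set q := max Cn Cc with hq
  set e := max en ec with he
  have hq1 : 1 ≤ q := hCn.trans (le_max_left _ _)
  have hTn : ∀ K, T0 K ^ en ≤ T0 K ^ e := fun K => pow_le_pow_right₀ (T0_one K) (le_max_left _ _)
  have hTc : ∀ K, T0 K ^ ec ≤ T0 K ^ e := fun K => pow_le_pow_right₀ (T0_one K) (le_max_right _ _)
  intro k
  induction k with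
  | zero =>
    refine ⟨q, hq1, ?_⟩
    intro L K lam b B bs u Z W ka H f d w X Y _ _ _ _ Ψ hL hLK hH hEx hB hZ hb0 hb hqb hX hY hw
      hK hB0
    have hT1 := T0_one K
    have hTe : 1 ≤ T0 K ^ e := one_le_pow₀ hT1
    have hb00 : 0 ≤ b := (hb0 0).trans (hb 0)
    have hb1 : b ≤ 1 := by
      refine le_trans ?_ hqb
      have : 1 ≤ q * T0 K ^ e := by nlinarith
      nlinarith
    have h0 : ((L : ℝ) + 1) ^ n > 0 := by positivity
    rw [PP_zero]
    · positivity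
    · rintro ω hG ⟨h1, h2⟩
      refine h2 ?_
      refine NB_mono (hc L K lam b bs u Z W ka H f d w X Y Ψ ω B hL hLK hH hEx hb0 hb hb1 hG hw
        hK hB0 h1) ?_
      have hL1 : (1 : ℝ) ≤ L := by exact_mod_cast hL
      have h3 : 0 ≤ (L : ℝ) ^ ε := Real.rpow_nonneg (by linarith) _
      rw [mul_zero, pow_zero, mul_one]
      refine mul_le_mul_of_nonneg_right ?_ hB0
      have h4 : Cc * T0 K ^ ec * (L : ℝ) ≤ q * (T0 K ^ e * L) := by
        have h5 : Cc * T0 K ^ ec ≤ q * T0 K ^ e :=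
          mul_le_mul (le_max_right _ _) (hTc K) (by positivity) (by linarith)
        calc Cc * T0 K ^ ec * (L : ℝ) ≤ q * T0 K ^ e * L :=
              mul_le_mul_of_nonneg_right h5 (by linarith)
          _ = q * (T0 K ^ e * L) := by ring
      have h6 : 0 ≤ q * (L : ℝ) ^ ε := mul_nonneg (by linarith) h3
      nlinarith
  | succ k ih =>
    obtain ⟨C, hC, ih⟩ := ih
    refine ⟨2 * Cf + 2 * ((m : ℝ) ^ 2 + m) * C, ?_, ?_⟩
    · have : 0 ≤ ((m : ℝ) ^ 2 + m) * C := by positivity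
      linarith
    intro L K lam b B bs u Z W ka H f d w X Y _ _ _ _ Ψ hL hLK hH hEx hB hZ hb0 hb hqb hX hY hw
      hK hB0
    have hT1 := T0_one K
    have hTe : 1 ≤ T0 K ^ e := one_le_pow₀ hT1
    have hb00 : 0 ≤ b := (hb0 0).trans (hb 0)
    have hL1 : (1 : ℝ) ≤ L := by exact_mod_cast hL
    have hLe : 0 ≤ (L : ℝ) ^ ε := Real.rpow_nonneg (by linarith) _
    have hLn : (0 : ℝ) < ((L : ℝ) + 1) ^ n := by positivity
    set Q := q * T0 K ^ e * b with hQ
    have hQ0 : 0 ≤ Q := by positivity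
    have hQn : Cn * T0 K ^ en * b ≤ Q := by
      refine mul_le_mul_of_nonneg_right ?_ hb00
      exact mul_le_mul (le_max_left _ _) (hTn K) (by positivity) (by linarith)
    have hQn0 : 0 ≤ Cn * T0 K ^ en * b := by positivity
    have hZ0 : ∀ ω, Gl (Gk K bs ka) H ω → 0 ≤ Z H ω :=
      (pathlaw_23 m L (Gk K bs ka) (fun c h => ka {c} h) Z H f hB hH).2.2.2.2
    obtain ⟨hk1, hk2⟩ := hRk m L lam u Z W ka H f d w X Y Ψ hEx hK
    have hwn : ∀ a, wn f w a ⊆ range K := by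
      intro a
      unfold wn
      split_ifs
      · exact empty_subset _
      · exact hw a
    -- the events
    have key : PP (Gk K bs ka) Z H (fun ω => KN K H f d B Ψ ω ∧
        ¬ NB (Matrix.of (fun x y => SS ka H f d w Ψ ω x y))
          ((2 * Cf + 2 * ((m : ℝ) ^ 2 + m) * C) *
            ((L : ℝ) ^ ε + T0 K ^ e * L * Q ^ (2 * (k + 1))) * B)) ≤
        PP (Gk K bs ka) Z H (fun ω => SQ (H f) B (fun r x y => KM H f d w Ψ ω r x y) ∧
          ¬ NB (Matrix.of (fun x y => ∑ r ∈ range (H f),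
            (sb f r ω - (fun c h => ka {c} h) f (Function.update H f r) ω) *
              KM H f d w Ψ ω r x y)) (Cf * (L : ℝ) ^ ε * B)) +
        ∑ g ∈ univ.erase f, PP (Gk K bs ka) Z H (fun ω =>
          KN K H g (dn f g d) (Q ^ 2 * B) (Psn ka H f g d w Ψ) ω ∧
          ¬ NB (Matrix.of (fun x y => SS ka H g (dn f g d) (wn f w) (Psn ka H f g d w Ψ) ω x y))
            (C * ((L : ℝ) ^ ε + T0 K ^ e * L * Q ^ (2 * k)) * (Q ^ 2 * B))) := by
      refine PP_union hZ0 _ _ _ _ ?_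
      rintro ω hG ⟨h1, h2⟩
      by_contra hcon
      rw [not_or] at hcon
      obtain ⟨hc1, hc2⟩ := hcon
      have hA : NB (Matrix.of (fun x y => ∑ r ∈ range (H f),
            (sb f r ω - (fun c h => ka {c} h) f (Function.update H f r) ω) *
              KM H f d w Ψ ω r x y)) (Cf * (L : ℝ) ^ ε * B) := by
        by_contra h
        exact hc1 ⟨h1 w hw, h⟩
      have hA' : ∀ g ∈ univ.erase f,
          NB (Matrix.of (fun x y => SS ka H g (dn f g d) (wn f w) (Psn ka H f g d w Ψ) ω x y))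
            (C * ((L : ℝ) ^ ε + T0 K ^ e * L * Q ^ (2 * k)) * (Q ^ 2 * B)) := by
        intro g hg
        by_contra h
        refine hc2 ⟨g, hg, ?_, h⟩
        have hgf : g ≠ f := ne_of_mem_erase hg
        have h3 := hn L K lam b bs u Z W ka H f g d w X Y Ψ ω B hL hLK hH hEx hb0 hb
          (hQn.trans hqb) hG hgf hw hK hB0 h1
        intro w' hw'
        refine SQ_mono (h3 w' hw') ?_
        refine mul_le_mul_of_nonneg_right ?_ hB0
        exact pow_le_pow_left₀ hQn0 hQn 2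
      refine h2 ?_
      have e1 : Matrix.of (fun x y => SS ka H f d w Ψ ω x y) =
          Matrix.of (fun x y => ∑ r ∈ range (H f),
            (sb f r ω - (fun c h => ka {c} h) f (Function.update H f r) ω) *
              KM H f d w Ψ ω r x y) + ∑ g ∈ univ.erase f,
          Matrix.of (fun x y => SS ka H g (dn f g d) (wn f w) (Psn ka H f g d w Ψ) ω x y) := by
        ext x y
        rw [Matrix.add_apply, Matrix.sum_apply]
        simp only [Matrix.of_apply]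
        exact hRid m L K lam bs u Z W ka H f d w X Y Ψ ω hH hEx hB hZ hG x y
      rw [e1]
      refine NB_mono (NB_add hA (NB_sum _ hA')) ?_
      have hcard : ((univ.erase f : Finset (Fin (m + 1))).card : ℝ) = m := by
        rw [card_erase_of_mem (mem_univ f), card_univ, Fintype.card_fin]
        simp
      rw [hcard]
      have hP : 0 ≤ (L : ℝ) ^ ε * B := mul_nonneg hLe hB0
      have hR : 0 ≤ T0 K ^ e * L * Q ^ (2 * (k + 1)) * B := by positivity
      have e2 : C * ((L : ℝ) ^ ε + T0 K ^ e * L * Q ^ (2 * k)) * (Q ^ 2 * B) =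
          C * (Q ^ 2 * ((L : ℝ) ^ ε * B) + T0 K ^ e * L * Q ^ (2 * (k + 1)) * B) := by ring
      rw [e2]
      have hQ2 : Q ^ 2 * ((L : ℝ) ^ ε * B) ≤ 1 * ((L : ℝ) ^ ε * B) :=
        mul_le_mul_of_nonneg_right (pow_le_one₀ hQ0 hqb) hP
      have h5 : C * (Q ^ 2 * ((L : ℝ) ^ ε * B) + T0 K ^ e * L * Q ^ (2 * (k + 1)) * B) ≤
          C * ((L : ℝ) ^ ε * B + T0 K ^ e * L * Q ^ (2 * (k + 1)) * B) :=
        mul_le_mul_of_nonneg_left (by linarith) (by linarith)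
      have h6 : 0 ≤ C * ((L : ℝ) ^ ε * B + T0 K ^ e * L * Q ^ (2 * (k + 1)) * B) := by positivity
      have h7 : (m : ℝ) ^ 2 * (C * (Q ^ 2 * ((L : ℝ) ^ ε * B) +
          T0 K ^ e * L * Q ^ (2 * (k + 1)) * B)) ≤
          (m : ℝ) ^ 2 * (C * ((L : ℝ) ^ ε * B + T0 K ^ e * L * Q ^ (2 * (k + 1)) * B)) :=
        mul_le_mul_of_nonneg_left h5 (by positivity)
      have h8 : 0 ≤ (m : ℝ) * (C * ((L : ℝ) ^ ε * B + T0 K ^ e * L * Q ^ (2 * (k + 1)) * B)) := by
        positivity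
      have h9 : 0 ≤ Cf * (T0 K ^ e * L * Q ^ (2 * (k + 1)) * B) := by positivity
      calc 2 * (Cf * (L : ℝ) ^ ε * B + (m : ℝ) ^ 2 * (C * (Q ^ 2 * ((L : ℝ) ^ ε * B) +
            T0 K ^ e * L * Q ^ (2 * (k + 1)) * B)))
          ≤ 2 * (Cf * (L : ℝ) ^ ε * B + Cf * (T0 K ^ e * L * Q ^ (2 * (k + 1)) * B) +
            ((m : ℝ) ^ 2 * (C * ((L : ℝ) ^ ε * B + T0 K ^ e * L * Q ^ (2 * (k + 1)) * B)) +
            (m : ℝ) * (C * ((L : ℝ) ^ ε * B + T0 K ^ e * L * Q ^ (2 * (k + 1)) * B)))) := by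
            linarith
        _ = (2 * Cf + 2 * ((m : ℝ) ^ 2 + m) * C) *
            ((L : ℝ) ^ ε + T0 K ^ e * L * Q ^ (2 * (k + 1))) * B := by ring
    refine key.trans ?_
    have hf1 := hf m L X Y (Gk K bs ka) (fun c h => ka {c} h) Z H f B
      (fun r x y ω => KM H f d w Ψ ω r x y) hL hB hH hX hY hB0
      (fun r hr x y => hk2 r hr.le x y)
    have hg1 : ∀ g ∈ univ.erase f, PP (Gk K bs ka) Z H (fun ω =>
          KN K H g (dn f g d) (Q ^ 2 * B) (Psn ka H f g d w Ψ) ω ∧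
          ¬ NB (Matrix.of (fun x y => SS ka H g (dn f g d) (wn f w) (Psn ka H f g d w Ψ) ω x y))
            (C * ((L : ℝ) ^ ε + T0 K ^ e * L * Q ^ (2 * k)) * (Q ^ 2 * B))) ≤
          C / (L + 1) ^ n := by
      intro g hg
      exact ih L K lam b (Q ^ 2 * B) bs u Z W ka H g (dn f g d) (wn f w) X Y
        (Psn ka H f g d w Ψ) hL hLK hH hEx hB hZ hb0 hb hqb hX hY hwn
        (hk1 g (ne_of_mem_erase hg)) (by positivity)
    have hg2 := sum_le_sum hg1
    rw [sum_const, nsmul_eq_mul] at hg2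
    have hcard : ((univ.erase f : Finset (Fin (m + 1))).card : ℝ) = m := by
      rw [card_erase_of_mem (mem_univ f), card_univ, Fintype.card_fin]
      simp
    rw [hcard] at hg2
    refine (add_le_add hf1 hg2).trans ?_
    rw [← mul_div_assoc, ← add_div]
    refine div_le_div_of_nonneg_right ?_ hLn.le
    have h1 : 0 ≤ (m : ℝ) ^ 2 * C := by positivity
    have h2 : 0 ≤ (m : ℝ) * C := by positivity
    nlinarith

end Rec21

open Rec21 in
theorem rec_21 (hF : StFresh) (hRid : StRid) (hRk : StRker) (hRn : StRnrm) (hRc : StRcr) :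
    StRec := by
  intro m n n0 D ε hε
  obtain ⟨q, e, hq, h⟩ := rec_aux hF hRid hRk hRn hRc m n D ε hε
  obtain ⟨C, hC, h⟩ := h n0
  refine ⟨max (2 * C) q, e, le_trans hq (le_max_right _ _), ?_⟩
  intro L K lam b B bs u Z W ka H f d w X Y _ _ _ _ Ψ hL hLK hH hEx hB hZ hb0 hb hqb hLb hX hY hw
    hK hB0
  have hT1 := T0_one K
  have hTe : 1 ≤ T0 K ^ e := one_le_pow₀ hT1
  have hb00 : 0 ≤ b := (hb0 0).trans (hb 0)
  have hL1 : (1 : ℝ) ≤ L := by exact_mod_cast hL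
  have hLe : 1 ≤ (L : ℝ) ^ ε := Real.one_le_rpow hL1 hε.le
  have hLn : (0 : ℝ) < ((L : ℝ) + 1) ^ n := by positivity
  have hM : q ≤ max (2 * C) q := le_max_right _ _
  have hMC : 2 * C ≤ max (2 * C) q := le_max_left _ _
  set M := max (2 * C) q with hMdef
  have hM1 : 1 ≤ M := hq.trans hM
  have hQ : q * T0 K ^ e * b ≤ M * T0 K ^ e * b := by
    refine mul_le_mul_of_nonneg_right (mul_le_mul_of_nonneg_right hM (by positivity)) hb00
  have hQ0 : 0 ≤ q * T0 K ^ e * b := by positivity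
  have hQ1 : q * T0 K ^ e * b ≤ 1 := hQ.trans hqb
  have h1 := h L K lam b B bs u Z W ka H f d w X Y Ψ hL hLK hH hEx hB hZ hb0 hb hQ1 hX hY hw hK
    hB0
  have hZ0 : ∀ ω, Gl (Gk K bs ka) H ω → 0 ≤ Z H ω :=
    (pathlaw_23 m L (Gk K bs ka) (fun c h => ka {c} h) Z H f hB hH).2.2.2.2
  refine (PP_mono hZ0 ?_).trans (h1.trans ?_)
  · rintro ω hG ⟨h2, h3⟩
    refine ⟨h2, fun h4 => h3 (NB_mono h4 ?_)⟩
    refine mul_le_mul_of_nonneg_right ?_ hB0
    have h5 : T0 K ^ e * L * (q * T0 K ^ e * b) ^ (2 * n0) ≤ 1 := by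
      calc T0 K ^ e * L * (q * T0 K ^ e * b) ^ (2 * n0)
          ≤ T0 K ^ e * L * (M * T0 K ^ e * b) ^ n0 := by
            refine mul_le_mul_of_nonneg_left ?_ (by positivity)
            calc (q * T0 K ^ e * b) ^ (2 * n0) ≤ (q * T0 K ^ e * b) ^ n0 :=
                  pow_le_pow_of_le_one hQ0 hQ1 (by omega)
              _ ≤ (M * T0 K ^ e * b) ^ n0 := pow_le_pow_left₀ hQ0 hQ _
        _ ≤ M * T0 K ^ e * L * (M * T0 K ^ e * b) ^ n0 := by
            refine mul_le_mul_of_nonneg_right ?_ (by positivity)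
            refine mul_le_mul_of_nonneg_right ?_ (by linarith)
            nlinarith
        _ ≤ 1 := hLb
    calc C * ((L : ℝ) ^ ε + T0 K ^ e * L * (q * T0 K ^ e * b) ^ (2 * n0))
        ≤ C * ((L : ℝ) ^ ε + (L : ℝ) ^ ε) :=
          mul_le_mul_of_nonneg_left (by linarith) (by linarith)
      _ = 2 * C * (L : ℝ) ^ ε := by ring
      _ ≤ M * (L : ℝ) ^ ε := mul_le_mul_of_nonneg_right hMC (by linarith)
  · refine div_le_div_of_nonneg_right ?_ hLn.le
    linarith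

end Pool.Agent.SHXA
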