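import Pool.Agent.Lib.MP_a7b2aa_an.SHX.StmtsL21
import Pool.Agent.Lib.MP_a7b2aa_an.SHX.Rec21

/-!
# SHX, RECL: sums of kernels against centred signs, polylogarithmic version (seat 21)

Induction on the number of steps of the chain; the bounds contract, the probabilities grow by the
factor `m + 1` in each step.
-/

set_option autoImplicit false

namespace Pool.Agent.SHXA

open Finset Pool.Agent.SB3 Pool.Agent.SBT Pool.Agent.SBD Pool.Agent.SHD Pool.Agent.SHX

namespace Rec21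

/-- the statement of `k` steps, bounds with the remainder -/
def StpL (m n D k : ℕ) (q : ℝ) (e : ℕ) (Cf : ℝ) : Prop :=
  ∀ (L K : ℕ) (lam b B : ℝ) (bs : ℕ → ℝ) (u Z W : (Fin (m + 1) → ℕ) → Pt m L → ℝ)
    (ka : Finset (Fin (m + 1)) → (Fin (m + 1) → ℕ) → Pt m L → ℝ) (H : Fin (m + 1) → ℕ)
    (f : Fin (m + 1)) (d : Fin (m + 1) → ℕ) (w : Fin (m + 1) → Finset ℕ) (X Y : Type)
    [Fintype X] [Fintype Y] [DecidableEq X] [DecidableEq Y]
    (Ψ : X → Y → (Fin (m + 1) → ℕ) → Pt m L → ℝ), 1 ≤ L → L < 2 ^ K → (∀ a, H a ≤ L) →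
    Exact lam u Z ka W → Bay (Gk K bs ka) (fun c h => ka {c} h) Z →
    (∀ h ω, (∀ a, h a ≤ L) → Gd (Gk K bs ka) h ω → 0 < Z h ω) →
    (∀ j, 0 ≤ bs j) → (∀ j, bs j ≤ b) → 4 * ((m : ℝ) + 1) * (q * T0 K ^ e * b) ≤ 1 →
    Fintype.card X ≤ (L + 1) ^ D → Fintype.card Y ≤ (L + 1) ^ D → (∀ a, w a ⊆ range K) →
    Ker H f d Ψ → 0 ≤ B →
    PP (Gk K bs ka) Z H (fun ω => KN K H f d B Ψ ω ∧
      ¬ NB (Matrix.of (fun x y => SS ka H f d w Ψ ω x y))
        ((4 * Cf * T0 K + (1 / 2) ^ k * (q * T0 K ^ e * L)) * B)) ≤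
      Cf * ((m : ℝ) + 1) ^ k / (L + 1) ^ n

theorem recL_aux (hF : StFreshL) (hRid : StRid) (hRk : StRker) (hRn : StRnrm) (hRc : StRcr)
    (m : ℕ) : ∃ (q : ℝ) (e : ℕ), 1 ≤ q ∧ ∀ n D : ℕ, ∃ Cf : ℝ, 1 ≤ Cf ∧
      ∀ k : ℕ, StpL m n D k q e Cf := by
  obtain ⟨Cn, en, hCn, hn⟩ := hRn m
  obtain ⟨Cc, ec, hCc, hc⟩ := hRc m
  refine ⟨max Cn Cc, max en ec, hCn.trans (le_max_left _ _), fun n D => ?_⟩
  obtain ⟨Cf, hCf, hf⟩ := hF n D
  refine ⟨Cf, hCf, ?_⟩
  set q := max Cn Cc with hq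
  set e := max en ec with he
  have hq1 : 1 ≤ q := hCn.trans (le_max_left _ _)
  have hTn : ∀ K, T0 K ^ en ≤ T0 K ^ e := fun K => pow_le_pow_right₀ (T0_one K) (le_max_left _ _)
  have hTc : ∀ K, T0 K ^ ec ≤ T0 K ^ e := fun K => pow_le_pow_right₀ (T0_one K) (le_max_right _ _)
  have hm0 : (0 : ℝ) ≤ m := Nat.cast_nonneg m
  intro k
  induction k with
  | zero =>
    intro L K lam b B bs u Z W ka H f d w X Y _ _ _ _ Ψ hL hLK hH hEx hB hZ hb0 hb hqb hX hY hw
      hK hB0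
    have hT1 := T0_one K
    have hTe : 1 ≤ T0 K ^ e := one_le_pow₀ hT1
    have hb00 : 0 ≤ b := (hb0 0).trans (hb 0)
    have hb1 : b ≤ 1 := by
      refine le_trans ?_ hqb
      have h1 : 1 ≤ q * T0 K ^ e := by nlinarith
      have h2 : b ≤ q * T0 K ^ e * b := le_mul_of_one_le_left hb00 h1
      have h3 : 0 ≤ q * T0 K ^ e * b := by positivity
      nlinarith
    rw [PP_zero]
    · positivity
    · rintro ω hG ⟨h1, h2⟩
      refine h2 ?_
      refine NB_mono (hc L K lam b bs u Z W ka H f d w X Y Ψ ω B hL hLK hH hEx hb0 hb hb1 hG hw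
        hK hB0 h1) ?_
      have hL1 : (1 : ℝ) ≤ L := by exact_mod_cast hL
      rw [pow_zero, one_mul]
      refine mul_le_mul_of_nonneg_right ?_ hB0
      have h4 : Cc * T0 K ^ ec * (L : ℝ) ≤ q * T0 K ^ e * L := by
        have h5 : Cc * T0 K ^ ec ≤ q * T0 K ^ e :=
          mul_le_mul (le_max_right _ _) (hTc K) (by positivity) (by linarith)
        exact mul_le_mul_of_nonneg_right h5 (by linarith)
      have h6 : 0 ≤ 4 * Cf * T0 K := by positivity
      linarith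
  | succ k ih =>
    intro L K lam b B bs u Z W ka H f d w X Y _ _ _ _ Ψ hL hLK hH hEx hB hZ hb0 hb hqb hX hY hw
      hK hB0
    have hT1 := T0_one K
    have hT00 : 0 ≤ T0 K := by linarith
    have hTe : 1 ≤ T0 K ^ e := one_le_pow₀ hT1
    have hb00 : 0 ≤ b := (hb0 0).trans (hb 0)
    have hL1 : (1 : ℝ) ≤ L := by exact_mod_cast hL
    have hLn : (0 : ℝ) < ((L : ℝ) + 1) ^ n := by positivity
    set Q := q * T0 K ^ e * b with hQ
    have hQ0 : 0 ≤ Q := by positivity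
    have hQ1 : Q ≤ 1 := by nlinarith [mul_nonneg hm0 hQ0]
    have hQn : Cn * T0 K ^ en * b ≤ Q := by
      refine mul_le_mul_of_nonneg_right ?_ hb00
      exact mul_le_mul (le_max_left _ _) (hTn K) (by positivity) (by linarith)
    have hQn0 : 0 ≤ Cn * T0 K ^ en * b := by positivity
    have hmQ : 2 * ((m : ℝ) ^ 2 * Q ^ 2) ≤ 1 / 2 := by
      have h1 : (m : ℝ) * Q ≤ 1 / 4 := by nlinarith
      have h2 : 0 ≤ (m : ℝ) * Q := mul_nonneg hm0 hQ0
      nlinarith
    have hZ0 : ∀ ω, Gl (Gk K bs ka) H ω → 0 ≤ Z H ω :=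
      (pathlaw_23 m L (Gk K bs ka) (fun c h => ka {c} h) Z H f hB hH).2.2.2.2
    obtain ⟨hk1, hk2⟩ := hRk m L lam u Z W ka H f d w X Y Ψ hEx hK
    have hwn : ∀ a, wn f w a ⊆ range K := by
      intro a
      unfold wn
      split_ifs
      · exact empty_subset _
      · exact hw a
    set Rk : ℝ := 4 * Cf * T0 K + (1 / 2) ^ k * (q * T0 K ^ e * L) with hRkd
    have hRk0 : 0 ≤ Rk := by positivity
    -- the events
    have key : PP (Gk K bs ka) Z H (fun ω => KN K H f d B Ψ ω ∧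
        ¬ NB (Matrix.of (fun x y => SS ka H f d w Ψ ω x y))
          ((4 * Cf * T0 K + (1 / 2) ^ (k + 1) * (q * T0 K ^ e * L)) * B)) ≤
        PP (Gk K bs ka) Z H (fun ω => SQ (H f) B (fun r x y => KM H f d w Ψ ω r x y) ∧
          ¬ NB (Matrix.of (fun x y => ∑ r ∈ range (H f),
            (sb f r ω - (fun c h => ka {c} h) f (Function.update H f r) ω) *
              KM H f d w Ψ ω r x y)) (Cf * T0 K * B)) +
        ∑ g ∈ univ.erase f, PP (Gk K bs ka) Z H (fun ω =>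
          KN K H g (dn f g d) (Q ^ 2 * B) (Psn ka H f g d w Ψ) ω ∧
          ¬ NB (Matrix.of (fun x y => SS ka H g (dn f g d) (wn f w) (Psn ka H f g d w Ψ) ω x y))
            (Rk * (Q ^ 2 * B))) := by
      refine PP_union hZ0 _ _ _ _ ?_
      rintro ω hG ⟨h1, h2⟩
      by_contra hcon
      rw [not_or] at hcon
      obtain ⟨hc1, hc2⟩ := hcon
      have hA : NB (Matrix.of (fun x y => ∑ r ∈ range (H f),
            (sb f r ω - (fun c h => ka {c} h) f (Function.update H f r) ω) *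
              KM H f d w Ψ ω r x y)) (Cf * T0 K * B) := by
        by_contra h
        exact hc1 ⟨h1 w hw, h⟩
      have hA' : ∀ g ∈ univ.erase f,
          NB (Matrix.of (fun x y => SS ka H g (dn f g d) (wn f w) (Psn ka H f g d w Ψ) ω x y))
            (Rk * (Q ^ 2 * B)) := by
        intro g hg
        by_contra h
        refine hc2 ⟨g, hg, ?_, h⟩
        have hgf : g ≠ f := ne_of_mem_erase hg
        have h3 := hn L K lam b bs u Z W ka H f g d w X Y Ψ ω B hL hLK hH hEx hb0 hb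
          (hQn.trans hQ1) hG hgf hw hK hB0 h1
        intro w' hw'
        refine SQ_mono (h3 w' hw') ?_
        refine mul_le_mul_of_nonneg_right ?_ hB0
        exact pow_le_pow_left₀ hQn0 hQn 2
      refine h2 ?_
      have e1 : Matrix.of (fun x y => SS ka H f d w Ψ ω x y) =
          Matrix.of (fun x y => ∑ r ∈ range (H f),
            (sb f r ω - (fun c h => ka {c} h) f (Function.update H f r) ω) *
              KM H f d w Ψ ω r x y) + ∑ g ∈ univ.erase f,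
          Matrix.of (fun x y => SS ka H g (dn f g d) (wn f w) (Psn ka H f g d w Ψ) ω x y) := by
        ext x y
        rw [Matrix.add_apply, Matrix.sum_apply]
        simp only [Matrix.of_apply]
        exact hRid m L K lam bs u Z W ka H f d w X Y Ψ ω hH hEx hB hZ hG x y
      rw [e1]
      refine NB_mono (NB_add hA (NB_sum _ hA')) ?_
      have hcard : ((univ.erase f : Finset (Fin (m + 1))).card : ℝ) = m := by
        rw [card_erase_of_mem (mem_univ f), card_univ, Fintype.card_fin]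
        simp
      rw [hcard]
      have hP : 0 ≤ Rk * B := mul_nonneg hRk0 hB0
      have h5 : 2 * ((m : ℝ) ^ 2 * Q ^ 2) * (Rk * B) ≤ 1 / 2 * (Rk * B) :=
        mul_le_mul_of_nonneg_right hmQ hP
      calc 2 * (Cf * T0 K * B + (m : ℝ) ^ 2 * (Rk * (Q ^ 2 * B)))
          = 2 * Cf * T0 K * B + 2 * ((m : ℝ) ^ 2 * Q ^ 2) * (Rk * B) := by ring
        _ ≤ 2 * Cf * T0 K * B + 1 / 2 * (Rk * B) := by linarith
        _ = (4 * Cf * T0 K + (1 / 2) ^ (k + 1) * (q * T0 K ^ e * L)) * B := by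
          rw [hRkd, pow_succ]
          ring
    refine key.trans ?_
    have hf1 := hf m L K X Y (Gk K bs ka) (fun c h => ka {c} h) Z H f B
      (fun r x y ω => KM H f d w Ψ ω r x y) hL hLK hB hH hX hY hB0
      (fun r hr x y => hk2 r hr.le x y)
    have hg1 : ∀ g ∈ univ.erase f, PP (Gk K bs ka) Z H (fun ω =>
          KN K H g (dn f g d) (Q ^ 2 * B) (Psn ka H f g d w Ψ) ω ∧
          ¬ NB (Matrix.of (fun x y => SS ka H g (dn f g d) (wn f w) (Psn ka H f g d w Ψ) ω x y))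
            (Rk * (Q ^ 2 * B))) ≤
          Cf * ((m : ℝ) + 1) ^ k / (L + 1) ^ n := by
      intro g hg
      exact ih L K lam b (Q ^ 2 * B) bs u Z W ka H g (dn f g d) (wn f w) X Y
        (Psn ka H f g d w Ψ) hL hLK hH hEx hB hZ hb0 hb hqb hX hY hwn
        (hk1 g (ne_of_mem_erase hg)) (by positivity)
    have hg2 := sum_le_sum hg1
    rw [sum_const, nsmul_eq_mul] at hg2
    have hcard : ((univ.erase f : Finset (Fin (m + 1))).card : ℝ) = m := by
      rw [card_erase_of_mem (mem_univ f), card_univ, Fintype.card_fin]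
      simp
    rw [hcard] at hg2
    refine (add_le_add hf1 hg2).trans ?_
    rw [← mul_div_assoc, ← add_div]
    refine div_le_div_of_nonneg_right ?_ hLn.le
    have h1 : (1 : ℝ) ≤ ((m : ℝ) + 1) ^ k := one_le_pow₀ (by linarith)
    have h2 : Cf ≤ Cf * ((m : ℝ) + 1) ^ k := le_mul_of_one_le_right (by linarith) h1
    calc Cf + (m : ℝ) * (Cf * ((m : ℝ) + 1) ^ k)
        ≤ Cf * ((m : ℝ) + 1) ^ k + (m : ℝ) * (Cf * ((m : ℝ) + 1) ^ k) := by linarith
      _ = Cf * ((m : ℝ) + 1) ^ (k + 1) := by ring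

end Rec21

open Rec21 in
theorem recL_21 (hF : StFreshL) (hRid : StRid) (hRk : StRker) (hRn : StRnrm) (hRc : StRcr) :
    StRecL := by
  intro m
  obtain ⟨q, e, hq, h⟩ := recL_aux hF hRid hRk hRn hRc m
  refine ⟨e + 1, fun n D => ?_⟩
  obtain ⟨Cf, hCf, h⟩ := h (n + m) D
  have hm0 : (0 : ℝ) ≤ m := Nat.cast_nonneg m
  set M : ℝ := 4 * ((m : ℝ) + 1) * q + 4 * Cf + q + Cf * 2 ^ m with hM
  have h2m : (1 : ℝ) ≤ 2 ^ m := one_le_pow₀ (by norm_num)
  have hq4 : 4 * ((m : ℝ) + 1) * q ≤ M := by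
    have : 0 ≤ Cf * 2 ^ m := by positivity
    linarith
  have hM1 : 1 ≤ M := by
    have : 0 ≤ Cf * 2 ^ m := by positivity
    have : 0 ≤ 4 * ((m : ℝ) + 1) * q := by positivity
    linarith
  refine ⟨M, hM1, ?_⟩
  intro L K lam b B bs u Z W ka H f d w X Y _ _ _ _ Ψ hL hLK hKL hH hEx hB hZ hb0 hb hqb hX hY hw
    hK hB0
  have hT1 := T0_one K
  have hT0 : 0 ≤ T0 K := by linarith
  have hTe : 1 ≤ T0 K ^ e := one_le_pow₀ hT1
  have hTe1 : T0 K ^ e ≤ T0 K ^ (e + 1) := pow_le_pow_right₀ hT1 (Nat.le_succ e)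
  have hT1e : T0 K ≤ T0 K ^ (e + 1) := by
    rw [pow_succ]
    exact le_mul_of_one_le_left hT0 hTe
  have hb00 : 0 ≤ b := (hb0 0).trans (hb 0)
  have hL1 : (1 : ℝ) ≤ L := by exact_mod_cast hL
  have hLn : (0 : ℝ) < ((L : ℝ) + 1) ^ n := by positivity
  have hQ : 4 * ((m : ℝ) + 1) * (q * T0 K ^ e * b) ≤ 1 := by
    refine le_trans ?_ hqb
    calc 4 * ((m : ℝ) + 1) * (q * T0 K ^ e * b) = 4 * ((m : ℝ) + 1) * q * T0 K ^ e * b := by ring
      _ ≤ M * T0 K ^ (e + 1) * b := by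
        refine mul_le_mul_of_nonneg_right ?_ hb00
        exact mul_le_mul hq4 hTe1 (by positivity) (by linarith)
  have h1 := h K L K lam b B bs u Z W ka H f d w X Y Ψ hL hLK hH hEx hB hZ hb0 hb hQ hX hY hw hK
    hB0
  have hZ0 : ∀ ω, Gl (Gk K bs ka) H ω → 0 ≤ Z H ω :=
    (pathlaw_23 m L (Gk K bs ka) (fun c h => ka {c} h) Z H f hB hH).2.2.2.2
  refine (PP_mono hZ0 ?_).trans (h1.trans ?_)
  · rintro ω hG ⟨h2, h3⟩
    refine ⟨h2, fun h4 => h3 (NB_mono h4 ?_)⟩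
    refine mul_le_mul_of_nonneg_right ?_ hB0
    have h5 : (1 / 2 : ℝ) ^ K * L ≤ 1 := by
      have h6 : (L : ℝ) ≤ 2 ^ K := by exact_mod_cast hLK.le
      calc (1 / 2 : ℝ) ^ K * L ≤ (1 / 2 : ℝ) ^ K * 2 ^ K :=
            mul_le_mul_of_nonneg_left h6 (by positivity)
        _ = 1 := by
          rw [← mul_pow]
          norm_num
    have h7 : (1 / 2 : ℝ) ^ K * (q * T0 K ^ e * L) ≤ q * T0 K ^ (e + 1) := by
      calc (1 / 2 : ℝ) ^ K * (q * T0 K ^ e * L) = q * T0 K ^ e * ((1 / 2 : ℝ) ^ K * L) := by ring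
        _ ≤ q * T0 K ^ e * 1 := mul_le_mul_of_nonneg_left h5 (by positivity)
        _ = q * T0 K ^ e := mul_one _
        _ ≤ q * T0 K ^ (e + 1) := mul_le_mul_of_nonneg_left hTe1 (by linarith)
    have h8 : 4 * Cf * T0 K ≤ 4 * Cf * T0 K ^ (e + 1) :=
      mul_le_mul_of_nonneg_left hT1e (by positivity)
    have h9 : (4 * Cf + q) * T0 K ^ (e + 1) ≤ M * T0 K ^ (e + 1) := by
      refine mul_le_mul_of_nonneg_right ?_ (by positivity)
      have : 0 ≤ Cf * 2 ^ m := by positivity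
      have : 0 ≤ 4 * ((m : ℝ) + 1) * q := by positivity
      linarith
    calc 4 * Cf * T0 K + (1 / 2) ^ K * (q * T0 K ^ e * L)
        ≤ 4 * Cf * T0 K ^ (e + 1) + q * T0 K ^ (e + 1) := add_le_add h8 h7
      _ = (4 * Cf + q) * T0 K ^ (e + 1) := by ring
      _ ≤ _ := h9
  · -- the number of events
    have h2 : ((m : ℝ) + 1) ^ K ≤ 2 ^ m * ((L : ℝ) + 1) ^ m := by
      have h3 : (m : ℝ) + 1 ≤ 2 ^ m := by
        have := Nat.lt_two_pow_self (n := m)
        exact_mod_cast this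
      have h4 : (2 : ℝ) ^ K ≤ 2 * ((L : ℝ) + 1) := by exact_mod_cast hKL
      calc ((m : ℝ) + 1) ^ K ≤ (2 ^ m) ^ K := pow_le_pow_left₀ (by positivity) h3 K
        _ = (2 ^ K) ^ m := by rw [← pow_mul, ← pow_mul, mul_comm]
        _ ≤ (2 * ((L : ℝ) + 1)) ^ m := pow_le_pow_left₀ (by positivity) h4 m
        _ = 2 ^ m * ((L : ℝ) + 1) ^ m := mul_pow _ _ _
    calc Cf * ((m : ℝ) + 1) ^ K / ((L : ℝ) + 1) ^ (n + m)
        ≤ Cf * (2 ^ m * ((L : ℝ) + 1) ^ m) / ((L : ℝ) + 1) ^ (n + m) := by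
          refine div_le_div_of_nonneg_right ?_ (by positivity)
          exact mul_le_mul_of_nonneg_left h2 (by linarith)
      _ = Cf * 2 ^ m / ((L : ℝ) + 1) ^ n := by
          rw [pow_add]
          field_simp
      _ ≤ M / ((L : ℝ) + 1) ^ n := by
          refine div_le_div_of_nonneg_right ?_ hLn.le
          have : 0 ≤ 4 * ((m : ℝ) + 1) * q := by positivity
          linarith

end Pool.Agent.SHXA
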