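import Pool.Agent.Lib.MP_a7b2aa_an.SHX.StmtsX65

/-!
SHX, track ALL, module RID (helper71): the chain step, identity.
-/

set_option autoImplicit false

namespace Pool.Agent.SHXA

open Finset Pool.Agent.SB3 Pool.Agent.SBT Pool.Agent.SBD Pool.Agent.SHD Pool.Agent.SHX
open Pool.Agent.Lib.MP_a7b2aa_an.SHX

/-- membership in the box -/
theorem mem_bx71 {m : ℕ} (H : Fin (m + 1) → ℕ) (Q : Finset (Fin (m + 1)))
    (c l : Fin (m + 1) → ℕ) : l ∈ bx H Q c ↔ ∀ a, if a ∈ Q then l a ≤ H a else l a = c a := by
  unfold bx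
  rw [Fintype.mem_piFinset]
  refine forall_congr' fun a => ?_
  split_ifs with h
  · rw [mem_range]; omega
  · rw [mem_singleton]

/-- `Ph` depends only on the strings outside `Q` -/
theorem ph_off71 {m : ℕ} (H d : Fin (m + 1) → ℕ) (w : Fin (m + 1) → Finset ℕ)
    (Q : Finset (Fin (m + 1))) (F : (Fin (m + 1) → ℕ) → ℝ) (c c' : Fin (m + 1) → ℕ)
    (h : ∀ a, a ∉ Q → c a = c' a) : Ph H d w Q F c = Ph H d w Q F c' := by
  unfold Ph
  have : bx H Q c = bx H Q c' := by
    ext l
    rw [mem_bx71, mem_bx71]
    refine forall_congr' fun a => ?_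
    by_cases ha : a ∈ Q
    · simp [ha]
    · simp [ha, h a ha]
  rw [this]

/-- top strings -/
theorem ph_top71 {m : ℕ} (hP : PhF m) (H d : Fin (m + 1) → ℕ) (w : Fin (m + 1) → Finset ℕ)
    (F : (Fin (m + 1) → ℕ) → ℝ) (Q : Finset (Fin (m + 1))) : (∀ j ∈ Q, d j = 2) →
    ∀ c : Fin (m + 1) → ℕ, Ph H d w Q F c = F (fun j => if j ∈ Q then H j else c j) := by
  classical
  induction Q using Finset.induction with
  | empty =>
    intro _ c
    rw [hP.empty]
    simp
  | insert j Q hj ih =>
    intro hd c
    rw [hP.ins _ _ _ _ _ _ _ hj]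
    have hdj : d j = 2 := hd j (mem_insert_self _ _)
    have ih' := ih (fun a ha => hd a (mem_insert_of_mem ha))
    unfold Fu wt
    rw [hdj]
    simp only [OfNat.ofNat_ne_zero, OfNat.ofNat_ne_one, if_false, ite_mul, one_mul, zero_mul]
    rw [Finset.sum_ite_eq' (range (H j + 1)) (H j), if_pos (by simp), ih']
    congr 1
    funext a
    by_cases ha : a = j
    · subst ha
      simp [hj]
    · by_cases haQ : a ∈ Q
      · simp [haQ]
      · simp [haQ, ha]

/-- telescoping over the strings -/
theorem tele71 {m : ℕ} (H : Fin (m + 1) → ℕ) (f : Fin (m + 1)) (b : (Fin (m + 1) → ℕ) → ℝ)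
    (c : Fin (m + 1) → ℕ) :
    b (Function.update H f (c f)) - b c =
      ∑ g ∈ univ.erase f, (b (Function.update (rs H f g c) g (H g)) - b (rs H f g c)) := by
  classical
  set T : ℕ → (Fin (m + 1) → ℕ) := fun n j => if (j : ℕ) < n ∧ j ≠ f then H j else c j with hT
  have h0 : T 0 = c := by funext j; simp [hT]
  have h1 : T (m + 1) = Function.update H f (c f) := by
    funext j
    by_cases hj : j = f
    · subst hj; simp [hT]
    · have := j.2
      simp [hT, hj, this]
  have hs : ∑ n ∈ range (m + 1), (b (T (n + 1)) - b (T n)) = b (T (m + 1)) - b (T 0) :=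
    Finset.sum_range_sub (fun n => b (T n)) (m + 1)
  rw [h0, h1] at hs
  rw [← hs, ← Fin.sum_univ_eq_sum_range (fun n => b (T (n + 1)) - b (T n)) (m + 1),
    ← Finset.add_sum_erase univ _ (mem_univ f)]
  have hf : b (T ((f : ℕ) + 1)) - b (T (f : ℕ)) = 0 := by
    have : T ((f : ℕ) + 1) = T (f : ℕ) := by
      funext j
      by_cases hj : j = f
      · subst hj; simp [hT]
      · have hne : (j : ℕ) ≠ (f : ℕ) := fun h => hj (Fin.ext h)
        have : ((j : ℕ) < (f : ℕ) + 1) ↔ ((j : ℕ) < (f : ℕ)) := by omega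
        simp [hT, this]
    rw [this, sub_self]
  rw [hf, zero_add]
  refine Finset.sum_congr rfl fun g hg => ?_
  have hgf : g ≠ f := (mem_erase.1 hg).1
  have e1 : T (g : ℕ) = rs H f g c := by
    funext j
    show (if (j : ℕ) < (g : ℕ) ∧ j ≠ f then H j else c j) = if j < g ∧ j ≠ f then H j else c j
    rfl
  have e2 : T ((g : ℕ) + 1) = Function.update (rs H f g c) g (H g) := by
    funext j
    by_cases hj : j = g
    · subst hj; simp [hT, hgf]
    · have hne : (j : ℕ) ≠ (g : ℕ) := fun h => hj (Fin.ext h)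
      have : ((j : ℕ) < (g : ℕ) + 1) ↔ (j < g) := by
        rw [Fin.lt_def]; omega
      rw [Function.update_of_ne hj]
      show (if (j : ℕ) < (g : ℕ) + 1 ∧ j ≠ f then H j else c j) =
        if j < g ∧ j ≠ f then H j else c j
      exact if_congr (and_congr_left' this) rfl rfl
  rw [e1, e2]

/-- the star formula for one string -/
theorem star71 {m L K : ℕ} {lam : ℝ} {bs : ℕ → ℝ} {u Z W : (Fin (m + 1) → ℕ) → Pt m L → ℝ}
    {ka : Finset (Fin (m + 1)) → (Fin (m + 1) → ℕ) → Pt m L → ℝ} {H : Fin (m + 1) → ℕ}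
    {ω : Pt m L} (hH : ∀ a, H a ≤ L) (hE : Exact lam u Z ka W)
    (hB : Bay (Gk K bs ka) (fun c h => ka {c} h) Z)
    (hZ : ∀ h ω, (∀ a, h a ≤ L) → Gd (Gk K bs ka) h ω → 0 < Z h ω)
    (hG : Gl (Gk K bs ka) H ω) (f g : Fin (m + 1)) (hfg : g ≠ f) (h : Fin (m + 1) → ℕ)
    (hle : ∀ a, h a ≤ H a) (hf : h f < H f) (hg : h g < H g) :
    ka {f} (Function.update h g (h g + 1)) ω - ka {f} h ω =
      ka {f, g} h ω * (1 / (1 - ka {g} h ω ^ 2)) * (sb g (h g) ω - ka {g} h ω) := by
  classical
  have hGd : Gd (Gk K bs ka) h ω := by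
    intro r hr
    refine hG r (fun a => (hr a).trans (hle a)) ?_
    intro he
    have h9 : r f ≤ h f := hr f
    rw [he] at h9
    omega
  have hL : ∀ a, h a ≤ L := fun a => (hle a).trans (hH a)
  have hpos := hZ h ω hL hGd
  have hab : |ka {g} h ω| ≤ 1 / 2 := hB.abs g h ω hL (lt_of_lt_of_le hg (hH g)) hGd
  have hst := hE.star {f} g h ω (singleton_nonempty f) (by simp [hfg]) hpos.ne'
    (by linarith)
  have hV : Vv (ka {g} h ω) (fun C => ka (insert g C) h ω) {f} = 0 := by
    unfold Vv
    refine Finset.sum_eq_zero fun C hC => ?_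
    exfalso
    rw [mem_filter, mem_powerset, Finset.subset_singleton_iff] at hC
    obtain ⟨h1, h2, h3⟩ := hC
    rcases h1 with h1 | h1
    · subst h1
      obtain ⟨y, hy, _⟩ := h2 f (mem_singleton_self f)
      simp at hy
    · exact h3 h1
  have hR : ∀ (z : ℝ) (gg : Finset (Fin (m + 1)) → ℝ), Rr z gg (({f} : Finset (Fin (m + 1))) \ {f}) = 1 := by
    intro z gg
    rw [sdiff_self]
    unfold Rr Rn
    simp
  have hK : Kk (ka {g} h ω) (fun C => ka (insert g C) h ω) {f} =
      ka {f, g} h ω * (1 / (1 - ka {g} h ω ^ 2)) := by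
    unfold Kk
    have hfil : ({f} : Finset (Fin (m + 1))).powerset.filter (fun C => hd C {f}) = {{f}} := by
      ext C
      rw [mem_filter, mem_powerset, Finset.subset_singleton_iff, mem_singleton]
      constructor
      · rintro ⟨h1, h2⟩
        rcases h1 with h1 | h1
        · subst h1
          obtain ⟨y, hy, _⟩ := h2 f (mem_singleton_self f)
          simp at hy
        · exact h1
      · rintro rfl
        exact ⟨Or.inr rfl, fun x hx => ⟨x, hx, le_refl _⟩⟩
    rw [hfil, sum_singleton, hR, hR]
    have e : insert g ({f} : Finset (Fin (m + 1))) = {f, g} := Finset.pair_comm g f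
    beta_reduce
    rw [e]
    have h1 := abs_le.1 hab
    have n1 : (1 : ℝ) + ka {g} h ω ≠ 0 := by linarith [h1.1]
    have n2 : (1 : ℝ) - ka {g} h ω ≠ 0 := by linarith [h1.2]
    have n3 : (1 : ℝ) - ka {g} h ω ^ 2 ≠ 0 := by
      have : (1 : ℝ) - ka {g} h ω ^ 2 = (1 + ka {g} h ω) * (1 - ka {g} h ω) := by ring
      rw [this]; exact mul_ne_zero n1 n2
    field_simp
    ring
  rw [hV, hK] at hst
  have hup : upc h g = Function.update h g (h g + 1) := rfl
  rw [hup] at hst
  linarith

/-- the factor of the step -/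
noncomputable def th71 {m L : ℕ} (ka : Finset (Fin (m + 1)) → (Fin (m + 1) → ℕ) → Pt m L → ℝ)
    (f g : Fin (m + 1)) (ω : Pt m L) (h : Fin (m + 1) → ℕ) : ℝ :=
  ka {f, g} h ω * (1 / (1 - ka {g} h ω ^ 2)) * (sb g (h g) ω - ka {g} h ω)

/-- one step: sum over the intermediate times -/
theorem inc71 {m L K : ℕ} {lam : ℝ} {bs : ℕ → ℝ} {u Z W : (Fin (m + 1) → ℕ) → Pt m L → ℝ}
    {ka : Finset (Fin (m + 1)) → (Fin (m + 1) → ℕ) → Pt m L → ℝ} {H : Fin (m + 1) → ℕ}
    {ω : Pt m L} (hH : ∀ a, H a ≤ L) (hE : Exact lam u Z ka W)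
    (hB : Bay (Gk K bs ka) (fun c h => ka {c} h) Z)
    (hZ : ∀ h ω, (∀ a, h a ≤ L) → Gd (Gk K bs ka) h ω → 0 < Z h ω)
    (hG : Gl (Gk K bs ka) H ω) (f g : Fin (m + 1)) (hfg : g ≠ f) (c : Fin (m + 1) → ℕ)
    (hle : ∀ a, c a ≤ H a) (hf : c f < H f) :
    ka {f} (Function.update (rs H f g c) g (H g)) ω - ka {f} (rs H f g c) ω =
      ∑ r ∈ range (H g), if c g ≤ r then th71 ka f g ω (Function.update (rs H f g c) g r)
        else 0 := by
  classical
  have hrg : rs H f g c g = c g := by simp [rs]
  have hrf : rs H f g c f = c f := by simp [rs]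
  have hrle : ∀ a, rs H f g c a ≤ H a := by
    intro a
    unfold rs
    split_ifs
    · exact le_refl _
    · exact hle a
  set B : ℕ → ℝ := fun r => ka {f} (Function.update (rs H f g c) g r) ω with hBd
  have e0 : ka {f} (rs H f g c) ω = B (c g) := by
    rw [hBd]
    show _ = ka {f} (Function.update (rs H f g c) g (c g)) ω
    rw [← hrg, Function.update_eq_self]
  have hstep : ∀ r < H g, B (r + 1) - B r =
      th71 ka f g ω (Function.update (rs H f g c) g r) := by
    intro r hr
    have h1 := star71 hH hE hB hZ hG f g hfg (Function.update (rs H f g c) g r)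
      (fun a => by
        by_cases ha : a = g
        · subst ha; rw [Function.update_self]; omega
        · rw [Function.update_of_ne ha]; exact hrle a)
      (by rw [Function.update_of_ne hfg.symm, hrf]; exact hf)
      (by rw [Function.update_self]; exact hr)
    rw [Function.update_self, Function.update_idem] at h1
    rw [hBd]
    show ka {f} (Function.update (rs H f g c) g (r + 1)) ω -
      ka {f} (Function.update (rs H f g c) g r) ω = _
    rw [h1]
    unfold th71
    rw [Function.update_self]
  rw [e0]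
  have key : ∀ n, c g ≤ n → n ≤ H g → B n - B (c g) =
      ∑ r ∈ range n, if c g ≤ r then th71 ka f g ω (Function.update (rs H f g c) g r)
        else 0 := by
    intro n hn
    induction n, hn using Nat.le_induction with
    | base =>
      intro _
      rw [sub_self]
      refine (Finset.sum_eq_zero fun r hr => ?_).symm
      rw [if_neg]
      have := mem_range.1 hr
      omega
    | succ n hn ih =>
      intro hn2
      rw [Finset.sum_range_succ, ← ih (by omega), if_pos hn, ← hstep n (by omega)]
      ring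
  exact key (H g) (hle g) (le_refl _)

/-- one cell -/
theorem cell71 {m L : ℕ} (hP : PhF m)
    (ka : Finset (Fin (m + 1)) → (Fin (m + 1) → ℕ) → Pt m L → ℝ) (H : Fin (m + 1) → ℕ)
    (f g : Fin (m + 1)) (hfg : g ≠ f) (d : Fin (m + 1) → ℕ) (w : Fin (m + 1) → Finset ℕ)
    {X Y : Type} (Ψ : X → Y → (Fin (m + 1) → ℕ) → Pt m L → ℝ) (ω : Pt m L) (x : X) (y : Y)
    (r r' : ℕ) (hr : r < H f) :
    Ph H (dn f g d) (wn f w) (univ.filter (fun j => g < j ∧ j ≠ f) ∪
        univ.filter (fun j => j < g ∧ j ≠ f))
      (fun c => Psn ka H f g d w Ψ x y c ω * (sb g (c g) ω - ka {g} c ω))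
      (Function.update (Function.update 0 g r') f r) =
    Ph H d w (univ.erase f)
      (fun l => th71 ka f g ω (Function.update (rs H f g l) g r') *
        (if l g ≤ r' then Ψ x y l ω else 0)) (Function.update 0 f r) := by
  classical
  set A : Finset (Fin (m + 1)) := univ.filter (fun j => j < g ∧ j ≠ f) with hA
  set Bh : Finset (Fin (m + 1)) := univ.filter (fun j => g < j ∧ j ≠ f) with hBh
  set C : Fin (m + 1) → ℕ := Function.update (Function.update 0 g r') f r with hC
  have memA : ∀ j, j ∈ A ↔ j < g ∧ j ≠ f := fun j => by simp [hA]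
  have memB : ∀ j, j ∈ Bh ↔ g < j ∧ j ≠ f := fun j => by simp [hBh]
  have hgA : g ∉ A := fun h => lt_irrefl g ((memA g).1 h).1
  have hgB : g ∉ Bh := fun h => lt_irrefl g ((memB g).1 h).1
  have hfA : f ∉ A := fun h => ((memA f).1 h).2 rfl
  have hfB : f ∉ Bh := fun h => ((memB f).1 h).2 rfl
  have hCf : C f = r := by rw [hC, Function.update_self]
  have hCg : C g = r' := by rw [hC, Function.update_of_ne hfg, Function.update_self]
  have hAB : Disjoint Bh A := by
    rw [Finset.disjoint_left]
    intro j hj hj'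
    exact lt_asymm ((memB j).1 hj).1 ((memA j).1 hj').1
  have hAB' : Disjoint Bh (insert g A) := by
    rw [Finset.disjoint_insert_right]
    exact ⟨hgB, hAB⟩
  have her : univ.erase f = Bh ∪ insert g A := by
    ext j
    rw [mem_erase, mem_union, mem_insert, memA, memB]
    constructor
    · rintro ⟨hj, _⟩
      rcases lt_trichotomy j g with h | h | h
      · exact Or.inr (Or.inr ⟨h, hj⟩)
      · exact Or.inr (Or.inl h)
      · exact Or.inl ⟨h, hj⟩
    · rintro (⟨_, hj⟩ | rfl | ⟨_, hj⟩)
      · exact ⟨hj, mem_univ _⟩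
      · exact ⟨hfg, mem_univ _⟩
      · exact ⟨hj, mem_univ _⟩
  have hrs : ∀ c : Fin (m + 1) → ℕ, (fun j => if j ∈ A then H j else c j) = rs H f g c := by
    intro c
    funext j
    unfold rs
    exact if_congr (memA j) rfl rfl
  -- the right hand side
  have hR : Ph H d w (univ.erase f)
      (fun l => th71 ka f g ω (Function.update (rs H f g l) g r') *
        (if l g ≤ r' then Ψ x y l ω else 0)) (Function.update 0 f r) =
      Ph H d w Bh (fun c => th71 ka f g ω (Function.update (rs H f g c) g r') *
        Ph H d w A (fun c' => Fu (H g) (d g) (w g)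
          (fun l => if l ≤ r' then Ψ x y (Function.update c' g l) ω else 0)) c) C := by
    rw [ph_off71 H d w (univ.erase f) _ (Function.update 0 f r) C (fun a ha => by
      have : a = f := by
        by_contra h
        exact ha (mem_erase.2 ⟨h, mem_univ _⟩)
      subst this
      rw [hCf, Function.update_self]), her, hP.union _ _ _ _ _ _ _ hAB']
    refine hP.cg _ _ _ _ _ _ _ fun c hc => ?_
    rw [hP.mul H d w (insert g A) (fun l => if l g ≤ r' then Ψ x y l ω else 0)
      (fun l => th71 ka f g ω (Function.update (rs H f g l) g r')) c (by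
        intro c2 j t hj
        have hj' : j ∈ insert g A := by
          by_contra h
          exact hj (mem_compl.2 h)
        have : Function.update (rs H f g (Function.update c2 j t)) g r' =
            Function.update (rs H f g c2) g r' := by
          funext a
          by_cases hag : a = g
          · subst hag; simp
          · rw [Function.update_of_ne hag, Function.update_of_ne hag]
            unfold rs
            by_cases haj : a = j
            · subst haj
              have haA : a < g ∧ a ≠ f := (memA a).1 ((mem_insert.1 hj').resolve_left hag)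
              rw [if_pos haA, if_pos haA]
            · rw [Function.update_of_ne haj]
        show th71 ka f g ω (Function.update (rs H f g (Function.update c2 j t)) g r') = _
        rw [this]), hP.ins' _ _ _ _ _ _ _ hgA]
    simp only [Function.update_self]
  rw [hR, hP.union _ _ _ _ _ _ _ hAB]
  have hL : Ph H (dn f g d) (wn f w) A
      (fun c => Psn ka H f g d w Ψ x y c ω * (sb g (c g) ω - ka {g} c ω)) =
      fun c => Psn ka H f g d w Ψ x y (rs H f g c) ω *
        (sb g ((rs H f g c) g) ω - ka {g} (rs H f g c) ω) := by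
    funext c
    rw [ph_top71 hP H (dn f g d) (wn f w) _ A (fun j hj => by
      obtain ⟨h1, h2⟩ := (memA j).1 hj
      unfold dn
      rw [if_neg h2, if_pos h1]) c, hrs c]
  rw [hL, hP.cgw H H (dn f g d) d (wn f w) w Bh _ C (fun j hj => by
    obtain ⟨h1, h2⟩ := (memB j).1 hj
    refine ⟨rfl, ?_, ?_⟩
    · unfold dn
      rw [if_neg h2, if_neg (not_lt.2 h1.le)]
    · unfold wn
      rw [if_neg h2])]
  refine hP.cg _ _ _ _ _ _ _ fun c hc => ?_
  have hc' := (mem_bx71 H Bh C c).1 hc
  have hcg : c g = r' := by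
    have := hc' g
    rw [if_neg hgB] at this
    rw [this, hCg]
  have hcf : c f = r := by
    have := hc' f
    rw [if_neg hfB] at this
    rw [this, hCf]
  have hrg : rs H f g c g = r' := by simp [rs, hcg]
  have hrf : rs H f g c f = r := by simp [rs, hcf]
  have hup : Function.update (rs H f g c) g r' = rs H f g c := by
    rw [← hrg, Function.update_eq_self]
  rw [hup]
  unfold Psn
  rw [hrf, if_pos hr]
  simp only [hrg]
  rw [ph_off71 H d w (univ.filter (fun j => j < g ∧ j ≠ f)) _ (rs H f g c) c (fun a ha => by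
    unfold rs
    rw [if_neg]
    intro h
    exact ha ((memA a).2 h))]
  unfold th71
  rw [hrg]
  ring

/-- RID: the chain step, identity -/
theorem rid_71 (h : StPhi) : StRid := by
  classical
  intro m L K lam bs u Z W ka H f d w X Y Ψ ω hH hE hB hZ hG x y
  have hP : PhF m := h m
  -- the right hand side
  have hg : ∀ g ∈ univ.erase f,
      SS ka H g (dn f g d) (wn f w) (Psn ka H f g d w Ψ) ω x y =
      ∑ r ∈ range (H f), ∑ r' ∈ range (H g), Ph H d w (univ.erase f)
        (fun l => th71 ka f g ω (Function.update (rs H f g l) g r') *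
          (if l g ≤ r' then Ψ x y l ω else 0)) (Function.update 0 f r) := by
    intro g hg
    have hfg : g ≠ f := (mem_erase.1 hg).1
    rw [Finset.sum_comm]
    unfold SS
    refine Finset.sum_congr rfl fun r' _ => ?_
    set Q : Finset (Fin (m + 1)) := univ.filter (fun j => g < j ∧ j ≠ f) ∪
        univ.filter (fun j => j < g ∧ j ≠ f) with hQ
    have hfQ : f ∉ Q := by simp [hQ]
    have heg : univ.erase g = insert f Q := by
      ext j
      rw [mem_erase, mem_insert, hQ, mem_union, mem_filter, mem_filter]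
      constructor
      · rintro ⟨hj, _⟩
        by_cases hjf : j = f
        · exact Or.inl hjf
        · rcases lt_or_gt_of_ne hj with h1 | h1
          · exact Or.inr (Or.inr ⟨mem_univ _, h1, hjf⟩)
          · exact Or.inr (Or.inl ⟨mem_univ _, h1, hjf⟩)
      · rintro (rfl | ⟨_, h1, _⟩ | ⟨_, h1, _⟩)
        · exact ⟨hfg.symm, mem_univ _⟩
        · exact ⟨h1.ne', mem_univ _⟩
        · exact ⟨h1.ne, mem_univ _⟩
    rw [heg, hP.ins _ _ _ _ _ _ _ hfQ]
    have hd0 : dn f g d f = 0 := by simp [dn]
    have hw0 : wn f w f = ∅ := by simp [wn]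
    rw [hd0, hw0]
    unfold Fu
    rw [Finset.sum_range_succ]
    have hlast : Ph H (dn f g d) (wn f w) Q
        (fun c => Psn ka H f g d w Ψ x y c ω * (sb g (c g) ω - ka {g} c ω))
        (Function.update (Function.update 0 g r') f (H f)) = 0 := by
      rw [hP.cg H (dn f g d) (wn f w) Q _ (fun _ => (0 : ℝ) * 0) _ (fun l hl => by
        have := (mem_bx71 _ _ _ _).1 hl f
        rw [if_neg hfQ, Function.update_self] at this
        unfold Psn
        rw [if_neg (by omega), zero_mul, zero_mul]), hP.smul _ _ _ _ 0 (fun _ => (0 : ℝ)) _,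
        zero_mul]
    beta_reduce
    rw [hlast, mul_zero, add_zero]
    refine Finset.sum_congr rfl fun r hr => ?_
    have hwt : wt (H f) 0 ∅ r = 1 := by
      unfold wt
      rw [if_pos rfl, wal_empty]
    rw [hwt, one_mul]
    exact cell71 hP ka H f g hfg d w Ψ ω x y r r' (mem_range.1 hr)
  rw [Finset.sum_congr rfl hg, Finset.sum_comm, ← Finset.sum_add_distrib]
  unfold SS
  refine Finset.sum_congr rfl fun r hr => ?_
  have hrf : r < H f := mem_range.1 hr
  rw [hP.cg H d w (univ.erase f) _ (fun c => ((sb f r ω - ka {f} (Function.update H f r) ω) *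
    Ψ x y c ω) + ∑ g ∈ univ.erase f, ∑ r' ∈ range (H g),
      (th71 ka f g ω (Function.update (rs H f g c) g r') *
        (if c g ≤ r' then Ψ x y c ω else 0))) _ ?_]
  · rw [hP.add H d w (univ.erase f) (fun c => (sb f r ω - ka {f} (Function.update H f r) ω) *
      Ψ x y c ω) (fun c => ∑ g ∈ univ.erase f, ∑ r' ∈ range (H g),
      (th71 ka f g ω (Function.update (rs H f g c) g r') *
        (if c g ≤ r' then Ψ x y c ω else 0))), hP.smul H d w (univ.erase f) _
      (fun c => Ψ x y c ω)]
    congr 1
    rw [hP.sum (Fin (m + 1)) (univ.erase f) H d w (univ.erase f)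
      (fun g c => ∑ r' ∈ range (H g), (th71 ka f g ω (Function.update (rs H f g c) g r') *
        (if c g ≤ r' then Ψ x y c ω else 0)))]
    refine Finset.sum_congr rfl fun g _ => ?_
    rw [hP.sum ℕ (range (H g)) H d w (univ.erase f)
      (fun r' c => (th71 ka f g ω (Function.update (rs H f g c) g r') *
        (if c g ≤ r' then Ψ x y c ω else 0)))]
  · intro l hl
    have hl' := (mem_bx71 _ _ _ _).1 hl
    have hlf : l f = r := by
      have := hl' f
      rw [if_neg (by simp), Function.update_self] at this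
      exact this
    have hle : ∀ a, l a ≤ H a := by
      intro a
      by_cases ha : a = f
      · subst ha; omega
      · have := hl' a
        rw [if_pos (mem_erase.2 ⟨ha, mem_univ _⟩)] at this
        exact this
    have ht := tele71 H f (fun c => ka {f} c ω) l
    rw [Finset.sum_congr rfl (fun g hg => inc71 hH hE hB hZ hG f g (mem_erase.1 hg).1 l hle
      (by omega))] at ht
    rw [hlf] at ht
    have e : ∑ g ∈ univ.erase f, ∑ r' ∈ range (H g),
        (th71 ka f g ω (Function.update (rs H f g l) g r') *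
          (if l g ≤ r' then Ψ x y l ω else 0)) =
        (∑ g ∈ univ.erase f, ∑ r' ∈ range (H g),
          (if l g ≤ r' then th71 ka f g ω (Function.update (rs H f g l) g r') else 0)) *
          Ψ x y l ω := by
      rw [Finset.sum_mul]
      refine Finset.sum_congr rfl fun g _ => ?_
      rw [Finset.sum_mul]
      refine Finset.sum_congr rfl fun r' _ => ?_
      split_ifs <;> simp
    rw [e, ← ht, hlf]
    ring

end Pool.Agent.SHXA
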