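import Pool.Agent.Lib.MP_a7b2aa_an.SHX.StmtsX65

/-!
SHX, track ALL, module RNRM (helper7): the norm of the kernel after a chain step.
-/

set_option autoImplicit false

namespace Pool.Agent.SHXA

open Finset Pool.Agent.SB3 Pool.Agent.SBT Pool.Agent.SBD Pool.Agent.SHD Pool.Agent.SHX
open Pool.Agent.Lib.MP_a7b2aa_an.SHX

namespace Rnrm7

variable {m : ℕ}

/-! ### boxes and functionals -/

theorem mem_bx {H : Fin (m + 1) → ℕ} {Q : Finset (Fin (m + 1))} {c l : Fin (m + 1) → ℕ} :
    l ∈ bx H Q c ↔ ∀ a, (a ∈ Q → l a ≤ H a) ∧ (a ∉ Q → l a = c a) := by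
  unfold bx
  rw [Fintype.mem_piFinset]
  refine forall_congr' fun a => ?_
  by_cases h : a ∈ Q
  · rw [if_pos h, mem_range]
    constructor
    · intro h1
      exact ⟨fun _ => by omega, fun h2 => absurd h h2⟩
    · rintro ⟨h1, -⟩
      have := h1 h
      omega
  · rw [if_neg h, mem_singleton]
    constructor
    · intro h1
      exact ⟨fun h2 => absurd h2 h, fun _ => h1⟩
    · rintro ⟨-, h1⟩
      exact h1 h

theorem bx_congr (H : Fin (m + 1) → ℕ) (Q : Finset (Fin (m + 1))) {c c' : Fin (m + 1) → ℕ}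
    (h : ∀ j, j ∉ Q → c j = c' j) : bx H Q c = bx H Q c' := by
  unfold bx
  congr 1
  funext a
  by_cases h1 : a ∈ Q
  · rw [if_pos h1, if_pos h1]
  · rw [if_neg h1, if_neg h1, h a h1]

theorem Ph_congr (H d : Fin (m + 1) → ℕ) (w : Fin (m + 1) → Finset ℕ) (Q : Finset (Fin (m + 1)))
    (F : (Fin (m + 1) → ℕ) → ℝ) {c c' : Fin (m + 1) → ℕ} (h : ∀ j, j ∉ Q → c j = c' j) :
    Ph H d w Q F c = Ph H d w Q F c' := by
  unfold Ph
  rw [bx_congr H Q h]

/-- functionals supported at one point -/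
theorem Ph_point (H d : Fin (m + 1) → ℕ) (w : Fin (m + 1) → Finset ℕ) (Q : Finset (Fin (m + 1)))
    (F : (Fin (m + 1) → ℕ) → ℝ) (c : Fin (m + 1) → ℕ)
    (h0 : ∀ l ∈ bx H Q c, (∃ j ∈ Q, l j ≠ H j) → (∏ j ∈ Q, wt (H j) (d j) (w j) (l j)) * F l = 0)
    (h1 : ∀ l ∈ bx H Q c, (∀ j ∈ Q, l j = H j) →
      (∏ j ∈ Q, wt (H j) (d j) (w j) (l j)) * F l = F l) :
    Ph H d w Q F c = F (fun j => if j ∈ Q then H j else c j) := by
  unfold Ph
  have hm : (fun j => if j ∈ Q then H j else c j) ∈ bx H Q c := by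
    rw [mem_bx]
    intro a
    exact ⟨fun h => by rw [if_pos h], fun h => by rw [if_neg h]⟩
  rw [Finset.sum_eq_single_of_mem _ hm, h1 _ hm (fun j hj => by rw [if_pos hj])]
  intro l hl hne
  apply h0 l hl
  by_contra hcon
  push Not at hcon
  apply hne
  funext j
  by_cases hj : j ∈ Q
  · rw [if_pos hj]; exact hcon j hj
  · rw [if_neg hj]; exact ((mem_bx.1 hl) j).2 hj

/-- top strings -/
theorem Ph_top2 (H d : Fin (m + 1) → ℕ) (w : Fin (m + 1) → Finset ℕ) (Q : Finset (Fin (m + 1)))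
    (F : (Fin (m + 1) → ℕ) → ℝ) (c : Fin (m + 1) → ℕ) (hd : ∀ j ∈ Q, d j = 2) :
    Ph H d w Q F c = F (fun j => if j ∈ Q then H j else c j) := by
  have hw : ∀ j ∈ Q, ∀ l : ℕ, wt (H j) (d j) (w j) l = if l = H j then 1 else 0 := by
    intro j hj l
    unfold wt
    rw [hd j hj]
    simp
  apply Ph_point
  · rintro l - ⟨j, hj, hlj⟩
    rw [Finset.prod_eq_zero hj, zero_mul]
    rw [hw j hj, if_neg hlj]
  · intro l _ h
    rw [Finset.prod_eq_one, one_mul]
    intro j hj
    rw [hw j hj, if_pos (h j hj)]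

/-- time strings with trivial Walsh function -/
theorem Ph_top1 (H d : Fin (m + 1) → ℕ) (w : Fin (m + 1) → Finset ℕ) (Q : Finset (Fin (m + 1)))
    (F : (Fin (m + 1) → ℕ) → ℝ) (c : Fin (m + 1) → ℕ) (hd : ∀ j ∈ Q, d j = 1)
    (hw : ∀ j ∈ Q, w j = ∅) (hF : ∀ l, (∃ j ∈ Q, l j = 0) → F l = 0) :
    Ph H d w Q F c = F (fun j => if j ∈ Q then H j else c j) := by
  have hw' : ∀ j ∈ Q, ∀ l : ℕ, wt (H j) (d j) (w j) l =
      (if 1 ≤ l then 1 else 0) - (if l < H j then 1 else 0) := by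
    intro j hj l
    unfold wt
    rw [hd j hj, hw j hj, wal_empty, wal_empty]
    simp
  apply Ph_point
  · rintro l hl ⟨j, hj, hlj⟩
    by_cases hz : ∃ i ∈ Q, l i = 0
    · rw [hF l hz, mul_zero]
    · push Not at hz
      rw [Finset.prod_eq_zero hj, zero_mul]
      have h1 := hz j hj
      have h2 := ((mem_bx.1 hl) j).1 hj
      rw [hw' j hj, if_pos (by omega), if_pos (by omega), sub_self]
  · intro l hl h
    by_cases hz : ∃ i ∈ Q, l i = 0
    · rw [hF l hz, mul_zero]
    · push Not at hz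
      rw [Finset.prod_eq_one, one_mul]
      intro j hj
      have h1 := hz j hj
      rw [hw' j hj, if_pos (by omega), if_neg (by rw [h j hj]; omega), sub_zero]

/-! ### square functions -/

section sq

variable {X Y : Type} [Fintype X] [Fintype Y]

/-- one square function -/
def SH {X Y : Type} [Fintype X] [Fintype Y] (n : ℕ) (B : ℝ) (M : ℕ → X → Y → ℝ) : Prop :=
  ∀ v : Y → ℝ, ∑ r ∈ range n, ∑ x, (∑ y, M r x y * v y) ^ 2 ≤ B * ∑ y, v y ^ 2

theorem SQ_iff (n : ℕ) (B : ℝ) (M : ℕ → X → Y → ℝ) :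
    SQ n B M ↔ SH n B M ∧ SH n B (fun r y x => M r x y) := Iff.rfl

theorem SH.mono {n : ℕ} {B B' : ℝ} {M : ℕ → X → Y → ℝ} (h : SH n B M) (hB : B ≤ B') :
    SH n B' M := fun v => (h v).trans (mul_le_mul_of_nonneg_right hB
      (Finset.sum_nonneg fun _ _ => sq_nonneg _))

theorem SH.congr {n : ℕ} {B : ℝ} {M M' : ℕ → X → Y → ℝ} (h : SH n B M)
    (hM : ∀ r < n, ∀ x y, M' r x y = M r x y) : SH n B M' := by
  intro v
  refine le_trans (le_of_eq ?_) (h v)
  refine Finset.sum_congr rfl fun r hr => Finset.sum_congr rfl fun x _ => ?_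
  congr 1
  exact Finset.sum_congr rfl fun y _ => by rw [hM r (mem_range.1 hr)]

/-- Cauchy-Schwarz -/
theorem cs {ι : Type*} (s : Finset ι) (a z : ι → ℝ) :
    (∑ i ∈ s, a i * z i) ^ 2 ≤ (∑ i ∈ s, |a i|) * ∑ i ∈ s, |a i| * z i ^ 2 := by
  apply Finset.sum_sq_le_sum_mul_sum_of_sq_le_mul
  · intro i _; exact abs_nonneg _
  · intro i _; positivity
  · intro i _
    rw [mul_pow, ← sq_abs (a i)]
    exact le_of_eq (by ring)

/-- linear combinations -/
theorem SH.sum {ι : Type*} {n : ℕ} {B : ℝ} (s : Finset ι) (a : ι → ℝ)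
    (M : ι → ℕ → X → Y → ℝ) (h : ∀ i ∈ s, SH n B (M i)) :
    SH n ((∑ i ∈ s, |a i|) ^ 2 * B) (fun r x y => ∑ i ∈ s, a i * M i r x y) := by
  intro v
  have h1 : ∀ r x, (∑ y, (∑ i ∈ s, a i * M i r x y) * v y) ^ 2 ≤
      (∑ i ∈ s, |a i|) * ∑ i ∈ s, |a i| * (∑ y, M i r x y * v y) ^ 2 := by
    intro r x
    have e : ∑ y, (∑ i ∈ s, a i * M i r x y) * v y = ∑ i ∈ s, a i * ∑ y, M i r x y * v y := by
      simp_rw [Finset.sum_mul, Finset.mul_sum]
      rw [Finset.sum_comm]
      refine Finset.sum_congr rfl fun i _ => Finset.sum_congr rfl fun y _ => by ring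
    rw [e]
    exact cs s a _
  have hA : 0 ≤ ∑ i ∈ s, |a i| := Finset.sum_nonneg fun _ _ => abs_nonneg _
  calc ∑ r ∈ range n, ∑ x, (∑ y, (∑ i ∈ s, a i * M i r x y) * v y) ^ 2
      ≤ ∑ r ∈ range n, ∑ x, (∑ i ∈ s, |a i|) * ∑ i ∈ s, |a i| * (∑ y, M i r x y * v y) ^ 2 :=
        Finset.sum_le_sum fun r _ => Finset.sum_le_sum fun x _ => h1 r x
    _ = (∑ i ∈ s, |a i|) * ∑ i ∈ s, |a i| *
        ∑ r ∈ range n, ∑ x, (∑ y, M i r x y * v y) ^ 2 := by
        simp_rw [← Finset.mul_sum]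
        congr 1
        have e1 : ∀ r, ∑ x, ∑ i ∈ s, |a i| * (∑ y, M i r x y * v y) ^ 2 =
            ∑ i ∈ s, |a i| * ∑ x, (∑ y, M i r x y * v y) ^ 2 := by
          intro r
          rw [Finset.sum_comm]
          exact Finset.sum_congr rfl fun i _ => by rw [Finset.mul_sum]
        rw [Finset.sum_congr rfl fun r _ => e1 r, Finset.sum_comm]
        exact Finset.sum_congr rfl fun i _ => by rw [Finset.mul_sum]
    _ ≤ (∑ i ∈ s, |a i|) * ∑ i ∈ s, |a i| * (B * ∑ y, v y ^ 2) := by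
        apply mul_le_mul_of_nonneg_left _ hA
        exact Finset.sum_le_sum fun i hi => mul_le_mul_of_nonneg_left (h i hi v) (abs_nonneg _)
    _ = (∑ i ∈ s, |a i|) ^ 2 * B * ∑ y, v y ^ 2 := by
        rw [← Finset.sum_mul]; ring

/-- multiplication by a matrix -/
theorem SH.mat {n n' : ℕ} {B b : ℝ} {M : ℕ → X → Y → ℝ} (h : SH n B M) (N : ℕ → ℕ → ℝ)
    (σ ρ : ℕ → ℝ) (hσ : ∀ r, |σ r| ≤ 1) (hρ : ∀ k, |ρ k| ≤ 1)
    (hN : ∀ φ : ℕ → ℝ, ∑ r ∈ range n', (∑ k ∈ range n, N k r * φ k) ^ 2 ≤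
      b ^ 2 * ∑ k ∈ range n, φ k ^ 2) :
    SH n' (b ^ 2 * B) (fun r x y => σ r * ∑ k ∈ range n, ρ k * (N k r * M k x y)) := by
  intro v
  have hs : ∀ t : ℝ, |t| ≤ 1 → t ^ 2 ≤ 1 := by
    intro t ht
    rw [← sq_abs]
    exact pow_le_one₀ (abs_nonneg _) ht
  have h1 : ∀ r x, (∑ y, (σ r * ∑ k ∈ range n, ρ k * (N k r * M k x y)) * v y) ^ 2 ≤
      (∑ k ∈ range n, N k r * (ρ k * ∑ y, M k x y * v y)) ^ 2 := by
    intro r x
    have e : ∑ y, (σ r * ∑ k ∈ range n, ρ k * (N k r * M k x y)) * v y =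
        σ r * ∑ k ∈ range n, N k r * (ρ k * ∑ y, M k x y * v y) := by
      simp_rw [Finset.mul_sum, Finset.sum_mul]
      rw [Finset.sum_comm]
      refine Finset.sum_congr rfl fun k _ => Finset.sum_congr rfl fun y _ => by ring
    rw [e, mul_pow]
    exact mul_le_of_le_one_left (sq_nonneg _) (hs _ (hσ r))
  calc ∑ r ∈ range n', ∑ x, (∑ y, (σ r * ∑ k ∈ range n, ρ k * (N k r * M k x y)) * v y) ^ 2
      ≤ ∑ r ∈ range n', ∑ x, (∑ k ∈ range n, N k r * (ρ k * ∑ y, M k x y * v y)) ^ 2 :=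
        Finset.sum_le_sum fun r _ => Finset.sum_le_sum fun x _ => h1 r x
    _ = ∑ x, ∑ r ∈ range n', (∑ k ∈ range n, N k r * (ρ k * ∑ y, M k x y * v y)) ^ 2 :=
        Finset.sum_comm
    _ ≤ ∑ x, b ^ 2 * ∑ k ∈ range n, (ρ k * ∑ y, M k x y * v y) ^ 2 :=
        Finset.sum_le_sum fun x _ => hN _
    _ ≤ ∑ x, b ^ 2 * ∑ k ∈ range n, (∑ y, M k x y * v y) ^ 2 := by
        refine Finset.sum_le_sum fun x _ => mul_le_mul_of_nonneg_left ?_ (sq_nonneg _)
        refine Finset.sum_le_sum fun k _ => ?_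
        rw [mul_pow]
        exact mul_le_of_le_one_left (sq_nonneg _) (hs _ (hρ k))
    _ = b ^ 2 * ∑ k ∈ range n, ∑ x, (∑ y, M k x y * v y) ^ 2 := by
        rw [← Finset.mul_sum, Finset.sum_comm]
    _ ≤ b ^ 2 * (B * ∑ y, v y ^ 2) := mul_le_mul_of_nonneg_left (h v) (sq_nonneg _)
    _ = b ^ 2 * B * ∑ y, v y ^ 2 := by ring

end sq

/-! ### the matrices of the multiplier -/

theorem FN_mono {H : Fin (m + 1) → ℕ} {C : Finset (Fin (m + 1))} {a b : ℝ}
    {F : (Fin (m + 1) → ℕ) → ℝ} (ha : 0 ≤ a) (hab : a ≤ b) (h : FN H C a F) : FN H C b F := by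
  refine ⟨fun x hx => (h.sup x hx).trans hab, fun C1 C2 h1 h2 h3 h4 u => ?_⟩
  refine (h.mat C1 C2 h1 h2 h3 h4 u).trans ?_
  exact mul_le_mul_of_nonneg_right (pow_le_pow_left₀ ha hab 2)
    (Finset.sum_nonneg fun _ _ => sq_nonneg _)

theorem Nm_mono {K : ℕ} {H : Fin (m + 1) → ℕ} {C : Finset (Fin (m + 1))} {a b : ℝ}
    {F : (Fin (m + 1) → ℕ) → ℝ} (ha : 0 ≤ a) (hab : a ≤ b) (h : Nm K H C a F) : Nm K H C b F :=
  fun w hw => FN_mono ha hab (h w hw)

theorem sum_bx_single (H : Fin (m + 1) → ℕ) (e : Fin (m + 1)) (c : Fin (m + 1) → ℕ)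
    (f : (Fin (m + 1) → ℕ) → ℝ) :
    ∑ x ∈ bx H {e} c, f x = ∑ r ∈ range (H e + 1), f (Function.update c e r) := by
  symm
  refine Finset.sum_bij (fun r _ => Function.update c e r) ?_ ?_ ?_ ?_
  · intro r hr
    rw [mem_bx]
    intro a
    constructor
    · intro ha
      rw [mem_singleton] at ha
      subst ha
      rw [Function.update_self]
      have := mem_range.1 hr
      omega
    · intro ha
      rw [mem_singleton] at ha
      rw [Function.update_of_ne ha]
  · intro r _ r' _ h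
    have := congrFun h e
    simpa using this
  · intro x hx
    rw [mem_bx] at hx
    refine ⟨x e, ?_, ?_⟩
    · rw [mem_range]
      have := (hx e).1 (mem_singleton_self e)
      omega
    · funext a
      by_cases ha : a = e
      · subst ha; rw [Function.update_self]
      · rw [Function.update_of_ne ha]
        exact ((hx a).2 (by rwa [mem_singleton])).symm
  · intro r _; rfl

/-- the matrix inequality for a function with two own strings -/
theorem mat2 {H : Fin (m + 1) → ℕ} {f g : Fin (m + 1)} (hfg : g ≠ f) {b : ℝ}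
    {F : (Fin (m + 1) → ℕ) → ℝ} (h : FN H (insert g {f}) b F) (φ : ℕ → ℝ) :
    ∑ r ∈ range (H g + 1), (∑ k ∈ range (H f + 1),
      F (Function.update (Function.update 0 g r) f k) * φ k) ^ 2 ≤
      b ^ 2 * ∑ k ∈ range (H f + 1), φ k ^ 2 := by
  have h1 := h.mat {g} {f} (by rw [disjoint_singleton]; exact hfg) (by rw [insert_eq])
    (singleton_nonempty _) (singleton_nonempty _) (fun y => φ (y f))
  rw [sum_bx_single, sum_bx_single] at h1
  refine le_trans (le_of_eq ?_) (h1.trans (le_of_eq ?_))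
  · refine Finset.sum_congr rfl fun r _ => ?_
    rw [sum_bx_single]
    congr 1
    refine Finset.sum_congr rfl fun k _ => ?_
    have e : Function.update (Function.update (0 : Fin (m + 1) → ℕ) g r) f k =
        Function.update (0 : Fin (m + 1) → ℕ) g r + Function.update (0 : Fin (m + 1) → ℕ) f k := by
      funext j
      rw [Pi.add_apply]
      by_cases h2 : j = f
      · subst h2
        rw [Function.update_self, Function.update_self, Function.update_of_ne hfg.symm]
        simp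
      · rw [Function.update_of_ne h2, Function.update_of_ne h2]
        simp
    rw [e, Function.update_self]
  · congr 1
    refine Finset.sum_congr rfl fun k _ => ?_
    rw [Function.update_self]

/-! ### the strings -/

/-- strings before `g` -/
def As (f g : Fin (m + 1)) : Finset (Fin (m + 1)) := univ.filter (fun j => j < g ∧ j ≠ f)

/-- strings after `g` -/
def Bs (f g : Fin (m + 1)) : Finset (Fin (m + 1)) := univ.filter (fun j => g < j ∧ j ≠ f)

theorem mem_As {f g j : Fin (m + 1)} : j ∈ As f g ↔ j < g ∧ j ≠ f := by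
  unfold As; rw [mem_filter]; exact ⟨fun h => h.2, fun h => ⟨mem_univ _, h⟩⟩

theorem mem_Bs {f g j : Fin (m + 1)} : j ∈ Bs f g ↔ g < j ∧ j ≠ f := by
  unfold Bs; rw [mem_filter]; exact ⟨fun h => h.2, fun h => ⟨mem_univ _, h⟩⟩

theorem disj_AB (f g : Fin (m + 1)) : Disjoint (As f g) (Bs f g) := by
  rw [disjoint_left]
  intro j h1 h2
  rw [mem_As] at h1
  rw [mem_Bs] at h2
  exact absurd (h1.1.trans h2.1) (lt_irrefl _)

theorem erase_g {f g : Fin (m + 1)} (hfg : g ≠ f) :
    univ.erase g = insert f (As f g ∪ Bs f g) := by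
  ext j
  rw [mem_erase, mem_insert, mem_union, mem_As, mem_Bs]
  constructor
  · rintro ⟨h1, -⟩
    by_cases h2 : j = f
    · exact Or.inl h2
    · rcases lt_or_gt_of_ne h1 with h3 | h3
      · exact Or.inr (Or.inl ⟨h3, h2⟩)
      · exact Or.inr (Or.inr ⟨h3, h2⟩)
  · rintro (h1 | ⟨h1, -⟩ | ⟨h1, -⟩)
    · exact ⟨by rw [h1]; exact hfg.symm, mem_univ _⟩
    · exact ⟨h1.ne, mem_univ _⟩
    · exact ⟨h1.ne', mem_univ _⟩

theorem f_notMem (f g : Fin (m + 1)) : f ∉ As f g ∪ Bs f g := by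
  rw [mem_union, mem_As, mem_Bs]
  rintro (⟨-, h⟩ | ⟨-, h⟩) <;> exact h rfl

theorem g_notMem_A (f g : Fin (m + 1)) : g ∉ As f g := by
  rw [mem_As]; exact fun h => lt_irrefl _ h.1

theorem g_notMem_B (f g : Fin (m + 1)) : g ∉ Bs f g := by
  rw [mem_Bs]; exact fun h => lt_irrefl _ h.1

theorem erase_f {f g : Fin (m + 1)} (hfg : g ≠ f) :
    univ.erase f = Bs f g ∪ insert g (As f g) := by
  ext j
  rw [mem_erase, mem_union, mem_insert, mem_As, mem_Bs]
  constructor
  · rintro ⟨h1, -⟩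
    rcases lt_trichotomy j g with h3 | h3 | h3
    · exact Or.inr (Or.inr ⟨h3, h1⟩)
    · exact Or.inr (Or.inl h3)
    · exact Or.inl ⟨h3, h1⟩
  · rintro (⟨-, h1⟩ | h1 | ⟨-, h1⟩)
    · exact ⟨h1, mem_univ _⟩
    · exact ⟨by rw [h1]; exact hfg, mem_univ _⟩
    · exact ⟨h1, mem_univ _⟩

theorem disj_BgA (f g : Fin (m + 1)) : Disjoint (Bs f g) (insert g (As f g)) := by
  rw [disjoint_insert_right]
  exact ⟨g_notMem_B f g, (disj_AB f g).symm⟩

theorem compl_gf {f g : Fin (m + 1)} :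
    (insert g {f} : Finset (Fin (m + 1)))ᶜ = As f g ∪ Bs f g := by
  ext j
  rw [mem_compl, mem_insert, mem_singleton, mem_union, mem_As, mem_Bs]
  push Not
  constructor
  · rintro ⟨h1, h2⟩
    rcases lt_or_gt_of_ne h1 with h3 | h3
    · exact Or.inl ⟨h3, h2⟩
    · exact Or.inr ⟨h3, h2⟩
  · rintro (⟨h1, h2⟩ | ⟨h1, h2⟩)
    · exact ⟨h1.ne, h2⟩
    · exact ⟨h1.ne', h2⟩

/-- the multiplier -/
theorem Kk_single (β : ℝ) (hβ : |β| < 1) (gg : Finset (Fin (m + 1)) → ℝ) (f : Fin (m + 1)) :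
    Kk β gg {f} = gg {f} * (1 / (1 - β ^ 2)) := by
  classical
  have h1 := (abs_lt.1 hβ).1
  have h2 := (abs_lt.1 hβ).2
  have e0 : ({f} : Finset (Fin (m + 1))).powerset.filter (fun C => hd C {f}) = {{f}} := by
    ext C
    rw [mem_filter, mem_powerset, mem_singleton, subset_singleton_iff]
    constructor
    · rintro ⟨h3 | h3, h4⟩
      · exfalso
        obtain ⟨y, hy, -⟩ := h4 f (mem_singleton_self f)
        rw [h3] at hy
        exact notMem_empty _ hy
      · exact h3
    · intro h3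
      refine ⟨Or.inr h3, ?_⟩
      rw [h3]
      intro x hx
      exact ⟨x, hx, le_rfl⟩
  unfold Kk
  have e1 : ∀ z : ℝ, Rr z gg (∅ : Finset (Fin (m + 1))) = 1 := by
    intro z
    unfold Rr Rn
    rw [if_pos rfl]
  have e2 : (({f} : Finset (Fin (m + 1))).powerset.filter (fun C => hd C {f})) = {{f}} := e0
  rw [Finset.sum_congr (by convert e2) (fun _ _ => rfl), Finset.sum_singleton, sdiff_self]
  have e3 : (⊥ : Finset (Fin (m + 1))) = ∅ := rfl
  rw [e3, e1, e1]
  have h3 : (1 + β) ≠ 0 := by linarith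
  have h4 : (1 - β) ≠ 0 := by linarith
  have h5 : (1 - β ^ 2) ≠ 0 := by
    rw [show (1 - β ^ 2) = (1 + β) * (1 - β) by ring]
    exact mul_ne_zero h3 h4
  field_simp
  ring

/-- a functional of a function which vanishes on the box -/
theorem Ph_zero {H d : Fin (m + 1) → ℕ} {w : Fin (m + 1) → Finset ℕ} {Q : Finset (Fin (m + 1))}
    {F : (Fin (m + 1) → ℕ) → ℝ} {c : Fin (m + 1) → ℕ} (h : ∀ l ∈ bx H Q c, F l = 0) :
    Ph H d w Q F c = 0 := by
  unfold Ph
  exact Finset.sum_eq_zero fun l hl => by rw [h l hl, mul_zero]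

/-! ### the identity -/

section key

variable {L : ℕ} {X Y : Type}

/-- the part of the old kernel -/
theorem part_F (hP : PhF m) {H : Fin (m + 1) → ℕ} {f g : Fin (m + 1)} (hfg : g ≠ f)
    {d : Fin (m + 1) → ℕ} {w : Fin (m + 1) → Finset ℕ} (ψ : (Fin (m + 1) → ℕ) → ℝ)
    (w1 : Fin (m + 1) → Finset ℕ) (T : Finset ℕ) (c2 : Fin (m + 1) → ℕ) :
    Ph H (dn f g d) w1 (Bs f g)
      (Ph H d (Function.update w g T) (insert g (As f g)) ψ) c2 =
    Ph H d (fun j => if j ∈ Bs f g then w1 j else Function.update w g T j) (univ.erase f) ψ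
      (Function.update 0 f (c2 f)) := by
  set w2 : Fin (m + 1) → Finset ℕ :=
    fun j => if j ∈ Bs f g then w1 j else Function.update w g T j with hw2
  have e1 : Ph H (dn f g d) w1 (Bs f g)
      (Ph H d (Function.update w g T) (insert g (As f g)) ψ) c2 =
      Ph H d w2 (Bs f g) (Ph H d w2 (insert g (As f g)) ψ) c2 := by
    rw [hP.cgw H H (dn f g d) d w1 w2]
    · apply hP.cg
      intro l _
      apply hP.cgw
      intro j hj
      refine ⟨rfl, rfl, ?_⟩
      have h1 : j ∉ Bs f g := fun h => (disjoint_left.1 (disj_BgA f g)) h hj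
      rw [hw2]
      simp only
      rw [if_neg h1]
    · intro j hj
      refine ⟨rfl, ?_, ?_⟩
      · unfold dn
        rw [mem_Bs] at hj
        rw [if_neg hj.2, if_neg (not_lt.2 hj.1.le)]
      · rw [hw2]
        simp only
        rw [if_pos hj]
  rw [e1, ← hP.union H d w2 (Bs f g) (insert g (As f g)) ψ c2 (disj_BgA f g), ← erase_f hfg]
  apply Ph_congr
  intro j hj
  have : j = f := by
    by_contra h
    exact hj (mem_erase.2 ⟨h, mem_univ _⟩)
  rw [this, Function.update_self]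

/-- the part of the multiplier -/
theorem part_G (hP : PhF m) {H H' : Fin (m + 1) → ℕ} {f g : Fin (m + 1)}
    (hH : ∀ j, j ≠ f → H' j = H j) {G : (Fin (m + 1) → ℕ) → ℝ} (hG : Van (insert g {f}) G)
    (w1 : Fin (m + 1) → Finset ℕ) (c : Fin (m + 1) → ℕ) :
    Ph H tm w1 (Bs f g) G (fun j => if j ∈ As f g then H j else c j) =
    Ph H' tm (fun j => if j ∈ Bs f g then w1 j else ∅) ((insert g {f})ᶜ) G c := by
  set w3 : Fin (m + 1) → Finset ℕ := fun j => if j ∈ Bs f g then w1 j else ∅ with hw3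
  have hAB : ∀ j, j ∈ As f g ∪ Bs f g → j ≠ f := fun j hj => by
    rintro rfl
    exact f_notMem _ _ hj
  have e0 := Ph_top1 H' tm w3 (As f g) (Ph H' tm w3 (Bs f g) G) c (fun j _ => rfl)
    (by
      intro j hj
      rw [hw3]
      simp only
      rw [if_neg (disjoint_left.1 (disj_AB f g) hj)])
    (by
      rintro l ⟨j, hj, hlj⟩
      apply Ph_zero
      intro l' hl'
      have h1 : j ∉ Bs f g := disjoint_left.1 (disj_AB f g) hj
      apply hG l' j
      · rw [← mem_compl, compl_gf]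
        exact mem_union_left _ hj
      · rw [((mem_bx.1 hl') j).2 h1, hlj])
  rw [compl_gf, hP.union H' tm w3 (As f g) (Bs f g) G c (disj_AB f g), e0]
  have e1 : (fun j => if j ∈ As f g then H' j else c j) =
      (fun j => if j ∈ As f g then H j else c j) := by
    funext j
    by_cases hj : j ∈ As f g
    · rw [if_pos hj, if_pos hj, hH j (hAB j (mem_union_left _ hj))]
    · rw [if_neg hj, if_neg hj]
  rw [e1]
  apply hP.cgw
  intro j hj
  refine ⟨(hH j (hAB j (mem_union_right _ hj))).symm, rfl, ?_⟩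
  rw [hw3]
  simp only
  rw [if_pos hj]

/-- the new kernel on a class with `c f < H f` -/
theorem psn_eq (hP : PhF m) {K : ℕ}
    {ka : Finset (Fin (m + 1)) → (Fin (m + 1) → ℕ) → Pt m L → ℝ} {H : Fin (m + 1) → ℕ}
    {f g : Fin (m + 1)} (hfg : g ≠ f) {d : Fin (m + 1) → ℕ} {w : Fin (m + 1) → Finset ℕ}
    {Ψ : X → Y → (Fin (m + 1) → ℕ) → Pt m L → ℝ} (hK : Ker H f d Ψ)
    {cc : Finset ℕ → Finset ℕ → ℝ}
    (hcc : ∀ F : ℕ → ℝ, (d g = 1 → F 0 = 0) → ∀ k < H g,
      Fu (H g) (d g) (w g) (fun l => if l ≤ k then F l else 0) =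
        ∑ S ∈ (range K).powerset, ∑ T ∈ (range K).powerset,
          cc S T * (wal S k * Fu (H g) (d g) T F))
    (x : X) (y : Y) (ω : Pt m L) {l : Fin (m + 1) → ℕ} (hlf : l f < H f) (hlg : l g < H g)
    (hβ : |ka {g} l ω| < 1) :
    Psn ka H f g d w Ψ x y l ω = ∑ S ∈ (range K).powerset, ∑ T ∈ (range K).powerset,
      cc S T * (wal S (l g) *
        (Ph H d (Function.update w g T) (insert g (As f g)) (fun c => Ψ x y c ω) l *
          Kk (ka {g} l ω) (fun D => ka (insert g D) l ω) {f})) := by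
  rw [Kk_single _ hβ]
  unfold Psn
  rw [if_pos hlf]
  have e1 : Ph H d w (univ.filter (fun j => j < g ∧ j ≠ f)) (fun c' => Fu (H g) (d g) (w g)
      (fun t => if t ≤ l g then Ψ x y (Function.update c' g t) ω else 0)) l =
      ∑ S ∈ (range K).powerset, ∑ T ∈ (range K).powerset, cc S T * (wal S (l g) *
        Ph H d (Function.update w g T) (insert g (As f g)) (fun c => Ψ x y c ω) l) := by
    change Ph H d w (As f g) _ l = _
    rw [hP.cg H d w (As f g) _ (fun c' => ∑ S ∈ (range K).powerset, ∑ T ∈ (range K).powerset,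
      cc S T * (wal S (l g) * Fu (H g) (d g) T (fun t => Ψ x y (Function.update c' g t) ω))) l
      (fun c' _ => hcc (fun t => Ψ x y (Function.update c' g t) ω)
        (fun h => hK.van x y _ g ω hfg h (Function.update_self ..)) (l g) hlg)]
    rw [hP.sum]
    refine Finset.sum_congr rfl fun S _ => ?_
    rw [hP.sum]
    refine Finset.sum_congr rfl fun T _ => ?_
    rw [hP.smul, hP.smul]
    congr 2
    rw [hP.ins' H d (Function.update w g T) (As f g) g (fun c => Ψ x y c ω) l (g_notMem_A f g),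
      Function.update_self]
    apply hP.cgw
    intro j hj
    refine ⟨rfl, rfl, ?_⟩
    rw [Function.update_of_ne]
    rintro rfl
    exact g_notMem_A _ _ hj
  rw [e1, Finset.sum_mul, pair_comm f g]
  refine Finset.sum_congr rfl fun S _ => ?_
  rw [Finset.sum_mul]
  refine Finset.sum_congr rfl fun T _ => ?_
  ring

/-- the multiplier as a function of the class -/
noncomputable def G0 (ka : Finset (Fin (m + 1)) → (Fin (m + 1) → ℕ) → Pt m L → ℝ)
    (f g : Fin (m + 1)) (ω : Pt m L) (c : Fin (m + 1) → ℕ) : ℝ :=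
  Kk (ka {g} c ω) (fun D => ka (insert g D) c ω) {f}

/-- the identity -/
theorem km_eq (hP : PhF m) {K : ℕ}
    {ka : Finset (Fin (m + 1)) → (Fin (m + 1) → ℕ) → Pt m L → ℝ} {H H' : Fin (m + 1) → ℕ}
    {f g : Fin (m + 1)} (hfg : g ≠ f) {d : Fin (m + 1) → ℕ} {w w' : Fin (m + 1) → Finset ℕ}
    {Ψ : X → Y → (Fin (m + 1) → ℕ) → Pt m L → ℝ} (hK : Ker H f d Ψ)
    (hH : ∀ j, j ≠ f → H' j = H j)
    {cc : Finset ℕ → Finset ℕ → ℝ}
    (hcc : ∀ F : ℕ → ℝ, (d g = 1 → F 0 = 0) → ∀ k < H g,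
      Fu (H g) (d g) (w g) (fun l => if l ≤ k then F l else 0) =
        ∑ S ∈ (range K).powerset, ∑ T ∈ (range K).powerset,
          cc S T * (wal S k * Fu (H g) (d g) T F))
    {I : Finset ((Fin (m + 1) → Finset ℕ) × (Fin (m + 1) → Finset ℕ))}
    {cf : (Fin (m + 1) → Finset ℕ) × (Fin (m + 1) → Finset ℕ) → ℝ}
    (hI : ∀ F G : (Fin (m + 1) → ℕ) → ℝ, (∀ j ∈ Bs f g, ∀ c, c j = 0 → G c = 0) →
        (∀ j ∈ Bs f g, dn f g d j = 1 → ∀ c, c j = 0 → F c = 0) → ∀ c : Fin (m + 1) → ℕ,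
        Ph H (dn f g d) w' (Bs f g) (fun l => F l * G l) c =
          ∑ i ∈ I, cf i * (Ph H (dn f g d) i.1 (Bs f g) F c * Ph H tm i.2 (Bs f g) G c))
    {ω : Pt m L} (hβ : ∀ l : Fin (m + 1) → ℕ, (∀ j, l j ≤ H j) → l f < H f → |ka {g} l ω| < 1)
    (hG : Van (insert g {f}) (G0 ka f g ω)) {r : ℕ} (hr : r < H g) (x : X) (y : Y) :
    KM H g (dn f g d) w' (Psn ka H f g d w Ψ) ω r x y =
      ∑ p ∈ ((range K).powerset ×ˢ (range K).powerset) ×ˢ I, (cc p.1.1 p.1.2 * cf p.2) *
        (wal p.1.1 r * ∑ k ∈ range (H f), wal (w' f) k *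
          (Ph H' tm (fun j => if j ∈ Bs f g then p.2.2 j else ∅) ((insert g {f})ᶜ)
            (G0 ka f g ω) (Function.update (Function.update 0 g r) f k) *
          KM H f d (fun j => if j ∈ Bs f g then p.2.1 j else Function.update w g p.1.2 j)
            Ψ ω k x y)) := by
  classical
  -- for one value of the index of `f`
  have h1 : ∀ k, k < H f → Ph H (dn f g d) w' (As f g ∪ Bs f g)
      (fun c => Psn ka H f g d w Ψ x y c ω) (Function.update (Function.update 0 g r) f k) =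
      ∑ p ∈ ((range K).powerset ×ˢ (range K).powerset) ×ˢ I, (cc p.1.1 p.1.2 * cf p.2) *
        (wal p.1.1 r *
          (Ph H' tm (fun j => if j ∈ Bs f g then p.2.2 j else ∅) ((insert g {f})ᶜ)
            (G0 ka f g ω) (Function.update (Function.update 0 g r) f k) *
          KM H f d (fun j => if j ∈ Bs f g then p.2.1 j else Function.update w g p.1.2 j)
            Ψ ω k x y)) := by
    intro k hk
    set ck : Fin (m + 1) → ℕ := Function.update (Function.update 0 g r) f k with hck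
    have hckf : ck f = k := by rw [hck, Function.update_self]
    have hckg : ck g = r := by
      rw [hck, Function.update_of_ne hfg, Function.update_self]
    set c2 : Fin (m + 1) → ℕ := fun j => if j ∈ As f g then H j else ck j with hc2
    have hfA : f ∉ As f g := fun h => f_notMem f g (mem_union_left _ h)
    have hfB : f ∉ Bs f g := fun h => f_notMem f g (mem_union_right _ h)
    have hc2f : c2 f = k := by rw [hc2]; simp only; rw [if_neg hfA, hckf]
    have hc2g : c2 g = r := by rw [hc2]; simp only; rw [if_neg (g_notMem_A f g), hckg]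
    rw [hP.union H (dn f g d) w' (As f g) (Bs f g) _ ck (disj_AB f g),
      Ph_top2 H (dn f g d) w' (As f g) _ ck (by
        intro j hj
        rw [mem_As] at hj
        unfold dn
        rw [if_neg hj.2, if_pos hj.1])]
    change Ph H (dn f g d) w' (Bs f g) (fun c => Psn ka H f g d w Ψ x y c ω) c2 = _
    have hbox : ∀ l ∈ bx H (Bs f g) c2, l f = k ∧ l g = r ∧ ∀ j, l j ≤ H j := by
      intro l hl
      rw [mem_bx] at hl
      refine ⟨by rw [(hl f).2 hfB, hc2f], by rw [(hl g).2 (g_notMem_B f g), hc2g], fun j => ?_⟩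
      by_cases hjB : j ∈ Bs f g
      · exact (hl j).1 hjB
      · rw [(hl j).2 hjB, hc2]
        simp only
        by_cases hjA : j ∈ As f g
        · rw [if_pos hjA]
        · rw [if_neg hjA]
          by_cases hjf : j = f
          · rw [hjf, hckf]; exact hk.le
          · by_cases hjg : j = g
            · rw [hjg, hckg]; exact hr.le
            · exfalso
              have : j ∈ (univ : Finset (Fin (m + 1))).erase g := mem_erase.2 ⟨hjg, mem_univ _⟩
              rw [erase_g hfg, mem_insert, mem_union] at this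
              rcases this with h | h | h
              · exact hjf h
              · exact hjA h
              · exact hjB h
    rw [hP.cg H (dn f g d) w' (Bs f g) _ (fun l => ∑ S ∈ (range K).powerset,
      ∑ T ∈ (range K).powerset, cc S T * (wal S r *
        (Ph H d (Function.update w g T) (insert g (As f g)) (fun c => Ψ x y c ω) l *
          G0 ka f g ω l))) c2 (by
        intro l hl
        obtain ⟨b1, b2, b3⟩ := hbox l hl
        rw [psn_eq hP hfg hK hcc x y ω (by rw [b1]; exact hk) (by rw [b2]; exact hr)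
          (hβ l b3 (by rw [b1]; exact hk)), b2]
        rfl)]
    rw [hP.sum, Finset.sum_product, Finset.sum_product]
    refine Finset.sum_congr rfl fun S _ => ?_
    rw [hP.sum]
    refine Finset.sum_congr rfl fun T _ => ?_
    rw [hP.smul, hP.smul, hI _ _ (fun j hj c hc => hG c j (by
        rw [← mem_compl, compl_gf]
        exact mem_union_right _ hj) hc) (by
        intro j hj hdj c hc
        apply Ph_zero
        intro l hl
        have hjA : j ∉ insert g (As f g) := fun h => disjoint_left.1 (disj_BgA f g) hj h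
        have hjf : j ≠ f := (mem_Bs.1 hj).2
        apply hK.van x y l j ω hjf
        · have : dn f g d j = d j := by
            unfold dn
            rw [if_neg hjf, if_neg (not_lt.2 (mem_Bs.1 hj).1.le)]
          rw [← this, hdj]
        · rw [((mem_bx.1 hl) j).2 hjA, hc]), Finset.mul_sum, Finset.mul_sum]
    refine Finset.sum_congr rfl fun i _ => ?_
    have e2 := part_F hP hfg (H := H) (d := d) (w := w) (fun c => Ψ x y c ω) i.1 T c2
    have e3 := part_G hP hH hG i.2 ck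
    rw [hc2f] at e2
    rw [e2]
    simp only
    rw [← e3]
    unfold KM
    ring
  -- the sum over the index of `f`
  have hKM : KM H g (dn f g d) w' (Psn ka H f g d w Ψ) ω r x y =
      ∑ k ∈ range (H f), wal (w' f) k * Ph H (dn f g d) w' (As f g ∪ Bs f g)
      (fun c => Psn ka H f g d w Ψ x y c ω) (Function.update (Function.update 0 g r) f k) := by
    unfold KM
    rw [erase_g hfg, hP.ins H (dn f g d) w' (As f g ∪ Bs f g) f _ _ (f_notMem f g)]
    unfold Fu
    rw [Finset.sum_range_succ]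
    beta_reduce
    have e4 : Ph H (dn f g d) w' (As f g ∪ Bs f g)
        (fun c => Psn ka H f g d w Ψ x y c ω)
        (Function.update (Function.update 0 g r) f (H f)) = 0 := by
      apply Ph_zero
      intro l hl
      unfold Psn
      rw [if_neg]
      rw [((mem_bx.1 hl) f).2 (f_notMem f g), Function.update_self]
      exact lt_irrefl _
    rw [e4, mul_zero, add_zero]
    refine Finset.sum_congr rfl fun k _ => ?_
    congr 1
    unfold wt dn
    rw [if_pos rfl, if_pos rfl]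
  rw [hKM, Finset.sum_congr rfl fun k hk => by rw [h1 k (mem_range.1 hk)]]
  simp_rw [Finset.mul_sum]
  rw [Finset.sum_comm]
  refine Finset.sum_congr rfl fun p _ => Finset.sum_congr rfl fun k _ => ?_
  ring

end key

/-- Walsh functions are bounded by one -/
theorem wal_le (S : Finset ℕ) (n : ℕ) : |wal S n| ≤ 1 := by
  unfold wal
  rw [Finset.abs_prod]
  exact le_of_eq (Finset.prod_eq_one fun j _ => by split_ifs <;> simp)

end Rnrm7

open Rnrm7 in
/-- RNRM -/
theorem rnrm_7 (hU : StUv) (hP : StPhi) (hW : StWalx) (hM : StMst) (hPr : StPrd) : StRnrm := by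
  intro m
  obtain ⟨C0, n0, hC0, hUV⟩ := hU m
  refine ⟨C0 + 3, n0 + m + 2, by linarith, ?_⟩
  intro L K lam b bs u Z W ka H f g d w X Y _ _ Ψ ω B hL hLK hHL hE hbs0 hbs hsm hGl hfg hw hK hB
    hKN
  have hT1 : (1 : ℝ) ≤ T0 K := by
    unfold T0
    have : (0 : ℝ) ≤ (K : ℝ) := Nat.cast_nonneg K
    linarith
  have hb0 : 0 ≤ b := (hbs0 0).trans (hbs 0)
  have hHK : ∀ j, H j < 2 ^ K := fun j => (hHL j).trans_lt hLK
  intro w' hw'
  rw [SQ_iff]
  -- the trivial case
  rcases Nat.eq_zero_or_pos (H f) with hf0 | hf0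
  · have hz : ∀ r x y, KM H g (dn f g d) w' (Psn ka H f g d w Ψ) ω r x y = 0 := by
      intro r x y
      unfold KM
      apply Ph_zero
      intro l hl
      unfold Psn
      rw [if_neg]
      rw [hf0]
      exact Nat.not_lt_zero _
    have hB' : 0 ≤ ((C0 + 3) * T0 K ^ (n0 + m + 2) * b) ^ 2 * B := by positivity
    constructor
    · intro v
      simp only [hz, zero_mul, Finset.sum_const_zero, ne_eq, OfNat.ofNat_ne_zero, not_false_eq_true,
        zero_pow]
      exact mul_nonneg hB' (Finset.sum_nonneg fun _ _ => sq_nonneg _)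
    · intro v
      simp only [hz, zero_mul, Finset.sum_const_zero, ne_eq, OfNat.ofNat_ne_zero, not_false_eq_true,
        zero_pow]
      exact mul_nonneg hB' (Finset.sum_nonneg fun _ _ => sq_nonneg _)
  -- the class `H'`
  set H' : Fin (m + 1) → ℕ := Function.update H f (H f - 1) with hH'
  have hH'f : H' f = H f - 1 := by rw [hH', Function.update_self]
  have hH'j : ∀ j, j ≠ f → H' j = H j := fun j hj => by rw [hH', Function.update_of_ne hj]
  have hH'K : ∀ j, H' j < 2 ^ K := by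
    intro j
    by_cases hj : j = f
    · rw [hj, hH'f]
      exact lt_of_le_of_lt (Nat.sub_le _ _) (hHK f)
    · rw [hH'j j hj]; exact hHK j
  have hH'le : H' ≤ H := by
    intro j
    by_cases hj : j = f
    · rw [hj, hH'f]; exact Nat.sub_le _ _
    · rw [hH'j j hj]
  have hH'ne : H' ≠ H := by
    intro h
    have := congrFun h f
    rw [hH'f] at this
    omega
  have hG := hGl H' hH'le hH'ne
  have hNm : ∀ D : Finset (Fin (m + 1)), D.Nonempty → Nm K H' D b (fun c => ka D c ω) :=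
    fun D hD => Nm_mono (hbs0 _) (hbs _) (hG D hD)
  have hVan : ∀ D : Finset (Fin (m + 1)), D.Nonempty → Van D (fun c => ka D c ω) :=
    fun D hD c p hp hc => hE.van D c ω p hD hp hc
  -- the constants
  have hp1 : (1 : ℝ) ≤ T0 K ^ (n0 + m + 2) := one_le_pow₀ hT1
  have hTn : T0 K ^ n0 ≤ T0 K ^ (n0 + m + 2) := pow_le_pow_right₀ hT1 (by omega)
  have hTm : T0 K ^ (m + 1) ≤ T0 K ^ (n0 + m + 2) := pow_le_pow_right₀ hT1 (by omega)
  have hTm2 : T0 K ^ (m + 2) ≤ T0 K ^ (n0 + m + 2) := pow_le_pow_right₀ hT1 (by omega)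
  have hT0 : (0 : ℝ) ≤ T0 K := by linarith
  have hX0 : 0 ≤ T0 K ^ (n0 + m + 2) * b := by positivity
  have hsm1 : C0 * T0 K ^ n0 * b ≤ 1 := by
    have h1 : C0 * T0 K ^ n0 * b ≤ C0 * T0 K ^ (n0 + m + 2) * b := by
      apply mul_le_mul_of_nonneg_right _ hb0
      exact mul_le_mul_of_nonneg_left hTn (by linarith)
    have h2 : C0 * T0 K ^ (n0 + m + 2) * b ≤ (C0 + 3) * T0 K ^ (n0 + m + 2) * b := by
      have : (C0 + 3) * T0 K ^ (n0 + m + 2) * b =
        C0 * T0 K ^ (n0 + m + 2) * b + 3 * (T0 K ^ (n0 + m + 2) * b) := by ring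
      rw [this]
      linarith
    exact h1.trans (h2.trans hsm)
  have hsm2 : T0 K ^ (m + 1) * b < 1 := by
    have h1 : T0 K ^ (m + 1) * b ≤ T0 K ^ (n0 + m + 2) * b :=
      mul_le_mul_of_nonneg_right hTm hb0
    have h2 : (C0 + 3) * (T0 K ^ (n0 + m + 2) * b) ≤ 1 := by
      rw [← mul_assoc]; exact hsm
    nlinarith
  -- the multiplier
  obtain ⟨hU1, hU2, -, -⟩ := hUV K H' g b b (fun D c => ka D c ω) {f} (fun _ => ∅) hH'K
    (fun _ => empty_subset _) hb0 hb0 hsm1 hVan hNm (by rw [mem_singleton]; exact hfg)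
    (singleton_nonempty f) (hNm _ (insert_nonempty _ _))
  have hU1' : Nm K H' (insert g {f}) (2 * b + C0 * T0 K ^ n0 * b ^ 2) (G0 ka f g ω) := hU1
  have hU2' : Van (insert g {f}) (G0 ka f g ω) := hU2
  set b' : ℝ := 2 * b + C0 * T0 K ^ n0 * b ^ 2 with hb'
  have hb'0 : 0 ≤ b' := by rw [hb']; positivity
  have hb'3 : b' ≤ 3 * b := by
    have : C0 * T0 K ^ n0 * b ^ 2 = (C0 * T0 K ^ n0 * b) * b := by ring
    rw [hb', this]
    have h1 : (C0 * T0 K ^ n0 * b) * b ≤ 1 * b := mul_le_mul_of_nonneg_right hsm1 hb0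
    linarith
  have hβ : ∀ l : Fin (m + 1) → ℕ, (∀ j, l j ≤ H j) → l f < H f → |ka {g} l ω| < 1 := by
    intro l hl hlf
    refine lt_of_le_of_lt ((hPr m).sup K H' {g} b (fun c => ka {g} c ω) hH'K hb0
      (hVan _ (singleton_nonempty g)) (hNm _ (singleton_nonempty g)) l ?_) hsm2
    intro j
    by_cases hj : j = f
    · rw [hj, hH'f]; omega
    · rw [hH'j j hj]; exact hl j
  -- the expansions
  obtain ⟨cc, hcc1, hcc2⟩ := (hW K (H g) (hHK g)).le (d g) (w g) (hw g)
  obtain ⟨I, cf, hI1, hI2, hI3⟩ := (hM m).star K H (dn f g d) w' (Bs f g) hHK hw'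
  have key := fun r (hr : r < H g) x y => km_eq (hP m) hfg hK hH'j hcc2 hI3 hβ hU2' hr x y
  set s : Finset ((Finset ℕ × Finset ℕ) ×
    ((Fin (m + 1) → Finset ℕ) × (Fin (m + 1) → Finset ℕ))) :=
    ((range K).powerset ×ˢ (range K).powerset) ×ˢ I with hs
  set a : (Finset ℕ × Finset ℕ) × ((Fin (m + 1) → Finset ℕ) × (Fin (m + 1) → Finset ℕ)) → ℝ :=
    fun p => cc p.1.1 p.1.2 * cf p.2 with ha
  have hsum : ∑ p ∈ s, |a p| ≤ T0 K ^ (m + 2) := by
    have e1 : ∑ p ∈ s, |a p| = (∑ S ∈ (range K).powerset, ∑ T ∈ (range K).powerset, |cc S T|) *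
        ∑ i ∈ I, |cf i| := by
      rw [hs, Finset.sum_product, Finset.sum_product, Finset.sum_mul]
      refine Finset.sum_congr rfl fun S _ => ?_
      rw [Finset.sum_mul]
      refine Finset.sum_congr rfl fun T _ => ?_
      rw [Finset.mul_sum]
      refine Finset.sum_congr rfl fun i _ => ?_
      rw [ha]
      exact abs_mul _ _
    have hcard : (Bs f g).card ≤ m + 1 := by
      have := Finset.card_le_univ (Bs f g)
      rwa [Fintype.card_fin] at this
    have e2 : ∑ i ∈ I, |cf i| ≤ T0 K ^ (m + 1) :=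
      hI1.trans (pow_le_pow_right₀ hT1 hcard)
    rw [e1, pow_succ']
    exact mul_le_mul hcc1 e2 (Finset.sum_nonneg fun _ _ => abs_nonneg _) hT0
  have hsum0 : 0 ≤ ∑ p ∈ s, |a p| := Finset.sum_nonneg fun _ _ => abs_nonneg _
  have hconst : (∑ p ∈ s, |a p|) ^ 2 * (b' ^ 2 * B) ≤
      ((C0 + 3) * T0 K ^ (n0 + m + 2) * b) ^ 2 * B := by
    rw [← mul_assoc, ← mul_pow]
    apply mul_le_mul_of_nonneg_right _ hB
    apply pow_le_pow_left₀ (mul_nonneg hsum0 hb'0)
    calc (∑ p ∈ s, |a p|) * b' ≤ T0 K ^ (n0 + m + 2) * (3 * b) :=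
          mul_le_mul (hsum.trans hTm2) hb'3 hb'0 (by positivity)
      _ ≤ (C0 + 3) * T0 K ^ (n0 + m + 2) * b := by
          have : (C0 + 3) * T0 K ^ (n0 + m + 2) * b =
            C0 * (T0 K ^ (n0 + m + 2) * b) + T0 K ^ (n0 + m + 2) * (3 * b) := by ring
          rw [this]
          have : 0 ≤ C0 * (T0 K ^ (n0 + m + 2) * b) := by positivity
          linarith
  -- the matrices
  have hN : ∀ p ∈ s, ∀ φ : ℕ → ℝ, ∑ r ∈ range (H g), (∑ k ∈ range (H f),
      Ph H' tm (fun j => if j ∈ Bs f g then p.2.2 j else ∅) ((insert g {f})ᶜ)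
        (G0 ka f g ω) (Function.update (Function.update 0 g r) f k) * φ k) ^ 2 ≤
      b' ^ 2 * ∑ k ∈ range (H f), φ k ^ 2 := by
    intro p hp φ
    rw [hs, mem_product] at hp
    have h1 : ∀ j, (fun j => if j ∈ Bs f g then p.2.2 j else (∅ : Finset ℕ)) j ⊆ range K := by
      intro j
      simp only
      split_ifs
      · exact (hI2 p.2 hp.2 j).2
      · exact empty_subset _
    have h2 := mat2 hfg (hU1' _ h1) φ
    have e1 : H' f + 1 = H f := by rw [hH'f]; omega
    rw [e1, hH'j g hfg] at h2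
    refine le_trans ?_ h2
    apply Finset.sum_le_sum_of_subset_of_nonneg
    · exact range_subset_range.2 (Nat.le_succ _)
    · intro r _ _
      exact sq_nonneg _
  have hw2 : ∀ p ∈ s, ∀ j, (fun j => if j ∈ Bs f g then p.2.1 j else
      Function.update w g p.1.2 j) j ⊆ range K := by
    intro p hp j
    rw [hs, mem_product, mem_product] at hp
    simp only
    split_ifs
    · exact (hI2 p.2 hp.2 j).1
    · by_cases hj : j = g
      · rw [hj, Function.update_self]
        exact mem_powerset.1 hp.1.2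
      · rw [Function.update_of_ne hj]
        exact hw j
  constructor
  · refine SH.mono (SH.congr (SH.sum (B := b' ^ 2 * B) s a _ ?_) key) hconst
    intro p hp
    exact SH.mat ((SQ_iff _ _ _).1 (hKN _ (hw2 p hp))).1 (fun k r =>
      Ph H' tm (fun j => if j ∈ Bs f g then p.2.2 j else ∅) ((insert g {f})ᶜ)
        (G0 ka f g ω) (Function.update (Function.update 0 g r) f k)) (wal p.1.1) (wal (w' f))
      (wal_le _) (wal_le _) (hN p hp)
  · refine SH.mono (SH.congr (SH.sum (B := b' ^ 2 * B) s a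
      (fun p r y x => wal p.1.1 r * ∑ k ∈ range (H f), wal (w' f) k *
          (Ph H' tm (fun j => if j ∈ Bs f g then p.2.2 j else ∅) ((insert g {f})ᶜ)
            (G0 ka f g ω) (Function.update (Function.update 0 g r) f k) *
          KM H f d (fun j => if j ∈ Bs f g then p.2.1 j else Function.update w g p.1.2 j)
            Ψ ω k x y)) ?_) (fun r hr y x => key r hr x y)) hconst
    intro p hp
    exact SH.mat (M := fun k y x => KM H f d
      (fun j => if j ∈ Bs f g then p.2.1 j else Function.update w g p.1.2 j) Ψ ω k x y)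
      ((SQ_iff _ _ _).1 (hKN _ (hw2 p hp))).2 (fun k r =>
      Ph H' tm (fun j => if j ∈ Bs f g then p.2.2 j else ∅) ((insert g {f})ᶜ)
        (G0 ka f g ω) (Function.update (Function.update 0 g r) f k)) (wal p.1.1) (wal (w' f))
      (wal_le _) (wal_le _) (hN p hp)

end Pool.Agent.SHXA
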