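import Pool.Agent.Lib.MP_a7b2aa_an.SHX.StmtsX65

/-!
SHX, track ALL: module TOPU (Schur's test for flat band arrays).
-/

set_option autoImplicit false

namespace Pool.Agent.SHXA

open Finset Pool.Agent.SB3 Pool.Agent.SBT Pool.Agent.SBD Pool.Agent.SHD Pool.Agent.SHX
open Pool.Agent.Lib.MP_a7b2aa_an.SHX

namespace Topu19

open Classical in
/-- Schur's test -/
theorem schur {α β : Type} (A : Finset α) (B : Finset β) (M : α → β → ℝ) (E : α → β → Prop)
    (t : ℝ) (r c : ℝ) (hr0 : 0 ≤ r)
    (hM : ∀ x ∈ A, ∀ y ∈ B, |M x y| ≤ t) (hE : ∀ x ∈ A, ∀ y ∈ B, ¬ E x y → M x y = 0)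
    (hr : ∀ x ∈ A, ((B.filter (fun y => E x y)).card : ℝ) ≤ r)
    (hc : ∀ y ∈ B, ((A.filter (fun x => E x y)).card : ℝ) ≤ c) (u : β → ℝ) :
    ∑ x ∈ A, (∑ y ∈ B, M x y * u y) ^ 2 ≤ t ^ 2 * (r * c) * ∑ y ∈ B, u y ^ 2 := by
  have h1 : ∀ x ∈ A, (∑ y ∈ B, M x y * u y) ^ 2 ≤
      t ^ 2 * r * ∑ y ∈ B, (if E x y then u y ^ 2 else 0) := by
    intro x hx
    have h2 : ∑ y ∈ B, M x y * u y = ∑ y ∈ B.filter (fun y => E x y), M x y * u y := by
      rw [Finset.sum_filter]
      refine Finset.sum_congr rfl fun y hy => ?_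
      split_ifs with h
      · rfl
      · rw [hE x hx y hy h, zero_mul]
    have h3 : ∑ y ∈ B.filter (fun y => E x y), M x y ^ 2 ≤ t ^ 2 * r := by
      calc ∑ y ∈ B.filter (fun y => E x y), M x y ^ 2 ≤
            ∑ y ∈ B.filter (fun y => E x y), t ^ 2 := by
            refine Finset.sum_le_sum fun y hy => ?_
            rw [Finset.mem_filter] at hy
            rw [← sq_abs]
            exact pow_le_pow_left₀ (abs_nonneg _) (hM x hx y hy.1) 2
        _ = ((B.filter (fun y => E x y)).card : ℝ) * t ^ 2 := by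
            rw [Finset.sum_const, nsmul_eq_mul]
        _ ≤ r * t ^ 2 := mul_le_mul_of_nonneg_right (hr x hx) (sq_nonneg t)
        _ = t ^ 2 * r := mul_comm _ _
    rw [h2, ← Finset.sum_filter]
    refine (Finset.sum_mul_sq_le_sq_mul_sq _ _ _).trans ?_
    exact mul_le_mul_of_nonneg_right h3 (Finset.sum_nonneg fun _ _ => sq_nonneg _)
  refine (Finset.sum_le_sum h1).trans ?_
  rw [← Finset.mul_sum, Finset.sum_comm]
  have h4 : ∑ y ∈ B, ∑ x ∈ A, (if E x y then u y ^ 2 else 0) ≤ c * ∑ y ∈ B, u y ^ 2 := by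
    rw [Finset.mul_sum]
    refine Finset.sum_le_sum fun y hy => ?_
    rw [← Finset.sum_filter, Finset.sum_const, nsmul_eq_mul]
    exact mul_le_mul_of_nonneg_right (hc y hy) (sq_nonneg _)
  calc t ^ 2 * r * ∑ y ∈ B, ∑ x ∈ A, (if E x y then u y ^ 2 else 0) ≤
        t ^ 2 * r * (c * ∑ y ∈ B, u y ^ 2) := mul_le_mul_of_nonneg_left h4 (by positivity)
    _ = t ^ 2 * (r * c) * ∑ y ∈ B, u y ^ 2 := by ring

theorem mem_bx {m : ℕ} {H : Fin (m + 1) → ℕ} {Q : Finset (Fin (m + 1))}
    {x : Fin (m + 1) → ℕ} : x ∈ bx H Q 0 ↔ (∀ a, a ∈ Q → x a ≤ H a) ∧ ∀ a, a ∉ Q → x a = 0 := by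
  unfold bx
  rw [Fintype.mem_piFinset]
  constructor
  · intro h
    refine ⟨fun a ha => ?_, fun a ha => ?_⟩
    · have := h a
      rw [if_pos ha, Finset.mem_range] at this
      omega
    · have := h a
      rw [if_neg ha, Finset.mem_singleton] at this
      exact this
  · rintro ⟨h1, h2⟩ a
    split_ifs with ha
    · rw [Finset.mem_range]
      have := h1 a ha
      omega
    · rw [Finset.mem_singleton]
      exact h2 a ha

theorem card_bx {m L : ℕ} {H : Fin (m + 1) → ℕ} (hH : ∀ a, H a ≤ L)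
    (Q : Finset (Fin (m + 1))) : ((bx H Q 0).card : ℝ) ≤ ((L : ℝ) + 1) ^ Q.card := by
  unfold bx
  rw [Fintype.card_piFinset]
  have h1 : ∏ a, (if a ∈ Q then range (H a + 1) else {(0 : Fin (m + 1) → ℕ) a}).card =
      ∏ a ∈ Q, (H a + 1) := by
    rw [← Finset.prod_subset (Finset.subset_univ Q)]
    · refine Finset.prod_congr rfl fun a ha => ?_
      rw [if_pos ha, Finset.card_range]
    · intro a _ ha
      rw [if_neg ha, Finset.card_singleton]
  rw [h1]
  push_cast
  calc ∏ a ∈ Q, ((H a : ℝ) + 1) ≤ ∏ a ∈ Q, ((L : ℝ) + 1) := by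
        refine Finset.prod_le_prod (fun a _ => by positivity) fun a _ => ?_
        have : (H a : ℝ) ≤ L := by exact_mod_cast hH a
        linarith
    _ = ((L : ℝ) + 1) ^ Q.card := by rw [Finset.prod_const]

/-- the band meets the box in few points -/
theorem card_band {m L N R : ℕ} {H : Fin (m + 1) → ℕ} (hH : ∀ a, H a ≤ L)
    {Q : Finset (Fin (m + 1))} (hQ : Q.Nonempty) (s : ℕ) :
    (((bx H Q 0).filter (fun y => dst (s + ∑ a, y a) N ≤ R)).card : ℝ) ≤
      (2 * (R : ℝ) + 1) * ((L : ℝ) + 1) ^ (Q.card - 1) := by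
  classical
  obtain ⟨e, he⟩ := hQ
  set S := (bx H Q 0).filter (fun y => dst (s + ∑ a, y a) N ≤ R) with hS
  have h1 : S.card ≤ ((bx H (Q.erase e) 0) ×ˢ (Finset.Icc (N - R) (N + R))).card := by
    refine Finset.card_le_card_of_injOn
      (fun y => (Function.update y e 0, s + ∑ a, y a)) ?_ ?_
    · intro y hy
      rw [Finset.mem_coe, hS, Finset.mem_filter, mem_bx] at hy
      rw [Finset.mem_coe, Finset.mem_product, mem_bx, Finset.mem_Icc]
      refine ⟨⟨fun a ha => ?_, fun a ha => ?_⟩, ?_, ?_⟩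
      · rw [Finset.mem_erase] at ha
        simp only
        rw [Function.update_of_ne ha.1]
        exact hy.1.1 a ha.2
      · by_cases hae : a = e
        · rw [hae]
          simp
        · simp only
          rw [Function.update_of_ne hae]
          apply hy.1.2
          intro h
          exact ha (Finset.mem_erase.2 ⟨hae, h⟩)
      · have := hy.2
        unfold dst at this
        simp only
        omega
      · have := hy.2
        unfold dst at this
        simp only
        omega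
    · intro y hy z hz hyz
      simp only [Prod.mk.injEq] at hyz
      obtain ⟨h2, h3⟩ := hyz
      have h4 : ∀ a, a ≠ e → y a = z a := by
        intro a ha
        have := congrFun h2 a
        rwa [Function.update_of_ne ha, Function.update_of_ne ha] at this
      have h5 : ∑ a ∈ univ.erase e, y a = ∑ a ∈ univ.erase e, z a :=
        Finset.sum_congr rfl fun a ha => h4 a (Finset.ne_of_mem_erase ha)
      have h6 := Finset.add_sum_erase univ y (Finset.mem_univ e)
      have h7 := Finset.add_sum_erase univ z (Finset.mem_univ e)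
      funext a
      by_cases hae : a = e
      · rw [hae]
        omega
      · exact h4 a hae
  rw [Finset.card_product, Nat.card_Icc] at h1
  have h2 : ((bx H (Q.erase e) 0).card : ℝ) ≤ ((L : ℝ) + 1) ^ (Q.card - 1) := by
    have := card_bx hH (Q.erase e)
    rwa [Finset.card_erase_of_mem he] at this
  have h3 : ((N + R + 1 - (N - R) : ℕ) : ℝ) ≤ 2 * (R : ℝ) + 1 := by
    have : N + R + 1 - (N - R) ≤ 2 * R + 1 := by omega
    exact_mod_cast this
  calc (S.card : ℝ) ≤ (((bx H (Q.erase e) 0).card * (N + R + 1 - (N - R)) : ℕ) : ℝ) := by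
        exact_mod_cast h1
    _ = ((bx H (Q.erase e) 0).card : ℝ) * ((N + R + 1 - (N - R) : ℕ) : ℝ) := by
        push_cast
        ring
    _ ≤ ((L : ℝ) + 1) ^ (Q.card - 1) * (2 * (R : ℝ) + 1) :=
        mul_le_mul h2 h3 (Nat.cast_nonneg _) (by positivity)
    _ = _ := mul_comm _ _

end Topu19

/-- TOPU -/
theorem topu_19 : StTopu := by
  classical
  intro m L N R K lam η u H hm hH hlam hη hu hband hsz w _
  have hPh : ∀ F : (Fin (m + 1) → ℕ) → ℝ, Ph H tm w (univ : Finset (Fin (m + 1)))ᶜ F = F := by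
    intro F
    funext c
    unfold Ph bx
    rw [Finset.compl_univ]
    have h1 : Fintype.piFinset (fun a : Fin (m + 1) =>
        if a ∈ (∅ : Finset (Fin (m + 1))) then range (H a + 1) else {c a}) = {c} := by
      ext x
      rw [Fintype.mem_piFinset, Finset.mem_singleton]
      simp only [Finset.notMem_empty, if_false, Finset.mem_singleton]
      exact funext_iff.symm
    rw [h1, Finset.sum_singleton, Finset.prod_empty, one_mul]
  rw [hPh]
  have hL1 : (1 : ℝ) ≤ (L : ℝ) + 1 := by
    have : (0 : ℝ) ≤ L := Nat.cast_nonneg _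
    linarith
  have hR1 : (1 : ℝ) ≤ (2 * (R : ℝ) + 1) ^ 2 := by
    have : (0 : ℝ) ≤ R := Nat.cast_nonneg _
    apply one_le_pow₀
    linarith
  constructor
  · intro x _
    have h1 : lam ^ 2 ≤ η ^ 2 := by
      refine le_trans ?_ hsz
      have h2 : (1 : ℝ) ≤ ((L : ℝ) + 1) ^ (m - 1) := one_le_pow₀ hL1
      calc lam ^ 2 = 1 * lam ^ 2 * 1 := by ring
        _ ≤ (2 * (R : ℝ) + 1) ^ 2 * lam ^ 2 * ((L : ℝ) + 1) ^ (m - 1) :=
            mul_le_mul (mul_le_mul_of_nonneg_right hR1 (sq_nonneg _)) h2 zero_le_one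
              (by positivity)
    have h3 : lam ≤ η := abs_le_of_sq_le_sq' h1 hη |>.2
    rw [abs_mul, abs_of_nonneg hlam]
    calc lam * |u x| ≤ lam * 1 := mul_le_mul_of_nonneg_left (hu x) hlam
      _ = lam := mul_one _
      _ ≤ η := h3
  · intro C1 C2 hd hun h1 h2 v
    have hcard : (C1.card - 1) + (C2.card - 1) = m - 1 := by
      have e1 := Finset.card_union_of_disjoint hd
      rw [hun, Finset.card_univ, Fintype.card_fin] at e1
      have := h1.card_pos
      have := h2.card_pos
      omega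
    have key := Topu19.schur (bx H C1 0) (bx H C2 0) (fun x y => lam * u (x + y))
      (fun x y => dst (∑ a, (x + y) a) N ≤ R) lam
      ((2 * (R : ℝ) + 1) * ((L : ℝ) + 1) ^ (C2.card - 1))
      ((2 * (R : ℝ) + 1) * ((L : ℝ) + 1) ^ (C1.card - 1)) (by positivity)
      (fun x _ y _ => by
        rw [abs_mul, abs_of_nonneg hlam]
        calc lam * |u (x + y)| ≤ lam * 1 := mul_le_mul_of_nonneg_left (hu _) hlam
          _ = lam := mul_one _)
      (fun x _ y _ hE => by
        rw [hband _ (not_le.1 hE), mul_zero])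
      (fun x _ => by
        have h3 : ∀ y : Fin (m + 1) → ℕ, ∑ a, (x + y) a = ∑ a, x a + ∑ a, y a := by
          intro y
          rw [← Finset.sum_add_distrib]
          rfl
        simp only [h3]
        exact Topu19.card_band hH h2 _)
      (fun y _ => by
        have h3 : ∀ x : Fin (m + 1) → ℕ, ∑ a, (x + y) a = ∑ a, y a + ∑ a, x a := by
          intro x
          rw [← Finset.sum_add_distrib]
          exact Finset.sum_congr rfl fun a _ => add_comm _ _
        simp only [h3]
        exact Topu19.card_band hH h1 _) v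
    refine key.trans (mul_le_mul_of_nonneg_right ?_ (Finset.sum_nonneg fun _ _ => sq_nonneg _))
    refine le_trans (le_of_eq ?_) hsz
    rw [← hcard, pow_add]
    ring

end Pool.Agent.SHXA
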