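import Pool.Agent.Lib.MP_a7b2aa_an.SHX.StmtsX65

/-!
SHX, track ALL, module UV (seat 39): norms of the coefficients of the star formula.
-/

set_option autoImplicit false

namespace Pool.Agent.SHXA.Uv39

open Finset Pool.Agent.SHXA Pool.Agent.Lib.MP_a7b2aa_an.SHX

variable {m : ℕ}

lemma T0_ge (K : ℕ) : 1 ≤ T0 K := by
  have : (0 : ℝ) ≤ (K : ℝ) := Nat.cast_nonneg K
  unfold T0; linarith

lemma FN_zero (H : Fin (m + 1) → ℕ) (C : Finset (Fin (m + 1))) : FN H C 0 (fun _ => 0) := by
  refine ⟨fun x _ => by simp, fun C1 C2 _ _ _ _ u => by simp⟩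

lemma FN_sum (hA : ArrF m) {ι : Type} (H : Fin (m + 1) → ℕ) (C : Finset (Fin (m + 1)))
    (s : Finset ι) (a : ι → ℝ) (F : ι → (Fin (m + 1) → ℕ) → ℝ) (ha : ∀ i ∈ s, 0 ≤ a i)
    (h : ∀ i ∈ s, FN H C (a i) (F i)) : FN H C (∑ i ∈ s, a i) (fun c => ∑ i ∈ s, F i c) := by
  classical
  induction s using Finset.induction_on with
  | empty => simpa using FN_zero H C
  | insert i s hi ih =>
    have h1 := ih (fun j hj => ha j (mem_insert_of_mem hj)) (fun j hj => h j (mem_insert_of_mem hj))
    have h2 := hA.add H C (a i) (∑ j ∈ s, a j) (F i) (fun c => ∑ j ∈ s, F j c)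
      (ha i (mem_insert_self i s)) (sum_nonneg fun j hj => ha j (mem_insert_of_mem hj))
      (h i (mem_insert_self i s)) h1
    rw [sum_insert hi]
    simpa only [sum_insert hi] using h2

lemma Nm_mono (hA : ArrF m) {K : ℕ} {H : Fin (m + 1) → ℕ} {C : Finset (Fin (m + 1))} {a b : ℝ}
    {F : (Fin (m + 1) → ℕ) → ℝ} (ha : 0 ≤ a) (hab : a ≤ b) (h : Nm K H C a F) : Nm K H C b F :=
  fun w hw => hA.mono H C a b _ ha hab (h w hw)

lemma Nm_cg (hPh : PhF m) (hA : ArrF m) {K : ℕ} {H : Fin (m + 1) → ℕ}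
    {C : Finset (Fin (m + 1))} {a : ℝ} {F G : (Fin (m + 1) → ℕ) → ℝ}
    (hFG : ∀ c, (∀ j, c j ≤ H j) → F c = G c) (h : Nm K H C a F) : Nm K H C a G := by
  intro w hw
  refine hA.cg H C a _ _ (fun c hc => ?_) (h w hw)
  refine hPh.cg H tm w Cᶜ F G c (fun l hl => hFG l (fun j => ?_))
  have h1 : l j ∈ (if j ∈ Cᶜ then range (H j + 1) else {c j}) := Fintype.mem_piFinset.mp hl j
  have h2 : c j ∈ (if j ∈ C then range (H j + 1) else {(0 : Fin (m + 1) → ℕ) j}) :=
    Fintype.mem_piFinset.mp hc j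
  by_cases hj : j ∈ C
  · rw [if_pos hj] at h2
    rw [if_neg (by simpa using hj), mem_singleton] at h1
    rw [mem_range] at h2
    omega
  · rw [if_pos (by simpa using hj), mem_range] at h1
    omega

lemma Nm_add (hPh : PhF m) (hA : ArrF m) {K : ℕ} {H : Fin (m + 1) → ℕ}
    {C : Finset (Fin (m + 1))} {a b : ℝ} {F G : (Fin (m + 1) → ℕ) → ℝ} (ha : 0 ≤ a) (hb : 0 ≤ b)
    (hF : Nm K H C a F) (hG : Nm K H C b G) : Nm K H C (a + b) (fun c => F c + G c) := by
  intro w hw
  have h1 := hA.add H C a b _ _ ha hb (hF w hw) (hG w hw)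
  refine hA.cg H C (a + b) _ _ (fun c _ => ?_) h1
  rw [hPh.add]

lemma Nm_smul (hPh : PhF m) (hA : ArrF m) {K : ℕ} {H : Fin (m + 1) → ℕ}
    {C : Finset (Fin (m + 1))} {a : ℝ} {F : (Fin (m + 1) → ℕ) → ℝ} (r : ℝ) (ha : 0 ≤ a)
    (hF : Nm K H C a F) : Nm K H C (|r| * a) (fun c => r * F c) := by
  intro w hw
  have h1 := hA.smul H C a r _ ha (hF w hw)
  refine hA.cg H C (|r| * a) _ _ (fun c _ => ?_) h1
  rw [hPh.smul]

lemma Nm_sum (hPh : PhF m) (hA : ArrF m) {ι : Type} {K : ℕ} {H : Fin (m + 1) → ℕ}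
    {C : Finset (Fin (m + 1))} (s : Finset ι) (a : ι → ℝ) (F : ι → (Fin (m + 1) → ℕ) → ℝ)
    (ha : ∀ i ∈ s, 0 ≤ a i) (h : ∀ i ∈ s, Nm K H C (a i) (F i)) :
    Nm K H C (∑ i ∈ s, a i) (fun c => ∑ i ∈ s, F i c) := by
  intro w hw
  have h1 := FN_sum hA H C s a (fun i => Ph H tm w Cᶜ (F i)) ha (fun i hi => h i hi w hw)
  refine hA.cg H C _ _ _ (fun c _ => ?_) h1
  rw [hPh.sum]

/-- own strings `{e}`: the norm is a maximum -/
lemma Nm_single (K : ℕ) (H : Fin (m + 1) → ℕ) (e : Fin (m + 1)) (F : (Fin (m + 1) → ℕ) → ℝ) :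
    ∃ N : ℝ, 0 ≤ N ∧ Nm K H {e} N F ∧ ∀ a, Nm K H {e} a F → N ≤ a := by
  classical
  let S : Finset ((Fin (m + 1) → Finset ℕ) × (Fin (m + 1) → ℕ)) :=
    (Fintype.piFinset (fun _ => (range K).powerset)) ×ˢ bx H {e} 0
  have hS : S.Nonempty := by
    refine ⟨(fun _ => ∅, 0), mem_product.mpr ⟨?_, ?_⟩⟩
    · exact Fintype.mem_piFinset.mpr (fun _ => by simp)
    · refine Fintype.mem_piFinset.mpr (fun a => ?_)
      by_cases ha : a ∈ ({e} : Finset (Fin (m + 1)))
      · rw [if_pos ha]; simp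
      · rw [if_neg ha]; simp
  obtain ⟨p, hp, hmax⟩ := S.exists_max_image (fun p => |Ph H tm p.1 ({e} : Finset _)ᶜ F p.2|) hS
  refine ⟨|Ph H tm p.1 ({e} : Finset _)ᶜ F p.2|, abs_nonneg _, ?_, ?_⟩
  · intro w hw
    refine ⟨fun x hx => hmax (w, x) (mem_product.mpr ⟨?_, hx⟩), ?_⟩
    · exact Fintype.mem_piFinset.mpr (fun a => mem_powerset.mpr (hw a))
    · intro C1 C2 hd hu h1 h2
      exfalso
      have e1 : C1 = {e} := by
        refine (subset_singleton_iff.mp (hu ▸ subset_union_left)).resolve_left h1.ne_empty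
      have e2 : C2 = {e} := by
        refine (subset_singleton_iff.mp (hu ▸ subset_union_right)).resolve_left h2.ne_empty
      rw [e1, e2] at hd
      simp at hd
  · intro a ha
    have h1 := mem_product.mp hp
    exact (ha p.1 (fun a => mem_powerset.mp (Fintype.mem_piFinset.mp h1.1 a))).sup p.2 h1.2

/-- own string `e` and one more factor with own string `e` only -/
lemma had_single (hP : PrdF m) {K : ℕ} {H : Fin (m + 1) → ℕ} {e : Fin (m + 1)}
    {C : Finset (Fin (m + 1))} {a a' : ℝ} {F G : (Fin (m + 1) → ℕ) → ℝ}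
    (hH : ∀ j, H j < 2 ^ K) (he : e ∉ C) (ha : 0 ≤ a) (ha' : 0 ≤ a') (vF : Van (insert e C) F)
    (vG : Van {e} G) (nF : Nm K H (insert e C) a F) (nG : Nm K H {e} a' G) :
    Nm K H (insert e C) (T0 K ^ m * (a * a')) (fun c => F c * G c) := by
  have h := hP.had K H e C ∅ a a' F G hH he (notMem_empty e) (disjoint_empty_right C) ha ha' vF
    (by simpa using vG) nF (by simpa using nG)
  simpa using h

lemma inv_nm (hP : PrdF m) (hPh : PhF m) (hA : ArrF m) {K : ℕ} {H : Fin (m + 1) → ℕ}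
    {e : Fin (m + 1)} {b : ℝ} {be : (Fin (m + 1) → ℕ) → ℝ} (hH : ∀ j, H j < 2 ^ K) (hb : 0 ≤ b)
    (hb2 : T0 K ^ (m + 1) * b ≤ 1 / 2) (van : Van {e} be) (nm : Nm K H {e} b be) :
    Nm K H {e} (2 * b) (fun c => 1 / (1 + be c) - 1) ∧ Van {e} (fun c => 1 / (1 + be c) - 1) := by
  have hv : Van {e} (fun c => 1 / (1 + be c) - 1) := by
    intro c p hp hc
    simp [van c p hp hc]
  refine ⟨?_, hv⟩
  have hs : ∀ c, (∀ j, c j ≤ H j) → |be c| ≤ 1 / 2 := fun c hc =>
    (hP.sup K H {e} b be hH hb van nm c hc).trans hb2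
  obtain ⟨N, hN0, hN, hmin⟩ := Nm_single K H e (fun c => 1 / (1 + be c) - 1)
  have hT := T0_ge K
  have hTm : T0 K ^ m * b ≤ 1 / 2 := by
    refine le_trans ?_ hb2
    exact mul_le_mul_of_nonneg_right (pow_le_pow_right₀ hT (Nat.le_succ m)) hb
  have h1 := had_single (C := ∅) hP (K := K) (H := H) (e := e) hH (notMem_empty e) hb hN0
    (F := be) (G := fun c => 1 / (1 + be c) - 1) (by simpa using van) hv (by simpa using nm) hN
  have h2 : Nm K H {e} (T0 K ^ m * (b * N)) (fun c => be c * (1 / (1 + be c) - 1)) := by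
    simpa using h1
  have h0 : 0 ≤ T0 K ^ m * (b * N) := by positivity
  have h3 := Nm_add hPh hA hb h0 nm h2
  have h4 := Nm_smul hPh hA (-1) (add_nonneg hb h0) h3
  have h5 : Nm K H {e} (b + T0 K ^ m * (b * N)) (fun c => 1 / (1 + be c) - 1) := by
    have h6 : |(-1 : ℝ)| * (b + T0 K ^ m * (b * N)) = b + T0 K ^ m * (b * N) := by simp
    rw [h6] at h4
    refine Nm_cg hPh hA (fun c hc => ?_) h4
    have h7 := abs_le.mp (hs c hc)
    have h8 : (1 + be c) ≠ 0 := by linarith [h7.1]
    field_simp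
    ring
  have h6 := hmin _ h5
  have h7 : T0 K ^ m * (b * N) ≤ 1 / 2 * N := by
    calc T0 K ^ m * (b * N) = (T0 K ^ m * b) * N := by ring
      _ ≤ 1 / 2 * N := mul_le_mul_of_nonneg_right hTm hN0
  exact Nm_mono hA hN0 (by linarith) hN

/-- constants -/
def Pc (m : ℕ) : ℕ → ℝ
  | 0 => 0
  | n + 1 => 2 ^ (m + 1) * (2 + Pc m n)

lemma Pc_nonneg (m n : ℕ) : 0 ≤ Pc m n := by
  induction n with
  | zero => exact le_rfl
  | succ n ih => rw [Pc]; positivity

lemma Pc_mono (m n : ℕ) : Pc m n ≤ Pc m (n + 1) := by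
  rw [Pc]
  have h := Pc_nonneg m n
  have h2 : (1 : ℝ) ≤ 2 ^ (m + 1) := one_le_pow₀ (by norm_num)
  nlinarith

lemma card_le (D : Finset (Fin (m + 1))) (p : Finset (Fin (m + 1)) → Prop) [DecidablePred p] :
    (((D.powerset.filter p).card : ℕ) : ℝ) ≤ 2 ^ (m + 1) := by
  have h1 : (D.powerset.filter p).card ≤ 2 ^ (m + 1) := by
    refine (card_filter_le _ _).trans ?_
    rw [card_powerset]
    refine Nat.pow_le_pow_right (by norm_num) ?_
    simpa using card_le_univ D
  exact_mod_cast h1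

section star

variable {K : ℕ} {H : Fin (m + 1) → ℕ} {e : Fin (m + 1)} {b : ℝ}
  {ka : Finset (Fin (m + 1)) → (Fin (m + 1) → ℕ) → ℝ}

lemma Rn_empty (z : ℝ) (g : Finset (Fin (m + 1)) → ℝ) (n : ℕ) : Rn z g n ∅ = 1 := by
  cases n <;> simp [Rn]

lemma Rn_van (van : ∀ D, D.Nonempty → Van D (ka D)) (z : (Fin (m + 1) → ℕ) → ℝ) (n : ℕ)
    (D : Finset (Fin (m + 1))) (hD : D.Nonempty) (hc : D.card ≤ n) :
    Van (insert e D) (fun c => Rn (z c) (fun D => ka (insert e D) c) n D) := by
  intro c p hp hc0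
  cases n with
  | zero =>
    exact absurd (card_eq_zero.mp (Nat.le_zero.mp hc)) hD.ne_empty
  | succ n =>
    show Rn (z c) (fun D => ka (insert e D) c) (n + 1) D = 0
    rw [Rn, if_neg hD.ne_empty, neg_eq_zero]
    refine sum_eq_zero (fun C hC => ?_)
    rw [mem_filter, mem_powerset] at hC
    have h1 : ka (insert e C) c = 0 :=
      van _ (insert_nonempty e C) c p (fun h => hp (insert_subset_insert e hC.1 h)) hc0
    rw [h1]; ring

lemma zg_nm (hP : PrdF m) (hPh : PhF m) (hA : ArrF m) (hH : ∀ j, H j < 2 ^ K) (hb : 0 ≤ b)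
    (hTm : T0 K ^ m * b ≤ 1 / 2) {C : Finset (Fin (m + 1))} (he : e ∉ C) {a : ℝ} (ha : 0 ≤ a)
    {F : (Fin (m + 1) → ℕ) → ℝ} (vF : Van (insert e C) F) (nF : Nm K H (insert e C) a F)
    {z' : (Fin (m + 1) → ℕ) → ℝ} (vz : Van {e} z') (nz : Nm K H {e} (2 * b) z') {s : ℝ}
    (hs : |s| = 1) :
    Nm K H (insert e C) (2 * a) (fun c => s * (1 + z' c) * F c) := by
  have h0 : 0 ≤ 2 * b := by linarith
  have h1 := had_single hP hH he ha h0 vF vz nF nz
  have hT : 0 ≤ T0 K := le_trans zero_le_one (T0_ge K)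
  have h2 : T0 K ^ m * (a * (2 * b)) ≤ a := by
    calc T0 K ^ m * (a * (2 * b)) = (T0 K ^ m * b) * (2 * a) := by ring
      _ ≤ 1 / 2 * (2 * a) := mul_le_mul_of_nonneg_right hTm (by linarith)
      _ = a := by ring
  have h3 := Nm_add hPh hA ha ha nF (Nm_mono hA (by positivity) h2 h1)
  have h4 := Nm_smul hPh hA s (by linarith) h3
  rw [hs] at h4
  have e1 : 1 * (a + a) = 2 * a := by ring
  rw [e1] at h4
  refine Nm_cg hPh hA (fun c _ => ?_) h4
  ring

lemma Rn_nm (hP : PrdF m) (hPh : PhF m) (hA : ArrF m) (hH : ∀ j, H j < 2 ^ K) (hb : 0 ≤ b)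
    (hTm : T0 K ^ m * b ≤ 1 / 2) (van : ∀ D, D.Nonempty → Van D (ka D))
    (nm : ∀ D, D.Nonempty → Nm K H D b (ka D)) {z' : (Fin (m + 1) → ℕ) → ℝ} (vz : Van {e} z')
    (nz : Nm K H {e} (2 * b) z') {s : ℝ} (hs : |s| = 1) (n : ℕ) :
    ∀ D : Finset (Fin (m + 1)), e ∉ D → D.Nonempty → D.card ≤ n →
      Nm K H (insert e D) (Pc m n * b)
        (fun c => Rn (s * (1 + z' c)) (fun D => ka (insert e D) c) n D) := by
  have hT : 0 ≤ T0 K := le_trans zero_le_one (T0_ge K)
  induction n with
  | zero => exact fun D _ hD hc => absurd (card_eq_zero.mp (Nat.le_zero.mp hc)) hD.ne_empty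
  | succ n ih =>
    intro D heD hD hc
    have hPn := Pc_nonneg m n
    have key : ∀ C ∈ D.powerset.filter (fun C => C ≠ ∅), Nm K H (insert e D) ((2 + Pc m n) * b)
        (fun c => s * (1 + z' c) * ka (insert e C) c *
          Rn (s * (1 + z' c)) (fun D => ka (insert e D) c) n (D \ C)) := by
      intro C hC
      rw [mem_filter, mem_powerset] at hC
      have heC : e ∉ C := fun h => heD (hC.1 h)
      have h1 := zg_nm (F := ka (insert e C)) hP hPh hA hH hb hTm heC hb
        (van _ (insert_nonempty e C)) (nm _ (insert_nonempty e C)) vz nz hs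
      have v1 : Van (insert e C) (fun c => s * (1 + z' c) * ka (insert e C) c) := by
        intro c p hp hc0
        show s * (1 + z' c) * ka (insert e C) c = 0
        rw [van _ (insert_nonempty e C) c p hp hc0]; ring
      by_cases hCD : C = D
      · subst hCD
        have h2 : Nm K H (insert e C) ((2 + Pc m n) * b)
            (fun c => s * (1 + z' c) * ka (insert e C) c) :=
          Nm_mono hA (by linarith) (by nlinarith) h1
        refine Nm_cg hPh hA (fun c _ => ?_) h2
        have e2 : C \ C = ∅ := by simp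
        rw [e2, Rn_empty, mul_one]
      · have hne : (D \ C).Nonempty := by
          rw [sdiff_nonempty]
          exact fun h => hCD (subset_antisymm hC.1 h)
        have hcard : (D \ C).card ≤ n := by
          have h3 : 0 < C.card := card_pos.mpr (nonempty_iff_ne_empty.mpr hC.2)
          have h4 := card_sdiff_add_card_eq_card hC.1
          omega
        have heDC : e ∉ D \ C := fun h => heD (mem_sdiff.mp h).1
        have h5 := ih (D \ C) heDC hne hcard
        have v5 := Rn_van (e := e) van (fun c => s * (1 + z' c)) n (D \ C) hne hcard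
        have h6 := hP.had K H e C (D \ C) (2 * b) (Pc m n * b) _ _ hH heC heDC disjoint_sdiff
          (by linarith) (by positivity) v1 v5 h1 h5
        rw [union_sdiff_of_subset hC.1] at h6
        refine Nm_mono hA (by positivity) ?_ h6
        have h7 : T0 K ^ m * (2 * b * (Pc m n * b)) = (T0 K ^ m * b) * (2 * (Pc m n * b)) := by ring
        have h8 : (T0 K ^ m * b) * (2 * (Pc m n * b)) ≤ 1 / 2 * (2 * (Pc m n * b)) :=
          mul_le_mul_of_nonneg_right hTm (by positivity)
        rw [h7]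
        linarith
    have h1 := Nm_sum hPh hA (D.powerset.filter (fun C => C ≠ ∅)) (fun _ => (2 + Pc m n) * b) _
      (fun _ _ => by positivity) key
    rw [sum_const, nsmul_eq_mul] at h1
    have h2 := Nm_smul hPh hA (-1) (by positivity) h1
    have h3 : |(-1 : ℝ)| * (((D.powerset.filter (fun C => C ≠ ∅)).card : ℝ) * ((2 + Pc m n) * b)) ≤
        Pc m (n + 1) * b := by
      rw [abs_neg, abs_one, one_mul, Pc, ← mul_assoc]
      refine mul_le_mul_of_nonneg_right ?_ hb
      exact mul_le_mul_of_nonneg_right (card_le D _) (by linarith)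
    refine Nm_cg hPh hA (fun c _ => ?_) (Nm_mono hA (by positivity) h3 h2)
    rw [Rn, if_neg hD.ne_empty, neg_one_mul]

end star

/-- UV -/
theorem uv_39 (hPr : StPrd) (hPhi : StPhi) (hArr : StArr) : StUv := by
  classical
  intro m
  have hP := hPr m
  have hPh := hPhi m
  have hA := hArr m
  obtain ⟨P, hPdef⟩ : ∃ P, P = Pc m (m + 1) := ⟨_, rfl⟩
  have hP0 : 0 ≤ P := hPdef ▸ Pc_nonneg m (m + 1)
  refine ⟨2 + 2 ^ (m + 2) * P, m + 1, ?_, ?_⟩
  · have : 0 ≤ 2 ^ (m + 2) * P := by positivity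
    linarith
  intro K H e b b1 ka B w hH hw hb hb1 hsm van nm heB hB nB
  have hT := T0_ge K
  have hT0 : 0 ≤ T0 K := le_trans zero_le_one hT
  have hb2 : T0 K ^ (m + 1) * b ≤ 1 / 2 := by
    have h1 : 0 ≤ T0 K ^ (m + 1) * b := by positivity
    have h2 : 0 ≤ 2 ^ (m + 2) * P * (T0 K ^ (m + 1) * b) := by positivity
    have h3 : (2 + 2 ^ (m + 2) * P) * T0 K ^ (m + 1) * b =
      2 * (T0 K ^ (m + 1) * b) + 2 ^ (m + 2) * P * (T0 K ^ (m + 1) * b) := by ring
    linarith
  have hTm : T0 K ^ m * b ≤ 1 / 2 := by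
    refine le_trans ?_ hb2
    exact mul_le_mul_of_nonneg_right (pow_le_pow_right₀ hT (Nat.le_succ m)) hb
  have ve : Van {e} (ka {e}) := van _ (singleton_nonempty e)
  have ne : Nm K H {e} b (ka {e}) := nm _ (singleton_nonempty e)
  obtain ⟨nu, vu⟩ := inv_nm hP hPh hA hH hb hb2 ve ne
  have vme : Van {e} (fun c => -ka {e} c) := fun c p hp hc => by simp [ve c p hp hc]
  have nme : Nm K H {e} b (fun c => -ka {e} c) := by
    have h := Nm_smul hPh hA (-1) hb ne
    rw [abs_neg, abs_one, one_mul] at h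
    exact Nm_cg hPh hA (fun c _ => by ring) h
  obtain ⟨nv, vv⟩ := inv_nm hP hPh hA hH hb hb2 vme nme
  -- the two families
  have one : |(1 : ℝ)| = 1 := abs_one
  have mone : |(-1 : ℝ)| = 1 := by rw [abs_neg, abs_one]
  have Ru : ∀ D : Finset (Fin (m + 1)), e ∉ D → D.Nonempty → Nm K H (insert e D) (P * b)
      (fun c => Rr (1 / (1 + ka {e} c)) (fun D => ka (insert e D) c) D) := by
    intro D heD hD
    have h := Rn_nm hP hPh hA hH hb hTm van nm vu nu one (m + 1) D heD hD
      (by simpa using card_le_univ D)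
    rw [← hPdef] at h
    refine Nm_cg hPh hA (fun c _ => ?_) h
    rw [Rr]
    congr 1
    ring
  have Rv : ∀ D : Finset (Fin (m + 1)), e ∉ D → D.Nonempty → Nm K H (insert e D) (P * b)
      (fun c => Rr (-(1 / (1 - ka {e} c))) (fun D => ka (insert e D) c) D) := by
    intro D heD hD
    have h := Rn_nm hP hPh hA hH hb hTm van nm vv nv mone (m + 1) D heD hD
      (by simpa using card_le_univ D)
    rw [← hPdef] at h
    refine Nm_cg hPh hA (fun c _ => ?_) h
    rw [Rr]
    congr 1
    ring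
  have Vu : ∀ D : Finset (Fin (m + 1)), D.Nonempty → Van (insert e D)
      (fun c => Rr (1 / (1 + ka {e} c)) (fun D => ka (insert e D) c) D) := fun D hD =>
    Rn_van (e := e) van (fun c => 1 / (1 + ka {e} c)) (m + 1) D hD (by simpa using card_le_univ D)
  have Vv' : ∀ D : Finset (Fin (m + 1)), D.Nonempty → Van (insert e D)
      (fun c => Rr (-(1 / (1 - ka {e} c))) (fun D => ka (insert e D) c) D) := fun D hD =>
    Rn_van (e := e) van (fun c => -(1 / (1 - ka {e} c))) (m + 1) D hD
      (by simpa using card_le_univ D)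
  have hPb : 0 ≤ P * b := by positivity
  have hq : 0 ≤ T0 K ^ m * (b * (2 * (P * b))) := by positivity
  have hq2 : (2 : ℝ) ^ (m + 1) * (T0 K ^ m * (b * (2 * (P * b)))) ≤
      (2 + 2 ^ (m + 2) * P) * T0 K ^ (m + 1) * b ^ 2 := by
    have h1 : T0 K ^ m ≤ T0 K ^ (m + 1) := pow_le_pow_right₀ hT (Nat.le_succ m)
    have h2 : (2 : ℝ) ^ (m + 1) * (T0 K ^ m * (b * (2 * (P * b)))) =
      (2 ^ (m + 2) * P * b ^ 2) * T0 K ^ m := by rw [pow_succ 2 (m + 1)]; ring
    have h3 : (2 ^ (m + 2) * P * b ^ 2) * T0 K ^ m ≤ (2 ^ (m + 2) * P * b ^ 2) * T0 K ^ (m + 1) :=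
      mul_le_mul_of_nonneg_left h1 (by positivity)
    have h4 : 0 ≤ 2 * T0 K ^ (m + 1) * b ^ 2 := by positivity
    rw [h2]
    calc _ ≤ _ := h3
      _ ≤ _ := by linarith
  refine ⟨?_, ?_, ?_, ?_⟩
  · -- the norm of the coefficient of the centred sign
    classical
    have key : ∀ C ∈ B.powerset.filter (fun C => hd C B), Nm K H (insert e B)
        (if C = B then 2 * b1 else T0 K ^ m * (b * (2 * (P * b))))
        (fun c => ka (insert e C) c * ((1 / (1 + ka {e} c) *
          Rr (1 / (1 + ka {e} c)) (fun D => ka (insert e D) c) (B \ C) +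
          1 / (1 - ka {e} c) *
          Rr (-(1 / (1 - ka {e} c))) (fun D => ka (insert e D) c) (B \ C)) / 2)) := by
      intro C hC
      rw [mem_filter, mem_powerset] at hC
      have heC : e ∉ C := fun h => heB (hC.1 h)
      by_cases hCB : C = B
      · subst hCB
        rw [if_pos rfl]
        have h1 := zg_nm (F := ka (insert e C)) hP hPh hA hH hb hTm heC hb1
          (van _ (insert_nonempty e C)) nB vu nu one
        have h2 := zg_nm (F := ka (insert e C)) hP hPh hA hH hb hTm heC hb1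
          (van _ (insert_nonempty e C)) nB vv nv one
        have h3 := Nm_add hPh hA (by linarith) (by linarith) h1 h2
        have h4 := Nm_smul hPh hA (1 / 2) (by linarith) h3
        have e1 : |(1 / 2 : ℝ)| * (2 * b1 + 2 * b1) = 2 * b1 := by
          rw [abs_of_nonneg (by norm_num)]; ring
        rw [e1] at h4
        refine Nm_cg hPh hA (fun c _ => ?_) h4
        have e2 : C \ C = ∅ := by simp
        rw [e2, Rr, Rr, Rn_empty, Rn_empty]
        rw [show (1 : ℝ) + -ka {e} c = 1 - ka {e} c by ring]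
        ring
      · rw [if_neg hCB]
        have hne : (B \ C).Nonempty := by
          rw [sdiff_nonempty]
          exact fun h => hCB (subset_antisymm hC.1 h)
        have heDC : e ∉ B \ C := fun h => heB (mem_sdiff.mp h).1
        have h1 := zg_nm hP hPh hA hH hb hTm heDC hPb (Vu _ hne) (Ru _ heDC hne) vu nu one
        have h2 := zg_nm hP hPh hA hH hb hTm heDC hPb (Vv' _ hne) (Rv _ heDC hne) vv nv one
        have h3 := Nm_add hPh hA (by linarith) (by linarith) h1 h2
        have h4 := Nm_smul hPh hA (1 / 2) (by linarith) h3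
        have e1 : |(1 / 2 : ℝ)| * (2 * (P * b) + 2 * (P * b)) = 2 * (P * b) := by
          rw [abs_of_nonneg (by norm_num)]; ring
        rw [e1] at h4
        have v4 : Van (insert e (B \ C)) (fun c => 1 / 2 * (1 * (1 + (1 / (1 + ka {e} c) - 1)) *
            Rr (1 / (1 + ka {e} c)) (fun D => ka (insert e D) c) (B \ C) +
            1 * (1 + (1 / (1 + -ka {e} c) - 1)) *
            Rr (-(1 / (1 - ka {e} c))) (fun D => ka (insert e D) c) (B \ C))) := by
          intro c p hp hc0
          have g1 := Vu _ hne c p hp hc0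
          have g2 := Vv' _ hne c p hp hc0
          simp only at g1 g2 ⊢
          rw [g1, g2]; ring
        have h5 := hP.had K H e C (B \ C) b (2 * (P * b)) (ka (insert e C)) _ hH heC heDC
          disjoint_sdiff hb (by linarith) (van _ (insert_nonempty e C)) v4
          (nm _ (insert_nonempty e C)) h4
        rw [union_sdiff_of_subset hC.1] at h5
        refine Nm_cg hPh hA (fun c _ => ?_) h5
        rw [show (1 : ℝ) + -ka {e} c = 1 - ka {e} c by ring]
        ring
    have h1 := Nm_sum hPh hA (B.powerset.filter (fun C => hd C B)) _ _ (fun C _ => by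
      by_cases hCB : C = B
      · rw [if_pos hCB]; linarith
      · rw [if_neg hCB]; exact hq) key
    have h2 : ∑ C ∈ B.powerset.filter (fun C => hd C B),
        (if C = B then 2 * b1 else T0 K ^ m * (b * (2 * (P * b)))) ≤
        2 * b1 + (2 + 2 ^ (m + 2) * P) * T0 K ^ (m + 1) * b ^ 2 := by
      calc _ ≤ ∑ C ∈ B.powerset.filter (fun C => hd C B),
            ((if C = B then 2 * b1 else 0) + T0 K ^ m * (b * (2 * (P * b)))) := by
            refine sum_le_sum (fun C _ => ?_)
            by_cases hCB : C = B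
            · rw [if_pos hCB, if_pos hCB]; linarith
            · rw [if_neg hCB, if_neg hCB]; linarith
        _ = ∑ C ∈ B.powerset.filter (fun C => hd C B), (if C = B then 2 * b1 else 0) +
            ((B.powerset.filter (fun C => hd C B)).card : ℝ) *
              (T0 K ^ m * (b * (2 * (P * b)))) := by
            rw [sum_add_distrib, sum_const, nsmul_eq_mul]
        _ ≤ 2 * b1 + 2 ^ (m + 1) * (T0 K ^ m * (b * (2 * (P * b)))) := by
            refine add_le_add ?_ (mul_le_mul_of_nonneg_right (card_le B _) hq)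
            rw [sum_ite_eq']
            split_ifs <;> linarith
        _ ≤ _ := by linarith
    have h0 : 0 ≤ ∑ C ∈ B.powerset.filter (fun C => hd C B),
        (if C = B then 2 * b1 else T0 K ^ m * (b * (2 * (P * b)))) := by
      refine sum_nonneg (fun C _ => ?_)
      by_cases hCB : C = B
      · rw [if_pos hCB]; linarith
      · rw [if_neg hCB]; exact hq
    refine Nm_cg hPh hA (fun c _ => ?_) (Nm_mono hA h0 h2 h1)
    rw [Kk]
  · intro c p hp hc0
    show Kk (ka {e} c) (fun D => ka (insert e D) c) B = 0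
    rw [Kk]
    refine sum_eq_zero (fun C hC => ?_)
    rw [mem_filter, mem_powerset] at hC
    have h1 : ka (insert e C) c = 0 :=
      van _ (insert_nonempty e C) c p (fun h => hp (insert_subset_insert e hC.1 h)) hc0
    rw [h1, zero_mul]
  · intro c p hp hc0
    show Vv (ka {e} c) (fun D => ka (insert e D) c) B = 0
    rw [Vv]
    refine sum_eq_zero (fun C hC => ?_)
    rw [mem_filter, mem_powerset] at hC
    have h1 : ka (insert e C) c = 0 :=
      van _ (insert_nonempty e C) c p (fun h => hp (insert_subset_insert e hC.1 h)) hc0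
    rw [h1, zero_mul]
  · classical
    have key : ∀ C ∈ B.powerset.filter (fun C => hd C B ∧ C ≠ B), FN H B
        (T0 K ^ m * (b * (P * b)))
        (fun c => ∑ r ∈ range (H e + 1), wal (w e) r *
          Ph H tm w (insert e B)ᶜ (fun l => ka (insert e C) l *
            ((Rr (1 / (1 + ka {e} l)) (fun D => ka (insert e D) l) (B \ C) -
            Rr (-(1 / (1 - ka {e} l))) (fun D => ka (insert e D) l) (B \ C)) / 2))
            (Function.update c e r)) := by
      intro C hC
      rw [mem_filter, mem_powerset] at hC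
      obtain ⟨hCB, hhd, hCne⟩ := hC
      have heC : e ∉ C := fun h => heB (hCB h)
      have hC0 : C.Nonempty := by
        obtain ⟨x, hx⟩ := hB
        obtain ⟨y, hy, _⟩ := hhd x hx
        exact ⟨y, hy⟩
      have hne : (B \ C).Nonempty := by
        rw [sdiff_nonempty]
        exact fun h => hCne (subset_antisymm hCB h)
      have heDC : e ∉ B \ C := fun h => heB (mem_sdiff.mp h).1
      have h1 := Nm_smul hPh hA (-1) hPb (Rv _ heDC hne)
      rw [mone, one_mul] at h1
      have h3 := Nm_add hPh hA hPb hPb (Ru _ heDC hne) h1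
      have h4 := Nm_smul hPh hA (1 / 2) (by linarith) h3
      have e1 : |(1 / 2 : ℝ)| * (P * b + P * b) = P * b := by
        rw [abs_of_nonneg (by norm_num)]; ring
      rw [e1] at h4
      have h5 : Nm K H (insert e (B \ C)) (P * b) (fun l =>
          (Rr (1 / (1 + ka {e} l)) (fun D => ka (insert e D) l) (B \ C) -
            Rr (-(1 / (1 - ka {e} l))) (fun D => ka (insert e D) l) (B \ C)) / 2) :=
        Nm_cg hPh hA (fun c _ => by ring) h4
      have v5 : Van (insert e (B \ C)) (fun l =>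
          (Rr (1 / (1 + ka {e} l)) (fun D => ka (insert e D) l) (B \ C) -
            Rr (-(1 / (1 - ka {e} l))) (fun D => ka (insert e D) l) (B \ C)) / 2) := by
        intro c p hp hc0
        have g1 := Vu _ hne c p hp hc0
        have g2 := Vv' _ hne c p hp hc0
        simp only at g1 g2 ⊢
        rw [g1, g2]; ring
      have h6 := hP.con K H e C (B \ C) b (P * b) (wal (w e)) w (ka (insert e C)) _ hH heC heDC
        disjoint_sdiff hC0 hne hb hPb (fun n => (wal_abs _ n).le) hw (van _ (insert_nonempty e C)) v5 (nm _ (insert_nonempty e C)) h5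
      rw [union_sdiff_of_subset hCB] at h6
      exact h6
    have h1 := FN_sum hA H B (B.powerset.filter (fun C => hd C B ∧ C ≠ B))
      (fun _ => T0 K ^ m * (b * (P * b))) _ (fun _ _ => by positivity) key
    rw [sum_const, nsmul_eq_mul] at h1
    have h2 : ((B.powerset.filter (fun C => hd C B ∧ C ≠ B)).card : ℝ) *
        (T0 K ^ m * (b * (P * b))) ≤ (2 + 2 ^ (m + 2) * P) * T0 K ^ (m + 1) * b ^ 2 := by
      have h3 : T0 K ^ m * (b * (P * b)) ≤ T0 K ^ m * (b * (2 * (P * b))) := by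
        refine mul_le_mul_of_nonneg_left ?_ (by positivity)
        refine mul_le_mul_of_nonneg_left ?_ hb
        linarith
      calc _ ≤ (2 : ℝ) ^ (m + 1) * (T0 K ^ m * (b * (P * b))) :=
            mul_le_mul_of_nonneg_right (card_le B _) (by positivity)
        _ ≤ 2 ^ (m + 1) * (T0 K ^ m * (b * (2 * (P * b)))) :=
            mul_le_mul_of_nonneg_left h3 (by positivity)
        _ ≤ _ := hq2
    refine hA.cg H B _ _ _ (fun c _ => ?_) (hA.mono H B _ _ _ (by positivity) h2 h1)
    rw [sum_comm]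
    refine sum_congr rfl (fun r _ => ?_)
    rw [← mul_sum, ← hPh.sum]
    congr 1

end Pool.Agent.SHXA.Uv39
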