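import Pool.Agent.Lib.MP_a7b2aa_an.SHX.StmtsX65

/-!
SHX, track ALL, module WALX (helper38): expansions in Walsh functions, one string.
-/

set_option autoImplicit false

namespace Pool.Agent.SHXA

open Finset Pool.Agent.SB3 Pool.Agent.SBT Pool.Agent.SBD Pool.Agent.SHD Pool.Agent.SHX
open Pool.Agent.Lib.MP_a7b2aa_an.SHX

namespace W38

/-- combinations of the functions `g S T` with cost `C` -/
def Hl {X : Type} (K : ℕ) (P : X → Prop) (g : Finset ℕ → Finset ℕ → X → ℝ) (C : ℝ)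
    (Φ : X → ℝ) : Prop :=
  ∃ c : Finset ℕ → Finset ℕ → ℝ,
    ∑ S ∈ (range K).powerset, ∑ T ∈ (range K).powerset, |c S T| ≤ C ∧
    ∀ x, P x → Φ x = ∑ S ∈ (range K).powerset, ∑ T ∈ (range K).powerset, c S T * g S T x

theorem Hl.add {X : Type} {K : ℕ} {P : X → Prop} {g : Finset ℕ → Finset ℕ → X → ℝ} {C D : ℝ}
    {Φ Ψ : X → ℝ} (hf : Hl K P g C Φ) (hg : Hl K P g D Ψ) :
    Hl K P g (C + D) (fun x => Φ x + Ψ x) := by
  obtain ⟨c, hc, hf⟩ := hf
  obtain ⟨d, hd, hg⟩ := hg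
  refine ⟨fun S T => c S T + d S T, ?_, fun x hx => ?_⟩
  · refine le_trans ?_ (add_le_add hc hd)
    rw [← Finset.sum_add_distrib]
    refine Finset.sum_le_sum fun S _ => ?_
    rw [← Finset.sum_add_distrib]
    exact Finset.sum_le_sum fun T _ => abs_add_le _ _
  · beta_reduce
    rw [hf x hx, hg x hx, ← Finset.sum_add_distrib]
    refine Finset.sum_congr rfl fun S _ => ?_
    rw [← Finset.sum_add_distrib]
    exact Finset.sum_congr rfl fun T _ => by ring

theorem Hl.smul {X : Type} {K : ℕ} {P : X → Prop} {g : Finset ℕ → Finset ℕ → X → ℝ} {C : ℝ}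
    {Φ : X → ℝ} (a : ℝ) (hf : Hl K P g C Φ) : Hl K P g (|a| * C) (fun x => a * Φ x) := by
  obtain ⟨c, hc, hf⟩ := hf
  refine ⟨fun S T => a * c S T, ?_, fun x hx => ?_⟩
  · refine le_trans (le_of_eq ?_) (mul_le_mul_of_nonneg_left hc (abs_nonneg a))
    rw [Finset.mul_sum]
    refine Finset.sum_congr rfl fun S _ => ?_
    rw [Finset.mul_sum]
    exact Finset.sum_congr rfl fun T _ => abs_mul _ _
  · beta_reduce
    rw [hf x hx, Finset.mul_sum]
    refine Finset.sum_congr rfl fun S _ => ?_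
    rw [Finset.mul_sum]
    exact Finset.sum_congr rfl fun T _ => by ring

theorem Hl.mono {X : Type} {K : ℕ} {P : X → Prop} {g : Finset ℕ → Finset ℕ → X → ℝ} {C D : ℝ}
    {Φ : X → ℝ} (hf : Hl K P g C Φ) (h : C ≤ D) : Hl K P g D Φ := by
  obtain ⟨c, hc, hf⟩ := hf
  exact ⟨c, hc.trans h, hf⟩

theorem Hl.congr {X : Type} {K : ℕ} {P : X → Prop} {g : Finset ℕ → Finset ℕ → X → ℝ} {C : ℝ}
    {Φ Ψ : X → ℝ} (hf : Hl K P g C Φ) (h : ∀ x, P x → Ψ x = Φ x) : Hl K P g C Ψ := by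
  obtain ⟨c, hc, hf⟩ := hf
  exact ⟨c, hc, fun x hx => by rw [h x hx, hf x hx]⟩

theorem Hl.single {X : Type} {K : ℕ} {P : X → Prop} {g : Finset ℕ → Finset ℕ → X → ℝ}
    {S T : Finset ℕ} (hS : S ⊆ range K) (hT : T ⊆ range K) : Hl K P g 1 (fun x => g S T x) := by
  classical
  refine ⟨fun S' T' => if S' = S ∧ T' = T then 1 else 0, ?_, fun x _ => ?_⟩
  · beta_reduce
    rw [Finset.sum_eq_single S, Finset.sum_eq_single T]
    · simp
    · intro b _ hb
      rw [if_neg (fun h => hb h.2), abs_zero]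
    · intro h
      exact absurd (Finset.mem_powerset.2 hT) h
    · intro b _ hb
      refine Finset.sum_eq_zero fun T' _ => ?_
      rw [if_neg (fun h => hb h.1), abs_zero]
    · intro h
      exact absurd (Finset.mem_powerset.2 hS) h
  · beta_reduce
    rw [Finset.sum_eq_single S, Finset.sum_eq_single T]
    · simp
    · intro b _ hb
      rw [if_neg (fun h => hb h.2), zero_mul]
    · intro h
      exact absurd (Finset.mem_powerset.2 hT) h
    · intro b _ hb
      refine Finset.sum_eq_zero fun T' _ => ?_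
      rw [if_neg (fun h => hb h.1), zero_mul]
    · intro h
      exact absurd (Finset.mem_powerset.2 hS) h

theorem Hl.zero {X : Type} {K : ℕ} {P : X → Prop} {g : Finset ℕ → Finset ℕ → X → ℝ} :
    Hl K P g 0 (fun _ => 0) := ⟨fun _ _ => 0, by simp, fun _ _ => by simp⟩

theorem Hl.sum {X : Type} {K : ℕ} {P : X → Prop} {g : Finset ℕ → Finset ℕ → X → ℝ} {ι : Type}
    (s : Finset ι) (C : ι → ℝ) (Φ : ι → X → ℝ) (hf : ∀ i ∈ s, Hl K P g (C i) (Φ i)) :
    Hl K P g (∑ i ∈ s, C i) (fun x => ∑ i ∈ s, Φ i x) := by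
  classical
  induction s using Finset.induction_on with
  | empty => simpa using Hl.zero (K := K) (P := P) (g := g)
  | insert a s ha ih =>
    have h1 := (hf a (Finset.mem_insert_self a s)).add
      (ih fun i hi => hf i (Finset.mem_insert_of_mem hi))
    rw [Finset.sum_insert ha]
    exact h1.congr fun x _ => by rw [Finset.sum_insert ha]

/-- a double sum of elements -/
theorem Hl.dbl {X : Type} {K : ℕ} {P : X → Prop} {g : Finset ℕ → Finset ℕ → X → ℝ} {C : ℝ}
    (d : Finset ℕ → Finset ℕ → ℝ)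
    (hd : ∑ S ∈ (range K).powerset, ∑ T ∈ (range K).powerset, |d S T| ≤ C)
    (a b : Finset ℕ → Finset ℕ → Finset ℕ) (ha : ∀ S T, S ⊆ range K → T ⊆ range K →
      a S T ⊆ range K) (hb : ∀ S T, S ⊆ range K → T ⊆ range K → b S T ⊆ range K) :
    Hl K P g C (fun x => ∑ S ∈ (range K).powerset, ∑ T ∈ (range K).powerset,
      d S T * g (a S T) (b S T) x) := by
  have h1 : Hl K P g (∑ S ∈ (range K).powerset, ∑ T ∈ (range K).powerset, |d S T| * 1)
      (fun x => ∑ S ∈ (range K).powerset, ∑ T ∈ (range K).powerset,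
        d S T * g (a S T) (b S T) x) := by
    refine Hl.sum _ _ _ fun S hS => Hl.sum _ _ _ fun T hT => Hl.smul _ (Hl.single ?_ ?_)
    · exact ha S T (Finset.mem_powerset.1 hS) (Finset.mem_powerset.1 hT)
    · exact hb S T (Finset.mem_powerset.1 hS) (Finset.mem_powerset.1 hT)
  exact h1.mono (by simpa using hd)

theorem symm_sub {K : ℕ} {S T : Finset ℕ} (hS : S ⊆ range K) (hT : T ⊆ range K) :
    symmDiff S T ⊆ range K := by
  intro x hx
  rw [Finset.mem_symmDiff] at hx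
  rcases hx with hx | hx
  · exact hS hx.1
  · exact hT hx.1

open Classical in
/-- the truncation below `2 ^ K` -/
theorem trunc (K : ℕ) : ∃ d : Finset ℕ → Finset ℕ → ℝ,
    ∑ S ∈ (range K).powerset, ∑ T ∈ (range K).powerset, |d S T| ≤ K ∧
    ∀ k t : ℕ, k < 2 ^ K → t < 2 ^ K → (if k < t then (1 : ℝ) else 0) =
      ∑ S ∈ (range K).powerset, ∑ T ∈ (range K).powerset, d S T * (wal S k * wal T t) := by
  obtain ⟨f, ⟨d, hd, hf⟩, hfe⟩ := wal_trunc K
  refine ⟨d, hd, fun k t hk ht => ?_⟩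
  have h := hfe k t
  rw [Nat.mod_eq_of_lt hk, Nat.mod_eq_of_lt ht] at h
  rw [← hf, h]

theorem sum_swap {M : Type} [AddCommMonoid M] {ι κ : Type} (s : Finset ι) (A B : Finset κ)
    (f : ι → κ → κ → M) :
    ∑ i ∈ s, ∑ S ∈ A, ∑ T ∈ B, f i S T = ∑ S ∈ A, ∑ T ∈ B, ∑ i ∈ s, f i S T := by
  rw [Finset.sum_comm]
  refine Finset.sum_congr rfl fun S _ => ?_
  rw [Finset.sum_comm]

theorem Fu_zero (H : ℕ) (S : Finset ℕ) (F : ℕ → ℝ) :
    Fu H 0 S F = ∑ l ∈ range (H + 1), wal S l * F l := by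
  unfold Fu wt
  simp

theorem Fu_one (H : ℕ) (S : Finset ℕ) (G : ℕ → ℝ) :
    Fu H 1 S G = ∑ j ∈ range H, wal S j * (G (j + 1) - G j) := by
  unfold Fu wt
  have h1 : ∀ t ∈ range (H + 1), (if (1 : ℕ) = 0 then wal S t
      else if (1 : ℕ) = 1 then (if 1 ≤ t then wal S (t - 1) else 0) -
      (if t < H then wal S t else 0) else if t = H then 1 else 0) * G t =
      (if 1 ≤ t then wal S (t - 1) * G t else 0) - (if t < H then wal S t * G t else 0) := by
    intro t _
    rw [if_neg one_ne_zero, if_pos rfl]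
    split_ifs <;> ring
  rw [Finset.sum_congr rfl h1, Finset.sum_sub_distrib]
  have h2 : ∑ t ∈ range (H + 1), (if 1 ≤ t then wal S (t - 1) * G t else 0) =
      ∑ j ∈ range H, wal S j * G (j + 1) := by
    rw [Finset.sum_range_succ']
    simp
  have h3 : ∑ t ∈ range (H + 1), (if t < H then wal S t * G t else 0) =
      ∑ j ∈ range H, wal S j * G j := by
    rw [Finset.sum_range_succ, if_neg (lt_irrefl H), add_zero]
    refine Finset.sum_congr rfl fun j hj => ?_
    rw [if_pos (mem_range.1 hj)]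
  rw [h2, h3, ← Finset.sum_sub_distrib]
  exact Finset.sum_congr rfl fun j _ => by ring

theorem Fu_top (H d : ℕ) (S : Finset ℕ) (F : ℕ → ℝ) (h0 : d ≠ 0) (h1 : d ≠ 1) :
    Fu H d S F = F H := by
  unfold Fu wt
  rw [Finset.sum_eq_single H]
  · simp [h0, h1]
  · intro b _ hb
    simp [h0, h1, hb]
  · intro h
    exact absurd (mem_range.2 (Nat.lt_succ_self H)) h

theorem val_eq (u : ℕ → ℝ) (t : ℕ) : u t = u 0 + ∑ j ∈ range t, (u (j + 1) - u j) := by
  rw [Finset.sum_range_sub]; ring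

theorem range_ind (H t : ℕ) (ht : t ≤ H) (g : ℕ → ℝ) :
    ∑ j ∈ range t, g j = ∑ j ∈ range H, (if j < t then (1 : ℝ) else 0) * g j := by
  have h1 : ∑ j ∈ range H, (if j < t then (1 : ℝ) else 0) * g j =
      ∑ j ∈ (range H).filter (fun j => j < t), g j := by
    rw [Finset.sum_filter]
    refine Finset.sum_congr rfl fun j _ => ?_
    split_ifs <;> ring
  rw [h1]
  refine Finset.sum_congr ?_ fun _ _ => rfl
  ext j
  simp only [mem_filter, mem_range]
  omega

theorem Fu_one_empty (H : ℕ) (G : ℕ → ℝ) (h0 : G 0 = 0) : Fu H 1 ∅ G = G H := by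
  rw [Fu_one, val_eq G H, h0, zero_add]
  exact Finset.sum_congr rfl fun j _ => by rw [wal_empty, one_mul]

/-- tie -/
theorem tie (K H : ℕ) (hH : H < 2 ^ K) : Hl K (fun x : (ℕ → ℝ) × ℕ => x.1 0 = 0 ∧ x.2 ≤ H)
    (fun S T x => wal S x.2 * Fu H 1 T x.1) K (fun x => x.1 x.2) := by
  obtain ⟨d, hd, ht⟩ := trunc K
  have hd' : ∑ S ∈ (range K).powerset, ∑ T ∈ (range K).powerset, |d T S| ≤ K := by
    rw [Finset.sum_comm]; exact hd
  refine (Hl.dbl (fun S T => d T S) hd' (fun S _ => S) (fun _ T => T) (fun _ _ h _ => h)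
    (fun _ _ _ h => h)).congr ?_
  rintro ⟨G, x⟩ ⟨h0, hx⟩
  simp only at h0 hx ⊢
  rw [val_eq G x, h0, zero_add, range_ind H x hx, Finset.sum_comm]
  have e : ∀ j ∈ range H, (if j < x then (1 : ℝ) else 0) * (G (j + 1) - G j) =
      ∑ T ∈ (range K).powerset, ∑ S ∈ (range K).powerset,
        d T S * (wal S x * (wal T j * (G (j + 1) - G j))) := by
    intro j hj
    rw [ht j x (lt_trans (mem_range.1 hj) hH) (lt_of_le_of_lt hx hH), Finset.sum_mul]
    refine Finset.sum_congr rfl fun T _ => ?_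
    rw [Finset.sum_mul]
    exact Finset.sum_congr rfl fun S _ => by ring
  rw [Finset.sum_congr rfl e, sum_swap]
  refine Finset.sum_congr rfl fun T _ => Finset.sum_congr rfl fun S _ => ?_
  rw [Fu_one, ← Finset.mul_sum, ← Finset.mul_sum]

/-- the data of the truncation -/
structure Td (K : ℕ) (d : Finset ℕ → Finset ℕ → ℝ) : Prop where
  le : ∑ S ∈ (range K).powerset, ∑ T ∈ (range K).powerset, |d S T| ≤ K
  eq : ∀ k t : ℕ, k < 2 ^ K → t < 2 ^ K → (if k < t then (1 : ℝ) else 0) =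
      ∑ S ∈ (range K).powerset, ∑ T ∈ (range K).powerset, d S T * (wal S k * wal T t)

theorem td (K : ℕ) : ∃ d, Td K d := by
  obtain ⟨d, h1, h2⟩ := trunc K
  exact ⟨d, h1, fun k t hk ht => by rw [← h2 k t hk ht]⟩

/-- sums over `l` of functions against the truncation, `l < t` -/
theorem Td.sumL {K : ℕ} {d : Finset ℕ → Finset ℕ → ℝ} (h : Td K d) {n t : ℕ} (hn : n ≤ 2 ^ K)
    (ht : t < 2 ^ K) (g : ℕ → ℝ) :
    ∑ l ∈ range n, (if l < t then (1 : ℝ) else 0) * g l =
      ∑ S ∈ (range K).powerset, ∑ T ∈ (range K).powerset,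
        d S T * (wal T t * ∑ l ∈ range n, wal S l * g l) := by
  have e : ∀ l ∈ range n, (if l < t then (1 : ℝ) else 0) * g l =
      ∑ S ∈ (range K).powerset, ∑ T ∈ (range K).powerset,
        d S T * (wal T t * (wal S l * g l)) := by
    intro l hl
    rw [h.eq l t (lt_of_lt_of_le (mem_range.1 hl) hn) ht, Finset.sum_mul]
    refine Finset.sum_congr rfl fun T _ => ?_
    rw [Finset.sum_mul]
    exact Finset.sum_congr rfl fun S _ => by ring
  rw [Finset.sum_congr rfl e, sum_swap]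
  refine Finset.sum_congr rfl fun T _ => Finset.sum_congr rfl fun S _ => ?_
  rw [← Finset.mul_sum, ← Finset.mul_sum]

/-- sums over `l` of functions against the truncation, `t < l` -/
theorem Td.sumR {K : ℕ} {d : Finset ℕ → Finset ℕ → ℝ} (h : Td K d) {n t : ℕ} (hn : n ≤ 2 ^ K)
    (ht : t < 2 ^ K) (g : ℕ → ℝ) :
    ∑ l ∈ range n, (if t < l then (1 : ℝ) else 0) * g l =
      ∑ S ∈ (range K).powerset, ∑ T ∈ (range K).powerset,
        d S T * (wal S t * ∑ l ∈ range n, wal T l * g l) := by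
  have e : ∀ l ∈ range n, (if t < l then (1 : ℝ) else 0) * g l =
      ∑ S ∈ (range K).powerset, ∑ T ∈ (range K).powerset,
        d S T * (wal S t * (wal T l * g l)) := by
    intro l hl
    rw [h.eq t l ht (lt_of_lt_of_le (mem_range.1 hl) hn), Finset.sum_mul]
    refine Finset.sum_congr rfl fun T _ => ?_
    rw [Finset.sum_mul]
    exact Finset.sum_congr rfl fun S _ => by ring
  rw [Finset.sum_congr rfl e, sum_swap]
  refine Finset.sum_congr rfl fun T _ => Finset.sum_congr rfl fun S _ => ?_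
  rw [← Finset.mul_sum, ← Finset.mul_sum]

theorem Td.low {K H : ℕ} {d : Finset ℕ → Finset ℕ → ℝ} (h : Td K d) (hH : H < 2 ^ K)
    (u : ℕ → ℝ) (h0 : u 0 = 0) (k : ℕ) (hk : k ≤ H) :
    u k = ∑ S ∈ (range K).powerset, ∑ T ∈ (range K).powerset,
      d S T * (wal T k * Fu H 1 S u) := by
  rw [val_eq u k, h0, zero_add, range_ind H k hk, h.sumL hH.le (lt_of_le_of_lt hk hH)]
  refine Finset.sum_congr rfl fun T _ => Finset.sum_congr rfl fun S _ => ?_
  rw [Fu_one]

theorem Td.high {K H : ℕ} {d : Finset ℕ → Finset ℕ → ℝ} (h : Td K d) (hH : H < 2 ^ K)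
    (u : ℕ → ℝ) (j : ℕ) (hj : j < H) :
    u H - u (j + 1) = ∑ S ∈ (range K).powerset, ∑ T ∈ (range K).powerset,
      d S T * (wal S j * Fu H 1 T u) := by
  have e : u H - u (j + 1) = ∑ l ∈ range H, (if j < l then (1 : ℝ) else 0) * (u (l + 1) - u l) := by
    rw [val_eq u H, val_eq u (j + 1), range_ind H (j + 1) hj, add_sub_add_left_eq_sub,
      ← Finset.sum_sub_distrib]
    refine Finset.sum_congr rfl fun i _ => ?_
    by_cases hi : i < j + 1
    · rw [if_pos hi, if_neg (by omega)]; ring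
    · rw [if_neg hi, if_pos (by omega)]; ring
  rw [e, h.sumR hH.le (lt_trans hj hH)]
  refine Finset.sum_congr rfl fun T _ => Finset.sum_congr rfl fun S _ => ?_
  rw [Fu_one]

/-- pull a sum through -/
theorem pull {K : ℕ} (d : Finset ℕ → Finset ℕ → ℝ) (n : ℕ) (a : ℕ → ℝ)
    (b : Finset ℕ → Finset ℕ → ℕ → ℝ) :
    ∑ l ∈ range n, a l * ∑ S ∈ (range K).powerset, ∑ T ∈ (range K).powerset, d S T * b S T l =
      ∑ S ∈ (range K).powerset, ∑ T ∈ (range K).powerset, d S T * ∑ l ∈ range n, a l * b S T l := by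
  have e : ∀ l ∈ range n, a l * ∑ S ∈ (range K).powerset, ∑ T ∈ (range K).powerset,
      d S T * b S T l = ∑ S ∈ (range K).powerset, ∑ T ∈ (range K).powerset,
      d S T * (a l * b S T l) := by
    intro l _
    rw [Finset.mul_sum]
    refine Finset.sum_congr rfl fun T _ => ?_
    rw [Finset.mul_sum]
    exact Finset.sum_congr rfl fun S _ => by ring
  rw [Finset.sum_congr rfl e, sum_swap]
  refine Finset.sum_congr rfl fun T _ => Finset.sum_congr rfl fun S _ => ?_
  rw [← Finset.mul_sum]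

/-- star -/
theorem star (K H : ℕ) (hH : H < 2 ^ K) (d0 : ℕ) (S0 : Finset ℕ) (hS0 : S0 ⊆ range K) :
    Hl K (fun x : (ℕ → ℝ) × (ℕ → ℝ) => x.2 0 = 0 ∧ (d0 = 1 → x.1 0 = 0))
      (fun S T x => Fu H d0 S x.1 * Fu H 1 T x.2) (T0 K)
      (fun x => Fu H d0 S0 (fun l => x.1 l * x.2 l)) := by
  obtain ⟨d, h⟩ := td K
  have hK : (0 : ℝ) ≤ K := Nat.cast_nonneg K
  have hd' : ∑ S ∈ (range K).powerset, ∑ T ∈ (range K).powerset, |d T S| ≤ K := by
    rw [Finset.sum_comm]; exact h.le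
  rcases eq_or_ne d0 0 with rfl | hd0
  · refine ((Hl.dbl (fun S T => d T S) hd' (fun S _ => symmDiff S0 S) (fun _ T => T)
      (fun _ _ h _ => symm_sub hS0 h) (fun _ _ _ h => h)).mono (D := T0 K)
      (by unfold T0; linarith)).congr ?_
    rintro ⟨F, G⟩ ⟨h0, -⟩
    simp only at h0 ⊢
    have e : ∀ l ∈ range (H + 1), wal S0 l * (F l * G l) = (wal S0 l * F l) *
        ∑ S ∈ (range K).powerset, ∑ T ∈ (range K).powerset, d S T * (wal T l * Fu H 1 S G) := by
      intro l hl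
      rw [← h.low hH G h0 l (Nat.lt_succ_iff.1 (mem_range.1 hl))]
      ring
    rw [Fu_zero, Finset.sum_congr rfl e, pull, Finset.sum_comm]
    refine Finset.sum_congr rfl fun T _ => Finset.sum_congr rfl fun S _ => ?_
    rw [Fu_zero, Finset.sum_mul]
    congr 1
    refine Finset.sum_congr rfl fun l _ => ?_
    rw [← wal_mul]
    ring
  rcases eq_or_ne d0 1 with rfl | hd1
  · have h1 : Hl K (fun x : (ℕ → ℝ) × (ℕ → ℝ) => x.2 0 = 0 ∧ ((1 : ℕ) = 1 → x.1 0 = 0))
        (fun S T x => Fu H 1 S x.1 * Fu H 1 T x.2) 1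
        (fun x => Fu H 1 S0 x.1 * Fu H 1 ∅ x.2) :=
      Hl.single (S := S0) (T := ∅)
        (g := fun (S T : Finset ℕ) (x : (ℕ → ℝ) × (ℕ → ℝ)) => Fu H 1 S x.1 * Fu H 1 T x.2) hS0
        (Finset.empty_subset _)
    have h2 : Hl K (fun x : (ℕ → ℝ) × (ℕ → ℝ) => x.2 0 = 0 ∧ ((1 : ℕ) = 1 → x.1 0 = 0))
        (fun S T x => Fu H 1 S x.1 * Fu H 1 T x.2) K
        (fun x => ∑ S ∈ (range K).powerset, ∑ T ∈ (range K).powerset,
          d S T * (Fu H 1 S x.1 * Fu H 1 (symmDiff S0 T) x.2)) :=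
      Hl.dbl d h.le (fun S _ => S) (fun _ T => symmDiff S0 T) (fun _ _ h _ => h)
        (fun _ _ _ h => symm_sub hS0 h)
    have h3 : Hl K (fun x : (ℕ → ℝ) × (ℕ → ℝ) => x.2 0 = 0 ∧ ((1 : ℕ) = 1 → x.1 0 = 0))
        (fun S T x => Fu H 1 S x.1 * Fu H 1 T x.2) K
        (fun x => ∑ S ∈ (range K).powerset, ∑ T ∈ (range K).powerset,
          d S T * (Fu H 1 (symmDiff S0 S) x.1 * Fu H 1 T x.2)) :=
      Hl.dbl d h.le (fun S _ => symmDiff S0 S) (fun _ T => T) (fun _ _ h _ => symm_sub hS0 h)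
        (fun _ _ _ h => h)
    refine ((h1.add (h2.add (h3.smul (-1)))).mono (D := T0 K) ?_).congr ?_
    · unfold T0
      rw [abs_neg, abs_one]
      linarith
    rintro ⟨F, G⟩ ⟨h0, h0'⟩
    simp only at h0 h0' ⊢
    have hF0 : F 0 = 0 := h0' trivial
    -- the second sum
    have e2 : ∑ S ∈ (range K).powerset, ∑ T ∈ (range K).powerset,
        d S T * (Fu H 1 S F * Fu H 1 (symmDiff S0 T) G) =
        ∑ k ∈ range H, wal S0 k * (G (k + 1) - G k) * F k := by
      have e : ∀ k ∈ range H, wal S0 k * (G (k + 1) - G k) * F k =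
          wal S0 k * (G (k + 1) - G k) * ∑ S ∈ (range K).powerset, ∑ T ∈ (range K).powerset,
            d S T * (wal T k * Fu H 1 S F) := by
        intro k hk
        rw [← h.low hH F hF0 k (mem_range.1 hk).le]
      rw [Finset.sum_congr rfl e, pull]
      refine Finset.sum_congr rfl fun S _ => Finset.sum_congr rfl fun T _ => ?_
      rw [Fu_one H (symmDiff S0 T), Finset.mul_sum]
      congr 1
      refine Finset.sum_congr rfl fun l _ => ?_
      rw [← wal_mul]
      ring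
    have e3 : ∑ S ∈ (range K).powerset, ∑ T ∈ (range K).powerset,
        d S T * (Fu H 1 (symmDiff S0 S) F * Fu H 1 T G) =
        ∑ j ∈ range H, wal S0 j * (F (j + 1) - F j) * (G H - G (j + 1)) := by
      have e : ∀ k ∈ range H, wal S0 k * (F (k + 1) - F k) * (G H - G (k + 1)) =
          wal S0 k * (F (k + 1) - F k) * ∑ S ∈ (range K).powerset, ∑ T ∈ (range K).powerset,
            d S T * (wal S k * Fu H 1 T G) := by
        intro k hk
        rw [← h.high hH G k (mem_range.1 hk)]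
      rw [Finset.sum_congr rfl e, pull]
      refine Finset.sum_congr rfl fun S _ => Finset.sum_congr rfl fun T _ => ?_
      rw [Fu_one H (symmDiff S0 S), Finset.sum_mul]
      congr 1
      refine Finset.sum_congr rfl fun l _ => ?_
      rw [← wal_mul]
      ring
    rw [e2, e3, Fu_one_empty H G h0, Fu_one, Fu_one, Finset.sum_mul, Finset.mul_sum,
      ← Finset.sum_add_distrib, ← Finset.sum_add_distrib]
    refine Finset.sum_congr rfl fun j _ => ?_
    ring
  · have h1 : Hl K (fun x : (ℕ → ℝ) × (ℕ → ℝ) => x.2 0 = 0 ∧ (d0 = 1 → x.1 0 = 0))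
        (fun S T x => Fu H d0 S x.1 * Fu H 1 T x.2) 1
        (fun x => Fu H d0 S0 x.1 * Fu H 1 ∅ x.2) :=
      Hl.single (S := S0) (T := ∅)
        (g := fun (S T : Finset ℕ) (x : (ℕ → ℝ) × (ℕ → ℝ)) => Fu H d0 S x.1 * Fu H 1 T x.2) hS0
        (Finset.empty_subset _)
    refine (h1.mono (D := T0 K) (by unfold T0; linarith)).congr ?_
    rintro ⟨F, G⟩ ⟨h0, -⟩
    simp only at h0 ⊢
    rw [Fu_top H d0 S0 _ hd0 hd1, Fu_top H d0 S0 _ hd0 hd1, Fu_one_empty H G h0]

/-- le -/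
theorem leq (K H : ℕ) (hH : H < 2 ^ K) (d0 : ℕ) (S0 : Finset ℕ) (hS0 : S0 ⊆ range K) :
    Hl K (fun x : (ℕ → ℝ) × ℕ => (d0 = 1 → x.1 0 = 0) ∧ x.2 < H)
      (fun S T x => wal S x.2 * Fu H d0 T x.1) (T0 K)
      (fun x => Fu H d0 S0 (fun l => if l ≤ x.2 then x.1 l else 0)) := by
  obtain ⟨d, h⟩ := td K
  have hK : (0 : ℝ) ≤ K := Nat.cast_nonneg K
  have hd' : ∑ S ∈ (range K).powerset, ∑ T ∈ (range K).powerset, |d T S| ≤ K := by
    rw [Finset.sum_comm]; exact h.le
  rcases eq_or_ne d0 0 with rfl | hd0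
  · have h1 : Hl K (fun x : (ℕ → ℝ) × ℕ => ((0 : ℕ) = 1 → x.1 0 = 0) ∧ x.2 < H)
        (fun S T x => wal S x.2 * Fu H 0 T x.1) 1
        (fun x => wal ∅ x.2 * Fu H 0 S0 x.1) :=
      Hl.single (S := ∅) (T := S0)
        (g := fun (S T : Finset ℕ) (x : (ℕ → ℝ) × ℕ) => wal S x.2 * Fu H 0 T x.1)
        (Finset.empty_subset _) hS0
    have h2 : Hl K (fun x : (ℕ → ℝ) × ℕ => ((0 : ℕ) = 1 → x.1 0 = 0) ∧ x.2 < H)
        (fun S T x => wal S x.2 * Fu H 0 T x.1) K
        (fun x => ∑ S ∈ (range K).powerset, ∑ T ∈ (range K).powerset,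
          d S T * (wal S x.2 * Fu H 0 (symmDiff S0 T) x.1)) :=
      Hl.dbl d h.le (fun S _ => S) (fun _ T => symmDiff S0 T) (fun _ _ h _ => h)
        (fun _ _ _ h => symm_sub hS0 h)
    refine ((h1.add (h2.smul (-1))).mono (D := T0 K) ?_).congr ?_
    · unfold T0
      rw [abs_neg, abs_one]
      linarith
    rintro ⟨F, k⟩ ⟨-, hk⟩
    simp only at hk ⊢
    have e : ∀ l ∈ range (H + 1), wal S0 l * (if l ≤ k then F l else 0) =
        wal S0 l * F l - (if k < l then (1 : ℝ) else 0) * (wal S0 l * F l) := by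
      intro l _
      by_cases hl : l ≤ k
      · rw [if_pos hl, if_neg (by omega)]; ring
      · rw [if_neg hl, if_pos (by omega)]; ring
    rw [Fu_zero, Finset.sum_congr rfl e, Finset.sum_sub_distrib,
      h.sumR (by omega) (lt_trans hk hH), wal_empty, one_mul, Fu_zero, sub_eq_add_neg]
    congr 1
    rw [neg_one_mul]
    congr 1
    refine Finset.sum_congr rfl fun S _ => Finset.sum_congr rfl fun T _ => ?_
    rw [Fu_zero]
    congr 2
    refine Finset.sum_congr rfl fun l _ => ?_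
    rw [← wal_mul]
    ring
  rcases eq_or_ne d0 1 with rfl | hd1
  · have h2 : Hl K (fun x : (ℕ → ℝ) × ℕ => ((1 : ℕ) = 1 → x.1 0 = 0) ∧ x.2 < H)
        (fun S T x => wal S x.2 * Fu H 1 T x.1) K
        (fun x => ∑ S ∈ (range K).powerset, ∑ T ∈ (range K).powerset,
          (fun S T => d T S) S T * (wal S x.2 * Fu H 1 (symmDiff S0 T) x.1)) :=
      Hl.dbl (fun S T => d T S) hd' (fun S _ => S) (fun _ T => symmDiff S0 T) (fun _ _ h _ => h)
        (fun _ _ _ h => symm_sub hS0 h)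
    have h3 : Hl K (fun x : (ℕ → ℝ) × ℕ => ((1 : ℕ) = 1 → x.1 0 = 0) ∧ x.2 < H)
        (fun S T x => wal S x.2 * Fu H 1 T x.1) K
        (fun x => ∑ S ∈ (range K).powerset, ∑ T ∈ (range K).powerset,
          (fun S T => d T S) S T * (wal (symmDiff S0 S) x.2 * Fu H 1 T x.1)) :=
      Hl.dbl (fun S T => d T S) hd' (fun S _ => symmDiff S0 S) (fun _ T => T)
        (fun _ _ h _ => symm_sub hS0 h) (fun _ _ _ h => h)
    refine ((h2.add (h3.smul (-1))).mono (D := T0 K) ?_).congr ?_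
    · unfold T0
      rw [abs_neg, abs_one]
      linarith
    rintro ⟨F, k⟩ ⟨h0', hk⟩
    simp only at hk h0' ⊢
    have hF0 : F 0 = 0 := h0' trivial
    have e : ∀ j ∈ range H, wal S0 j * ((if j + 1 ≤ k then F (j + 1) else 0) -
        (if j ≤ k then F j else 0)) =
        (if j < k then (1 : ℝ) else 0) * (wal S0 j * (F (j + 1) - F j)) -
          (if j = k then wal S0 k * F k else 0) := by
      intro j _
      rcases lt_trichotomy j k with hj | hj | hj
      · rw [if_pos (by omega : j + 1 ≤ k), if_pos hj.le, if_pos hj, if_neg hj.ne]; ring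
      · subst hj
        rw [if_neg (by omega : ¬ j + 1 ≤ j), if_pos le_rfl, if_neg (lt_irrefl j), if_pos rfl]; ring
      · rw [if_neg (by omega : ¬ j + 1 ≤ k), if_neg (by omega : ¬ j ≤ k),
          if_neg (by omega : ¬ j < k), if_neg (by omega : ¬ j = k)]; ring
    rw [Fu_one, Finset.sum_congr rfl e, Finset.sum_sub_distrib, Finset.sum_ite_eq',
      if_pos (mem_range.2 hk), h.sumL hH.le (lt_trans hk hH), sub_eq_add_neg]
    congr 1
    · rw [Finset.sum_comm]
      refine Finset.sum_congr rfl fun S _ => Finset.sum_congr rfl fun T _ => ?_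
      rw [Fu_one]
      congr 2
      refine Finset.sum_congr rfl fun l _ => ?_
      rw [← wal_mul]
      ring
    · have e4 : wal S0 k * F k = ∑ S ∈ (range K).powerset, ∑ T ∈ (range K).powerset,
          d T S * (wal (symmDiff S0 S) k * Fu H 1 T F) := by
        rw [h.low hH F hF0 k hk.le, Finset.sum_comm, Finset.mul_sum]
        refine Finset.sum_congr rfl fun T _ => ?_
        rw [Finset.mul_sum]
        refine Finset.sum_congr rfl fun S _ => ?_
        rw [← wal_mul]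
        ring
      rw [neg_one_mul, e4]
  · refine ((Hl.zero).mono (D := T0 K) (by unfold T0; linarith)).congr ?_
    rintro ⟨F, k⟩ ⟨-, hk⟩
    simp only at hk ⊢
    rw [Fu_top H d0 S0 _ hd0 hd1, if_neg (by omega)]

end W38

/-- WALX -/
theorem walx_38 : StWalx := by
  intro K H hH
  obtain ⟨c, hc, h⟩ := (W38.tie K H hH)
  refine ⟨⟨c, hc.trans ?_, fun G h0 x hx => h (G, x) ⟨h0, hx⟩⟩, ?_, ?_, ?_, ?_⟩
  · unfold T0
    have : (0 : ℝ) ≤ K := Nat.cast_nonneg K
    linarith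
  · intro d S0 hS0
    obtain ⟨c, hc, h⟩ := W38.star K H hH d S0 hS0
    exact ⟨c, hc, fun F G h0 h1 => h (F, G) ⟨h0, h1⟩⟩
  · intro d S0 hS0
    obtain ⟨c, hc, h⟩ := W38.leq K H hH d S0 hS0
    exact ⟨c, hc, fun F h1 k hk => h (F, k) ⟨h1, hk⟩⟩
  · intro G h0
    exact W38.Fu_one_empty H G h0
  · intro S G _
    exact W38.Fu_one H S G

end Pool.Agent.SHXA
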