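import Pool.Agent.Lib.MP_a7b2aa_an.SHX.SysF65
import Pool.Agent.Lib.MP_a7b2aa_an.SHX.FinF30
import Pool.Agent.Lib.MP_a7b2aa_an.SHX.GoodxL31
import Pool.Agent.Lib.MP_a7b2aa_an.SHX.RecL21
import Pool.Agent.Lib.MP_a7b2aa_an.SHX.FreshL21
import Pool.Agent.Lib.MP_a7b2aa_an.SHX.ExactW25
import Pool.Agent.Lib.MP_a7b2aa_an.SHX.NearW30
import Pool.Agent.Lib.MP_a7b2aa_an.SHX.Bayx97
import Pool.Agent.Lib.MP_a7b2aa_an.SHX.ArrX18
import Pool.Agent.Lib.MP_a7b2aa_an.SHX.Phi77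
import Pool.Agent.Lib.MP_a7b2aa_an.SHX.Prod84
import Pool.Agent.Lib.MP_a7b2aa_an.SHX.Uv39
import Pool.Agent.Lib.MP_a7b2aa_an.SHX.Topu19
import Pool.Agent.Lib.MP_a7b2aa_an.SHX.Rid71
import Pool.Agent.Lib.MP_a7b2aa_an.SHX.Rker74
import Pool.Agent.Lib.MP_a7b2aa_an.SHX.Rnrm7
import Pool.Agent.Lib.MP_a7b2aa_an.SHX.Rcr74
import Pool.Agent.Lib.MP_a7b2aa_an.SHX.Path23
import Pool.Agent.Lib.MP_a7b2aa_an.SHX.Walx38
import Pool.Agent.Lib.MP_a7b2aa_an.SHX.Mst38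

/-!
SHX, track ALL (helper65): assembly of all modules.
-/

set_option autoImplicit false

namespace Pool.Agent.SHXA

open Finset Pool.Agent.SB3 Pool.Agent.SBT Pool.Agent.SBD Pool.Agent.SHD Pool.Agent.SHX

/-- ALL: the theorem on the torus, factor `n ^ ((m - 1) / 2) (log (n + 1)) ^ E`, `d = m + 1 ≥ 3` -/
theorem allx_65 (hWx : StWalx) (hMst : StMst) (m : ℕ) (hm : 2 ≤ m) :
    ∃ E : ℕ, StFinF m (((m : ℝ) - 1) / 2) E := by
  have hPhi : StPhi := phi_77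
  have hArr : StArr := arr_18
  have hPr : StPrd := prod_84 hMst hPhi hArr
  have hUv : StUv := Uv39.uv_39 hPr hPhi hArr
  have hTop : StTopu := topu_19
  have hBay : StBayx := bayx_97 hPr
  have hRn : StRnrm := rnrm_7 hUv hPhi hWx hMst hPr
  have hRec : StRecL := recL_21 freshL_21 (rid_71 hPhi) rker_74 hRn (rcr_74 hMst hPhi)
  have hG : StGoodxL := goodxl_31 hRec hUv hTop hBay hPhi hWx hArr
  obtain ⟨E, hS⟩ := sysf_65 (exactb_30 Pool.Agent.SHX.Ex25.exactw_25) hBay hG m hm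
  exact ⟨E, torusS_30 minbad_23 m hm _ E le_rfl hS⟩

/-- ALL, no hypotheses -/
theorem finx_65 (m : ℕ) (hm : 2 ≤ m) : ∃ E : ℕ, StFinF m (((m : ℝ) - 1) / 2) E :=
  allx_65 walx_38 mstD_38 m hm

end Pool.Agent.SHXA
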