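import Mathlib

/-!
SHX, array level: flattening norms, contraction over one shared string (helper18).
Classes are functions `Sg → ℕ`; an index with own set `X` is a function supported on `X`.
-/

set_option autoImplicit false

open Finset

namespace Pool.Agent.SHX.Arr18

variable {Sg : Type} [Fintype Sg] [DecidableEq Sg]

/-- indices with own set `X` below `E` -/
def bx (E : Sg → ℕ) (X : Finset Sg) : Finset (Sg → ℕ) :=
  Fintype.piFinset fun s => if s ∈ X then range (E s) else {0}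

theorem mem_bx {E : Sg → ℕ} {X : Finset Sg} {x : Sg → ℕ} :
    x ∈ bx E X ↔ (∀ s ∈ X, x s < E s) ∧ ∀ s ∉ X, x s = 0 := by
  unfold bx
  rw [Fintype.mem_piFinset]
  constructor
  · intro h
    refine ⟨fun s hs => ?_, fun s hs => ?_⟩
    · have := h s
      rw [if_pos hs, mem_range] at this
      exact this
    · have := h s
      rw [if_neg hs, mem_singleton] at this
      exact this
  · rintro ⟨h1, h2⟩ s
    by_cases hs : s ∈ X
    · rw [if_pos hs, mem_range]; exact h1 s hs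
    · rw [if_neg hs, mem_singleton]; exact h2 s hs

/-- restriction to `X` -/
def rs (X : Finset Sg) (x : Sg → ℕ) : Sg → ℕ := fun s => if s ∈ X then x s else 0

theorem bx_empty (E : Sg → ℕ) : bx E ∅ = {0} := by
  ext x
  rw [mem_bx, mem_singleton]
  constructor
  · rintro ⟨-, h⟩
    funext s
    exact h s (by simp)
  · rintro rfl
    exact ⟨by simp, by simp⟩

/-- sums over disjoint unions -/
theorem sum_bx_union {M : Type} [AddCommMonoid M] {E : Sg → ℕ} {X X' : Finset Sg}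
    (h : Disjoint X X') (f : (Sg → ℕ) → M) :
    ∑ z ∈ bx E (X ∪ X'), f z = ∑ x ∈ bx E X, ∑ x' ∈ bx E X', f (x + x') := by
  rw [← Finset.sum_product']
  refine Finset.sum_nbij' (fun z => (rs X z, rs X' z)) (fun w => w.1 + w.2) ?_ ?_ ?_ ?_ ?_
  · intro z hz
    rw [mem_bx] at hz
    rw [mem_product, mem_bx, mem_bx]
    refine ⟨⟨fun s hs => ?_, fun s hs => ?_⟩, ⟨fun s hs => ?_, fun s hs => ?_⟩⟩
    · simp only [rs, hs, if_true]; exact hz.1 s (mem_union_left _ hs)
    · simp only [rs, hs, if_false]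
    · simp only [rs, hs, if_true]; exact hz.1 s (mem_union_right _ hs)
    · simp only [rs, hs, if_false]
  · intro w hw
    rw [mem_product, mem_bx, mem_bx] at hw
    obtain ⟨⟨h1, h2⟩, h3, h4⟩ := hw
    rw [mem_bx]
    refine ⟨fun s hs => ?_, fun s hs => ?_⟩
    · rw [Pi.add_apply]
      rcases mem_union.1 hs with hs | hs
      · rw [h4 s (Finset.disjoint_left.1 h hs), add_zero]; exact h1 s hs
      · rw [h2 s (Finset.disjoint_right.1 h hs), zero_add]; exact h3 s hs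
    · rw [mem_union, not_or] at hs
      rw [Pi.add_apply, h2 s hs.1, h4 s hs.2]
  · intro z hz
    rw [mem_bx] at hz
    funext s
    rw [Pi.add_apply]
    simp only [rs]
    by_cases h1 : s ∈ X
    · rw [if_pos h1, if_neg (Finset.disjoint_left.1 h h1), add_zero]
    · by_cases h2 : s ∈ X'
      · rw [if_neg h1, if_pos h2, zero_add]
      · rw [if_neg h1, if_neg h2, hz.2 s (by rw [mem_union]; tauto)]
  · intro w hw
    rw [mem_product, mem_bx, mem_bx] at hw
    obtain ⟨⟨h1, h2⟩, h3, h4⟩ := hw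
    ext s
    · simp only [rs, Pi.add_apply]
      by_cases hs : s ∈ X
      · rw [if_pos hs, h4 s (Finset.disjoint_left.1 h hs), add_zero]
      · rw [if_neg hs, h2 s hs]
    · simp only [rs, Pi.add_apply]
      by_cases hs : s ∈ X'
      · rw [if_pos hs, h2 s (Finset.disjoint_right.1 h hs), zero_add]
      · rw [if_neg hs, h4 s hs]
  · intro z hz
    rw [mem_bx] at hz
    congr 1
    funext s
    rw [Pi.add_apply]
    simp only [rs]
    by_cases h1 : s ∈ X
    · rw [if_pos h1, if_neg (Finset.disjoint_left.1 h h1), add_zero]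
    · by_cases h2 : s ∈ X'
      · rw [if_neg h1, if_pos h2, zero_add]
      · rw [if_neg h1, if_neg h2, hz.2 s (by rw [mem_union]; tauto)]

theorem sum_bx_single {M : Type} [AddCommMonoid M] (E : Sg → ℕ) (e : Sg) (f : (Sg → ℕ) → M) :
    ∑ z ∈ bx E {e}, f z = ∑ j ∈ range (E e), f (Pi.single e j) := by
  refine Finset.sum_nbij' (fun z => z e) (fun j => Pi.single e j) ?_ ?_ ?_ ?_ ?_
  · intro z hz
    rw [mem_bx] at hz
    rw [mem_range]
    exact hz.1 e (mem_singleton_self e)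
  · intro j hj
    rw [mem_bx]
    refine ⟨fun s hs => ?_, fun s hs => ?_⟩
    · rw [mem_singleton] at hs
      subst hs
      rw [Pi.single_eq_same]
      exact mem_range.1 hj
    · rw [mem_singleton] at hs
      exact Pi.single_eq_of_ne (M := fun _ : Sg => ℕ) hs j
  · intro z hz
    rw [mem_bx] at hz
    funext s
    by_cases hs : s = e
    · subst hs; rw [Pi.single_eq_same]
    · rw [Pi.single_eq_of_ne hs, hz.2 s (by rw [mem_singleton]; exact hs)]
  · intro j _
    exact Pi.single_eq_same (M := fun _ : Sg => ℕ) e j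
  · intro z hz
    rw [mem_bx] at hz
    congr 1
    funext s
    by_cases hs : s = e
    · subst hs; rw [Pi.single_eq_same]
    · rw [Pi.single_eq_of_ne hs, hz.2 s (by rw [mem_singleton]; exact hs)]

/-- euclidean norm of a function of the index -/
noncomputable def n2 (E : Sg → ℕ) (X : Finset Sg) (p : (Sg → ℕ) → ℝ) : ℝ :=
  √(∑ x ∈ bx E X, p x ^ 2)

theorem n2_nonneg (E : Sg → ℕ) (X : Finset Sg) (p : (Sg → ℕ) → ℝ) : 0 ≤ n2 E X p :=
  Real.sqrt_nonneg _

theorem n2_sq (E : Sg → ℕ) (X : Finset Sg) (p : (Sg → ℕ) → ℝ) :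
    n2 E X p ^ 2 = ∑ x ∈ bx E X, p x ^ 2 :=
  Real.sq_sqrt (Finset.sum_nonneg fun _ _ => sq_nonneg _)

/-- the flattening `(X | Y)` of `T` has norm at most `k`, as bilinear form -/
def FN (E : Sg → ℕ) (X Y : Finset Sg) (T : (Sg → ℕ) → ℝ) (k : ℝ) : Prop :=
  ∀ p q : (Sg → ℕ) → ℝ,
    |∑ x ∈ bx E X, ∑ y ∈ bx E Y, p x * T (x + y) * q y| ≤ k * (n2 E X p * n2 E Y q)

theorem FN.symm {E : Sg → ℕ} {X Y : Finset Sg} {T : (Sg → ℕ) → ℝ} {k : ℝ} (h : FN E X Y T k) :
    FN E Y X T k := by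
  intro p q
  have h1 := h q p
  rw [Finset.sum_comm] at h1
  rw [mul_comm (n2 E Y p)]
  have e : ∑ x ∈ bx E Y, ∑ y ∈ bx E X, p x * T (x + y) * q y =
      ∑ y ∈ bx E Y, ∑ x ∈ bx E X, q x * T (x + y) * p y := by
    refine Finset.sum_congr rfl fun x _ => Finset.sum_congr rfl fun y _ => ?_
    rw [add_comm]
    ring
  rw [e]
  exact h1

theorem FN.mono {E : Sg → ℕ} {X Y : Finset Sg} {T : (Sg → ℕ) → ℝ} {k k' : ℝ} (h : FN E X Y T k)
    (hk : k ≤ k') : FN E X Y T k' := fun p q =>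
  (h p q).trans (mul_le_mul_of_nonneg_right hk (mul_nonneg (n2_nonneg _ _ _) (n2_nonneg _ _ _)))

theorem FN.congr {E : Sg → ℕ} {X Y : Finset Sg} {T T' : (Sg → ℕ) → ℝ} {k : ℝ} (h : FN E X Y T k)
    (hT : ∀ x ∈ bx E X, ∀ y ∈ bx E Y, T (x + y) = T' (x + y)) : FN E X Y T' k := by
  intro p q
  have h1 := h p q
  convert h1 using 2
  refine Finset.sum_congr rfl fun x hx => Finset.sum_congr rfl fun y hy => ?_
  rw [hT x hx y hy]

theorem FN.zero (E : Sg → ℕ) (X Y : Finset Sg) : FN E X Y (fun _ => 0) 0 := by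
  intro p q
  simp

theorem FN.add {E : Sg → ℕ} {X Y : Finset Sg} {T T' : (Sg → ℕ) → ℝ} {k k' : ℝ}
    (h : FN E X Y T k) (h' : FN E X Y T' k') : FN E X Y (fun z => T z + T' z) (k + k') := by
  intro p q
  have e : ∑ x ∈ bx E X, ∑ y ∈ bx E Y, p x * (T (x + y) + T' (x + y)) * q y =
      ∑ x ∈ bx E X, ∑ y ∈ bx E Y, p x * T (x + y) * q y +
      ∑ x ∈ bx E X, ∑ y ∈ bx E Y, p x * T' (x + y) * q y := by
    rw [← Finset.sum_add_distrib]
    refine Finset.sum_congr rfl fun x _ => ?_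
    rw [← Finset.sum_add_distrib]
    exact Finset.sum_congr rfl fun y _ => by ring
  rw [e, add_mul]
  exact (abs_add_le _ _).trans (add_le_add (h p q) (h' p q))

theorem FN.smul {E : Sg → ℕ} {X Y : Finset Sg} {T : (Sg → ℕ) → ℝ} {k : ℝ} (w : ℝ)
    (h : FN E X Y T k) : FN E X Y (fun z => w * T z) (|w| * k) := by
  intro p q
  have e : ∑ x ∈ bx E X, ∑ y ∈ bx E Y, p x * (w * T (x + y)) * q y =
      w * ∑ x ∈ bx E X, ∑ y ∈ bx E Y, p x * T (x + y) * q y := by
    rw [Finset.mul_sum]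
    refine Finset.sum_congr rfl fun x _ => ?_
    rw [Finset.mul_sum]
    exact Finset.sum_congr rfl fun y _ => by ring
  rw [e, abs_mul, mul_assoc]
  exact mul_le_mul_of_nonneg_left (h p q) (abs_nonneg w)

theorem FN.sum {E : Sg → ℕ} {X Y : Finset Sg} {ι : Type} (s : Finset ι)
    (T : ι → (Sg → ℕ) → ℝ) (k : ι → ℝ) (h : ∀ i ∈ s, FN E X Y (T i) (k i)) :
    FN E X Y (fun z => ∑ i ∈ s, T i z) (∑ i ∈ s, k i) := by
  classical
  induction s using Finset.induction_on with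
  | empty => simpa using FN.zero E X Y
  | insert a s ha ih =>
    have h1 := (h a (mem_insert_self a s)).add (ih fun i hi => h i (mem_insert_of_mem hi))
    rw [Finset.sum_insert ha]
    exact h1.congr fun x _ y _ => by rw [Finset.sum_insert ha]

theorem n2_mono {E : Sg → ℕ} {X : Finset Sg} {a p : (Sg → ℕ) → ℝ} (ha : ∀ x, |a x| ≤ 1) :
    n2 E X (fun x => a x * p x) ≤ n2 E X p := by
  unfold n2
  apply Real.sqrt_le_sqrt
  refine Finset.sum_le_sum fun x _ => ?_
  beta_reduce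
  rw [mul_pow]
  have h1 : a x ^ 2 ≤ 1 := by
    have := ha x
    rw [← sq_abs]
    exact pow_le_one₀ (abs_nonneg _) this
  nlinarith [sq_nonneg (p x)]

/-- diagonal multipliers -/
theorem FN.diag {E : Sg → ℕ} {X Y : Finset Sg} {T : (Sg → ℕ) → ℝ} {k : ℝ} (hk : 0 ≤ k)
    (h : FN E X Y T k) {a b : (Sg → ℕ) → ℝ} (ha : ∀ x, |a x| ≤ 1) (hb : ∀ x, |b x| ≤ 1)
    {c : (Sg → ℕ) → ℝ} (hc : ∀ x ∈ bx E X, ∀ y ∈ bx E Y, c (x + y) = a x * b y) :
    FN E X Y (fun z => c z * T z) k := by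
  intro p q
  have h1 := h (fun x => a x * p x) (fun y => b y * q y)
  have e : ∑ x ∈ bx E X, ∑ y ∈ bx E Y, p x * (c (x + y) * T (x + y)) * q y =
      ∑ x ∈ bx E X, ∑ y ∈ bx E Y, (a x * p x) * T (x + y) * (b y * q y) := by
    refine Finset.sum_congr rfl fun x hx => Finset.sum_congr rfl fun y hy => ?_
    rw [hc x hx y hy]
    ring
  rw [e]
  refine h1.trans (mul_le_mul_of_nonneg_left ?_ hk)
  exact mul_le_mul (n2_mono ha) (n2_mono hb) (n2_nonneg _ _ _) (n2_nonneg _ _ _)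

/-- the flattening as an operator -/
theorem FN.vec {E : Sg → ℕ} {X Y : Finset Sg} {T : (Sg → ℕ) → ℝ} {k : ℝ} (hk : 0 ≤ k)
    (h : FN E X Y T k) (q : (Sg → ℕ) → ℝ) :
    ∑ x ∈ bx E X, (∑ y ∈ bx E Y, T (x + y) * q y) ^ 2 ≤ k ^ 2 * ∑ y ∈ bx E Y, q y ^ 2 := by
  set p : (Sg → ℕ) → ℝ := fun x => ∑ y ∈ bx E Y, T (x + y) * q y with hp
  have h1 := h p q
  have e : ∑ x ∈ bx E X, ∑ y ∈ bx E Y, p x * T (x + y) * q y = n2 E X p ^ 2 := by
    rw [n2_sq]
    refine Finset.sum_congr rfl fun x _ => ?_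
    rw [sq]
    conv_rhs => rw [hp]
    beta_reduce
    rw [Finset.mul_sum]
    exact Finset.sum_congr rfl fun y _ => by ring
  rw [e, abs_of_nonneg (sq_nonneg _)] at h1
  have h2 := n2_nonneg E X p
  have h3 := n2_nonneg E Y q
  have h4 : n2 E X p ≤ k * n2 E Y q := by
    rcases h2.eq_or_lt with h5 | h5
    · rw [← h5]; positivity
    · have : n2 E X p * n2 E X p ≤ (k * n2 E Y q) * n2 E X p := by nlinarith
      exact le_of_mul_le_mul_right this h5
  rw [← n2_sq, ← n2_sq, ← mul_pow]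
  exact pow_le_pow_left₀ h2 h4 2

theorem FN.of_vec {E : Sg → ℕ} {X Y : Finset Sg} {T : (Sg → ℕ) → ℝ} {k : ℝ} (hk : 0 ≤ k)
    (h : ∀ q : (Sg → ℕ) → ℝ, ∑ x ∈ bx E X, (∑ y ∈ bx E Y, T (x + y) * q y) ^ 2 ≤
      k ^ 2 * ∑ y ∈ bx E Y, q y ^ 2) : FN E X Y T k := by
  intro p q
  have e : ∑ x ∈ bx E X, ∑ y ∈ bx E Y, p x * T (x + y) * q y =
      ∑ x ∈ bx E X, p x * ∑ y ∈ bx E Y, T (x + y) * q y := by
    refine Finset.sum_congr rfl fun x _ => ?_
    rw [Finset.mul_sum]
    exact Finset.sum_congr rfl fun y _ => by ring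
  rw [e]
  refine abs_le_of_sq_le_sq ?_ (by have := n2_nonneg E X p; have := n2_nonneg E Y q; positivity) |> fun h => h
  have h1 := Finset.sum_mul_sq_le_sq_mul_sq (bx E X) p (fun x => ∑ y ∈ bx E Y, T (x + y) * q y)
  refine h1.trans ?_
  rw [mul_pow, mul_pow, n2_sq, n2_sq]
  have h2 := mul_le_mul_of_nonneg_left (h q) (Finset.sum_nonneg fun x (_ : x ∈ bx E X) => sq_nonneg (p x))
  linarith

end Pool.Agent.SHX.Arr18
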