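import Pool.Agent.Lib.MP_a7b2aa_an.SHX.Stmts74

/-!
SHX (MP_a7b2aa): BADH, minimal bad classes are rare (union bound).
-/

set_option autoImplicit false

namespace Pool.Agent.SHX

open Finset Pool.Agent.SB3 Pool.Agent.SBT Pool.Agent.SBD Pool.Agent.SHD

namespace BadH96

theorem Av_sum96 {m L : ℕ} {ι : Type} (s : Finset ι) (φ : ι → Pt m L → ℝ) :
    Av (fun ω => ∑ i ∈ s, φ i ω) = ∑ i ∈ s, Av (φ i) := by
  unfold Av
  rw [Finset.sum_comm, Finset.sum_div]

end BadH96

open BadH96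

open Classical in
/-- minimal bad classes are rare -/
theorem badH_96 (hZ : StZlaw) (hY : StPrY) (hB : StPrB) : StBadH := by
  intro n n0 ε hε
  obtain ⟨C1, hC1, H1⟩ := hY (n + 2) n0 ε hε
  obtain ⟨C2, hC2, H2⟩ := hB (n + 2) n0 ε hε
  refine ⟨12 * C1 + 48 * C2, by linarith, ?_⟩
  intro L N R X H hX hH hy hn
  have hL : (1 : ℝ) ≤ L := by exact_mod_cast hX.hL
  have hL0 : (0 : ℝ) < L := by linarith
  have hLe : (0 : ℝ) ≤ (L : ℝ) ^ ε := by positivity
  have hT := hX.T1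
  have hy0 := hX.y0
  have hlam := hX.lam0
  set C : ℝ := 12 * C1 + 48 * C2 with hC
  set A : ℝ := (2 * (R : ℝ) + 1) * X.lam * Real.sqrt L with hA
  have hA0 : 0 ≤ A := by positivity
  have hC1C : C1 ≤ C := by rw [hC]; linarith
  have hC2C : C2 ≤ C := by rw [hC]; linarith
  have hZp : ∀ ω, 0 < X.Z 2 H ω := (hZ L N R X H 2 hX hH).2.1
  -- the conditions for the two modules
  have e1 : C1 * (L : ℝ) ^ ε * A ≤ X.y := by
    refine le_trans ?_ hy
    refine mul_le_mul (mul_le_mul_of_nonneg_right hC1C hLe) ?_ hA0 (by positivity)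
    have : 0 ≤ (X.T * X.y) ^ 2 := by positivity
    linarith
  have e2 : C2 * (L : ℝ) ^ ε * (A + (X.T * X.y) ^ 2) ≤ X.y := by
    refine le_trans ?_ hy
    exact mul_le_mul_of_nonneg_right (mul_le_mul_of_nonneg_right hC2C hLe) (by positivity)
  have hP : 0 ≤ (32 * X.T ^ 2 * X.y) ^ n0 := by positivity
  have e3 : C1 * L * (32 * X.T ^ 2 * X.y) ^ n0 ≤ 1 := by
    refine le_trans ?_ hn
    gcongr
  have e4 : C2 * L * (32 * X.T ^ 2 * X.y) ^ n0 ≤ 1 := by
    refine le_trans ?_ hn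
    gcongr
  -- the pieces
  set F1 : Fin 3 → Fin X.K → Pt 2 L → ℝ := fun c k ω =>
    if X.GB H ω ∧ ¬ BF L (YP X.lam (zp ω) (fun q => X.u q ω)
      (fun e q => X.be e q ω) c (X.f k) H H) X.y then X.Z 2 H ω else 0 with hF1
  set F2 : Fin 3 → Fin X.K → Fin X.K → Pt 2 L → ℝ := fun c k l ω =>
    if H c < L then (if X.GB H ω ∧ X.y < |BP (fun e q => X.be e q ω) c (X.f k) (X.f l) H|
      then X.Z 2 H ω else 0) else 0 with hF2
  have p1 : ∀ c k ω, 0 ≤ F1 c k ω := by
    intro c k ω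
    simp only [hF1]
    split_ifs
    · exact (hZp ω).le
    · exact le_rfl
  have p2 : ∀ c k l ω, 0 ≤ F2 c k l ω := by
    intro c k l ω
    simp only [hF2]
    split_ifs
    · exact (hZp ω).le
    · exact le_rfl
    · exact le_rfl
  have key : ∀ ω, (if X.GB H ω ∧ ¬ X.Gd H ω then X.Z 2 H ω else 0) ≤
      (∑ c : Fin 3, ∑ k : Fin X.K, F1 c k ω) +
        ∑ c : Fin 3, ∑ k : Fin X.K, ∑ l : Fin X.K, F2 c k l ω := by
    intro ω
    have q1 : 0 ≤ ∑ c : Fin 3, ∑ k : Fin X.K, F1 c k ω :=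
      Finset.sum_nonneg fun c _ => Finset.sum_nonneg fun k _ => p1 c k ω
    have q2 : 0 ≤ ∑ c : Fin 3, ∑ k : Fin X.K, ∑ l : Fin X.K, F2 c k l ω :=
      Finset.sum_nonneg fun c _ => Finset.sum_nonneg fun k _ => Finset.sum_nonneg fun l _ =>
        p2 c k l ω
    split_ifs with h
    · obtain ⟨hg, hb⟩ := h
      unfold Cx.Gd at hb
      rw [not_and_or] at hb
      rcases hb with hb | hb
      · push Not at hb
        obtain ⟨c, k, hck⟩ := hb
        have r1 : F1 c k ω = X.Z 2 H ω := by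
          simp only [hF1]
          rw [if_pos ⟨hg, hck⟩]
        have r2 : F1 c k ω ≤ ∑ c : Fin 3, ∑ k : Fin X.K, F1 c k ω :=
          (Finset.single_le_sum (f := fun k => F1 c k ω) (fun k _ => p1 c k ω)
            (Finset.mem_univ k)).trans
          (Finset.single_le_sum (f := fun c => ∑ k : Fin X.K, F1 c k ω)
            (fun c _ => Finset.sum_nonneg fun k _ => p1 c k ω) (Finset.mem_univ c))
        linarith
      · push Not at hb
        obtain ⟨c, k, l, hc, hckl⟩ := hb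
        have r1 : F2 c k l ω = X.Z 2 H ω := by
          simp only [hF2]
          rw [if_pos hc, if_pos ⟨hg, hckl⟩]
        have r2 : F2 c k l ω ≤ ∑ c : Fin 3, ∑ k : Fin X.K, ∑ l : Fin X.K, F2 c k l ω :=
          ((Finset.single_le_sum (f := fun l => F2 c k l ω) (fun l _ => p2 c k l ω)
            (Finset.mem_univ l)).trans
          (Finset.single_le_sum (f := fun k => ∑ l : Fin X.K, F2 c k l ω)
            (fun k _ => Finset.sum_nonneg fun l _ => p2 c k l ω) (Finset.mem_univ k))).trans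
          (Finset.single_le_sum (f := fun c => ∑ k : Fin X.K, ∑ l : Fin X.K, F2 c k l ω)
            (fun c _ => Finset.sum_nonneg fun k _ => Finset.sum_nonneg fun l _ => p2 c k l ω)
            (Finset.mem_univ c))
        linarith
    · linarith
  have t1 : ∀ c k, Av (F1 c k) ≤ C1 / (L + 1) ^ (n + 2) := fun c k =>
    H1 L N R X H c k hX hH e1 e3
  have t2 : ∀ c k l, Av (F2 c k l) ≤ C2 / (L + 1) ^ (n + 2) := by
    intro c k l
    by_cases hc : H c < L
    · have := H2 L N R X H c k l hX hH hc e2 e4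
      have e5 : F2 c k l = fun ω => if X.GB H ω ∧
          X.y < |BP (fun e q => X.be e q ω) c (X.f k) (X.f l) H| then X.Z 2 H ω else 0 := by
        funext ω
        simp only [hF2]
        rw [if_pos hc]
      rw [e5]
      exact this
    · have e5 : F2 c k l = fun _ => 0 := by
        funext ω
        simp only [hF2]
        rw [if_neg hc]
      rw [e5]
      unfold Av
      rw [Finset.sum_const_zero, zero_div]
      positivity
  have hK : (X.K : ℝ) ≤ 4 * ((L : ℝ) + 1) := by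
    have : (X.K : ℝ) ≤ 4 * L := by exact_mod_cast hX.K4
    linarith
  have hK0 : (0 : ℝ) ≤ X.K := Nat.cast_nonneg _
  have s1 : ∑ c : Fin 3, ∑ k : Fin X.K, Av (F1 c k) ≤ 3 * (X.K * (C1 / (L + 1) ^ (n + 2))) := by
    refine (Finset.sum_le_sum fun c _ => Finset.sum_le_sum fun k _ => t1 c k).trans (le_of_eq ?_)
    simp only [Finset.sum_const, Finset.card_univ, Fintype.card_fin, nsmul_eq_mul]
    push_cast
    ring
  have s2 : ∑ c : Fin 3, ∑ k : Fin X.K, ∑ l : Fin X.K, Av (F2 c k l) ≤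
      3 * (X.K * (X.K * (C2 / (L + 1) ^ (n + 2)))) := by
    refine (Finset.sum_le_sum fun c _ => Finset.sum_le_sum fun k _ =>
      Finset.sum_le_sum fun l _ => t2 c k l).trans (le_of_eq ?_)
    simp only [Finset.sum_const, Finset.card_univ, Fintype.card_fin, nsmul_eq_mul]
    push_cast
    ring
  have main : X.bad H ≤ 3 * (X.K * (C1 / (L + 1) ^ (n + 2))) +
      3 * (X.K * (X.K * (C2 / (L + 1) ^ (n + 2)))) := by
    refine le_trans (Av_mono key) ?_
    rw [Av_add, Av_sum96, Av_sum96]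
    have u1 : ∑ c : Fin 3, Av (fun ω => ∑ k : Fin X.K, F1 c k ω) =
        ∑ c : Fin 3, ∑ k : Fin X.K, Av (F1 c k) :=
      Finset.sum_congr rfl fun c _ => Av_sum96 _ _
    have u2 : ∑ c : Fin 3, Av (fun ω => ∑ k : Fin X.K, ∑ l : Fin X.K, F2 c k l ω) =
        ∑ c : Fin 3, ∑ k : Fin X.K, ∑ l : Fin X.K, Av (F2 c k l) :=
      Finset.sum_congr rfl fun c _ => (Av_sum96 _ _).trans
        (Finset.sum_congr rfl fun k _ => Av_sum96 _ _)
    rw [u1, u2]
    exact add_le_add s1 s2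
  refine main.trans ?_
  have hL1 : (0 : ℝ) < (L : ℝ) + 1 := by linarith
  have hL2 : (1 : ℝ) ≤ (L : ℝ) + 1 := by linarith
  have hq : (0 : ℝ) < ((L : ℝ) + 1) ^ n := by positivity
  have v1 : 3 * (X.K * (C1 / ((L : ℝ) + 1) ^ (n + 2))) ≤ 12 * C1 / ((L : ℝ) + 1) ^ n := by
    have w1 : 3 * (X.K * (C1 / ((L : ℝ) + 1) ^ (n + 2))) ≤
        3 * ((4 * ((L : ℝ) + 1) ^ 2) * (C1 / ((L : ℝ) + 1) ^ (n + 2))) := by
      have w2 : (X.K : ℝ) ≤ 4 * ((L : ℝ) + 1) ^ 2 := by nlinarith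
      have w3 : 0 ≤ C1 / ((L : ℝ) + 1) ^ (n + 2) := by positivity
      have := mul_le_mul_of_nonneg_right w2 w3
      linarith
    refine w1.trans (le_of_eq ?_)
    rw [pow_add]
    field_simp
    ring
  have v2 : 3 * (X.K * (X.K * (C2 / ((L : ℝ) + 1) ^ (n + 2)))) ≤
      48 * C2 / ((L : ℝ) + 1) ^ n := by
    have w1 : 3 * (X.K * (X.K * (C2 / ((L : ℝ) + 1) ^ (n + 2)))) ≤
        3 * ((16 * ((L : ℝ) + 1) ^ 2) * (C2 / ((L : ℝ) + 1) ^ (n + 2))) := by
      have w2 : (X.K : ℝ) * X.K ≤ 16 * ((L : ℝ) + 1) ^ 2 := by nlinarith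
      have w3 : 0 ≤ C2 / ((L : ℝ) + 1) ^ (n + 2) := by positivity
      have := mul_le_mul_of_nonneg_right w2 w3
      nlinarith
    refine w1.trans (le_of_eq ?_)
    rw [pow_add]
    field_simp
    ring
  rw [hC, add_div]
  exact add_le_add v1 v2

end Pool.Agent.SHX
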