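import Pool.Agent.Lib.MP_a7b2aa_an.SHX.StmtsX65

/-!
SHX BAYX (helper5): the exact law on the good classes. From PROD (the sup bound) and TOPU.
-/

set_option autoImplicit false

namespace Pool.Agent.SHXA

open Finset Pool.Agent.SB3 Pool.Agent.SBT Pool.Agent.SBD Pool.Agent.SHD Pool.Agent.SHX
open Pool.Agent.Lib.MP_a7b2aa_an.SHX

theorem mem_bx_5 {m : ℕ} {H : Fin (m + 1) → ℕ} {Q : Finset (Fin (m + 1))}
    {c l : Fin (m + 1) → ℕ} :
    l ∈ bx H Q c ↔ (∀ a ∈ Q, l a ≤ H a) ∧ ∀ a, a ∉ Q → l a = c a := by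
  unfold bx
  rw [Fintype.mem_piFinset]
  constructor
  · intro h
    refine ⟨fun a ha => ?_, fun a ha => ?_⟩
    · have h1 := h a
      rw [if_pos ha, mem_range] at h1
      omega
    · have h1 := h a
      rw [if_neg ha] at h1
      exact mem_singleton.1 h1
  · rintro ⟨h1, h2⟩ a
    by_cases ha : a ∈ Q
    · rw [if_pos ha, mem_range]
      have := h1 a ha
      omega
    · rw [if_neg ha]
      exact mem_singleton.2 (h2 a ha)

/-- the values of `F` outside the box do not matter -/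
theorem nm_congr_5 {m : ℕ} {K : ℕ} {H : Fin (m + 1) → ℕ} {C : Finset (Fin (m + 1))} {b : ℝ}
    {F G : (Fin (m + 1) → ℕ) → ℝ} (h : ∀ l, (∀ a, l a ≤ H a) → F l = G l)
    (hF : Nm K H C b F) : Nm K H C b G := by
  intro w hw
  have h0 : ∀ x : Fin (m + 1) → ℕ, (∀ a ∈ C, x a ≤ H a) →
      Ph H tm w Cᶜ F x = Ph H tm w Cᶜ G x := by
    intro x hx
    unfold Ph
    refine sum_congr rfl fun l hl => ?_
    rw [mem_bx_5] at hl
    rw [h l]
    intro a
    by_cases ha : a ∈ C
    · rw [hl.2 a (by simpa using ha)]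
      exact hx a ha
    · exact hl.1 a (by simpa using ha)
  obtain ⟨hs, hm⟩ := hF w hw
  refine ⟨fun x hx => ?_, fun C1 C2 h1 h2 h3 h4 v => ?_⟩
  · rw [← h0 x (fun a ha => (mem_bx_5.1 hx).1 a ha)]
    exact hs x hx
  · have h5 := hm C1 C2 h1 h2 h3 h4 v
    have h6 : ∀ x ∈ bx H C1 0, ∀ y ∈ bx H C2 0,
        Ph H tm w Cᶜ G (x + y) = Ph H tm w Cᶜ F (x + y) := by
      intro x hx y hy
      rw [mem_bx_5] at hx hy
      refine (h0 _ fun a ha => ?_).symm
      rw [← h2, mem_union] at ha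
      rcases ha with ha | ha
      · have h7 : y a = 0 := hy.2 a (fun h' => (disjoint_left.1 h1) ha h')
        rw [Pi.add_apply, h7, Nat.add_zero]
        exact hx.1 a ha
      · have h7 : x a = 0 := hx.2 a (fun h' => (disjoint_left.1 h1) h' ha)
        rw [Pi.add_apply, h7, Nat.zero_add]
        exact hy.1 a ha
    have h8 : ∑ x ∈ bx H C1 0, (∑ y ∈ bx H C2 0, Ph H tm w Cᶜ G (x + y) * v y) ^ 2 =
        ∑ x ∈ bx H C1 0, (∑ y ∈ bx H C2 0, Ph H tm w Cᶜ F (x + y) * v y) ^ 2 := by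
      refine sum_congr rfl fun x hx => ?_
      congr 1
      exact sum_congr rfl fun y hy => by rw [h6 x hx y hy]
    rw [h8]
    exact h5

theorem nm_mono_5 {m : ℕ} {K : ℕ} {H : Fin (m + 1) → ℕ} {C : Finset (Fin (m + 1))} {a b : ℝ}
    {F : (Fin (m + 1) → ℕ) → ℝ} (ha : 0 ≤ a) (hab : a ≤ b) (hF : Nm K H C a F) :
    Nm K H C b F := by
  intro w hw
  obtain ⟨hs, hm⟩ := hF w hw
  refine ⟨fun x hx => (hs x hx).trans hab, fun C1 C2 h1 h2 h3 h4 v => ?_⟩
  refine (hm C1 C2 h1 h2 h3 h4 v).trans ?_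
  refine mul_le_mul_of_nonneg_right ?_ (sum_nonneg fun y _ => sq_nonneg _)
  exact pow_le_pow_left₀ ha hab 2

/-- a function which vanishes on the box -/
theorem nm_zero_5 {m : ℕ} {K : ℕ} {H : Fin (m + 1) → ℕ} {C : Finset (Fin (m + 1))} {b : ℝ}
    {F : (Fin (m + 1) → ℕ) → ℝ} (hb : 0 ≤ b) (h : ∀ l, (∀ a, l a ≤ H a) → F l = 0) :
    Nm K H C b F := by
  have h1 : Nm K H C b (fun _ => (0 : ℝ)) := by
    intro w _
    have h2 : ∀ x, Ph H tm w Cᶜ (fun _ => (0 : ℝ)) x = 0 := by
      intro x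
      unfold Ph
      exact sum_eq_zero fun l _ => mul_zero _
    refine ⟨fun x _ => ?_, fun C1 C2 _ _ _ _ v => ?_⟩
    · rw [h2, abs_zero]
      exact hb
    · have h3 : ∑ x ∈ bx H C1 0, (∑ y ∈ bx H C2 0,
          Ph H tm w Cᶜ (fun _ => (0 : ℝ)) (x + y) * v y) ^ 2 = 0 := by
        refine sum_eq_zero fun x _ => ?_
        rw [sum_eq_zero fun y _ => by rw [h2, zero_mul]]
        norm_num
      rw [h3]
      exact mul_nonneg (sq_nonneg _) (sum_nonneg fun y _ => sq_nonneg _)
  exact nm_congr_5 (fun l hl => (h l hl).symm) h1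

theorem abs_sb_5 {m L : ℕ} (a : Fin (m + 1)) (t : ℕ) (ω : Pt m L) : |sb a t ω| = 1 := by
  unfold sb sgr
  cases bit (ω a) t <;> simp

/-- the good classes are functions of the class -/
theorem ms_gk_5 {m L K : ℕ} {bs : ℕ → ℝ}
    {ka : Finset (Fin (m + 1)) → (Fin (m + 1) → ℕ) → Pt m L → ℝ} (hk : ∀ B h, Ms h (ka B h))
    (h : Fin (m + 1) → ℕ) : Ms h (Gk K bs ka h) := by
  have h1 : ∀ ω ω' : Pt m L, cl h ω' ω → Gk K bs ka h ω' → Gk K bs ka h ω := by
    intro ω ω' hc hg B hB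
    refine nm_congr_5 (fun l hl => ?_) (hg B hB)
    exact hk B l ω ω' (cl_mono (fun a => Or.inl (hl a)) hc)
  intro ω ω' hc
  exact propext ⟨h1 ω ω' hc, h1 ω' ω (cl_symm hc)⟩

/-- BAYX -/
theorem bayx_5 (hP : StPrd) (hT : StTopu) : StBayx := by
  intro m L K N R lam b η bs u Z ka W hm hL hK hE hu hlam hη hsz hS hb
  have hT0 : 0 ≤ T0 K ^ (m + 1) := by
    unfold T0
    positivity
  have hstart : ∀ ω, Gk K bs ka (fun _ => 0) ω := by
    intro ω B hB
    by_cases hBu : B = univ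
    · have h1 := hT m L N R K lam η (fun c => u c ω) (fun _ => 0) hm (fun _ => Nat.zero_le _)
        hlam hη (fun q => hu.abs q ω) (fun q hq => hu.bd q ω hq) hsz
      rw [hBu]
      have h2 : Nm K (fun _ => 0) univ η (fun c => ka univ c ω) :=
        nm_congr_5 (fun l _ => (hE.top l ω).symm) h1
      have h3 : (univ : Finset (Fin (m + 1))).card = m + 1 := by simp
      rw [h3]
      exact nm_mono_5 hη hS.top h2
    · refine nm_zero_5 (hS.nn _) fun l hl => ?_
      obtain ⟨p, hp⟩ : ∃ p, p ∉ B := by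
        by_contra hcon
        push Not at hcon
        exact hBu (eq_univ_iff_forall.2 hcon)
      exact hE.van B l ω p hB hp (Nat.le_zero.1 (hl p))
  have habs : ∀ (c : Fin (m + 1)) (h : Fin (m + 1) → ℕ) (ω : Pt m L), (∀ a, h a ≤ L) →
      Gd (Gk K bs ka) h ω → |ka {c} h ω| ≤ 1 / 2 := by
    intro c h ω hh hg
    have h1 : Nm K h {c} (bs 1) (fun l => ka {c} l ω) := by
      have := hg h le_rfl {c} (singleton_nonempty c)
      rwa [card_singleton] at this
    have h2 := (hP m).sup K h {c} (bs 1) (fun l => ka {c} l ω)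
      (fun j => lt_of_le_of_lt (hh j) hK) (hS.nn 1)
      (fun l p hp hl => hE.van {c} l ω p (singleton_nonempty c) hp hl) h1 h (fun j => le_rfl)
    have h3 : T0 K ^ (m + 1) * bs 1 ≤ T0 K ^ (m + 1) * b :=
      mul_le_mul_of_nonneg_left (hS.le 1) hT0
    have h4 : |ka {c} h ω| ≤ T0 K ^ (m + 1) * bs 1 := h2
    linarith
  have hpos : ∀ (n : ℕ) (h : Fin (m + 1) → ℕ) (ω : Pt m L), h 0 = n → (∀ a, h a ≤ L) →
      Gl (Gk K bs ka) h ω → 0 < Z h ω := by
    intro n
    induction n with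
    | zero =>
      intro h ω h0 _ _
      rw [hE.zero h ω ⟨0, h0⟩]
      norm_num
    | succ n ih =>
      intro h ω h0 hh hg
      obtain ⟨h', hh'⟩ : ∃ h', h' = Function.update h 0 n := ⟨_, rfl⟩
      have hle : h' ≤ h := by
        intro a
        rw [hh']
        by_cases ha : a = 0
        · rw [ha, Function.update_self, h0]
          exact Nat.le_succ n
        · rw [Function.update_of_ne ha]
      have h0' : h' 0 = n := by
        rw [hh', Function.update_self]
      have hne : h' ≠ h := by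
        intro he
        rw [he] at h0'
        omega
      have hgd : Gd (Gk K bs ka) h' ω := by
        intro r hr
        refine hg r (hr.trans hle) fun he => ?_
        rw [he] at hr
        exact hne (le_antisymm hle hr)
      have hl' : ∀ a, h' a ≤ L := fun a => (hle a).trans (hh a)
      have h1 : 0 < Z h' ω := ih h' ω h0' hl' fun r hr _ => hgd r hr
      have h2 : upc h' 0 = h := by
        funext a
        unfold upc
        by_cases ha : a = 0
        · subst ha
          rw [Function.update_self, h0', h0]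
        · rw [Function.update_of_ne ha, hh', Function.update_of_ne ha]
      have h3 := hE.step h' 0 ω h1.ne'
      rw [h2] at h3
      rw [h3]
      have h4 := habs 0 h' ω hl' hgd
      have h5 : |sb 0 (h' 0) ω * ka {0} h' ω| ≤ 1 / 2 := by
        rw [abs_mul, abs_sb_5, one_mul]
        exact h4
      have h6 := (abs_le.1 h5).1
      have h7 : 0 < 1 + sb 0 (h' 0) ω * ka {0} h' ω := by linarith
      positivity
  have hposd : ∀ h ω, (∀ a, h a ≤ L) → Gd (Gk K bs ka) h ω → 0 < Z h ω :=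
    fun h ω hh hg => hpos (h 0) h ω rfl hh fun r hr _ => hg r hr
  refine ⟨⟨fun h => ms_gk_5 hE.msk h, fun c h => hE.msk {c} h, hE.msZ, hstart,
    hE.zero, fun c h ω hh _ hg => habs c h ω hh hg, fun c h ω hh _ hg =>
    hE.step h c ω (hposd h ω hh hg).ne'⟩, hposd, fun h ω hh hg => hpos (h 0) h ω rfl hh hg⟩

end Pool.Agent.SHXA
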