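import Pool.Agent.Lib.MP_a7b2aa_an.SHX.Rz74

/-! SHX general m (helper74): chain kernels and the chain identity, any number of strings. -/

set_option autoImplicit false

namespace Pool.Agent.SHX.Ch74

open Finset

variable {n : ℕ}

/-- the recentred sign -/
noncomputable def zt (z : Fin n → ℕ → ℝ) (ka : Finset (Fin n) → (Fin n → ℕ) → ℝ) (e : Fin n)
    (h : Fin n → ℕ) : ℝ := z e (h e) / (1 + z e (h e) * ka {e} h)

/-- `1 / (1 - β ^ 2)` -/
noncomputable def ph (ka : Finset (Fin n) → (Fin n → ℕ) → ℝ) (e : Fin n) (h : Fin n → ℕ) : ℝ :=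
  1 / (1 - ka {e} h ^ 2)

/-- what the chain identity needs, classes `≤ H` -/
structure Cs (z : Fin n → ℕ → ℝ) (ka : Finset (Fin n) → (Fin n → ℕ) → ℝ) (H : Fin n → ℕ) :
    Prop where
  sq : ∀ c j, z c j * z c j = 1
  bd : ∀ e h, h ≤ H → h e < H e → |ka {e} h| ≤ 1 / 2
  rb : ∀ e g h, g ≠ e → h ≤ H → h g < H g →
    ka {e} (Function.update h g (h g + 1)) = ka {e} h + ka {e, g} h * zt z ka g h

/-- the chain kernels: `k` steps from the class `h`, string `e`, to the sign `v` of string `s` -/
noncomputable def WK (ka : Finset (Fin n) → (Fin n → ℕ) → ℝ) (H : Fin n → ℕ) :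
    ℕ → Fin n → Fin n → (Fin n → ℕ) → ℕ → ℝ
  | 0, e, s, h, v => if s = e ∧ v = h e then ph ka e h else 0
  | k + 1, e, s, h, v => ph ka e h * ∑ g ∈ univ.erase e, ∑ j ∈ Finset.Ico (h g) (H g),
      ka {e, g} (rz H e g h j) * WK ka H k g s (rz H e g h j) v

/-- the remainder after `k` steps -/
noncomputable def RK (z : Fin n → ℕ → ℝ) (ka : Finset (Fin n) → (Fin n → ℕ) → ℝ)
    (H : Fin n → ℕ) : ℕ → Fin n → (Fin n → ℕ) → ℝ
  | 0, e, h => zt z ka e h
  | k + 1, e, h => ph ka e h * ∑ g ∈ univ.erase e, ∑ j ∈ Finset.Ico (h g) (H g),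
      ka {e, g} (rz H e g h j) * RK z ka H k g (rz H e g h j)

variable {z : Fin n → ℕ → ℝ} {ka : Finset (Fin n) → (Fin n → ℕ) → ℝ} {H : Fin n → ℕ}

theorem one_add_ne {z b : ℝ} (hz : z * z = 1) (hb : |b| ≤ 1 / 2) : 1 + z * b ≠ 0 := by
  have hz' : |z| = 1 := by
    have h1 : |z| * |z| = 1 := by rw [← abs_mul, hz, abs_one]
    nlinarith [abs_nonneg z]
  have h2 : |z * b| ≤ 1 / 2 := by rw [abs_mul, hz', one_mul]; exact hb
  have h3 := neg_abs_le (z * b)
  intro h4
  linarith

/-- the recentred sign as centred sign times `ph` -/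
theorem zt_eq (ps : Cs z ka H) {e : Fin n} {h : Fin n → ℕ} (hh : h ≤ H) (he : h e < H e) :
    zt z ka e h = ph ka e h * (z e (h e) - ka {e} h) := by
  have s := ps.sq e (h e)
  have b := ps.bd e h hh he
  have d := one_add_ne s b
  have d2 : 1 - ka {e} h ^ 2 ≠ 0 := by
    have h1 := sq_le_sq' (abs_le.mp b).1 (abs_le.mp b).2
    intro h0
    linarith
  unfold zt ph
  rw [div_eq_iff d, div_mul_eq_mul_div, one_mul, div_mul_eq_mul_div, eq_div_iff d2]
  linear_combination (- ka {e} h) * s

/-- the chain identity -/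
theorem chain (ps : Cs z ka H) (k : ℕ) : ∀ (e : Fin n) (h : Fin n → ℕ), h ≤ H → h e < H e →
    zt z ka e h = ∑ i ∈ range k, ∑ s : Fin n, ∑ v ∈ range (H s),
      WK ka H i e s h v * (z s v - ka {s} (Function.update H s v)) + RK z ka H k e h := by
  induction k with
  | zero => intro e h hh he; simp [RK]
  | succ k ih =>
    intro e h hh he
    have inc := Rz74.tele H h e hh (fun q => ka {e} q)
    have inc2 : ka {e} (Function.update H e (h e)) - ka {e} h =
        ∑ g ∈ univ.erase e, ∑ j ∈ Finset.Ico (h g) (H g),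
          ka {e, g} (rz H e g h j) * zt z ka g (rz H e g h j) := by
      rw [inc]
      refine Finset.sum_congr rfl (fun g hg => ?_)
      have hge : g ≠ e := Finset.ne_of_mem_erase hg
      refine Finset.sum_congr rfl (fun j hj => ?_)
      rw [Finset.mem_Ico] at hj
      have hle : rz H e g h j ≤ H := Rz74.le_H hh hj.2.le
      have r := ps.rb e g (rz H e g h j) hge hle (by rw [Rz74.at_g H hge]; exact hj.2)
      rw [Rz74.at_g H hge, Rz74.succ_eq H hge] at r
      rw [r]; ring
    have e0 : zt z ka e h = ph ka e h * (z e (h e) - ka {e} (Function.update H e (h e))) +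
        ph ka e h * ∑ g ∈ univ.erase e, ∑ j ∈ Finset.Ico (h g) (H g),
          ka {e, g} (rz H e g h j) * zt z ka g (rz H e g h j) := by
      rw [zt_eq ps hh he, ← inc2]; ring
    rw [e0]
    have s1 : ∑ g ∈ univ.erase e, ∑ j ∈ Finset.Ico (h g) (H g),
          ka {e, g} (rz H e g h j) * zt z ka g (rz H e g h j) =
        (∑ i ∈ range k, ∑ s : Fin n, ∑ v ∈ range (H s),
          (∑ g ∈ univ.erase e, ∑ j ∈ Finset.Ico (h g) (H g),
            ka {e, g} (rz H e g h j) * WK ka H i g s (rz H e g h j) v) *
              (z s v - ka {s} (Function.update H s v))) +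
        ∑ g ∈ univ.erase e, ∑ j ∈ Finset.Ico (h g) (H g),
          ka {e, g} (rz H e g h j) * RK z ka H k g (rz H e g h j) := by
      have t1 : ∀ g ∈ univ.erase e, ∑ j ∈ Finset.Ico (h g) (H g),
          ka {e, g} (rz H e g h j) * zt z ka g (rz H e g h j) =
          (∑ i ∈ range k, ∑ s : Fin n, ∑ v ∈ range (H s),
            (∑ j ∈ Finset.Ico (h g) (H g),
              ka {e, g} (rz H e g h j) * WK ka H i g s (rz H e g h j) v) *
              (z s v - ka {s} (Function.update H s v))) +
          ∑ j ∈ Finset.Ico (h g) (H g),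
            ka {e, g} (rz H e g h j) * RK z ka H k g (rz H e g h j) := by
        intro g hg
        have hge : g ≠ e := Finset.ne_of_mem_erase hg
        have t2 : ∀ j ∈ Finset.Ico (h g) (H g),
            ka {e, g} (rz H e g h j) * zt z ka g (rz H e g h j) =
            (∑ i ∈ range k, ∑ s : Fin n, ∑ v ∈ range (H s),
              ka {e, g} (rz H e g h j) * WK ka H i g s (rz H e g h j) v *
              (z s v - ka {s} (Function.update H s v))) +
            ka {e, g} (rz H e g h j) * RK z ka H k g (rz H e g h j) := by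
          intro j hj
          rw [Finset.mem_Ico] at hj
          have hle : rz H e g h j ≤ H := Rz74.le_H hh hj.2.le
          rw [ih g (rz H e g h j) hle (by rw [Rz74.at_g H hge]; exact hj.2), mul_add]
          congr 1
          simp only [Finset.mul_sum, mul_assoc]
        rw [Finset.sum_congr rfl t2, Finset.sum_add_distrib]
        congr 1
        rw [Finset.sum_comm]
        refine Finset.sum_congr rfl (fun i _ => ?_)
        rw [Finset.sum_comm]
        refine Finset.sum_congr rfl (fun s _ => ?_)
        rw [Finset.sum_comm]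
        refine Finset.sum_congr rfl (fun v _ => ?_)
        rw [Finset.sum_mul]
      rw [Finset.sum_congr rfl t1, Finset.sum_add_distrib]
      congr 1
      rw [Finset.sum_comm]
      refine Finset.sum_congr rfl (fun i _ => ?_)
      rw [Finset.sum_comm]
      refine Finset.sum_congr rfl (fun s _ => ?_)
      rw [Finset.sum_comm]
      refine Finset.sum_congr rfl (fun v _ => ?_)
      rw [Finset.sum_mul]
    rw [s1, Finset.sum_range_succ' (fun i => ∑ s : Fin n, ∑ v ∈ range (H s),
      WK ka H i e s h v * (z s v - ka {s} (Function.update H s v)))]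
    have e1 : ∑ s : Fin n, ∑ v ∈ range (H s),
        WK ka H 0 e s h v * (z s v - ka {s} (Function.update H s v)) =
        ph ka e h * (z e (h e) - ka {e} (Function.update H e (h e))) := by
      rw [Finset.sum_eq_single e]
      · rw [Finset.sum_eq_single (h e)]
        · simp [WK]
        · intro v _ hv; simp [WK, hv]
        · intro hv; exact absurd (Finset.mem_range.mpr he) hv
      · intro s _ hs
        refine Finset.sum_eq_zero (fun v _ => ?_)
        simp [WK, hs]
      · intro hc; exact absurd (Finset.mem_univ e) hc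
    rw [e1]
    have e2 : ∑ i ∈ range k, ∑ s : Fin n, ∑ v ∈ range (H s),
        WK ka H (i + 1) e s h v * (z s v - ka {s} (Function.update H s v)) =
        ph ka e h * ∑ i ∈ range k, ∑ s : Fin n, ∑ v ∈ range (H s),
          (∑ g ∈ univ.erase e, ∑ j ∈ Finset.Ico (h g) (H g),
            ka {e, g} (rz H e g h j) * WK ka H i g s (rz H e g h j) v) *
              (z s v - ka {s} (Function.update H s v)) := by
      rw [Finset.mul_sum]
      refine Finset.sum_congr rfl (fun i _ => ?_)
      rw [Finset.mul_sum]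
      refine Finset.sum_congr rfl (fun s _ => ?_)
      rw [Finset.mul_sum]
      refine Finset.sum_congr rfl (fun v _ => ?_)
      rw [WK]
      ring
    rw [e2, RK]
    ring

end Pool.Agent.SHX.Ch74
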