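import Pool.Agent.Lib.MP_a7b2aa_an.SHX.Dbid74

/-! SHX CHID (helper74): the chain identity. -/

set_option autoImplicit false

namespace Pool.Agent.SHX

open Finset Pool.Agent.SB3 Pool.Agent.SBT Pool.Agent.SBD Pool.Agent.SHD

variable {lam : ℝ} {z : Fin 3 → ℕ → ℝ} {u : (Fin 3 → ℕ) → ℝ}
  {be ka : Fin 3 → (Fin 3 → ℕ) → ℝ} {H : Fin 3 → ℕ}

/-- the recentred sign as centred sign times `ph` -/
theorem zt_eq (ps : PS lam z u be ka H) {c : Fin 3} {h : Fin 3 → ℕ} (hh : h ∈ Dom H c) :
    zt z be c h = ph be c h * (z c (h c) - be c h) := by
  have s := ps.sq c (h c)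
  have b := ps.bd c h hh.1 hh.2
  have d := one_add_ne s b
  have d2 : 1 - be c h ^ 2 ≠ 0 := by
    have h1 := sq_le_sq' (abs_le.mp b).1 (abs_le.mp b).2
    intro h0
    linarith
  unfold zt ph
  rw [div_eq_iff d, div_mul_eq_mul_div, one_mul, div_mul_eq_mul_div, eq_div_iff d2]
  linear_combination (- be c h) * s + z c (h c) * be c h ^ 2 * s - z c (h c) * be c h ^ 2 * s

/-- raising one string -/
theorem raise1 (ps : PS lam z u be ka H) (c : Fin 3) (h : Fin 3 → ℕ) (hh : h ≤ H) :
    ∀ n, h (c + 1) ≤ n → n ≤ H (c + 1) → be c (Function.update h (c + 1) n) - be c h =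
      ∑ j ∈ Finset.Ico (h (c + 1)) n, ka (c + 2) (Function.update h (c + 1) j) *
        zt z be (c + 1) (Function.update h (c + 1) j) := by
  intro n hn
  induction n, hn using Nat.le_induction with
  | base => intro _; simp
  | succ n hn ih =>
    intro hn2
    have i1 := ih (by omega)
    rw [Finset.sum_Ico_succ_top hn, ← i1]
    have hle : Function.update h (c + 1) n ≤ H := by
      intro e
      by_cases he : e = c + 1
      · subst he; rw [Function.update_self]; exact Nat.le_of_succ_le hn2
      · rw [Function.update_of_ne he]; exact hh e
    have r := ps.rb1 c (Function.update h (c + 1) n) hle (by rw [Function.update_self]; omega)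
    have e1 : up (Function.update h (c + 1) n) (c + 1) = Function.update h (c + 1) (n + 1) := by
      unfold up
      rw [Function.update_self, Function.update_idem]
    rw [e1] at r
    rw [r]; ring

theorem raise2 (ps : PS lam z u be ka H) (c : Fin 3) (h : Fin 3 → ℕ) (hh : h ≤ H) :
    ∀ n, h (c + 2) ≤ n → n ≤ H (c + 2) → be c (Function.update h (c + 2) n) - be c h =
      ∑ j ∈ Finset.Ico (h (c + 2)) n, ka (c + 1) (Function.update h (c + 2) j) *
        zt z be (c + 2) (Function.update h (c + 2) j) := by
  intro n hn
  induction n, hn using Nat.le_induction with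
  | base => intro _; simp
  | succ n hn ih =>
    intro hn2
    have i1 := ih (by omega)
    rw [Finset.sum_Ico_succ_top hn, ← i1]
    have hle : Function.update h (c + 2) n ≤ H := by
      intro e
      by_cases he : e = c + 2
      · subst he; rw [Function.update_self]; exact Nat.le_of_succ_le hn2
      · rw [Function.update_of_ne he]; exact hh e
    have r := ps.rb2 c (Function.update h (c + 2) n) hle (by rw [Function.update_self]; omega)
    have e1 : up (Function.update h (c + 2) n) (c + 2) = Function.update h (c + 2) (n + 1) := by
      unfold up
      rw [Function.update_self, Function.update_idem]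
    rw [e1] at r
    rw [r]; ring

/-- the two raised strings give the class with only string `c` not maximal -/
theorem raised_eq (c : Fin 3) (h : Fin 3 → ℕ) :
    Function.update (Function.update h (c + 1) (H (c + 1))) (c + 2) (H (c + 2)) =
      Function.update H c (h c) := by
  funext e
  rcases f3c c e with he | he | he
  · subst he
    rw [Function.update_of_ne (n02 e), Function.update_of_ne (n01 e), Function.update_self]
  · subst he
    rw [Function.update_of_ne (n12 c), Function.update_self, Function.update_of_ne (n10 c)]
  · subst he
    rw [Function.update_self, Function.update_of_ne (n20 c)]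

/-- CHID -/
theorem chid_74 : StChid := by
  intro lam z u be ka H ps n
  induction n with
  | zero => intro c h hh; simp [RK]
  | succ n ih =>
    intro c h hh
    -- the classes of the first and of the second sum
    have d1 : ∀ j ∈ Finset.Ico (h (c + 1)) (H (c + 1)),
        Function.update h (c + 1) j ∈ Dom H (c + 1) := by
      intro j hj
      rw [Finset.mem_Ico] at hj
      refine ⟨?_, by rw [Function.update_self]; exact hj.2⟩
      intro e
      by_cases he : e = c + 1
      · subst he; rw [Function.update_self]; exact hj.2.le
      · rw [Function.update_of_ne he]; exact hh.1 e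
    have l1 : Function.update h (c + 1) (H (c + 1)) ≤ H := by
      intro e
      by_cases he : e = c + 1
      · subst he; rw [Function.update_self]
      · rw [Function.update_of_ne he]; exact hh.1 e
    have d2 : ∀ j ∈ Finset.Ico (h (c + 2)) (H (c + 2)),
        Function.update (Function.update h (c + 1) (H (c + 1))) (c + 2) j ∈ Dom H (c + 2) := by
      intro j hj
      rw [Finset.mem_Ico] at hj
      refine ⟨?_, by rw [Function.update_self]; exact hj.2⟩
      intro e
      by_cases he : e = c + 2
      · subst he; rw [Function.update_self]; exact hj.2.le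
      · rw [Function.update_of_ne he]; exact l1 e
    -- the increment of the bias
    have r1 := raise1 ps c h hh.1 (H (c + 1)) (hh.1 _) le_rfl
    have r2 := raise2 ps c (Function.update h (c + 1) (H (c + 1))) l1 (H (c + 2))
      (by rw [Function.update_of_ne (n21 c)]; exact hh.1 _) le_rfl
    rw [raised_eq, Function.update_of_ne (n21 c)] at r2
    have e0 : zt z be c h = ph be c h * (z c (h c) - be c (Function.update H c (h c))) +
        ph be c h * ((∑ j ∈ Finset.Ico (h (c + 1)) (H (c + 1)),
          ka (c + 2) (Function.update h (c + 1) j) *
            zt z be (c + 1) (Function.update h (c + 1) j)) +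
          ∑ j ∈ Finset.Ico (h (c + 2)) (H (c + 2)),
          ka (c + 1) (Function.update (Function.update h (c + 1) (H (c + 1))) (c + 2) j) *
            zt z be (c + 2)
              (Function.update (Function.update h (c + 1) (H (c + 1))) (c + 2) j)) := by
      rw [zt_eq ps hh, ← r1, ← r2]; ring
    rw [e0]
    have s1 : ∑ j ∈ Finset.Ico (h (c + 1)) (H (c + 1)),
          ka (c + 2) (Function.update h (c + 1) j) *
            zt z be (c + 1) (Function.update h (c + 1) j) =
        (∑ k ∈ range n, ∑ s : Fin 3, ∑ v ∈ range (H s),
          (∑ j ∈ Finset.Ico (h (c + 1)) (H (c + 1)),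
            ka (c + 2) (Function.update h (c + 1) j) *
              WK be ka H k (c + 1) s (Function.update h (c + 1) j) v) *
              (z s v - be s (Function.update H s v))) +
        ∑ j ∈ Finset.Ico (h (c + 1)) (H (c + 1)),
          ka (c + 2) (Function.update h (c + 1) j) *
            RK z be ka H n (c + 1) (Function.update h (c + 1) j) := by
      rw [Finset.sum_congr rfl (fun j hj => by rw [ih (c + 1) _ (d1 j hj)])]
      simp only [mul_add, Finset.sum_add_distrib]
      congr 1
      simp only [Finset.mul_sum, Finset.sum_mul]
      rw [Finset.sum_comm]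
      refine Finset.sum_congr rfl (fun k _ => ?_)
      rw [Finset.sum_comm]
      refine Finset.sum_congr rfl (fun s _ => ?_)
      rw [Finset.sum_comm]
      refine Finset.sum_congr rfl (fun v _ => ?_)
      refine Finset.sum_congr rfl (fun j _ => ?_)
      ring
    have s2 : ∑ j ∈ Finset.Ico (h (c + 2)) (H (c + 2)),
          ka (c + 1) (Function.update (Function.update h (c + 1) (H (c + 1))) (c + 2) j) *
            zt z be (c + 2)
              (Function.update (Function.update h (c + 1) (H (c + 1))) (c + 2) j) =
        (∑ k ∈ range n, ∑ s : Fin 3, ∑ v ∈ range (H s),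
          (∑ j ∈ Finset.Ico (h (c + 2)) (H (c + 2)),
            ka (c + 1) (Function.update (Function.update h (c + 1) (H (c + 1))) (c + 2) j) *
              WK be ka H k (c + 2) s
                (Function.update (Function.update h (c + 1) (H (c + 1))) (c + 2) j) v) *
              (z s v - be s (Function.update H s v))) +
        ∑ j ∈ Finset.Ico (h (c + 2)) (H (c + 2)),
          ka (c + 1) (Function.update (Function.update h (c + 1) (H (c + 1))) (c + 2) j) *
            RK z be ka H n (c + 2)
              (Function.update (Function.update h (c + 1) (H (c + 1))) (c + 2) j) := by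
      rw [Finset.sum_congr rfl (fun j hj => by rw [ih (c + 2) _ (d2 j hj)])]
      simp only [mul_add, Finset.sum_add_distrib]
      congr 1
      simp only [Finset.mul_sum, Finset.sum_mul]
      rw [Finset.sum_comm]
      refine Finset.sum_congr rfl (fun k _ => ?_)
      rw [Finset.sum_comm]
      refine Finset.sum_congr rfl (fun s _ => ?_)
      rw [Finset.sum_comm]
      refine Finset.sum_congr rfl (fun v _ => ?_)
      refine Finset.sum_congr rfl (fun j _ => ?_)
      ring
    rw [s1, s2, Finset.sum_range_succ' (fun k => ∑ s : Fin 3, ∑ v ∈ range (H s),
      WK be ka H k c s h v * (z s v - be s (Function.update H s v)))]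
    have e1 : ∑ s : Fin 3, ∑ v ∈ range (H s),
        WK be ka H 0 c s h v * (z s v - be s (Function.update H s v)) =
        ph be c h * (z c (h c) - be c (Function.update H c (h c))) := by
      rw [Finset.sum_eq_single c]
      · rw [Finset.sum_eq_single (h c)]
        · simp [WK]
        · intro v _ hv; simp [WK, hv]
        · intro hv; exact absurd (Finset.mem_range.mpr hh.2) hv
      · intro s _ hs
        refine Finset.sum_eq_zero (fun v _ => ?_)
        simp [WK, hs]
      · intro hc; exact absurd (Finset.mem_univ c) hc
    rw [e1]
    have e2 : ∑ k ∈ range n, ∑ s : Fin 3, ∑ v ∈ range (H s),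
        WK be ka H (k + 1) c s h v * (z s v - be s (Function.update H s v)) =
        ph be c h * ((∑ k ∈ range n, ∑ s : Fin 3, ∑ v ∈ range (H s),
          (∑ j ∈ Finset.Ico (h (c + 1)) (H (c + 1)),
            ka (c + 2) (Function.update h (c + 1) j) *
              WK be ka H k (c + 1) s (Function.update h (c + 1) j) v) *
              (z s v - be s (Function.update H s v))) +
          ∑ k ∈ range n, ∑ s : Fin 3, ∑ v ∈ range (H s),
          (∑ j ∈ Finset.Ico (h (c + 2)) (H (c + 2)),
            ka (c + 1) (Function.update (Function.update h (c + 1) (H (c + 1))) (c + 2) j) *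
              WK be ka H k (c + 2) s
                (Function.update (Function.update h (c + 1) (H (c + 1))) (c + 2) j) v) *
              (z s v - be s (Function.update H s v))) := by
      rw [← Finset.sum_add_distrib, Finset.mul_sum]
      refine Finset.sum_congr rfl (fun k _ => ?_)
      rw [← Finset.sum_add_distrib, Finset.mul_sum]
      refine Finset.sum_congr rfl (fun s _ => ?_)
      rw [← Finset.sum_add_distrib, Finset.mul_sum]
      refine Finset.sum_congr rfl (fun v _ => ?_)
      rw [WK]
      ring
    rw [e2, RK]
    ring

end Pool.Agent.SHX
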