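import Pool.Agent.Lib.MP_a7b2aa_an.SHX.Stmts74

/-!
SHX, module CHSEP: norms of the chain kernels (helper38).
-/

set_option autoImplicit false

namespace Pool.Agent.SHX

open Finset Pool.Agent.SB3 Pool.Agent.SBT Pool.Agent.SBD Pool.Agent.SHD

namespace Ch38

theorem e11 (c : Fin 3) : c + 1 + 1 = c + 2 := by fin_cases c <;> rfl
theorem e12 (c : Fin 3) : c + 1 + 2 = c := by fin_cases c <;> rfl
theorem e21 (c : Fin 3) : c + 2 + 1 = c := by fin_cases c <;> rfl
theorem e22 (c : Fin 3) : c + 2 + 2 = c + 1 := by fin_cases c <;> rfl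
theorem n1 (c : Fin 3) : c ≠ c + 1 := by fin_cases c <;> decide
theorem n2 (c : Fin 3) : c ≠ c + 2 := by fin_cases c <;> decide
theorem n12 (c : Fin 3) : c + 1 ≠ c + 2 := by fin_cases c <;> decide

theorem nr_nonneg (L : ℕ) (x : ℕ → ℝ) : 0 ≤ nr L x := Real.sqrt_nonneg _

theorem BF.mono {L : ℕ} {M : ℕ → ℕ → ℝ} {k k' : ℝ} (h : BF L M k) (hk : k ≤ k') : BF L M k' :=
  fun x y => (h x y).trans (mul_le_mul_of_nonneg_right hk
    (mul_nonneg (nr_nonneg L x) (nr_nonneg L y)))

theorem BF.zero (L : ℕ) {k : ℝ} (hk : 0 ≤ k) : BF L (fun _ _ => 0) k := by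
  intro x y
  simp only [mul_zero, zero_mul, Finset.sum_const_zero, abs_zero]
  exact mul_nonneg hk (mul_nonneg (nr_nonneg L x) (nr_nonneg L y))

theorem SepW.zero (L : ℕ) (c : Fin 3) (D : Set (Fin 3 → ℕ)) : SepW L c D 0 (fun _ _ => 0) := by
  have h := SepW.atom (L := L) (c := c) (D := D) 0 (fun _ _ => 0) (fun _ => 0) (fun _ => 0)
    (BF.zero L zero_le_one) (fun _ => by simp) (fun _ => by simp)
  rw [abs_zero] at h
  exact h.le le_rfl fun _ _ _ _ => by simp

theorem SepW.sum' {L : ℕ} {c : Fin 3} {D : Set (Fin 3 → ℕ)} {ι : Type} (s : Finset ι)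
    (a : ι → ℝ) (φ : ι → (Fin 3 → ℕ) → ℕ → ℝ) (h : ∀ i ∈ s, SepW L c D (a i) (φ i)) :
    SepW L c D (∑ i ∈ s, a i) (fun h v => ∑ i ∈ s, φ i h v) := by
  classical
  induction s using Finset.induction_on with
  | empty => simpa using SepW.zero L c D
  | insert x s hx ih =>
    have h1 := (h x (Finset.mem_insert_self x s)).add
      (ih fun i hi => h i (Finset.mem_insert_of_mem hi))
    rw [Finset.sum_insert hx]
    exact h1.le le_rfl fun _ _ _ _ => by rw [Finset.sum_insert hx]

variable {L K : ℕ} {T : ℝ} {cf : Fin K → ℝ} {f g : Fin K → ℕ → ℝ} {H : Fin 3 → ℕ}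

theorem T_nonneg (trn : Trn L K T cf f g) : 0 ≤ T :=
  (Finset.sum_nonneg fun _ _ => abs_nonneg _).trans trn.sum

/-- the product matrix -/
theorem BF_prod (hB : Bfa L) {M W : ℕ → ℕ → ℝ} (hM : BF L M 1) (hW : BF L W 1) (a b : ℕ → ℝ)
    (ha : ∀ n, |a n| ≤ 1) (hb : ∀ n, |b n| ≤ 1) :
    BF L (fun p v => a p * ∑ j ∈ range L, M p j * (b j * W j v)) 1 := by
  have h1 := hB.diag M 1 (fun _ => 1) b zero_le_one (fun _ => by simp) hb hM
  have h2 := hB.mul _ W 1 1 zero_le_one zero_le_one h1 hW
  have h3 := hB.diag _ (1 * 1) a (fun _ => 1) (by norm_num) ha (fun _ => by simp) h2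
  rw [mul_one] at h3
  intro x y
  have h4 := h3 x y
  have e : ∀ p q : ℕ, a p * ∑ j ∈ range L, M p j * (b j * W j q) =
      a p * (∑ j ∈ range L, 1 * M p j * b j * W j q) * 1 := by
    intro p q
    rw [mul_one]
    congr 1
    refine Finset.sum_congr rfl fun j _ => by ring
  simp only [e]
  exact h4

/-- the truncated sum -/
theorem trn_sum (trn : Trn L K T cf f g) {i n : ℕ} (hi : i ≤ L) (hn : n ≤ L) (F : ℕ → ℝ) :
    ∑ k, cf k * (f k i * ∑ j ∈ range L, (if j < n then g k (j + 1) else 0) * F j) =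
      ∑ j ∈ Finset.Ico i n, F j := by
  have h1 : ∀ k, cf k * (f k i * ∑ j ∈ range L, (if j < n then g k (j + 1) else 0) * F j) =
      ∑ j ∈ range L, (if j < n then cf k * (f k i * g k (j + 1)) else 0) * F j := by
    intro k
    rw [Finset.mul_sum, Finset.mul_sum]
    refine Finset.sum_congr rfl fun j _ => ?_
    split_ifs
    · ring
    · ring
  simp only [h1]
  rw [Finset.sum_comm]
  have h2 : ∀ j ∈ range L, ∑ k, (if j < n then cf k * (f k i * g k (j + 1)) else 0) * F j =
      if i ≤ j ∧ j < n then F j else 0 := by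
    intro j hj
    rw [mem_range] at hj
    rw [← Finset.sum_mul]
    by_cases hjn : j < n
    · simp only [hjn, if_true, and_true]
      rw [trn.eq i (j + 1) hi (by omega)]
      by_cases hij : i ≤ j
      · rw [if_pos (by omega), if_pos hij, one_mul]
      · rw [if_neg (by omega), if_neg hij, zero_mul]
    · simp only [hjn, if_false, and_false]
      simp
  rw [Finset.sum_congr rfl h2, ← Finset.sum_filter]
  refine Finset.sum_congr ?_ fun _ _ => rfl
  ext j
  rw [Finset.mem_filter, Finset.mem_range, Finset.mem_Ico]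
  omega

theorem g_bd (trn : Trn L K T cf f g) (k : Fin K) (n j : ℕ) :
    |(if j < n then g k (j + 1) else 0 : ℝ)| ≤ 1 := by
  split_ifs
  · exact trn.g1 k _
  · simp

/-- raising the string `c + 1`, atoms -/
theorem ins1_atom (hB : Bfa L) (trn : Trn L K T cf f g) (hHL : ∀ e, H e ≤ L) (c : Fin 3)
    (w : ℝ) (M : ℕ → ℕ → ℝ) (d : ℕ → ℝ) (hM : BF L M 1) (hd : ∀ n, |d n| ≤ 1)
    (w' : ℝ) (W : ℕ → ℕ → ℝ) (α α' : ℕ → ℝ) (hW : BF L W 1) (hα : ∀ n, |α n| ≤ 1)
    (hα' : ∀ n, |α' n| ≤ 1) :
    SepW L c (Dom H c) (T * (|w| * |w'|)) (fun h v => ∑ j ∈ Finset.Ico (h (c + 1)) (H (c + 1)),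
      (w * (M (Function.update h (c + 1) j (c + 2 + 1)) (Function.update h (c + 1) j (c + 2 + 2)) *
        d (Function.update h (c + 1) j (c + 2)))) *
      (w' * (α (Function.update h (c + 1) j (c + 1 + 1)) *
        α' (Function.update h (c + 1) j (c + 1 + 2)) * W (Function.update h (c + 1) j (c + 1)) v))) := by
  have hk := SepW.sum' (L := L) (c := c) (D := Dom H c) Finset.univ
    (fun k => |cf k * (w * w')|)
    (fun k h v => cf k * (w * w') * (f k (h (c + 1)) * (d (h (c + 2)) * α (h (c + 2))) *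
      (α' (h c) * ∑ j ∈ range L, M (h c) j * ((if j < H (c + 1) then g k (j + 1) else 0) * W j v))))
    (fun k _ => SepW.atom (cf k * (w * w')) _ (f k) (fun n => d n * α n)
      (BF_prod hB hM hW α' _ hα' (g_bd trn k (H (c + 1)))) (trn.f1 k) (fun n => by
        rw [abs_mul]; exact mul_le_one₀ (hd n) (abs_nonneg _) (hα n)))
  refine hk.le ?_ fun h hh v _ => ?_
  · have e : ∀ k, |cf k * (w * w')| = |cf k| * (|w| * |w'|) := fun k => by rw [abs_mul, abs_mul]
    simp only [e]
    rw [← Finset.sum_mul]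
    exact mul_le_mul_of_nonneg_right trn.sum (by positivity)
  · have hu1 : ∀ j, Function.update h (c + 1) j (c + 1) = j := fun j => Function.update_self _ _ _
    have hu0 : ∀ j, Function.update h (c + 1) j c = h c := fun j =>
      Function.update_of_ne (n1 c) _ _
    have hu2 : ∀ j, Function.update h (c + 1) j (c + 2) = h (c + 2) := fun j =>
      Function.update_of_ne (n12 c).symm _ _
    simp only [e11, e12, e21, e22, hu0, hu1, hu2]
    have h1 := trn_sum trn (i := h (c + 1)) (n := H (c + 1)) ((hh.1 _).trans (hHL _)) (hHL _)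
      (fun j => (w * (M (h c) j * d (h (c + 2)))) *
        (w' * (α (h (c + 2)) * α' (h c) * W j v)))
    rw [← h1]
    refine Finset.sum_congr rfl fun k _ => ?_
    rw [Finset.mul_sum, Finset.mul_sum, Finset.mul_sum, Finset.mul_sum, Finset.mul_sum]
    refine Finset.sum_congr rfl fun j _ => ?_
    ring

theorem ins1 (hB : Bfa L) (hS : SepA L) (trn : Trn L K T cf f g) (hHL : ∀ e, H e ≤ L) (c : Fin 3)
    {a : ℝ} {κ : (Fin 3 → ℕ) → ℝ} (hκ : SepM L (c + 2) (Dom2 H H (c + 2)) a κ)
    {b : ℝ} {Φ : (Fin 3 → ℕ) → ℕ → ℝ} (hΦ : SepW L (c + 1) (Dom H (c + 1)) b Φ) :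
    SepW L c (Dom H c) (T * (a * b)) (fun h v => ∑ j ∈ Finset.Ico (h (c + 1)) (H (c + 1)),
      κ (Function.update h (c + 1) j) * Φ (Function.update h (c + 1) j) v) := by
  have hT := T_nonneg trn
  have hdom : ∀ h ∈ Dom H c, ∀ j ∈ Finset.Ico (h (c + 1)) (H (c + 1)),
      Function.update h (c + 1) j ∈ Dom2 H H (c + 2) ∧
      Function.update h (c + 1) j ∈ Dom H (c + 1) := by
    intro h hh j hj
    rw [Finset.mem_Ico] at hj
    have hle : Function.update h (c + 1) j ≤ H := by
      intro e
      by_cases he : e = c + 1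
      · rw [he, Function.update_self]; exact hj.2.le
      · rw [Function.update_of_ne he]; exact hh.1 e
    refine ⟨⟨hle, ?_, ?_⟩, hle, ?_⟩
    · rw [e21, Function.update_of_ne (n1 c)]; exact hh.2
    · rw [e22, Function.update_self]; exact hj.2
    · rw [Function.update_self]; exact hj.2
  induction hκ with
  | atom w M d hM hd =>
    induction hΦ with
    | atom w' W α α' hW hα hα' => exact ins1_atom hB trn hHL c w M d hM hd w' W α α' hW hα hα'
    | add h1 h2 ih1 ih2 =>
      refine (ih1.add ih2).le (by rw [← mul_add, ← mul_add]) fun h hh v _ => ?_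
      rw [← Finset.sum_add_distrib]
      exact Finset.sum_congr rfl fun j _ => by ring
    | le h1 hab heq ih =>
      refine ih.le (mul_le_mul_of_nonneg_left (mul_le_mul_of_nonneg_left hab (abs_nonneg _)) hT)
        fun h hh v hv => ?_
      exact Finset.sum_congr rfl fun j hj => by rw [heq _ (hdom h hh j hj).2 v hv]
  | add h1 h2 ih1 ih2 =>
    refine (ih1.add ih2).le (by rw [← mul_add, ← add_mul]) fun h hh v _ => ?_
    rw [← Finset.sum_add_distrib]
    exact Finset.sum_congr rfl fun j _ => by ring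
  | le h1 hab heq ih =>
    refine ih.le (mul_le_mul_of_nonneg_left (mul_le_mul_of_nonneg_right hab
      (hS.wnn _ _ _ _ hΦ)) hT) fun h hh v hv => ?_
    exact Finset.sum_congr rfl fun j hj => by rw [heq _ (hdom h hh j hj).1]

/-- raising the string `c + 2` when the string `c + 1` is at the top, atoms -/
theorem ins2_atom (hB : Bfa L) (trn : Trn L K T cf f g) (hHL : ∀ e, H e ≤ L) (c : Fin 3)
    (w : ℝ) (M : ℕ → ℕ → ℝ) (d : ℕ → ℝ) (hM : BF L M 1) (hd : ∀ n, |d n| ≤ 1)
    (w' : ℝ) (W : ℕ → ℕ → ℝ) (α α' : ℕ → ℝ) (hW : BF L W 1) (hα : ∀ n, |α n| ≤ 1)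
    (hα' : ∀ n, |α' n| ≤ 1) :
    SepW L c (Dom H c) (T * (|w| * |w'|)) (fun h v => ∑ j ∈ Finset.Ico (h (c + 2)) (H (c + 2)),
      (w * (M (Function.update (Function.update h (c + 1) (H (c + 1))) (c + 2) j (c + 1 + 1))
          (Function.update (Function.update h (c + 1) (H (c + 1))) (c + 2) j (c + 1 + 2)) *
        d (Function.update (Function.update h (c + 1) (H (c + 1))) (c + 2) j (c + 1)))) *
      (w' * (α (Function.update (Function.update h (c + 1) (H (c + 1))) (c + 2) j (c + 2 + 1)) *
        α' (Function.update (Function.update h (c + 1) (H (c + 1))) (c + 2) j (c + 2 + 2)) *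
        W (Function.update (Function.update h (c + 1) (H (c + 1))) (c + 2) j (c + 2)) v))) := by
  have hMt := hB.tr M 1 hM
  have hk := SepW.sum' (L := L) (c := c) (D := Dom H c) Finset.univ
    (fun k => |cf k * (w * w')|)
    (fun k h v => cf k * (w * w') * ((fun _ => d (H (c + 1)) * α' (H (c + 1))) (h (c + 1)) *
      f k (h (c + 2)) *
      (α (h c) * ∑ j ∈ range L, M j (h c) * ((if j < H (c + 2) then g k (j + 1) else 0) * W j v))))
    (fun k _ => SepW.atom (cf k * (w * w')) _ (fun _ => d (H (c + 1)) * α' (H (c + 1))) (f k)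
      (BF_prod hB hMt hW α _ hα (g_bd trn k (H (c + 2)))) (fun n => by
        rw [abs_mul]; exact mul_le_one₀ (hd _) (abs_nonneg _) (hα' _)) (trn.f1 k))
  refine hk.le ?_ fun h hh v _ => ?_
  · have e : ∀ k, |cf k * (w * w')| = |cf k| * (|w| * |w'|) := fun k => by rw [abs_mul, abs_mul]
    simp only [e]
    rw [← Finset.sum_mul]
    exact mul_le_mul_of_nonneg_right trn.sum (by positivity)
  · have hu1 : ∀ j, Function.update (Function.update h (c + 1) (H (c + 1))) (c + 2) j (c + 1) =
        H (c + 1) := fun j => by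
      rw [Function.update_of_ne (n12 c), Function.update_self]
    have hu0 : ∀ j, Function.update (Function.update h (c + 1) (H (c + 1))) (c + 2) j c = h c :=
      fun j => by rw [Function.update_of_ne (n2 c), Function.update_of_ne (n1 c)]
    have hu2 : ∀ j, Function.update (Function.update h (c + 1) (H (c + 1))) (c + 2) j (c + 2) = j :=
      fun j => Function.update_self _ _ _
    simp only [e11, e12, e21, e22, hu0, hu1, hu2]
    have h1 := trn_sum trn (i := h (c + 2)) (n := H (c + 2)) ((hh.1 _).trans (hHL _)) (hHL _)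
      (fun j => (w * (M j (h c) * d (H (c + 1)))) *
        (w' * (α (h c) * α' (H (c + 1)) * W j v)))
    rw [← h1]
    refine Finset.sum_congr rfl fun k _ => ?_
    rw [Finset.mul_sum, Finset.mul_sum, Finset.mul_sum, Finset.mul_sum, Finset.mul_sum]
    refine Finset.sum_congr rfl fun j _ => ?_
    ring

theorem ins2 (hB : Bfa L) (hS : SepA L) (trn : Trn L K T cf f g) (hHL : ∀ e, H e ≤ L) (c : Fin 3)
    {a : ℝ} {κ : (Fin 3 → ℕ) → ℝ} (hκ : SepM L (c + 1) (Dom2 H H (c + 1)) a κ)
    {b : ℝ} {Φ : (Fin 3 → ℕ) → ℕ → ℝ} (hΦ : SepW L (c + 2) (Dom H (c + 2)) b Φ) :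
    SepW L c (Dom H c) (T * (a * b)) (fun h v => ∑ j ∈ Finset.Ico (h (c + 2)) (H (c + 2)),
      κ (Function.update (Function.update h (c + 1) (H (c + 1))) (c + 2) j) *
      Φ (Function.update (Function.update h (c + 1) (H (c + 1))) (c + 2) j) v) := by
  have hT := T_nonneg trn
  have hdom : ∀ h ∈ Dom H c, ∀ j ∈ Finset.Ico (h (c + 2)) (H (c + 2)),
      Function.update (Function.update h (c + 1) (H (c + 1))) (c + 2) j ∈ Dom2 H H (c + 1) ∧
      Function.update (Function.update h (c + 1) (H (c + 1))) (c + 2) j ∈ Dom H (c + 2) := by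
    intro h hh j hj
    rw [Finset.mem_Ico] at hj
    have hle : Function.update (Function.update h (c + 1) (H (c + 1))) (c + 2) j ≤ H := by
      intro e
      by_cases he : e = c + 2
      · rw [he, Function.update_self]; exact hj.2.le
      · rw [Function.update_of_ne he]
        by_cases he' : e = c + 1
        · rw [he', Function.update_self]
        · rw [Function.update_of_ne he']; exact hh.1 e
    refine ⟨⟨hle, ?_, ?_⟩, hle, ?_⟩
    · rw [e11, Function.update_self]; exact hj.2
    · rw [e12, Function.update_of_ne (n2 c), Function.update_of_ne (n1 c)]; exact hh.2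
    · rw [Function.update_self]; exact hj.2
  induction hκ with
  | atom w M d hM hd =>
    induction hΦ with
    | atom w' W α α' hW hα hα' => exact ins2_atom hB trn hHL c w M d hM hd w' W α α' hW hα hα'
    | add h1 h2 ih1 ih2 =>
      refine (ih1.add ih2).le (by rw [← mul_add, ← mul_add]) fun h hh v _ => ?_
      rw [← Finset.sum_add_distrib]
      exact Finset.sum_congr rfl fun j _ => by ring
    | le h1 hab heq ih =>
      refine ih.le (mul_le_mul_of_nonneg_left (mul_le_mul_of_nonneg_left hab (abs_nonneg _)) hT)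
        fun h hh v hv => ?_
      exact Finset.sum_congr rfl fun j hj => by rw [heq _ (hdom h hh j hj).2 v hv]
  | add h1 h2 ih1 ih2 =>
    refine (ih1.add ih2).le (by rw [← mul_add, ← add_mul]) fun h hh v _ => ?_
    rw [← Finset.sum_add_distrib]
    exact Finset.sum_congr rfl fun j _ => by ring
  | le h1 hab heq ih =>
    refine ih.le (mul_le_mul_of_nonneg_left (mul_le_mul_of_nonneg_right hab
      (hS.wnn _ _ _ _ hΦ)) hT) fun h hh v hv => ?_
    exact Finset.sum_congr rfl fun j hj => by rw [heq _ (hdom h hh j hj).1]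

/-- identity matrix -/
theorem BF_id (hB : Bfa L) : BF L (fun p q => if q = p then 1 else 0) 1 := by
  intro x y
  have e : ∑ p ∈ range L, ∑ q ∈ range L, x p * (if q = p then 1 else 0) * y q =
      ∑ p ∈ range L, x p * y p := by
    refine Finset.sum_congr rfl fun p hp => ?_
    rw [Finset.sum_eq_single p]
    · rw [if_pos rfl, mul_one]
    · intro q _ hq
      rw [if_neg hq, mul_zero, zero_mul]
    · intro h
      exact absurd hp h
  rw [e, one_mul]
  exact hB.dot x y

/-- first column -/
theorem BF_col (hB : Bfa L) (hL : 1 ≤ L) :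
    BF L (fun _ q => if q = 0 then 1 / Real.sqrt L else 0) 1 := by
  have hs : 0 < Real.sqrt L := Real.sqrt_pos.2 (by exact_mod_cast hL)
  intro x y
  have e : ∀ p, ∑ q ∈ range L, x p * (if q = 0 then 1 / Real.sqrt L else 0) * y q =
      (x p * (1 / Real.sqrt L)) * y 0 := by
    intro p
    rw [Finset.sum_eq_single 0]
    · rw [if_pos rfl]
    · intro q _ hq
      rw [if_neg hq, mul_zero, zero_mul]
    · intro h
      exact absurd (mem_range.2 (by omega)) h
  simp only [e]
  rw [← Finset.sum_mul, abs_mul, one_mul]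
  refine mul_le_mul ?_ ?_ (abs_nonneg _) (nr_nonneg L x)
  · refine (hB.dot x (fun _ => 1 / Real.sqrt L)).trans ?_
    have h1 := hB.nbd (fun _ => 1 / Real.sqrt L) (1 / Real.sqrt L) (by positivity)
      (fun _ _ => by rw [abs_of_pos (by positivity)])
    have h2 : 1 / Real.sqrt L * Real.sqrt L = 1 := by field_simp
    rw [h2] at h1
    calc nr L x * nr L (fun _ => 1 / Real.sqrt L) ≤ nr L x * 1 :=
          mul_le_mul_of_nonneg_left h1 (nr_nonneg L x)
      _ = nr L x := mul_one _
  · unfold nr
    refine Real.abs_le_sqrt ?_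
    exact Finset.single_le_sum (f := fun p => y p ^ 2) (fun _ _ => by positivity)
      (mem_range.2 (by omega))

end Ch38

open Ch38 in
/-- CHSEP -/
theorem chsep_38 (hB : StBfa) (hS : StSepA) : StChsep := by
  intro L K T k0 cf f g z be ka H hL hHL trn hph hzt hka n
  have hBL := hB L
  have hSL := hS L hL
  have hT := T_nonneg trn
  induction n with
  | zero =>
    intro c
    rw [pow_zero, mul_one, mul_one]
    constructor
    · intro s
      by_cases hs : s = c
      · have h1 : SepW L c (Dom H c) 1 (fun h v => if v = h c then 1 else 0) := by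
          have h2 := SepW.atom (L := L) (c := c) (D := Dom H c) 1
            (fun p q => if q = p then 1 else 0) (fun _ => 1) (fun _ => 1) (BF_id hBL)
            (fun _ => by simp) (fun _ => by simp)
          rw [abs_one] at h2
          exact h2.le le_rfl fun _ _ _ _ => by ring
        have h2 := hSL.wact c (Dom H c) 2 1 _ _ (hph c) h1
        refine h2.le (by norm_num) fun h _ v _ => ?_
        unfold WK
        by_cases hv : v = h c
        · rw [if_pos hv, if_pos ⟨hs, hv⟩, mul_one]
        · rw [if_neg hv, if_neg (fun h => hv h.2), mul_zero]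
      · refine (SepW.zero L c (Dom H c)).le (by norm_num) fun h _ v _ => ?_
        unfold WK
        rw [if_neg (fun h => hs h.1)]
    · have h1 : SepW L c (Dom H c) (Real.sqrt L) (fun _ v => if v = 0 then 1 else 0) := by
        have h2 := SepW.atom (L := L) (c := c) (D := Dom H c) (Real.sqrt L)
          (fun _ q => if q = 0 then 1 / Real.sqrt L else 0) (fun _ => 1) (fun _ => 1)
          (BF_col hBL hL) (fun _ => by simp) (fun _ => by simp)
        rw [abs_of_nonneg (Real.sqrt_nonneg _)] at h2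
        have hs : 0 < Real.sqrt L := Real.sqrt_pos.2 (by exact_mod_cast hL)
        refine h2.le le_rfl fun _ _ v _ => ?_
        split_ifs
        · field_simp
        · ring
      have h2 := hSL.wact c (Dom H c) 4 _ _ _ (hzt c) h1
      refine h2.le le_rfl fun h _ v _ => ?_
      by_cases hv : v = 0
      · rw [if_pos hv, if_pos hv, mul_one]; rfl
      · rw [if_neg hv, if_neg hv, mul_zero]
  | succ n ih =>
    intro c
    obtain ⟨ihW1, ihR1⟩ := ih (c + 1)
    obtain ⟨ihW2, ihR2⟩ := ih (c + 2)
    constructor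
    · intro s
      have s1 := ins1 hBL hSL trn hHL c (hka (c + 2)) (ihW1 s)
      have s2 := ins2 hBL hSL trn hHL c (hka (c + 1)) (ihW2 s)
      have s3 := hSL.wact c (Dom H c) 2 _ _ _ (hph c) (s1.add s2)
      refine s3.le (le_of_eq (by ring)) fun h _ v _ => ?_
      rfl
    · have s1 := ins1 hBL hSL trn hHL c (hka (c + 2)) ihR1
      have s2 := ins2 hBL hSL trn hHL c (hka (c + 1)) ihR2
      have s3 := hSL.wact c (Dom H c) 2 _ _ _ (hph c) (s1.add s2)
      refine s3.le (le_of_eq (by ring)) fun h _ v _ => ?_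
      by_cases hv : v = 0
      · simp only [hv, if_true]
        rfl
      · simp only [hv, if_false, mul_zero, Finset.sum_const_zero, add_zero]

end Pool.Agent.SHX
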