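import Pool.Agent.Lib.MP_a7b2aa_an.SHX.Stmts74

/-!
SHX, track D3 (helper25): general lemmas on the projective norms, and module CONB.
-/

set_option autoImplicit false

namespace Pool.Agent.SHX

open Finset Pool.Agent.SB3 Pool.Agent.SBT Pool.Agent.SBD Pool.Agent.SHD

namespace G25

/-! ### norms -/

theorem nr_nonneg (L : ℕ) (x : ℕ → ℝ) : 0 ≤ nr L x := Real.sqrt_nonneg _

theorem nr_sq (L : ℕ) (x : ℕ → ℝ) : nr L x ^ 2 = ∑ p ∈ range L, x p ^ 2 :=
  Real.sq_sqrt (Finset.sum_nonneg fun _ _ => sq_nonneg _)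

theorem nr_congr {L : ℕ} {x y : ℕ → ℝ} (h : ∀ p < L, x p = y p) : nr L x = nr L y := by
  unfold nr
  congr 1
  exact Finset.sum_congr rfl fun p hp => by rw [h p (Finset.mem_range.1 hp)]

theorem nr_dot (L : ℕ) (x y : ℕ → ℝ) : ∑ p ∈ range L, x p * y p ≤ nr L x * nr L y := by
  have h1 := Finset.sum_mul_sq_le_sq_mul_sq (range L) x y
  rw [← nr_sq, ← nr_sq, ← mul_pow] at h1
  exact (abs_le_of_sq_le_sq' h1 (mul_nonneg (nr_nonneg _ _) (nr_nonneg _ _))).2

theorem nr_add (L : ℕ) (x y : ℕ → ℝ) : nr L (fun p => x p + y p) ≤ nr L x + nr L y := by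
  have h1 := nr_nonneg L x
  have h2 := nr_nonneg L y
  have h3 := nr_nonneg L (fun p => x p + y p)
  have h4 : nr L (fun p => x p + y p) ^ 2 ≤ (nr L x + nr L y) ^ 2 := by
    rw [nr_sq]
    have e : ∑ p ∈ range L, (x p + y p) ^ 2 = ∑ p ∈ range L, x p ^ 2 +
        2 * ∑ p ∈ range L, x p * y p + ∑ p ∈ range L, y p ^ 2 := by
      rw [Finset.mul_sum, ← Finset.sum_add_distrib, ← Finset.sum_add_distrib]
      exact Finset.sum_congr rfl fun p _ => by ring
    rw [e, ← nr_sq, ← nr_sq]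
    have := nr_dot L x y
    nlinarith
  exact (abs_le_of_sq_le_sq' h4 (add_nonneg h1 h2)).2

theorem nr_smul (L : ℕ) (w : ℝ) (x : ℕ → ℝ) : nr L (fun p => w * x p) = |w| * nr L x := by
  unfold nr
  have e : ∑ p ∈ range L, (w * x p) ^ 2 = w ^ 2 * ∑ p ∈ range L, x p ^ 2 := by
    rw [Finset.mul_sum]
    exact Finset.sum_congr rfl fun p _ => by ring
  rw [e, Real.sqrt_mul (sq_nonneg _), Real.sqrt_sq_eq_abs]

theorem nr_mono {L : ℕ} {x y : ℕ → ℝ} (h : ∀ p < L, |x p| ≤ |y p|) : nr L x ≤ nr L y := by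
  unfold nr
  apply Real.sqrt_le_sqrt
  exact Finset.sum_le_sum fun p hp => sq_le_sq.2 (h p (Finset.mem_range.1 hp))

theorem nr_bd {L : ℕ} {x : ℕ → ℝ} {B : ℝ} (hB : 0 ≤ B) (h : ∀ p < L, |x p| ≤ B) :
    nr L x ≤ B * Real.sqrt L := by
  unfold nr
  rw [Real.sqrt_le_left (by positivity), mul_pow, Real.sq_sqrt (Nat.cast_nonneg L)]
  calc ∑ p ∈ range L, x p ^ 2 ≤ ∑ _p ∈ range L, B ^ 2 := by
        refine Finset.sum_le_sum fun p hp => ?_
        rw [← sq_abs (x p)]
        exact pow_le_pow_left₀ (abs_nonneg _) (h p (Finset.mem_range.1 hp)) 2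
    _ = B ^ 2 * L := by rw [Finset.sum_const, nsmul_eq_mul, Finset.card_range, mul_comm]

/-- a bilinear form of norm at most `k` acts on the rows -/
theorem bf_row {L : ℕ} {W : ℕ → ℕ → ℝ} {k : ℝ} (hk : 0 ≤ k) (hW : BF L W k) (x : ℕ → ℝ) :
    nr L (fun v => ∑ i ∈ range L, x i * W i v) ≤ k * nr L x := by
  set T : ℕ → ℝ := fun v => ∑ i ∈ range L, x i * W i v with hT
  have h1 := hW x T
  have e : ∑ p ∈ range L, ∑ q ∈ range L, x p * W p q * T q = nr L T ^ 2 := by
    rw [nr_sq, Finset.sum_comm]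
    refine Finset.sum_congr rfl fun q _ => ?_
    rw [← Finset.sum_mul, sq]
  rw [e, abs_of_nonneg (sq_nonneg _)] at h1
  have h2 := nr_nonneg L T
  have h3 := nr_nonneg L x
  rcases h2.eq_or_lt with h0 | h0
  · rw [← h0]
    positivity
  · have : nr L T * nr L T ≤ (k * nr L x) * nr L T := by nlinarith
    exact le_of_mul_le_mul_right this h0

theorem bf_tr {L : ℕ} {W : ℕ → ℕ → ℝ} {k : ℝ} (hW : BF L W k) : BF L (fun p q => W q p) k := by
  intro x y
  have h1 := hW y x
  rw [Finset.sum_comm] at h1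
  have e : ∑ p ∈ range L, ∑ q ∈ range L, x p * W q p * y q =
      ∑ p ∈ range L, ∑ q ∈ range L, y q * W q p * x p :=
    Finset.sum_congr rfl fun p _ => Finset.sum_congr rfl fun q _ => by ring
  rw [e, mul_comm (nr L x)]
  exact h1

/-- a row -/
theorem bf_entry_row {L : ℕ} {W : ℕ → ℕ → ℝ} {k : ℝ} (hk : 0 ≤ k) (hW : BF L W k) {i : ℕ}
    (hi : i < L) : nr L (fun v => W i v) ≤ k := by
  have h1 := bf_row hk hW (fun j => if j = i then 1 else 0)
  have e1 : (fun v => ∑ j ∈ range L, (if j = i then (1 : ℝ) else 0) * W j v) = fun v => W i v := by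
    funext v
    simp only [ite_mul, one_mul, zero_mul]
    rw [Finset.sum_ite_eq' (range L) i, if_pos (Finset.mem_range.2 hi)]
  have e2 : nr L (fun j => if j = i then (1 : ℝ) else 0) = 1 := by
    unfold nr
    have : ∑ p ∈ range L, (if p = i then (1 : ℝ) else 0) ^ 2 = 1 := by
      simp only [ite_pow, one_pow, ne_eq, OfNat.ofNat_ne_zero, not_false_eq_true, zero_pow]
      rw [Finset.sum_ite_eq' (range L) i, if_pos (Finset.mem_range.2 hi)]
    rw [this, Real.sqrt_one]
  rw [e1, e2, mul_one] at h1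
  exact h1

/-! ### induction principles -/

theorem sep3_nn {D : Set (Fin 3 → ℕ)} {a : ℝ} {φ : (Fin 3 → ℕ) → ℝ} (h : Sep3 D a φ) : 0 ≤ a := by
  induction h with
  | atom w α hα => exact abs_nonneg w
  | add _ _ h1 h2 => exact add_nonneg h1 h2
  | le _ hab _ h1 => exact h1.trans hab

theorem sepM_nn {L : ℕ} {c : Fin 3} {D : Set (Fin 3 → ℕ)} {a : ℝ} {φ : (Fin 3 → ℕ) → ℝ}
    (h : SepM L c D a φ) : 0 ≤ a := by
  induction h with
  | atom w M d hM hd => exact abs_nonneg w
  | add _ _ h1 h2 => exact add_nonneg h1 h2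
  | le _ hab _ h1 => exact h1.trans hab

theorem sepW_nn {L : ℕ} {c : Fin 3} {D : Set (Fin 3 → ℕ)} {a : ℝ} {φ : (Fin 3 → ℕ) → ℕ → ℝ}
    (h : SepW L c D a φ) : 0 ≤ a := by
  induction h with
  | atom w W α α' hW hα hα' => exact abs_nonneg w
  | add _ _ h1 h2 => exact add_nonneg h1 h2
  | le _ hab _ h1 => exact h1.trans hab

theorem sep3_le {D : Set (Fin 3 → ℕ)} {a : ℝ} {φ : (Fin 3 → ℕ) → ℝ} (h : Sep3 D a φ)
    (Nn : ((Fin 3 → ℕ) → ℝ) → ℝ) (K : ℝ) (hK : 0 ≤ K)
    (hat : ∀ (w : ℝ) (α : Fin 3 → ℕ → ℝ), (∀ c n, |α c n| ≤ 1) →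
      Nn (fun h => w * (α 0 (h 0) * α 1 (h 1) * α 2 (h 2))) ≤ |w| * K)
    (hadd : ∀ φ ψ, Nn (fun h => φ h + ψ h) ≤ Nn φ + Nn ψ)
    (hcg : ∀ φ ψ, (∀ h ∈ D, φ h = ψ h) → Nn ψ ≤ Nn φ) : Nn φ ≤ a * K := by
  induction h with
  | atom w α hα => exact hat w α hα
  | add _ _ h1 h2 => exact (hadd _ _).trans (by rw [add_mul]; exact add_le_add h1 h2)
  | le _ hab heq h1 => exact (hcg _ _ heq).trans (h1.trans (mul_le_mul_of_nonneg_right hab hK))

theorem sepM_le {L : ℕ} {c : Fin 3} {D : Set (Fin 3 → ℕ)} {a : ℝ} {φ : (Fin 3 → ℕ) → ℝ}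
    (h : SepM L c D a φ) (Nn : ((Fin 3 → ℕ) → ℝ) → ℝ) (K : ℝ) (hK : 0 ≤ K)
    (hat : ∀ (w : ℝ) (M : ℕ → ℕ → ℝ) (d : ℕ → ℝ), BF L M 1 → (∀ n, |d n| ≤ 1) →
      Nn (fun h => w * (M (h (c + 1)) (h (c + 2)) * d (h c))) ≤ |w| * K)
    (hadd : ∀ φ ψ, Nn (fun h => φ h + ψ h) ≤ Nn φ + Nn ψ)
    (hcg : ∀ φ ψ, (∀ h ∈ D, φ h = ψ h) → Nn ψ ≤ Nn φ) : Nn φ ≤ a * K := by
  induction h with
  | atom w M d hM hd => exact hat w M d hM hd
  | add _ _ h1 h2 => exact (hadd _ _).trans (by rw [add_mul]; exact add_le_add h1 h2)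
  | le _ hab heq h1 => exact (hcg _ _ heq).trans (h1.trans (mul_le_mul_of_nonneg_right hab hK))

theorem sepW_le {L : ℕ} {c : Fin 3} {D : Set (Fin 3 → ℕ)} {a : ℝ} {φ : (Fin 3 → ℕ) → ℕ → ℝ}
    (h : SepW L c D a φ) (Nn : ((Fin 3 → ℕ) → ℕ → ℝ) → ℝ) (K : ℝ) (hK : 0 ≤ K)
    (hat : ∀ (w : ℝ) (W : ℕ → ℕ → ℝ) (α α' : ℕ → ℝ), BF L W 1 → (∀ n, |α n| ≤ 1) →
      (∀ n, |α' n| ≤ 1) →
      Nn (fun h v => w * (α (h (c + 1)) * α' (h (c + 2)) * W (h c) v)) ≤ |w| * K)
    (hadd : ∀ φ ψ, Nn (fun h v => φ h v + ψ h v) ≤ Nn φ + Nn ψ)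
    (hcg : ∀ φ ψ, (∀ h ∈ D, ∀ v < L, φ h v = ψ h v) → Nn ψ ≤ Nn φ) : Nn φ ≤ a * K := by
  induction h with
  | atom w W α α' hW hα hα' => exact hat w W α α' hW hα hα'
  | add _ _ h1 h2 => exact (hadd _ _).trans (by rw [add_mul]; exact add_le_add h1 h2)
  | le _ hab heq h1 => exact (hcg _ _ heq).trans (h1.trans (mul_le_mul_of_nonneg_right hab hK))

/-! ### coordinates -/

theorem cls_c (c : Fin 3) (x y i : ℕ) : cls c x y i c = i := if_pos rfl

theorem cls_1 (c : Fin 3) (x y i : ℕ) : cls c x y i (c + 1) = x := by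
  unfold cls
  rw [if_neg (by fin_cases c <;> decide), if_pos rfl]

theorem cls_2 (c : Fin 3) (x y i : ℕ) : cls c x y i (c + 2) = y := by
  unfold cls
  rw [if_neg (by fin_cases c <;> decide), if_neg (by fin_cases c <;> decide)]

theorem c21 (c : Fin 3) : c + 2 + 1 = c := by fin_cases c <;> rfl

theorem c22 (c : Fin 3) : c + 2 + 2 = c + 1 := by fin_cases c <;> rfl

theorem c11 (c : Fin 3) : c + 1 + 1 = c + 2 := by fin_cases c <;> rfl

theorem c12 (c : Fin 3) : c + 1 + 2 = c := by fin_cases c <;> rfl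

theorem cls_le {c : Fin 3} {x y i : ℕ} {H : Fin 3 → ℕ} (h0 : i ≤ H c) (h1 : x ≤ H (c + 1))
    (h2 : y ≤ H (c + 2)) : cls c x y i ≤ H := by
  intro e
  have : e = c ∨ e = c + 1 ∨ e = c + 2 := by fin_cases c <;> fin_cases e <;> simp
  rcases this with rfl | rfl | rfl
  · rw [cls_c]; exact h0
  · rw [cls_1]; exact h1
  · rw [cls_2]; exact h2

theorem cls_sum (c : Fin 3) (x y i : ℕ) : ∑ e, cls c x y i e = x + y + i := by
  have : ∑ e, cls c x y i e = cls c x y i c + cls c x y i (c + 1) + cls c x y i (c + 2) := by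
    fin_cases c <;> simp [Fin.sum_univ_three, cls] <;> omega
  rw [this, cls_c, cls_1, cls_2]
  omega

end G25

open G25

theorem conb_25 : StConb := by
  intro L i N1 N2 c H g0 N G Φ hH hi hN hN1 hN2
  constructor
  · intro hG hΦ
    have key := sepW_le hΦ (fun Φ => nr L (fun v => ∑ t ∈ range N1, ∑ r ∈ range N2,
      G t r * Φ (cls c (t + 1) r i) v)) N hN ?_ ?_ ?_
    · exact key
    · intro w W α α' hW hα hα'
      have h1 := hG (fun n => α' (n + 1)) (fun n => hα' _)
      set x : ℕ → ℝ := fun r => if r < N2 then ∑ t ∈ range N1, G t r * α' (t + 1) else 0 with hx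
      have e : (fun v => ∑ t ∈ range N1, ∑ r ∈ range N2, G t r *
          (w * (α (cls c (t + 1) r i (c + 2 + 1)) * α' (cls c (t + 1) r i (c + 2 + 2)) *
            W (cls c (t + 1) r i (c + 2)) v))) =
          fun v => (w * α i) * ∑ r ∈ range L, x r * W r v := by
        funext v
        rw [c21, c22]
        simp only [cls_c, cls_1, cls_2]
        have e1 : ∑ r ∈ range L, x r * W r v = ∑ r ∈ range N2,
            (∑ t ∈ range N1, G t r * α' (t + 1)) * W r v := by
          symm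
          rw [← Finset.sum_subset (Finset.range_subset_range.2 (hN2.trans (hH (c + 2))))]
          · refine Finset.sum_congr rfl fun r hr => ?_
            rw [hx]
            simp only [if_pos (Finset.mem_range.1 hr)]
          · intro r _ hr
            rw [hx]
            simp only [if_neg (fun h => hr (Finset.mem_range.2 h)), zero_mul]
        rw [e1, Finset.sum_comm, Finset.mul_sum]
        refine Finset.sum_congr rfl fun r _ => ?_
        rw [Finset.sum_mul, Finset.mul_sum]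
        exact Finset.sum_congr rfl fun t _ => by ring
      show nr L (fun v => ∑ t ∈ range N1, ∑ r ∈ range N2, G t r *
          (w * (α (cls c (t + 1) r i (c + 2 + 1)) * α' (cls c (t + 1) r i (c + 2 + 2)) *
            W (cls c (t + 1) r i (c + 2)) v))) ≤ |w| * N
      rw [e, nr_smul, abs_mul, mul_assoc]
      apply mul_le_mul_of_nonneg_left _ (abs_nonneg w)
      have h2 := bf_row zero_le_one hW x
      rw [one_mul] at h2
      calc |α i| * nr L (fun v => ∑ r ∈ range L, x r * W r v) ≤ 1 * N :=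
            mul_le_mul (hα i) (h2.trans h1) (nr_nonneg _ _) zero_le_one
        _ = N := one_mul N
    · intro φ ψ
      refine le_trans (le_of_eq ?_) (nr_add L _ _)
      congr 1
      funext v
      rw [← Finset.sum_add_distrib]
      refine Finset.sum_congr rfl fun t _ => ?_
      rw [← Finset.sum_add_distrib]
      exact Finset.sum_congr rfl fun r _ => by ring
    · intro φ ψ h
      refine le_of_eq (nr_congr fun v hv => ?_)
      refine Finset.sum_congr rfl fun t ht => Finset.sum_congr rfl fun r hr => ?_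
      rw [Finset.mem_range] at ht hr
      rw [h (cls c (t + 1) r i) ⟨cls_le hi (by omega) (by omega), by rw [cls_2]; omega⟩ v hv]
  · intro hG hΦ
    have key := sepW_le hΦ (fun Φ => nr L (fun v => ∑ t ∈ range N1, ∑ r ∈ range N2,
      G t r * Φ (cls c t (r + 1) i) v)) N hN ?_ ?_ ?_
    · exact key
    · intro w W α α' hW hα hα'
      have h1 := hG (fun n => α (n + 1)) (fun n => hα _)
      set x : ℕ → ℝ := fun t => if t < N1 then ∑ r ∈ range N2, G t r * α (r + 1) else 0 with hx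
      have e : (fun v => ∑ t ∈ range N1, ∑ r ∈ range N2, G t r *
          (w * (α (cls c t (r + 1) i (c + 1 + 1)) * α' (cls c t (r + 1) i (c + 1 + 2)) *
            W (cls c t (r + 1) i (c + 1)) v))) =
          fun v => (w * α' i) * ∑ t ∈ range L, x t * W t v := by
        funext v
        rw [c11, c12]
        simp only [cls_c, cls_1, cls_2]
        have e1 : ∑ t ∈ range L, x t * W t v = ∑ t ∈ range N1,
            (∑ r ∈ range N2, G t r * α (r + 1)) * W t v := by
          symm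
          rw [← Finset.sum_subset (Finset.range_subset_range.2 (hN1.trans (hH (c + 1))))]
          · refine Finset.sum_congr rfl fun t ht => ?_
            rw [hx]
            simp only [if_pos (Finset.mem_range.1 ht)]
          · intro t _ ht
            rw [hx]
            simp only [if_neg (fun h => ht (Finset.mem_range.2 h)), zero_mul]
        rw [e1, Finset.mul_sum]
        refine Finset.sum_congr rfl fun t _ => ?_
        rw [Finset.sum_mul, Finset.mul_sum]
        exact Finset.sum_congr rfl fun r _ => by ring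
      show nr L (fun v => ∑ t ∈ range N1, ∑ r ∈ range N2, G t r *
          (w * (α (cls c t (r + 1) i (c + 1 + 1)) * α' (cls c t (r + 1) i (c + 1 + 2)) *
            W (cls c t (r + 1) i (c + 1)) v))) ≤ |w| * N
      rw [e, nr_smul, abs_mul, mul_assoc]
      apply mul_le_mul_of_nonneg_left _ (abs_nonneg w)
      have h2 := bf_row zero_le_one hW x
      rw [one_mul] at h2
      calc |α' i| * nr L (fun v => ∑ t ∈ range L, x t * W t v) ≤ 1 * N :=
            mul_le_mul (hα' i) (h2.trans h1) (nr_nonneg _ _) zero_le_one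
        _ = N := one_mul N
    · intro φ ψ
      refine le_trans (le_of_eq ?_) (nr_add L _ _)
      congr 1
      funext v
      rw [← Finset.sum_add_distrib]
      refine Finset.sum_congr rfl fun t _ => ?_
      rw [← Finset.sum_add_distrib]
      exact Finset.sum_congr rfl fun r _ => by ring
    · intro φ ψ h
      refine le_of_eq (nr_congr fun v hv => ?_)
      refine Finset.sum_congr rfl fun t ht => Finset.sum_congr rfl fun r hr => ?_
      rw [Finset.mem_range] at ht hr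
      rw [h (cls c t (r + 1) i) ⟨cls_le hi (by omega) (by omega), by rw [cls_1]; omega⟩ v hv]

end Pool.Agent.SHX
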