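import Mathlib

/-!
SHX (MP_a7b2aa): the cumulant algebra. Set functions with the subset convolution.
-/

set_option autoImplicit false

open Finset

namespace Pool.Agent.SHX

/-- set functions; the product is the subset convolution -/
def SC (S : Type) : Type := Finset S → ℝ

namespace SC

variable {S : Type} [DecidableEq S]

instance : AddCommGroup (SC S) := inferInstanceAs (AddCommGroup (Finset S → ℝ))

instance : Module ℝ (SC S) := inferInstanceAs (Module ℝ (Finset S → ℝ))

instance : Mul (SC S) := ⟨fun f g A => ∑ B ∈ A.powerset, f B * g (A \ B)⟩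

instance : One (SC S) := ⟨fun A => if A = ∅ then 1 else 0⟩

theorem mul_apply (f g : SC S) (A : Finset S) : (f * g) A = ∑ B ∈ A.powerset, f B * g (A \ B) := rfl

theorem one_apply (A : Finset S) : (1 : SC S) A = if A = ∅ then 1 else 0 := rfl

omit [DecidableEq S] in
theorem add_apply (f g : SC S) (A : Finset S) : (f + g) A = f A + g A := rfl

omit [DecidableEq S] in
theorem sub_apply (f g : SC S) (A : Finset S) : (f - g) A = f A - g A := rfl

omit [DecidableEq S] in
theorem neg_apply (f : SC S) (A : Finset S) : (-f) A = -f A := rfl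

omit [DecidableEq S] in
theorem zero_apply (A : Finset S) : (0 : SC S) A = 0 := rfl

omit [DecidableEq S] in
theorem smul_apply (c : ℝ) (f : SC S) (A : Finset S) : (c • f) A = c * f A := rfl

theorem mul_comm' (f g : SC S) : f * g = g * f := by
  funext A
  rw [mul_apply, mul_apply]
  refine Finset.sum_nbij' (fun B => A \ B) (fun B => A \ B) ?_ ?_ ?_ ?_ ?_
  · intro B _
    exact Finset.mem_powerset.2 Finset.sdiff_subset
  · intro B _
    exact Finset.mem_powerset.2 Finset.sdiff_subset
  · intro B hB
    exact Finset.sdiff_sdiff_eq_self (Finset.mem_powerset.1 hB)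
  · intro B hB
    exact Finset.sdiff_sdiff_eq_self (Finset.mem_powerset.1 hB)
  · intro B hB
    rw [Finset.sdiff_sdiff_eq_self (Finset.mem_powerset.1 hB), mul_comm]

theorem mul_assoc' (f g h : SC S) : f * g * h = f * (g * h) := by
  funext A
  rw [mul_apply, mul_apply]
  simp only [mul_apply, Finset.sum_mul, Finset.mul_sum]
  rw [Finset.sum_sigma', Finset.sum_sigma']
  refine Finset.sum_nbij' (fun p => ⟨p.2, p.1 \ p.2⟩) (fun p => ⟨p.1 ∪ p.2, p.1⟩) ?_ ?_ ?_ ?_ ?_
  · rintro ⟨B, C⟩ h1
    simp only [Finset.mem_sigma, Finset.mem_powerset] at h1 ⊢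
    exact ⟨h1.2.trans h1.1, Finset.sdiff_subset_sdiff h1.1 (Finset.Subset.refl _)⟩
  · rintro ⟨C, D⟩ h1
    simp only [Finset.mem_sigma, Finset.mem_powerset] at h1 ⊢
    exact ⟨Finset.union_subset h1.1 (h1.2.trans Finset.sdiff_subset), Finset.subset_union_left⟩
  · rintro ⟨B, C⟩ h1
    simp only [Finset.mem_sigma, Finset.mem_powerset] at h1 ⊢
    have e : C ∪ B \ C = B := Finset.union_sdiff_of_subset h1.2
    rw [e]
  · rintro ⟨C, D⟩ h1
    simp only [Finset.mem_sigma, Finset.mem_powerset] at h1 ⊢
    have e : (C ∪ D) \ C = D := by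
      ext x
      simp only [Finset.mem_sdiff, Finset.mem_union]
      constructor
      · rintro ⟨h3 | h3, h4⟩
        · exact absurd h3 h4
        · exact h3
      · intro h3
        exact ⟨Or.inr h3, (Finset.mem_sdiff.1 (h1.2 h3)).2⟩
    rw [e]
  · rintro ⟨B, C⟩ h1
    simp only [Finset.mem_sigma, Finset.mem_powerset] at h1 ⊢
    have e : (A \ C) \ (B \ C) = A \ B := by
      ext x
      simp only [Finset.mem_sdiff]
      constructor
      · rintro ⟨⟨h3, h4⟩, h5⟩
        exact ⟨h3, fun h6 => h5 ⟨h6, h4⟩⟩
      · rintro ⟨h3, h4⟩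
        exact ⟨⟨h3, fun h5 => h4 (h1.2 h5)⟩, fun h5 => h4 h5.1⟩
    rw [e]
    ring

theorem one_mul' (f : SC S) : 1 * f = f := by
  funext A
  rw [mul_apply, Finset.sum_eq_single ∅]
  · rw [one_apply, if_pos rfl, one_mul, Finset.sdiff_empty]
  · intro B _ hB
    rw [one_apply, if_neg hB, zero_mul]
  · intro h
    exact absurd (Finset.empty_mem_powerset A) h

theorem left_distrib' (f g h : SC S) : f * (g + h) = f * g + f * h := by
  funext A
  rw [add_apply, mul_apply, mul_apply, mul_apply, ← Finset.sum_add_distrib]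
  refine Finset.sum_congr rfl fun B _ => ?_
  rw [add_apply]
  ring

instance : CommRing (SC S) :=
  { (inferInstance : AddCommGroup (SC S)) with
    mul := (· * ·)
    one := 1
    mul_assoc := mul_assoc'
    one_mul := one_mul'
    mul_one := fun f => by rw [mul_comm', one_mul']
    left_distrib := left_distrib'
    right_distrib := fun f g h => by
      rw [mul_comm', left_distrib', mul_comm' h, mul_comm' h]
    zero_mul := fun f => by
      funext A
      rw [mul_apply]
      exact Finset.sum_eq_zero fun B _ => by rw [zero_apply, zero_mul]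
    mul_zero := fun f => by
      funext A
      rw [mul_apply]
      exact Finset.sum_eq_zero fun B _ => by rw [zero_apply, mul_zero]
    mul_comm := mul_comm' }

theorem smul_mul' (c : ℝ) (f g : SC S) : c • f * g = c • (f * g) := by
  funext A
  rw [mul_apply, smul_apply, mul_apply, Finset.mul_sum]
  refine Finset.sum_congr rfl fun B _ => ?_
  rw [smul_apply]
  ring

instance : Algebra ℝ (SC S) :=
  Algebra.ofModule smul_mul' fun c f g => by
    rw [mul_comm, smul_mul', mul_comm]

/-! ### Order of vanishing -/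

/-- `f` vanishes on the sets with less than `k` elements -/
def Van (k : ℕ) (f : SC S) : Prop := ∀ A : Finset S, A.card < k → f A = 0

theorem Van.mul {j k : ℕ} {f g : SC S} (hf : Van j f) (hg : Van k g) : Van (j + k) (f * g) := by
  intro A hA
  rw [mul_apply]
  refine Finset.sum_eq_zero fun B hB => ?_
  have h1 := Finset.card_sdiff_add_card_eq_card (Finset.mem_powerset.1 hB)
  by_cases h2 : B.card < j
  · rw [hf B h2, zero_mul]
  · rw [hg (A \ B) (by omega), mul_zero]

omit [DecidableEq S] in
theorem Van.one {x : SC S} (hx : x ∅ = 0) : Van 1 x := by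
  intro A hA
  have : A = ∅ := Finset.card_eq_zero.1 (by omega)
  rw [this, hx]

theorem Van.pow {x : SC S} (hx : x ∅ = 0) (j : ℕ) : Van j (x ^ j) := by
  induction j with
  | zero => intro A hA; omega
  | succ j ih => rw [pow_succ]; exact ih.mul (Van.one hx)

theorem Van.eq_zero [Fintype S] {k : ℕ} {f : SC S} (hf : Van k f) (hk : Fintype.card S < k) :
    f = 0 := by
  funext A
  exact hf A ((Finset.card_le_univ A).trans_lt hk)

theorem mul_empty (f g : SC S) : (f * g) ∅ = f ∅ * g ∅ := by
  rw [mul_apply, Finset.powerset_empty, Finset.sum_singleton, Finset.sdiff_empty]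

/-! ### Euler derivations and restrictions -/

/-- Euler derivation -/
noncomputable def E (a : S) (f : SC S) : SC S := fun A => if a ∈ A then f A else 0

theorem E_apply (a : S) (f : SC S) (A : Finset S) : E a f A = if a ∈ A then f A else 0 := rfl

theorem E_mul (a : S) (f g : SC S) : E a (f * g) = E a f * g + f * E a g := by
  funext A
  rw [add_apply, mul_apply, mul_apply]
  unfold E
  rw [← Finset.sum_add_distrib]
  by_cases h : a ∈ A
  · rw [if_pos h, mul_apply]
    refine Finset.sum_congr rfl fun B hB => ?_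
    by_cases h1 : a ∈ B
    · rw [if_pos h1, if_neg fun h2 => (Finset.mem_sdiff.1 h2).2 h1]
      ring
    · rw [if_neg h1, if_pos (Finset.mem_sdiff.2 ⟨h, h1⟩)]
      ring
  · rw [if_neg h]
    symm
    refine Finset.sum_eq_zero fun B hB => ?_
    rw [if_neg fun h1 => h (Finset.mem_powerset.1 hB h1),
      if_neg fun h1 => h (Finset.mem_sdiff.1 h1).1]
    ring

theorem E_add (a : S) (f g : SC S) : E a (f + g) = E a f + E a g := by
  funext A
  rw [add_apply, E_apply, E_apply, E_apply, add_apply]
  by_cases h : a ∈ A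
  · rw [if_pos h, if_pos h, if_pos h]
  · rw [if_neg h, if_neg h, if_neg h, add_zero]

theorem E_smul (a : S) (c : ℝ) (f : SC S) : E a (c • f) = c • E a f := by
  funext A
  rw [smul_apply, E_apply, E_apply, smul_apply]
  by_cases h : a ∈ A
  · rw [if_pos h, if_pos h]
  · rw [if_neg h, if_neg h, mul_zero]

theorem E_one (a : S) : E a (1 : SC S) = 0 := by
  funext A
  unfold E
  split_ifs with h
  · rw [one_apply, if_neg (Finset.ne_empty_of_mem h), zero_apply]
  · rfl

theorem E_empty (a : S) (f : SC S) : E a f ∅ = 0 := by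
  unfold E
  rw [if_neg (Finset.notMem_empty a)]

theorem E_pow (a : S) (x : SC S) (j : ℕ) :
    E a (x ^ (j + 1)) = ((j : ℝ) + 1) • (x ^ j * E a x) := by
  induction j with
  | zero => simp
  | succ j ih =>
    rw [pow_succ, E_mul, ih, smul_mul']
    have e : x ^ j * E a x * x = x ^ (j + 1) * E a x := by ring
    rw [e]
    push_cast
    rw [add_smul ((j : ℝ) + 1), one_smul]

theorem E_sum {ι : Type} (a : S) (s : Finset ι) (f : ι → SC S) :
    E a (∑ i ∈ s, f i) = ∑ i ∈ s, E a (f i) := by
  classical
  induction s using Finset.induction_on with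
  | empty =>
    rw [Finset.sum_empty, Finset.sum_empty]
    funext A
    unfold E
    split_ifs <;> rfl
  | insert i s hi ih => rw [Finset.sum_insert hi, Finset.sum_insert hi, E_add, ih]

/-- restriction to the sets without `e` -/
noncomputable def rs (e : S) (f : SC S) : SC S := fun A => if e ∈ A then 0 else f A

theorem rs_apply (e : S) (f : SC S) (A : Finset S) : rs e f A = if e ∈ A then 0 else f A := rfl

theorem rs_mul (e : S) (f g : SC S) : rs e (f * g) = rs e f * rs e g := by
  funext A
  rw [mul_apply]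
  unfold rs
  by_cases h : e ∈ A
  · rw [if_pos h]
    symm
    refine Finset.sum_eq_zero fun B hB => ?_
    by_cases h1 : e ∈ B
    · rw [if_pos h1, zero_mul]
    · rw [if_pos (Finset.mem_sdiff.2 ⟨h, h1⟩), mul_zero]
  · rw [if_neg h, mul_apply]
    refine Finset.sum_congr rfl fun B hB => ?_
    rw [if_neg fun h1 => h (Finset.mem_powerset.1 hB h1),
      if_neg fun h1 => h (Finset.mem_sdiff.1 h1).1]

theorem rs_one (e : S) : rs e (1 : SC S) = 1 := by
  funext A
  unfold rs
  split_ifs with h
  · rw [one_apply, if_neg (Finset.ne_empty_of_mem h)]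
  · rfl

theorem rs_add (e : S) (f g : SC S) : rs e (f + g) = rs e f + rs e g := by
  funext A
  rw [add_apply, rs_apply, rs_apply, rs_apply, add_apply]
  by_cases h : e ∈ A
  · rw [if_pos h, if_pos h, if_pos h, add_zero]
  · rw [if_neg h, if_neg h, if_neg h]

theorem rs_smul (e : S) (c : ℝ) (f : SC S) : rs e (c • f) = c • rs e f := by
  funext A
  rw [smul_apply, rs_apply, rs_apply, smul_apply]
  by_cases h : e ∈ A
  · rw [if_pos h, if_pos h, mul_zero]
  · rw [if_neg h, if_neg h]

theorem rs_pow (e : S) (x : SC S) (j : ℕ) : rs e (x ^ j) = rs e x ^ j := by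
  induction j with
  | zero => rw [pow_zero, pow_zero, rs_one]
  | succ j ih => rw [pow_succ, pow_succ, rs_mul, ih]

theorem rs_sum {ι : Type} (e : S) (s : Finset ι) (f : ι → SC S) :
    rs e (∑ i ∈ s, f i) = ∑ i ∈ s, rs e (f i) := by
  classical
  induction s using Finset.induction_on with
  | empty =>
    rw [Finset.sum_empty, Finset.sum_empty]
    funext A
    unfold rs
    split_ifs <;> rfl
  | insert i s hi ih => rw [Finset.sum_insert hi, Finset.sum_insert hi, rs_add, ih]

/-! ### The logarithm -/

/-- the logarithm of `1 + x` -/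
noncomputable def lg [Fintype S] (x : SC S) : SC S :=
  ∑ j ∈ Finset.range (Fintype.card S), ((-1) ^ j / ((j : ℝ) + 1)) • x ^ (j + 1)

/-- `K` is the logarithm of `M` -/
def IsLog (K M : SC S) : Prop := K ∅ = 0 ∧ M ∅ = 1 ∧ ∀ a, E a M = M * E a K

theorem isLog_lg [Fintype S] {x : SC S} (hx : x ∅ = 0) : IsLog (lg x) (1 + x) := by
  refine ⟨?_, ?_, ?_⟩
  · unfold lg
    have h1 : ∀ s : Finset ℕ, (∑ j ∈ s, ((-1) ^ j / ((j : ℝ) + 1)) • x ^ (j + 1)) ∅ = 0 := by
      intro s
      induction s using Finset.induction_on with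
      | empty => rfl
      | insert j s hj ih =>
        rw [Finset.sum_insert hj, add_apply, ih, smul_apply, pow_succ, mul_empty, hx]
        ring
    exact h1 _
  · rw [add_apply, hx, one_apply, if_pos rfl, add_zero]
  · intro a
    unfold lg
    rw [E_sum, E_add, E_one, zero_add, Finset.mul_sum]
    have h1 : ∀ j ∈ Finset.range (Fintype.card S),
        (1 + x) * E a (((-1) ^ j / ((j : ℝ) + 1)) • x ^ (j + 1)) =
        ((-x) ^ j - (-x) ^ (j + 1)) * E a x := by
      intro j _
      rw [E_smul, E_pow, smul_smul]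
      have e1 : (-1) ^ j / ((j : ℝ) + 1) * ((j : ℝ) + 1) = (-1) ^ j := by
        have : (j : ℝ) + 1 ≠ 0 := by positivity
        field_simp
      rw [e1, mul_smul_comm]
      have e2 : (-x) ^ j = ((-1 : ℝ) ^ j) • x ^ j := by
        rw [neg_pow, Algebra.smul_def, map_pow, map_neg, map_one]
      rw [pow_succ (-x), e2, Algebra.smul_def, Algebra.smul_def]
      ring
    rw [Finset.sum_congr rfl h1, ← Finset.sum_mul, Finset.sum_range_sub', pow_zero, sub_mul,
      one_mul]
    have h2 : (-x) ^ Fintype.card S * E a x = 0 := by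
      have h3 : Van (Fintype.card S + 1) ((-x) ^ Fintype.card S * E a x) := by
        apply Van.mul (Van.pow _ _) (Van.one (E_empty a x))
        rw [neg_apply, hx, neg_zero]
      exact h3.eq_zero (Nat.lt_succ_self _)
    rw [h2, sub_zero]

theorem isUnit_of_empty [Fintype S] {M : SC S} (hM : M ∅ = 1) : IsUnit M := by
  have h1 : IsNilpotent (M - 1) := by
    refine ⟨Fintype.card S + 1, ?_⟩
    apply (Van.pow _ _).eq_zero (Nat.lt_succ_self _)
    rw [sub_apply, hM, one_apply, if_pos rfl, sub_self]
  have h2 := h1.isUnit_one_add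
  rwa [add_sub_cancel] at h2

theorem IsLog.unique [Fintype S] {K K' M : SC S} (h : IsLog K M) (h' : IsLog K' M) : K = K' := by
  funext A
  rcases A.eq_empty_or_nonempty with rfl | ⟨a, ha⟩
  · rw [h.1, h'.1]
  · have h1 : M * E a K = M * E a K' := by rw [← h.2.2 a, ← h'.2.2 a]
    have h2 : E a K = E a K' := (isUnit_of_empty h.2.1).mul_left_cancel h1
    have h3 := congrFun h2 A
    rw [E_apply, E_apply, if_pos ha, if_pos ha] at h3
    exact h3

theorem IsLog.add {K K' M M' : SC S} (h : IsLog K M) (h' : IsLog K' M') :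
    IsLog (K + K') (M * M') := by
  refine ⟨?_, ?_, ?_⟩
  · rw [add_apply, h.1, h'.1, add_zero]
  · rw [mul_empty, h.2.1, h'.2.1, one_mul]
  · intro a
    rw [E_mul, E_add, h.2.2 a, h'.2.2 a]
    ring

theorem E_rs (a e : S) (f : SC S) : E a (rs e f) = rs e (E a f) := by
  funext A
  rw [E_apply, rs_apply, rs_apply, E_apply]
  by_cases h1 : a ∈ A <;> by_cases h2 : e ∈ A <;> simp [h1, h2]

theorem IsLog.rs {K M : SC S} (h : IsLog K M) (e : S) : IsLog (rs e K) (rs e M) := by
  refine ⟨?_, ?_, ?_⟩
  · rw [rs_apply, if_neg (Finset.notMem_empty e), h.1]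
  · rw [rs_apply, if_neg (Finset.notMem_empty e), h.2.1]
  · intro a
    rw [E_rs, E_rs, h.2.2 a, rs_mul]

/-- the cumulants -/
noncomputable def cum [Fintype S] (M : SC S) : SC S := lg (M - 1)

theorem isLog_cum [Fintype S] {M : SC S} (hM : M ∅ = 1) : IsLog (cum M) M := by
  have h1 := isLog_lg (x := M - 1) (by rw [sub_apply, hM, one_apply, if_pos rfl, sub_self])
  rwa [add_sub_cancel] at h1

/-! ### First properties of the cumulants -/

theorem cum_empty [Fintype S] {M : SC S} (hM : M ∅ = 1) : cum M ∅ = 0 := (isLog_cum hM).1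

theorem sum_apply {ι : Type} (s : Finset ι) (f : ι → SC S) (A : Finset S) :
    (∑ i ∈ s, f i) A = ∑ i ∈ s, f i A := by
  classical
  induction s using Finset.induction_on with
  | empty => rfl
  | insert i s hi ih => rw [Finset.sum_insert hi, Finset.sum_insert hi, add_apply, ih]

theorem cum_apply [Fintype S] (M : SC S) (A : Finset S) : cum M A =
    ∑ j ∈ Finset.range (Fintype.card S), ((-1) ^ j / ((j : ℝ) + 1)) * ((M - 1) ^ (j + 1)) A := by
  unfold cum lg
  rw [sum_apply]
  rfl

/-- powers of functions which agree on the proper subsets -/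
theorem pow_agree {x y : SC S} (hx : x ∅ = 0) (hy : y ∅ = 0) {A : Finset S}
    (h : ∀ B, B ⊂ A → x B = y B) (j : ℕ) :
    (∀ B, B ⊂ A → (x ^ (j + 1)) B = (y ^ (j + 1)) B) ∧
      (1 ≤ j → (x ^ (j + 1)) A = (y ^ (j + 1)) A) := by
  induction j with
  | zero => exact ⟨fun B hB => by rw [zero_add, pow_one, pow_one]; exact h B hB, fun h => by omega⟩
  | succ j ih =>
    have e0 : ∀ B, B ⊆ A → (x ^ (j + 1 + 1)) B = (y ^ (j + 1 + 1)) B := by
      intro B hB
      rw [pow_succ' x, pow_succ' y, mul_apply, mul_apply]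
      refine Finset.sum_congr rfl fun C hC => ?_
      have hCB := Finset.mem_powerset.1 hC
      by_cases h1 : C = ∅
      · rw [h1, hx, hy, zero_mul, zero_mul]
      · by_cases h2 : C = A
        · have h3 : B \ C = ∅ := by
            rw [Finset.sdiff_eq_empty_iff_subset, h2]
            exact hB
          rw [h3, pow_succ, pow_succ, mul_empty, mul_empty, hx, hy]
          ring
        · have h3 : C ⊂ A := lt_of_le_of_ne (hCB.trans hB) h2
          have h4 : B \ C ⊂ A := by
            refine lt_of_le_of_ne (Finset.sdiff_subset.trans hB) ?_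
            intro h5
            obtain ⟨a, ha⟩ := Finset.nonempty_iff_ne_empty.2 h1
            have : a ∈ B \ C := by
              rw [h5]
              exact hB (hCB ha)
            exact (Finset.mem_sdiff.1 this).2 ha
          rw [h C h3, ih.1 _ h4]
    exact ⟨fun B hB => e0 B hB.1, fun _ => e0 A (Finset.Subset.refl A)⟩

/-- the top cumulant is the top moment plus a function of the lower ones -/
theorem cum_sub [Fintype S] {M M' : SC S} (hM : M ∅ = 1) (hM' : M' ∅ = 1) {A : Finset S}
    (hA : A.Nonempty) (h : ∀ B, B ⊂ A → M B = M' B) : cum M A - cum M' A = M A - M' A := by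
  have hx : (M - 1) ∅ = 0 := by rw [sub_apply, hM, one_apply, if_pos rfl, sub_self]
  have hy : (M' - 1) ∅ = 0 := by rw [sub_apply, hM', one_apply, if_pos rfl, sub_self]
  have hag : ∀ B, B ⊂ A → (M - 1) B = (M' - 1) B := by
    intro B hB
    rw [sub_apply, sub_apply, h B hB]
  have hcard : 0 < Fintype.card S := by
    obtain ⟨a, _⟩ := hA
    exact Fintype.card_pos_iff.2 ⟨a⟩
  obtain ⟨n, hn⟩ : ∃ n, Fintype.card S = n + 1 := ⟨Fintype.card S - 1, by omega⟩
  rw [cum_apply, cum_apply, hn, Finset.sum_range_succ', Finset.sum_range_succ']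
  have e1 : ∑ j ∈ Finset.range n, (-1) ^ (j + 1) / (((j + 1 : ℕ) : ℝ) + 1) *
      ((M - 1) ^ (j + 1 + 1)) A = ∑ j ∈ Finset.range n, (-1) ^ (j + 1) / (((j + 1 : ℕ) : ℝ) + 1) *
      ((M' - 1) ^ (j + 1 + 1)) A :=
    Finset.sum_congr rfl fun j _ => by rw [(pow_agree hx hy hag (j + 1)).2 (by omega)]
  rw [e1, zero_add, pow_one, pow_one, sub_apply, sub_apply]
  push_cast
  ring

theorem cum_one [Fintype S] (A : Finset S) : cum (1 : SC S) A = 0 := by
  rw [cum_apply]
  refine Finset.sum_eq_zero fun j _ => ?_
  rw [sub_self, zero_pow (Nat.succ_ne_zero j), zero_apply, mul_zero]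

theorem cum_eq_zero [Fintype S] {M : SC S} (hM : M ∅ = 1) {A : Finset S} (hA : A.Nonempty)
    (h : ∀ B, B ⊆ A → B.Nonempty → M B = 0) : cum M A = 0 := by
  have h1 := cum_sub hM (by rw [one_apply, if_pos rfl] : (1 : SC S) ∅ = 1) hA (fun B hB => by
    rcases B.eq_empty_or_nonempty with rfl | hne
    · rw [hM, one_apply, if_pos rfl]
    · rw [h B hB.1 hne, one_apply, if_neg hne.ne_empty])
  rw [cum_one, h A (Finset.Subset.refl A) hA, one_apply, if_neg hA.ne_empty] at h1
  linarith

theorem cum_single [Fintype S] {M : SC S} (hM : M ∅ = 1) (a : S) : cum M {a} = M {a} := by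
  have h1 := cum_sub hM (by rw [one_apply, if_pos rfl] : (1 : SC S) ∅ = 1)
    (Finset.singleton_nonempty a) (fun B hB => by
      have : B = ∅ := by
        rw [Finset.ssubset_singleton_iff] at hB
        exact hB
      rw [this, hM, one_apply, if_pos rfl])
  rw [cum_one, one_apply, if_neg (Finset.singleton_ne_empty a)] at h1
  linarith

/-- cumulants only depend on the moments of the subsets -/
theorem cum_congr [Fintype S] {M M' : SC S} (hM : M ∅ = 1) (hM' : M' ∅ = 1) {A : Finset S}
    (h : ∀ B, B ⊆ A → M B = M' B) : cum M A = cum M' A := by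
  rcases A.eq_empty_or_nonempty with rfl | hA
  · rw [cum_empty hM, cum_empty hM']
  · have h1 := cum_sub hM hM' hA (fun B hB => h B hB.1)
    rw [h A (Finset.Subset.refl A)] at h1
    linarith

/-! ### One more digit -/

/-- the star formula: the cumulants after one more digit -/
theorem cum_star [Fintype S] {M M' : SC S} (hM : M ∅ = 1) (hM' : M' ∅ = 1) {e : S} {s z : ℝ}
    (hz : z * (1 + s * M {e}) = s)
    (hst : ∀ A, e ∉ A → M' A * (1 + s * M {e}) = M A + s * M (insert e A))
    (h1 : 1 + s * M {e} ≠ 0) (A : Finset S) (hA : e ∉ A) :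
    cum M' A = cum M A + lg (fun B => if e ∈ B ∨ B = ∅ then 0 else z * cum M (insert e B)) A := by
  set K := cum M with hK
  have hlog : IsLog K M := isLog_cum hM
  set x : SC S := fun B => if e ∈ B ∨ B = ∅ then 0 else z * K (insert e B) with hx
  have hx0 : x ∅ = 0 := by
    show (if e ∈ (∅ : Finset S) ∨ (∅ : Finset S) = ∅ then 0 else z * K (insert e ∅)) = 0
    rw [if_pos (Or.inr rfl)]
  have hKe : K {e} = M {e} := cum_single hM e
  -- `M (insert e B)`
  have hins : ∀ B, e ∉ B → M (insert e B) = ∑ C ∈ B.powerset, M C * K (insert e (B \ C)) := by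
    intro B hB
    have h2 := congrFun (hlog.2.2 e) (insert e B)
    rw [E_apply, if_pos (Finset.mem_insert_self e B), mul_apply,
      Finset.sum_powerset_insert hB] at h2
    have h3 : ∑ C ∈ B.powerset, M (insert e C) * E e K (insert e B \ insert e C) = 0 := by
      refine Finset.sum_eq_zero fun C _ => ?_
      rw [E_apply, if_neg, mul_zero]
      intro h4
      exact (Finset.mem_sdiff.1 h4).2 (Finset.mem_insert_self e C)
    rw [h3, add_zero] at h2
    rw [h2]
    refine Finset.sum_congr rfl fun C hC => ?_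
    have hC' : e ∉ C := fun h4 => hB (Finset.mem_powerset.1 hC h4)
    have e1 : insert e B \ C = insert e (B \ C) := Finset.insert_sdiff_of_notMem B hC'
    rw [E_apply, e1, if_pos (Finset.mem_insert_self e _)]
  -- the product
  have hprod : rs e M' = rs e M * (1 + x) := by
    funext B
    rw [mul_add, mul_one, add_apply, mul_apply, rs_apply, rs_apply]
    by_cases hB : e ∈ B
    · rw [if_pos hB, if_pos hB, zero_add]
      symm
      refine Finset.sum_eq_zero fun C hC => ?_
      by_cases h4 : e ∈ C
      · rw [rs_apply, if_pos h4, zero_mul]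
      · have : x (B \ C) = 0 := by
          show (if e ∈ B \ C ∨ B \ C = ∅ then 0 else z * K (insert e (B \ C))) = 0
          rw [if_pos (Or.inl (Finset.mem_sdiff.2 ⟨hB, h4⟩))]
        rw [this, mul_zero]
    · rw [if_neg hB, if_neg hB]
      have h5 : ∑ C ∈ B.powerset, rs e M C * x (B \ C) =
          z * (M (insert e B) - M B * M {e}) := by
        rw [hins B hB]
        have h6 : B ∈ B.powerset := Finset.mem_powerset.2 (Finset.Subset.refl B)
        rw [← Finset.sum_erase_add _ _ h6, ← Finset.sum_erase_add _ _ h6]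
        have e2 : rs e M B * x (B \ B) = 0 := by
          rw [Finset.sdiff_self]
          have : x (∅ : Finset S) = 0 := hx0
          rw [this, mul_zero]
        have e3 : M B * K (insert e (B \ B)) = M B * M {e} := by
          rw [Finset.sdiff_self, show insert e (∅ : Finset S) = {e} from rfl, hKe]
        rw [e2, e3, add_zero, add_sub_cancel_right, Finset.mul_sum]
        refine Finset.sum_congr rfl fun C hC => ?_
        rw [Finset.mem_erase, Finset.mem_powerset] at hC
        have h7 : e ∉ C := fun h => hB (hC.2 h)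
        have h8 : e ∉ B \ C := fun h => hB (Finset.mem_sdiff.1 h).1
        have h9 : B \ C ≠ ∅ := by
          intro h
          rw [Finset.sdiff_eq_empty_iff_subset] at h
          exact hC.1 (Finset.Subset.antisymm hC.2 h)
        have e4 : x (B \ C) = z * K (insert e (B \ C)) := by
          show (if e ∈ B \ C ∨ B \ C = ∅ then 0 else z * K (insert e (B \ C))) = _
          rw [if_neg (fun h => h.elim h8 h9)]
        rw [rs_apply, if_neg h7, e4]
        ring
      rw [h5]
      have h6 := hst B hB
      have h7 : (M' B) * (1 + s * M {e}) =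
          (M B + z * (M (insert e B) - M B * M {e})) * (1 + s * M {e}) := by
        rw [h6]
        linear_combination (-(M (insert e B) - M B * M {e})) * hz
      exact mul_right_cancel₀ h1 h7
  have hl1 : IsLog (rs e (cum M')) (rs e M') := (isLog_cum hM').rs e
  have hl2 : IsLog (rs e K + lg x) (rs e M * (1 + x)) := (hlog.rs e).add (isLog_lg hx0)
  rw [hprod] at hl1
  have h2 := congrFun (hl1.unique hl2) A
  rw [add_apply, rs_apply, rs_apply, if_neg hA, if_neg hA] at h2
  exact h2

/-- the logarithm in terms of the inverse -/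
theorem lg_eq [Fintype S] {x R : SC S} (hx : x ∅ = 0) (hR : R * (1 + x) = 1) {a : S}
    {B : Finset S} (ha : a ∈ B) :
    lg x B = ∑ C ∈ B.powerset.filter (fun C => a ∈ C), x C * R (B \ C) := by
  have h1 := (isLog_lg hx).2.2 a
  rw [E_add, E_one, zero_add] at h1
  have h2 : E a (lg x) = E a x * R := by
    calc E a (lg x) = (R * (1 + x)) * E a (lg x) := by rw [hR, one_mul]
      _ = R * ((1 + x) * E a (lg x)) := by ring
      _ = E a x * R := by rw [← h1]; ring
  have h3 := congrFun h2 B
  rw [E_apply, if_pos ha, mul_apply] at h3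
  rw [h3, Finset.sum_filter]
  refine Finset.sum_congr rfl fun C _ => ?_
  rw [E_apply]
  by_cases h : a ∈ C
  · rw [if_pos h, if_pos h]
  · rw [if_neg h, if_neg h, zero_mul]

end SC

end Pool.Agent.SHX
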