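import Pool.Agent.Lib.MP_a7b2aa_an.SHX.Stmts74

/-! SHX DBID (helper74): the mixed difference of the bias. -/

set_option autoImplicit false

namespace Pool.Agent.SHX

open Finset Pool.Agent.SB3 Pool.Agent.SBT Pool.Agent.SBD Pool.Agent.SHD

theorem f11 (c : Fin 3) : c + 1 + 1 = c + 2 := by fin_cases c <;> rfl
theorem f12 (c : Fin 3) : c + 1 + 2 = c := by fin_cases c <;> rfl
theorem f21 (c : Fin 3) : c + 2 + 1 = c := by fin_cases c <;> rfl
theorem f22 (c : Fin 3) : c + 2 + 2 = c + 1 := by fin_cases c <;> rfl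
theorem n01 (c : Fin 3) : c ≠ c + 1 := by fin_cases c <;> decide
theorem n02 (c : Fin 3) : c ≠ c + 2 := by fin_cases c <;> decide
theorem n12 (c : Fin 3) : c + 1 ≠ c + 2 := by fin_cases c <;> decide
theorem n10 (c : Fin 3) : c + 1 ≠ c := (n01 c).symm
theorem n20 (c : Fin 3) : c + 2 ≠ c := (n02 c).symm
theorem n21 (c : Fin 3) : c + 2 ≠ c + 1 := (n12 c).symm

/-- every string is `c`, `c + 1` or `c + 2` -/
theorem f3c (c e : Fin 3) : e = c ∨ e = c + 1 ∨ e = c + 2 := by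
  fin_cases c <;> fin_cases e <;> simp

theorem up_same (h : Fin 3 → ℕ) (c : Fin 3) : up h c c = h c + 1 := by
  simp [up]

theorem up_ne (h : Fin 3 → ℕ) {c e : Fin 3} (he : e ≠ c) : up h c e = h e := by
  simp [up, he]

theorem up_le {h H : Fin 3 → ℕ} {c : Fin 3} (hh : h ≤ H) (hc : h c < H c) : up h c ≤ H := by
  intro e
  by_cases he : e = c
  · subst he; rw [up_same]; exact hc
  · rw [up_ne h he]; exact hh e

/-- one plus sign times bias does not vanish -/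
theorem one_add_ne {z b : ℝ} (hz : z * z = 1) (hb : |b| ≤ 1 / 2) : 1 + z * b ≠ 0 := by
  have hz' : |z| = 1 := by
    have h1 : |z| * |z| = 1 := by rw [← abs_mul, hz, abs_one]
    nlinarith [abs_nonneg z]
  have h2 : |z * b| ≤ 1 / 2 := by rw [abs_mul, hz', one_mul]; exact hb
  have h3 := neg_abs_le (z * b)
  intro h4
  linarith

theorem dbid_alg (z1 z2 b1 b2 k : ℝ) (h1 : z1 * z1 = 1) (h2 : z2 * z2 = 1)
    (d1 : 1 + z1 * b1 ≠ 0) (d2 : 1 + z2 * b2 ≠ 0)
    (d12 : 1 + z2 * (b2 + k * (z1 / (1 + z1 * b1))) ≠ 0)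
    (d21 : 1 + z1 * (b1 + k * (z2 / (1 + z2 * b2))) ≠ 0) :
    z2 / (1 + z2 * (b2 + k * (z1 / (1 + z1 * b1)))) - z2 / (1 + z2 * b2) =
      - (k * (z2 / (1 + z2 * b2)) ^ 2 * (z1 / (1 + z1 * (b1 + k * (z2 / (1 + z2 * b2)))))) := by
  have e12 : 1 + z2 * (b2 + k * (z1 / (1 + z1 * b1))) =
      ((1 + z1 * b1) * (1 + z2 * b2) + k * z1 * z2) / (1 + z1 * b1) := by
    field_simp
    ring
  have e21 : 1 + z1 * (b1 + k * (z2 / (1 + z2 * b2))) =
      ((1 + z1 * b1) * (1 + z2 * b2) + k * z1 * z2) / (1 + z2 * b2) := by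
    field_simp
    ring
  have dE : (1 + z1 * b1) * (1 + z2 * b2) + k * z1 * z2 ≠ 0 := by
    intro h0
    rw [e12, h0, zero_div] at d12
    exact d12 rfl
  rw [e12, e21]
  set D1 := 1 + z1 * b1
  set D2 := 1 + z2 * b2
  have h2' : z2 ^ 2 = 1 := by rw [sq]; exact h2
  have : z2 / ((D1 * D2 + k * z1 * z2) / D1) = z2 * D1 / (D1 * D2 + k * z1 * z2) := by
    field_simp
  rw [this]
  have : z1 / ((D1 * D2 + k * z1 * z2) / D2) = z1 * D2 / (D1 * D2 + k * z1 * z2) := by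
    field_simp
  rw [this, div_pow, h2']
  obtain ⟨E, hE⟩ : ∃ E, E = D1 * D2 + k * z1 * z2 := ⟨_, rfl⟩
  rw [← hE] at dE ⊢
  have g1 : z2 * D1 / E - z2 / D2 = z2 * (D1 * D2 - E) / (E * D2) := by
    field_simp
  have g2 : z2 * (D1 * D2 - E) = - (k * z1) := by
    rw [hE]
    linear_combination (- k * z1) * h2'
  rw [g1, g2]
  field_simp

/-- DBID -/
theorem dbid_74 : StDbid := by
  intro lam z u be ka H ps c h hh
  obtain ⟨hH, h1, h2⟩ := hh
  have hu1 : up h (c + 1) ≤ H := up_le hH h1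
  have hu2 : up h (c + 2) ≤ H := up_le hH h2
  have a1 := ps.rb2 c (up h (c + 1)) hu1 (by rw [up_ne h (n21 c)]; exact h2)
  have a2 := ps.rb2 c h hH h2
  have a3 := ps.rk (c + 1) h
  rw [f11, f12] at a3
  have a4 := ps.rb2 (c + 2) h hH (by rw [f22]; exact h1)
  rw [f22, f21] at a4
  have a5 := ps.rb1 (c + 1) h hH (by rw [f11]; exact h2)
  rw [f11, f12] at a5
  have b1 := ps.bd (c + 1) h hH h1
  have b2 := ps.bd (c + 2) h hH h2
  have b12 := ps.bd (c + 2) (up h (c + 1)) hu1 (by rw [up_ne h (n21 c)]; exact h2)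
  have b21 := ps.bd (c + 1) (up h (c + 2)) hu2 (by rw [up_ne h (n12 c)]; exact h1)
  have s1 := ps.sq (c + 1) (h (c + 1))
  have s2 := ps.sq (c + 2) (h (c + 2))
  have z1 : zt z be (c + 1) h = z (c + 1) (h (c + 1)) / (1 + z (c + 1) (h (c + 1)) * be (c + 1) h) :=
    rfl
  have z2 : zt z be (c + 2) h = z (c + 2) (h (c + 2)) / (1 + z (c + 2) (h (c + 2)) * be (c + 2) h) :=
    rfl
  have z12 : zt z be (c + 2) (up h (c + 1)) = z (c + 2) (h (c + 2)) /
      (1 + z (c + 2) (h (c + 2)) * be (c + 2) (up h (c + 1))) := by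
    unfold zt; rw [up_ne h (n21 c)]
  have z21 : zt z be (c + 1) (up h (c + 2)) = z (c + 1) (h (c + 1)) /
      (1 + z (c + 1) (h (c + 1)) * be (c + 1) (up h (c + 2))) := by
    unfold zt; rw [up_ne h (n12 c)]
  have key := dbid_alg (z (c + 1) (h (c + 1))) (z (c + 2) (h (c + 2))) (be (c + 1) h) (be (c + 2) h)
    (ka c h) s1 s2 (one_add_ne s1 b1) (one_add_ne s2 b2)
    (by rw [← z1, ← a4]; exact one_add_ne s2 b12)
    (by rw [← z2, ← a5]; exact one_add_ne s1 b21)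
  rw [← z1, ← z2, ← a4, ← a5, ← z12, ← z21] at key
  unfold DB
  have e1 : be c (up (up h (c + 1)) (c + 2)) - be c (up h (c + 1)) - be c (up h (c + 2)) + be c h =
      ka (c + 1) (up h (c + 1)) * zt z be (c + 2) (up h (c + 1)) -
        ka (c + 1) h * zt z be (c + 2) h := by
    rw [a1, a2]; ring
  rw [e1, a3]
  have e2 : zt z be (c + 2) (up h (c + 1)) = zt z be (c + 2) h -
    ka c h * zt z be (c + 2) h ^ 2 * zt z be (c + 1) (up h (c + 2)) := by linarith
  have e3 : ka (c + 1) h * (zt z be (c + 2) (up h (c + 1)) - zt z be (c + 2) h) =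
    - (ka (c + 1) h * (ka c h * zt z be (c + 2) h ^ 2 * zt z be (c + 1) (up h (c + 2)))) := by
    rw [key]; ring
  linear_combination e3

end Pool.Agent.SHX
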