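import Pool.Agent.Lib.MP_a7b2aa_an.SHX.StmtsEnd30
import Pool.Agent.Lib.MP_a7b2aa_an.SHD.HaarG33
import Pool.Agent.Lib.MP_a7b2aa_an.SHD.NumK74
import Pool.Agent.Lib.MP_a7b2aa_an.SHD.FinalL74

/-!
MP_a7b2aa_an, beyond the gain `1 / 4` (helper30): the end game. From LAWX to BANDX, to the digits
theorem for all arrays and to the torus, every exponent `p`.
-/

set_option autoImplicit false

namespace Pool.Agent.SHX

open Finset Pool.Agent.SB3 Pool.Agent.SBT Pool.Agent.SBD Pool.Agent.SHD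

namespace EndX30

variable {m L : ℕ}

theorem sgn_mul (v : (Fin (m + 1) → ℕ) → Pt m L → ℝ) (q : Fin (m + 1) → ℕ) (ω : Pt m L) :
    v q ω * sgn v q ω = |v q ω| := by
  unfold sgn
  split_ifs with h1 h2
  · rw [mul_one, abs_of_pos h1]
  · rw [abs_of_neg h2]
    ring
  · have : v q ω = 0 := le_antisymm (not_lt.1 h1) (not_lt.1 h2)
    rw [this]
    simp

theorem sgn_arF {N R : ℕ} {v : (Fin (m + 1) → ℕ) → Pt m L → ℝ} (hv : ArF N R v) :
    ArF N R (sgn v) := by
  refine ⟨fun q ω => ?_, fun q ω ω' h => ?_, fun q ω h => ?_⟩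
  · unfold sgn
    split_ifs <;> simp
  · unfold sgn
    rw [hv.dep q ω ω' h]
  · unfold sgn
    rw [hv.bd q ω h]
    simp

end EndX30

open EndX30

/-- module BANDX: from the law to band arrays -/
theorem bandx_30 (m : ℕ) (p : ℝ) (hp : 0 ≤ p) (hLaw : StLawX m p) : StBandX m p := by
  intro K hK
  obtain ⟨C, hC, h⟩ := hLaw (m + 1) K hK
  have hC0 : 0 ≤ C := by linarith
  refine ⟨C ^ (m + 1) + C * (2 + C), by positivity, ?_⟩
  intro L N R v hL hR hv hH
  have hLr : (1 : ℝ) ≤ L := by exact_mod_cast hL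
  have hLp : 1 ≤ (L : ℝ) ^ p := Real.one_le_rpow hLr hp
  have hLp0 : 0 ≤ (L : ℝ) ^ p := by linarith
  have hcard : ((All m L).card : ℝ) = (L : ℝ) ^ (m + 1) := by
    rw [card_All33]
    push_cast
    ring
  by_cases hCL : C ≤ (L : ℝ)
  · obtain ⟨ρ, hρ0, hρ1, hq⟩ := h L N R (sgn v) hCL hR (sgn_arF hv)
    have hsum : ∑ q ∈ All m L, Av (fun ω => |v q ω|) ≤
        ∑ q ∈ All m L, C * (L : ℝ) ^ p * (Ex ρ (fun ω => ps Finset.univ q ω * v q ω) +
          C / (L + 1) ^ (m + 1)) := by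
      refine sum_le_sum fun q hqA => ?_
      by_cases hb : dst (∑ a, q a) N ≤ R
      · exact hq q hqA hb (v q) (hv.dep q) (hv.abs q) (sgn_mul v q)
      · have h0 : ∀ ω, v q ω = 0 := fun ω => hv.bd q ω (not_le.1 hb)
        have e1 : (fun ω => |v q ω|) = fun _ : Pt m L => (0 : ℝ) := by
          funext ω
          rw [h0, abs_zero]
        have e2 : (fun ω => ps Finset.univ q ω * v q ω) = fun _ : Pt m L => (0 : ℝ) := by
          funext ω
          rw [h0, mul_zero]
        have e3 : Ex ρ (fun _ : Pt m L => (0 : ℝ)) = 0 := by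
          unfold Ex
          simp only [mul_zero]
          exact SBD.Av_const 0
        rw [e1, e2, SBD.Av_const, e3]
        positivity
    have hmean : ∑ q ∈ All m L, Ex ρ (fun ω => ps Finset.univ q ω * v q ω) ≤ 2 := by
      have e1 : Ex ρ (HH v) = ∑ q ∈ All m L, Ex ρ (fun ω => ps Finset.univ q ω * v q ω) := by
        have e2 : HH v = fun ω => ∑ q ∈ All m L, ps Finset.univ q ω * v q ω := by
          funext ω
          exact HH_eq33 v ω
        rw [e2, SBD.Ex_sum]
      rw [← e1]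
      have h2 : Ex ρ (HH v) ≤ Av (fun ω => 2 * ρ ω) := by
        unfold Ex
        refine SBD.Av_mono fun ω => ?_
        have := (abs_le.1 (hH ω)).2
        nlinarith [hρ0 ω]
      have h3 : Av (fun ω => 2 * ρ ω) = 2 * Av ρ := by
        unfold Av
        rw [← mul_sum, mul_div_assoc]
      rw [h3, hρ1] at h2
      linarith
    have hrest : ∑ _q ∈ All m L, C / ((L : ℝ) + 1) ^ (m + 1) ≤ C := by
      rw [sum_const, nsmul_eq_mul, hcard, mul_div_assoc', div_le_iff₀ (by positivity), mul_comm C]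
      exact mul_le_mul_of_nonneg_right (pow_le_pow_left₀ (by linarith) (by linarith) _) hC0
    calc ∑ q ∈ All m L, Av (fun ω => |v q ω|)
        ≤ ∑ q ∈ All m L, C * (L : ℝ) ^ p * (Ex ρ (fun ω => ps Finset.univ q ω * v q ω) +
          C / (L + 1) ^ (m + 1)) := hsum
      _ = C * (L : ℝ) ^ p * (∑ q ∈ All m L, Ex ρ (fun ω => ps Finset.univ q ω * v q ω) +
          ∑ _q ∈ All m L, C / ((L : ℝ) + 1) ^ (m + 1)) := by
          rw [← mul_sum, sum_add_distrib]
      _ ≤ C * (L : ℝ) ^ p * (2 + C) := by gcongr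
      _ = C * (2 + C) * (L : ℝ) ^ p := by ring
      _ ≤ (C ^ (m + 1) + C * (2 + C)) * (L : ℝ) ^ p := by
          have : 0 ≤ C ^ (m + 1) := by positivity
          nlinarith
  · have hCL' : (L : ℝ) ≤ C := (not_le.1 hCL).le
    have h1 : ∑ q ∈ All m L, Av (fun ω => |v q ω|) ≤ ∑ _q ∈ All m L, (1 : ℝ) := by
      refine sum_le_sum fun q _ => ?_
      have : Av (fun ω => |v q ω|) ≤ Av (fun _ : Pt m L => (1 : ℝ)) :=
        SBD.Av_mono fun ω => hv.abs q ω
      rwa [SBD.Av_const] at this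
    rw [sum_const, nsmul_eq_mul, hcard, mul_one] at h1
    have h2 : (L : ℝ) ^ (m + 1) ≤ C ^ (m + 1) := pow_le_pow_left₀ (by linarith) hCL' _
    have h3 : 0 ≤ C ^ (m + 1) := by positivity
    have h4 : 0 ≤ C * (2 + C) := by positivity
    nlinarith

/-- module ENDX: from band arrays to all arrays -/
theorem endx_30 (m : ℕ) (p : ℝ) (hp0 : 0 ≤ p) (hB : StBandX m p) : StEndL m p := by
  have hl : 0 < Real.log (4 / 3) := Real.log_pos (by norm_num)
  obtain ⟨C, hC, hB⟩ := hB (((m : ℝ) + 1) / Real.log (4 / 3)) (by positivity)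
  refine ⟨C + 1, by linarith, ?_⟩
  intro L N v hL hv hH
  have hLp : 1 ≤ (L : ℝ) ^ p := Real.one_le_rpow (by exact_mod_cast hL) hp0
  set x : ℝ := ((m : ℝ) + 1) / Real.log (4 / 3) * Real.log (L + 1) with hx
  have hx0 : 0 ≤ x := by
    have : 0 ≤ Real.log ((L : ℝ) + 1) := Real.log_nonneg (by
      have : (0 : ℝ) ≤ L := Nat.cast_nonneg _
      linarith)
    positivity
  set R : ℕ := ⌈x⌉₊ with hR
  have hR1 : x ≤ R := Nat.le_ceil x
  have hR2 : (R : ℝ) ≤ x + 1 := (Nat.ceil_lt_add_one hx0).le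
  have htail := tail33 (m := m) (L := L) (N := N) (R := R) hR1
  set v' : (Fin (m + 1) → ℕ) → Pt m L → ℝ := fun q ω =>
    if dst (∑ a, q a) N ≤ R then v q ω else 0 with hv'
  have hkap : ∀ q : Fin (m + 1) → ℕ, kap N q ≤ 1 := fun q => by
    unfold kap
    exact pow_le_one₀ (by norm_num) (by norm_num)
  have hF : ArF N R v' := by
    refine ⟨fun q ω => ?_, fun q => ?_, fun q ω h => ?_⟩
    · rw [hv']
      dsimp only
      split_ifs
      · exact (hv.abs q ω).trans (hkap q)
      · rw [abs_zero]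
        exact zero_le_one
    · rw [hv']
      by_cases h : dst (∑ a, q a) N ≤ R
      · simp only [h, if_true]
        exact hv.dep q
      · simp only [h, if_false]
        exact Ms.cst q 0
    · rw [hv']
      dsimp only
      rw [if_neg (by omega)]
  have hdiff : ∀ ω, |HH v' ω| ≤ 2 := by
    intro ω
    have e : HH v ω - HH v' ω = ∑ q ∈ All m L, ps Finset.univ q ω *
        (if dst (∑ a, q a) N ≤ R then 0 else v q ω) := by
      rw [HH_eq33, HH_eq33, ← sum_sub_distrib]
      refine sum_congr rfl fun q _ => ?_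
      rw [hv']
      dsimp only
      split_ifs
      · ring
      · ring
    have h1 : |HH v ω - HH v' ω| ≤ 1 := by
      rw [e]
      refine (abs_sum_le_sum_abs _ _).trans (le_trans (sum_le_sum fun q _ => ?_) htail)
      rw [abs_mul, ps_abs, one_mul]
      split_ifs
      · rw [abs_zero]
      · exact hv.abs q ω
    have h2 := abs_sub_abs_le_abs_sub (HH v' ω) (HH v ω)
    rw [abs_sub_comm] at h2
    linarith [hH ω]
  have hm2 : ∑ q ∈ All m L, Av (fun ω => |v q ω|) ≤ ∑ q ∈ All m L, Av (fun ω => |v' q ω|) +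
      ∑ q ∈ All m L, (if dst (∑ a, q a) N ≤ R then 0 else kap N q) := by
    rw [← sum_add_distrib]
    refine sum_le_sum fun q _ => ?_
    rw [hv']
    dsimp only
    split_ifs
    · linarith
    · have h2 : Av (fun ω => |v q ω|) ≤ kap N q := by
        have h3 : Av (fun ω => |v q ω|) ≤ Av (fun _ : Pt m L => kap N q) :=
          SBD.Av_mono fun ω => hv.abs q ω
        rwa [SBD.Av_const] at h3
      have h3 : 0 ≤ Av (fun _ : Pt m L => |(0 : ℝ)|) := by
        rw [SBD.Av_const]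
        norm_num
      linarith
  have hfin := hB L N R v' hL hR2 hF hdiff
  calc ∑ q ∈ All m L, Av (fun ω => |v q ω|) ≤ C * (L : ℝ) ^ p + 1 := by linarith
    _ ≤ C * (L : ℝ) ^ p + (L : ℝ) ^ p := by linarith
    _ = (C + 1) * (L : ℝ) ^ p := by ring

/-- from band arrays to the torus -/
theorem finx_30 (m : ℕ) (hm : 1 ≤ m) (p : ℝ) (hp : ((m : ℝ) - 1) / 2 ≤ p) (hB : StBandX m p) :
    StFinL m p := by
  have hp0 : 0 ≤ p := by
    have : (1 : ℝ) ≤ m := by exact_mod_cast hm
    linarith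
  exact torus_74 numk_74 m hm p hp (endx_30 m p hp0 hB)

/-- from the law to the torus -/
theorem fint_30 (m : ℕ) (hm : 1 ≤ m) (p : ℝ) (hp : ((m : ℝ) - 1) / 2 ≤ p) (hLaw : StLawX m p) :
    StFinL m p := by
  have hp0 : 0 ≤ p := by
    have : (1 : ℝ) ≤ m := by exact_mod_cast hm
    linarith
  exact finx_30 m hm p hp (bandx_30 m p hp0 hLaw)

end Pool.Agent.SHX
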