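import Pool.Agent.Lib.MP_a7b2aa_an.SHX.LawF30
import Pool.Agent.Lib.MP_a7b2aa_an.SHX.EndX30

/-!
SHX (helper30): the end game with the factor `L ^ p (log (L + 1) + 1) ^ E`: from LAWF to BANDF and
to the digits theorem for all arrays.
-/

set_option autoImplicit false

namespace Pool.Agent.SHX

open Finset Pool.Agent.SB3 Pool.Agent.SBT Pool.Agent.SBD Pool.Agent.SHD

open EndX30

/-- module BANDF: from the law to band arrays -/
theorem bandf_30 (m : ℕ) (p : ℝ) (E : ℕ) (hp : 0 ≤ p) (hLaw : StLawF m p E) : StBandF m p E := by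
  intro K hK
  obtain ⟨C, hC, h⟩ := hLaw (m + 1) K hK
  have hC0 : 0 ≤ C := by linarith
  refine ⟨C ^ (m + 1) + C * (2 + C), by positivity, ?_⟩
  intro L N R v hL hR hv hH
  have hLr : (1 : ℝ) ≤ L := by exact_mod_cast hL
  have hLp : 1 ≤ lf p E L := lf_one hp hL
  have hLp0 : 0 ≤ lf p E L := by linarith
  have hcard : ((All m L).card : ℝ) = (L : ℝ) ^ (m + 1) := by
    rw [card_All33]
    push_cast
    ring
  by_cases hCL : C ≤ (L : ℝ)
  · obtain ⟨ρ, hρ0, hρ1, hq⟩ := h L N R (sgn v) hCL hR (sgn_arF hv)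
    have hsum : ∑ q ∈ All m L, Av (fun ω => |v q ω|) ≤
        ∑ q ∈ All m L, C * lf p E L * (Ex ρ (fun ω => ps Finset.univ q ω * v q ω) +
          C / (L + 1) ^ (m + 1)) := by
      refine sum_le_sum fun q hqA => ?_
      by_cases hb : dst (∑ a, q a) N ≤ R
      · exact hq q hqA hb (v q) (hv.dep q) (hv.abs q) (sgn_mul v q)
      · have h0 : ∀ ω, v q ω = 0 := fun ω => hv.bd q ω (not_le.1 hb)
        have e1 : (fun ω => |v q ω|) = fun _ : Pt m L => (0 : ℝ) := by
          funext ω
          rw [h0, abs_zero]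
        have e2 : (fun ω => ps Finset.univ q ω * v q ω) = fun _ : Pt m L => (0 : ℝ) := by
          funext ω
          rw [h0, mul_zero]
        have e3 : Ex ρ (fun _ : Pt m L => (0 : ℝ)) = 0 := by
          unfold Ex
          simp only [mul_zero]
          exact SBD.Av_const 0
        rw [e1, e2, SBD.Av_const, e3]
        positivity
    have hmean : ∑ q ∈ All m L, Ex ρ (fun ω => ps Finset.univ q ω * v q ω) ≤ 2 := by
      have e1 : Ex ρ (HH v) = ∑ q ∈ All m L, Ex ρ (fun ω => ps Finset.univ q ω * v q ω) := by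
        have e2 : HH v = fun ω => ∑ q ∈ All m L, ps Finset.univ q ω * v q ω := by
          funext ω
          exact HH_eq33 v ω
        rw [e2, SBD.Ex_sum]
      rw [← e1]
      have h2 : Ex ρ (HH v) ≤ Av (fun ω => 2 * ρ ω) := by
        unfold Ex
        refine SBD.Av_mono fun ω => ?_
        have := (abs_le.1 (hH ω)).2
        nlinarith [hρ0 ω]
      have h3 : Av (fun ω => 2 * ρ ω) = 2 * Av ρ := by
        unfold Av
        rw [← mul_sum, mul_div_assoc]
      rw [h3, hρ1] at h2
      linarith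
    have hrest : ∑ _q ∈ All m L, C / ((L : ℝ) + 1) ^ (m + 1) ≤ C := by
      rw [sum_const, nsmul_eq_mul, hcard, mul_div_assoc', div_le_iff₀ (by positivity), mul_comm C]
      exact mul_le_mul_of_nonneg_right (pow_le_pow_left₀ (by linarith) (by linarith) _) hC0
    calc ∑ q ∈ All m L, Av (fun ω => |v q ω|)
        ≤ ∑ q ∈ All m L, C * lf p E L * (Ex ρ (fun ω => ps Finset.univ q ω * v q ω) +
          C / (L + 1) ^ (m + 1)) := hsum
      _ = C * lf p E L * (∑ q ∈ All m L, Ex ρ (fun ω => ps Finset.univ q ω * v q ω) +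
          ∑ _q ∈ All m L, C / ((L : ℝ) + 1) ^ (m + 1)) := by
          rw [← mul_sum, sum_add_distrib]
      _ ≤ C * lf p E L * (2 + C) := by gcongr
      _ = C * (2 + C) * lf p E L := by ring
      _ ≤ (C ^ (m + 1) + C * (2 + C)) * lf p E L := by
          have : 0 ≤ C ^ (m + 1) := by positivity
          nlinarith
  · have hCL' : (L : ℝ) ≤ C := (not_le.1 hCL).le
    have h1 : ∑ q ∈ All m L, Av (fun ω => |v q ω|) ≤ ∑ _q ∈ All m L, (1 : ℝ) := by
      refine sum_le_sum fun q _ => ?_
      have : Av (fun ω => |v q ω|) ≤ Av (fun _ : Pt m L => (1 : ℝ)) :=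
        SBD.Av_mono fun ω => hv.abs q ω
      rwa [SBD.Av_const] at this
    rw [sum_const, nsmul_eq_mul, hcard, mul_one] at h1
    have h2 : (L : ℝ) ^ (m + 1) ≤ C ^ (m + 1) := pow_le_pow_left₀ (by linarith) hCL' _
    have h3 : 0 ≤ C ^ (m + 1) := by positivity
    have h4 : 0 ≤ C * (2 + C) := by positivity
    nlinarith

/-- module ENDF: from band arrays to all arrays -/
theorem endf_30 (m : ℕ) (p : ℝ) (E : ℕ) (hp0 : 0 ≤ p) (hB : StBandF m p E) : StEndF m p E := by
  have hl : 0 < Real.log (4 / 3) := Real.log_pos (by norm_num)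
  obtain ⟨C, hC, hB⟩ := hB (((m : ℝ) + 1) / Real.log (4 / 3)) (by positivity)
  refine ⟨C + 1, by linarith, ?_⟩
  intro L N v hL hv hH
  have hLp : 1 ≤ lf p E L := lf_one hp0 hL
  set x : ℝ := ((m : ℝ) + 1) / Real.log (4 / 3) * Real.log (L + 1) with hx
  have hx0 : 0 ≤ x := by
    have : 0 ≤ Real.log ((L : ℝ) + 1) := Real.log_nonneg (by
      have : (0 : ℝ) ≤ L := Nat.cast_nonneg _
      linarith)
    positivity
  set R : ℕ := ⌈x⌉₊ with hR
  have hR1 : x ≤ R := Nat.le_ceil x
  have hR2 : (R : ℝ) ≤ x + 1 := (Nat.ceil_lt_add_one hx0).le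
  have htail := tail33 (m := m) (L := L) (N := N) (R := R) hR1
  set v' : (Fin (m + 1) → ℕ) → Pt m L → ℝ := fun q ω =>
    if dst (∑ a, q a) N ≤ R then v q ω else 0 with hv'
  have hkap : ∀ q : Fin (m + 1) → ℕ, kap N q ≤ 1 := fun q => by
    unfold kap
    exact pow_le_one₀ (by norm_num) (by norm_num)
  have hF : ArF N R v' := by
    refine ⟨fun q ω => ?_, fun q => ?_, fun q ω h => ?_⟩
    · rw [hv']
      dsimp only
      split_ifs
      · exact (hv.abs q ω).trans (hkap q)
      · rw [abs_zero]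
        exact zero_le_one
    · rw [hv']
      by_cases h : dst (∑ a, q a) N ≤ R
      · simp only [h, if_true]
        exact hv.dep q
      · simp only [h, if_false]
        exact Ms.cst q 0
    · rw [hv']
      dsimp only
      rw [if_neg (by omega)]
  have hdiff : ∀ ω, |HH v' ω| ≤ 2 := by
    intro ω
    have e : HH v ω - HH v' ω = ∑ q ∈ All m L, ps Finset.univ q ω *
        (if dst (∑ a, q a) N ≤ R then 0 else v q ω) := by
      rw [HH_eq33, HH_eq33, ← sum_sub_distrib]
      refine sum_congr rfl fun q _ => ?_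
      rw [hv']
      dsimp only
      split_ifs
      · ring
      · ring
    have h1 : |HH v ω - HH v' ω| ≤ 1 := by
      rw [e]
      refine (abs_sum_le_sum_abs _ _).trans (le_trans (sum_le_sum fun q _ => ?_) htail)
      rw [abs_mul, ps_abs, one_mul]
      split_ifs
      · rw [abs_zero]
      · exact hv.abs q ω
    have h2 := abs_sub_abs_le_abs_sub (HH v' ω) (HH v ω)
    rw [abs_sub_comm] at h2
    linarith [hH ω]
  have hm2 : ∑ q ∈ All m L, Av (fun ω => |v q ω|) ≤ ∑ q ∈ All m L, Av (fun ω => |v' q ω|) +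
      ∑ q ∈ All m L, (if dst (∑ a, q a) N ≤ R then 0 else kap N q) := by
    rw [← sum_add_distrib]
    refine sum_le_sum fun q _ => ?_
    rw [hv']
    dsimp only
    split_ifs
    · linarith
    · have h2 : Av (fun ω => |v q ω|) ≤ kap N q := by
        have h3 : Av (fun ω => |v q ω|) ≤ Av (fun _ : Pt m L => kap N q) :=
          SBD.Av_mono fun ω => hv.abs q ω
        rwa [SBD.Av_const] at h3
      have h3 : 0 ≤ Av (fun _ : Pt m L => |(0 : ℝ)|) := by
        rw [SBD.Av_const]
        norm_num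
      linarith
  have hfin := hB L N R v' hL hR2 hF hdiff
  calc ∑ q ∈ All m L, Av (fun ω => |v q ω|) ≤ C * lf p E L + 1 := by linarith
    _ ≤ C * lf p E L + lf p E L := by linarith
    _ = (C + 1) * lf p E L := by ring

end Pool.Agent.SHX
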