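import Pool.Agent.Lib.MP_a7b2aa_an.SHX.Cum25
import Pool.Agent.Lib.MP_a7b2aa_an.SHX.PathD23
import Pool.Agent.Lib.MP_a7b2aa_an.SHD.Stmts3_23
import Pool.Agent.Lib.MP_a7b2aa_an.SBD.CfoD33
import Pool.Agent.Lib.MP_a7b2aa_an.SBD.EEB36

/-!
SHX, track ALL (helper25): module EXACT, the exact system.
-/

set_option autoImplicit false

open Finset

namespace Pool.Agent.SHX.Ex25

open Pool.Agent.SB3 Pool.Agent.SBT Pool.Agent.SBD Pool.Agent.SHD Pool.Agent.SHX

variable {m L : ℕ}

/-- the cells which agree with `h` on `A` and are smaller elsewhere -/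
def bxx (A : Finset (Fin (m + 1))) (h : Fin (m + 1) → ℕ) : Finset (Fin (m + 1) → ℕ) :=
  Fintype.piFinset (fun e => if e ∈ A then {h e} else range (h e))

theorem mem_bxx {A : Finset (Fin (m + 1))} {h k : Fin (m + 1) → ℕ} :
    k ∈ bxx A h ↔ (∀ e ∈ A, k e = h e) ∧ ∀ e, e ∉ A → k e < h e := by
  unfold bxx
  rw [Fintype.mem_piFinset]
  constructor
  · intro hk
    refine ⟨fun e he => ?_, fun e he => ?_⟩
    · have := hk e
      rwa [if_pos he, Finset.mem_singleton] at this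
    · have := hk e
      rwa [if_neg he, Finset.mem_range] at this
  · rintro ⟨h1, h2⟩ e
    by_cases he : e ∈ A
    · rw [if_pos he, Finset.mem_singleton]
      exact h1 e he
    · rw [if_neg he, Finset.mem_range]
      exact h2 e he

/-- the cells of `bxx A h`, `A` proper, are smaller -/
theorem bxx_lt {A : Finset (Fin (m + 1))} {h k : Fin (m + 1) → ℕ} (hA : A ≠ univ)
    (hk : k ∈ bxx A h) : ∑ a, k a < ∑ a, h a := by
  rw [mem_bxx] at hk
  have h1 : ∀ a, k a ≤ h a := by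
    intro a
    by_cases ha : a ∈ A
    · exact (hk.1 a ha).le
    · exact (hk.2 a ha).le
  obtain ⟨a, ha⟩ : ∃ a, a ∉ A := by
    by_contra hc
    push Not at hc
    exact hA (Finset.eq_univ_iff_forall.2 hc)
  exact Finset.sum_lt_sum (fun a _ => h1 a) ⟨a, Finset.mem_univ a, hk.2 a ha⟩

theorem bxx_le {A : Finset (Fin (m + 1))} {h k : Fin (m + 1) → ℕ} (hk : k ∈ bxx A h) (a : Fin (m + 1)) :
    k a ≤ h a := by
  rw [mem_bxx] at hk
  by_cases ha : a ∈ A
  · exact (hk.1 a ha).le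
  · exact (hk.2 a ha).le

/-- the sums `C_A(h)` -/
noncomputable def CC (V : (Fin (m + 1) → ℕ) → Pt m L → ℝ) (A : Finset (Fin (m + 1)))
    (h : Fin (m + 1) → ℕ) (ω : Pt m L) : ℝ := ∑ k ∈ bxx A h, ps Aᶜ k ω * V k ω

/-- the density -/
noncomputable def ZZ (V : (Fin (m + 1) → ℕ) → Pt m L → ℝ) (h : Fin (m + 1) → ℕ) (ω : Pt m L) :
    ℝ := 1 + CC V ∅ h ω

/-- the moments -/
noncomputable def MM (V : (Fin (m + 1) → ℕ) → Pt m L → ℝ) (h : Fin (m + 1) → ℕ) (ω : Pt m L) :
    SC (Fin (m + 1)) := fun A => if A = ∅ then 1 else CC V A h ω / ZZ V h ω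

/-- the moments, top moment `0` -/
noncomputable def M0 (V : (Fin (m + 1) → ℕ) → Pt m L → ℝ) (h : Fin (m + 1) → ℕ) (ω : Pt m L) :
    SC (Fin (m + 1)) := fun A => if A = univ then 0 else MM V h ω A

/-- the coefficient of the cell `h` from the smaller ones -/
noncomputable def nxt (lam : ℝ) (u : (Fin (m + 1) → ℕ) → Pt m L → ℝ)
    (V : (Fin (m + 1) → ℕ) → Pt m L → ℝ) (h : Fin (m + 1) → ℕ) (ω : Pt m L) : ℝ :=
  ZZ V h ω * (lam * u h ω - (M0 V h ω).cum univ)

theorem CC_congr {V V' : (Fin (m + 1) → ℕ) → Pt m L → ℝ} {h : Fin (m + 1) → ℕ}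
    (hV : ∀ k, ∑ a, k a < ∑ a, h a → V k = V' k) {A : Finset (Fin (m + 1))} (hA : A ≠ univ) :
    CC V A h = CC V' A h := by
  funext ω
  unfold CC
  refine Finset.sum_congr rfl fun k hk => ?_
  rw [hV k (bxx_lt hA hk)]

theorem empty_ne_univ : (∅ : Finset (Fin (m + 1))) ≠ univ :=
  (Finset.univ_nonempty).ne_empty.symm

theorem nxt_congr {lam : ℝ} {u V V' : (Fin (m + 1) → ℕ) → Pt m L → ℝ} {h : Fin (m + 1) → ℕ}
    (hV : ∀ k, ∑ a, k a < ∑ a, h a → V k = V' k) : nxt lam u V h = nxt lam u V' h := by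
  funext ω
  have hZ : ZZ V h ω = ZZ V' h ω := by
    unfold ZZ
    rw [CC_congr hV empty_ne_univ]
  have hM : M0 V h ω = M0 V' h ω := by
    funext A
    unfold M0 MM
    by_cases hA : A = univ
    · rw [if_pos hA, if_pos hA]
    · rw [if_neg hA, if_neg hA, CC_congr hV hA, hZ]
  unfold nxt
  rw [hZ, hM]

/-- approximations of `W` -/
noncomputable def Wn (lam : ℝ) (u : (Fin (m + 1) → ℕ) → Pt m L → ℝ) :
    ℕ → (Fin (m + 1) → ℕ) → Pt m L → ℝ
  | 0 => fun _ _ => 0
  | n + 1 => nxt lam u (Wn lam u n)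

/-- the coefficients -/
noncomputable def WW (lam : ℝ) (u : (Fin (m + 1) → ℕ) → Pt m L → ℝ) (h : Fin (m + 1) → ℕ) :
    Pt m L → ℝ := Wn lam u (∑ a, h a + 1) h

theorem Wn_stable (lam : ℝ) (u : (Fin (m + 1) → ℕ) → Pt m L → ℝ) (n : ℕ) :
    ∀ (n' : ℕ) (h : Fin (m + 1) → ℕ), ∑ a, h a < n → n ≤ n' → Wn lam u n' h = Wn lam u n h := by
  induction n with
  | zero => intro n' h h1 _; omega
  | succ n ih =>
    intro n' h h1 h2
    obtain ⟨n'', rfl⟩ : ∃ n'', n' = n'' + 1 := ⟨n' - 1, by omega⟩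
    show nxt lam u (Wn lam u n'') h = nxt lam u (Wn lam u n) h
    apply nxt_congr
    intro k hk
    exact ih n'' k (by omega) (by omega)

theorem WW_eq (lam : ℝ) (u : (Fin (m + 1) → ℕ) → Pt m L → ℝ) (h : Fin (m + 1) → ℕ) :
    WW lam u h = nxt lam u (WW lam u) h := by
  show nxt lam u (Wn lam u (∑ a, h a)) h = nxt lam u (WW lam u) h
  apply nxt_congr
  intro k hk
  exact Wn_stable lam u _ _ k (Nat.lt_succ_self _) (by omega)

/-- one more digit -/
theorem CC_up (V : (Fin (m + 1) → ℕ) → Pt m L → ℝ) {A : Finset (Fin (m + 1))} {e : Fin (m + 1)}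
    (he : e ∉ A) (h : Fin (m + 1) → ℕ) (ω : Pt m L) :
    CC V A (Function.update h e (h e + 1)) ω = CC V A h ω + sb e (h e) ω * CC V (insert e A) h ω := by
  classical
  have hdis : Disjoint (bxx A h) (bxx (insert e A) h) := by
    rw [Finset.disjoint_left]
    intro k h1 h2
    rw [mem_bxx] at h1 h2
    have := h1.2 e he
    have := h2.1 e (Finset.mem_insert_self e A)
    omega
  have hun : bxx A (Function.update h e (h e + 1)) = bxx A h ∪ bxx (insert e A) h := by
    ext k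
    rw [Finset.mem_union, mem_bxx, mem_bxx, mem_bxx]
    constructor
    · rintro ⟨h1, h2⟩
      have h3 := h2 e he
      rw [Function.update_self] at h3
      have h1' : ∀ e' ∈ A, k e' = h e' := by
        intro e' he'
        have := h1 e' he'
        rwa [Function.update_of_ne (fun hh : e' = e => he (by rw [← hh]; exact he'))] at this
      have h2' : ∀ e', e' ∉ A → e' ≠ e → k e' < h e' := by
        intro e' he' hne
        have := h2 e' he'
        rwa [Function.update_of_ne hne] at this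
      rcases Nat.lt_succ_iff_lt_or_eq.1 h3 with h4 | h4
      · left
        refine ⟨h1', fun e' he' => ?_⟩
        by_cases hne : e' = e
        · rw [hne]; exact h4
        · exact h2' e' he' hne
      · right
        refine ⟨fun e' he' => ?_, fun e' he' => ?_⟩
        · rcases Finset.mem_insert.1 he' with rfl | h5
          · exact h4
          · exact h1' e' h5
        · rw [Finset.mem_insert, not_or] at he'
          exact h2' e' he'.2 he'.1
    · rintro (⟨h1, h2⟩ | ⟨h1, h2⟩)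
      · refine ⟨fun e' he' => ?_, fun e' he' => ?_⟩
        · rw [Function.update_of_ne (fun hh : e' = e => he (by rw [← hh]; exact he'))]
          exact h1 e' he'
        · by_cases hne : e' = e
          · rw [hne, Function.update_self]
            exact (h2 e he).trans (Nat.lt_succ_self _)
          · rw [Function.update_of_ne hne]
            exact h2 e' he'
      · refine ⟨fun e' he' => ?_, fun e' he' => ?_⟩
        · rw [Function.update_of_ne (fun hh : e' = e => he (by rw [← hh]; exact he'))]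
          exact h1 e' (Finset.mem_insert_of_mem he')
        · by_cases hne : e' = e
          · rw [hne, Function.update_self, h1 e (Finset.mem_insert_self e A)]
            exact Nat.lt_succ_self _
          · rw [Function.update_of_ne hne]
            exact h2 e' (by rw [Finset.mem_insert, not_or]; exact ⟨hne, he'⟩)
  unfold CC
  rw [hun, Finset.sum_union hdis, Finset.mul_sum]
  congr 1
  refine Finset.sum_congr rfl fun k hk => ?_
  have h1 : Aᶜ = insert e (insert e A)ᶜ := by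
    ext x
    simp only [Finset.mem_compl, Finset.mem_insert]
    by_cases hx : x = e
    · subst hx
      simp [he]
    · simp [hx]
  have h2 : ps Aᶜ k ω = sb e (k e) ω * ps (insert e A)ᶜ k ω := by
    rw [h1, ps_insert (by simp)]
  rw [h2, ((mem_bxx.1 hk).1 e (Finset.mem_insert_self e A))]
  ring

theorem CC_univ (V : (Fin (m + 1) → ℕ) → Pt m L → ℝ) (h : Fin (m + 1) → ℕ) (ω : Pt m L) :
    CC V univ h ω = V h ω := by
  unfold CC
  have : bxx univ h = {h} := by
    ext k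
    rw [mem_bxx, Finset.mem_singleton]
    constructor
    · rintro ⟨h1, _⟩
      exact funext fun e => h1 e (Finset.mem_univ e)
    · rintro rfl
      exact ⟨fun _ _ => rfl, fun e he => absurd (Finset.mem_univ e) he⟩
  rw [this, Finset.sum_singleton, Finset.compl_univ]
  unfold ps
  rw [Finset.prod_empty, one_mul]

theorem CC_zero (V : (Fin (m + 1) → ℕ) → Pt m L → ℝ) {A : Finset (Fin (m + 1))}
    {p : Fin (m + 1)} (hp : p ∉ A) {h : Fin (m + 1) → ℕ} (h0 : h p = 0) (ω : Pt m L) :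
    CC V A h ω = 0 := by
  unfold CC
  have : bxx A h = ∅ := by
    rw [Finset.eq_empty_iff_forall_notMem]
    intro k hk
    have := (mem_bxx.1 hk).2 p hp
    omega
  rw [this, Finset.sum_empty]

/-- the cumulants -/
noncomputable def KA (lam : ℝ) (u : (Fin (m + 1) → ℕ) → Pt m L → ℝ) (B : Finset (Fin (m + 1)))
    (h : Fin (m + 1) → ℕ) (ω : Pt m L) : ℝ :=
  if B = univ then lam * u h ω else (MM (WW lam u) h ω).cum B

theorem MM_empty (V : (Fin (m + 1) → ℕ) → Pt m L → ℝ) (h : Fin (m + 1) → ℕ) (ω : Pt m L) :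
    MM V h ω ∅ = 1 := if_pos rfl

theorem MM_ne (V : (Fin (m + 1) → ℕ) → Pt m L → ℝ) (h : Fin (m + 1) → ℕ) (ω : Pt m L)
    {A : Finset (Fin (m + 1))} (hA : A ≠ ∅) : MM V h ω A = CC V A h ω / ZZ V h ω := if_neg hA

theorem M0_empty (V : (Fin (m + 1) → ℕ) → Pt m L → ℝ) (h : Fin (m + 1) → ℕ) (ω : Pt m L) :
    M0 V h ω ∅ = 1 := by
  unfold M0
  rw [if_neg empty_ne_univ]
  exact MM_empty V h ω

/-- where the density does not vanish, `KA` are the cumulants of the moments -/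
theorem KA_eq (lam : ℝ) (u : (Fin (m + 1) → ℕ) → Pt m L → ℝ) (B : Finset (Fin (m + 1)))
    (h : Fin (m + 1) → ℕ) (ω : Pt m L) (hZ : ZZ (WW lam u) h ω ≠ 0) :
    KA lam u B h ω = (MM (WW lam u) h ω).cum B := by
  unfold KA
  by_cases hB : B = univ
  · rw [if_pos hB, hB]
    have h1 := SC.cum_sub (MM_empty (WW lam u) h ω) (M0_empty (WW lam u) h ω)
      (Finset.univ_nonempty) (fun C hC => by
        unfold M0
        rw [if_neg hC.ne])
    have h2 : M0 (WW lam u) h ω univ = 0 := if_pos rfl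
    have h3 : MM (WW lam u) h ω univ = lam * u h ω - (M0 (WW lam u) h ω).cum univ := by
      rw [MM_ne _ _ _ empty_ne_univ.symm, CC_univ, congrFun (WW_eq lam u h) ω]
      unfold nxt
      field_simp
    rw [h2, h3] at h1
    linarith
  · rw [if_neg hB]

theorem KA_van (lam : ℝ) (u : (Fin (m + 1) → ℕ) → Pt m L → ℝ) {B : Finset (Fin (m + 1))}
    {h : Fin (m + 1) → ℕ} {p : Fin (m + 1)} (hB : B.Nonempty) (hp : p ∉ B) (h0 : h p = 0)
    (ω : Pt m L) : KA lam u B h ω = 0 := by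
  unfold KA
  rw [if_neg (fun hh : B = univ => hp (by rw [hh]; exact Finset.mem_univ p))]
  apply SC.cum_eq_zero (MM_empty _ _ _) hB
  intro C hC hne
  rw [MM_ne _ _ _ hne.ne_empty, CC_zero _ (fun hh => hp (hC hh)) h0, zero_div]

theorem ZZ_zero (V : (Fin (m + 1) → ℕ) → Pt m L → ℝ) {h : Fin (m + 1) → ℕ} {p : Fin (m + 1)}
    (h0 : h p = 0) (ω : Pt m L) : ZZ V h ω = 1 := by
  unfold ZZ
  rw [CC_zero V (Finset.notMem_empty p) h0, add_zero]

theorem ZZ_up (lam : ℝ) (u : (Fin (m + 1) → ℕ) → Pt m L → ℝ) (h : Fin (m + 1) → ℕ)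
    (e : Fin (m + 1)) (ω : Pt m L) (hZ : ZZ (WW lam u) h ω ≠ 0) :
    ZZ (WW lam u) (Function.update h e (h e + 1)) ω =
      ZZ (WW lam u) h ω * (1 + sb e (h e) ω * KA lam u {e} h ω) := by
  rw [KA_eq lam u _ h ω hZ, SC.cum_single (MM_empty _ _ _), MM_ne _ _ _ (Finset.singleton_ne_empty e)]
  have h1 : ZZ (WW lam u) (Function.update h e (h e + 1)) ω =
      ZZ (WW lam u) h ω + sb e (h e) ω * CC (WW lam u) {e} h ω := by
    unfold ZZ
    rw [CC_up _ (Finset.notMem_empty e)]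
    have : insert e (∅ : Finset (Fin (m + 1))) = {e} := rfl
    rw [this]
    ring
  rw [h1]
  field_simp

/-! ### Measurability -/

theorem Ms_ps (A : Finset (Fin (m + 1))) {q k : Fin (m + 1) → ℕ} (h : ∀ a ∈ A, k a < q a) :
    Ms q (ps A k : Pt m L → ℝ) := by
  exact Ms.prod (φ := fun c ω => sb c (k c) ω) A (fun c hc => Ms_sb (h c hc))

theorem Ms_CC {V : (Fin (m + 1) → ℕ) → Pt m L → ℝ} {h : Fin (m + 1) → ℕ}
    {A : Finset (Fin (m + 1))} (hV : ∀ k ∈ bxx A h, Ms k (V k)) : Ms h (CC V A h) := by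
  intro ω ω' hcl
  unfold CC
  refine Finset.sum_congr rfl fun k hk => ?_
  have h1 : Ms h (ps Aᶜ k : Pt m L → ℝ) := by
    apply Ms_ps
    intro a ha
    exact (mem_bxx.1 hk).2 a (Finset.mem_compl.1 ha)
  have h2 : Ms h (V k) := (hV k hk).mono fun a => Or.inl (bxx_le hk a)
  rw [h1 ω ω' hcl, h2 ω ω' hcl]

theorem Ms_nxt {lam : ℝ} {u V : (Fin (m + 1) → ℕ) → Pt m L → ℝ} {h : Fin (m + 1) → ℕ}
    (hu : Ms h (u h)) (hV : ∀ k, ∑ a, k a < ∑ a, h a → Ms k (V k)) : Ms h (nxt lam u V h) := by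
  intro ω ω' hcl
  have h1 : ∀ A, A ≠ univ → CC V A h ω' = CC V A h ω := by
    intro A hA
    exact Ms_CC (fun k hk => hV k (bxx_lt hA hk)) ω ω' hcl
  have hZ : ZZ V h ω' = ZZ V h ω := by
    unfold ZZ
    rw [h1 _ empty_ne_univ]
  have hM : M0 V h ω' = M0 V h ω := by
    funext A
    unfold M0 MM
    by_cases hA : A = univ
    · rw [if_pos hA, if_pos hA]
    · rw [if_neg hA, if_neg hA, h1 A hA, hZ]
  unfold nxt
  rw [hZ, hM, hu ω ω' hcl]

theorem Ms_WW {lam : ℝ} {u : (Fin (m + 1) → ℕ) → Pt m L → ℝ} (hu : ∀ q, Ms q (u q)) (n : ℕ) :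
    ∀ h : Fin (m + 1) → ℕ, ∑ a, h a < n → Ms h (WW lam u h) := by
  induction n with
  | zero => intro h hh; omega
  | succ n ih =>
    intro h hh
    rw [WW_eq]
    exact Ms_nxt (hu h) fun k hk => ih k (by omega)

theorem Ms_WW' {lam : ℝ} {u : (Fin (m + 1) → ℕ) → Pt m L → ℝ} (hu : ∀ q, Ms q (u q))
    (h : Fin (m + 1) → ℕ) : Ms h (WW lam u h) := Ms_WW hu _ h (Nat.lt_succ_self _)

theorem Ms_ZZ {lam : ℝ} {u : (Fin (m + 1) → ℕ) → Pt m L → ℝ} (hu : ∀ q, Ms q (u q))
    (h : Fin (m + 1) → ℕ) : Ms h (ZZ (WW lam u) h) := by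
  intro ω ω' hcl
  unfold ZZ
  rw [Ms_CC (fun k _ => Ms_WW' hu k) ω ω' hcl]

theorem Ms_KA {lam : ℝ} {u : (Fin (m + 1) → ℕ) → Pt m L → ℝ} (hu : ∀ q, Ms q (u q))
    (B : Finset (Fin (m + 1))) (h : Fin (m + 1) → ℕ) : Ms h (KA lam u B h) := by
  intro ω ω' hcl
  have hM : MM (WW lam u) h ω' = MM (WW lam u) h ω := by
    funext A
    unfold MM
    rw [Ms_CC (fun k _ => Ms_WW' hu k) ω ω' hcl, Ms_ZZ hu h ω ω' hcl]
  unfold KA
  rw [hM, hu h ω ω' hcl]

/-! ### The coefficients -/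

theorem EE_sum (q : Fin (m + 1) → ℕ) {ι : Type} (s : Finset ι) (φ : ι → Pt m L → ℝ) (ω : Pt m L) :
    EE q (fun ω' => ∑ i ∈ s, φ i ω') ω = ∑ i ∈ s, EE q (φ i) ω := by
  unfold EE
  rw [← Finset.sum_div]
  congr 1
  rw [Finset.sum_comm]
  refine Finset.sum_congr rfl fun ω' _ => ?_
  split_ifs
  · rfl
  · rw [Finset.sum_const_zero]

theorem coef_one {q r : Fin (m + 1) → ℕ} {F : Pt m L → ℝ} (hq : ∀ a, q a < L)
    (hr : ∀ a, r a ≤ q a) (hF : Ms r F) (ω : Pt m L) :
    EE q (fun ω' => ps univ q ω' * (ps univ r ω' * F ω')) ω = if r = q then F ω else 0 := by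
  have h := eeb_36 m L
  by_cases hrq : r = q
  · subst hrq
    rw [if_pos rfl]
    have h1 : (fun ω' => ps Finset.univ r ω' * (ps Finset.univ r ω' * F ω')) = F := by
      funext ω'
      rw [← mul_assoc, ps_sq33, one_mul]
    rw [h1]
    exact h.idem r _ hF ω
  · rw [if_neg hrq]
    obtain ⟨a, ha⟩ : ∃ a, r a ≠ q a := by
      by_contra hh
      push Not at hh
      exact hrq (funext hh)
    have hlt : r a < q a := lt_of_le_of_ne (hr a) ha
    have h1 : (fun ω' => ps Finset.univ q ω' * (ps Finset.univ r ω' * F ω')) =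
        fun ω' => (ps (Finset.univ.erase a) q ω' * (ps Finset.univ r ω' * F ω')) *
          sb a (q a) ω' := by
      funext ω'
      rw [ps_erase33 a q ω']
      ring
    rw [h1]
    refine EE_kill33 h (hq a) le_rfl (fun c => (hq c).le) _ ?_ ω
    intro ω1 ω2 hw
    have e1 := ps_Ms33 (a := a) (t := q a) (Finset.univ.erase a) q
      (fun hh => absurd hh (Finset.notMem_erase a _)) ω1 ω2 hw
    have e2 := ps_Ms33 (a := a) (t := q a) Finset.univ r (fun _ => hlt) ω1 ω2 hw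
    have e3 := Ms_one33 hF hlt.le ω1 ω2 hw
    simp only [e1, e2, e3]

theorem coef_W {lam : ℝ} {u : (Fin (m + 1) → ℕ) → Pt m L → ℝ} (hu : ∀ q, Ms q (u q))
    {q : Fin (m + 1) → ℕ} (hq : ∀ a, q a < L) (ω : Pt m L) :
    EE q (fun ω' => ps univ q ω' * ZZ (WW lam u) (fun a => q a + 1) ω') ω = WW lam u q ω := by
  have h := eeb_36 m L
  have e1 : (fun ω' => ps univ q ω' * ZZ (WW lam u) (fun a => q a + 1) ω') =
      fun ω' => ps univ q ω' + ∑ k ∈ bxx ∅ (fun a => q a + 1),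
        ps univ q ω' * (ps univ k ω' * WW lam u k ω') := by
    funext ω'
    unfold ZZ CC
    rw [Finset.compl_empty, mul_add, mul_one, Finset.mul_sum]
  have e0 : EE q (fun ω' => ps univ q ω' * 1) ω = 0 := by
    have h1 : (fun ω' : Pt m L => ps univ q ω' * 1) =
        fun ω' => ps (Finset.univ.erase 0) q ω' * sb 0 (q 0) ω' := by
      funext ω'
      rw [mul_one, ps_erase33 0 q ω']
      ring
    rw [h1]
    exact EE_kill33 h (hq 0) le_rfl (fun c => (hq c).le) _
      (fun ω1 ω2 hw => ps_Ms33 (a := 0) (t := q 0) (Finset.univ.erase 0) q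
        (fun hh => absurd hh (Finset.notMem_erase 0 _)) ω1 ω2 hw) ω
  rw [e1]
  have e2 : EE q (fun ω' => ps univ q ω' + ∑ k ∈ bxx ∅ (fun a => q a + 1),
        ps univ q ω' * (ps univ k ω' * WW lam u k ω')) ω =
      EE q (fun ω' => ps univ q ω' * 1) ω + ∑ k ∈ bxx ∅ (fun a => q a + 1),
        EE q (fun ω' => ps univ q ω' * (ps univ k ω' * WW lam u k ω')) ω := by
    rw [← EE_sum]
    unfold EE
    rw [← add_div, ← Finset.sum_add_distrib]
    congr 1
    refine Finset.sum_congr rfl fun ω' _ => ?_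
    split_ifs
    · simp only [mul_one]
    · simp only [add_zero]
  rw [e2, e0, zero_add]
  have e3 : ∀ k ∈ bxx ∅ (fun a => q a + 1),
      EE q (fun ω' => ps univ q ω' * (ps univ k ω' * WW lam u k ω')) ω =
        if k = q then WW lam u k ω else 0 := by
    intro k hk
    exact coef_one hq (fun a => Nat.lt_succ_iff.1 ((mem_bxx.1 hk).2 a (Finset.notMem_empty a)))
      (Ms_WW' hu k) ω
  rw [Finset.sum_congr rfl e3, Finset.sum_ite_eq', if_pos]
  rw [mem_bxx]
  exact ⟨fun e he => absurd he (Finset.notMem_empty e), fun e _ => Nat.lt_succ_self _⟩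

end Pool.Agent.SHX.Ex25
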