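import Pool.Agent.Lib.MP_a7b2aa_an.SHD.Stmts4_25

/-!
MP_a7b2aa_an, beyond the gain `1 / 4` (helper30): interface of the end game. BANDX is the digits
theorem for flat band arrays with the exponent `p`, LAWX is the law from which it follows.
-/

set_option autoImplicit false

namespace Pool.Agent.SHX

open Finset Pool.Agent.SB3 Pool.Agent.SBT Pool.Agent.SBD Pool.Agent.SHD

/-- BANDX: band arrays, exponent `p` -/
def StBandX (m : ℕ) (p : ℝ) : Prop := ∀ K : ℝ, 0 < K → ∃ C : ℝ, 0 < C ∧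
  ∀ (L N R : ℕ) (v : (Fin (m + 1) → ℕ) → Pt m L → ℝ), 1 ≤ L →
    (R : ℝ) ≤ K * Real.log (L + 1) + 1 → ArF N R v → (∀ ω, |HH v ω| ≤ 2) →
    ∑ q ∈ All m L, Av (fun ω => |v q ω|) ≤ C * (L : ℝ) ^ p

/-- LAWX: a law `ρ` under which the coefficient of every cell in the band is `u`, up to the factor
`c L ^ (-p)` and up to a relative error `1 / 2`, on most of the space; only for `L` large -/
def StLawX (m : ℕ) (p : ℝ) : Prop := ∀ (n : ℕ) (K : ℝ), 0 < K → ∃ C : ℝ, 1 ≤ C ∧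
  ∀ (L N R : ℕ) (u : (Fin (m + 1) → ℕ) → Pt m L → ℝ), C ≤ (L : ℝ) →
    (R : ℝ) ≤ K * Real.log (L + 1) + 1 → ArF N R u →
    ∃ ρ : Pt m L → ℝ, (∀ ω, 0 ≤ ρ ω) ∧ Av ρ = 1 ∧
      ∀ q ∈ All m L, dst (∑ a, q a) N ≤ R → ∀ w : Pt m L → ℝ, Ms q w → (∀ ω, |w ω| ≤ 1) →
        (∀ ω, w ω * u q ω = |w ω|) →
        Av (fun ω => |w ω|) ≤ C * (L : ℝ) ^ p * (Ex ρ (fun ω => ps Finset.univ q ω * w ω) +
          C / (L + 1) ^ n)

end Pool.Agent.SHX
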