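import Mathlib

/-!
SHX: Walsh functions and the truncation `1[k < t] = ∑ c W(k) W'(t)`, `∑ |c| ≤ K` (helper38).
-/

set_option autoImplicit false

open Finset

namespace Pool.Agent.Lib.MP_a7b2aa_an.SHX

/-- Walsh function of the set `S` of bits -/
def wal (S : Finset ℕ) (k : ℕ) : ℝ := ∏ b ∈ S, (if k.testBit b then -1 else 1)

theorem wal_sq (S : Finset ℕ) (k : ℕ) : wal S k * wal S k = 1 := by
  unfold wal
  rw [← Finset.prod_mul_distrib]
  refine Finset.prod_eq_one fun b _ => ?_
  split_ifs <;> norm_num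

theorem wal_abs (S : Finset ℕ) (k : ℕ) : |wal S k| = 1 := by
  have h := wal_sq S k
  have h2 : |wal S k| * |wal S k| = 1 := by rw [abs_mul_abs_self]; exact h
  nlinarith [abs_nonneg (wal S k)]

theorem wal_empty (k : ℕ) : wal ∅ k = 1 := by simp [wal]

/-- products of Walsh functions are Walsh functions -/
theorem wal_mul (S T : Finset ℕ) (k : ℕ) : wal S k * wal T k = wal (symmDiff S T) k := by
  classical
  have h1 : ∀ U : Finset ℕ, ∀ W : Finset ℕ, Disjoint U W →
      wal (U ∪ W) k = wal U k * wal W k := fun U W h => by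
    unfold wal
    exact Finset.prod_union h
  have hS : S = (S \ T) ∪ (S ∩ T) := (Finset.sdiff_union_inter S T).symm
  have hT : T = (T \ S) ∪ (S ∩ T) := by
    rw [Finset.inter_comm]; exact (Finset.sdiff_union_inter T S).symm
  have e1 : wal S k = wal (S \ T) k * wal (S ∩ T) k := by
    conv_lhs => rw [hS]
    exact h1 _ _ (Finset.disjoint_sdiff_inter S T)
  have e2 : wal T k = wal (T \ S) k * wal (S ∩ T) k := by
    conv_lhs => rw [hT]
    refine h1 _ _ ?_
    rw [Finset.inter_comm]
    exact Finset.disjoint_sdiff_inter T S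
  have e3 : wal (symmDiff S T) k = wal (S \ T) k * wal (T \ S) k := by
    have : symmDiff S T = (S \ T) ∪ (T \ S) := rfl
    rw [this]
    refine h1 _ _ ?_
    rw [Finset.disjoint_left]
    intro x hx hx'
    exact (Finset.mem_sdiff.1 hx').2 (Finset.mem_sdiff.1 hx).1
  rw [e1, e2, e3]
  have := wal_sq (S ∩ T) k
  linear_combination (wal (S \ T) k * wal (T \ S) k) * this

/-- functions of two variables which are combinations of products of Walsh functions in the first
`K` bits, with cost `C` -/
def Wx (K : ℕ) (C : ℝ) (f : ℕ → ℕ → ℝ) : Prop :=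
  ∃ c : Finset ℕ → Finset ℕ → ℝ,
    ∑ S ∈ (range K).powerset, ∑ T ∈ (range K).powerset, |c S T| ≤ C ∧
    ∀ k t : ℕ, f k t = ∑ S ∈ (range K).powerset, ∑ T ∈ (range K).powerset,
      c S T * (wal S k * wal T t)

theorem Wx.add {K : ℕ} {C D : ℝ} {f g : ℕ → ℕ → ℝ} (hf : Wx K C f) (hg : Wx K D g) :
    Wx K (C + D) (fun k t => f k t + g k t) := by
  obtain ⟨c, hc, hf⟩ := hf
  obtain ⟨d, hd, hg⟩ := hg
  refine ⟨fun S T => c S T + d S T, ?_, fun k t => ?_⟩
  · refine le_trans ?_ (add_le_add hc hd)
    rw [← Finset.sum_add_distrib]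
    refine Finset.sum_le_sum fun S _ => ?_
    rw [← Finset.sum_add_distrib]
    exact Finset.sum_le_sum fun T _ => abs_add_le _ _
  · beta_reduce
    rw [hf, hg, ← Finset.sum_add_distrib]
    refine Finset.sum_congr rfl fun S _ => ?_
    rw [← Finset.sum_add_distrib]
    exact Finset.sum_congr rfl fun T _ => by ring

theorem Wx.smul {K : ℕ} {C : ℝ} {f : ℕ → ℕ → ℝ} (a : ℝ) (hf : Wx K C f) :
    Wx K (|a| * C) (fun k t => a * f k t) := by
  obtain ⟨c, hc, hf⟩ := hf
  refine ⟨fun S T => a * c S T, ?_, fun k t => ?_⟩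
  · refine le_trans (le_of_eq ?_) (mul_le_mul_of_nonneg_left hc (abs_nonneg a))
    rw [Finset.mul_sum]
    refine Finset.sum_congr rfl fun S _ => ?_
    rw [Finset.mul_sum]
    exact Finset.sum_congr rfl fun T _ => abs_mul _ _
  · beta_reduce
    rw [hf, Finset.mul_sum]
    refine Finset.sum_congr rfl fun S _ => ?_
    rw [Finset.mul_sum]
    exact Finset.sum_congr rfl fun T _ => by ring

theorem Wx.mono {K : ℕ} {C D : ℝ} {f : ℕ → ℕ → ℝ} (hf : Wx K C f) (h : C ≤ D) : Wx K D f := by
  obtain ⟨c, hc, hf⟩ := hf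
  exact ⟨c, hc.trans h, hf⟩

/-- one product -/
theorem Wx.single {K : ℕ} {S T : Finset ℕ} (hS : S ⊆ range K) (hT : T ⊆ range K) :
    Wx K 1 (fun k t => wal S k * wal T t) := by
  classical
  refine ⟨fun S' T' => if S' = S ∧ T' = T then 1 else 0, ?_, fun k t => ?_⟩
  · beta_reduce
    rw [Finset.sum_eq_single S, Finset.sum_eq_single T]
    · simp
    · intro b _ hb
      rw [if_neg (fun h => hb h.2), abs_zero]
    · intro h
      exact absurd (Finset.mem_powerset.2 hT) h
    · intro b _ hb
      refine Finset.sum_eq_zero fun T' _ => ?_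
      rw [if_neg (fun h => hb h.1), abs_zero]
    · intro h
      exact absurd (Finset.mem_powerset.2 hS) h
  · beta_reduce
    rw [Finset.sum_eq_single S, Finset.sum_eq_single T]
    · simp
    · intro b _ hb
      rw [if_neg (fun h => hb h.2), zero_mul]
    · intro h
      exact absurd (Finset.mem_powerset.2 hT) h
    · intro b _ hb
      refine Finset.sum_eq_zero fun T' _ => ?_
      rw [if_neg (fun h => hb h.1), zero_mul]
    · intro h
      exact absurd (Finset.mem_powerset.2 hS) h

theorem Wx.sum {K : ℕ} {ι : Type} (s : Finset ι) (C : ι → ℝ) (f : ι → ℕ → ℕ → ℝ)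
    (hf : ∀ i ∈ s, Wx K (C i) (f i)) : Wx K (∑ i ∈ s, C i) (fun k t => ∑ i ∈ s, f i k t) := by
  classical
  induction s using Finset.induction_on with
  | empty =>
    refine ⟨fun _ _ => 0, by simp, fun k t => by simp⟩
  | insert a s ha ih =>
    have h1 := (hf a (Finset.mem_insert_self a s)).add
      (ih fun i hi => hf i (Finset.mem_insert_of_mem hi))
    rw [Finset.sum_insert ha]
    have e : (fun k t => ∑ i ∈ insert a s, f i k t) = fun k t => f a k t + ∑ i ∈ s, f i k t := by
      funext k t
      rw [Finset.sum_insert ha]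
    rw [e]
    exact h1

theorem Wx.mul {K : ℕ} {C D : ℝ} {f g : ℕ → ℕ → ℝ} (hC : 0 ≤ C) (hf : Wx K C f) (hg : Wx K D g) :
    Wx K (C * D) (fun k t => f k t * g k t) := by
  classical
  obtain ⟨c, hc, hf⟩ := hf
  obtain ⟨d, hd, hg⟩ := hg
  have hsub : ∀ S ∈ (range K).powerset, ∀ T ∈ (range K).powerset, symmDiff S T ⊆ range K := by
    intro S hS T hT x hx
    rw [Finset.mem_symmDiff] at hx
    rcases hx with hx | hx
    · exact Finset.mem_powerset.1 hS hx.1
    · exact Finset.mem_powerset.1 hT hx.1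
  have h1 : Wx K (∑ S ∈ (range K).powerset, ∑ T ∈ (range K).powerset,
      ∑ S' ∈ (range K).powerset, ∑ T' ∈ (range K).powerset, |c S T * d S' T'| * 1)
      (fun k t => ∑ S ∈ (range K).powerset, ∑ T ∈ (range K).powerset,
      ∑ S' ∈ (range K).powerset, ∑ T' ∈ (range K).powerset, (c S T * d S' T') *
        (wal (symmDiff S S') k * wal (symmDiff T T') t)) := by
    refine Wx.sum _ _ _ fun S hS => Wx.sum _ _ _ fun T hT => Wx.sum _ _ _ fun S' hS' =>
      Wx.sum _ _ _ fun T' hT' => Wx.smul _ (Wx.single (hsub S hS S' hS') (hsub T hT T' hT'))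
  have e : (fun k t => ∑ S ∈ (range K).powerset, ∑ T ∈ (range K).powerset,
      ∑ S' ∈ (range K).powerset, ∑ T' ∈ (range K).powerset, (c S T * d S' T') *
        (wal (symmDiff S S') k * wal (symmDiff T T') t)) = fun k t => f k t * g k t := by
    funext k t
    rw [hf, hg, Finset.sum_mul]
    refine Finset.sum_congr rfl fun S _ => ?_
    rw [Finset.sum_mul]
    refine Finset.sum_congr rfl fun T _ => ?_
    rw [Finset.mul_sum]
    refine Finset.sum_congr rfl fun S' _ => ?_
    rw [Finset.mul_sum]
    refine Finset.sum_congr rfl fun T' _ => ?_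
    rw [← wal_mul, ← wal_mul]
    ring
  rw [e] at h1
  refine h1.mono ?_
  have e2 : ∑ S ∈ (range K).powerset, ∑ T ∈ (range K).powerset,
      ∑ S' ∈ (range K).powerset, ∑ T' ∈ (range K).powerset, |c S T * d S' T'| * 1 =
      (∑ S ∈ (range K).powerset, ∑ T ∈ (range K).powerset, |c S T|) *
      (∑ S ∈ (range K).powerset, ∑ T ∈ (range K).powerset, |d S T|) := by
    rw [Finset.sum_mul]
    refine Finset.sum_congr rfl fun S _ => ?_
    rw [Finset.sum_mul]
    refine Finset.sum_congr rfl fun T _ => ?_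
    rw [Finset.mul_sum]
    refine Finset.sum_congr rfl fun S' _ => ?_
    rw [Finset.mul_sum]
    refine Finset.sum_congr rfl fun T' _ => ?_
    rw [abs_mul, mul_one]
  rw [e2]
  exact mul_le_mul hc hd (Finset.sum_nonneg fun _ _ => Finset.sum_nonneg fun _ _ => abs_nonneg _)
    hC

theorem Wx.lift {K : ℕ} {C : ℝ} {f : ℕ → ℕ → ℝ} (hf : Wx K C f) : Wx (K + 1) C f := by
  classical
  obtain ⟨c, hc, hf⟩ := hf
  have hsub : (range K).powerset ⊆ (range (K + 1)).powerset :=
    Finset.powerset_mono.2 (Finset.range_subset_range.2 (Nat.le_succ K))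
  refine ⟨fun S T => if S ∈ (range K).powerset ∧ T ∈ (range K).powerset then c S T else 0, ?_,
    fun k t => ?_⟩
  · refine le_trans (le_of_eq ?_) hc
    symm
    refine (Finset.sum_congr rfl fun S hS => ?_).trans
      (Finset.sum_subset hsub fun S _ hS => Finset.sum_eq_zero fun T _ => by
        beta_reduce
        rw [if_neg (fun h => hS h.1), abs_zero])
    refine (Finset.sum_congr rfl fun T hT => ?_).trans
      (Finset.sum_subset hsub fun T _ hT => by
        beta_reduce
        rw [if_neg (fun h => hT h.2), abs_zero])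
    beta_reduce
    rw [if_pos ⟨hS, hT⟩]
  · rw [hf]
    refine (Finset.sum_congr rfl fun S hS => ?_).trans
      (Finset.sum_subset hsub fun S _ hS => Finset.sum_eq_zero fun T _ => by
        beta_reduce
        rw [if_neg (fun h => hS h.1), zero_mul])
    refine (Finset.sum_congr rfl fun T hT => ?_).trans
      (Finset.sum_subset hsub fun T _ hT => by
        beta_reduce
        rw [if_neg (fun h => hT h.2), zero_mul])
    beta_reduce
    rw [if_pos ⟨hS, hT⟩]

/-- the sign of a bit -/
theorem wal_bit (b k : ℕ) : wal {b} k = if k.testBit b then -1 else 1 := by simp [wal]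

open Classical in
/-- **truncation**: `1[k < t]` for `k, t < 2 ^ K` -/
theorem wal_trunc (K : ℕ) : ∃ f : ℕ → ℕ → ℝ, Wx K K f ∧
    ∀ k t : ℕ, f k t = if k % 2 ^ K < t % 2 ^ K then 1 else 0 := by
  induction K with
  | zero =>
    refine ⟨fun _ _ => 0, ⟨fun _ _ => 0, by simp, fun k t => by simp⟩, fun k t => ?_⟩
    rw [pow_zero, Nat.mod_one, Nat.mod_one, if_neg (lt_irrefl 0)]
  | succ K ih =>
    obtain ⟨f, hf, hfe⟩ := ih
    have hK : ({K} : Finset ℕ) ⊆ range (K + 1) := by
      rw [Finset.singleton_subset_iff, mem_range]; omega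
    -- the indicator of `k_K = 0`, `t_K = 1`
    have h1 : Wx (K + 1) 1 (fun k t => 1 / 4 * (wal ∅ k * wal ∅ t) + (1 / 4 * (wal {K} k * wal ∅ t) +
        (-(1 / 4) * (wal ∅ k * wal {K} t) + -(1 / 4) * (wal {K} k * wal {K} t)))) := by
      have s1 := (Wx.single (K := K + 1) (Finset.empty_subset _) (Finset.empty_subset _)).smul
        (1 / 4)
      have s2 := (Wx.single (K := K + 1) hK (Finset.empty_subset _)).smul (1 / 4)
      have s3 := (Wx.single (K := K + 1) (Finset.empty_subset _) hK).smul (-(1 / 4))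
      have s4 := (Wx.single (K := K + 1) hK hK).smul (-(1 / 4))
      refine (s1.add (s2.add (s3.add s4))).mono ?_
      norm_num
    -- the indicator of `k_K = t_K`
    have h2 : Wx (K + 1) 1 (fun k t => 1 / 2 * (wal ∅ k * wal ∅ t) +
        1 / 2 * (wal {K} k * wal {K} t)) := by
      have s1 := (Wx.single (K := K + 1) (Finset.empty_subset _) (Finset.empty_subset _)).smul
        (1 / 2)
      have s4 := (Wx.single (K := K + 1) hK hK).smul (1 / 2)
      refine (s1.add s4).mono ?_
      norm_num
    refine ⟨_, (h1.add (h2.mul (by norm_num) hf.lift)).mono (by push_cast; linarith),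
      fun k t => ?_⟩
    simp only [wal_empty, wal_bit]
    rw [hfe]
    have hms : ∀ x : ℕ, x % 2 ^ (K + 1) = x % 2 ^ K + 2 ^ K * (x.testBit K).toNat := by
      intro x
      rw [Nat.mod_pow_succ, Nat.toNat_testBit]
    have hk := hms k
    have ht := hms t
    have hkl : k % 2 ^ K < 2 ^ K := Nat.mod_lt _ (by positivity)
    have htl : t % 2 ^ K < 2 ^ K := Nat.mod_lt _ (by positivity)
    rw [hk, ht]
    cases hbk : k.testBit K <;> cases hbt : t.testBit K
    · simp only [Bool.false_eq_true, if_false, Bool.toNat_false, mul_zero, add_zero]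
      norm_num
    · have h3 : k % 2 ^ K + 2 ^ K * Bool.toNat false < t % 2 ^ K + 2 ^ K * Bool.toNat true := by
        simp only [Bool.toNat_false, Bool.toNat_true, mul_zero, mul_one, add_zero]
        omega
      rw [if_pos h3]
      simp only [Bool.false_eq_true, if_false, if_true]
      norm_num
    · have h3 : ¬ (k % 2 ^ K + 2 ^ K * Bool.toNat true < t % 2 ^ K + 2 ^ K * Bool.toNat false) := by
        simp only [Bool.toNat_false, Bool.toNat_true, mul_zero, mul_one, add_zero]
        omega
      rw [if_neg h3]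
      simp only [Bool.false_eq_true, if_false, if_true]
      norm_num
    · have h3 : (k % 2 ^ K + 2 ^ K * Bool.toNat true < t % 2 ^ K + 2 ^ K * Bool.toNat true) ↔
          k % 2 ^ K < t % 2 ^ K := by
        simp only [Bool.toNat_true, mul_one]
        omega
      rw [if_congr h3 rfl rfl]
      simp only [if_true]
      ring

end Pool.Agent.Lib.MP_a7b2aa_an.SHX
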