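import Pool.Agent.Lib.MP_a7b2aa_an.SHX.StmtsM65
import Pool.Agent.Lib.MP_a7b2aa_an.SHX.StmtsEnd30
import Pool.Agent.Lib.MP_a7b2aa_an.SHX.PathD23
import Pool.Agent.Lib.MP_a7b2aa_an.SHX.Wal38

/-!
SHX, track ALL (chair: helper65): MP_a7b2aa_an, every dimension `d = m + 1 ≥ 3`, all coefficients,
the exponent `(d - 2) / 2 + ε`. Definitions and statements (as `Prop`s) of the modules.
Blueprint: SHX_65.md.

A class is `h : Fin (m + 1) → ℕ`; `upc h e`: one more digit of the string `e`. Functions of the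
class at a fixed point are `F : (Fin (m + 1) → ℕ) → ℝ`; the own strings `C` of `F` carry an index,
the other strings are times. `K` bits, `L < 2 ^ K`.
-/

set_option autoImplicit false

namespace Pool.Agent.SHXA

open Finset Pool.Agent.SB3 Pool.Agent.SBT Pool.Agent.SBD Pool.Agent.SHD Pool.Agent.SHX
open Pool.Agent.Lib.MP_a7b2aa_an.SHX

/-! ### part 0: functionals -/

/-- weights on `l ≤ H`: mode `0` index, mode `1` time (summation by parts), otherwise top -/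
noncomputable def wt (H d : ℕ) (S : Finset ℕ) (l : ℕ) : ℝ :=
  if d = 0 then wal S l
  else if d = 1 then (if 1 ≤ l then wal S (l - 1) else 0) - (if l < H then wal S l else 0)
  else if l = H then 1 else 0

/-- one string -/
noncomputable def Fu (H d : ℕ) (S : Finset ℕ) (F : ℕ → ℝ) : ℝ :=
  ∑ l ∈ range (H + 1), wt H d S l * F l

/-- the strings in `Q` run up to `H` (inclusive), the others are as in `c` -/
def bx {m : ℕ} (H : Fin (m + 1) → ℕ) (Q : Finset (Fin (m + 1))) (c : Fin (m + 1) → ℕ) :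
    Finset (Fin (m + 1) → ℕ) :=
  Fintype.piFinset (fun a => if a ∈ Q then range (H a + 1) else {c a})

/-- several strings: the strings in `Q` are summed with their weights -/
noncomputable def Ph {m : ℕ} (H d : Fin (m + 1) → ℕ) (w : Fin (m + 1) → Finset ℕ)
    (Q : Finset (Fin (m + 1))) (F : (Fin (m + 1) → ℕ) → ℝ) (c : Fin (m + 1) → ℕ) : ℝ :=
  ∑ l ∈ bx H Q c, (∏ j ∈ Q, wt (H j) (d j) (w j) (l j)) * F l

/-- all strings in time mode -/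
def tm {m : ℕ} : Fin (m + 1) → ℕ := fun _ => 1

/-- the price of one truncation -/
noncomputable def T0 (K : ℕ) : ℝ := 2 * (K : ℝ) + 1

/-- `F` vanishes if the time of a string outside `C` is `0` -/
def Van {m : ℕ} (C : Finset (Fin (m + 1))) (F : (Fin (m + 1) → ℕ) → ℝ) : Prop :=
  ∀ c p, p ∉ C → c p = 0 → F c = 0

/-- `F` depends only on the strings in `C` -/
def Dep {m : ℕ} (C : Finset (Fin (m + 1))) (F : (Fin (m + 1) → ℕ) → ℝ) : Prop :=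
  ∀ c j t, j ∉ C → F (Function.update c j t) = F c

/-- WALX: expansions, one string -/
structure Walx (K H : ℕ) : Prop where
  tie : ∃ c : Finset ℕ → Finset ℕ → ℝ,
    ∑ S ∈ (range K).powerset, ∑ T ∈ (range K).powerset, |c S T| ≤ T0 K ∧
    ∀ G : ℕ → ℝ, G 0 = 0 → ∀ x ≤ H, G x = ∑ S ∈ (range K).powerset, ∑ T ∈ (range K).powerset,
      c S T * (wal S x * Fu H 1 T G)
  star : ∀ (d : ℕ) (S0 : Finset ℕ), S0 ⊆ range K → ∃ c : Finset ℕ → Finset ℕ → ℝ,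
    ∑ S ∈ (range K).powerset, ∑ T ∈ (range K).powerset, |c S T| ≤ T0 K ∧
    ∀ F G : ℕ → ℝ, G 0 = 0 → (d = 1 → F 0 = 0) →
      Fu H d S0 (fun l => F l * G l) = ∑ S ∈ (range K).powerset, ∑ T ∈ (range K).powerset,
        c S T * (Fu H d S F * Fu H 1 T G)
  le : ∀ (d : ℕ) (S0 : Finset ℕ), S0 ⊆ range K → ∃ c : Finset ℕ → Finset ℕ → ℝ,
    ∑ S ∈ (range K).powerset, ∑ T ∈ (range K).powerset, |c S T| ≤ T0 K ∧
    ∀ F : ℕ → ℝ, (d = 1 → F 0 = 0) → ∀ k < H,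
      Fu H d S0 (fun l => if l ≤ k then F l else 0) =
        ∑ S ∈ (range K).powerset, ∑ T ∈ (range K).powerset, c S T * (wal S k * Fu H d T F)
  top : ∀ G : ℕ → ℝ, G 0 = 0 → Fu H 1 ∅ G = G H
  parts : ∀ (S : Finset ℕ) (G : ℕ → ℝ), G 0 = 0 →
    Fu H 1 S G = ∑ k ∈ range H, wal S k * (G (k + 1) - G k)

/-- WALX (from wal_trunc, wal_mul) -/
def StWalx : Prop := ∀ K H : ℕ, H < 2 ^ K → Walx K H

/-- PHI: basic facts on the functionals -/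
structure PhF (m : ℕ) : Prop where
  empty : ∀ (H d : Fin (m + 1) → ℕ) (w : Fin (m + 1) → Finset ℕ) (F : (Fin (m + 1) → ℕ) → ℝ)
    (c : Fin (m + 1) → ℕ), Ph H d w ∅ F c = F c
  ins : ∀ (H d : Fin (m + 1) → ℕ) (w : Fin (m + 1) → Finset ℕ) (Q : Finset (Fin (m + 1)))
    (j : Fin (m + 1)) (F : (Fin (m + 1) → ℕ) → ℝ) (c : Fin (m + 1) → ℕ), j ∉ Q →
    Ph H d w (insert j Q) F c =
      Fu (H j) (d j) (w j) (fun l => Ph H d w Q F (Function.update c j l))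
  ins' : ∀ (H d : Fin (m + 1) → ℕ) (w : Fin (m + 1) → Finset ℕ) (Q : Finset (Fin (m + 1)))
    (j : Fin (m + 1)) (F : (Fin (m + 1) → ℕ) → ℝ) (c : Fin (m + 1) → ℕ), j ∉ Q →
    Ph H d w (insert j Q) F c =
      Ph H d w Q (fun c' => Fu (H j) (d j) (w j) (fun l => F (Function.update c' j l))) c
  union : ∀ (H d : Fin (m + 1) → ℕ) (w : Fin (m + 1) → Finset ℕ) (Q Q' : Finset (Fin (m + 1)))
    (F : (Fin (m + 1) → ℕ) → ℝ) (c : Fin (m + 1) → ℕ), Disjoint Q Q' →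
    Ph H d w (Q ∪ Q') F c = Ph H d w Q (Ph H d w Q' F) c
  off : ∀ (H d : Fin (m + 1) → ℕ) (w : Fin (m + 1) → Finset ℕ) (Q : Finset (Fin (m + 1)))
    (j : Fin (m + 1)) (t : ℕ) (F : (Fin (m + 1) → ℕ) → ℝ) (c : Fin (m + 1) → ℕ), j ∈ Q →
    Ph H d w Q F (Function.update c j t) = Ph H d w Q F c
  dep : ∀ (H d : Fin (m + 1) → ℕ) (w : Fin (m + 1) → Finset ℕ) (Q C : Finset (Fin (m + 1)))
    (F : (Fin (m + 1) → ℕ) → ℝ), Dep C F → Dep (C \ Q) (Ph H d w Q F)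
  cgw : ∀ (H H' d d' : Fin (m + 1) → ℕ) (w w' : Fin (m + 1) → Finset ℕ)
    (Q : Finset (Fin (m + 1))) (F : (Fin (m + 1) → ℕ) → ℝ) (c : Fin (m + 1) → ℕ),
    (∀ j ∈ Q, H j = H' j ∧ d j = d' j ∧ w j = w' j) → Ph H d w Q F c = Ph H' d' w' Q F c
  cg : ∀ (H d : Fin (m + 1) → ℕ) (w : Fin (m + 1) → Finset ℕ) (Q : Finset (Fin (m + 1)))
    (F G : (Fin (m + 1) → ℕ) → ℝ) (c : Fin (m + 1) → ℕ), (∀ l ∈ bx H Q c, F l = G l) →
    Ph H d w Q F c = Ph H d w Q G c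
  add : ∀ (H d : Fin (m + 1) → ℕ) (w : Fin (m + 1) → Finset ℕ) (Q : Finset (Fin (m + 1)))
    (F G : (Fin (m + 1) → ℕ) → ℝ) (c : Fin (m + 1) → ℕ),
    Ph H d w Q (fun l => F l + G l) c = Ph H d w Q F c + Ph H d w Q G c
  smul : ∀ (H d : Fin (m + 1) → ℕ) (w : Fin (m + 1) → Finset ℕ) (Q : Finset (Fin (m + 1)))
    (r : ℝ) (F : (Fin (m + 1) → ℕ) → ℝ) (c : Fin (m + 1) → ℕ),
    Ph H d w Q (fun l => r * F l) c = r * Ph H d w Q F c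
  sum : ∀ (ι : Type) (s : Finset ι) (H d : Fin (m + 1) → ℕ) (w : Fin (m + 1) → Finset ℕ)
    (Q : Finset (Fin (m + 1))) (F : ι → (Fin (m + 1) → ℕ) → ℝ) (c : Fin (m + 1) → ℕ),
    Ph H d w Q (fun l => ∑ i ∈ s, F i l) c = ∑ i ∈ s, Ph H d w Q (F i) c
  mul : ∀ (H d : Fin (m + 1) → ℕ) (w : Fin (m + 1) → Finset ℕ) (Q : Finset (Fin (m + 1)))
    (F G : (Fin (m + 1) → ℕ) → ℝ) (c : Fin (m + 1) → ℕ), Dep Qᶜ G →
    Ph H d w Q (fun l => G l * F l) c = G c * Ph H d w Q F c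

/-- PHI -/
def StPhi : Prop := ∀ m : ℕ, PhF m

/-- MST: expansions, several strings -/
structure MstF (m : ℕ) : Prop where
  tie : ∀ (K : ℕ) (H : Fin (m + 1) → ℕ) (Q : Finset (Fin (m + 1))), (∀ j, H j < 2 ^ K) →
    ∃ (I : Finset ((Fin (m + 1) → Finset ℕ) × (Fin (m + 1) → Finset ℕ)))
      (cf : (Fin (m + 1) → Finset ℕ) × (Fin (m + 1) → Finset ℕ) → ℝ),
      ∑ i ∈ I, |cf i| ≤ T0 K ^ Q.card ∧ (∀ i ∈ I, ∀ a, i.1 a ⊆ range K ∧ i.2 a ⊆ range K) ∧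
      ∀ G : (Fin (m + 1) → ℕ) → ℝ, (∀ j ∈ Q, ∀ c, c j = 0 → G c = 0) →
        ∀ c : Fin (m + 1) → ℕ, (∀ j ∈ Q, c j ≤ H j) →
        G c = ∑ i ∈ I, cf i * ((∏ j ∈ Q, wal (i.1 j) (c j)) * Ph H tm i.2 Q G c)
  star : ∀ (K : ℕ) (H d : Fin (m + 1) → ℕ) (w : Fin (m + 1) → Finset ℕ)
    (Q : Finset (Fin (m + 1))), (∀ j, H j < 2 ^ K) → (∀ j, w j ⊆ range K) →
    ∃ (I : Finset ((Fin (m + 1) → Finset ℕ) × (Fin (m + 1) → Finset ℕ)))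
      (cf : (Fin (m + 1) → Finset ℕ) × (Fin (m + 1) → Finset ℕ) → ℝ),
      ∑ i ∈ I, |cf i| ≤ T0 K ^ Q.card ∧ (∀ i ∈ I, ∀ a, i.1 a ⊆ range K ∧ i.2 a ⊆ range K) ∧
      ∀ F G : (Fin (m + 1) → ℕ) → ℝ, (∀ j ∈ Q, ∀ c, c j = 0 → G c = 0) →
        (∀ j ∈ Q, d j = 1 → ∀ c, c j = 0 → F c = 0) → ∀ c : Fin (m + 1) → ℕ,
        Ph H d w Q (fun l => F l * G l) c =
          ∑ i ∈ I, cf i * (Ph H d i.1 Q F c * Ph H tm i.2 Q G c)

/-- MST (from WALX, PHI) -/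
def StMst : Prop := ∀ m : ℕ, MstF m

/-! ### part I: flattening norms -/

/-- the matrix with rows `C1` and columns `C2` (all other strings at `0`) has norm at most `b` -/
def NX {m : ℕ} (H : Fin (m + 1) → ℕ) (C1 C2 : Finset (Fin (m + 1))) (b : ℝ)
    (F : (Fin (m + 1) → ℕ) → ℝ) : Prop :=
  ∀ u : (Fin (m + 1) → ℕ) → ℝ,
    ∑ x ∈ bx H C1 0, (∑ y ∈ bx H C2 0, F (x + y) * u y) ^ 2 ≤ b ^ 2 * ∑ y ∈ bx H C2 0, u y ^ 2

/-- flattening norms, own strings `C` (all other strings at `0`) -/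
structure FN {m : ℕ} (H : Fin (m + 1) → ℕ) (C : Finset (Fin (m + 1))) (b : ℝ)
    (F : (Fin (m + 1) → ℕ) → ℝ) : Prop where
  sup : ∀ x ∈ bx H C 0, |F x| ≤ b
  mat : ∀ C1 C2 : Finset (Fin (m + 1)), Disjoint C1 C2 → C1 ∪ C2 = C → C1.Nonempty →
    C2.Nonempty → NX H C1 C2 b F

/-- norms of a function of the class with own strings `C`, the other strings are times -/
def Nm {m : ℕ} (K : ℕ) (H : Fin (m + 1) → ℕ) (C : Finset (Fin (m + 1))) (b : ℝ)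
    (F : (Fin (m + 1) → ℕ) → ℝ) : Prop :=
  ∀ w : Fin (m + 1) → Finset ℕ, (∀ a, w a ⊆ range K) → FN H C b (Ph H tm w Cᶜ F)

/-- ARR: arrays (no times) -/
structure ArrF (m : ℕ) : Prop where
  mono : ∀ (H : Fin (m + 1) → ℕ) (C : Finset (Fin (m + 1))) (a b : ℝ)
    (F : (Fin (m + 1) → ℕ) → ℝ), 0 ≤ a → a ≤ b → FN H C a F → FN H C b F
  add : ∀ (H : Fin (m + 1) → ℕ) (C : Finset (Fin (m + 1))) (a b : ℝ)
    (F G : (Fin (m + 1) → ℕ) → ℝ), 0 ≤ a → 0 ≤ b → FN H C a F → FN H C b G →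
    FN H C (a + b) (fun c => F c + G c)
  smul : ∀ (H : Fin (m + 1) → ℕ) (C : Finset (Fin (m + 1))) (a r : ℝ)
    (F : (Fin (m + 1) → ℕ) → ℝ), 0 ≤ a → FN H C a F → FN H C (|r| * a) (fun c => r * F c)
  cg : ∀ (H : Fin (m + 1) → ℕ) (C : Finset (Fin (m + 1))) (a : ℝ)
    (F G : (Fin (m + 1) → ℕ) → ℝ), (∀ c ∈ bx H C 0, F c = G c) → FN H C a F → FN H C a G
  uni : ∀ (H : Fin (m + 1) → ℕ) (C : Finset (Fin (m + 1))) (a : ℝ) (j : Fin (m + 1))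
    (μ : ℕ → ℝ) (F : (Fin (m + 1) → ℕ) → ℝ), 0 ≤ a → (∀ n, |μ n| ≤ 1) → FN H C a F →
    FN H C a (fun c => μ (c j) * F c)
  tr : ∀ (H : Fin (m + 1) → ℕ) (C1 C2 : Finset (Fin (m + 1))) (a : ℝ)
    (F : (Fin (m + 1) → ℕ) → ℝ), 0 ≤ a → NX H C1 C2 a F → NX H C2 C1 a F
  had : ∀ (H : Fin (m + 1) → ℕ) (e : Fin (m + 1)) (C C' : Finset (Fin (m + 1))) (a a' : ℝ)
    (F G : (Fin (m + 1) → ℕ) → ℝ), e ∉ C → e ∉ C' → Disjoint C C' → 0 ≤ a → 0 ≤ a' →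
    Dep (insert e C) F → Dep (insert e C') G → FN H (insert e C) a F →
    FN H (insert e C') a' G → FN H (insert e (C ∪ C')) (a * a') (fun c => F c * G c)
  con : ∀ (H : Fin (m + 1) → ℕ) (e : Fin (m + 1)) (C C' : Finset (Fin (m + 1))) (a a' : ℝ)
    (μ : ℕ → ℝ) (F G : (Fin (m + 1) → ℕ) → ℝ), e ∉ C → e ∉ C' → Disjoint C C' →
    C.Nonempty → C'.Nonempty → 0 ≤ a → 0 ≤ a' → (∀ n, |μ n| ≤ 1) →
    Dep (insert e C) F → Dep (insert e C') G → FN H (insert e C) a F →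
    FN H (insert e C') a' G → FN H (C ∪ C') (a * a')
      (fun c => ∑ r ∈ range (H e + 1), μ r * (F (Function.update c e r) * G (Function.update c e r)))

/-- ARR -/
def StArr : Prop := ∀ m : ℕ, ArrF m

/-- PROD: products with times, one common own string `e` (from MST, PHI, ARR) -/
structure PrdF (m : ℕ) : Prop where
  had : ∀ (K : ℕ) (H : Fin (m + 1) → ℕ) (e : Fin (m + 1)) (C C' : Finset (Fin (m + 1)))
    (a a' : ℝ) (F G : (Fin (m + 1) → ℕ) → ℝ), (∀ j, H j < 2 ^ K) → e ∉ C → e ∉ C' →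
    Disjoint C C' → 0 ≤ a → 0 ≤ a' → Van (insert e C) F → Van (insert e C') G →
    Nm K H (insert e C) a F → Nm K H (insert e C') a' G →
    Nm K H (insert e (C ∪ C')) (T0 K ^ m * (a * a')) (fun c => F c * G c)
  con : ∀ (K : ℕ) (H : Fin (m + 1) → ℕ) (e : Fin (m + 1)) (C C' : Finset (Fin (m + 1)))
    (a a' : ℝ) (μ : ℕ → ℝ) (w : Fin (m + 1) → Finset ℕ) (F G : (Fin (m + 1) → ℕ) → ℝ),
    (∀ j, H j < 2 ^ K) → e ∉ C → e ∉ C' → Disjoint C C' → C.Nonempty → C'.Nonempty →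
    0 ≤ a → 0 ≤ a' → (∀ n, |μ n| ≤ 1) → (∀ j, w j ⊆ range K) →
    Van (insert e C) F → Van (insert e C') G →
    Nm K H (insert e C) a F → Nm K H (insert e C') a' G →
    FN H (C ∪ C') (T0 K ^ m * (a * a')) (fun c => ∑ r ∈ range (H e + 1), μ r *
      Ph H tm w (insert e (C ∪ C'))ᶜ (fun l => F l * G l) (Function.update c e r))
  sup : ∀ (K : ℕ) (H : Fin (m + 1) → ℕ) (C : Finset (Fin (m + 1))) (a : ℝ)
    (F : (Fin (m + 1) → ℕ) → ℝ), (∀ j, H j < 2 ^ K) → 0 ≤ a → Van C F → Nm K H C a F →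
    ∀ c, (∀ j, c j ≤ H j) → |F c| ≤ T0 K ^ (m + 1) * a

/-- PROD -/
def StPrd : Prop := ∀ m : ℕ, PrdF m

/-! ### part II: the star formula -/

/-- `C` contains the least element of `B` (for `C ⊆ B`) -/
def hd {m : ℕ} (C B : Finset (Fin (m + 1))) : Prop := ∀ x ∈ B, ∃ y ∈ C, y ≤ x

/-- coefficients of `1 / (1 + z G)`, with `n` steps -/
noncomputable def Rn {m : ℕ} (z : ℝ) (g : Finset (Fin (m + 1)) → ℝ) :
    ℕ → Finset (Fin (m + 1)) → ℝ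
  | 0, _ => 1
  | n + 1, D => if D = ∅ then 1 else
      - ∑ C ∈ D.powerset.filter (fun C => C ≠ ∅), z * g C * Rn z g n (D \ C)

/-- coefficients of `1 / (1 + z G)` -/
noncomputable def Rr {m : ℕ} (z : ℝ) (g : Finset (Fin (m + 1)) → ℝ) (D : Finset (Fin (m + 1))) :
    ℝ := Rn z g (m + 1) D

open Classical in
/-- the increment of the cumulant of `B`: mean -/
noncomputable def Vv {m : ℕ} (β : ℝ) (g : Finset (Fin (m + 1)) → ℝ) (B : Finset (Fin (m + 1))) :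
    ℝ :=
  ∑ C ∈ B.powerset.filter (fun C => hd C B ∧ C ≠ B),
    g C * ((Rr (1 / (1 + β)) g (B \ C) - Rr (-(1 / (1 - β))) g (B \ C)) / 2)

open Classical in
/-- the increment of the cumulant of `B`: coefficient of the centred sign -/
noncomputable def Kk {m : ℕ} (β : ℝ) (g : Finset (Fin (m + 1)) → ℝ) (B : Finset (Fin (m + 1))) :
    ℝ :=
  ∑ C ∈ B.powerset.filter (fun C => hd C B),
    g C * ((1 / (1 + β) * Rr (1 / (1 + β)) g (B \ C) +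
      1 / (1 - β) * Rr (-(1 / (1 - β))) g (B \ C)) / 2)

/-- UV: norms of the coefficients of the star formula (from PROD) -/
def StUv : Prop := ∀ m : ℕ, ∃ (C : ℝ) (n : ℕ), 1 ≤ C ∧
  ∀ (K : ℕ) (H : Fin (m + 1) → ℕ) (e : Fin (m + 1)) (b b1 : ℝ)
    (ka : Finset (Fin (m + 1)) → (Fin (m + 1) → ℕ) → ℝ) (B : Finset (Fin (m + 1)))
    (w : Fin (m + 1) → Finset ℕ),
    (∀ j, H j < 2 ^ K) → (∀ j, w j ⊆ range K) → 0 ≤ b → 0 ≤ b1 → C * T0 K ^ n * b ≤ 1 →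
    (∀ D, D.Nonempty → Van D (ka D)) → (∀ D, D.Nonempty → Nm K H D b (ka D)) →
    e ∉ B → B.Nonempty → Nm K H (insert e B) b1 (ka (insert e B)) →
    Nm K H (insert e B) (2 * b1 + C * T0 K ^ n * b ^ 2)
      (fun c => Kk (ka {e} c) (fun D => ka (insert e D) c) B) ∧
    Van (insert e B) (fun c => Kk (ka {e} c) (fun D => ka (insert e D) c) B) ∧
    Van (insert e B) (fun c => Vv (ka {e} c) (fun D => ka (insert e D) c) B) ∧
    FN H B (C * T0 K ^ n * b ^ 2) (fun c => ∑ r ∈ range (H e + 1), wal (w e) r *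
      Ph H tm w (insert e B)ᶜ (fun l => Vv (ka {e} l) (fun D => ka (insert e D) l) B)
        (Function.update c e r))

/-! ### part III: the exact law -/

/-- the exact law: density, cumulants, top coefficients -/
structure Exact {m L : ℕ} (lam : ℝ) (u : (Fin (m + 1) → ℕ) → Pt m L → ℝ)
    (Z : (Fin (m + 1) → ℕ) → Pt m L → ℝ)
    (ka : Finset (Fin (m + 1)) → (Fin (m + 1) → ℕ) → Pt m L → ℝ)
    (W : (Fin (m + 1) → ℕ) → Pt m L → ℝ) : Prop where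
  msZ : ∀ h, Ms h (Z h)
  msk : ∀ B h, Ms h (ka B h)
  msW : ∀ h, Ms h (W h)
  zero : ∀ h ω, (∃ a, h a = 0) → Z h ω = 1
  top : ∀ h ω, ka univ h ω = lam * u h ω
  van : ∀ (B : Finset (Fin (m + 1))) (h : Fin (m + 1) → ℕ) (ω : Pt m L) (p : Fin (m + 1)),
    B.Nonempty → p ∉ B → h p = 0 → ka B h ω = 0
  step : ∀ (h : Fin (m + 1) → ℕ) (e : Fin (m + 1)) (ω : Pt m L), Z h ω ≠ 0 →
    Z (upc h e) ω = Z h ω * (1 + sb e (h e) ω * ka {e} h ω)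
  star : ∀ (B : Finset (Fin (m + 1))) (e : Fin (m + 1)) (h : Fin (m + 1) → ℕ) (ω : Pt m L),
    B.Nonempty → e ∉ B → Z h ω ≠ 0 → |ka {e} h ω| < 1 →
    ka B (upc h e) ω = ka B h ω + Vv (ka {e} h ω) (fun C => ka (insert e C) h ω) B +
      Kk (ka {e} h ω) (fun C => ka (insert e C) h ω) B * (sb e (h e) ω - ka {e} h ω)
  coef : ∀ (q : Fin (m + 1) → ℕ) (ω : Pt m L), (∀ a, q a < L) →
    EE q (fun ω' => ps univ q ω' * Z (fun a => q a + 1) ω') ω = W q ω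

/-- the classes up to the band -/
structure Near {m L : ℕ} (N R : ℕ) (c lam : ℝ) (u : (Fin (m + 1) → ℕ) → Pt m L → ℝ)
    (Z : (Fin (m + 1) → ℕ) → Pt m L → ℝ) (W : (Fin (m + 1) → ℕ) → Pt m L → ℝ) : Prop where
  w : ∀ (q : Fin (m + 1) → ℕ) (ω : Pt m L), ∑ a, q a ≤ N + R → |W q ω - lam * u q ω| ≤ c * lam ^ 2
  z : ∀ (q : Fin (m + 1) → ℕ) (ω : Pt m L), ∑ a, q a ≤ N + R + (m + 1) →
    1 / 2 ≤ Z q ω ∧ Z q ω ≤ 2

/-- EXACT: existence of the exact law; sizes up to the band -/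
def StExact : Prop := ∀ m : ℕ, ∃ (C : ℝ) (n : ℕ), 1 ≤ C ∧
  ∀ (L N R : ℕ) (lam : ℝ) (u : (Fin (m + 1) → ℕ) → Pt m L → ℝ), ArF N R u → 0 ≤ lam →
    ∃ (Z : (Fin (m + 1) → ℕ) → Pt m L → ℝ)
      (ka : Finset (Fin (m + 1)) → (Fin (m + 1) → ℕ) → Pt m L → ℝ)
      (W : (Fin (m + 1) → ℕ) → Pt m L → ℝ), Exact lam u Z ka W ∧
      (C * ((R : ℝ) + 1) ^ n * lam ≤ 1 → Near N R (C * ((R : ℝ) + 1) ^ n) lam u Z W)

/-! ### part IV: good classes -/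

/-- good classes: all norms of all cumulants are small -/
def Gk {m L : ℕ} (K : ℕ) (bs : ℕ → ℝ)
    (ka : Finset (Fin (m + 1)) → (Fin (m + 1) → ℕ) → Pt m L → ℝ) (h : Fin (m + 1) → ℕ)
    (ω : Pt m L) : Prop :=
  ∀ B : Finset (Fin (m + 1)), B.Nonempty → Nm K h B (bs B.card) (fun c => ka B c ω)

/-- the sizes -/
structure Sz (m : ℕ) (b η : ℝ) (bs : ℕ → ℝ) : Prop where
  nn : ∀ j, 0 ≤ bs j
  le : ∀ j, bs j ≤ b
  top : η ≤ bs (m + 1)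

/-- TOPU: norms of flat band arrays (Schur's test) -/
def StTopu : Prop := ∀ (m L N R K : ℕ) (lam η : ℝ) (u : (Fin (m + 1) → ℕ) → ℝ)
    (H : Fin (m + 1) → ℕ), 1 ≤ m → (∀ a, H a ≤ L) → 0 ≤ lam → 0 ≤ η → (∀ q, |u q| ≤ 1) →
    (∀ q, R < dst (∑ a, q a) N → u q = 0) →
    (2 * (R : ℝ) + 1) ^ 2 * lam ^ 2 * ((L : ℝ) + 1) ^ (m - 1) ≤ η ^ 2 →
    Nm K H univ η (fun c => lam * u c)

/-- BAYX: the exact law on the good classes (from PROD, TOPU) -/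
def StBayx : Prop := ∀ (m L K N R : ℕ) (lam b η : ℝ) (bs : ℕ → ℝ)
    (u : (Fin (m + 1) → ℕ) → Pt m L → ℝ) (Z : (Fin (m + 1) → ℕ) → Pt m L → ℝ)
    (ka : Finset (Fin (m + 1)) → (Fin (m + 1) → ℕ) → Pt m L → ℝ)
    (W : (Fin (m + 1) → ℕ) → Pt m L → ℝ), 1 ≤ m → 1 ≤ L → L < 2 ^ K → Exact lam u Z ka W →
    ArF N R u → 0 ≤ lam → 0 ≤ η → (2 * (R : ℝ) + 1) ^ 2 * lam ^ 2 * ((L : ℝ) + 1) ^ (m - 1) ≤ η ^ 2 →
    Sz m b η bs → 2 * T0 K ^ (m + 1) * b ≤ 1 →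
    Bay (Gk K bs ka) (fun c h => ka {c} h) Z ∧
    (∀ h ω, (∀ a, h a ≤ L) → Gd (Gk K bs ka) h ω → 0 < Z h ω) ∧
    (∀ h ω, (∀ a, h a ≤ L) → Gl (Gk K bs ka) h ω → 0 < Z h ω)

open Classical in
/-- the mass of the event `E` on the points all of whose classes `< H` are good -/
noncomputable def PP {m L : ℕ} (G : (Fin (m + 1) → ℕ) → Pt m L → Prop)
    (Z : (Fin (m + 1) → ℕ) → Pt m L → ℝ) (H : Fin (m + 1) → ℕ) (E : Pt m L → Prop) : ℝ :=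
  Av (fun ω => if Gl G H ω ∧ E ω then Z H ω else 0)

/-- both square functions of the matrices `M r`, `r < n`, are at most `B` -/
def SQ {X Y : Type} [Fintype X] [Fintype Y] (n : ℕ) (B : ℝ) (M : ℕ → X → Y → ℝ) : Prop :=
  (∀ v : Y → ℝ, ∑ r ∈ range n, ∑ x, (∑ y, M r x y * v y) ^ 2 ≤ B * ∑ y, v y ^ 2) ∧
  (∀ v : X → ℝ, ∑ r ∈ range n, ∑ y, (∑ x, M r x y * v x) ^ 2 ≤ B * ∑ x, v x ^ 2)

/-- FRESH: fresh sums (from MFX, PATHLAW) -/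
def StFresh : Prop := ∀ (n D : ℕ) (ε : ℝ), 0 < ε → ∃ C : ℝ, 1 ≤ C ∧
  ∀ (m L : ℕ) (X Y : Type) [Fintype X] [Fintype Y] [DecidableEq X] [DecidableEq Y]
    (G : (Fin (m + 1) → ℕ) → Pt m L → Prop)
    (be : Fin (m + 1) → (Fin (m + 1) → ℕ) → Pt m L → ℝ)
    (Z : (Fin (m + 1) → ℕ) → Pt m L → ℝ) (H : Fin (m + 1) → ℕ) (f : Fin (m + 1)) (B : ℝ)
    (M : ℕ → X → Y → Pt m L → ℝ), 1 ≤ L → Bay G be Z → (∀ a, H a ≤ L) →
    Fintype.card X ≤ (L + 1) ^ D → Fintype.card Y ≤ (L + 1) ^ D → 0 ≤ B →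
    (∀ r < H f, ∀ x y, Ms (Function.update H f r) (M r x y)) →
    PP G Z H (fun ω => SQ (H f) B (fun r x y => M r x y ω) ∧
      ¬ NB (Matrix.of (fun x y => ∑ r ∈ range (H f),
        (sb f r ω - be f (Function.update H f r) ω) * M r x y ω)) (C * (L : ℝ) ^ ε * B)) ≤
      C / (L + 1) ^ n

/-! ### part V: the chain -/

/-- kernels: active string `f`, modes `d` of the other strings -/
structure Ker {m L : ℕ} {X Y : Type} (H : Fin (m + 1) → ℕ) (f : Fin (m + 1))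
    (d : Fin (m + 1) → ℕ) (Ψ : X → Y → (Fin (m + 1) → ℕ) → Pt m L → ℝ) : Prop where
  ms : ∀ x y c, (∀ a, c a ≤ H a) → (∀ j, j ≠ f → d j ≠ 0 → d j ≠ 1 → c j = H j) →
    Ms c (Ψ x y c)
  van : ∀ x y c j ω, j ≠ f → d j = 1 → c j = 0 → Ψ x y c ω = 0

/-- the matrices of the kernel -/
noncomputable def KM {m L : ℕ} {X Y : Type} (H : Fin (m + 1) → ℕ) (f : Fin (m + 1))
    (d : Fin (m + 1) → ℕ) (w : Fin (m + 1) → Finset ℕ)
    (Ψ : X → Y → (Fin (m + 1) → ℕ) → Pt m L → ℝ) (ω : Pt m L) (r : ℕ) (x : X) (y : Y) : ℝ :=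
  Ph H d w (univ.erase f) (fun c => Ψ x y c ω) (Function.update 0 f r)

/-- the square functions of the kernel -/
def KN {m L : ℕ} {X Y : Type} [Fintype X] [Fintype Y] (K : ℕ) (H : Fin (m + 1) → ℕ)
    (f : Fin (m + 1)) (d : Fin (m + 1) → ℕ) (B : ℝ)
    (Ψ : X → Y → (Fin (m + 1) → ℕ) → Pt m L → ℝ) (ω : Pt m L) : Prop :=
  ∀ w : Fin (m + 1) → Finset ℕ, (∀ a, w a ⊆ range K) → SQ (H f) B (KM H f d w Ψ ω)

/-- the sum of the kernel against the centred signs of the string `f` -/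
noncomputable def SS {m L : ℕ} {X Y : Type}
    (ka : Finset (Fin (m + 1)) → (Fin (m + 1) → ℕ) → Pt m L → ℝ) (H : Fin (m + 1) → ℕ)
    (f : Fin (m + 1)) (d : Fin (m + 1) → ℕ) (w : Fin (m + 1) → Finset ℕ)
    (Ψ : X → Y → (Fin (m + 1) → ℕ) → Pt m L → ℝ) (ω : Pt m L) (x : X) (y : Y) : ℝ :=
  ∑ r ∈ range (H f), Ph H d w (univ.erase f)
    (fun c => Ψ x y c ω * (sb f (c f) ω - ka {f} c ω)) (Function.update 0 f r)

/-- the strings `j < g`, `j ≠ f`, are raised to `H` -/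
def rs {m : ℕ} (H : Fin (m + 1) → ℕ) (f g : Fin (m + 1)) (c : Fin (m + 1) → ℕ) :
    Fin (m + 1) → ℕ := fun j => if j < g ∧ j ≠ f then H j else c j

/-- the modes after the step to `g` -/
def dn {m : ℕ} (f g : Fin (m + 1)) (d : Fin (m + 1) → ℕ) : Fin (m + 1) → ℕ :=
  fun j => if j = f then 0 else if j < g then 2 else d j

/-- the weights after the step to `g` -/
def wn {m : ℕ} (f : Fin (m + 1)) (w : Fin (m + 1) → Finset ℕ) : Fin (m + 1) → Finset ℕ :=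
  fun j => if j = f then ∅ else w j

open Classical in
/-- the kernel after the step to `g`: the strings `j < g`, `j ≠ f` and the truncated string `g` of
`Ψ` are summed, times `κ_{fg} / (1 - β_g ^ 2)` -/
noncomputable def Psn {m L : ℕ} {X Y : Type}
    (ka : Finset (Fin (m + 1)) → (Fin (m + 1) → ℕ) → Pt m L → ℝ) (H : Fin (m + 1) → ℕ)
    (f g : Fin (m + 1)) (d : Fin (m + 1) → ℕ) (w : Fin (m + 1) → Finset ℕ)
    (Ψ : X → Y → (Fin (m + 1) → ℕ) → Pt m L → ℝ) (x : X) (y : Y) (c : Fin (m + 1) → ℕ)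
    (ω : Pt m L) : ℝ :=
  if c f < H f then
    Ph H d w (univ.filter (fun j => j < g ∧ j ≠ f)) (fun c' => Fu (H g) (d g) (w g)
      (fun l => if l ≤ c g then Ψ x y (Function.update c' g l) ω else 0)) c *
      (ka {f, g} c ω * (1 / (1 - ka {g} c ω ^ 2)))
  else 0

/-- RID: the chain step, identity (from PHI) -/
def StRid : Prop := ∀ (m L K : ℕ) (lam : ℝ) (bs : ℕ → ℝ)
    (u Z W : (Fin (m + 1) → ℕ) → Pt m L → ℝ)
    (ka : Finset (Fin (m + 1)) → (Fin (m + 1) → ℕ) → Pt m L → ℝ) (H : Fin (m + 1) → ℕ)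
    (f : Fin (m + 1)) (d : Fin (m + 1) → ℕ) (w : Fin (m + 1) → Finset ℕ) (X Y : Type)
    (Ψ : X → Y → (Fin (m + 1) → ℕ) → Pt m L → ℝ) (ω : Pt m L),
    (∀ a, H a ≤ L) → Exact lam u Z ka W → Bay (Gk K bs ka) (fun c h => ka {c} h) Z →
    (∀ h ω, (∀ a, h a ≤ L) → Gd (Gk K bs ka) h ω → 0 < Z h ω) → Gl (Gk K bs ka) H ω →
    ∀ x y, SS ka H f d w Ψ ω x y =
      ∑ r ∈ range (H f), (sb f r ω - ka {f} (Function.update H f r) ω) * KM H f d w Ψ ω r x y +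
      ∑ g ∈ univ.erase f, SS ka H g (dn f g d) (wn f w) (Psn ka H f g d w Ψ) ω x y

/-- RKER: the chain step, predictability -/
def StRker : Prop := ∀ (m L : ℕ) (lam : ℝ) (u Z W : (Fin (m + 1) → ℕ) → Pt m L → ℝ)
    (ka : Finset (Fin (m + 1)) → (Fin (m + 1) → ℕ) → Pt m L → ℝ) (H : Fin (m + 1) → ℕ)
    (f : Fin (m + 1)) (d : Fin (m + 1) → ℕ) (w : Fin (m + 1) → Finset ℕ) (X Y : Type)
    (Ψ : X → Y → (Fin (m + 1) → ℕ) → Pt m L → ℝ), Exact lam u Z ka W → Ker H f d Ψ →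
    (∀ g, g ≠ f → Ker H g (dn f g d) (Psn ka H f g d w Ψ)) ∧
    (∀ r ≤ H f, ∀ x y, Ms (Function.update H f r) (fun ω => KM H f d w Ψ ω r x y))

/-- RNRM: the chain step, the norm (from MST, PHI, WALX, PROD) -/
def StRnrm : Prop := ∀ m : ℕ, ∃ (C : ℝ) (n : ℕ), 1 ≤ C ∧ ∀ (L K : ℕ) (lam b : ℝ) (bs : ℕ → ℝ)
    (u Z W : (Fin (m + 1) → ℕ) → Pt m L → ℝ)
    (ka : Finset (Fin (m + 1)) → (Fin (m + 1) → ℕ) → Pt m L → ℝ) (H : Fin (m + 1) → ℕ)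
    (f g : Fin (m + 1)) (d : Fin (m + 1) → ℕ) (w : Fin (m + 1) → Finset ℕ) (X Y : Type)
    [Fintype X] [Fintype Y] (Ψ : X → Y → (Fin (m + 1) → ℕ) → Pt m L → ℝ) (ω : Pt m L) (B : ℝ),
    1 ≤ L → L < 2 ^ K → (∀ a, H a ≤ L) → Exact lam u Z ka W → (∀ j, 0 ≤ bs j) →
    (∀ j, bs j ≤ b) → C * T0 K ^ n * b ≤ 1 → Gl (Gk K bs ka) H ω → g ≠ f →
    (∀ a, w a ⊆ range K) → Ker H f d Ψ → 0 ≤ B → KN K H f d B Ψ ω →
    KN K H g (dn f g d) ((C * T0 K ^ n * b) ^ 2 * B) (Psn ka H f g d w Ψ) ω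

/-- RCR: the crude bound (from MST, PHI) -/
def StRcr : Prop := ∀ m : ℕ, ∃ (C : ℝ) (n : ℕ), 1 ≤ C ∧ ∀ (L K : ℕ) (lam b : ℝ) (bs : ℕ → ℝ)
    (u Z W : (Fin (m + 1) → ℕ) → Pt m L → ℝ)
    (ka : Finset (Fin (m + 1)) → (Fin (m + 1) → ℕ) → Pt m L → ℝ) (H : Fin (m + 1) → ℕ)
    (f : Fin (m + 1)) (d : Fin (m + 1) → ℕ) (w : Fin (m + 1) → Finset ℕ) (X Y : Type)
    [Fintype X] [Fintype Y] (Ψ : X → Y → (Fin (m + 1) → ℕ) → Pt m L → ℝ) (ω : Pt m L) (B : ℝ),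
    1 ≤ L → L < 2 ^ K → (∀ a, H a ≤ L) → Exact lam u Z ka W → (∀ j, 0 ≤ bs j) →
    (∀ j, bs j ≤ b) → b ≤ 1 → Gl (Gk K bs ka) H ω →
    (∀ a, w a ⊆ range K) → Ker H f d Ψ → 0 ≤ B → KN K H f d B Ψ ω →
    NB (Matrix.of (fun x y => SS ka H f d w Ψ ω x y)) (C * T0 K ^ n * L * B)

/-- REC: sums against centred signs (from FRESH, RID, RKER, RNRM, RCR), `n0` steps -/
def StRec : Prop := ∀ (m n n0 D : ℕ) (ε : ℝ), 0 < ε → ∃ (C : ℝ) (e : ℕ), 1 ≤ C ∧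
  ∀ (L K : ℕ) (lam b B : ℝ) (bs : ℕ → ℝ) (u Z W : (Fin (m + 1) → ℕ) → Pt m L → ℝ)
    (ka : Finset (Fin (m + 1)) → (Fin (m + 1) → ℕ) → Pt m L → ℝ) (H : Fin (m + 1) → ℕ)
    (f : Fin (m + 1)) (d : Fin (m + 1) → ℕ) (w : Fin (m + 1) → Finset ℕ) (X Y : Type)
    [Fintype X] [Fintype Y] [DecidableEq X] [DecidableEq Y]
    (Ψ : X → Y → (Fin (m + 1) → ℕ) → Pt m L → ℝ), 1 ≤ L → L < 2 ^ K → (∀ a, H a ≤ L) →
    Exact lam u Z ka W → Bay (Gk K bs ka) (fun c h => ka {c} h) Z →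
    (∀ h ω, (∀ a, h a ≤ L) → Gd (Gk K bs ka) h ω → 0 < Z h ω) →
    (∀ j, 0 ≤ bs j) → (∀ j, bs j ≤ b) → C * T0 K ^ e * b ≤ 1 → C * T0 K ^ e * L * (C * T0 K ^ e * b) ^ n0 ≤ 1 →
    Fintype.card X ≤ (L + 1) ^ D → Fintype.card Y ≤ (L + 1) ^ D → (∀ a, w a ⊆ range K) →
    Ker H f d Ψ → 0 ≤ B →
    PP (Gk K bs ka) Z H (fun ω => KN K H f d B Ψ ω ∧
      ¬ NB (Matrix.of (fun x y => SS ka H f d w Ψ ω x y)) (C * (L : ℝ) ^ ε * B)) ≤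
      C / (L + 1) ^ n

/-! ### part VI: propagation and the law -/

/-- GOODX: minimal bad classes are rare (from REC, UV, TOPU, BAYX, PHI, WALX) -/
def StGoodx : Prop := ∀ (m n n0 : ℕ) (ε : ℝ), 1 ≤ m → 0 < ε → ∃ (C : ℝ) (e : ℕ), 1 ≤ C ∧
  ∀ (L K N R : ℕ) (lam b η : ℝ) (bs : ℕ → ℝ) (u Z W : (Fin (m + 1) → ℕ) → Pt m L → ℝ)
    (ka : Finset (Fin (m + 1)) → (Fin (m + 1) → ℕ) → Pt m L → ℝ) (H : Fin (m + 1) → ℕ),
    1 ≤ L → L < 2 ^ K → 2 ^ K ≤ 2 * (L + 1) → (∀ a, H a ≤ L) → ArF N R u → 0 ≤ lam → 0 ≤ η →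
    (2 * (R : ℝ) + 1) ^ 2 * lam ^ 2 * ((L : ℝ) + 1) ^ (m - 1) ≤ η ^ 2 →
    Exact lam u Z ka W → Sz m b η bs → C * T0 K ^ e * b ≤ 1 →
    C * T0 K ^ e * L * (C * T0 K ^ e * b) ^ n0 ≤ 1 →
    (∀ j, 1 ≤ j → j ≤ m → C * T0 K ^ e * (L : ℝ) ^ ε * (bs (j + 1) + b ^ 2) ≤ bs j) →
    PP (Gk K bs ka) Z H (fun ω => ¬ Gk K bs ka H ω) ≤ C / (L + 1) ^ n

/-- LAWXA: the law for every exponent above `(m - 1) / 2` (from GOODX, BAYX, MINBAD, EXACT) -/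
def StLawxAll : Prop := ∀ (m : ℕ) (ε : ℝ), 2 ≤ m → 0 < ε → StLawX m (((m : ℝ) - 1) / 2 + ε)

end Pool.Agent.SHXA
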