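import Pool.Agent.Lib.MP_a7b2aa_an.SHX.ExA25
import Pool.Agent.Lib.MP_a7b2aa_an.SHX.StmtsX65

/-!
SHX, track ALL (helper25): module EXACT, the star formula, the exact law.
-/

set_option autoImplicit false

open Finset

namespace Pool.Agent.SHX.Ex25

open Pool.Agent.SB3 Pool.Agent.SBT Pool.Agent.SBD Pool.Agent.SHD Pool.Agent.SHX Pool.Agent.SHXA

variable {m L : ℕ}

theorem Rn_stable (z : ℝ) (g : Finset (Fin (m + 1)) → ℝ) (n : ℕ) :
    ∀ (n' : ℕ) (D : Finset (Fin (m + 1))), D.card ≤ n → D.card ≤ n' → Rn z g n D = Rn z g n' D := by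
  have h0 : ∀ n, Rn z g n ∅ = 1 := by
    intro n
    cases n with
    | zero => rfl
    | succ n =>
      show (if (∅ : Finset (Fin (m + 1))) = ∅ then (1 : ℝ) else _) = 1
      rw [if_pos rfl]
  induction n with
  | zero =>
    intro n' D h1 _
    have : D = ∅ := Finset.card_eq_zero.1 (by omega)
    rw [this, h0, h0]
  | succ n ih =>
    intro n' D h1 h2
    by_cases hD : D = ∅
    · rw [hD, h0, h0]
    · have hc : 0 < D.card := Finset.card_pos.2 (Finset.nonempty_iff_ne_empty.2 hD)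
      obtain ⟨k, rfl⟩ : ∃ k, n' = k + 1 := ⟨n' - 1, by omega⟩
      show (if D = ∅ then (1 : ℝ) else
        - ∑ C ∈ D.powerset.filter (fun C => C ≠ ∅), z * g C * Rn z g n (D \ C)) =
        (if D = ∅ then (1 : ℝ) else
        - ∑ C ∈ D.powerset.filter (fun C => C ≠ ∅), z * g C * Rn z g k (D \ C))
      rw [if_neg hD, if_neg hD]
      congr 1
      refine Finset.sum_congr rfl fun C hC => ?_
      rw [Finset.mem_filter, Finset.mem_powerset] at hC
      have h3 : (D \ C).card < D.card := by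
        apply Finset.card_lt_card
        refine ⟨Finset.sdiff_subset, fun hh => ?_⟩
        obtain ⟨a, ha⟩ := Finset.nonempty_iff_ne_empty.2 hC.2
        exact (Finset.mem_sdiff.1 (hh (hC.1 ha))).2 ha
      rw [ih k (D \ C) (by omega) (by omega)]

theorem Rr_empty (z : ℝ) (g : Finset (Fin (m + 1)) → ℝ) : Rr z g ∅ = 1 := by
  show Rn z g (m + 1) ∅ = 1
  rw [Rn, if_pos rfl]

theorem Rr_rec (z : ℝ) (g : Finset (Fin (m + 1)) → ℝ) {D : Finset (Fin (m + 1))} (hD : D ≠ ∅) :
    Rr z g D = - ∑ C ∈ D.powerset.filter (fun C => C ≠ ∅), z * g C * Rr z g (D \ C) := by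
  show (if D = ∅ then (1 : ℝ) else
        - ∑ C ∈ D.powerset.filter (fun C => C ≠ ∅), z * g C * Rn z g m (D \ C)) = _
  rw [if_neg hD]
  congr 1
  refine Finset.sum_congr rfl fun C hC => ?_
  rw [Finset.mem_filter, Finset.mem_powerset] at hC
  have h3 : (D \ C).card < D.card := by
    apply Finset.card_lt_card
    refine ⟨Finset.sdiff_subset, fun hh => ?_⟩
    obtain ⟨a, ha⟩ := Finset.nonempty_iff_ne_empty.2 hC.2
    exact (Finset.mem_sdiff.1 (hh (hC.1 ha))).2 ha
  have h4 : D.card ≤ m + 1 := by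
    have := Finset.card_le_univ D
    rwa [Fintype.card_fin] at this
  unfold Rr
  rw [Rn_stable z g m (m + 1) (D \ C) (by omega) (by omega)]

/-- the inverse, away from `e` -/
noncomputable def RR (e : Fin (m + 1)) (z : ℝ) (g : Finset (Fin (m + 1)) → ℝ) :
    SC (Fin (m + 1)) := fun D => if e ∈ D then 0 else Rr z g D

noncomputable def xx (e : Fin (m + 1)) (z : ℝ) (g : Finset (Fin (m + 1)) → ℝ) :
    SC (Fin (m + 1)) := fun B => if e ∈ B ∨ B = ∅ then 0 else z * g B

theorem RR_inv (e : Fin (m + 1)) (z : ℝ) (g : Finset (Fin (m + 1)) → ℝ) :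
    RR e z g * (1 + xx e z g) = 1 := by
  rw [mul_add, mul_one, mul_comm (RR e z g) (xx e z g)]
  funext A
  rw [SC.add_apply, SC.mul_apply, SC.one_apply]
  by_cases heA : e ∈ A
  · have hA : A ≠ ∅ := Finset.ne_empty_of_mem heA
    rw [if_neg hA]
    have h1 : RR e z g A = 0 := if_pos heA
    rw [h1, zero_add]
    refine Finset.sum_eq_zero fun C _ => ?_
    by_cases heC : e ∈ C
    · have : xx e z g C = 0 := if_pos (Or.inl heC)
      rw [this, zero_mul]
    · have : RR e z g (A \ C) = 0 := if_pos (Finset.mem_sdiff.2 ⟨heA, heC⟩)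
      rw [this, mul_zero]
  · have h1 : RR e z g A = Rr z g A := if_neg heA
    rw [h1]
    by_cases hA : A = ∅
    · rw [if_pos hA, hA, Rr_empty, Finset.powerset_empty, Finset.sum_singleton]
      have : xx e z g ∅ = 0 := if_pos (Or.inr rfl)
      rw [this, zero_mul, add_zero]
    · rw [if_neg hA, Rr_rec z g hA, Finset.sum_filter, neg_add_eq_zero]
      refine Finset.sum_congr rfl fun C hC => ?_
      have hCA := Finset.mem_powerset.1 hC
      have heC : e ∉ C := fun hh => heA (hCA hh)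
      by_cases hC0 : C = ∅
      · have : xx e z g C = 0 := if_pos (Or.inr hC0)
        rw [if_neg (not_not.2 hC0), this, zero_mul]
      · have h2 : xx e z g C = z * g C := if_neg (fun hh => hh.elim heC hC0)
        have h3 : RR e z g (A \ C) = Rr z g (A \ C) :=
          if_neg (fun hh => heA (Finset.mem_sdiff.1 hh).1)
        rw [if_pos hC0, h2, h3]

theorem hd_iff {B C : Finset (Fin (m + 1))} (hB : B.Nonempty) (hCB : C ⊆ B) :
    hd C B ↔ B.min' hB ∈ C := by
  constructor
  · intro h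
    obtain ⟨y, hy, hle⟩ := h _ (Finset.min'_mem B hB)
    have h2 := Finset.min'_le B y (hCB hy)
    have : y = B.min' hB := le_antisymm hle h2
    rwa [← this]
  · intro h x hx
    exact ⟨_, h, Finset.min'_le B x hx⟩

open Classical in
theorem lg_xx (e : Fin (m + 1)) (z : ℝ) (g : Finset (Fin (m + 1)) → ℝ)
    {B : Finset (Fin (m + 1))} (hB : B.Nonempty) (heB : e ∉ B) :
    SC.lg (xx e z g) B = ∑ C ∈ B.powerset, if hd C B then g C * (z * Rr z g (B \ C)) else 0 := by
  rw [SC.lg_eq (x := xx e z g) (R := RR e z g) (if_pos (Or.inr rfl)) (RR_inv e z g)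
    (Finset.min'_mem B hB), Finset.sum_filter]
  refine Finset.sum_congr rfl fun C hC => ?_
  have hCB := Finset.mem_powerset.1 hC
  by_cases h : B.min' hB ∈ C
  · rw [if_pos h, if_pos ((hd_iff hB hCB).2 h)]
    have h2 : xx e z g C = z * g C := if_neg (fun hh => hh.elim (fun h3 => heB (hCB h3))
      (fun h3 => absurd h (by rw [h3]; exact Finset.notMem_empty _)))
    have h3 : RR e z g (B \ C) = Rr z g (B \ C) :=
      if_neg (fun hh => heB (Finset.mem_sdiff.1 hh).1)
    rw [h2, h3]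
    ring
  · rw [if_neg h, if_neg (fun hh => h ((hd_iff hB hCB).1 hh))]

open Classical in
theorem Vv_eq (β : ℝ) (g : Finset (Fin (m + 1)) → ℝ) (B : Finset (Fin (m + 1))) :
    Vv β g B = ∑ C ∈ B.powerset, if hd C B then
      g C * ((Rr (1 / (1 + β)) g (B \ C) - Rr (-(1 / (1 - β))) g (B \ C)) / 2) else 0 := by
  unfold Vv
  rw [Finset.sum_filter]
  refine Finset.sum_congr rfl fun C _ => ?_
  by_cases h : hd C B
  · by_cases h2 : C = B
    · rw [if_neg (fun hh => hh.2 h2), if_pos h, h2, Finset.sdiff_self, Rr_empty, Rr_empty]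
      ring
    · rw [if_pos ⟨h, h2⟩, if_pos h]
  · rw [if_neg (fun hh => h hh.1), if_neg h]

open Classical in
theorem Kk_eq (β : ℝ) (g : Finset (Fin (m + 1)) → ℝ) (B : Finset (Fin (m + 1))) :
    Kk β g B = ∑ C ∈ B.powerset, if hd C B then
      g C * ((1 / (1 + β) * Rr (1 / (1 + β)) g (B \ C) +
      1 / (1 - β) * Rr (-(1 / (1 - β))) g (B \ C)) / 2) else 0 := by
  unfold Kk
  rw [Finset.sum_filter]

theorem lg_VK (e : Fin (m + 1)) (β s : ℝ) (g : Finset (Fin (m + 1)) → ℝ)
    {B : Finset (Fin (m + 1))} (hB : B.Nonempty) (heB : e ∉ B) (hβ : |β| < 1)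
    (hs : s = 1 ∨ s = -1) :
    SC.lg (xx e (s / (1 + s * β)) g) B = Vv β g B + Kk β g B * (s - β) := by
  classical
  have hb := abs_lt.1 hβ
  have h1 : 1 + β ≠ 0 := by linarith [hb.1]
  have h2 : 1 - β ≠ 0 := by linarith [hb.2]
  rw [lg_xx e _ g hB heB, Vv_eq, Kk_eq, Finset.sum_mul, ← Finset.sum_add_distrib]
  refine Finset.sum_congr rfl fun C _ => ?_
  by_cases h : hd C B
  · rw [if_pos h, if_pos h, if_pos h]
    rcases hs with rfl | rfl
    · have e1 : (1 : ℝ) / (1 + 1 * β) = 1 / (1 + β) := by rw [one_mul]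
      rw [e1]
      generalize Rr (1 / (1 + β)) g (B \ C) = R1
      generalize Rr (-(1 / (1 - β))) g (B \ C) = R2
      field_simp
      ring
    · have e1 : (-1 : ℝ) / (1 + -1 * β) = -(1 / (1 - β)) := by
        rw [show (1 : ℝ) + -1 * β = 1 - β by ring, neg_div]
      rw [e1]
      generalize Rr (1 / (1 + β)) g (B \ C) = R1
      generalize Rr (-(1 / (1 - β))) g (B \ C) = R2
      field_simp
      ring
  · rw [if_neg h, if_neg h, if_neg h]
    ring

theorem sb_cases25 (a : Fin (m + 1)) (t : ℕ) (ω : Pt m L) : sb a t ω = 1 ∨ sb a t ω = -1 := by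
  have h1 : (sb a t ω - 1) * (sb a t ω + 1) = 0 := by
    have := sb_sq33 a t ω
    linear_combination this
  rcases mul_eq_zero.1 h1 with h | h
  · left
    linarith
  · right
    linarith

theorem KA_star (lam : ℝ) (u : (Fin (m + 1) → ℕ) → Pt m L → ℝ) (B : Finset (Fin (m + 1)))
    (e : Fin (m + 1)) (h : Fin (m + 1) → ℕ) (ω : Pt m L) (hB : B.Nonempty) (heB : e ∉ B)
    (hZ : ZZ (WW lam u) h ω ≠ 0) (hb : |KA lam u {e} h ω| < 1) :
    KA lam u B (upc h e) ω = KA lam u B h ω +
      Vv (KA lam u {e} h ω) (fun C => KA lam u (insert e C) h ω) B +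
      Kk (KA lam u {e} h ω) (fun C => KA lam u (insert e C) h ω) B *
        (sb e (h e) ω - KA lam u {e} h ω) := by
  have hs : sb e (h e) ω = 1 ∨ sb e (h e) ω = -1 := sb_cases25 e (h e) ω
  have hup := ZZ_up lam u h e ω hZ
  have hβ : KA lam u {e} h ω = (MM (WW lam u) h ω) {e} := by
    rw [KA_eq lam u _ h ω hZ, SC.cum_single (MM_empty _ _ _)]
  have hbb := abs_lt.1 hb
  have h1 : 1 + sb e (h e) ω * KA lam u {e} h ω ≠ 0 := by
    rcases hs with h2 | h2
    · rw [h2]
      linarith [hbb.1]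
    · rw [h2]
      linarith [hbb.2]
  have hZ' : ZZ (WW lam u) (Function.update h e (h e + 1)) ω ≠ 0 := by
    rw [hup]
    exact mul_ne_zero hZ h1
  have hss : sb e (h e) ω * sb e (h e) ω = 1 := by
    rcases hs with h2 | h2 <;> rw [h2] <;> norm_num
  show KA lam u B (Function.update h e (h e + 1)) ω = _
  rw [KA_eq lam u B _ ω hZ']
  have hst := SC.cum_star (M := MM (WW lam u) h ω)
    (M' := MM (WW lam u) (Function.update h e (h e + 1)) ω) (MM_empty _ _ _) (MM_empty _ _ _)
    (e := e) (s := sb e (h e) ω)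
    (z := sb e (h e) ω / (1 + sb e (h e) ω * KA lam u {e} h ω))
    (by rw [← hβ, div_mul_cancel₀ _ h1]) (fun A hA => by
      rw [← hβ]
      by_cases hA0 : A = ∅
      · rw [hA0, MM_empty, MM_empty, one_mul, show insert e (∅ : Finset (Fin (m + 1))) = {e} from rfl,
          ← hβ]
      · rw [MM_ne _ _ _ hA0, MM_ne _ _ _ hA0, MM_ne _ _ _ (Finset.insert_ne_empty e A), CC_up _ hA,
          hup]
        field_simp) (by rw [← hβ]; exact h1) B heB
  rw [hst, ← KA_eq lam u B h ω hZ, add_assoc]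
  congr 1
  rw [← lg_VK e (KA lam u {e} h ω) (sb e (h e) ω) _ hB heB hb hs]
  congr 1
  funext C
  unfold xx
  by_cases hC : e ∈ C ∨ C = ∅
  · rw [if_pos hC, if_pos hC]
  · rw [if_neg hC, if_neg hC, ← KA_eq lam u (insert e C) h ω hZ]

/-- the exact law -/
theorem exact (lam : ℝ) {u : (Fin (m + 1) → ℕ) → Pt m L → ℝ} (hu : ∀ q, Ms q (u q)) :
    Exact lam u (ZZ (WW lam u)) (KA lam u) (WW lam u) where
  msZ h := Ms_ZZ hu h
  msk B h := Ms_KA hu B h
  msW h := Ms_WW' hu h
  zero h ω := by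
    rintro ⟨a, ha⟩
    exact ZZ_zero _ ha ω
  top h ω := if_pos rfl
  van B h ω p hB hp h0 := KA_van lam u hB hp h0 ω
  step h e ω hZ := ZZ_up lam u h e ω hZ
  star B e h ω hB he hZ hb := KA_star lam u B e h ω hB he hZ hb
  coef q ω hq := coef_W hu hq ω

end Pool.Agent.SHX.Ex25
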