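import Pool.Agent.Lib.MP_a7b2aa_an.SHX.ExB25

/-!
SHX, track ALL (helper25): module EXACT, the sizes up to the band.
-/

set_option autoImplicit false

open Finset

namespace Pool.Agent.SHX.Ex25

open Pool.Agent.SB3 Pool.Agent.SBT Pool.Agent.SBD Pool.Agent.SHD Pool.Agent.SHX Pool.Agent.SHXA

variable {m L N R : ℕ}

theorem W_low {lam : ℝ} {u : (Fin (m + 1) → ℕ) → Pt m L → ℝ} (hu : ArF N R u) (n : ℕ) :
    ∀ h : Fin (m + 1) → ℕ, ∑ a, h a < n → ∑ a, h a + R < N → ∀ ω, WW lam u h ω = 0 := by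
  induction n with
  | zero => intro h hh; omega
  | succ n ih =>
    intro h hh hN ω
    have h1 : ∀ A, A ≠ univ → CC (WW lam u) A h ω = 0 := by
      intro A hA
      unfold CC
      refine Finset.sum_eq_zero fun k hk => ?_
      have := bxx_lt hA hk
      rw [ih k (by omega) (by omega) ω, mul_zero]
    have hM : M0 (WW lam u) h ω = 1 := by
      funext A
      unfold M0 MM
      rw [SC.one_apply]
      by_cases hA : A = univ
      · rw [if_pos hA, hA, if_neg empty_ne_univ.symm]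
      · rw [if_neg hA]
        by_cases hA0 : A = ∅
        · rw [if_pos hA0, if_pos hA0]
        · rw [if_neg hA0, if_neg hA0, h1 A hA, zero_div]
    have h2 : u h ω = 0 := by
      apply hu.bd
      unfold SHD.dst
      omega
    rw [WW_eq]
    unfold nxt
    rw [hM, SC.cum_one, h2]
    ring

theorem W_low' {lam : ℝ} {u : (Fin (m + 1) → ℕ) → Pt m L → ℝ} (hu : ArF N R u)
    {h : Fin (m + 1) → ℕ} (hN : ∑ a, h a + R < N) (ω : Pt m L) : WW lam u h ω = 0 :=
  W_low hu _ h (Nat.lt_succ_self _) hN ω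

theorem card_bd {h : Fin (m + 1) → ℕ} (hh : ∑ a, h a ≤ N + R + (m + 1))
    (A : Finset (Fin (m + 1))) :
    ((bxx A h).filter (fun k => N ≤ ∑ a, k a + R)).card ≤ (2 * R + m + 2) ^ (m + 1) := by
  have h1 : (bxx A h).filter (fun k => N ≤ ∑ a, k a + R) ⊆
      Fintype.piFinset (fun a => Finset.Icc (h a - (2 * R + m + 1)) (h a)) := by
    intro k hk
    rw [Finset.mem_filter] at hk
    rw [Fintype.mem_piFinset]
    intro a
    rw [Finset.mem_Icc]
    refine ⟨?_, bxx_le hk.1 a⟩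
    have h2 : ∑ a, (h a - k a) + ∑ a, k a = ∑ a, h a := by
      rw [← Finset.sum_add_distrib]
      refine Finset.sum_congr rfl fun c _ => ?_
      have := bxx_le hk.1 c
      omega
    have h3 : h a - k a ≤ ∑ a, (h a - k a) :=
      Finset.single_le_sum (f := fun a => h a - k a) (fun _ _ => Nat.zero_le _)
        (Finset.mem_univ a)
    have h4 := hk.2
    omega
  refine (Finset.card_le_card h1).trans ?_
  rw [Fintype.card_piFinset]
  calc ∏ a, (Finset.Icc (h a - (2 * R + m + 1)) (h a)).card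
      ≤ ∏ _a : Fin (m + 1), (2 * R + m + 2) := by
        refine Finset.prod_le_prod' fun a _ => ?_
        rw [Nat.card_Icc]
        omega
    _ = (2 * R + m + 2) ^ (m + 1) := by
        rw [Finset.prod_const, Finset.card_univ, Fintype.card_fin]

theorem CC_bd {lam : ℝ} {u : (Fin (m + 1) → ℕ) → Pt m L → ℝ} (hu : ArF N R u)
    {h : Fin (m + 1) → ℕ} (hh : ∑ a, h a ≤ N + R + (m + 1)) (hlam : 0 ≤ lam)
    (A : Finset (Fin (m + 1))) (ω : Pt m L)
    (h1 : ∀ k ∈ bxx A h, |WW lam u k ω| ≤ 3 * lam) :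
    |CC (WW lam u) A h ω| ≤ 3 * lam * (((2 * R + m + 2) ^ (m + 1) : ℕ) : ℝ) := by
  unfold CC
  calc |∑ k ∈ bxx A h, ps Aᶜ k ω * WW lam u k ω|
      ≤ ∑ k ∈ bxx A h, |ps Aᶜ k ω * WW lam u k ω| := Finset.abs_sum_le_sum_abs _ _
    _ = ∑ k ∈ (bxx A h).filter (fun k => N ≤ ∑ a, k a + R), |ps Aᶜ k ω * WW lam u k ω| := by
        symm
        apply Finset.sum_subset (Finset.filter_subset _ _)
        intro k hk hk2
        rw [Finset.mem_filter, not_and] at hk2
        have h3 := hk2 hk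
        rw [W_low' hu (by omega) ω, mul_zero, abs_zero]
    _ ≤ ∑ k ∈ (bxx A h).filter (fun k => N ≤ ∑ a, k a + R), 3 * lam := by
        refine Finset.sum_le_sum fun k hk => ?_
        rw [abs_mul, Pool.Agent.SBD.ps_abs, one_mul]
        exact h1 k (Finset.mem_filter.1 hk).1
    _ = ((bxx A h).filter (fun k => N ≤ ∑ a, k a + R)).card * (3 * lam) := by
        rw [Finset.sum_const, nsmul_eq_mul]
    _ ≤ (((2 * R + m + 2) ^ (m + 1) : ℕ) : ℝ) * (3 * lam) := by
        apply mul_le_mul_of_nonneg_right _ (by linarith)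
        exact_mod_cast card_bd hh A
    _ = _ := by ring

/-- powers of small functions -/
theorem pow_bd {x : SC (Fin (m + 1))} {δ : ℝ} (hx : ∀ A, |x A| ≤ δ) (j : ℕ) :
    ∀ A, |(x ^ (j + 1)) A| ≤ (2 ^ (m + 1)) ^ j * δ ^ (j + 1) := by
  have hδ : 0 ≤ δ := (abs_nonneg _).trans (hx ∅)
  induction j with
  | zero =>
    intro A
    rw [zero_add, pow_one, pow_zero, one_mul, pow_one]
    exact hx A
  | succ j ih =>
    intro A
    rw [pow_succ' x, SC.mul_apply]
    calc |∑ B ∈ A.powerset, x B * (x ^ (j + 1)) (A \ B)|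
        ≤ ∑ B ∈ A.powerset, |x B * (x ^ (j + 1)) (A \ B)| := Finset.abs_sum_le_sum_abs _ _
      _ ≤ ∑ B ∈ A.powerset, δ * ((2 ^ (m + 1)) ^ j * δ ^ (j + 1)) := by
          refine Finset.sum_le_sum fun B _ => ?_
          rw [abs_mul]
          exact mul_le_mul (hx B) (ih _) (abs_nonneg _) hδ
      _ = (2 ^ A.card : ℝ) * (δ * ((2 ^ (m + 1)) ^ j * δ ^ (j + 1))) := by
          rw [Finset.sum_const, Finset.card_powerset, nsmul_eq_mul]
          push_cast
          ring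
      _ ≤ (2 ^ (m + 1) : ℝ) * (δ * ((2 ^ (m + 1)) ^ j * δ ^ (j + 1))) := by
          apply mul_le_mul_of_nonneg_right _ (by positivity)
          apply pow_le_pow_right₀ (by norm_num)
          have := Finset.card_le_univ A
          rwa [Fintype.card_fin] at this
      _ = (2 ^ (m + 1)) ^ (j + 1) * δ ^ (j + 1 + 1) := by ring

/-- the constant -/
noncomputable def c1 (m : ℕ) : ℝ := ((m : ℝ) + 1) * (2 ^ (m + 1)) ^ (m + 1)

theorem c1_ge (m : ℕ) : 1 ≤ c1 m := by
  unfold c1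
  have h1 : (1 : ℝ) ≤ (m : ℝ) + 1 := by
    have : (0 : ℝ) ≤ m := Nat.cast_nonneg m
    linarith
  have h2 : (1 : ℝ) ≤ (2 ^ (m + 1)) ^ (m + 1) :=
    one_le_pow₀ (one_le_pow₀ (by norm_num))
  calc (1 : ℝ) = 1 * 1 := by ring
    _ ≤ _ := mul_le_mul h1 h2 (by norm_num) (by linarith)

theorem cum_bd {M : SC (Fin (m + 1))} {δ : ℝ} (hM : M ∅ = 1) (hM1 : M univ = 0)
    (hx : ∀ A, A ≠ ∅ → |M A| ≤ δ) (hδ : 0 ≤ δ) (hδ1 : δ ≤ 1) : |M.cum univ| ≤ c1 m * δ ^ 2 := by
  have hx' : ∀ A, |(M - 1) A| ≤ δ := by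
    intro A
    rw [SC.sub_apply, SC.one_apply]
    by_cases hA : A = ∅
    · rw [if_pos hA, hA, hM, sub_self, abs_zero]
      exact hδ
    · rw [if_neg hA, sub_zero]
      exact hx A hA
  have h0 : (M - 1) univ = 0 := by
    rw [SC.sub_apply, SC.one_apply, hM1, if_neg empty_ne_univ.symm, sub_zero]
  rw [SC.cum_apply]
  calc |∑ j ∈ Finset.range (Fintype.card (Fin (m + 1))),
        (-1) ^ j / ((j : ℝ) + 1) * ((M - 1) ^ (j + 1)) univ|
      ≤ ∑ j ∈ Finset.range (Fintype.card (Fin (m + 1))),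
        |(-1) ^ j / ((j : ℝ) + 1) * ((M - 1) ^ (j + 1)) univ| := Finset.abs_sum_le_sum_abs _ _
    _ ≤ ∑ j ∈ Finset.range (Fintype.card (Fin (m + 1))),
        (2 ^ (m + 1)) ^ (m + 1) * δ ^ 2 := by
        refine Finset.sum_le_sum fun j hj => ?_
        rw [Finset.mem_range, Fintype.card_fin] at hj
        have hp : (0 : ℝ) ≤ (2 ^ (m + 1)) ^ (m + 1) * δ ^ 2 := by positivity
        cases j with
        | zero =>
          rw [zero_add, pow_one, h0, mul_zero, abs_zero]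
          exact hp
        | succ j =>
          have h2 := pow_bd hx' (j + 1) univ
          have h3 : |(-1 : ℝ) ^ (j + 1) / (((j + 1 : ℕ) : ℝ) + 1)| ≤ 1 := by
            rw [abs_div, abs_pow, abs_neg, abs_one, one_pow]
            rw [div_le_one (by positivity)]
            have h4 : (0 : ℝ) ≤ ((j + 1 : ℕ) : ℝ) := Nat.cast_nonneg _
            rw [abs_of_nonneg (by linarith)]
            linarith
          rw [abs_mul]
          calc |(-1 : ℝ) ^ (j + 1) / (((j + 1 : ℕ) : ℝ) + 1)| * |((M - 1) ^ (j + 1 + 1)) univ|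
              ≤ 1 * ((2 ^ (m + 1)) ^ (j + 1) * δ ^ (j + 1 + 1)) :=
                mul_le_mul h3 h2 (abs_nonneg _) (by norm_num)
            _ = (2 ^ (m + 1)) ^ (j + 1) * (δ ^ j * δ ^ 2) := by ring
            _ ≤ (2 ^ (m + 1)) ^ (m + 1) * (1 * δ ^ 2) := by
                apply mul_le_mul
                · exact pow_le_pow_right₀ (one_le_pow₀ (by norm_num)) (by omega)
                · exact mul_le_mul_of_nonneg_right (pow_le_one₀ hδ hδ1) (by positivity)
                · positivity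
                · positivity
            _ = _ := by ring
    _ = c1 m * δ ^ 2 := by
        rw [Finset.sum_const, Finset.card_range, Fintype.card_fin, nsmul_eq_mul]
        unfold c1
        push_cast
        ring

theorem main_bd {lam : ℝ} {u : (Fin (m + 1) → ℕ) → Pt m L → ℝ} (hu : ArF N R u)
    (hlam : 0 ≤ lam) {P : ℝ} (hP : P = (((2 * R + m + 2) ^ (m + 1) : ℕ) : ℝ))
    (hsm : 57 * c1 m * P ^ 2 * lam ≤ 1) (ω : Pt m L) (n : ℕ) :
    ∀ h : Fin (m + 1) → ℕ, ∑ a, h a < n → ∑ a, h a ≤ N + R →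
      |WW lam u h ω - lam * u h ω| ≤ 57 * c1 m * P ^ 2 * lam ^ 2 ∧ |WW lam u h ω| ≤ 3 * lam := by
  have hP1 : 1 ≤ P := by
    rw [hP]
    exact_mod_cast Nat.one_le_pow _ _ (by omega)
  have hc := c1_ge m
  have hPP : P ≤ P ^ 2 := by nlinarith
  have hcP : P ^ 2 ≤ c1 m * P ^ 2 := by nlinarith [sq_nonneg P]
  have h3 : 3 * lam * P ≤ 1 / 18 := by
    have : 57 * (c1 m * P ^ 2 * lam) ≤ 1 := by linarith
    have h4 : P * lam ≤ c1 m * P ^ 2 * lam := mul_le_mul_of_nonneg_right (hPP.trans hcP) hlam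
    linarith
  induction n with
  | zero => intro h hh; omega
  | succ n ih =>
    intro h hh hN
    have hCC : ∀ A, A ≠ univ → |CC (WW lam u) A h ω| ≤ 3 * lam * P := by
      intro A hA
      rw [hP]
      refine CC_bd hu (by omega) hlam A ω fun k hk => ?_
      have := bxx_lt hA hk
      exact (ih k (by omega) (by omega)).2
    have hZ : |ZZ (WW lam u) h ω - 1| ≤ 3 * lam * P := by
      unfold ZZ
      rw [add_sub_cancel_left]
      exact hCC ∅ empty_ne_univ
    have hZ2 := abs_le.1 hZ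
    have hZ3 : 1 / 2 ≤ ZZ (WW lam u) h ω := by linarith [hZ2.1]
    have hZ4 : |ZZ (WW lam u) h ω| ≤ 3 / 2 := by
      rw [abs_of_nonneg (by linarith)]
      linarith [hZ2.2]
    have hδ0 : 0 ≤ 6 * lam * P := by positivity
    have hM : |(M0 (WW lam u) h ω).cum univ| ≤ c1 m * (6 * lam * P) ^ 2 := by
      apply cum_bd (M0_empty _ _ _) (if_pos rfl) _ hδ0 (by linarith)
      intro A hA
      unfold M0 MM
      by_cases hAu : A = univ
      · rw [if_pos hAu, abs_zero]
        exact hδ0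
      · rw [if_neg hAu, if_neg hA, abs_div, div_le_iff₀ (by rw [abs_of_nonneg (by linarith)]; linarith),
          abs_of_nonneg (by linarith : (0 : ℝ) ≤ ZZ (WW lam u) h ω)]
        have h5 := hCC A hAu
        have h6 : 6 * lam * P * (1 / 2) ≤ 6 * lam * P * ZZ (WW lam u) h ω :=
          mul_le_mul_of_nonneg_left hZ3 hδ0
        linarith
    have hW : WW lam u h ω - lam * u h ω = (ZZ (WW lam u) h ω - 1) * (lam * u h ω) -
        ZZ (WW lam u) h ω * (M0 (WW lam u) h ω).cum univ := by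
      rw [congrFun (WW_eq lam u h) ω]
      unfold nxt
      ring
    have hu1 : |lam * u h ω| ≤ lam := by
      rw [abs_mul, abs_of_nonneg hlam]
      have := hu.abs h ω
      nlinarith
    have h5 : |WW lam u h ω - lam * u h ω| ≤ 57 * c1 m * P ^ 2 * lam ^ 2 := by
      rw [hW]
      calc |(ZZ (WW lam u) h ω - 1) * (lam * u h ω) -
            ZZ (WW lam u) h ω * (M0 (WW lam u) h ω).cum univ|
          ≤ |(ZZ (WW lam u) h ω - 1) * (lam * u h ω)| +
            |ZZ (WW lam u) h ω * (M0 (WW lam u) h ω).cum univ| := abs_sub _ _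
        _ = |ZZ (WW lam u) h ω - 1| * |lam * u h ω| +
            |ZZ (WW lam u) h ω| * |(M0 (WW lam u) h ω).cum univ| := by
            rw [abs_mul (ZZ (WW lam u) h ω - 1), abs_mul (ZZ (WW lam u) h ω)]
        _ ≤ (3 * lam * P) * lam + 3 / 2 * (c1 m * (6 * lam * P) ^ 2) :=
            add_le_add (mul_le_mul hZ hu1 (abs_nonneg _) (by positivity))
              (mul_le_mul hZ4 hM (abs_nonneg _) (by norm_num))
        _ = 3 * (P * lam ^ 2) + 54 * (c1 m * P ^ 2 * lam ^ 2) := by ring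
        _ ≤ 3 * (c1 m * P ^ 2 * lam ^ 2) + 54 * (c1 m * P ^ 2 * lam ^ 2) := by
            have : P * lam ^ 2 ≤ c1 m * P ^ 2 * lam ^ 2 :=
              mul_le_mul_of_nonneg_right (hPP.trans hcP) (sq_nonneg lam)
            linarith
        _ = _ := by ring
    refine ⟨h5, ?_⟩
    have h6 : 57 * c1 m * P ^ 2 * lam ^ 2 ≤ lam := by
      calc 57 * c1 m * P ^ 2 * lam ^ 2 = (57 * c1 m * P ^ 2 * lam) * lam := by ring
        _ ≤ 1 * lam := mul_le_mul_of_nonneg_right hsm hlam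
        _ = lam := one_mul _
    have h7 : |WW lam u h ω| ≤ |WW lam u h ω - lam * u h ω| + |lam * u h ω| := by
      have := abs_add_le (WW lam u h ω - lam * u h ω) (lam * u h ω)
      rwa [sub_add_cancel] at this
    linarith

theorem near {lam : ℝ} {u : (Fin (m + 1) → ℕ) → Pt m L → ℝ} (hu : ArF N R u)
    (hlam : 0 ≤ lam) {c : ℝ}
    (hc : 57 * c1 m * (((2 * R + m + 2) ^ (m + 1) : ℕ) : ℝ) ^ 2 ≤ c) (hsm : c * lam ≤ 1) :
    Near N R c lam u (ZZ (WW lam u)) (WW lam u) := by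
  have hsm' : 57 * c1 m * (((2 * R + m + 2) ^ (m + 1) : ℕ) : ℝ) ^ 2 * lam ≤ 1 :=
    (mul_le_mul_of_nonneg_right hc hlam).trans hsm
  have hP1 : (1 : ℝ) ≤ (((2 * R + m + 2) ^ (m + 1) : ℕ) : ℝ) := by
    exact_mod_cast Nat.one_le_pow _ _ (by omega)
  refine ⟨fun q ω hq => ?_, fun q ω hq => ?_⟩
  · refine (main_bd hu hlam rfl hsm' ω _ q (Nat.lt_succ_self _) hq).1.trans ?_
    exact mul_le_mul_of_nonneg_right hc (sq_nonneg lam)
  · have h1 : |CC (WW lam u) ∅ q ω| ≤ 3 * lam * (((2 * R + m + 2) ^ (m + 1) : ℕ) : ℝ) := by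
      refine CC_bd hu hq hlam ∅ ω fun k hk => ?_
      refine (main_bd hu hlam rfl hsm' ω _ k (Nat.lt_succ_self _) ?_).2
      have h2 : ∑ a, (k a + 1) ≤ ∑ a, q a :=
        Finset.sum_le_sum fun a _ => (mem_bxx.1 hk).2 a (Finset.notMem_empty a)
      rw [Finset.sum_add_distrib, Finset.sum_const, Finset.card_univ, Fintype.card_fin,
        smul_eq_mul, mul_one] at h2
      omega
    have hc1 := c1_ge m
    generalize (((2 * R + m + 2) ^ (m + 1) : ℕ) : ℝ) = P at hP1 hsm' h1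
    have hPP : P ≤ P ^ 2 := by nlinarith
    have hcP : P ^ 2 ≤ c1 m * P ^ 2 := by nlinarith [sq_nonneg P]
    have h3 : 3 * lam * P ≤ 1 / 18 := by
      have : 57 * (c1 m * P ^ 2 * lam) ≤ 1 := by linarith
      have h4 : P * lam ≤ c1 m * P ^ 2 * lam := mul_le_mul_of_nonneg_right (hPP.trans hcP) hlam
      linarith
    have h5 := abs_le.1 h1
    unfold ZZ
    constructor
    · linarith [h5.1]
    · linarith [h5.2]

/-- EXACT -/
theorem exact_25 : StExact := by
  intro m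
  refine ⟨57 * c1 m * ((m : ℝ) + 2) ^ (2 * (m + 1)), 2 * (m + 1), ?_, ?_⟩
  · have h1 := c1_ge m
    have h2 : (1 : ℝ) ≤ ((m : ℝ) + 2) ^ (2 * (m + 1)) := by
      apply one_le_pow₀
      have : (0 : ℝ) ≤ m := Nat.cast_nonneg m
      linarith
    nlinarith
  · intro L N R lam u hu hlam
    refine ⟨ZZ (WW lam u), KA lam u, WW lam u, exact lam hu.dep, fun hsm => ?_⟩
    refine near hu hlam ?_ hsm
    have h1 : (((2 * R + m + 2) ^ (m + 1) : ℕ) : ℝ) ≤ (((m : ℝ) + 2) * ((R : ℝ) + 1)) ^ (m + 1) := by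
      push_cast
      apply pow_le_pow_left₀ (by positivity)
      have h3 : (0 : ℝ) ≤ (m : ℝ) * R := by positivity
      nlinarith
    have h2 : (((2 * R + m + 2) ^ (m + 1) : ℕ) : ℝ) ^ 2 ≤
        ((m : ℝ) + 2) ^ (2 * (m + 1)) * ((R : ℝ) + 1) ^ (2 * (m + 1)) := by
      calc (((2 * R + m + 2) ^ (m + 1) : ℕ) : ℝ) ^ 2
          ≤ ((((m : ℝ) + 2) * ((R : ℝ) + 1)) ^ (m + 1)) ^ 2 :=
            pow_le_pow_left₀ (Nat.cast_nonneg _) h1 2
        _ = _ := by rw [← pow_mul, mul_pow, mul_comm (m + 1) 2]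
    have hc := c1_ge m
    calc 57 * c1 m * (((2 * R + m + 2) ^ (m + 1) : ℕ) : ℝ) ^ 2
        ≤ 57 * c1 m * (((m : ℝ) + 2) ^ (2 * (m + 1)) * ((R : ℝ) + 1) ^ (2 * (m + 1))) :=
          mul_le_mul_of_nonneg_left h2 (by linarith)
      _ = _ := by ring

end Pool.Agent.SHX.Ex25
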