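import Pool.Agent.Lib.MP_a7b2aa_an.SHX.StmtsX65
import Pool.Agent.Lib.MP_a7b2aa_an.SHX.MfB21
import Pool.Agent.Lib.MP_a7b2aa_an.SHX.PathA23

/-!
# SHX, FRESH: sums against centred signs of one string (seat 21)

The path law of the string and the matrix Freedman inequality.
-/

set_option autoImplicit false

namespace Pool.Agent.SHXA

open Finset Pool.Agent.SB3 Pool.Agent.SBT Pool.Agent.SBD Pool.Agent.SHD Pool.Agent.SHX

open Classical in
theorem fresh_21 : StFresh := by
  intro n D ε hε
  obtain ⟨C, hC, key⟩ := mfree_21 D n ε hε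
  refine ⟨C, hC, ?_⟩
  intro m L X Y _ _ _ _ G be Z H f B M hL hB hH hX hY hB0 hM
  obtain ⟨hlaw, hal, -, -, -⟩ := pathlaw_23 m L G be Z H f hB hH
  set ρ := Qp G be H f with hρ
  -- the matrices, cut off at `H f`
  set K : ℕ → Pt m L → Matrix X Y ℝ := fun t ω =>
    if t < H f then Matrix.of (fun x y => M t x y ω) else 0 with hK
  have hKms : ∀ t, Ms (one L f t) (K t) := by
    intro t ω ω' hω
    simp only [hK]
    split_ifs with ht
    · ext x y
      simp only [Matrix.of_apply]
      exact update_ms (h := H) (s := f) (v := t) (hM t ht x y) ω ω' hω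
    · rfl
  have hX' : (Fintype.card X : ℝ) ≤ ((L : ℝ) + 1) ^ D := by exact_mod_cast hX
  have hY' : (Fintype.card Y : ℝ) ≤ ((L : ℝ) + 1) ^ D := by exact_mod_cast hY
  have h1 := key m L (H f) f X Y K (L : ℝ) B ρ
    (fun ω => SQ (H f) B (fun r x y => M r x y ω)) hL hlaw hB0 hX' hY' hKms
    (by
      intro ω hω w
      refine le_trans (le_of_eq ?_) (hω.1 w)
      refine sum_congr rfl fun t ht => ?_
      simp only [hK, if_pos (mem_range.1 ht), Matrix.of_apply])
    (by
      intro ω hω w
      refine le_trans (le_of_eq ?_) (hω.2 w)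
      refine sum_congr rfl fun t ht => ?_
      simp only [hK, if_pos (mem_range.1 ht), Matrix.of_apply])
  refine le_trans ?_ h1
  unfold PP
  refine (Av_Gl_le f hB hH _).trans ?_
  refine Pr_mono hlaw ?_
  rintro ω ⟨hG, hS, hN⟩
  refine ⟨hS, fun hN' => hN ?_⟩
  have e1 : (∑ t ∈ range (H f), (sb f t ω - al ρ f t ω) • K t ω) =
      Matrix.of (fun x y => ∑ r ∈ range (H f),
        (sb f r ω - be f (Function.update H f r) ω) * M r x y ω) := by
    ext x y
    rw [Matrix.sum_apply]
    simp only [Matrix.of_apply]
    refine sum_congr rfl fun t ht => ?_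
    have ht' := mem_range.1 ht
    have h2 : Gd G (Function.update H f t) ω := by
      refine Gl_Gd ?_ ?_ hG
      · intro a
        by_cases ha : a = f
        · subst ha
          rw [Function.update_self]
          exact ht'.le
        · rw [Function.update_of_ne ha]
      · intro h2
        have := congrFun h2 f
        rw [Function.update_self] at this
        omega
    have h3 : al ρ f t ω = be f (Function.update H f t) ω := by
      rw [hal t ht' ω]
      unfold SHX.bh
      rw [if_pos h2]
    rw [h3]
    simp only [hK, if_pos ht', Matrix.smul_apply, Matrix.of_apply, smul_eq_mul]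
  rw [e1] at hN'
  exact hN'

end Pool.Agent.SHXA
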