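import Mathlib

/-!
The Golden-Thompson inequality for real symmetric matrices.
-/

set_option autoImplicit false

open Filter Topology Finset Matrix

namespace Pool.Agent.SHX.GT25

variable {n : Type*} [Fintype n] [DecidableEq n]

/-! ### Trace inequalities -/

theorem trace_pow_comm (A B : Matrix n n ℝ) (p : ℕ) :
    trace ((A * B) ^ p) = trace ((B * A) ^ p) := by
  rcases p with _ | p
  · simp
  · have h : ∀ p : ℕ, (A * B) ^ (p + 1) = A * (B * A) ^ p * B := by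
      intro p
      induction p with
      | zero => simp
      | succ p ih => rw [pow_succ, ih, pow_succ (B * A)]; simp only [Matrix.mul_assoc]
    rw [h, Matrix.mul_assoc, Matrix.trace_mul_comm, Matrix.mul_assoc, ← pow_succ]

omit [DecidableEq n] in
theorem trace_mul_eq (A B : Matrix n n ℝ) : trace (A * B) = ∑ i, ∑ j, A i j * B j i := by
  simp [Matrix.trace, Matrix.mul_apply]

omit [DecidableEq n] in
theorem trace_sq_nonneg (A : Matrix n n ℝ) : 0 ≤ trace (A * Aᵀ) := by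
  rw [trace_mul_eq]
  refine Finset.sum_nonneg fun i _ => Finset.sum_nonneg fun j _ => ?_
  rw [Matrix.transpose_apply]
  exact mul_self_nonneg _

omit [DecidableEq n] in
theorem trace_cs (A B : Matrix n n ℝ) :
    trace (A * B) ^ 2 ≤ trace (A * Aᵀ) * trace (B * Bᵀ) := by
  have h1 : trace (A * B) = ∑ p : n × n, A p.1 p.2 * B p.2 p.1 := by
    rw [trace_mul_eq, Fintype.sum_prod_type]
  have h2 : trace (A * Aᵀ) = ∑ p : n × n, A p.1 p.2 ^ 2 := by
    rw [trace_mul_eq, Fintype.sum_prod_type]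
    simp [sq]
  have h3 : trace (B * Bᵀ) = ∑ p : n × n, B p.2 p.1 ^ 2 := by
    rw [trace_mul_eq, Fintype.sum_prod_type, Finset.sum_comm]
    simp [sq]
  rw [h1, h2, h3]
  exact Finset.sum_mul_sq_le_sq_mul_sq _ _ _

theorem trace_TU (k : ℕ) :
    (∀ Z : Matrix n n ℝ, |trace (Z ^ 2 ^ (k + 1))| ≤ trace ((Z * Zᵀ) ^ 2 ^ k)) ∧
    (∀ P R : Matrix n n ℝ, Pᵀ = P → Rᵀ = R →
      trace ((P * R) ^ 2 ^ k) ≤ trace (P ^ 2 ^ k * R ^ 2 ^ k)) := by
  induction k with
  | zero =>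
    refine ⟨fun Z => ?_, fun P R _ _ => by simp⟩
    have h1 := trace_cs Z Z
    have h2 := trace_sq_nonneg Z
    rw [← sq] at h1
    simp only [zero_add, pow_one, pow_zero]
    rw [pow_two]
    have h3 := abs_le_of_sq_le_sq' (a := trace (Z * Z)) (b := trace (Z * Zᵀ)) (by
      rw [← sq (Z)] ; rw [← sq] at *; nlinarith) h2
    exact abs_le.2 h3
  | succ k ih =>
    obtain ⟨hT, hU⟩ := ih
    constructor
    · intro Z
      have e1 : Z ^ 2 ^ (k + 1 + 1) = (Z ^ 2) ^ 2 ^ (k + 1) := by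
        rw [← pow_mul]; congr 1; ring
      have h1 := hT (Z ^ 2)
      have e2 : trace ((Z ^ 2 * (Z ^ 2)ᵀ) ^ 2 ^ k) = trace (((Zᵀ * Z) * (Z * Zᵀ)) ^ 2 ^ k) := by
        have : Z ^ 2 * (Z ^ 2)ᵀ = Z * ((Z * Zᵀ) * Zᵀ) := by
          rw [sq, Matrix.transpose_mul]; simp only [Matrix.mul_assoc]
        rw [this, trace_pow_comm]
        have : Z * Zᵀ * Zᵀ * Z = (Z * Zᵀ) * (Zᵀ * Z) := by simp only [Matrix.mul_assoc]
        rw [this, trace_pow_comm]
      have h2 := hU (Zᵀ * Z) (Z * Zᵀ) (by simp) (by simp)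
      have h3 := trace_cs ((Zᵀ * Z) ^ 2 ^ k) ((Z * Zᵀ) ^ 2 ^ k)
      have e3 : ((Zᵀ * Z) ^ 2 ^ k)ᵀ = (Zᵀ * Z) ^ 2 ^ k := by
        rw [Matrix.transpose_pow]; simp
      have e4 : ((Z * Zᵀ) ^ 2 ^ k)ᵀ = (Z * Zᵀ) ^ 2 ^ k := by
        rw [Matrix.transpose_pow]; simp
      have h5 := trace_sq_nonneg ((Z * Zᵀ) ^ 2 ^ k)
      rw [e3, e4, ← pow_two ((Zᵀ * Z) ^ 2 ^ k), ← pow_two ((Z * Zᵀ) ^ 2 ^ k), ← pow_mul, ← pow_mul,
        ← pow_succ, trace_pow_comm Zᵀ Z, ← pow_two] at h3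
      rw [e4, ← pow_two, ← pow_mul, ← pow_succ] at h5
      have h4 := (abs_le_of_sq_le_sq' h3 h5).2
      rw [e1]
      exact h1.trans (e2 ▸ (h2.trans h4))
    · intro P R hP hR
      have e1 : (P * R) * (P * R)ᵀ = P * ((R * R) * P) := by
        rw [Matrix.transpose_mul, hP, hR]; simp only [Matrix.mul_assoc]
      have h1 := (le_abs_self _).trans (hT (P * R))
      have e2 : R * R * P * P = (R ^ 2) * (P ^ 2) := by
        rw [sq, sq]; simp only [Matrix.mul_assoc]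
      have e3 : trace ((P * (R * R * P)) ^ 2 ^ k) = trace ((P ^ 2 * R ^ 2) ^ 2 ^ k) := by
        rw [trace_pow_comm P, e2, trace_pow_comm]
      rw [e1, e3] at h1
      have h2 := hU (P ^ 2) (R ^ 2) (by rw [Matrix.transpose_pow, hP])
        (by rw [Matrix.transpose_pow, hR])
      rw [← pow_mul, ← pow_mul, ← pow_succ'] at h2
      exact h1.trans h2

/-! ### Lie-Trotter -/

theorem pow_sub_pow_le {𝔸 : Type*} [NormedRing 𝔸] {U V : 𝔸} {c : ℝ} (hc : 0 ≤ c)
    (hU : ‖U‖ ≤ c) (hV : ‖V‖ ≤ c) (m : ℕ) :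
    ‖U ^ (m + 1) - V ^ (m + 1)‖ ≤ (m + 1) * c ^ m * ‖U - V‖ := by
  have hpow : ∀ m : ℕ, ‖V ^ (m + 1)‖ ≤ c ^ (m + 1) := by
    intro m
    exact (norm_pow_le' V (Nat.succ_pos m)).trans (pow_le_pow_left₀ (norm_nonneg _) hV _)
  induction m with
  | zero => simp
  | succ m ih =>
    have e : U ^ (m + 1 + 1) - V ^ (m + 1 + 1) =
        U * (U ^ (m + 1) - V ^ (m + 1)) + (U - V) * V ^ (m + 1) := by
      rw [pow_succ' U, pow_succ' V]
      noncomm_ring
    rw [e]
    calc _ ≤ ‖U * (U ^ (m + 1) - V ^ (m + 1))‖ + ‖(U - V) * V ^ (m + 1)‖ := norm_add_le _ _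
      _ ≤ ‖U‖ * ‖U ^ (m + 1) - V ^ (m + 1)‖ + ‖U - V‖ * ‖V ^ (m + 1)‖ :=
          add_le_add (norm_mul_le _ _) (norm_mul_le _ _)
      _ ≤ c * ((m + 1) * c ^ m * ‖U - V‖) + ‖U - V‖ * c ^ (m + 1) := by
          apply add_le_add
          · exact mul_le_mul hU ih (norm_nonneg _) hc
          · exact mul_le_mul_of_nonneg_left (hpow m) (norm_nonneg _)
      _ = _ := by push_cast; ring

/-- the Lie-Trotter formula -/
theorem lie_trotter {𝔸 : Type*} [NormedRing 𝔸] [NormedAlgebra ℝ 𝔸] [NormOneClass 𝔸]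
    [CompleteSpace 𝔸] (a b : 𝔸) :
    Tendsto (fun m : ℕ => (NormedSpace.exp (((m : ℝ) + 1)⁻¹ • a) *
      NormedSpace.exp (((m : ℝ) + 1)⁻¹ • b)) ^ (m + 1)) atTop (𝓝 (NormedSpace.exp (a + b))) := by
  let _ : NormedAlgebra ℚ 𝔸 := NormedAlgebra.restrictScalars ℚ ℝ 𝔸
  set f : ℝ → 𝔸 := fun t => NormedSpace.exp (t • a) * NormedSpace.exp (t • b) with hf
  set g : ℝ → 𝔸 := fun t => NormedSpace.exp (t • (a + b)) with hg
  have hf' : HasDerivAt f (a + b) 0 := by
    have h1 : HasDerivAt f (NormedSpace.exp ((0 : ℝ) • a) * a * NormedSpace.exp ((0 : ℝ) • b) +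
        NormedSpace.exp ((0 : ℝ) • a) * (NormedSpace.exp ((0 : ℝ) • b) * b)) 0 :=
      (hasDerivAt_exp_smul_const (𝕂 := ℝ) a 0).mul (hasDerivAt_exp_smul_const (𝕂 := ℝ) b 0)
    have e : NormedSpace.exp ((0 : ℝ) • a) * a * NormedSpace.exp ((0 : ℝ) • b) +
        NormedSpace.exp ((0 : ℝ) • a) * (NormedSpace.exp ((0 : ℝ) • b) * b) = a + b := by simp
    rwa [e] at h1
  have hg' : HasDerivAt g (a + b) 0 := by
    have h1 : HasDerivAt g (NormedSpace.exp ((0 : ℝ) • (a + b)) * (a + b)) 0 :=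
      hasDerivAt_exp_smul_const (𝕂 := ℝ) (a + b) 0
    have e : NormedSpace.exp ((0 : ℝ) • (a + b)) * (a + b) = a + b := by
      rw [zero_smul, NormedSpace.exp_zero, one_mul]
    rwa [e] at h1
  have hf0 : f 0 = 1 := by simp [hf]
  have hg0 : g 0 = 1 := by simp [hg]
  set s : ℕ → ℝ := fun m => ((m : ℝ) + 1)⁻¹ with hs
  have hs0 : ∀ m, 0 < s m := fun m => by positivity
  have hst : Tendsto s atTop (𝓝 0) := by
    have := tendsto_one_div_add_atTop_nhds_zero_nat (𝕜 := ℝ)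
    simpa [hs, one_div] using this
  have hslope : ∀ F : ℝ → 𝔸, HasDerivAt F (a + b) 0 →
      Tendsto (fun m => (s m)⁻¹ • (F (s m) - F 0)) atTop (𝓝 (a + b)) := by
    intro F hF
    have h1 := hF.tendsto_slope_zero
    have h2 : Tendsto s atTop (𝓝[≠] 0) := by
      rw [tendsto_nhdsWithin_iff]
      exact ⟨hst, Eventually.of_forall fun m => (hs0 m).ne'⟩
    have h3 := h1.comp h2
    refine h3.congr fun m => ?_
    simp
  have h1 := hslope f hf'
  have h2 := hslope g hg'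
  have h3 : Tendsto (fun m => (s m)⁻¹ • (f (s m) - g (s m))) atTop (𝓝 0) := by
    have := h1.sub h2
    rw [sub_self] at this
    refine this.congr fun m => ?_
    rw [← smul_sub, hf0, hg0]
    congr 1
    abel
  set c : ℝ := ‖a + b‖ + 1 with hc
  have hc0 : 0 < c := by positivity
  have hbd : ∀ F : ℝ → 𝔸, HasDerivAt F (a + b) 0 → F 0 = 1 →
      ∀ᶠ m in atTop, ‖F (s m)‖ ≤ Real.exp (c * s m) := by
    intro F hF hF0
    have h4 := (hslope F hF).norm.eventually_le_const (show ‖a + b‖ < c by rw [hc]; linarith)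
    filter_upwards [h4] with m hm
    rw [norm_smul, norm_inv, Real.norm_of_nonneg (hs0 m).le, inv_mul_le_iff₀ (hs0 m), hF0] at hm
    have h5 : ‖F (s m)‖ ≤ 1 + c * s m := by
      have h6 : F (s m) = 1 + (F (s m) - 1) := by abel
      rw [h6]
      refine (norm_add_le _ _).trans ?_
      rw [norm_one]
      linarith
    have h7 := Real.add_one_le_exp (c * s m)
    linarith
  have hfb := hbd f hf' hf0
  have hgb := hbd g hg' hg0
  have hgp : ∀ m : ℕ, g (s m) ^ (m + 1) = NormedSpace.exp (a + b) := by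
    intro m
    rw [hg]
    simp only
    rw [← NormedSpace.exp_nsmul, ← Nat.cast_smul_eq_nsmul ℝ, smul_smul]
    congr 1
    have : (((m + 1 : ℕ) : ℝ)) * s m = 1 := by
      rw [hs]
      push_cast
      exact mul_inv_cancel₀ (by positivity)
    rw [this, one_smul]
  rw [tendsto_iff_norm_sub_tendsto_zero]
  have h4 : Tendsto (fun m => Real.exp c * ‖(s m)⁻¹ • (f (s m) - g (s m))‖) atTop (𝓝 0) := by
    have := (h3.norm).const_mul (Real.exp c)
    simpa using this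
  refine squeeze_zero' (Eventually.of_forall fun m => norm_nonneg _) ?_ h4
  filter_upwards [hfb, hgb] with m h5 h6
  have h7 := pow_sub_pow_le (Real.exp_pos (c * s m)).le h5 h6 m
  rw [hgp m] at h7
  refine h7.trans ?_
  rw [norm_smul, norm_inv, Real.norm_of_nonneg (hs0 m).le]
  have h8 : Real.exp (c * s m) ^ m ≤ Real.exp c := by
    rw [← Real.exp_nat_mul]
    apply Real.exp_le_exp.2
    have h9 : (m : ℝ) * s m ≤ 1 := by
      rw [hs]
      simp only
      rw [← div_eq_mul_inv, div_le_one (by positivity)]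
      linarith
    nlinarith
  have h9 : (s m)⁻¹ = (m : ℝ) + 1 := by rw [hs]; simp
  rw [h9]
  have h10 : 0 ≤ ‖f (s m) - g (s m)‖ := norm_nonneg _
  have h11 : ((m : ℝ) + 1) * Real.exp (c * s m) ^ m ≤ ((m : ℝ) + 1) * Real.exp c :=
    mul_le_mul_of_nonneg_left h8 (by positivity)
  calc _ ≤ ((m : ℝ) + 1) * Real.exp c * ‖f (s m) - g (s m)‖ :=
        mul_le_mul_of_nonneg_right h11 h10
    _ = _ := by ring

/-- the Golden-Thompson inequality -/
theorem golden_thompson {A B : Matrix n n ℝ} (hA : Aᵀ = A) (hB : Bᵀ = B) :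
    trace (NormedSpace.exp (A + B)) ≤ trace (NormedSpace.exp A * NormedSpace.exp B) := by
  rcases isEmpty_or_nonempty n with hn | hn
  · simp [Matrix.trace]
  let _ := Matrix.linftyOpNormedRing (n := n) (α := ℝ)
  let _ := Matrix.linftyOpNormedAlgebra (n := n) (R := ℝ) (α := ℝ)
  have h1 := lie_trotter A B
  have h2 : Tendsto (fun k : ℕ => 2 ^ k - 1) atTop atTop := by
    apply tendsto_atTop_mono (f := fun k => k) _ tendsto_id
    intro k
    have := Nat.lt_two_pow_self (n := k)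
    omega
  have h3 := h1.comp h2
  have htr : Continuous (fun M : Matrix n n ℝ => trace M) := by
    unfold Matrix.trace Matrix.diag
    fun_prop
  have h4 := (htr.tendsto _).comp h3
  refine le_of_tendsto h4 (Eventually.of_forall fun k => ?_)
  have hk : 2 ^ k - 1 + 1 = 2 ^ k := Nat.sub_add_cancel Nat.one_le_two_pow
  simp only [Function.comp]
  rw [hk]
  set s : ℝ := (((2 ^ k - 1 : ℕ) : ℝ) + 1)⁻¹ with hs
  have hs1 : s = ((2 ^ k : ℕ) : ℝ)⁻¹ := by
    rw [hs, ← Nat.cast_succ]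
    congr 2
  have hexpT : ∀ M : Matrix n n ℝ, Mᵀ = M → (NormedSpace.exp (s • M))ᵀ = NormedSpace.exp (s • M) := by
    intro M hM
    rw [← Matrix.exp_transpose, Matrix.transpose_smul, hM]
  have hexpP : ∀ M : Matrix n n ℝ, NormedSpace.exp (s • M) ^ 2 ^ k = NormedSpace.exp M := by
    intro M
    rw [← Matrix.exp_nsmul, ← Nat.cast_smul_eq_nsmul ℝ, smul_smul, hs1,
      mul_inv_cancel₀ (by positivity), one_smul]
  have h5 := (trace_TU (n := n) k).2 _ _ (hexpT A hA) (hexpT B hB)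
  rwa [hexpP, hexpP] at h5

end Pool.Agent.SHX.GT25
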