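import Pool.Agent.Lib.MP_a7b2aa_an.SHX.GTa25

/-!
The matrix Freedman inequality for real matrices (from the Golden-Thompson inequality).
-/

set_option autoImplicit false

open Filter Topology Finset Matrix

namespace Pool.Agent.SHX.GT25

variable {n : Type*} [Fintype n] [DecidableEq n]

/-! ### Spectral theorem -/

theorem spec {A : Matrix n n ℝ} (hA : Aᵀ = A) : ∃ (U : Matrix n n ℝ) (l : n → ℝ),
    U * Uᵀ = 1 ∧ Uᵀ * U = 1 ∧ A = U * diagonal l * Uᵀ := by
  have hH : A.IsHermitian := by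
    unfold Matrix.IsHermitian
    rw [Matrix.conjTranspose_eq_transpose_of_trivial, hA]
  refine ⟨(hH.eigenvectorUnitary : Matrix n n ℝ), hH.eigenvalues, ?_, ?_, ?_⟩
  · have := Unitary.coe_mul_star_self hH.eigenvectorUnitary
    rw [Unitary.coe_star, Matrix.star_eq_conjTranspose,
      Matrix.conjTranspose_eq_transpose_of_trivial] at this
    exact this
  · have := Unitary.coe_star_mul_self hH.eigenvectorUnitary
    rw [Matrix.star_eq_conjTranspose,
      Matrix.conjTranspose_eq_transpose_of_trivial] at this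
    exact this
  · have := hH.spectral_theorem
    rw [Unitary.conjStarAlgAut_apply, Matrix.star_eq_conjTranspose,
      Matrix.conjTranspose_eq_transpose_of_trivial] at this
    exact this

theorem exp_spec {U : Matrix n n ℝ} {l : n → ℝ} (h1 : U * Uᵀ = 1) :
    NormedSpace.exp (U * diagonal l * Uᵀ) = U * diagonal (fun i => Real.exp (l i)) * Uᵀ := by
  have hinv : U⁻¹ = Uᵀ := Matrix.inv_eq_right_inv h1
  have hU : IsUnit U := by
    rw [Matrix.isUnit_iff_isUnit_det]
    have : U.det * Uᵀ.det = 1 := by rw [← Matrix.det_mul, h1, Matrix.det_one]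
    exact IsUnit.of_mul_eq_one _ this
  rw [← hinv, Matrix.exp_conj _ _ hU, Matrix.exp_diagonal]
  congr 3
  funext i
  rw [Pi.coe_exp, Real.exp_eq_exp_ℝ]

theorem psd_spec {U : Matrix n n ℝ} {l : n → ℝ} (hl : ∀ i, 0 ≤ l i) :
    (U * diagonal l * Uᵀ).PosSemidef := by
  have h1 : (diagonal l).PosSemidef := Matrix.PosSemidef.diagonal hl
  have h2 := h1.mul_mul_conjTranspose_same U
  rwa [Matrix.conjTranspose_eq_transpose_of_trivial] at h2

theorem spec_nonneg {U : Matrix n n ℝ} {l : n → ℝ} (h2 : Uᵀ * U = 1)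
    (h : (U * diagonal l * Uᵀ).PosSemidef) (i : n) : 0 ≤ l i := by
  have h3 := h.conjTranspose_mul_mul_same U
  rw [Matrix.conjTranspose_eq_transpose_of_trivial] at h3
  have e : Uᵀ * (U * diagonal l * Uᵀ) * U = diagonal l := by
    calc Uᵀ * (U * diagonal l * Uᵀ) * U = (Uᵀ * U) * diagonal l * (Uᵀ * U) := by
          simp only [Matrix.mul_assoc]
      _ = diagonal l := by rw [h2, Matrix.one_mul, Matrix.mul_one]
  rw [e] at h3
  have := h3.diag_nonneg (i := i)
  rwa [Matrix.diagonal_apply_eq] at this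

theorem psd_exp {A : Matrix n n ℝ} (hA : Aᵀ = A) : (NormedSpace.exp A).PosSemidef := by
  obtain ⟨U, l, h1, h2, rfl⟩ := spec hA
  rw [exp_spec h1]
  exact psd_spec fun i => (Real.exp_pos _).le

/-- `exp Y ≤ 1 + Y + Y²` for `-1 ≤ Y ≤ 1` -/
theorem exp_le {Y : Matrix n n ℝ} (hY : Yᵀ = Y) (h1 : (1 - Y).PosSemidef)
    (h2 : (1 + Y).PosSemidef) : (1 + Y + Y * Y - NormedSpace.exp Y).PosSemidef := by
  obtain ⟨U, l, u1, u2, rfl⟩ := spec hY
  have e1 : (1 : Matrix n n ℝ) = U * diagonal (fun _ => (1 : ℝ)) * Uᵀ := by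
    rw [show (diagonal fun _ => (1 : ℝ)) = (1 : Matrix n n ℝ) from Matrix.diagonal_one,
      Matrix.mul_one, u1]
  have esub : ∀ a b : n → ℝ, U * diagonal a * Uᵀ - U * diagonal b * Uᵀ =
      U * diagonal (fun i => a i - b i) * Uᵀ := by
    intro a b
    rw [← Matrix.sub_mul, ← Matrix.mul_sub, Matrix.diagonal_sub]
  have eadd : ∀ a b : n → ℝ, U * diagonal a * Uᵀ + U * diagonal b * Uᵀ =
      U * diagonal (fun i => a i + b i) * Uᵀ := by
    intro a b
    rw [← Matrix.add_mul, ← Matrix.mul_add, Matrix.diagonal_add]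
  have emul : ∀ a b : n → ℝ, U * diagonal a * Uᵀ * (U * diagonal b * Uᵀ) =
      U * diagonal (fun i => a i * b i) * Uᵀ := by
    intro a b
    calc U * diagonal a * Uᵀ * (U * diagonal b * Uᵀ) =
          U * diagonal a * (Uᵀ * U) * diagonal b * Uᵀ := by simp only [Matrix.mul_assoc]
      _ = _ := by
          rw [u2, Matrix.mul_one, Matrix.mul_assoc U, Matrix.diagonal_mul_diagonal]
  rw [e1, esub] at h1
  rw [e1, eadd] at h2
  have g1 := spec_nonneg u2 h1
  have g2 := spec_nonneg u2 h2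
  rw [exp_spec u1, emul]
  conv in (1 + _) => rw [e1]
  rw [eadd, eadd, esub]
  apply psd_spec
  intro i
  have k1 := g1 i
  have k2 := g2 i
  have := Real.abs_exp_sub_one_sub_id_le (x := l i) (abs_le.2 ⟨by linarith, by linarith⟩)
  have := (abs_le.1 this).2
  nlinarith

omit [DecidableEq n] in
theorem psd_trace_mul {P Z : Matrix n n ℝ} (hP : Pᵀ = P) (hZ : Z.PosSemidef) :
    0 ≤ trace (P * P * Z) := by
  have h1 := hZ.conjTranspose_mul_mul_same P
  rw [Matrix.conjTranspose_eq_transpose_of_trivial, hP] at h1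
  have h2 := h1.trace_nonneg
  rwa [Matrix.trace_mul_comm, ← Matrix.mul_assoc] at h2

theorem trace_exp_mul {C Z : Matrix n n ℝ} (hC : Cᵀ = C) (hZ : Z.PosSemidef) :
    0 ≤ trace (NormedSpace.exp C * Z) := by
  have h1 : NormedSpace.exp C = NormedSpace.exp ((2 : ℝ)⁻¹ • C) * NormedSpace.exp ((2 : ℝ)⁻¹ • C) := by
    rw [← Matrix.exp_add_of_commute _ _ (Commute.refl _), ← add_smul]
    norm_num
  rw [h1]
  apply psd_trace_mul _ hZ
  rw [← Matrix.exp_transpose, Matrix.transpose_smul, hC]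

/-- the one step inequality -/
theorem one_step {C X W : Matrix n n ℝ} {θ : ℝ} (hC : Cᵀ = C) (hX : Xᵀ = X) (hW : W.PosSemidef)
    (hW1 : (1 - W).PosSemidef) (hXW : (W - X * X).PosSemidef) (hθ : 0 ≤ θ) (hθ1 : 4 * θ ≤ 1) :
    trace (NormedSpace.exp (C + (θ • X - (4 * θ ^ 2) • W))) ≤
      trace (NormedSpace.exp C) + θ * trace (NormedSpace.exp C * X) := by
  have hWt : Wᵀ = W := by
    have := hW.isHermitian
    unfold Matrix.IsHermitian at this
    rwa [Matrix.conjTranspose_eq_transpose_of_trivial] at this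
  set R := (4 * θ ^ 2) • W with hR
  set Y := θ • X - R with hYd
  have hRt : Rᵀ = R := by rw [hR, Matrix.transpose_smul, hWt]
  have hY : Yᵀ = Y := by
    rw [hYd, Matrix.transpose_sub, Matrix.transpose_smul, hX, hRt]
  have psq : ∀ M : Matrix n n ℝ, Mᵀ = M → (M * M).PosSemidef := by
    intro M hM
    have := Matrix.posSemidef_conjTranspose_mul_self M
    rwa [Matrix.conjTranspose_eq_transpose_of_trivial, hM] at this
  have hXX := psq X hX
  have p1 : (1 - X * X).PosSemidef := by
    have := hW1.add hXW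
    have e : 1 - W + (W - X * X) = 1 - X * X := by abel
    rwa [e] at this
  -- `-1 ≤ X ≤ 1`
  have sm : ∀ {M : Matrix n n ℝ} {c : ℝ}, 0 ≤ c → M.PosSemidef → (c • M).PosSemidef :=
    fun hc hM => hM.smul hc
  have hX1 : (1 - X).PosSemidef := by
    have h1 := (psq (1 - X) (by rw [Matrix.transpose_sub, hX, Matrix.transpose_one])).add p1
    have h2 := sm (c := 1 / 2) (by norm_num) h1
    have e : (1 / 2 : ℝ) • ((1 - X) * (1 - X) + (1 - X * X)) = 1 - X := by
      have : (1 - X) * (1 - X) + (1 - X * X) = (2 : ℝ) • (1 - X) := by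
        rw [two_smul]; noncomm_ring
      rw [this, smul_smul]; norm_num
    rwa [e] at h2
  have hX2 : (1 + X).PosSemidef := by
    have h1 := (psq (1 + X) (by rw [Matrix.transpose_add, hX, Matrix.transpose_one])).add p1
    have h2 := sm (c := 1 / 2) (by norm_num) h1
    have e : (1 / 2 : ℝ) • ((1 + X) * (1 + X) + (1 - X * X)) = 1 + X := by
      have : (1 + X) * (1 + X) + (1 - X * X) = (2 : ℝ) • (1 + X) := by
        rw [two_smul]; noncomm_ring
      rw [this, smul_smul]; norm_num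
    rwa [e] at h2
  have hθ2 : 4 * θ ^ 2 ≤ θ := by nlinarith
  have hI : ∀ {c : ℝ}, 0 ≤ c → (c • (1 : Matrix n n ℝ)).PosSemidef :=
    fun hc => sm hc Matrix.PosSemidef.one
  have hY1 : (1 - Y).PosSemidef := by
    have h1 := ((hI (c := 1 - θ) (by linarith)).add (sm hθ hX1)).add (sm (by positivity :
      0 ≤ 4 * θ ^ 2) hW)
    have e : (1 - θ) • (1 : Matrix n n ℝ) + θ • (1 - X) + (4 * θ ^ 2) • W = 1 - Y := by
      rw [hYd, hR, smul_sub, sub_smul, one_smul]; abel
    rwa [e] at h1
  have hY2 : (1 + Y).PosSemidef := by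
    have h1 := ((hI (c := 1 - θ - 4 * θ ^ 2) (by linarith)).add (sm hθ hX2)).add (sm (by positivity :
      0 ≤ 4 * θ ^ 2) hW1)
    have e : (1 - θ - 4 * θ ^ 2) • (1 : Matrix n n ℝ) + θ • (1 + X) + (4 * θ ^ 2) • (1 - W) =
        1 + Y := by
      rw [hYd, hR, smul_add, smul_sub, sub_smul, sub_smul, one_smul]; abel
    rwa [e] at h1
  have hexp := exp_le hY hY1 hY2
  -- `Y + Y² ≤ θ X`
  have hWW : (W - W * W).PosSemidef := by
    have h1 := (hW.conjTranspose_mul_mul_same (1 - W)).add (hW1.conjTranspose_mul_mul_same W)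
    rw [Matrix.conjTranspose_eq_transpose_of_trivial, Matrix.conjTranspose_eq_transpose_of_trivial,
      Matrix.transpose_sub, Matrix.transpose_one, hWt] at h1
    have e : (1 - W) * W * (1 - W) + W * (1 - W) * W = W - W * W := by noncomm_ring
    rwa [e] at h1
  have hYY : (θ • X - (Y + Y * Y)).PosSemidef := by
    have h1 := ((sm (by positivity : 0 ≤ 2 * θ ^ 2) hXW).add
      ((sm (by positivity : 0 ≤ 2 * θ ^ 2) hWW).add
        (sm (by nlinarith : 0 ≤ 2 * θ ^ 2 * (1 - 16 * θ ^ 2)) (psq W hWt)))).add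
      (psq (θ • X + R) (by rw [Matrix.transpose_add, Matrix.transpose_smul, hX, hRt]))
    have e : (2 * θ ^ 2) • (W - X * X) + ((2 * θ ^ 2) • (W - W * W) +
        (2 * θ ^ 2 * (1 - 16 * θ ^ 2)) • (W * W)) + (θ • X + R) * (θ • X + R) =
        θ • X - (Y + Y * Y) := by
      rw [hYd, hR]
      simp only [Matrix.mul_add, Matrix.add_mul, Matrix.mul_sub, Matrix.sub_mul,
        Matrix.smul_mul, Matrix.mul_smul, smul_add, smul_sub, smul_smul]
      module
    rwa [e] at h1
  have hfin : (1 + θ • X - NormedSpace.exp Y).PosSemidef := by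
    have h1 := hexp.add hYY
    have e : 1 + Y + Y * Y - NormedSpace.exp Y + (θ • X - (Y + Y * Y)) =
        1 + θ • X - NormedSpace.exp Y := by abel
    rwa [e] at h1
  have g1 := golden_thompson hC hY
  have g2 := trace_exp_mul hC hfin
  have g3 : trace (NormedSpace.exp C * (1 + θ • X - NormedSpace.exp Y)) =
      trace (NormedSpace.exp C) + θ * trace (NormedSpace.exp C * X) -
        trace (NormedSpace.exp C * NormedSpace.exp Y) := by
    rw [Matrix.mul_sub, Matrix.mul_add, Matrix.mul_one, Matrix.mul_smul, Matrix.trace_sub,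
      Matrix.trace_add, Matrix.trace_smul, smul_eq_mul]
  linarith

end Pool.Agent.SHX.GT25
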