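import Pool.Agent.Lib.MP_a7b2aa_an.SHX.StmtsX65

/-!
SHX, module GOODX (helper31): minimal bad classes are rare.
-/

set_option autoImplicit false

namespace Pool.Agent.SHXA

open Finset Pool.Agent.SB3 Pool.Agent.SBT Pool.Agent.SBD Pool.Agent.SHD Pool.Agent.SHX
open Pool.Agent.Lib.MP_a7b2aa_an.SHX

namespace Gx31

/-! ### boxes -/

theorem mem_bx {m : ℕ} {H : Fin (m + 1) → ℕ} {Q : Finset (Fin (m + 1))} {c l : Fin (m + 1) → ℕ} :
    l ∈ bx H Q c ↔ (∀ a ∈ Q, l a ≤ H a) ∧ ∀ a, a ∉ Q → l a = c a := by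
  unfold bx
  rw [Fintype.mem_piFinset]
  constructor
  · intro h
    refine ⟨fun a ha => ?_, fun a ha => ?_⟩
    · have := h a
      rw [if_pos ha] at this
      have := mem_range.1 this
      omega
    · have := h a
      rw [if_neg ha] at this
      exact mem_singleton.1 this
  · rintro ⟨h1, h2⟩ a
    by_cases ha : a ∈ Q
    · rw [if_pos ha]
      exact mem_range.2 (by have := h1 a ha; omega)
    · rw [if_neg ha]
      exact mem_singleton.2 (h2 a ha)

theorem bx_cg {m : ℕ} {H H' : Fin (m + 1) → ℕ} {Q : Finset (Fin (m + 1))}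
    {c c' : Fin (m + 1) → ℕ} (h1 : ∀ a ∈ Q, H a = H' a) (h2 : ∀ a, a ∉ Q → c a = c' a) :
    bx H Q c = bx H' Q c' := by
  ext l
  rw [mem_bx, mem_bx]
  constructor
  · rintro ⟨h3, h4⟩
    exact ⟨fun a ha => by rw [← h1 a ha]; exact h3 a ha, fun a ha => by rw [← h2 a ha]; exact h4 a ha⟩
  · rintro ⟨h3, h4⟩
    exact ⟨fun a ha => by rw [h1 a ha]; exact h3 a ha, fun a ha => by rw [h2 a ha]; exact h4 a ha⟩

theorem ph_base {m : ℕ} (H d : Fin (m + 1) → ℕ) (w : Fin (m + 1) → Finset ℕ)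
    (Q : Finset (Fin (m + 1))) (F : (Fin (m + 1) → ℕ) → ℝ) {c c' : Fin (m + 1) → ℕ}
    (h : ∀ a, a ∉ Q → c a = c' a) : Ph H d w Q F c = Ph H d w Q F c' := by
  unfold Ph
  rw [bx_cg (fun _ _ => rfl) h]

/-- one more string in the box -/
theorem sum_bx_insert {m : ℕ} (H : Fin (m + 1) → ℕ) {C : Finset (Fin (m + 1))}
    {e : Fin (m + 1)} (he : e ∉ C) (f : (Fin (m + 1) → ℕ) → ℝ) :
    ∑ x ∈ bx H (insert e C) 0, f x =
      ∑ r ∈ range (H e + 1), ∑ x ∈ bx H C 0, f (Function.update x e r) := by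
  rw [Finset.sum_sigma']
  refine Finset.sum_bij' (fun x _ => (⟨x e, Function.update x e 0⟩ : Σ _ : ℕ, (Fin (m + 1) → ℕ)))
    (fun s _ => Function.update s.2 e s.1) ?_ ?_ ?_ ?_ ?_
  · intro x hx
    rw [mem_bx] at hx
    rw [mem_sigma]
    refine ⟨mem_range.2 (by have := hx.1 e (mem_insert_self e C); simp only; omega), ?_⟩
    rw [mem_bx]
    refine ⟨fun a ha => ?_, fun a ha => ?_⟩
    · have hae : a ≠ e := fun h => he (h ▸ ha)
      simp only [Function.update_of_ne hae]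
      exact hx.1 a (mem_insert_of_mem ha)
    · by_cases hae : a = e
      · subst hae
        simp
      · simp only [Function.update_of_ne hae]
        exact hx.2 a (by simp [hae, ha])
  · rintro ⟨r, x⟩ hs
    rw [mem_sigma] at hs
    obtain ⟨h1, h2⟩ := hs
    rw [mem_bx] at h2
    rw [mem_bx]
    have h1' := mem_range.1 h1
    simp only at h1' h2
    refine ⟨fun a ha => ?_, fun a ha => ?_⟩
    · by_cases hae : a = e
      · subst hae
        simp only [Function.update_self]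
        omega
      · simp only [Function.update_of_ne hae]
        exact h2.1 a ((mem_insert.1 ha).resolve_left hae)
    · have hae : a ≠ e := fun h => ha (h ▸ mem_insert_self _ _)
      simp only [Function.update_of_ne hae]
      exact h2.2 a (fun h => ha (mem_insert_of_mem h))
  · intro x hx
    simp
  · rintro ⟨r, x⟩ hs
    rw [mem_sigma] at hs
    obtain ⟨h1, h2⟩ := hs
    rw [mem_bx] at h2
    simp only at h2
    have h0 : x e = 0 := by
      have := h2.2 e he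
      simpa using this
    have : Function.update x e 0 = x := by
      funext a
      by_cases hae : a = e
      · subst hae
        simp [h0]
      · simp [Function.update_of_ne hae]
    simp [this]
  · intro x hx
    simp

/-! ### functionals -/

theorem ph_upd {m : ℕ} (hP : PhF m) (H d : Fin (m + 1) → ℕ) (w : Fin (m + 1) → Finset ℕ)
    (e : Fin (m + 1)) (k : ℕ) (G : (Fin (m + 1) → ℕ) → ℝ) (Q : Finset (Fin (m + 1))) (he : e ∉ Q)
    (x : Fin (m + 1) → ℕ) : Ph H d w Q (fun c' => G (Function.update c' e k)) x =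
      Ph H d w Q G (Function.update x e k) := by
  induction Q using Finset.induction_on generalizing x with
  | empty => rw [hP.empty, hP.empty]
  | insert j Q hj ih =>
    have hje : j ≠ e := fun h => he (h ▸ mem_insert_self _ _)
    have heQ : e ∉ Q := fun h => he (mem_insert_of_mem h)
    rw [hP.ins _ _ _ _ _ _ _ hj, hP.ins _ _ _ _ _ _ _ hj]
    congr 1
    funext l
    rw [ih heQ, Function.update_comm hje]

theorem compl_ins {m : ℕ} {B : Finset (Fin (m + 1))} {e : Fin (m + 1)} (he : e ∉ B) :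
    Bᶜ = insert e ((insert e B)ᶜ) := by
  ext a
  simp only [mem_compl, mem_insert, not_or]
  constructor
  · intro h
    by_cases hae : a = e
    · exact Or.inl hae
    · exact Or.inr ⟨hae, h⟩
  · rintro (h | h)
    · rw [h]; exact he
    · exact h.2

/-- the identity behind the propagation -/
theorem ident {m L K : ℕ} {lam : ℝ} {u Z W : (Fin (m + 1) → ℕ) → Pt m L → ℝ}
    {ka : Finset (Fin (m + 1)) → (Fin (m + 1) → ℕ) → Pt m L → ℝ} (hP : PhF m)
    (hE : Exact lam u Z ka W) {H : Fin (m + 1) → ℕ} {B : Finset (Fin (m + 1))} {e : Fin (m + 1)}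
    (hW : Walx K (H e)) (hB : B.Nonempty) (he : e ∉ B) {ω : Pt m L}
    (hz : ∀ c : Fin (m + 1) → ℕ, (∀ a, c a ≤ H a) → c e < H e → Z c ω ≠ 0 ∧ |ka {e} c ω| < 1)
    (w : Fin (m + 1) → Finset ℕ) (x : Fin (m + 1) → ℕ) (hx : ∀ a ∈ B, x a ≤ H a) :
    Ph H tm w Bᶜ (fun c => ka B c ω) x =
      ∑ k ∈ range (H e), wal (w e) k * Ph H tm w (insert e B)ᶜ
        (fun l => Vv (ka {e} l ω) (fun C => ka (insert e C) l ω) B +
          Kk (ka {e} l ω) (fun C => ka (insert e C) l ω) B * (sb e (l e) ω - ka {e} l ω))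
        (Function.update x e k) := by
  have heQ : e ∉ (insert e B)ᶜ := by simp
  rw [compl_ins he, hP.ins' _ _ _ _ e _ _ heQ]
  have h1 : (fun c' : Fin (m + 1) → ℕ => Fu (H e) ((tm : Fin (m + 1) → ℕ) e) (w e)
      (fun l => ka B (Function.update c' e l) ω)) = fun c' => ∑ k ∈ range (H e), wal (w e) k *
        (ka B (Function.update c' e (k + 1)) ω - ka B (Function.update c' e k) ω) := by
    funext c'
    exact hW.parts (w e) (fun l => ka B (Function.update c' e l) ω)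
      (hE.van B _ ω e hB he (by simp))
  rw [h1, hP.sum]
  refine Finset.sum_congr rfl fun k hk => ?_
  rw [hP.smul]
  congr 1
  rw [← ph_upd hP H tm w e k _ _ heQ x]
  refine hP.cg _ _ _ _ _ _ _ fun l hl => ?_
  rw [mem_bx] at hl
  have hk' := mem_range.1 hk
  have hc : ∀ a, Function.update l e k a ≤ H a := fun a => by
    by_cases hae : a = e
    · subst hae
      simp only [Function.update_self]
      omega
    · rw [Function.update_of_ne hae]
      by_cases haB : a ∈ B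
      · rw [hl.2 a (by simp [haB])]
        exact hx a haB
      · exact hl.1 a (by simp [hae, haB])
  obtain ⟨h2, h3⟩ := hz _ hc (by simpa using hk')
  have h4 := hE.star B e (Function.update l e k) ω hB he h2 h3
  have h5 : upc (Function.update l e k) e = Function.update l e (k + 1) := by
    unfold upc
    simp
  rw [h5] at h4
  rw [h4]
  ring

theorem fn_cgH {m : ℕ} {H H' : Fin (m + 1) → ℕ} {C : Finset (Fin (m + 1))} {b : ℝ}
    {F : (Fin (m + 1) → ℕ) → ℝ} (h : ∀ a ∈ C, H a = H' a) (hF : FN H C b F) : FN H' C b F := by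
  refine ⟨fun x hx => hF.sup x ?_, fun C1 C2 hd hu h1 h2 => ?_⟩
  · rw [bx_cg h (fun _ _ => rfl)]
    exact hx
  · have := hF.mat C1 C2 hd hu h1 h2
    have e1 : bx H C1 0 = bx H' C1 0 :=
      bx_cg (fun a ha => h a (hu ▸ mem_union_left _ ha)) (fun _ _ => rfl)
    have e2 : bx H C2 0 = bx H' C2 0 :=
      bx_cg (fun a ha => h a (hu ▸ mem_union_right _ ha)) (fun _ _ => rfl)
    unfold NX at this ⊢
    rw [← e1, ← e2]
    exact this

/-! ### the kernel -/

/-- modes: index on `B`, time elsewhere -/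
def dm {m : ℕ} (B : Finset (Fin (m + 1))) : Fin (m + 1) → ℕ := fun j => if j ∈ B then 0 else 1

/-- weights: trivial on `B` -/
def wm {m : ℕ} (B : Finset (Fin (m + 1))) (w : Fin (m + 1) → Finset ℕ) : Fin (m + 1) → Finset ℕ :=
  fun j => if j ∈ B then ∅ else w j

theorem ph_ind {m : ℕ} (hP : PhF m) (H : Fin (m + 1) → ℕ) (v : Fin (m + 1) → Finset ℕ)
    {B : Finset (Fin (m + 1))} {e : Fin (m + 1)} (he : e ∉ B) {p : Fin (m + 1) → ℕ}
    (hp : ∀ a ∈ B, p a ≤ H a) (G : (Fin (m + 1) → ℕ) → ℝ) (r : ℕ) :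
    Ph H (dm B) v (univ.erase e) (fun c => if ∀ a ∈ B, c a = p a then G c else 0)
      (Function.update 0 e r) =
      (∏ j ∈ B, wal (v j) (p j)) * Ph H tm v (insert e B)ᶜ G (Function.update p e r) := by
  have h1 : (univ.erase e : Finset (Fin (m + 1))) = B ∪ (insert e B)ᶜ := by
    ext a
    simp only [mem_erase, mem_univ, and_true, mem_union, mem_compl, mem_insert, not_or]
    constructor
    · intro h
      by_cases haB : a ∈ B
      · exact Or.inl haB
      · exact Or.inr ⟨h, haB⟩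
    · rintro (h | h)
      · exact fun h' => he (h' ▸ h)
      · exact h.1
  have h2 : Disjoint B (insert e B)ᶜ := by
    rw [Finset.disjoint_left]
    intro a ha ha'
    rw [mem_compl] at ha'
    exact ha' (mem_insert_of_mem ha)
  rw [h1, hP.union _ _ _ _ _ _ _ h2]
  set c : Fin (m + 1) → ℕ := Function.update 0 e r with hc
  set l0 : Fin (m + 1) → ℕ := fun a => if a ∈ B then p a else c a with hl0
  have hl0m : l0 ∈ bx H B c := by
    rw [mem_bx]
    refine ⟨fun a ha => ?_, fun a ha => ?_⟩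
    · rw [hl0]
      simp only [if_pos ha]
      exact hp a ha
    · rw [hl0]
      simp only [if_neg ha]
  conv_lhs => unfold Ph
  rw [Finset.sum_eq_single l0]
  · have e1 : ∏ j ∈ B, wt (H j) (dm B j) (v j) (l0 j) = ∏ j ∈ B, wal (v j) (p j) := by
      refine Finset.prod_congr rfl fun j hj => ?_
      have : dm B j = 0 := by unfold dm; rw [if_pos hj]
      rw [this, hl0]
      simp only [if_pos hj]
      unfold wt
      rw [if_pos rfl]
    rw [e1]
    congr 1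
    change Ph H (dm B) v (insert e B)ᶜ _ l0 = _
    rw [hP.cgw H H (dm B) tm v v (insert e B)ᶜ _ _ (fun j hj => ⟨rfl, by
      unfold dm tm
      rw [if_neg (fun h => (mem_compl.1 hj) (mem_insert_of_mem h))], rfl⟩)]
    rw [hP.cg H tm v (insert e B)ᶜ _ G l0 (fun l hl => by
      rw [mem_bx] at hl
      have : ∀ a ∈ B, l a = p a := fun a ha => by
        rw [hl.2 a (by simp [ha]), hl0]
        exact if_pos ha
      rw [if_pos this])]
    refine ph_base _ _ _ _ _ fun a ha => ?_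
    rw [mem_compl, not_not, mem_insert] at ha
    rcases ha with ha | ha
    · subst ha
      rw [hl0]
      simp only [if_neg he, hc, Function.update_self]
    · rw [hl0]
      simp only [if_pos ha]
      rw [Function.update_of_ne (fun h : a = e => he (h ▸ ha))]
  · intro l hl hne
    rw [mem_bx] at hl
    have : ∑ l' ∈ bx H (insert e B)ᶜ l, (∏ j ∈ (insert e B)ᶜ, wt (H j) (dm B j) (v j) (l' j)) *
        (if ∀ a ∈ B, l' a = p a then G l' else 0) = 0 := by
      refine Finset.sum_eq_zero fun l' hl' => ?_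
      rw [mem_bx] at hl'
      rw [if_neg, mul_zero]
      intro h
      refine hne ?_
      funext a
      rw [hl0]
      by_cases haB : a ∈ B
      · simp only [if_pos haB]
        rw [← h a haB, hl'.2 a (by simp [haB])]
      · simp only [if_neg haB]
        exact hl.2 a haB
    rw [this, mul_zero]
  · intro h
    exact absurd hl0m h

/-- the kernel of the fresh part -/
noncomputable def Psg {m L : ℕ} {X Y : Type}
    (ka : Finset (Fin (m + 1)) → (Fin (m + 1) → ℕ) → Pt m L → ℝ) (B : Finset (Fin (m + 1)))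
    (e : Fin (m + 1)) (w : Fin (m + 1) → Finset ℕ) (p : X → Y → Fin (m + 1) → ℕ) (x : X) (y : Y)
    (c : Fin (m + 1) → ℕ) (ω : Pt m L) : ℝ :=
  if ∀ a ∈ B, c a = p x y a then
    wal (w e) (c e) * Kk (ka {e} c ω) (fun C => ka (insert e C) c ω) B else 0

theorem dep_e {m : ℕ} {B : Finset (Fin (m + 1))} {e : Fin (m + 1)} (S : Finset ℕ) :
    Dep ((insert e B)ᶜ)ᶜ (fun c : Fin (m + 1) → ℕ => wal S (c e)) := by
  intro c j t hj
  have hje : e ≠ j := fun h => hj (by rw [compl_compl, ← h]; exact mem_insert_self _ _)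
  simp only
  rw [Function.update_of_ne hje]

theorem km_eq {m L : ℕ} {X Y : Type} (hP : PhF m) (H : Fin (m + 1) → ℕ)
    (ka : Finset (Fin (m + 1)) → (Fin (m + 1) → ℕ) → Pt m L → ℝ)
    (w v : Fin (m + 1) → Finset ℕ) {B : Finset (Fin (m + 1))} {e : Fin (m + 1)} (he : e ∉ B)
    (p : X → Y → Fin (m + 1) → ℕ) (x : X) (y : Y) (hp : ∀ a ∈ B, p x y a ≤ H a) (ω : Pt m L)
    (r : ℕ) :
    KM H e (dm B) v (Psg ka B e w p) ω r x y =
      (∏ j ∈ B, wal (v j) (p x y j)) * (wal (w e) r * Ph H tm v (insert e B)ᶜ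
        (fun c => Kk (ka {e} c ω) (fun C => ka (insert e C) c ω) B)
          (Function.update (p x y) e r)) := by
  unfold KM Psg
  rw [ph_ind hP H v he hp (fun c => wal (w e) (c e) *
    Kk (ka {e} c ω) (fun C => ka (insert e C) c ω) B) r]
  rw [hP.mul H tm v (insert e B)ᶜ _ (fun c => wal (w e) (c e)) _ (dep_e (w e))]
  rw [Function.update_self]

theorem ss_eq {m L : ℕ} {X Y : Type} (hP : PhF m) (H : Fin (m + 1) → ℕ)
    (ka : Finset (Fin (m + 1)) → (Fin (m + 1) → ℕ) → Pt m L → ℝ)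
    (w : Fin (m + 1) → Finset ℕ) {B : Finset (Fin (m + 1))} {e : Fin (m + 1)} (he : e ∉ B)
    (p : X → Y → Fin (m + 1) → ℕ) (x : X) (y : Y) (hp : ∀ a ∈ B, p x y a ≤ H a) (ω : Pt m L) :
    SS ka H e (dm B) (wm B w) (Psg ka B e w p) ω x y =
      ∑ r ∈ range (H e), wal (w e) r * Ph H tm w (insert e B)ᶜ
        (fun c => Kk (ka {e} c ω) (fun C => ka (insert e C) c ω) B *
          (sb e (c e) ω - ka {e} c ω)) (Function.update (p x y) e r) := by
  unfold SS
  refine Finset.sum_congr rfl fun r _ => ?_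
  have h1 : (fun c => Psg ka B e w p x y c ω * (sb e (c e) ω - ka {e} c ω)) =
      fun c => if ∀ a ∈ B, c a = p x y a then wal (w e) (c e) *
        (Kk (ka {e} c ω) (fun C => ka (insert e C) c ω) B * (sb e (c e) ω - ka {e} c ω)) else 0 := by
    funext c
    unfold Psg
    split_ifs
    · ring
    · rw [zero_mul]
  rw [h1, ph_ind hP H (wm B w) he hp (fun c => wal (w e) (c e) *
    (Kk (ka {e} c ω) (fun C => ka (insert e C) c ω) B * (sb e (c e) ω - ka {e} c ω))) r]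
  have h2 : ∏ j ∈ B, wal (wm B w j) (p x y j) = 1 := by
    refine Finset.prod_eq_one fun j hj => ?_
    unfold wm
    rw [if_pos hj, wal_empty]
  rw [h2, one_mul, hP.cgw H H tm tm (wm B w) w (insert e B)ᶜ _ _ (fun j hj => ⟨rfl, rfl, by
    unfold wm
    rw [if_neg (fun h => (mem_compl.1 hj) (mem_insert_of_mem h))]⟩)]
  rw [hP.mul H tm w (insert e B)ᶜ _ (fun c => wal (w e) (c e)) _ (dep_e (w e))]
  rw [Function.update_self]

theorem ker_psg {m L : ℕ} {X Y : Type} {lam : ℝ} {u Z W : (Fin (m + 1) → ℕ) → Pt m L → ℝ}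
    {ka : Finset (Fin (m + 1)) → (Fin (m + 1) → ℕ) → Pt m L → ℝ} (hE : Exact lam u Z ka W)
    (H : Fin (m + 1) → ℕ) (w : Fin (m + 1) → Finset ℕ) (B : Finset (Fin (m + 1)))
    (e : Fin (m + 1)) (p : X → Y → Fin (m + 1) → ℕ) : Ker H e (dm B) (Psg ka B e w p) := by
  refine ⟨fun x y c _ _ ω ω' hcl => ?_, fun x y c j ω hj hd hc => ?_⟩
  · unfold Psg
    have h1 : ka {e} c ω' = ka {e} c ω := hE.msk {e} c ω ω' hcl
    have h2 : (fun C => ka (insert e C) c ω') = fun C => ka (insert e C) c ω := by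
      funext C
      exact hE.msk _ c ω ω' hcl
    rw [h1, h2]
  · unfold Psg
    have hjB : j ∉ B := fun h => by
      unfold dm at hd
      rw [if_pos h] at hd
      exact absurd hd (by norm_num)
    have : Kk (ka {e} c ω) (fun C => ka (insert e C) c ω) B = 0 := by
      classical
      unfold Kk
      refine Finset.sum_eq_zero fun C hC => ?_
      have hCB : C ⊆ B := mem_powerset.1 (Finset.filter_subset _ _ hC)
      have : ka (insert e C) c ω = 0 := hE.van _ c ω j (insert_nonempty _ _) (by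
        rw [mem_insert, not_or]
        exact ⟨hj, fun h => hjB (hCB h)⟩) hc
      change ka (insert e C) c ω * _ = 0
      rw [this, zero_mul]
    rw [this, mul_zero, ite_self]

/-- square functions from a splitting -/
theorem sqf {m : ℕ} {H H' : Fin (m + 1) → ℕ} {C1 C2 : Finset (Fin (m + 1))} {e : Fin (m + 1)}
    (he1 : e ∉ C1) (he2 : e ∉ C2) (hH : H' e + 1 = H e) (hH' : ∀ a, a ≠ e → H' a = H a) {b : ℝ}
    {A : (Fin (m + 1) → ℕ) → ℝ} (hA : NX H' (insert e C1) C2 b A)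
    (θ1 θ2 : (Fin (m + 1) → ℕ) → ℝ) (θ3 : ℕ → ℝ) (h1 : ∀ x, |θ1 x| = 1) (h2 : ∀ x, |θ2 x| = 1)
    (h3 : ∀ r, |θ3 r| = 1) (u : (Fin (m + 1) → ℕ) → ℝ) :
    ∑ r ∈ range (H e), ∑ x ∈ bx H C1 0, (∑ y ∈ bx H C2 0,
      (θ3 r * (θ1 x * θ2 y) * A (Function.update (x + y) e r)) * u y) ^ 2 ≤
      b ^ 2 * ∑ y ∈ bx H C2 0, u y ^ 2 := by
  have e1 : bx H' C1 0 = bx H C1 0 :=
    bx_cg (fun a ha => hH' a (fun h => he1 (h ▸ ha))) (fun _ _ => rfl)
  have e2 : bx H' C2 0 = bx H C2 0 :=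
    bx_cg (fun a ha => hH' a (fun h => he2 (h ▸ ha))) (fun _ _ => rfl)
  have h4 := hA (fun y => θ2 y * u y)
  rw [sum_bx_insert H' he1, hH, e1, e2] at h4
  have h5 : ∑ y ∈ bx H C2 0, (θ2 y * u y) ^ 2 = ∑ y ∈ bx H C2 0, u y ^ 2 := by
    refine Finset.sum_congr rfl fun y _ => ?_
    rw [mul_pow, ← sq_abs (θ2 y), h2, one_pow, one_mul]
  rw [h5] at h4
  refine le_trans (le_of_eq ?_) h4
  refine Finset.sum_congr rfl fun r _ => Finset.sum_congr rfl fun x _ => ?_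
  have h6 : ∑ y ∈ bx H C2 0, (θ3 r * (θ1 x * θ2 y) * A (Function.update (x + y) e r)) * u y =
      (θ3 r * θ1 x) * ∑ y ∈ bx H C2 0, A (Function.update x e r + y) * (θ2 y * u y) := by
    rw [Finset.mul_sum]
    refine Finset.sum_congr rfl fun y hy => ?_
    have hy0 : y e = 0 := by
      have := (mem_bx.1 hy).2 e he2
      simpa using this
    have h7 : Function.update (x + y) e r = Function.update x e r + y := by
      funext a
      by_cases hae : a = e
      · subst hae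
        simp [hy0]
      · simp [Function.update_of_ne hae]
    rw [h7]
    ring
  rw [h6, mul_pow, mul_pow, ← sq_abs (θ3 r), ← sq_abs (θ1 x), h1, h3]
  ring

/-! ### masses -/

theorem av_mono {m L : ℕ} {f g : Pt m L → ℝ} (h : ∀ ω, f ω ≤ g ω) : Av f ≤ Av g := by
  unfold Av
  exact div_le_div_of_nonneg_right (Finset.sum_le_sum fun ω _ => h ω) (by positivity)

theorem av_sum {m L : ℕ} {ι : Type} (s : Finset ι) (f : ι → Pt m L → ℝ) :
    Av (fun ω => ∑ i ∈ s, f i ω) = ∑ i ∈ s, Av (f i) := by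
  unfold Av
  rw [Finset.sum_comm, Finset.sum_div]

theorem pp_mono {m L : ℕ} {G : (Fin (m + 1) → ℕ) → Pt m L → Prop}
    {Z : (Fin (m + 1) → ℕ) → Pt m L → ℝ} {H : Fin (m + 1) → ℕ} {E E' : Pt m L → Prop}
    (hZ : ∀ ω, Gl G H ω → 0 ≤ Z H ω) (h : ∀ ω, Gl G H ω → E ω → E' ω) :
    PP G Z H E ≤ PP G Z H E' := by
  classical
  unfold PP
  refine av_mono fun ω => ?_
  by_cases h1 : Gl G H ω ∧ E ω
  · rw [if_pos h1, if_pos ⟨h1.1, h ω h1.1 h1.2⟩]
  · rw [if_neg h1]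
    split_ifs with h2
    · exact hZ ω h2.1
    · exact le_refl _

theorem pp_ex {m L : ℕ} {G : (Fin (m + 1) → ℕ) → Pt m L → Prop}
    {Z : (Fin (m + 1) → ℕ) → Pt m L → ℝ} {H : Fin (m + 1) → ℕ} {ι : Type} (s : Finset ι)
    {E : ι → Pt m L → Prop} {δ : ℝ} (hZ : ∀ ω, Gl G H ω → 0 ≤ Z H ω)
    (h : ∀ i ∈ s, PP G Z H (E i) ≤ δ) :
    PP G Z H (fun ω => ∃ i ∈ s, E i ω) ≤ s.card * δ := by
  classical
  have h1 : PP G Z H (fun ω => ∃ i ∈ s, E i ω) ≤ ∑ i ∈ s, PP G Z H (E i) := by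
    unfold PP
    rw [← av_sum]
    refine av_mono fun ω => ?_
    have h0 : ∀ i ∈ s, (0 : ℝ) ≤ if Gl G H ω ∧ E i ω then Z H ω else 0 := fun i _ => by
      split_ifs with h2
      · exact hZ ω h2.1
      · exact le_refl _
    by_cases h2 : Gl G H ω ∧ ∃ i ∈ s, E i ω
    · obtain ⟨h3, i, hi, h4⟩ := h2
      rw [if_pos ⟨h3, i, hi, h4⟩]
      refine le_trans (le_of_eq ?_) (Finset.single_le_sum h0 hi)
      rw [if_pos ⟨h3, h4⟩]
    · rw [if_neg h2]
      exact Finset.sum_nonneg h0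
  refine h1.trans ((Finset.sum_le_sum h).trans (le_of_eq ?_))
  rw [Finset.sum_const, nsmul_eq_mul]

theorem pp_or {m L : ℕ} {G : (Fin (m + 1) → ℕ) → Pt m L → Prop}
    {Z : (Fin (m + 1) → ℕ) → Pt m L → ℝ} {H : Fin (m + 1) → ℕ}
    {E E' : Pt m L → Prop} {δ δ' : ℝ} (hZ : ∀ ω, Gl G H ω → 0 ≤ Z H ω)
    (h : PP G Z H E ≤ δ) (h' : PP G Z H E' ≤ δ') :
    PP G Z H (fun ω => E ω ∨ E' ω) ≤ δ + δ' := by
  classical
  refine le_trans ?_ (add_le_add h h')
  have h1 : Av (fun ω => (if Gl G H ω ∧ E ω then Z H ω else 0) +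
      (if Gl G H ω ∧ E' ω then Z H ω else 0)) = PP G Z H E + PP G Z H E' := by
    unfold PP Av
    rw [Finset.sum_add_distrib, add_div]
  rw [← h1]
  unfold PP
  refine av_mono fun ω => ?_
  by_cases h2 : Gl G H ω
  · have h3 := hZ ω h2
    by_cases h4 : E ω <;> by_cases h5 : E' ω <;> simp [h2, h4, h5, h3]
  · simp [h2]

/-! ### sums of matrices -/

theorem nx_add {m : ℕ} {H : Fin (m + 1) → ℕ} {C1 C2 : Finset (Fin (m + 1))} {a b : ℝ}
    {F G : (Fin (m + 1) → ℕ) → ℝ} (ha : 0 ≤ a) (hb : 0 ≤ b) (hF : NX H C1 C2 a F)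
    (hG : NX H C1 C2 b G) : NX H C1 C2 (a + b) (fun c => F c + G c) := by
  intro u
  have h1 := hF u
  have h2 := hG u
  set U := ∑ y ∈ bx H C2 0, u y ^ 2 with hU
  have hU0 : 0 ≤ U := Finset.sum_nonneg fun _ _ => sq_nonneg _
  set P : (Fin (m + 1) → ℕ) → ℝ := fun x => ∑ y ∈ bx H C2 0, F (x + y) * u y with hP
  set Q : (Fin (m + 1) → ℕ) → ℝ := fun x => ∑ y ∈ bx H C2 0, G (x + y) * u y with hQ
  have h3 : ∀ x, ∑ y ∈ bx H C2 0, (F (x + y) + G (x + y)) * u y = P x + Q x := fun x => by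
    rw [hP, hQ]
    simp only
    rw [← Finset.sum_add_distrib]
    exact Finset.sum_congr rfl fun _ _ => by ring
  have h4 : ∑ x ∈ bx H C1 0, (P x + Q x) ^ 2 = ∑ x ∈ bx H C1 0, P x ^ 2 +
      2 * ∑ x ∈ bx H C1 0, P x * Q x + ∑ x ∈ bx H C1 0, Q x ^ 2 := by
    rw [Finset.mul_sum, ← Finset.sum_add_distrib, ← Finset.sum_add_distrib]
    exact Finset.sum_congr rfl fun _ _ => by ring
  have h5 : (∑ x ∈ bx H C1 0, P x * Q x) ^ 2 ≤ (a * b * U) ^ 2 := by
    refine (Finset.sum_mul_sq_le_sq_mul_sq _ _ _).trans ?_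
    have : (a * b * U) ^ 2 = (a ^ 2 * U) * (b ^ 2 * U) := by ring
    rw [this]
    exact mul_le_mul h1 h2 (Finset.sum_nonneg fun _ _ => sq_nonneg _) (by positivity)
  have h6 : ∑ x ∈ bx H C1 0, P x * Q x ≤ a * b * U := by
    exact (le_abs_self _).trans (abs_le_of_sq_le_sq h5 (by positivity))
  simp only [h3]
  rw [h4]
  have h7 : (∑ x ∈ bx H C1 0, P x ^ 2) ≤ a ^ 2 * U := h1
  have h8 : (∑ x ∈ bx H C1 0, Q x ^ 2) ≤ b ^ 2 * U := h2
  nlinarith

theorem nx_mono {m : ℕ} {H : Fin (m + 1) → ℕ} {C1 C2 : Finset (Fin (m + 1))} {a b : ℝ}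
    {F G : (Fin (m + 1) → ℕ) → ℝ} (ha : 0 ≤ a) (hab : a ≤ b)
    (h : ∀ x ∈ bx H C1 0, ∀ y ∈ bx H C2 0, F (x + y) = G (x + y)) (hF : NX H C1 C2 a F) :
    NX H C1 C2 b G := by
  intro u
  refine le_trans (le_of_eq ?_) ((hF u).trans ?_)
  · refine Finset.sum_congr rfl fun x hx => ?_
    congr 1
    exact Finset.sum_congr rfl fun y hy => by rw [h x hx y hy]
  · exact mul_le_mul_of_nonneg_right (pow_le_pow_left₀ ha hab 2)
      (Finset.sum_nonneg fun _ _ => sq_nonneg _)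

theorem card_bx {m L : ℕ} {H : Fin (m + 1) → ℕ} (hH : ∀ a, H a ≤ L) (C : Finset (Fin (m + 1))) :
    (bx H C 0).card ≤ (L + 1) ^ (m + 1) := by
  unfold bx
  rw [Fintype.card_piFinset]
  refine (Finset.prod_le_pow_card _ _ (L + 1) fun a _ => ?_).trans (by simp)
  split_ifs
  · rw [card_range]
    have := hH a
    omega
  · rw [card_singleton]
    omega

/-! ### the square functions of the kernel -/

theorem subty {m : ℕ} (s : Finset (Fin (m + 1) → ℕ)) (u : s → ℝ) :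
    ∃ u' : (Fin (m + 1) → ℕ) → ℝ, ∀ y : s, u' y.1 = u y := by
  classical
  refine ⟨fun y => if h : y ∈ s then u ⟨y, h⟩ else 0, fun y => ?_⟩
  simp

theorem wal_one (S : Finset ℕ) (k : ℕ) : |wal S k| = 1 := wal_abs S k

theorem prod_wal_abs {m : ℕ} (B : Finset (Fin (m + 1))) (v : Fin (m + 1) → Finset ℕ)
    (x : Fin (m + 1) → ℕ) : |∏ j ∈ B, wal (v j) (x j)| = 1 := by
  rw [Finset.abs_prod]
  exact Finset.prod_eq_one fun j _ => wal_abs _ _

theorem prod_split {m : ℕ} {H : Fin (m + 1) → ℕ} {B C1 C2 : Finset (Fin (m + 1))}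
    (hd : Disjoint C1 C2) (hu : C1 ∪ C2 = B) (v : Fin (m + 1) → Finset ℕ)
    {x y : Fin (m + 1) → ℕ} (hx : x ∈ bx H C1 0) (hy : y ∈ bx H C2 0) :
    ∏ j ∈ B, wal (v j) ((x + y) j) =
      (∏ j ∈ C1, wal (v j) (x j)) * ∏ j ∈ C2, wal (v j) (y j) := by
  rw [← hu, Finset.prod_union hd]
  rw [mem_bx] at hx hy
  congr 1
  · refine Finset.prod_congr rfl fun j hj => ?_
    have : y j = 0 := hy.2 j (Finset.disjoint_left.1 hd hj)
    simp [this]
  · refine Finset.prod_congr rfl fun j hj => ?_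
    have : x j = 0 := hx.2 j (Finset.disjoint_right.1 hd hj)
    simp [this]

theorem add_le_H {m : ℕ} {H : Fin (m + 1) → ℕ} {C1 C2 : Finset (Fin (m + 1))}
    (hd : Disjoint C1 C2) {x y : Fin (m + 1) → ℕ} (hx : x ∈ bx H C1 0) (hy : y ∈ bx H C2 0)
    (a : Fin (m + 1)) : (x + y) a ≤ H a := by
  rw [mem_bx] at hx hy
  by_cases h1 : a ∈ C1
  · have h2 : y a = 0 := hy.2 a (Finset.disjoint_left.1 hd h1)
    simp only [Pi.add_apply, h2, add_zero]
    exact hx.1 a h1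
  · have h2 : x a = 0 := hx.2 a h1
    simp only [Pi.add_apply, h2, zero_add]
    by_cases h3 : a ∈ C2
    · exact hy.1 a h3
    · have : y a = 0 := hy.2 a h3
      omega

/-- the square functions of the kernel, splitting -/
theorem kn_split {m L K : ℕ} (hP : PhF m)
    (ka : Finset (Fin (m + 1)) → (Fin (m + 1) → ℕ) → Pt m L → ℝ)
    {H H' : Fin (m + 1) → ℕ} {B C1 C2 : Finset (Fin (m + 1))} {e : Fin (m + 1)} (he : e ∉ B)
    (hH : H' e + 1 = H e) (hH' : ∀ a, a ≠ e → H' a = H a) (hd : Disjoint C1 C2)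
    (hu : C1 ∪ C2 = B) (h1 : C1.Nonempty) (h2 : C2.Nonempty) (w : Fin (m + 1) → Finset ℕ) (ω : Pt m L)
    {b : ℝ} (hK : Nm K H' (insert e B) b
      (fun c => Kk (ka {e} c ω) (fun C => ka (insert e C) c ω) B)) :
    KN (X := (bx H C1 0 : Finset (Fin (m + 1) → ℕ))) (Y := (bx H C2 0 : Finset (Fin (m + 1) → ℕ)))
      K H e (dm B) (b ^ 2) (Psg ka B e w (fun x y => x.1 + y.1)) ω := by
  intro v hv
  have hA := hK v hv
  set A : (Fin (m + 1) → ℕ) → ℝ := Ph H' tm v (insert e B)ᶜ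
    (fun c => Kk (ka {e} c ω) (fun C => ka (insert e C) c ω) B) with hAd
  have he1 : e ∉ C1 := fun h => he (hu ▸ mem_union_left _ h)
  have he2 : e ∉ C2 := fun h => he (hu ▸ mem_union_right _ h)
  have hPh : ∀ c, Ph H tm v (insert e B)ᶜ
      (fun c => Kk (ka {e} c ω) (fun C => ka (insert e C) c ω) B) c = A c := fun c => by
    rw [hAd]
    refine hP.cgw _ _ _ _ _ _ _ _ _ fun j hj => ⟨?_, rfl, rfl⟩
    exact (hH' j (fun h => (mem_compl.1 hj) (h ▸ mem_insert_self _ _))).symm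
  have hKM : ∀ (r : ℕ) (x : (bx H C1 0 : Finset (Fin (m + 1) → ℕ)))
      (y : (bx H C2 0 : Finset (Fin (m + 1) → ℕ))),
      KM H e (dm B) v (Psg ka B e w (fun x y => x.1 + y.1)) ω r x y =
        wal (w e) r * ((∏ j ∈ C1, wal (v j) (x.1 j)) * ∏ j ∈ C2, wal (v j) (y.1 j)) *
          A (Function.update (x.1 + y.1) e r) := fun r x y => by
    rw [km_eq hP H ka w v he _ x y (fun a _ => add_le_H hd x.2 y.2 a), hPh,
      prod_split hd hu v x.2 y.2]
    ring
  have hm1 : NX H' (insert e C1) C2 b A := by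
    refine hA.mat (insert e C1) C2 ?_ ?_ (insert_nonempty _ _) h2
    · rw [Finset.disjoint_insert_left]
      exact ⟨he2, hd⟩
    · rw [Finset.insert_union, hu]
  have hm2 : NX H' (insert e C2) C1 b A := by
    refine hA.mat (insert e C2) C1 ?_ ?_ (insert_nonempty _ _) h1
    · rw [Finset.disjoint_insert_left]
      exact ⟨he1, hd.symm⟩
    · rw [Finset.insert_union, Finset.union_comm, hu]
  refine ⟨fun u => ?_, fun u => ?_⟩
  · obtain ⟨u', hu'⟩ := subty _ u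
    have h3 := sqf he1 he2 hH hH' hm1 (fun x => ∏ j ∈ C1, wal (v j) (x j))
      (fun y => ∏ j ∈ C2, wal (v j) (y j)) (fun r => wal (w e) r)
      (fun x => prod_wal_abs _ _ _) (fun y => prod_wal_abs _ _ _) (fun r => wal_abs _ _) u'
    simp only [← hu', hKM]
    refine le_trans (le_of_eq ?_) (h3.trans (le_of_eq ?_))
    · refine Finset.sum_congr rfl fun r _ => ?_
      rw [← Finset.sum_coe_sort (bx H C1 0)]
      refine Finset.sum_congr rfl fun x _ => ?_
      rw [← Finset.sum_coe_sort (bx H C2 0)]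
    · rw [← Finset.sum_coe_sort (bx H C2 0)]
  · obtain ⟨u', hu'⟩ := subty _ u
    have h3 := sqf he2 he1 hH hH' hm2 (fun x => ∏ j ∈ C2, wal (v j) (x j))
      (fun y => ∏ j ∈ C1, wal (v j) (y j)) (fun r => wal (w e) r)
      (fun x => prod_wal_abs _ _ _) (fun y => prod_wal_abs _ _ _) (fun r => wal_abs _ _) u'
    simp only [← hu', hKM]
    refine le_trans (le_of_eq ?_) (h3.trans (le_of_eq ?_))
    · refine Finset.sum_congr rfl fun r _ => ?_
      rw [← Finset.sum_coe_sort (bx H C2 0)]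
      refine Finset.sum_congr rfl fun y _ => ?_
      rw [← Finset.sum_coe_sort (bx H C1 0)]
      congr 1
      refine Finset.sum_congr rfl fun x _ => ?_
      rw [add_comm x.1 y.1]
      ring
    · rw [← Finset.sum_coe_sort (bx H C1 0)]

/-- the square functions of the kernel, one entry -/
theorem kn_unit {m L K : ℕ} (hP : PhF m)
    (ka : Finset (Fin (m + 1)) → (Fin (m + 1) → ℕ) → Pt m L → ℝ)
    {H H' : Fin (m + 1) → ℕ} {B : Finset (Fin (m + 1))} {e : Fin (m + 1)} (he : e ∉ B)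
    (hH : H' e + 1 = H e) (hH' : ∀ a, a ≠ e → H' a = H a) (hB : B.Nonempty)
    (w : Fin (m + 1) → Finset ℕ) (ω : Pt m L) (x0 : Fin (m + 1) → ℕ) (hx0 : x0 ∈ bx H B 0)
    {b : ℝ} (hK : Nm K H' (insert e B) b
      (fun c => Kk (ka {e} c ω) (fun C => ka (insert e C) c ω) B)) :
    KN (X := Unit) (Y := Unit) K H e (dm B) (b ^ 2) (Psg ka B e w (fun _ _ => x0)) ω := by
  intro v hv
  have hA := hK v hv
  set A : (Fin (m + 1) → ℕ) → ℝ := Ph H' tm v (insert e B)ᶜ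
    (fun c => Kk (ka {e} c ω) (fun C => ka (insert e C) c ω) B) with hAd
  have hPh : ∀ c, Ph H tm v (insert e B)ᶜ
      (fun c => Kk (ka {e} c ω) (fun C => ka (insert e C) c ω) B) c = A c := fun c => by
    rw [hAd]
    refine hP.cgw _ _ _ _ _ _ _ _ _ fun j hj => ⟨?_, rfl, rfl⟩
    exact (hH' j (fun h => (mem_compl.1 hj) (h ▸ mem_insert_self _ _))).symm
  have hm1 : NX H' (insert e ∅) B b A := by
    refine hA.mat (insert e ∅) B ?_ ?_ (insert_nonempty _ _) hB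
    · rw [Finset.disjoint_insert_left]
      exact ⟨he, Finset.disjoint_empty_left _⟩
    · rw [Finset.insert_union, Finset.empty_union]
  have hKM : ∀ (r : ℕ) (x y : Unit), KM H e (dm B) v (Psg ka B e w (fun _ _ => x0)) ω r x y =
      (∏ j ∈ B, wal (v j) (x0 j)) * (wal (w e) r * A (Function.update x0 e r)) := fun r x y => by
    rw [km_eq hP H ka w v he _ x y (fun a ha => (mem_bx.1 hx0).1 a ha), hPh]
  have key : ∀ t : ℝ, ∑ r ∈ range (H e), ((∏ j ∈ B, wal (v j) (x0 j)) *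
      (wal (w e) r * A (Function.update x0 e r)) * t) ^ 2 ≤ b ^ 2 * t ^ 2 := fun t => by
    have h3 := sqf (Finset.notMem_empty e) he hH hH' hm1 (fun _ => 1)
      (fun y => ∏ j ∈ B, wal (v j) (y j)) (fun r => wal (w e) r)
      (fun x => abs_one) (fun y => prod_wal_abs _ _ _) (fun r => wal_abs _ _)
      (fun y => if y = x0 then t else 0)
    have e1 : bx H ∅ (0 : Fin (m + 1) → ℕ) = {0} := by
      ext l
      rw [mem_bx, mem_singleton]
      constructor
      · rintro ⟨_, h⟩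
        funext a
        exact h a (Finset.notMem_empty a)
      · rintro rfl
        exact ⟨fun a ha => absurd ha (Finset.notMem_empty a), fun _ _ => rfl⟩
    rw [e1] at h3
    simp only [Finset.sum_singleton, mul_ite, mul_zero, Finset.sum_ite_eq', if_pos hx0, ite_pow,
      ne_eq, OfNat.ofNat_ne_zero, not_false_eq_true, zero_pow, zero_add, one_mul] at h3
    refine le_trans (le_of_eq ?_) h3
    refine Finset.sum_congr rfl fun r _ => ?_
    ring
  refine ⟨fun u => ?_, fun u => ?_⟩ <;>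
  · simp only [hKM, Finset.univ_unique, Finset.sum_singleton]
    exact key _

/-! ### one string -/

theorem t0_one (K : ℕ) : 1 ≤ T0 K := by
  unfold T0
  have : (0 : ℝ) ≤ K := Nat.cast_nonneg K
  linarith

theorem nm_mono {m K : ℕ} (hA : ArrF m) {H : Fin (m + 1) → ℕ} {C : Finset (Fin (m + 1))} {a b : ℝ}
    {F : (Fin (m + 1) → ℕ) → ℝ} (ha : 0 ≤ a) (hab : a ≤ b) (h : Nm K H C a F) : Nm K H C b F :=
  fun w hw => hA.mono _ _ _ _ _ ha hab (h w hw)

/-- everything at a point all of whose smaller classes are good -/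
theorem point {m L K : ℕ} {lam c2 : ℝ} {u Z W : (Fin (m + 1) → ℕ) → Pt m L → ℝ}
    {ka : Finset (Fin (m + 1)) → (Fin (m + 1) → ℕ) → Pt m L → ℝ} (hP : PhF m)
    (hE : Exact lam u Z ka W) {H H' : Fin (m + 1) → ℕ} {B : Finset (Fin (m + 1))} {e : Fin (m + 1)}
    (hW : Walx K (H e)) (hB : B.Nonempty) (he : e ∉ B) (hH : H' e + 1 = H e)
    (hH' : ∀ a, a ≠ e → H' a = H a) {ω : Pt m L}
    (hz : ∀ c : Fin (m + 1) → ℕ, (∀ a, c a ≤ H a) → c e < H e → Z c ω ≠ 0 ∧ |ka {e} c ω| < 1)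
    (w : Fin (m + 1) → Finset ℕ)
    (hV : FN H' B c2 (fun c => ∑ r ∈ range (H' e + 1), wal (w e) r * Ph H' tm w (insert e B)ᶜ
      (fun l => Vv (ka {e} l ω) (fun D => ka (insert e D) l ω) B) (Function.update c e r))) :
    ∃ D : (Fin (m + 1) → ℕ) → ℝ, FN H B c2 D ∧ ∀ (X Y : Type) (p : X → Y → Fin (m + 1) → ℕ)
      (x : X) (y : Y), (∀ a ∈ B, p x y a ≤ H a) →
      Ph H tm w Bᶜ (fun c => ka B c ω) (p x y) =
        D (p x y) + SS ka H e (dm B) (wm B w) (Psg ka B e w p) ω x y := by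
  refine ⟨_, fn_cgH (fun a ha => hH' a (fun h => he (h ▸ ha))) hV, fun X Y p x y hp => ?_⟩
  rw [ident hP hE hW hB he hz w (p x y) hp, ss_eq hP H ka w he p x y hp ω, hH,
    ← Finset.sum_add_distrib]
  refine Finset.sum_congr rfl fun k _ => ?_
  rw [hP.add, mul_add]
  congr 2
  refine hP.cgw _ _ _ _ _ _ _ _ _ fun j hj => ⟨?_, rfl, rfl⟩
  exact (hH' j (fun h => (mem_compl.1 hj) (h ▸ mem_insert_self _ _))).symm

/-- the data at the class `H` -/
structure Cx {m L : ℕ} (K : ℕ) (lam c1 b : ℝ) (n1 : ℕ) (bs : ℕ → ℝ)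
    (u Z W : (Fin (m + 1) → ℕ) → Pt m L → ℝ)
    (ka : Finset (Fin (m + 1)) → (Fin (m + 1) → ℕ) → Pt m L → ℝ) (H : Fin (m + 1) → ℕ) :
    Prop where
  hP : PhF m
  hA : ArrF m
  hW : ∀ M : ℕ, M < 2 ^ K → Walx K M
  hE : Exact lam u Z ka W
  hB : Bay (Gk K bs ka) (fun c h => ka {c} h) Z
  pos : ∀ h ω, (∀ a, h a ≤ L) → Gd (Gk K bs ka) h ω → 0 < Z h ω
  posl : ∀ h ω, (∀ a, h a ≤ L) → Gl (Gk K bs ka) h ω → 0 < Z h ω
  hL : L < 2 ^ K
  hH : ∀ a, H a ≤ L
  bs0 : ∀ j, 0 ≤ bs j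
  bsb : ∀ j, bs j ≤ b
  c1n : 1 ≤ c1
  small : c1 * T0 K ^ n1 * b ≤ 1
  uv : ∀ (K : ℕ) (H : Fin (m + 1) → ℕ) (e : Fin (m + 1)) (b b1 : ℝ)
    (ka : Finset (Fin (m + 1)) → (Fin (m + 1) → ℕ) → ℝ) (B : Finset (Fin (m + 1)))
    (w : Fin (m + 1) → Finset ℕ),
    (∀ j, H j < 2 ^ K) → (∀ j, w j ⊆ range K) → 0 ≤ b → 0 ≤ b1 → c1 * T0 K ^ n1 * b ≤ 1 →
    (∀ D, D.Nonempty → Van D (ka D)) → (∀ D, D.Nonempty → Nm K H D b (ka D)) →
    e ∉ B → B.Nonempty → Nm K H (insert e B) b1 (ka (insert e B)) →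
    Nm K H (insert e B) (2 * b1 + c1 * T0 K ^ n1 * b ^ 2)
      (fun c => Kk (ka {e} c) (fun D => ka (insert e D) c) B) ∧
    Van (insert e B) (fun c => Kk (ka {e} c) (fun D => ka (insert e D) c) B) ∧
    Van (insert e B) (fun c => Vv (ka {e} c) (fun D => ka (insert e D) c) B) ∧
    FN H B (c1 * T0 K ^ n1 * b ^ 2) (fun c => ∑ r ∈ range (H e + 1), wal (w e) r *
      Ph H tm w (insert e B)ᶜ (fun l => Vv (ka {e} l) (fun D => ka (insert e D) l) B)
        (Function.update c e r))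

theorem Cx.z0 {m L K : ℕ} {lam c1 b : ℝ} {n1 : ℕ} {bs : ℕ → ℝ}
    {u Z W : (Fin (m + 1) → ℕ) → Pt m L → ℝ}
    {ka : Finset (Fin (m + 1)) → (Fin (m + 1) → ℕ) → Pt m L → ℝ} {H : Fin (m + 1) → ℕ}
    (h : Cx K lam c1 b n1 bs u Z W ka H) (ω : Pt m L) (hg : Gl (Gk K bs ka) H ω) : 0 ≤ Z H ω :=
  (h.posl H ω h.hH hg).le

theorem Cx.hz {m L K : ℕ} {lam c1 b : ℝ} {n1 : ℕ} {bs : ℕ → ℝ}
    {u Z W : (Fin (m + 1) → ℕ) → Pt m L → ℝ}
    {ka : Finset (Fin (m + 1)) → (Fin (m + 1) → ℕ) → Pt m L → ℝ} {H : Fin (m + 1) → ℕ}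
    (h : Cx K lam c1 b n1 bs u Z W ka H) {ω : Pt m L} (hg : Gl (Gk K bs ka) H ω) (e : Fin (m + 1))
    (c : Fin (m + 1) → ℕ) (hc : ∀ a, c a ≤ H a) (hce : c e < H e) :
    Z c ω ≠ 0 ∧ |ka {e} c ω| < 1 := by
  have hL : ∀ a, c a ≤ L := fun a => (hc a).trans (h.hH a)
  have hgd : Gd (Gk K bs ka) c ω := fun r hr => hg r (fun a => (hr a).trans (hc a)) (fun h' => by
    have h3 : r e ≤ c e := hr e
    rw [h'] at h3
    omega)
  refine ⟨(h.pos c ω hL hgd).ne', ?_⟩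
  have h4 : |ka {e} c ω| ≤ 1 / 2 := h.hB.abs e c ω hL (lt_of_lt_of_le hce (h.hH e)) hgd
  linarith

/-- the facts of UV at the class with one sign of the string `e` less -/
theorem Cx.uvf {m L K : ℕ} {lam c1 b : ℝ} {n1 : ℕ} {bs : ℕ → ℝ}
    {u Z W : (Fin (m + 1) → ℕ) → Pt m L → ℝ}
    {ka : Finset (Fin (m + 1)) → (Fin (m + 1) → ℕ) → Pt m L → ℝ} {H : Fin (m + 1) → ℕ}
    (h : Cx K lam c1 b n1 bs u Z W ka H) {ω : Pt m L} (hg : Gl (Gk K bs ka) H ω)
    {B : Finset (Fin (m + 1))} {e : Fin (m + 1)} (he : e ∉ B) (hB : B.Nonempty) (h0 : 0 < H e)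
    (w : Fin (m + 1) → Finset ℕ) (hw : ∀ a, w a ⊆ range K) :
    ∃ H' : Fin (m + 1) → ℕ, H' e + 1 = H e ∧ (∀ a, a ≠ e → H' a = H a) ∧
      Nm K H' (insert e B) (2 * bs (B.card + 1) + c1 * T0 K ^ n1 * b ^ 2)
        (fun c => Kk (ka {e} c ω) (fun C => ka (insert e C) c ω) B) ∧
      FN H' B (c1 * T0 K ^ n1 * b ^ 2) (fun c => ∑ r ∈ range (H' e + 1), wal (w e) r *
        Ph H' tm w (insert e B)ᶜ (fun l => Vv (ka {e} l ω) (fun D => ka (insert e D) l ω) B)
          (Function.update c e r)) := by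
  set H' : Fin (m + 1) → ℕ := Function.update H e (H e - 1) with hH'
  have h1 : H' e + 1 = H e := by
    rw [hH', Function.update_self]
    omega
  have h2 : ∀ a, a ≠ e → H' a = H a := fun a ha => by
    rw [hH', Function.update_of_ne ha]
  have h3 : ∀ a, H' a ≤ H a := fun a => by
    by_cases hae : a = e
    · subst hae
      omega
    · rw [h2 a hae]
  have hgk : Gk K bs ka H' ω := hg H' h3 (fun h' => by
    have := congrFun h' e
    omega)
  have hb0 : 0 ≤ b := (h.bs0 0).trans (h.bsb 0)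
  have h4 : (insert e B).card = B.card + 1 := card_insert_of_notMem he
  have h5 := h.uv K H' e b (bs (B.card + 1)) (fun D c => ka D c ω) B w
    (fun j => lt_of_le_of_lt ((h3 j).trans (h.hH j)) h.hL) hw hb0 (h.bs0 _) h.small
    (fun D hD c p hp hc => h.hE.van D c ω p hD hp hc)
    (fun D hD => nm_mono h.hA (h.bs0 _) (h.bsb _) (hgk D hD)) he hB
    (by rw [← h4]; exact hgk _ (insert_nonempty _ _))
  exact ⟨H', h1, h2, h5.1, h5.2.2.2⟩

/-- the splitting event -/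
theorem Cx.evs {m L K : ℕ} {lam c1 b : ℝ} {n1 : ℕ} {bs : ℕ → ℝ}
    {u Z W : (Fin (m + 1) → ℕ) → Pt m L → ℝ}
    {ka : Finset (Fin (m + 1)) → (Fin (m + 1) → ℕ) → Pt m L → ℝ} {H : Fin (m + 1) → ℕ}
    (h : Cx K lam c1 b n1 bs u Z W ka H) {B C1 C2 : Finset (Fin (m + 1))} {e : Fin (m + 1)}
    (he : e ∉ B) (hd : Disjoint C1 C2) (hu : C1 ∪ C2 = B) (h1 : C1.Nonempty) (h2 : C2.Nonempty)
    (w : Fin (m + 1) → Finset ℕ) (hw : ∀ a, w a ⊆ range K) {b3 q δ : ℝ}
    (hb3 : b3 = 2 * bs (B.card + 1) + c1 * T0 K ^ n1 * b ^ 2) (hq : 0 ≤ q)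
    (hfin : c1 * T0 K ^ n1 * b ^ 2 + Real.sqrt q * b3 ≤ bs B.card)
    (hrec : PP (Gk K bs ka) Z H (fun ω => KN (X := (bx H C1 0 : Finset (Fin (m + 1) → ℕ)))
      (Y := (bx H C2 0 : Finset (Fin (m + 1) → ℕ))) K H e (dm B) (b3 ^ 2)
      (Psg ka B e w (fun x y => x.1 + y.1)) ω ∧
      ¬ NB (Matrix.of (fun (x : (bx H C1 0 : Finset (Fin (m + 1) → ℕ)))
        (y : (bx H C2 0 : Finset (Fin (m + 1) → ℕ))) =>
        SS ka H e (dm B) (wm B w) (Psg ka B e w (fun x y => x.1 + y.1)) ω x y))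
          (q * b3 ^ 2)) ≤ δ) :
    PP (Gk K bs ka) Z H (fun ω => ¬ NX H C1 C2 (bs B.card)
      (Ph H tm w Bᶜ (fun c => ka B c ω))) ≤ δ := by
  refine (pp_mono h.z0 fun ω hg hbad => ?_).trans hrec
  have hB : B.Nonempty := hu ▸ (h1.mono subset_union_left)
  have hWx : Walx K (H e) := h.hW _ (lt_of_le_of_lt (h.hH e) h.hL)
  have hc2 : 0 ≤ c1 * T0 K ^ n1 * b ^ 2 := by
    have := t0_one K
    have := h.c1n
    positivity
  have hb30 : 0 ≤ b3 := by
    rw [hb3]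
    have := h.bs0 (B.card + 1)
    linarith
  rcases Nat.eq_zero_or_pos (H e) with h0 | h0
  · exfalso
    refine hbad fun v => ?_
    have : ∀ x ∈ bx H C1 0, ∀ y ∈ bx H C2 0,
        Ph H tm w Bᶜ (fun c => ka B c ω) (x + y) = 0 := fun x hx y hy => by
      rw [ident h.hP h.hE hWx hB he (h.hz hg e) w (x + y) (fun a _ => add_le_H hd hx hy a), h0,
        range_zero, Finset.sum_empty]
    have h3 : ∑ x ∈ bx H C1 0, (∑ y ∈ bx H C2 0,
        Ph H tm w Bᶜ (fun c => ka B c ω) (x + y) * v y) ^ 2 = 0 := by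
      refine Finset.sum_eq_zero fun x hx => ?_
      rw [Finset.sum_eq_zero fun y hy => by rw [this x hx y hy, zero_mul]]
      norm_num
    rw [h3]
    exact mul_nonneg (sq_nonneg _) (Finset.sum_nonneg fun _ _ => sq_nonneg _)
  · obtain ⟨H', e1, e2, e3, e4⟩ := h.uvf hg he hB h0 w hw
    rw [← hb3] at e3
    refine ⟨kn_split h.hP ka he e1 e2 hd hu h1 h2 w ω e3, fun hnb => hbad ?_⟩
    obtain ⟨D, hD, hpt⟩ := point h.hP h.hE hWx hB he e1 e2 (h.hz hg e) w e4
    have n1 : NX H C1 C2 (c1 * T0 K ^ n1 * b ^ 2) D := hD.mat C1 C2 hd hu h1 h2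
    have n2 : NX H C1 C2 (Real.sqrt q * b3)
        (fun c => Ph H tm w Bᶜ (fun c => ka B c ω) c - D c) := by
      intro v
      have h3 := hnb (fun y => v y.1)
      have h4 : (Real.sqrt q * b3) ^ 2 = q * b3 ^ 2 := by
        rw [mul_pow, Real.sq_sqrt hq]
      rw [h4, ← Finset.sum_coe_sort (bx H C1 0), ← Finset.sum_coe_sort (bx H C2 0)]
      refine le_trans (le_of_eq ?_) h3
      refine Finset.sum_congr rfl fun x _ => ?_
      congr 1
      rw [← Finset.sum_coe_sort (bx H C2 0)]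
      refine Finset.sum_congr rfl fun y _ => ?_
      have h5 := hpt (bx H C1 0 : Finset (Fin (m + 1) → ℕ)) (bx H C2 0 : Finset (Fin (m + 1) → ℕ))
        (fun x y => x.1 + y.1) x y (fun a _ => add_le_H hd x.2 y.2 a)
      change (Ph H tm w Bᶜ (fun c => ka B c ω) (x.1 + y.1) - D (x.1 + y.1)) * v y.1 =
        SS ka H e (dm B) (wm B w) (Psg ka B e w fun x y => x.1 + y.1) ω x y * v y.1
      rw [h5]
      ring
    have n3 := nx_add hc2 (mul_nonneg (Real.sqrt_nonneg _) hb30) n1 n2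
    exact nx_mono (add_nonneg hc2 (mul_nonneg (Real.sqrt_nonneg _) hb30)) hfin
      (fun x _ y _ => by ring) n3

/-- the entry event -/
theorem Cx.evu {m L K : ℕ} {lam c1 b : ℝ} {n1 : ℕ} {bs : ℕ → ℝ}
    {u Z W : (Fin (m + 1) → ℕ) → Pt m L → ℝ}
    {ka : Finset (Fin (m + 1)) → (Fin (m + 1) → ℕ) → Pt m L → ℝ} {H : Fin (m + 1) → ℕ}
    (h : Cx K lam c1 b n1 bs u Z W ka H) {B : Finset (Fin (m + 1))} {e : Fin (m + 1)}
    (he : e ∉ B) (hB : B.Nonempty) (w : Fin (m + 1) → Finset ℕ) (hw : ∀ a, w a ⊆ range K)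
    (x0 : Fin (m + 1) → ℕ) (hx0 : x0 ∈ bx H B 0) {b3 q δ : ℝ}
    (hb3 : b3 = 2 * bs (B.card + 1) + c1 * T0 K ^ n1 * b ^ 2) (hq : 0 ≤ q)
    (hfin : c1 * T0 K ^ n1 * b ^ 2 + Real.sqrt q * b3 ≤ bs B.card)
    (hrec : PP (Gk K bs ka) Z H (fun ω => KN (X := Unit) (Y := Unit) K H e (dm B) (b3 ^ 2)
      (Psg ka B e w (fun _ _ => x0)) ω ∧
      ¬ NB (Matrix.of (fun (x : Unit) (y : Unit) =>
        SS ka H e (dm B) (wm B w) (Psg ka B e w (fun _ _ => x0)) ω x y))
          (q * b3 ^ 2)) ≤ δ) :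
    PP (Gk K bs ka) Z H (fun ω => ¬ |Ph H tm w Bᶜ (fun c => ka B c ω) x0| ≤ bs B.card) ≤ δ := by
  refine (pp_mono h.z0 fun ω hg hbad => ?_).trans hrec
  have hWx : Walx K (H e) := h.hW _ (lt_of_le_of_lt (h.hH e) h.hL)
  have hxB : ∀ a ∈ B, x0 a ≤ H a := (mem_bx.1 hx0).1
  have hb30 : 0 ≤ b3 := by
    rw [hb3]
    have := h.bs0 (B.card + 1)
    have hc2 : 0 ≤ c1 * T0 K ^ n1 * b ^ 2 := by
      have := t0_one K
      have := h.c1n
      positivity
    linarith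
  rcases Nat.eq_zero_or_pos (H e) with h0 | h0
  · exfalso
    refine hbad ?_
    rw [ident h.hP h.hE hWx hB he (h.hz hg e) w x0 hxB, h0, range_zero, Finset.sum_empty,
      abs_zero]
    exact h.bs0 _
  · obtain ⟨H', e1, e2, e3, e4⟩ := h.uvf hg he hB h0 w hw
    rw [← hb3] at e3
    refine ⟨kn_unit h.hP ka he e1 e2 hB w ω x0 hx0 e3, fun hnb => hbad ?_⟩
    obtain ⟨D, hD, hpt⟩ := point h.hP h.hE hWx hB he e1 e2 (h.hz hg e) w e4
    have h5 := hpt Unit Unit (fun _ _ => x0) () () hxB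
    have h6 := hD.sup x0 hx0
    have h7 := hnb (fun _ => 1)
    simp only [Finset.univ_unique, Finset.sum_singleton, Matrix.of_apply, mul_one, one_pow] at h7
    have h8 : |SS ka H e (dm B) (wm B w) (Psg ka B e w (fun (_ _ : Unit) => x0)) ω () ()| ≤
        Real.sqrt q * b3 := by
      refine abs_le_of_sq_le_sq ?_ (mul_nonneg (Real.sqrt_nonneg _) hb30)
      rw [mul_pow, Real.sq_sqrt hq]
      exact h7
    rw [h5]
    exact (abs_add_le _ _).trans ((add_le_add h6 h8).trans hfin)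

/-- one own set -/
theorem Cx.evB {m L K : ℕ} {lam c1 b : ℝ} {n1 : ℕ} {bs : ℕ → ℝ}
    {u Z W : (Fin (m + 1) → ℕ) → Pt m L → ℝ}
    {ka : Finset (Fin (m + 1)) → (Fin (m + 1) → ℕ) → Pt m L → ℝ} {H : Fin (m + 1) → ℕ}
    (h : Cx K lam c1 b n1 bs u Z W ka H) (h2K : 2 ^ K ≤ 2 * (L + 1)) {c2 ε : ℝ} {n2 n0 n : ℕ}
    (hL1 : 1 ≤ L) (hc2 : 1 ≤ c2)
    (hrec : ∀ (L K : ℕ) (lam b B : ℝ) (bs : ℕ → ℝ) (u Z W : (Fin (m + 1) → ℕ) → Pt m L → ℝ)
      (ka : Finset (Fin (m + 1)) → (Fin (m + 1) → ℕ) → Pt m L → ℝ) (H : Fin (m + 1) → ℕ)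
      (f : Fin (m + 1)) (d : Fin (m + 1) → ℕ) (w : Fin (m + 1) → Finset ℕ) (X Y : Type)
      [Fintype X] [Fintype Y] [DecidableEq X] [DecidableEq Y]
      (Ψ : X → Y → (Fin (m + 1) → ℕ) → Pt m L → ℝ), 1 ≤ L → L < 2 ^ K → (∀ a, H a ≤ L) →
      Exact lam u Z ka W → Bay (Gk K bs ka) (fun c h => ka {c} h) Z →
      (∀ h ω, (∀ a, h a ≤ L) → Gd (Gk K bs ka) h ω → 0 < Z h ω) →
      (∀ j, 0 ≤ bs j) → (∀ j, bs j ≤ b) → c2 * T0 K ^ n2 * b ≤ 1 →
      c2 * T0 K ^ n2 * L * (c2 * T0 K ^ n2 * b) ^ n0 ≤ 1 →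
      Fintype.card X ≤ (L + 1) ^ (m + 1) → Fintype.card Y ≤ (L + 1) ^ (m + 1) →
      (∀ a, w a ⊆ range K) → Ker H f d Ψ → 0 ≤ B →
      PP (Gk K bs ka) Z H (fun ω => KN K H f d B Ψ ω ∧
        ¬ NB (Matrix.of (fun x y => SS ka H f d w Ψ ω x y)) (c2 * (L : ℝ) ^ (2 * ε) * B)) ≤
        c2 / (L + 1) ^ (n + 2 * (m + 1)))
    (hs1 : c2 * T0 K ^ n2 * b ≤ 1) (hs2 : c2 * T0 K ^ n2 * L * (c2 * T0 K ^ n2 * b) ^ n0 ≤ 1)
    {B : Finset (Fin (m + 1))} {e : Fin (m + 1)} (he : e ∉ B) (hB : B.Nonempty)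
    (hfin : c1 * T0 K ^ n1 * b ^ 2 + Real.sqrt (c2 * (L : ℝ) ^ (2 * ε)) *
      (2 * bs (B.card + 1) + c1 * T0 K ^ n1 * b ^ 2) ≤ bs B.card) :
    PP (Gk K bs ka) Z H (fun ω => ¬ Nm K H B (bs B.card) (fun c => ka B c ω)) ≤
      (2 : ℝ) ^ (m + 1) * (1 + 2 ^ (m + 1)) * c2 / (L + 1) ^ n := by
  classical
  set δ : ℝ := c2 / (L + 1) ^ (n + 2 * (m + 1)) with hδ
  have hL0 : (0 : ℝ) < (L : ℝ) + 1 := by positivity
  have hδ0 : 0 ≤ δ := by positivity
  have hq : 0 ≤ c2 * (L : ℝ) ^ (2 * ε) := by positivity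
  have hb0 : 0 ≤ b := (h.bs0 0).trans (h.bsb 0)
  set b3 : ℝ := 2 * bs (B.card + 1) + c1 * T0 K ^ n1 * b ^ 2 with hb3
  -- the events
  have hone : ∀ w : Fin (m + 1) → Finset ℕ, (∀ a, w a ⊆ range K) →
      PP (Gk K bs ka) Z H (fun ω => (∃ x ∈ bx H B 0,
        ¬ |Ph H tm w Bᶜ (fun c => ka B c ω) x| ≤ bs B.card) ∨
        ∃ C1 ∈ B.powerset.filter (fun C1 => C1.Nonempty ∧ (B \ C1).Nonempty),
          ¬ NX H C1 (B \ C1) (bs B.card) (Ph H tm w Bᶜ (fun c => ka B c ω))) ≤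
      (1 + 2 ^ (m + 1)) * ((L : ℝ) + 1) ^ (m + 1) * δ := by
    intro w hw
    have hwm : ∀ a, wm B w a ⊆ range K := fun a => by
      unfold wm
      split_ifs
      · exact empty_subset _
      · exact hw a
    have g1 : PP (Gk K bs ka) Z H (fun ω => ∃ x ∈ bx H B 0,
        ¬ |Ph H tm w Bᶜ (fun c => ka B c ω) x| ≤ bs B.card) ≤ (bx H B 0).card * δ := by
      refine pp_ex _ h.z0 fun x hx => h.evu he hB w hw x hx hb3 hq hfin ?_
      refine hrec L K lam b (b3 ^ 2) bs u Z W ka H e (dm B) (wm B w) Unit Unit _ hL1 h.hL h.hH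
        h.hE h.hB h.pos h.bs0 h.bsb hs1 hs2 ?_ ?_ hwm (ker_psg h.hE H w B e _) (sq_nonneg _)
      · simp only [Fintype.card_unit]
        exact Nat.one_le_pow _ _ (Nat.succ_pos L)
      · simp only [Fintype.card_unit]
        exact Nat.one_le_pow _ _ (Nat.succ_pos L)
    have g2 : PP (Gk K bs ka) Z H (fun ω => ∃ C1 ∈ B.powerset.filter
        (fun C1 => C1.Nonempty ∧ (B \ C1).Nonempty),
          ¬ NX H C1 (B \ C1) (bs B.card) (Ph H tm w Bᶜ (fun c => ka B c ω))) ≤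
        (B.powerset.filter (fun C1 => C1.Nonempty ∧ (B \ C1).Nonempty)).card * δ := by
      refine pp_ex _ h.z0 fun C1 hC1 => ?_
      rw [mem_filter, mem_powerset] at hC1
      refine h.evs he Finset.disjoint_sdiff (Finset.union_sdiff_of_subset hC1.1) hC1.2.1
        hC1.2.2 w hw hb3 hq hfin ?_
      refine hrec L K lam b (b3 ^ 2) bs u Z W ka H e (dm B) (wm B w) _ _ _ hL1 h.hL h.hH
        h.hE h.hB h.pos h.bs0 h.bsb hs1 hs2 ?_ ?_ hwm (ker_psg h.hE H w B e _) (sq_nonneg _)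
      · rw [Fintype.card_coe]
        exact card_bx h.hH C1
      · rw [Fintype.card_coe]
        exact card_bx h.hH _
    refine (pp_or h.z0 g1 g2).trans ?_
    have k1 : ((bx H B 0).card : ℝ) ≤ ((L : ℝ) + 1) ^ (m + 1) := by
      have := card_bx h.hH B
      exact_mod_cast this
    have k2 : ((B.powerset.filter (fun C1 => C1.Nonempty ∧ (B \ C1).Nonempty)).card : ℝ) ≤
        2 ^ (m + 1) := by
      have : (B.powerset.filter (fun C1 => C1.Nonempty ∧ (B \ C1).Nonempty)).card ≤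
          2 ^ (m + 1) := by
        refine (Finset.card_filter_le _ _).trans ?_
        rw [card_powerset]
        exact Nat.pow_le_pow_right (by norm_num) ((card_le_univ B).trans (by simp))
      exact_mod_cast this
    have k3 : (1 : ℝ) ≤ ((L : ℝ) + 1) ^ (m + 1) := one_le_pow₀ (by linarith [Nat.cast_nonneg (α := ℝ) L])
    have k4 : (0 : ℝ) ≤ 2 ^ (m + 1) := by positivity
    nlinarith [mul_le_mul_of_nonneg_right k1 hδ0, mul_le_mul_of_nonneg_right k2 hδ0,
      mul_le_mul_of_nonneg_left k3 (mul_nonneg k4 hδ0)]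
  set Ws : Finset (Fin (m + 1) → Finset ℕ) :=
    Fintype.piFinset (fun _ : Fin (m + 1) => (range K).powerset) with hWs
  have hWsc : (Ws.card : ℝ) ≤ 2 ^ (m + 1) * ((L : ℝ) + 1) ^ (m + 1) := by
    have h1 : Ws.card = (2 ^ K) ^ (m + 1) := by
      rw [hWs, Fintype.card_piFinset]
      simp
    rw [h1]
    have h2 : ((2 ^ K) ^ (m + 1) : ℕ) ≤ (2 * (L + 1)) ^ (m + 1) := Nat.pow_le_pow_left h2K _
    calc (((2 ^ K) ^ (m + 1) : ℕ) : ℝ) ≤ (((2 * (L + 1)) ^ (m + 1) : ℕ) : ℝ) := by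
          exact_mod_cast h2
      _ = 2 ^ (m + 1) * ((L : ℝ) + 1) ^ (m + 1) := by
          push_cast
          rw [mul_pow]
  have hall : PP (Gk K bs ka) Z H (fun ω => ∃ w ∈ Ws, ((∃ x ∈ bx H B 0,
        ¬ |Ph H tm w Bᶜ (fun c => ka B c ω) x| ≤ bs B.card) ∨
        ∃ C1 ∈ B.powerset.filter (fun C1 => C1.Nonempty ∧ (B \ C1).Nonempty),
          ¬ NX H C1 (B \ C1) (bs B.card) (Ph H tm w Bᶜ (fun c => ka B c ω)))) ≤
      Ws.card * ((1 + 2 ^ (m + 1)) * ((L : ℝ) + 1) ^ (m + 1) * δ) := by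
    refine pp_ex _ h.z0 fun w hw => hone w fun a => ?_
    rw [hWs, Fintype.mem_piFinset] at hw
    exact mem_powerset.1 (hw a)
  refine (pp_mono h.z0 fun ω hg hbad => ?_).trans (hall.trans ?_)
  · by_contra hno
    refine hbad fun w hw => ?_
    have hwW : w ∈ Ws := by
      rw [hWs, Fintype.mem_piFinset]
      exact fun a => mem_powerset.2 (hw a)
    have h1 : ¬ ((∃ x ∈ bx H B 0,
        ¬ |Ph H tm w Bᶜ (fun c => ka B c ω) x| ≤ bs B.card) ∨
        ∃ C1 ∈ B.powerset.filter (fun C1 => C1.Nonempty ∧ (B \ C1).Nonempty),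
          ¬ NX H C1 (B \ C1) (bs B.card) (Ph H tm w Bᶜ (fun c => ka B c ω))) :=
      fun h' => hno ⟨w, hwW, h'⟩
    rw [not_or] at h1
    refine ⟨fun x hx => ?_, fun C1 C2 hd hu hn1 hn2 => ?_⟩
    · by_contra h2
      exact h1.1 ⟨x, hx, h2⟩
    · by_contra h2
      have h3 : B \ C1 = C2 := by
        rw [← hu, Finset.union_sdiff_left]
        exact Finset.sdiff_eq_self_of_disjoint hd.symm
      refine h1.2 ⟨C1, ?_, ?_⟩
      · rw [mem_filter, mem_powerset, h3]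
        exact ⟨hu ▸ subset_union_left, hn1, hn2⟩
      · rw [h3]
        exact h2
  · refine (mul_le_mul_of_nonneg_right hWsc (by positivity)).trans (le_of_eq ?_)
    have e1 : ((L : ℝ) + 1) ^ (n + 2 * (m + 1)) =
        ((L : ℝ) + 1) ^ n * (((L : ℝ) + 1) ^ (m + 1) * ((L : ℝ) + 1) ^ (m + 1)) := by
      rw [← pow_add, ← pow_add]
      congr 1
      omega
    rw [hδ, e1]
    have e2 : ((L : ℝ) + 1) ^ n ≠ 0 := by positivity
    have e3 : ((L : ℝ) + 1) ^ (m + 1) ≠ 0 := by positivity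
    generalize ((L : ℝ) + 1) ^ (m + 1) = Q at e3 ⊢
    generalize ((L : ℝ) + 1) ^ n = Q' at e2 ⊢
    field_simp

theorem fin_arith {c1 c2 T U P x y M : ℝ} (h1 : 1 ≤ c1) (h2 : 1 ≤ c2) (hT : 1 ≤ T) (hTU : T ≤ U)
    (hP : 1 ≤ P) (hx : 0 ≤ x) (hy : 0 ≤ y) (hM : 0 ≤ M) :
    c1 * T * y + c2 * P * (2 * x + c1 * T * y) ≤
      (c1 + c2 * (2 + c1) + 2 + M * c2) * U * P * (x + y) := by
  have hU : 1 ≤ U := hT.trans hTU
  have a1 : c1 * T ≤ c1 * U := mul_le_mul_of_nonneg_left hTU (by linarith)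
  have a2 : c1 * U ≤ c1 * U * P := le_mul_of_one_le_right (by positivity) hP
  have a3 : c1 * T * y ≤ c1 * U * P * y := mul_le_mul_of_nonneg_right (a1.trans a2) hy
  have a4 : c2 * P * (2 * x) ≤ c2 * P * (2 * x) * U := le_mul_of_one_le_right (by positivity) hU
  have a5 : c2 * P * (c1 * T * y) ≤ c2 * P * (c1 * U * y) :=
    mul_le_mul_of_nonneg_left (mul_le_mul_of_nonneg_right a1 hy) (by positivity)
  have a6 : 0 ≤ c1 * U * P * x := by positivity
  have a7 : 0 ≤ (2 + M * c2) * U * P * (x + y) := by positivity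
  have a8 : 0 ≤ c2 * c1 * U * P * x := by positivity
  have a9 : 0 ≤ c2 * 2 * U * P * y := by positivity
  have e : (c1 + c2 * (2 + c1) + 2 + M * c2) * U * P * (x + y) = c1 * U * P * x +
      c1 * U * P * y + c2 * P * (2 * x) * U + c2 * c1 * U * P * x + c2 * 2 * U * P * y +
      c2 * P * (c1 * U * y) + (2 + M * c2) * U * P * (x + y) := by ring
  rw [e, mul_add]
  linarith

end Gx31

theorem goodx_31 (hRec : StRec) (hUv : StUv) (hTop : StTopu) (hBay : StBayx) (hPhi : StPhi)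
    (hWx : StWalx) (hArr : StArr) : StGoodx := by
  classical
  intro m n n0 ε hm hε
  obtain ⟨c1, n1, hc1, huv⟩ := hUv m
  obtain ⟨c2, n2, hc2, hrec⟩ := hRec m (n + 2 * (m + 1)) n0 (m + 1) (2 * ε) (by positivity)
  set M : ℝ := 2 ^ (m + 1) * (2 ^ (m + 1) * (1 + 2 ^ (m + 1))) with hM
  have hM0 : 0 ≤ M := by positivity
  have hX0 : 0 ≤ c2 * (2 + c1) := by positivity
  have hY0 : 0 ≤ M * c2 := by positivity
  set C : ℝ := c1 + c2 * (2 + c1) + 2 + M * c2 with hC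
  have hC1 : 1 ≤ C := by rw [hC]; linarith
  have hCc1 : c1 ≤ C := by rw [hC]; linarith
  have hCc2 : c2 ≤ C := by rw [hC]; nlinarith
  have hC2 : 2 ≤ C := by rw [hC]; linarith
  have hCM : M * c2 ≤ C := by rw [hC]; linarith
  refine ⟨C, n1 + n2 + (m + 1), hC1, ?_⟩
  intro L K N R lam b η bs u Z W ka H hL1 hLK h2K hH hAr hlam hη hSch hE hSz hs1 hs2 hbs
  have hT := Gx31.t0_one K
  have hb0 : 0 ≤ b := (hSz.nn 0).trans (hSz.le 0)
  have hTe : ∀ k, k ≤ n1 + n2 + (m + 1) → T0 K ^ k ≤ T0 K ^ (n1 + n2 + (m + 1)) := fun k hk =>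
    pow_le_pow_right₀ hT hk
  have hT0 : ∀ k, (0 : ℝ) ≤ T0 K ^ k := fun k => by positivity
  have hcmp : ∀ c k, 0 ≤ c → c ≤ C → k ≤ n1 + n2 + (m + 1) →
      c * T0 K ^ k ≤ C * T0 K ^ (n1 + n2 + (m + 1)) := fun c k h1 h2 h3 =>
    mul_le_mul h2 (hTe k h3) (hT0 k) (by linarith)
  have hsm : ∀ c k, 0 ≤ c → c ≤ C → k ≤ n1 + n2 + (m + 1) → c * T0 K ^ k * b ≤ 1 :=
    fun c k h1 h2 h3 => (mul_le_mul_of_nonneg_right (hcmp c k h1 h2 h3) hb0).trans hs1
  obtain ⟨hBy, hp1, hp2⟩ := hBay m L K N R lam b η bs u Z ka W hm hL1 hLK hE hAr hlam hη hSch hSz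
    (hsm 2 (m + 1) (by norm_num) hC2 (by omega))
  have hcx : Gx31.Cx K lam c1 b n1 bs u Z W ka H :=
    { hP := hPhi m
      hA := hArr m
      hW := fun M hM => hWx K M hM
      hE := hE
      hB := hBy
      pos := hp1
      posl := hp2
      hL := hLK
      hH := hH
      bs0 := hSz.nn
      bsb := hSz.le
      c1n := hc1
      small := hsm c1 n1 (by linarith) hCc1 (by omega)
      uv := huv }
  have hr2 : c2 * T0 K ^ n2 * L * (c2 * T0 K ^ n2 * b) ^ n0 ≤ 1 := by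
    have h1 := hcmp c2 n2 (by linarith) hCc2 (by omega)
    have h2 : (0 : ℝ) ≤ c2 * T0 K ^ n2 := mul_nonneg (by linarith) (hT0 _)
    have hL0 : (0 : ℝ) ≤ L := Nat.cast_nonneg L
    refine (mul_le_mul (mul_le_mul_of_nonneg_right h1 hL0)
      (pow_le_pow_left₀ (mul_nonneg h2 hb0) (mul_le_mul_of_nonneg_right h1 hb0) n0)
      (pow_nonneg (mul_nonneg h2 hb0) _) (mul_nonneg (h2.trans h1) hL0)).trans hs2
  have hLr : (1 : ℝ) ≤ L := by exact_mod_cast hL1
  have hP1 : (1 : ℝ) ≤ (L : ℝ) ^ ε := Real.one_le_rpow hLr hε.le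
  have hsq : Real.sqrt (c2 * (L : ℝ) ^ (2 * ε)) ≤ c2 * (L : ℝ) ^ ε := by
    have h1 : (L : ℝ) ^ (2 * ε) = ((L : ℝ) ^ ε) ^ 2 := by
      rw [← Real.rpow_natCast, ← Real.rpow_mul (by linarith)]
      congr 1
      push_cast
      ring
    rw [h1]
    refine Real.sqrt_le_iff.2 ⟨by positivity, ?_⟩
    rw [mul_pow]
    refine mul_le_mul_of_nonneg_right ?_ (by positivity)
    nlinarith
  have hB : ∀ B ∈ (univ : Finset (Finset (Fin (m + 1)))).filter (fun B => B.Nonempty ∧ B ≠ univ),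
      PP (Gk K bs ka) Z H (fun ω => ¬ Nm K H B (bs B.card) (fun c => ka B c ω)) ≤
        (2 : ℝ) ^ (m + 1) * (1 + 2 ^ (m + 1)) * c2 / (L + 1) ^ n := by
    intro B hB
    rw [mem_filter] at hB
    obtain ⟨_, hBn, hBu⟩ := hB
    obtain ⟨e, he⟩ : ∃ e, e ∉ B := by
      by_contra hno
      push Not at hno
      exact hBu (Finset.eq_univ_iff_forall.2 hno)
    refine hcx.evB h2K hL1 hc2 hrec (hsm c2 n2 (by linarith) hCc2 (by omega)) hr2 he hBn ?_
    have hcard : B.card ≤ m := by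
      have h1 : B.card < Fintype.card (Fin (m + 1)) := Finset.card_lt_univ_of_notMem he
      simp only [Fintype.card_fin] at h1
      omega
    have hj := hbs B.card hBn.card_pos hcard
    refine le_trans ?_ hj
    set x := bs (B.card + 1) with hx
    have hx0 : 0 ≤ x := hSz.nn _
    set T := T0 K ^ n1 with hTd
    have hT1 : 1 ≤ T := one_le_pow₀ hT
    set P := (L : ℝ) ^ ε with hPd
    have hTT : T ≤ T0 K ^ (n1 + n2 + (m + 1)) := hTe n1 (by omega)
    set U := T0 K ^ (n1 + n2 + (m + 1)) with hU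
    have h0 : 0 ≤ 2 * x + c1 * T * b ^ 2 :=
      add_nonneg (by linarith) (mul_nonneg (mul_nonneg (by linarith) (by linarith)) (sq_nonneg b))
    refine (add_le_add_right (mul_le_mul_of_nonneg_right hsq h0) _).trans ?_
    exact Gx31.fin_arith hc1 hc2 hT1 hTT hP1 hx0 (sq_nonneg b) hM0
  have hfin := Gx31.pp_ex _ hcx.z0 hB
  refine (Gx31.pp_mono hcx.z0 fun ω hg hbad => ?_).trans (hfin.trans ?_)
  · by_contra hno
    refine hbad fun B hBn => ?_
    by_cases hBu : B = univ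
    · subst hBu
      have h1 := hTop m L N R K lam η (fun q => u q ω) H hm hH hlam hη (fun q => hAr.abs q ω)
        (fun q hq => hAr.bd q ω hq) hSch
      have h2 : (fun c => ka univ c ω) = fun c => lam * u c ω := by
        funext c
        exact hE.top c ω
      have h3 : (univ : Finset (Fin (m + 1))).card = m + 1 := by simp
      rw [h2, h3]
      exact Gx31.nm_mono (hArr m) hη hSz.top h1
    · by_contra h1
      refine hno ⟨B, ?_, h1⟩
      rw [mem_filter]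
      exact ⟨mem_univ _, hBn, hBu⟩
  · have h1 : (((univ : Finset (Finset (Fin (m + 1)))).filter
        (fun B => B.Nonempty ∧ B ≠ univ)).card : ℝ) ≤ 2 ^ (m + 1) := by
      have : ((univ : Finset (Finset (Fin (m + 1)))).filter
          (fun B => B.Nonempty ∧ B ≠ univ)).card ≤ 2 ^ (m + 1) := by
        refine (Finset.card_filter_le _ _).trans ?_
        simp
      exact_mod_cast this
    have hL0 : (0 : ℝ) < (L : ℝ) + 1 := by positivity
    refine (mul_le_mul_of_nonneg_right h1 (by positivity)).trans ?_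
    rw [← mul_div_assoc]
    refine div_le_div_of_nonneg_right ?_ (by positivity)
    refine le_trans (le_of_eq ?_) hCM
    rw [hM]
    ring

end Pool.Agent.SHXA
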