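import Pool.Agent.Lib.MP_a7b2aa_an.SHX.EndF30
import Pool.Agent.Lib.MP_a7b2aa_an.SHD.GridL74

/-!
SHX, torus part (helper30, copy of helper74's GridL74 with another factor): GRIDF, from the digits
theorem to the discrete torus.
-/

set_option autoImplicit false

namespace Pool.Agent.SHX

open Finset Pool.Agent.SB3 Pool.Agent.SBT Pool.Agent.SBD Pool.Agent.SHD K75

/-- the factor at `2 M + 3` and at `2 M` -/
theorem lf_dbl {p : ℝ} {E M : ℕ} (hp : 0 ≤ p) (hM : 1 ≤ M) :
    lf p E (2 * M + 3) ≤ 3 ^ p * 3 ^ E * lf p E (2 * M) := by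
  have hM1 : (1 : ℝ) ≤ M := by exact_mod_cast hM
  unfold lf
  have h1 : (((2 * M + 3 : ℕ) : ℝ)) ^ p ≤ 3 ^ p * (((2 * M : ℕ) : ℝ)) ^ p := by
    rw [← Real.mul_rpow (by norm_num) (by positivity)]
    refine Real.rpow_le_rpow (by positivity) ?_ hp
    push_cast
    linarith
  have h2 : Real.log (((2 * M + 3 : ℕ) : ℝ) + 1) + 1 ≤
      3 * (Real.log (((2 * M : ℕ) : ℝ) + 1) + 1) := by
    have h3 : Real.log (((2 * M + 3 : ℕ) : ℝ) + 1) ≤
        Real.log (Real.exp 2 * (((2 * M : ℕ) : ℝ) + 1)) := by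
      refine Real.log_le_log (by positivity) ?_
      have h4 : (4 : ℝ) ≤ Real.exp 2 := by
        have h5 : Real.exp 2 = Real.exp 1 * Real.exp 1 := by
          rw [← Real.exp_add]
          norm_num
        have h6 : (2 : ℝ) ≤ Real.exp 1 := by
          have := Real.add_one_le_exp (1 : ℝ)
          linarith
        rw [h5]
        nlinarith
      have h7 : (4 : ℝ) * (((2 * M : ℕ) : ℝ) + 1) ≤ Real.exp 2 * (((2 * M : ℕ) : ℝ) + 1) :=
        mul_le_mul_of_nonneg_right h4 (by positivity)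
      refine le_trans ?_ h7
      push_cast
      linarith
    rw [Real.log_mul (by positivity) (by positivity), Real.log_exp] at h3
    have h8 := log_one_le (2 * M)
    linarith
  have h9 : 0 ≤ Real.log (((2 * M + 3 : ℕ) : ℝ) + 1) + 1 :=
    le_trans zero_le_one (log_one_le (2 * M + 3))
  have h10 : (Real.log (((2 * M + 3 : ℕ) : ℝ) + 1) + 1) ^ E ≤
      3 ^ E * (Real.log (((2 * M : ℕ) : ℝ) + 1) + 1) ^ E := by
    rw [← mul_pow]
    exact pow_le_pow_left₀ h9 h2 E
  calc _ ≤ (3 ^ p * (((2 * M : ℕ) : ℝ)) ^ p) *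
        (3 ^ E * (Real.log (((2 * M : ℕ) : ℝ) + 1) + 1) ^ E) :=
        mul_le_mul h1 h10 (by positivity) (by positivity)
    _ = _ := by ring

open E74 in
/-- GRIDF -/
theorem gridf_30 (m : ℕ) (hm : 1 ≤ m) (p : ℝ) (E : ℕ) (hp : ((m : ℝ) - 1) / 2 ≤ p)
    (hE : StEndF m p E)
    (hC : StCfeK) (hB : StBlkb) (hN : StNumK) (hG : StBgb) (hI : StIntK) (hS : StSupbD)
    (hP : StParD) : StGridF m p E := by
  obtain ⟨C1, hC1, hE⟩ := hE
  obtain ⟨C2, hC2, hB⟩ := hB m
  obtain ⟨C3, hC3, hN⟩ := hN (m + 1)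
  have hm' : (1 : ℝ) ≤ m := by exact_mod_cast hm
  have hp0 : 0 ≤ p := le_trans (by linarith) hp
  refine ⟨6 ^ (m + 1) * 262144 ^ (m + 1) * C3 * (C2 * C3 * 6 ^ (m + 1)) * C1 * (3 ^ p * 3 ^ E) +
    (m + 1), by positivity, ?_⟩
  intro M0 c M hM0 hM
  have hMn : 0 ≤ M := (abs_nonneg _).trans (hM 0)
  have hM0' : (1 : ℝ) ≤ M0 := by exact_mod_cast hM0
  obtain ⟨L, hLdef⟩ : ∃ L, L = 2 * M0 + 3 := ⟨_, rfl⟩
  have hEeb : Eeb m L := eeb_36 m L
  have hlfL : 0 < lf p E L := lt_of_lt_of_le one_pos (lf_one hp0 (by omega))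
  have hlfM : 0 < lf p E (2 * M0) := lt_of_lt_of_le one_pos (lf_one hp0 (by omega))
  -- positions
  have hpos : ∀ l ∈ inl (m + 1) M0, ∀ a, 1 ≤ l a ∧ 2 * l a + 3 ≤ L := by
    intro l hl a
    unfold inl at hl
    rw [mem_filter, Finset.Nat.mem_antidiagonalTuple] at hl
    refine ⟨hl.2 a, ?_⟩
    have := Finset.single_le_sum (f := l) (fun i _ => Nat.zero_le _) (Finset.mem_univ a)
    omega
  have hsub : ∀ l ∈ inl (m + 1) M0, l ∈ Finset.Nat.antidiagonalTuple (m + 1) M0 := fun l hl => by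
    unfold inl at hl
    exact (mem_filter.1 hl).1
  -- bounds
  have hbl : ∀ l ∈ inl (m + 1) M0, ∀ ω : Pt m L, |bg c l ω| ≤ 6 ^ (m + 1) * M := by
    intro l hl ω
    subst hLdef
    rw [← PT_tor]
    exact hS (m + 1) M0 l c M (hsub l hl) hM (tor ω)
  have hFm : ∀ ω : Pt m L, |∑ l ∈ Finset.Nat.antidiagonalTuple (m + 1) M0, bg c l ω| ≤ M := by
    intro ω
    subst hLdef
    have h1 := hM (tor ω)
    unfold FmD at h1
    have h2 : ∑ l ∈ Finset.Nat.antidiagonalTuple (m + 1) M0, PT (blkD l) c (tor ω) =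
        ∑ l ∈ Finset.Nat.antidiagonalTuple (m + 1) M0, bg c l ω :=
      sum_congr rfl fun l _ => PT_tor c l ω
    rwa [h2] at h1
  set F : Pt m L → ℝ := fun ω => ∑ l ∈ inl (m + 1) M0, bg c l ω with hFdef
  have hF2 : ∀ ω, |F ω| ≤ 2 ^ (m + 1) * M := hI m M0 L c M (by omega) hFm
  have hFE : ∀ a ω, EE (one L a 0) F ω = 0 := by
    intro a ω
    have h1 : EE (one L a 0) F ω = ∑ l ∈ inl (m + 1) M0, EE (one L a 0) (bg c l) ω := by
      rw [hFdef]
      unfold EE
      rw [← Finset.sum_div]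
      congr 1
      rw [Finset.sum_comm]
      refine Finset.sum_congr rfl fun ω' _ => ?_
      split_ifs
      · rfl
      · simp
    rw [h1]
    exact Finset.sum_eq_zero fun l hl => (hG m M0 L c l hl (by omega)).2 a ω
  have hcf : ∀ q : Fin (m + 1) → ℕ, (∀ a, q a < L) → ∀ ω,
      |SBD.cf F q ω| ≤ C2 * C3 * (6 ^ (m + 1) * M) * kap (2 * M0) q := by
    intro q hq ω
    rw [hFdef, cf_sum33]
    refine (Finset.abs_sum_le_sum_abs _ _).trans ?_
    have h1 : ∀ l ∈ inl (m + 1) M0, |SBD.cf (bg c l) q ω| ≤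
        C2 * (∏ a, (1 / 2 : ℝ) ^ dst (q a) (2 * l a)) * (6 ^ (m + 1) * M) := by
      intro l hl
      exact hB L (fun a => 2 * l a) q (bg c l) (6 ^ (m + 1) * M)
        (fun a => by have := (hpos l hl a).1; omega) (fun a => by have := (hpos l hl a).2; omega) hq
        (hG m M0 L c l hl (by omega)).1 (hbl l hl) ω
    refine (Finset.sum_le_sum h1).trans ?_
    have h2 : ∑ l ∈ inl (m + 1) M0,
        C2 * (∏ a, (1 / 2 : ℝ) ^ dst (q a) (2 * l a)) * (6 ^ (m + 1) * M) =
        C2 * (6 ^ (m + 1) * M) *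
          ∑ l ∈ inl (m + 1) M0, ∏ a, (1 / 2 : ℝ) ^ dst (q a) (2 * l a) := by
      rw [Finset.mul_sum]
      refine Finset.sum_congr rfl fun l _ => ?_
      ring
    rw [h2]
    have h3 : ∑ l ∈ inl (m + 1) M0, ∏ a, (1 / 2 : ℝ) ^ dst (q a) (2 * l a) ≤
        C3 * kap (2 * M0) q := by
      refine le_trans ?_ (hN M0 q)
      unfold inl
      exact Finset.sum_le_sum_of_subset_of_nonneg (Finset.filter_subset _ _)
        fun l _ _ => by positivity
    calc C2 * (6 ^ (m + 1) * M) * ∑ l ∈ inl (m + 1) M0, ∏ a, (1 / 2 : ℝ) ^ dst (q a) (2 * l a)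
        ≤ C2 * (6 ^ (m + 1) * M) * (C3 * kap (2 * M0) q) := by gcongr
      _ = C2 * C3 * (6 ^ (m + 1) * M) * kap (2 * M0) q := by ring
  -- the interior blocks
  set K : ℝ := 6 ^ (m + 1) * 262144 ^ (m + 1) with hK
  set B : ℝ := C2 * C3 * (6 ^ (m + 1) * M) with hBdef
  have hint : ∑ l ∈ inl (m + 1) M0, Av (fun ω : Pt m L => |bg c l ω|) ≤
      K * C3 * B * C1 * lf p E L := by
    rcases hMn.eq_or_lt with hM00 | hMpos
    · have h1 : ∀ l ∈ inl (m + 1) M0, Av (fun ω : Pt m L => |bg c l ω|) = 0 := by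
        intro l hl
        have h2 : (fun ω : Pt m L => |bg c l ω|) = fun _ => 0 := by
          funext ω
          have h3 := hbl l hl ω
          rw [← hM00, mul_zero] at h3
          exact le_antisymm h3 (abs_nonneg _)
        rw [h2, Av_const]
      rw [sum_eq_zero h1]
      positivity
    have hB0 : 0 < B := by positivity
    classical
    set v : (Fin (m + 1) → ℕ) → Pt m L → ℝ := fun q ω =>
      if ∀ a, q a < L then SBD.cf F q ω / B else 0 with hv
    have hArK : ArK (2 * M0) v := by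
      constructor
      · intro q ω
        rw [hv]
        dsimp only
        split_ifs with h
        · rw [abs_div, abs_of_pos hB0, div_le_iff₀ hB0, mul_comm (kap _ _)]
          exact hcf q h ω
        · rw [abs_zero]
          exact (kap_pos33 _ _).le
      · intro q
        rw [hv]
        dsimp only
        by_cases h : ∀ a, q a < L
        · simp only [h, implies_true, if_true]
          exact Ms.comp (hEeb.ms q _) (fun x => x / B)
        · simp only [h, if_false]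
          exact Ms.cst q 0
    have hmem : ∀ q ∈ All m L, ∀ a, q a < L := by
      intro q hq a
      unfold All at hq
      rw [mem_fr] at hq
      exact hq.1 a (Finset.mem_univ a)
    have hexp := (hC m L F hFE).1
    have hHH : ∀ ω, HH v ω = F ω / B := by
      intro ω
      rw [HH_eq33, hexp ω, Finset.sum_div]
      refine Finset.sum_congr rfl fun q hq => ?_
      rw [hv]
      dsimp only
      rw [if_pos (hmem q hq), mul_div_assoc]
    have hFB : ∀ ω, |HH v ω| ≤ 1 := by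
      intro ω
      rw [hHH, abs_div, abs_of_pos hB0, div_le_one hB0]
      refine (hF2 ω).trans ?_
      have h1 : (2 : ℝ) ^ (m + 1) ≤ 6 ^ (m + 1) := pow_le_pow_left₀ (by norm_num) (by norm_num) _
      have h2 : (1 : ℝ) ≤ C2 * C3 := one_le_mul_of_one_le_of_one_le hC2 hC3
      calc 2 ^ (m + 1) * M ≤ 6 ^ (m + 1) * M := by gcongr
        _ ≤ C2 * C3 * (6 ^ (m + 1) * M) := le_mul_of_one_le_left (by positivity) h2
    have hend := hE L (2 * M0) v (by omega) hArK hFB
    have hcfS : ∑ q ∈ All m L, Av (fun ω => |SBD.cf F q ω|) ≤ B * (C1 * lf p E L) := by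
      have h1 : ∀ q ∈ All m L, Av (fun ω => |SBD.cf F q ω|) = B * Av (fun ω => |v q ω|) := by
        intro q hq
        rw [← Av_smul]
        congr 1
        funext ω
        rw [hv]
        dsimp only
        rw [if_pos (hmem q hq), abs_div, abs_of_pos hB0]
        field_simp
      rw [sum_congr rfl h1, ← mul_sum]
      exact mul_le_mul_of_nonneg_left hend hB0.le
    calc ∑ l ∈ inl (m + 1) M0, Av (fun ω : Pt m L => |bg c l ω|)
        ≤ ∑ l ∈ inl (m + 1) M0, K * ∑ q ∈ All m L,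
            (∏ a, (1 / 2 : ℝ) ^ dst (q a) (2 * l a)) * Av (fun ω => |SBD.cf F q ω|) :=
          sum_le_sum fun l hl => block74 hC (inl (m + 1) M0) hpos l hl c hFE
      _ = K * ∑ q ∈ All m L, (∑ l ∈ inl (m + 1) M0, ∏ a, (1 / 2 : ℝ) ^ dst (q a) (2 * l a)) *
            Av (fun ω => |SBD.cf F q ω|) := by
          rw [← mul_sum, sum_comm]
          congr 1
          exact sum_congr rfl fun q _ => by rw [sum_mul]
      _ ≤ K * ∑ q ∈ All m L, C3 * Av (fun ω => |SBD.cf F q ω|) := by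
          refine mul_le_mul_of_nonneg_left (sum_le_sum fun q _ => ?_) (by positivity)
          refine mul_le_mul_of_nonneg_right ?_ ?_
          · refine le_trans ?_ ((hN M0 q).trans ?_)
            · unfold inl
              exact Finset.sum_le_sum_of_subset_of_nonneg (Finset.filter_subset _ _)
                fun l _ _ => by positivity
            · refine mul_le_of_le_one_right (by positivity) ?_
              unfold kap
              exact pow_le_one₀ (by norm_num) (by norm_num)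
          · have := Av_mono (φ := fun _ : Pt m L => (0 : ℝ)) (ψ := fun ω => |SBD.cf F q ω|)
              fun ω => abs_nonneg _
            rwa [Av_const] at this
      _ ≤ K * (C3 * (B * (C1 * lf p E L))) := by
          rw [← mul_sum]
          gcongr
      _ = K * C3 * B * C1 * lf p E L := by ring
  -- back to the torus
  have hS1 : ∀ l, S1 (PT (N := 2 ^ L) (blkD l) c) =
      (2 ^ L) ^ (m + 1) * Av (fun ω : Pt m L => |bg c l ω|) := by
    intro l
    have h1 : Av (fun ω : Pt m L => |bg c l ω|) = S1 (PT (N := 2 ^ L) (blkD l) c) /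
        2 ^ ((m + 1) * L) := by
      have h2 : Av (fun ω : Pt m L => |bg c l ω|) =
          Av (fun ω : Pt m L => |PT (N := 2 ^ L) (blkD l) c (tor ω)|) := by
        congr 1
        funext ω
        rw [PT_tor]
      rw [h2, Av_tor (fun u => |PT (N := 2 ^ L) (blkD l) c u|)]
      rfl
    rw [h1, mul_comm (m + 1) L, pow_mul]
    field_simp
  have hbd := D30.boundary hP m M0 hm c M hM hMn
  have hsplit : ∑ l ∈ Finset.Nat.antidiagonalTuple (m + 1) M0,
      S1 (PT (N := 2 ^ (2 * M0 + 3)) (blkD l) c) =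
      ∑ l ∈ inl (m + 1) M0, S1 (PT (N := 2 ^ (2 * M0 + 3)) (blkD l) c) +
      ∑ l ∈ (Finset.Nat.antidiagonalTuple (m + 1) M0).filter (fun l => ¬ ∀ j, 1 ≤ l j),
        S1 (PT (N := 2 ^ (2 * M0 + 3)) (blkD l) c) := by
    unfold inl
    rw [sum_filter_add_sum_filter_not]
  have hLp : lf p E L ≤ 3 ^ p * 3 ^ E * lf p E (2 * M0) := by
    rw [hLdef]
    exact lf_dbl hp0 hM0
  have hsq : Real.sqrt ((m + 1) * ((M0 : ℝ) + 1) ^ (m - 1)) ≤
      (m + 1) * lf p E (2 * M0) := by
    have h2M : (1 : ℝ) ≤ ((2 * M0 : ℕ) : ℝ) := by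
      push_cast
      linarith
    have h1 : ((M0 : ℝ) + 1) ^ (m - 1) ≤ (lf p E (2 * M0)) ^ 2 := by
      calc ((M0 : ℝ) + 1) ^ (m - 1) ≤ (((2 * M0 : ℕ) : ℝ)) ^ (m - 1) := by
            refine pow_le_pow_left₀ (by positivity) ?_ _
            push_cast
            linarith
        _ = (((2 * M0 : ℕ) : ℝ)) ^ ((m : ℝ) - 1) := by
            rw [← Real.rpow_natCast, Nat.cast_sub hm, Nat.cast_one]
        _ ≤ (((2 * M0 : ℕ) : ℝ)) ^ (p * 2) := Real.rpow_le_rpow_of_exponent_le h2M (by linarith)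
        _ = ((((2 * M0 : ℕ) : ℝ)) ^ p) ^ 2 := by
            rw [Real.rpow_mul (by positivity)]
            norm_num
        _ ≤ (lf p E (2 * M0)) ^ 2 :=
            pow_le_pow_left₀ (by positivity) (rpow_le_lf (by omega)) 2
    rw [Real.sqrt_le_left (by positivity), mul_pow]
    have h3 : ((m : ℝ) + 1) ≤ ((m : ℝ) + 1) ^ 2 := by nlinarith
    calc ((m : ℝ) + 1) * ((M0 : ℝ) + 1) ^ (m - 1)
        ≤ ((m : ℝ) + 1) ^ 2 * (lf p E (2 * M0)) ^ 2 :=
          mul_le_mul h3 h1 (by positivity) (by positivity)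
      _ = _ := rfl
  have hNpos : (0 : ℝ) ≤ (2 ^ L) ^ (m + 1) := by positivity
  have hint2 : ∑ l ∈ inl (m + 1) M0, S1 (PT (N := 2 ^ (2 * M0 + 3)) (blkD l) c) ≤
      K * C3 * B * C1 * (3 ^ p * 3 ^ E * lf p E (2 * M0)) * (2 ^ (2 * M0 + 3)) ^ (m + 1) := by
    have h1 : ∑ l ∈ inl (m + 1) M0, S1 (PT (N := 2 ^ L) (blkD l) c) =
        (2 ^ L) ^ (m + 1) * ∑ l ∈ inl (m + 1) M0, Av (fun ω : Pt m L => |bg c l ω|) := by
      rw [mul_sum]
      exact sum_congr rfl fun l _ => hS1 l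
    have h2 : ∑ l ∈ inl (m + 1) M0, S1 (PT (N := 2 ^ L) (blkD l) c) ≤
        K * C3 * B * C1 * (3 ^ p * 3 ^ E * lf p E (2 * M0)) * (2 ^ L) ^ (m + 1) := by
      rw [h1, mul_comm]
      refine mul_le_mul_of_nonneg_right (hint.trans ?_) hNpos
      refine mul_le_mul_of_nonneg_left hLp (by positivity)
    subst hLdef
    exact h2
  rw [hsplit]
  calc _ ≤ K * C3 * B * C1 * (3 ^ p * 3 ^ E * lf p E (2 * M0)) * (2 ^ (2 * M0 + 3)) ^ (m + 1) +
        (m + 1) * lf p E (2 * M0) * (M * (2 ^ (2 * M0 + 3)) ^ (m + 1)) := by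
        refine add_le_add hint2 (hbd.trans ?_)
        exact mul_le_mul_of_nonneg_right hsq (by positivity)
    _ = (K * C3 * (C2 * C3 * 6 ^ (m + 1)) * C1 * (3 ^ p * 3 ^ E) + (m + 1)) *
        lf p E (2 * M0) * M * (2 ^ (2 * M0 + 3)) ^ (m + 1) := by
        rw [hBdef]
        ring

end Pool.Agent.SHX
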