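import Mathlib

/-!
# The inequality of Golden and Thompson (seat 21)

`tr (exp (A + B)) ≤ tr (exp A * exp B)` for symmetric real matrices `A`, `B`.
-/

set_option autoImplicit false

open Filter Topology Finset

namespace Pool.Agent.SHX

namespace Gt21

/-! ### the formula of Trotter -/

section trotter

variable {𝔸 : Type*} [NormedRing 𝔸]

theorem norm_pow_sub (X Y : 𝔸) {M : ℝ} (hM : 1 ≤ M) (hX : ‖X‖ ≤ M) (hY : ‖Y‖ ≤ M)
    (h1 : ‖(1 : 𝔸)‖ ≤ 1) (n : ℕ) : ‖X ^ n - Y ^ n‖ ≤ n * M ^ n * ‖X - Y‖ := by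
  have hM0 : 0 ≤ M := by linarith
  have hpow : ∀ k : ℕ, ‖X ^ k‖ ≤ M ^ k := by
    intro k
    induction k with
    | zero => simpa using h1
    | succ k ih =>
      rw [pow_succ, pow_succ]
      exact (norm_mul_le _ _).trans (mul_le_mul ih hX (norm_nonneg _) (by positivity))
  induction n with
  | zero => simp
  | succ n ih =>
    have e : X ^ (n + 1) - Y ^ (n + 1) = X ^ n * (X - Y) + (X ^ n - Y ^ n) * Y := by
      rw [pow_succ, pow_succ]
      noncomm_ring
    rw [e]
    have h2 : ‖X ^ n * (X - Y)‖ ≤ M ^ n * ‖X - Y‖ :=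
      (norm_mul_le _ _).trans (mul_le_mul_of_nonneg_right (hpow n) (norm_nonneg _))
    have h3 : ‖(X ^ n - Y ^ n) * Y‖ ≤ n * M ^ n * ‖X - Y‖ * M :=
      (norm_mul_le _ _).trans (mul_le_mul ih hY (norm_nonneg _) (by positivity))
    have h4 : M ^ n * ‖X - Y‖ ≤ M ^ (n + 1) * ‖X - Y‖ := by
      apply mul_le_mul_of_nonneg_right _ (norm_nonneg _)
      exact pow_le_pow_right₀ hM (Nat.le_succ n)
    calc ‖X ^ n * (X - Y) + (X ^ n - Y ^ n) * Y‖ ≤
          M ^ n * ‖X - Y‖ + n * M ^ n * ‖X - Y‖ * M := (norm_add_le _ _).trans (add_le_add h2 h3)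
      _ ≤ M ^ (n + 1) * ‖X - Y‖ + n * M ^ n * ‖X - Y‖ * M := by linarith
      _ = ((n + 1 : ℕ) : ℝ) * M ^ (n + 1) * ‖X - Y‖ := by push_cast; ring

variable [NormedAlgebra ℝ 𝔸] [CompleteSpace 𝔸]

/-- **Trotter** -/
theorem trotter (h1 : ‖(1 : 𝔸)‖ ≤ 1) (a b : 𝔸) :
    Tendsto (fun n : ℕ => (NormedSpace.exp ((1 / (n : ℝ)) • a) *
      NormedSpace.exp ((1 / (n : ℝ)) • b)) ^ n) atTop (𝓝 (NormedSpace.exp (a + b))) := by
  letI : NormedAlgebra ℚ 𝔸 := NormedAlgebra.restrictScalars ℚ ℝ 𝔸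
  set g : ℝ → 𝔸 := fun t => NormedSpace.exp (t • a) * NormedSpace.exp (t • b) with hg
  set f : ℝ → 𝔸 := fun t => NormedSpace.exp (t • (a + b)) with hf
  have hg1 : HasDerivAt g (a + b) 0 := by
    have ha := hasDerivAt_exp_smul_const a (0 : ℝ)
    have hb := hasDerivAt_exp_smul_const b (0 : ℝ)
    have := ha.mul hb
    simp only [zero_smul, NormedSpace.exp_zero, one_mul, mul_one] at this
    exact this
  have hf1 : HasDerivAt f (a + b) 0 := by
    have ha := hasDerivAt_exp_smul_const (a + b) (0 : ℝ)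
    simp only [zero_smul, NormedSpace.exp_zero, one_mul] at ha
    exact ha
  have hg0 : g 0 = 1 := by simp [hg, NormedSpace.exp_zero]
  have hf0 : f 0 = 1 := by simp [hf, NormedSpace.exp_zero]
  -- the difference is small
  have hd : HasDerivAt (fun t => g t - f t) 0 0 := by
    have := hg1.sub hf1
    rwa [sub_self] at this
  have hlo := (hasDerivAt_iff_isLittleO_nhds_zero.1 hd)
  simp only [zero_add, hg0, hf0, sub_self, sub_zero, smul_zero] at hlo
  -- the two functions are `1 + O(t)`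
  have hgO : (fun t => g t - 1) =O[𝓝 0] fun t => t := by
    have := hg1.isBigO_sub
    simpa [hg0] using this
  have hfO : (fun t => f t - 1) =O[𝓝 0] fun t => t := by
    have := hf1.isBigO_sub
    simpa [hf0] using this
  obtain ⟨C1, hC1⟩ := hgO.bound
  obtain ⟨C2, hC2⟩ := hfO.bound
  set C := max (max C1 C2) 0 with hC
  have hC0 : 0 ≤ C := le_max_right _ _
  have hlim : Tendsto (fun n : ℕ => 1 / (n : ℝ)) atTop (𝓝 0) :=
    tendsto_one_div_atTop_nhds_zero_nat
  have hev1 := hlim.eventually hC1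
  have hev2 := hlim.eventually hC2
  rw [tendsto_iff_norm_sub_tendsto_zero]
  have hsm : Tendsto (fun n : ℕ => Real.exp C * (‖g (1 / n) - f (1 / n)‖ / (1 / n))) atTop
      (𝓝 0) := by
    have h2 := (hlo.norm_left.tendsto_div_nhds_zero).comp hlim
    have h3 := h2.const_mul (Real.exp C)
    rw [mul_zero] at h3
    refine h3.congr fun n => ?_
    simp
  refine squeeze_zero' (Eventually.of_forall fun n => norm_nonneg _) ?_ hsm
  filter_upwards [hev1, hev2, eventually_ge_atTop 1] with n hn1 hn2 hn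
  have hn0 : (0 : ℝ) < n := by exact_mod_cast hn
  have hYn : f (1 / n) ^ n = NormedSpace.exp (a + b) := by
    simp only [hf]
    rw [← NormedSpace.exp_nsmul, ← Nat.cast_smul_eq_nsmul ℝ, smul_smul]
    congr 1
    rw [mul_one_div_cancel hn0.ne', one_smul]
  have hb1 : ‖g (1 / n)‖ ≤ 1 + C / n := by
    have e : g (1 / n) = (g (1 / n) - 1) + 1 := by noncomm_ring
    rw [e]
    refine (norm_add_le _ _).trans ?_
    have h3 : ‖(1 : ℝ) / n‖ = 1 / n := Real.norm_of_nonneg (by positivity)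
    rw [h3] at hn1
    have h4 : C1 * (1 / (n : ℝ)) ≤ C * (1 / n) :=
      mul_le_mul_of_nonneg_right ((le_max_left _ _).trans (le_max_left _ _)) (by positivity)
    have h5 : C * (1 / (n : ℝ)) = C / n := by ring
    linarith
  have hb2 : ‖f (1 / n)‖ ≤ 1 + C / n := by
    have e : f (1 / n) = (f (1 / n) - 1) + 1 := by noncomm_ring
    rw [e]
    refine (norm_add_le _ _).trans ?_
    have h3 : ‖(1 : ℝ) / n‖ = 1 / n := Real.norm_of_nonneg (by positivity)
    rw [h3] at hn2
    have h4 : C2 * (1 / (n : ℝ)) ≤ C * (1 / n) :=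
      mul_le_mul_of_nonneg_right ((le_max_right _ _).trans (le_max_left _ _)) (by positivity)
    have h5 : C * (1 / (n : ℝ)) = C / n := by ring
    linarith
  have hM : 1 ≤ 1 + C / n := by
    have : 0 ≤ C / n := by positivity
    linarith
  have h6 := norm_pow_sub (g (1 / n)) (f (1 / n)) hM hb1 hb2 h1 n
  rw [hYn] at h6
  have h7 : (1 + C / n) ^ n ≤ Real.exp C := by
    calc (1 + C / n) ^ n ≤ (Real.exp (C / n)) ^ n := by
          apply pow_le_pow_left₀ (by linarith)
          rw [add_comm]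
          exact Real.add_one_le_exp _
      _ = Real.exp C := by
          rw [← Real.exp_nat_mul]
          congr 1
          field_simp
  calc ‖g (1 / n) ^ n - NormedSpace.exp (a + b)‖ ≤
        n * (1 + C / n) ^ n * ‖g (1 / n) - f (1 / n)‖ := h6
    _ ≤ n * Real.exp C * ‖g (1 / n) - f (1 / n)‖ := by gcongr
    _ = Real.exp C * (‖g (1 / n) - f (1 / n)‖ / (1 / n)) := by
        field_simp

end trotter

/-! ### traces -/

section traces

variable {n : Type*} [Fintype n] [DecidableEq n]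

open Matrix

theorem tr_sq_nonneg (S : Matrix n n ℝ) : 0 ≤ (Sᵀ * S).trace := by
  rw [trace]
  refine Finset.sum_nonneg fun i _ => ?_
  rw [diag_apply, mul_apply]
  exact Finset.sum_nonneg fun j _ => mul_self_nonneg _

omit [DecidableEq n] in
/-- Cauchy and Schwarz -/
theorem tr_cs (A B : Matrix n n ℝ) : (A * B).trace ^ 2 ≤ (Aᵀ * A).trace * (Bᵀ * B).trace := by
  have h1 : (A * B).trace = ∑ p : n × n, A p.1 p.2 * B p.2 p.1 := by
    rw [trace, Fintype.sum_prod_type]
    exact Finset.sum_congr rfl fun i _ => by rw [diag_apply, mul_apply]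
  have h2 : (Aᵀ * A).trace = ∑ p : n × n, A p.1 p.2 ^ 2 := by
    rw [trace, Fintype.sum_prod_type, Finset.sum_comm]
    refine Finset.sum_congr rfl fun i _ => ?_
    rw [diag_apply, mul_apply]
    exact Finset.sum_congr rfl fun j _ => by rw [transpose_apply, sq]
  have h3 : (Bᵀ * B).trace = ∑ p : n × n, B p.2 p.1 ^ 2 := by
    rw [trace, Fintype.sum_prod_type]
    refine Finset.sum_congr rfl fun i _ => ?_
    rw [diag_apply, mul_apply]
    exact Finset.sum_congr rfl fun j _ => by rw [transpose_apply, sq]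
  rw [h1, h2, h3]
  exact Finset.sum_mul_sq_le_sq_mul_sq _ _ _

theorem mul_pow_comm (U V : Matrix n n ℝ) (k : ℕ) : (U * V) ^ k * U = U * (V * U) ^ k := by
  induction k with
  | zero => simp
  | succ k ih =>
    rw [pow_succ', Matrix.mul_assoc, ih, pow_succ']
    simp only [Matrix.mul_assoc]

/-- cyclicity for powers -/
theorem tr_pow_comm (U V : Matrix n n ℝ) (k : ℕ) :
    ((U * V) ^ k).trace = ((V * U) ^ k).trace := by
  cases k with
  | zero => simp
  | succ k =>
    rw [pow_succ, ← Matrix.mul_assoc, mul_pow_comm, Matrix.mul_assoc, Matrix.trace_mul_comm,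
      Matrix.mul_assoc, ← pow_succ]

/-- powers of two, joint induction -/
theorem weyl (k : ℕ) : (∀ Z : Matrix n n ℝ, |(Z ^ 2 ^ (k + 1)).trace| ≤
      ((Zᵀ * Z) ^ 2 ^ k).trace) ∧
    ∀ P Q : Matrix n n ℝ, Pᵀ = P → Qᵀ = Q → ((P * Q) ^ 2 ^ k).trace ^ 2 ≤
      (P ^ 2 ^ (k + 1)).trace * (Q ^ 2 ^ (k + 1)).trace := by
  induction k with
  | zero =>
    constructor
    · intro Z
      have h1 := tr_cs Z Z
      have h2 := tr_sq_nonneg Z
      rw [zero_add, pow_one, pow_zero, pow_one, sq Z]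
      rw [← sq (Zᵀ * Z).trace] at h1
      exact abs_le_of_sq_le_sq h1 h2
    · intro P Q hP hQ
      have h1 := tr_cs P Q
      rw [hP, hQ, ← sq, ← sq] at h1
      simpa using h1
  | succ k ih =>
    obtain ⟨hA, hB⟩ := ih
    have hnn : ∀ Z : Matrix n n ℝ, Zᵀ = Z → 0 ≤ (Z ^ 2 ^ (k + 1)).trace := by
      intro Z hZ
      rw [pow_succ, pow_mul, sq]
      have h1 := tr_sq_nonneg (Z ^ 2 ^ k)
      rwa [transpose_pow, hZ] at h1
    constructor
    · intro Z
      have h1 := hA (Z ^ 2)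
      rw [← pow_mul, ← pow_succ'] at h1
      refine h1.trans ?_
      have h2 : ((Z ^ 2)ᵀ * Z ^ 2) = Zᵀ * (Zᵀ * Z * Z) := by
        rw [transpose_pow, sq, sq]
        simp only [Matrix.mul_assoc]
      have h3 : (((Z ^ 2)ᵀ * Z ^ 2) ^ 2 ^ k).trace = (((Zᵀ * Z) * (Z * Zᵀ)) ^ 2 ^ k).trace := by
        rw [h2, tr_pow_comm]
        congr 2
        simp only [Matrix.mul_assoc]
      rw [h3]
      have h4 := hB (Zᵀ * Z) (Z * Zᵀ) (by simp) (by simp)
      rw [tr_pow_comm Z Zᵀ, ← sq] at h4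
      have h5 : 0 ≤ ((Zᵀ * Z) ^ 2 ^ (k + 1)).trace := hnn _ (by simp)
      exact (abs_le_of_sq_le_sq h4 h5).trans' (le_abs_self _)
    · intro P Q hP hQ
      have h1 := hA (P * Q)
      have h2 : (P * Q)ᵀ * (P * Q) = Q * (P ^ 2 * Q) := by
        rw [transpose_mul, hP, hQ, sq]
        simp only [Matrix.mul_assoc]
      rw [h2, tr_pow_comm Q] at h1
      have h3 : P ^ 2 * Q * Q = P ^ 2 * Q ^ 2 := by
        rw [sq Q, Matrix.mul_assoc]
      rw [h3] at h1
      have h4 := hB (P ^ 2) (Q ^ 2) (by rw [transpose_pow, hP]) (by rw [transpose_pow, hQ])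
      rw [← pow_mul, ← pow_mul, ← pow_succ'] at h4
      refine le_trans ?_ h4
      rw [← sq_abs ((((P * Q) ^ 2 ^ (k + 1))).trace)]
      exact pow_le_pow_left₀ (abs_nonneg _) h1 2

/-- the inequality of Golden and Thompson for powers of two -/
theorem gt_pow (k : ℕ) : ∀ X Y : Matrix n n ℝ, Xᵀ = X → Yᵀ = Y →
    ((X * Y) ^ 2 ^ k).trace ≤ (X ^ 2 ^ k * Y ^ 2 ^ k).trace := by
  induction k with
  | zero =>
    intro X Y _ _
    simp
  | succ k ih =>
    intro X Y hX hY
    have h1 := (weyl k).1 (X * Y)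
    have h2 : (X * Y)ᵀ * (X * Y) = Y * (X ^ 2 * Y) := by
      rw [transpose_mul, hX, hY, sq]
      simp only [Matrix.mul_assoc]
    rw [h2, tr_pow_comm Y] at h1
    have h3 : X ^ 2 * Y * Y = X ^ 2 * Y ^ 2 := by
      rw [sq Y, Matrix.mul_assoc]
    rw [h3] at h1
    have h4 := ih (X ^ 2) (Y ^ 2) (by rw [transpose_pow, hX]) (by rw [transpose_pow, hY])
    rw [← pow_mul, ← pow_mul, ← pow_succ'] at h4
    exact (le_abs_self _).trans (h1.trans h4)

/-- **Golden and Thompson** -/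
theorem golden_thompson (A B : Matrix n n ℝ) (hA : Aᵀ = A) (hB : Bᵀ = B) :
    (NormedSpace.exp (A + B)).trace ≤ (NormedSpace.exp A * NormedSpace.exp B).trace := by
  rcases isEmpty_or_nonempty n with hn | hn
  · simp [Matrix.trace]
  have hT : Tendsto (fun m : ℕ => (NormedSpace.exp ((1 / (m : ℝ)) • A) *
      NormedSpace.exp ((1 / (m : ℝ)) • B)) ^ m) atTop (𝓝 (NormedSpace.exp (A + B))) := by
    open scoped Norms.Operator in
    exact trotter (by rw [norm_one]) A B
  have h2 : Tendsto (fun k : ℕ => 2 ^ k) atTop atTop := tendsto_pow_atTop_atTop_of_one_lt one_lt_two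
  have hT2 := hT.comp h2
  have htr : Continuous (fun M : Matrix n n ℝ => M.trace) := continuous_id.matrix_trace
  have hT3 := (htr.tendsto _).comp hT2
  refine le_of_tendsto hT3 (Eventually.of_forall fun k => ?_)
  simp only [Function.comp]
  set c : ℝ := 1 / ((2 ^ k : ℕ) : ℝ) with hc
  have hsA : (NormedSpace.exp (c • A))ᵀ = NormedSpace.exp (c • A) := by
    rw [← Matrix.exp_transpose, transpose_smul, hA]
  have hsB : (NormedSpace.exp (c • B))ᵀ = NormedSpace.exp (c • B) := by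
    rw [← Matrix.exp_transpose, transpose_smul, hB]
  refine (gt_pow k _ _ hsA hsB).trans (le_of_eq ?_)
  have hp : ∀ M : Matrix n n ℝ, (NormedSpace.exp (c • M)) ^ 2 ^ k = NormedSpace.exp M := by
    intro M
    rw [← Matrix.exp_nsmul, ← Nat.cast_smul_eq_nsmul ℝ, smul_smul, hc]
    congr 1
    rw [mul_one_div_cancel (by positivity), one_smul]
  rw [hp, hp]

end traces

end Gt21

end Pool.Agent.SHX
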