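import Pool.Agent.Lib.MP_a7b2aa_an.SHX.StmtsSys30
import Pool.Agent.Lib.MP_a7b2aa_an.SHD.Stmts5_74

/-!
MP_a7b2aa_an (helper30): interface of the end game, with the factor `L ^ p (log (L + 1) + 1) ^ E`
in the place of `L ^ p`.
-/

set_option autoImplicit false

namespace Pool.Agent.SHX

open Finset Pool.Agent.SB3 Pool.Agent.SBT Pool.Agent.SBD Pool.Agent.SHD

/-- power times a power of the logarithm -/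
noncomputable def lf (p : ℝ) (E L : ℕ) : ℝ := (L : ℝ) ^ p * (Real.log (L + 1) + 1) ^ E

open Classical in
/-- SYSF: the exact system with its good classes, for the tilt `1 / lf p E L` -/
def StSysF (m : ℕ) (p : ℝ) (E : ℕ) : Prop := ∃ c : ℝ, 1 ≤ c ∧ ∀ (n : ℕ) (K : ℝ), 0 < K →
  ∃ C : ℝ, 1 ≤ C ∧ ∀ (L N R : ℕ) (u : (Fin (m + 1) → ℕ) → Pt m L → ℝ), C ≤ (L : ℝ) →
    (R : ℝ) ≤ K * Real.log (L + 1) + 1 → ArF N R u →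
    ∃ (ka : Finset (Fin (m + 1)) → (Fin (m + 1) → ℕ) → Pt m L → ℝ)
      (Z : (Fin (m + 1) → ℕ) → Pt m L → ℝ) (G : (Fin (m + 1) → ℕ) → Pt m L → Prop),
      ExB c ((lf p E L)⁻¹) u ka Z ∧ Bay G (fun e => ka {e}) Z ∧
      ∀ h : Fin (m + 1) → ℕ, (∀ a, h a ≤ L) →
        Av (fun ω => if Gl G h ω ∧ ¬ G h ω then Z h ω else 0) ≤ C / (L + 1) ^ n

/-- LAWF: as LAWX -/
def StLawF (m : ℕ) (p : ℝ) (E : ℕ) : Prop := ∀ (n : ℕ) (K : ℝ), 0 < K → ∃ C : ℝ, 1 ≤ C ∧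
  ∀ (L N R : ℕ) (u : (Fin (m + 1) → ℕ) → Pt m L → ℝ), C ≤ (L : ℝ) →
    (R : ℝ) ≤ K * Real.log (L + 1) + 1 → ArF N R u →
    ∃ ρ : Pt m L → ℝ, (∀ ω, 0 ≤ ρ ω) ∧ Av ρ = 1 ∧
      ∀ q ∈ All m L, dst (∑ a, q a) N ≤ R → ∀ w : Pt m L → ℝ, Ms q w → (∀ ω, |w ω| ≤ 1) →
        (∀ ω, w ω * u q ω = |w ω|) →
        Av (fun ω => |w ω|) ≤ C * lf p E L * (Ex ρ (fun ω => ps Finset.univ q ω * w ω) +
          C / (L + 1) ^ n)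

/-- BANDF: as BANDX -/
def StBandF (m : ℕ) (p : ℝ) (E : ℕ) : Prop := ∀ K : ℝ, 0 < K → ∃ C : ℝ, 0 < C ∧
  ∀ (L N R : ℕ) (v : (Fin (m + 1) → ℕ) → Pt m L → ℝ), 1 ≤ L →
    (R : ℝ) ≤ K * Real.log (L + 1) + 1 → ArF N R v → (∀ ω, |HH v ω| ≤ 2) →
    ∑ q ∈ All m L, Av (fun ω => |v q ω|) ≤ C * lf p E L

/-- ENDF: as ENDL -/
def StEndF (m : ℕ) (p : ℝ) (E : ℕ) : Prop := ∃ C : ℝ, 0 < C ∧
  ∀ (L N : ℕ) (v : (Fin (m + 1) → ℕ) → Pt m L → ℝ), 1 ≤ L → ArK N v → (∀ ω, |HH v ω| ≤ 1) →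
    ∑ q ∈ All m L, Av (fun ω => |v q ω|) ≤ C * lf p E L

/-- GRIDF: as GRIDL -/
def StGridF (m : ℕ) (p : ℝ) (E : ℕ) : Prop := ∃ C : ℝ, 0 < C ∧
    ∀ (M0 : ℕ) (c : (Fin (m + 1) → ℤ) → ℂ) (M : ℝ), 1 ≤ M0 →
    (∀ u, |FmD (m + 1) M0 c u| ≤ M) →
    ∑ l ∈ Finset.Nat.antidiagonalTuple (m + 1) M0, S1 (PT (N := 2 ^ (2 * M0 + 3)) (blkD l) c) ≤
      C * lf p E (2 * M0) * M * (2 ^ (2 * M0 + 3)) ^ (m + 1)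

/-- FINF: the theorem on the torus, factor `n ^ p (log (n + 1)) ^ E`, `n = 2 M0` -/
def StFinF (m : ℕ) (p : ℝ) (E : ℕ) : Prop := ∃ C : ℝ, 0 < C ∧
    ∀ (M0 : ℕ) (c : (Fin (m + 1) → ℤ) → ℂ), 1 ≤ M0 →
    C * ∑ l ∈ Finset.Nat.antidiagonalTuple (m + 1) M0, nrmD (bpD c l) ≤
      ((2 * M0 : ℕ) : ℝ) ^ p * Real.log (((2 * M0 : ℕ) : ℝ) + 1) ^ E *
        ⨆ x : Fin (m + 1) → ℝ, ‖∑ l ∈ Finset.Nat.antidiagonalTuple (m + 1) M0, bpD c l x‖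

end Pool.Agent.SHX
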