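import Pool.Agent.Lib.MP_a7b2aa_an.SHX.LawX30
import Pool.Agent.Lib.MP_a7b2aa_an.SHX.StmtsEndF30

/-!
SHX, module LAWF (helper30): as LAWX, with the factor `L ^ p (log (L + 1) + 1) ^ E`.
-/

set_option autoImplicit false

namespace Pool.Agent.SHX

open Finset Pool.Agent.SB3 Pool.Agent.SBT Pool.Agent.SBD Pool.Agent.SHD

theorem log_one_le (L : ℕ) : 1 ≤ Real.log ((L : ℝ) + 1) + 1 := by
  have : 0 ≤ Real.log ((L : ℝ) + 1) := Real.log_nonneg (by
    have : (0 : ℝ) ≤ L := Nat.cast_nonneg L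
    linarith)
  linarith

theorem rpow_le_lf {p : ℝ} {E L : ℕ} (hL : 1 ≤ L) : (L : ℝ) ^ p ≤ lf p E L := by
  unfold lf
  have hL1 : (1 : ℝ) ≤ L := by exact_mod_cast hL
  exact le_mul_of_one_le_right (by positivity) (one_le_pow₀ (log_one_le L))

theorem lf_one {p : ℝ} {E L : ℕ} (hp : 0 ≤ p) (hL : 1 ≤ L) : 1 ≤ lf p E L :=
  le_trans (Real.one_le_rpow (by exact_mod_cast hL) hp) (rpow_le_lf hL)

open LawX30

/-- module LAWF -/
theorem lawf_30 (m : ℕ) (p : ℝ) (E : ℕ) (hp : 0 < p) (hM : StMinBad) (hS : StSysF m p E) :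
    StLawF m p E := by
  classical
  obtain ⟨c, hc, hS⟩ := hS
  obtain ⟨CN, hCN, hN⟩ := nearx_30 m c hc
  obtain ⟨CL, hCL, hLw⟩ := lawc_30 hM m
  intro n K hK
  obtain ⟨C1, hC1, hS⟩ := hS (n + (m + 2)) K hK
  have hc0 : 0 ≤ c := by linarith
  have hCN0 : 0 ≤ CN := by linarith
  have hm0 : (0 : ℝ) ≤ m := Nat.cast_nonneg m
  set M : ℝ := (m : ℝ) + 2 with hMd
  have hM1 : 1 ≤ M := by
    rw [hMd]
    linarith
  set A0 : ℝ := 16 * c * CN ^ 2 * M ^ (2 * m + 2) with hA0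
  obtain ⟨C2, hC2, hlarge⟩ := large A0 p K (2 * m + 2) (by positivity) hp hK
  have hCN2 : CN ≤ c * CN ^ 2 := by nlinarith [mul_nonneg hc0 (by positivity : 0 ≤ CN ^ 2)]
  set C3 : ℝ := 2 * CL * C1 with hC3
  have hC30 : 0 ≤ C3 := by positivity
  refine ⟨4 + C1 + C2 + C3, by linarith, ?_⟩
  intro L N R u hL hR hu
  have hL1 : (1 : ℝ) ≤ L := by linarith
  have hLn : 1 ≤ L := by exact_mod_cast hL1
  have hL0 : (0 : ℝ) < L := by linarith
  obtain ⟨ka, Z, G, hE, hB, hbad⟩ := hS L N R u (by linarith) hR hu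
  have hlf0 : 1 ≤ lf p E L := lf_one hp.le hLn
  set FL : ℝ := lf p E L with hFL
  set lam : ℝ := FL⁻¹ with hlam
  have hlam0 : 0 < lam := by positivity
  have hlam1 : lam ≤ 1 := inv_le_one_of_one_le₀ hlf0
  have hLp : lam * FL = 1 := inv_mul_cancel₀ (by positivity)
  have hlamp : lam ≤ (L : ℝ) ^ (-p) := by
    rw [hlam, Real.rpow_neg hL0.le]
    exact inv_anti₀ (by positivity) (rpow_le_lf hLn)
  have hsm : A0 * lam * ((R : ℝ) + 1) ^ (2 * m + 2) ≤ 1 := by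
    refine le_trans ?_ (hlarge L R (by linarith) hR)
    gcongr
  have hR0 : (0 : ℝ) ≤ R := Nat.cast_nonneg R
  have hu' : ArF N (R + m) u := ⟨hu.abs, hu.dep, fun q ω hq => hu.bd q ω (by omega)⟩
  have hRM : ((R + m : ℕ) : ℝ) + 1 ≤ M * ((R : ℝ) + 1) := by
    push_cast
    rw [hMd]
    nlinarith
  have hRM0 : (0 : ℝ) ≤ ((R + m : ℕ) : ℝ) + 1 := by positivity
  have hRM1 : (1 : ℝ) ≤ ((R + m : ℕ) : ℝ) + 1 := by
    have : (0 : ℝ) ≤ ((R + m : ℕ) : ℝ) := Nat.cast_nonneg _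
    linarith
  set P : ℝ := ((R : ℝ) + 1) ^ (2 * m + 2) with hPd
  set PM : ℝ := (((R + m : ℕ) : ℝ) + 1) ^ (2 * m + 2) with hPM
  have hP0 : 0 ≤ P := by positivity
  have hPM0 : 0 ≤ PM := by positivity
  have hpow : PM ≤ M ^ (2 * m + 2) * P := by
    rw [hPM, hPd, ← mul_pow]
    exact pow_le_pow_left₀ hRM0 hRM _
  -- the basic small quantity
  have hS1 : 16 * (c * CN ^ 2 * (lam * PM)) ≤ 1 := by
    refine le_trans ?_ hsm
    calc 16 * (c * CN ^ 2 * (lam * PM)) ≤ 16 * (c * CN ^ 2 * (lam * (M ^ (2 * m + 2) * P))) := by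
          gcongr
      _ = A0 * lam * P := by
          rw [hA0]
          ring
  have hS2 : 16 * (CN * (lam * PM)) ≤ 1 := by
    refine le_trans ?_ hS1
    have : 0 ≤ lam * PM := by positivity
    have := mul_le_mul_of_nonneg_right hCN2 this
    linarith
  have hnear := hN L N (R + m) lam u ka Z hlam0.le hu' hE (by
    have : 0 ≤ CN * (lam * PM) := by positivity
    rw [← hPM]
    nlinarith)
  obtain ⟨ρ, hρ0, hρ1, hρ⟩ := hLw L N R lam (C1 / ((L : ℝ) + 1) ^ (n + (m + 2))) u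
    (fun e => ka {e}) Z G hLn hlam0 (by positivity) hB (by
      intro h ω hs
      obtain ⟨-, z1, z2, -⟩ := hnear h ω (by omega)
      exact ⟨z1, z2⟩) (by
      intro q ω hqL hqs
      obtain ⟨z0, z1, z2, z3⟩ := hnear q ω (by omega)
      set x : ℝ := CN * lam * (((R + m : ℕ) : ℝ) + 1) ^ m with hx
      have hx0 : 0 ≤ x := by positivity
      have e1 : (((R + m : ℕ) : ℝ) + 1) ^ m ≤ PM := pow_le_pow_right₀ hRM1 (by omega)
      have e2 : ((((R + m : ℕ) : ℝ) + 1) ^ m) ^ 2 ≤ PM := by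
        rw [← pow_mul]
        exact pow_le_pow_right₀ hRM1 (by omega)
      have e3 : (((R + m : ℕ) : ℝ) + 1) ^ (m + 1) ≤ PM := pow_le_pow_right₀ hRM1 (by omega)
      have hx1 : x ≤ 1 / 2 := by
        have : x ≤ CN * (lam * PM) := by
          rw [hx, mul_assoc]
          gcongr
        linarith
      have h3 := hE.coef q ω x hqL (by linarith) hx1 z3
      rw [hE.top, abs_of_nonneg (by linarith : 0 ≤ Z q ω)] at h3
      set T := EE q (fun ω' => ps univ q ω' * Z (fun a => q a + 1) ω') ω with hT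
      have hu1 : |lam * u q ω| ≤ lam := by
        rw [abs_mul, abs_of_nonneg hlam0.le]
        exact mul_le_of_le_one_right hlam0.le (hu.abs q ω)
      have h4 : |(Z q ω - 1) * (lam * u q ω)| ≤ CN * lam * PM * lam := by
        rw [abs_mul]
        refine mul_le_mul (z0.trans ?_) hu1 (abs_nonneg _) (by positivity)
        gcongr
      have h5 : c * x ^ 2 * Z q ω ≤ 2 * (c * CN ^ 2 * (lam * PM)) * lam := by
        have h6 : x ^ 2 ≤ CN ^ 2 * lam ^ 2 * PM := by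
          calc x ^ 2 = CN ^ 2 * lam ^ 2 * ((((R + m : ℕ) : ℝ) + 1) ^ m) ^ 2 := by
                rw [hx]
                ring
            _ ≤ CN ^ 2 * lam ^ 2 * PM := by gcongr
        calc c * x ^ 2 * Z q ω ≤ c * (CN ^ 2 * lam ^ 2 * PM) * 2 := by gcongr
          _ = 2 * (c * CN ^ 2 * (lam * PM)) * lam := by ring
      have h6 : T - lam * u q ω = (T - Z q ω * (lam * u q ω)) + (Z q ω - 1) * (lam * u q ω) := by
        ring
      rw [h6]
      refine (abs_add_le _ _).trans ?_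
      have h7 : CN * lam * PM * lam = CN * (lam * PM) * lam := by ring
      rw [h7] at h4
      have h8 : CN * (lam * PM) * lam ≤ 1 / 16 * lam :=
        mul_le_mul_of_nonneg_right (by linarith) hlam0.le
      have h9 : 2 * (c * CN ^ 2 * (lam * PM)) * lam ≤ 1 / 8 * lam :=
        mul_le_mul_of_nonneg_right (by linarith) hlam0.le
      linarith) hbad
  refine ⟨ρ, hρ0, hρ1, ?_⟩
  intro q hqA hqR w hw hw1 hwu
  have h1 := hρ q hqA hqR w hw hw1 hwu
  have hD1 : ((L : ℝ) + 1) ^ (m + 2) * (C1 / ((L : ℝ) + 1) ^ (n + (m + 2))) =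
      C1 / ((L : ℝ) + 1) ^ n := by
    have hpos : ((L : ℝ) + 1) ^ (m + 2) ≠ 0 := by positivity
    have hpa : ((L : ℝ) + 1) ^ (n + (m + 2)) = ((L : ℝ) + 1) ^ n * ((L : ℝ) + 1) ^ (m + 2) :=
      pow_add _ _ _
    rw [hpa, ← div_div, mul_comm, div_mul_cancel₀ _ hpos]
  rw [hD1] at h1
  set E1 : ℝ := Ex ρ (fun ω => ps Finset.univ q ω * w ω) with hE1
  have h2 : CL * (1 + lam) * (C1 / ((L : ℝ) + 1) ^ n) ≤ C3 / ((L : ℝ) + 1) ^ n := by
    rw [hC3, mul_div_assoc']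
    refine div_le_div_of_nonneg_right ?_ (by positivity)
    have : 0 ≤ CL * C1 := by positivity
    nlinarith
  have h3 : lam * Av (fun ω => |w ω|) ≤ 4 * E1 + C3 / ((L : ℝ) + 1) ^ n := by linarith
  have hnn : 0 ≤ Av (fun ω => |w ω|) := SBD.Av_nonneg fun ω => abs_nonneg _
  have hC3n : 0 ≤ C3 / ((L : ℝ) + 1) ^ n := by positivity
  have h4 : 0 ≤ 4 * E1 + C3 / ((L : ℝ) + 1) ^ n := le_trans (by positivity) h3
  have h5 : Av (fun ω => |w ω|) ≤ FL * (4 * E1 + C3 / ((L : ℝ) + 1) ^ n) := by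
    have h6 : Av (fun ω => |w ω|) = FL * (lam * Av (fun ω => |w ω|)) := by
      rw [← mul_assoc, mul_comm (FL), hLp, one_mul]
    rw [h6]
    exact mul_le_mul_of_nonneg_left h3 (by positivity)
  have h8 : C3 / ((L : ℝ) + 1) ^ n ≤ 4 * (C3 / ((L : ℝ) + 1) ^ n) := by linarith
  have h9 : C3 / ((L : ℝ) + 1) ^ n ≤ (4 + C1 + C2 + C3) / ((L : ℝ) + 1) ^ n := by
    refine div_le_div_of_nonneg_right ?_ (by positivity)
    linarith
  have h10 : 0 ≤ E1 + (4 + C1 + C2 + C3) / ((L : ℝ) + 1) ^ n := by linarith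
  calc Av (fun ω => |w ω|) ≤ FL * (4 * E1 + C3 / ((L : ℝ) + 1) ^ n) := h5
    _ ≤ FL * (4 * (E1 + (4 + C1 + C2 + C3) / ((L : ℝ) + 1) ^ n)) := by
        refine mul_le_mul_of_nonneg_left ?_ (by positivity)
        linarith
    _ = 4 * FL * (E1 + (4 + C1 + C2 + C3) / ((L : ℝ) + 1) ^ n) := by ring
    _ ≤ (4 + C1 + C2 + C3) * FL * (E1 + (4 + C1 + C2 + C3) / ((L : ℝ) + 1) ^ n) := by
        refine mul_le_mul_of_nonneg_right ?_ h10
        refine mul_le_mul_of_nonneg_right ?_ (by positivity)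
        linarith

end Pool.Agent.SHX
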