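import Pool.Agent.Lib.MP_a7b2aa_an.SHX.NearX30
import Pool.Agent.Lib.MP_a7b2aa_an.SBD.EEB36

/-!
SHX, module LAWC (helper30): from densities, biases and good classes to the law for the cells in
the band.
-/

set_option autoImplicit false

namespace Pool.Agent.SHX

open Finset Pool.Agent.SB3 Pool.Agent.SBT Pool.Agent.SBD Pool.Agent.SHD

namespace LawX30

/-- powers of logarithms are small -/
theorem large (A p K : ℝ) (k : ℕ) (hA : 0 ≤ A) (hp : 0 < p) (hK : 0 < K) :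
    ∃ C : ℝ, 1 ≤ C ∧ ∀ L R : ℕ, C ≤ (L : ℝ) → (R : ℝ) ≤ K * Real.log (L + 1) + 1 →
      A * (L : ℝ) ^ (-p) * ((R : ℝ) + 1) ^ k ≤ 1 := by
  set t : ℝ := p / (2 * (k + 1)) with ht
  have hk1 : (0 : ℝ) < 2 * (k + 1) := by positivity
  have ht0 : 0 < t := by positivity
  have htk : t * k ≤ p / 2 := by
    have h1 : t * (2 * (k + 1)) = p := by
      rw [ht]
      field_simp
    nlinarith
  set B : ℝ := K * (2 ^ t / t) + 2 with hB
  have hB0 : 0 ≤ B := by positivity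
  set M : ℝ := A * B ^ k + 1 with hM
  have hM1 : 1 ≤ M := by
    have : 0 ≤ A * B ^ k := by positivity
    linarith
  refine ⟨M ^ (2 / p), Real.one_le_rpow hM1 (by positivity), ?_⟩
  intro L R hL hR
  have hL1 : (1 : ℝ) ≤ L := le_trans (Real.one_le_rpow hM1 (by positivity)) hL
  have hL0 : (0 : ℝ) < L := by linarith
  have hLt : 1 ≤ (L : ℝ) ^ t := Real.one_le_rpow hL1 ht0.le
  have h1 : Real.log ((L : ℝ) + 1) ≤ 2 ^ t / t * (L : ℝ) ^ t := by
    have h2 := Real.log_le_rpow_div (by linarith : (0 : ℝ) ≤ (L : ℝ) + 1) ht0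
    refine h2.trans ?_
    have h3 : ((L : ℝ) + 1) ^ t ≤ (2 * (L : ℝ)) ^ t :=
      Real.rpow_le_rpow (by linarith) (by linarith) ht0.le
    rw [Real.mul_rpow (by norm_num) hL0.le] at h3
    rw [div_mul_eq_mul_div]
    exact div_le_div_of_nonneg_right h3 ht0.le
  have h2 : (R : ℝ) + 1 ≤ B * (L : ℝ) ^ t := by
    calc (R : ℝ) + 1 ≤ K * (2 ^ t / t * (L : ℝ) ^ t) + 2 := by
          have := mul_le_mul_of_nonneg_left h1 hK.le
          linarith
      _ ≤ K * (2 ^ t / t * (L : ℝ) ^ t) + 2 * (L : ℝ) ^ t := by linarith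
      _ = B * (L : ℝ) ^ t := by
          rw [hB]
          ring
  have h3 : ((R : ℝ) + 1) ^ k ≤ B ^ k * (L : ℝ) ^ (p / 2) := by
    have hR0 : (0 : ℝ) ≤ (R : ℝ) + 1 := by positivity
    calc ((R : ℝ) + 1) ^ k ≤ (B * (L : ℝ) ^ t) ^ k := pow_le_pow_left₀ hR0 h2 k
      _ = B ^ k * (L : ℝ) ^ (t * k) := by
          rw [mul_pow, Real.rpow_mul hL0.le, Real.rpow_natCast]
      _ ≤ B ^ k * (L : ℝ) ^ (p / 2) := by
          gcongr
  have h4 : (L : ℝ) ^ (-p) * (L : ℝ) ^ (p / 2) = ((L : ℝ) ^ (p / 2))⁻¹ := by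
    rw [← Real.rpow_add hL0, ← Real.rpow_neg hL0.le]
    congr 1
    ring
  have h5 : M ≤ (L : ℝ) ^ (p / 2) := by
    have h6 : (M ^ (2 / p)) ^ (p / 2) = M := by
      rw [← Real.rpow_mul (by linarith)]
      have : 2 / p * (p / 2) = 1 := by field_simp
      rw [this, Real.rpow_one]
    rw [← h6]
    exact Real.rpow_le_rpow (by positivity) hL (by positivity)
  calc A * (L : ℝ) ^ (-p) * ((R : ℝ) + 1) ^ k
      ≤ A * (L : ℝ) ^ (-p) * (B ^ k * (L : ℝ) ^ (p / 2)) := by gcongr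
    _ = A * B ^ k * ((L : ℝ) ^ (-p) * (L : ℝ) ^ (p / 2)) := by ring
    _ = A * B ^ k / (L : ℝ) ^ (p / 2) := by
        rw [h4]
        exact (div_eq_mul_inv _ _).symm
    _ ≤ 1 := by
        rw [div_le_one (by positivity)]
        linarith

variable {m L : ℕ} {G : (Fin (m + 1) → ℕ) → Pt m L → Prop}

/-- there is a minimal bad class -/
theorem exists_min {p : Fin (m + 1) → ℕ} {ω : Pt m L} (h : ¬ Gd G p ω) :
    ∃ r, r ≤ p ∧ Gl G r ω ∧ ¬ G r ω := by
  classical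
  have h1 : ∃ r, r ≤ p ∧ ¬ G r ω := by
    unfold Gd at h
    push Not at h
    exact h
  have h2 : ∃ n, ∃ r : Fin (m + 1) → ℕ, r ≤ p ∧ ¬ G r ω ∧ ∑ a, r a = n := by
    obtain ⟨r, h2, h3⟩ := h1
    exact ⟨_, r, h2, h3, rfl⟩
  obtain ⟨r, h3, h4, h5⟩ := Nat.find_spec h2
  refine ⟨r, h3, ?_, h4⟩
  intro q hq hne
  by_contra hcon
  have h6 : ∑ a, q a < ∑ a, r a := by
    obtain ⟨a, ha⟩ : ∃ a, q a ≠ r a := by
      by_contra h7
      push Not at h7
      exact hne (funext h7)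
    exact Finset.sum_lt_sum (fun a _ => hq a) ⟨a, mem_univ a, lt_of_le_of_ne (hq a) ha⟩
  rw [h5] at h6
  exact Nat.find_min h2 h6 ⟨q, hq.trans h3, hcon, rfl⟩

open Classical in
/-- the uniform measure of the bad points is small if the density is not small -/
theorem bad_le {Z : (Fin (m + 1) → ℕ) → Pt m L → ℝ} {p : Fin (m + 1) → ℕ} {δ : ℝ}
    (hp : ∀ a, p a < L) (hδ : 0 ≤ δ) (hZ : ∀ h ω, h ≤ p → 1 / 2 ≤ Z h ω)
    (hb : ∀ h : Fin (m + 1) → ℕ, (∀ a, h a ≤ L) →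
      Av (fun ω => if Gl G h ω ∧ ¬ G h ω then Z h ω else 0) ≤ δ) :
    Av (fun ω => if Gd G p ω then (0 : ℝ) else 1) ≤ 2 * (L : ℝ) ^ (m + 1) * δ := by
  set S : Finset (Fin (m + 1) → ℕ) := Fintype.piFinset (fun a => range (p a + 1)) with hS
  have hmem : ∀ h, h ∈ S ↔ h ≤ p := by
    intro h
    rw [hS, Fintype.mem_piFinset]
    constructor
    · intro h1 a
      exact Nat.lt_succ_iff.1 (mem_range.1 (h1 a))
    · intro h1 a
      exact mem_range.2 (Nat.lt_succ_iff.2 (h1 a))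
  have h1 : Av (fun ω => if Gd G p ω then (0 : ℝ) else 1) ≤
      Av (fun ω => ∑ h ∈ S, 2 * (if Gl G h ω ∧ ¬ G h ω then Z h ω else 0)) := by
    refine SBD.Av_mono fun ω => ?_
    have hnn : ∀ h ∈ S, 0 ≤ 2 * (if Gl G h ω ∧ ¬ G h ω then Z h ω else 0) := by
      intro h hh
      have := hZ h ω ((hmem h).1 hh)
      split_ifs
      · linarith
      · simp
    split_ifs with hg
    · exact sum_nonneg hnn
    · obtain ⟨r, h2, h3, h4⟩ := exists_min hg
      have h5 := single_le_sum hnn ((hmem r).2 h2)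
      rw [if_pos ⟨h3, h4⟩] at h5
      have := hZ r ω h2
      linarith
  refine h1.trans ?_
  rw [SBD.Av_sum]
  have h2 : ∀ h ∈ S, Av (fun ω => 2 * (if Gl G h ω ∧ ¬ G h ω then Z h ω else 0)) ≤ 2 * δ := by
    intro h hh
    rw [SBD.Av_smul]
    have h3 := hb h (fun a => (((hmem h).1 hh) a).trans (hp a).le)
    linarith
  refine (sum_le_sum h2).trans ?_
  rw [sum_const, nsmul_eq_mul]
  have h3 : (S.card : ℝ) ≤ (L : ℝ) ^ (m + 1) := by
    rw [hS, Fintype.card_piFinset]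
    push_cast
    calc ∏ a : Fin (m + 1), ((range (p a + 1)).card : ℝ) ≤ ∏ _a : Fin (m + 1), (L : ℝ) := by
          refine prod_le_prod (fun a _ => Nat.cast_nonneg _) fun a _ => ?_
          rw [card_range]
          exact_mod_cast hp a
      _ = (L : ℝ) ^ (m + 1) := by
          rw [prod_const, card_univ, Fintype.card_fin]
  calc (S.card : ℝ) * (2 * δ) ≤ (L : ℝ) ^ (m + 1) * (2 * δ) := by gcongr
    _ = 2 * (L : ℝ) ^ (m + 1) * δ := by ring

end LawX30

open LawX30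

/-- module LAWC -/
theorem lawc_30 (hM : StMinBad) : StLawC := by
  classical
  intro m
  obtain ⟨CM, hCM, hM⟩ := hM m
  refine ⟨20 * CM + 4, by linarith, ?_⟩
  intro L N R lam δ u be Z G hLn hlam hδ0 hB hZ hW hbad
  have hL1 : (1 : ℝ) ≤ L := by exact_mod_cast hLn
  have hL0 : (0 : ℝ) < L := by linarith
  obtain ⟨hlaw, -, hM3⟩ := hM L G be Z 0 δ hB hδ0 hbad
  refine ⟨Qp G be (fun _ => L) 0, hlaw.nonneg, hlaw.mean, ?_⟩
  intro q hqA hqR w hw hw1 hwu
  have hqL : ∀ a, q a < L := by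
    intro a
    unfold All at hqA
    rw [mem_fr] at hqA
    exact hqA.1 a (mem_univ a)
  have hE1 : Eeb m L := eeb_36 m L
  have hqs : ∑ a, q a ≤ N + R := by
    unfold dst at hqR
    omega
  have hZq : ∀ ω, 1 / 2 ≤ Z q ω ∧ Z q ω ≤ 2 := fun ω => hZ q ω (by omega)
  have hqs1 : ∑ a : Fin (m + 1), (q a + 1) ≤ N + R + (m + 1) := by
    rw [sum_add_distrib]
    simp only [sum_const, card_univ, Fintype.card_fin, smul_eq_mul, mul_one]
    omega
  have hZq1 : ∀ ω, 1 / 2 ≤ Z (fun a => q a + 1) ω ∧ Z (fun a => q a + 1) ω ≤ 2 :=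
    fun ω => hZ _ ω hqs1
  -- the comparison of the law with the system
  set f : Pt m L → ℝ := fun ω => ps Finset.univ q ω * w ω with hf
  have hfms : Ms (fun a => q a + 1) f := by
    intro ω ω' hω
    have h1 : w ω' = w ω := hw.mono (fun a => Or.inl (Nat.le_succ _)) ω ω' hω
    have h2 : ps Finset.univ q ω' = ps Finset.univ q ω := by
      unfold ps
      refine prod_congr rfl fun a _ => ?_
      exact Ms_sb (q := fun a => q a + 1) (by simp) ω ω' hω
    rw [hf]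
    dsimp only
    rw [h1, h2]
  have hf1 : ∀ ω, |f ω| ≤ 1 := by
    intro ω
    rw [hf]
    dsimp only
    rw [abs_mul, ps_abs, one_mul]
    exact hw1 ω
  have hcmp := hM3 q f (Z (fun a => q a + 1)) 1 4 hqL hfms hf1 (by norm_num) (fun ω _ => rfl) (by
    intro ω _
    obtain ⟨z1, z2⟩ := hZq ω
    obtain ⟨z3, z4⟩ := hZq1 ω
    rw [abs_of_nonneg (by linarith)]
    linarith)
  -- the main term
  set g : Pt m L → ℝ := fun ω => if Gd G q ω then 1 else 0 with hg
  have hGd : Ms q (Gd G q) := by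
    intro ω ω' hω
    unfold Gd
    refine propext (forall_congr' fun r => imp_congr_right fun hr => ?_)
    have h1 : G r ω' = G r ω := (hB.msG r).mono (fun a => Or.inl (hr a)) ω ω' hω
    rw [h1]
  have hgms : Ms q g := by
    intro ω ω' hω
    rw [hg]
    dsimp only
    have h1 := hGd ω ω' hω
    simp only [h1]
  have hgwms : Ms q (fun ω => g ω * w ω) := hgms.comp2 hw (fun a b => a * b)
  have hmain : Av (fun ω => if Gd G q ω then Z (fun a => q a + 1) ω * f ω else 0) =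
      Av (fun ω => (g ω * w ω) *
        EE q (fun ω' => ps Finset.univ q ω' * Z (fun a => q a + 1) ω') ω) := by
    have h1 : (fun ω => if Gd G q ω then Z (fun a => q a + 1) ω * f ω else 0) =
        fun ω => (g ω * w ω) * (ps Finset.univ q ω * Z (fun a => q a + 1) ω) := by
      funext ω
      rw [hg, hf]
      dsimp only
      split_ifs
      · ring
      · ring
    rw [h1, hE1.adj]
    congr 1
    funext ω
    rw [hE1.idem q _ hgwms]
  have hlow : Av (fun ω => lam / 2 * (g ω * |w ω|)) ≤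
      Av (fun ω => if Gd G q ω then Z (fun a => q a + 1) ω * f ω else 0) := by
    rw [hmain]
    refine SBD.Av_mono fun ω => ?_
    have h1 := hW q ω hqL hqs
    set T := EE q (fun ω' => ps Finset.univ q ω' * Z (fun a => q a + 1) ω') ω with hT
    have hgw : g ω * w ω * (lam * u q ω) = g ω * |w ω| * lam := by
      rw [← hwu ω]
      ring
    have hg01 : 0 ≤ g ω ∧ g ω ≤ 1 := by
      rw [hg]
      dsimp only
      split_ifs <;> simp
    have h3 : g ω * w ω * T = g ω * |w ω| * lam + g ω * w ω * (T - lam * u q ω) := by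
      rw [← hgw]
      ring
    have h4 : |g ω * w ω * (T - lam * u q ω)| ≤ g ω * |w ω| * (lam / 4) := by
      rw [abs_mul, abs_mul, abs_of_nonneg hg01.1]
      exact mul_le_mul_of_nonneg_left h1 (mul_nonneg hg01.1 (abs_nonneg _))
    have h5 := (abs_le.1 h4).1
    rw [h3]
    have h6 : 0 ≤ g ω * |w ω| := mul_nonneg hg01.1 (abs_nonneg _)
    nlinarith
  -- the bad points
  have hbadp := bad_le (G := G) (Z := Z) (p := q) hqL hδ0 (by
    intro h ω hh
    have h1 : ∑ a, h a ≤ ∑ a, q a := sum_le_sum fun a _ => hh a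
    exact (hZ h ω (by omega)).1) hbad
  have hsplit : Av (fun ω => |w ω|) ≤ Av (fun ω => g ω * |w ω|) +
      Av (fun ω => if Gd G q ω then (0 : ℝ) else 1) := by
    rw [← SBD.Av_add]
    refine SBD.Av_mono fun ω => ?_
    rw [hg]
    dsimp only
    have := hw1 ω
    split_ifs
    · linarith
    · linarith
  rw [SBD.Av_smul] at hlow
  set E1 : ℝ := Ex (Qp G be (fun _ => L) 0) f with hE1'
  set A1 : ℝ := Av (fun ω => g ω * |w ω|) with hA1
  set D1 : ℝ := ((L : ℝ) + 1) ^ (m + 2) * δ with hD1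
  have hD10 : 0 ≤ D1 := by positivity
  have h1 : lam / 2 * A1 ≤ E1 + CM * 5 * D1 := by
    have h2 := (abs_le.1 hcmp).1
    have h3 : CM * ((L : ℝ) + 1) ^ (m + 2) * δ * 1 * (4 + 1) = CM * 5 * D1 := by
      rw [hD1]
      ring
    rw [h3] at h2
    linarith
  have h2 : Av (fun ω => if Gd G q ω then (0 : ℝ) else 1) ≤ 2 * D1 := by
    refine hbadp.trans ?_
    rw [hD1]
    have h3 : (L : ℝ) ^ (m + 1) ≤ ((L : ℝ) + 1) ^ (m + 2) := by
      calc (L : ℝ) ^ (m + 1) ≤ ((L : ℝ) + 1) ^ (m + 1) :=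
            pow_le_pow_left₀ hL0.le (by linarith) _
        _ ≤ ((L : ℝ) + 1) ^ (m + 2) := pow_le_pow_right₀ (by linarith) (by omega)
    calc 2 * (L : ℝ) ^ (m + 1) * δ ≤ 2 * ((L : ℝ) + 1) ^ (m + 2) * δ := by gcongr
      _ = 2 * (((L : ℝ) + 1) ^ (m + 2) * δ) := by ring
  have h3 : lam * Av (fun ω => |w ω|) ≤ 2 * (E1 + CM * 5 * D1) + lam * (2 * D1) := by
    have h4 : lam * Av (fun ω => |w ω|) ≤ lam * (A1 + 2 * D1) :=
      mul_le_mul_of_nonneg_left (hsplit.trans (by linarith)) hlam.le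
    linarith
  have hE10 : 0 ≤ E1 + CM * 5 * D1 := by
    have hA10 : 0 ≤ A1 := SBD.Av_nonneg fun ω => by
      rw [hg]
      dsimp only
      split_ifs <;> simp
    have : 0 ≤ lam / 2 * A1 := by positivity
    linarith
  have h7 : 0 ≤ CM * lam * D1 := by positivity
  have h8 : 0 ≤ lam * D1 := by positivity
  have h9 : (20 * CM + 4) * (1 + lam) * D1 = 20 * (CM * D1) + 4 * D1 + 20 * (CM * lam * D1) +
      4 * (lam * D1) := by ring
  rw [h9]
  linarith

/-- module LAWX -/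
theorem lawx_30 (m : ℕ) (p : ℝ) (hp : 0 < p) (hM : StMinBad) (hS : StSysX m p) : StLawX m p := by
  classical
  obtain ⟨c, hc, hS⟩ := hS
  obtain ⟨CN, hCN, hN⟩ := nearx_30 m c hc
  obtain ⟨CL, hCL, hLw⟩ := lawc_30 hM m
  intro n K hK
  obtain ⟨C1, hC1, hS⟩ := hS (n + (m + 2)) K hK
  have hc0 : 0 ≤ c := by linarith
  have hCN0 : 0 ≤ CN := by linarith
  have hm0 : (0 : ℝ) ≤ m := Nat.cast_nonneg m
  set M : ℝ := (m : ℝ) + 2 with hMd
  have hM1 : 1 ≤ M := by
    rw [hMd]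
    linarith
  set A0 : ℝ := 16 * c * CN ^ 2 * M ^ (2 * m + 2) with hA0
  obtain ⟨C2, hC2, hlarge⟩ := large A0 p K (2 * m + 2) (by positivity) hp hK
  have hCN2 : CN ≤ c * CN ^ 2 := by nlinarith [mul_nonneg hc0 (by positivity : 0 ≤ CN ^ 2)]
  set C3 : ℝ := 2 * CL * C1 with hC3
  have hC30 : 0 ≤ C3 := by positivity
  refine ⟨4 + C1 + C2 + C3, by linarith, ?_⟩
  intro L N R u hL hR hu
  have hL1 : (1 : ℝ) ≤ L := by linarith
  have hLn : 1 ≤ L := by exact_mod_cast hL1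
  have hL0 : (0 : ℝ) < L := by linarith
  obtain ⟨ka, Z, G, hE, hB, hbad⟩ := hS L N R u (by linarith) hR hu
  set lam : ℝ := (L : ℝ) ^ (-p) with hlam
  have hlam0 : 0 < lam := by positivity
  have hlam1 : lam ≤ 1 := Real.rpow_le_one_of_one_le_of_nonpos hL1 (by linarith)
  have hLp : lam * (L : ℝ) ^ p = 1 := by
    rw [hlam, ← Real.rpow_add hL0]
    simp
  have hsm := hlarge L R (by linarith) hR
  rw [← hlam] at hsm
  have hR0 : (0 : ℝ) ≤ R := Nat.cast_nonneg R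
  have hu' : ArF N (R + m) u := ⟨hu.abs, hu.dep, fun q ω hq => hu.bd q ω (by omega)⟩
  have hRM : ((R + m : ℕ) : ℝ) + 1 ≤ M * ((R : ℝ) + 1) := by
    push_cast
    rw [hMd]
    nlinarith
  have hRM0 : (0 : ℝ) ≤ ((R + m : ℕ) : ℝ) + 1 := by positivity
  have hRM1 : (1 : ℝ) ≤ ((R + m : ℕ) : ℝ) + 1 := by
    have : (0 : ℝ) ≤ ((R + m : ℕ) : ℝ) := Nat.cast_nonneg _
    linarith
  set P : ℝ := ((R : ℝ) + 1) ^ (2 * m + 2) with hPd
  set PM : ℝ := (((R + m : ℕ) : ℝ) + 1) ^ (2 * m + 2) with hPM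
  have hP0 : 0 ≤ P := by positivity
  have hPM0 : 0 ≤ PM := by positivity
  have hpow : PM ≤ M ^ (2 * m + 2) * P := by
    rw [hPM, hPd, ← mul_pow]
    exact pow_le_pow_left₀ hRM0 hRM _
  -- the basic small quantity
  have hS1 : 16 * (c * CN ^ 2 * (lam * PM)) ≤ 1 := by
    refine le_trans ?_ hsm
    calc 16 * (c * CN ^ 2 * (lam * PM)) ≤ 16 * (c * CN ^ 2 * (lam * (M ^ (2 * m + 2) * P))) := by
          gcongr
      _ = A0 * lam * P := by
          rw [hA0]
          ring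
  have hS2 : 16 * (CN * (lam * PM)) ≤ 1 := by
    refine le_trans ?_ hS1
    have : 0 ≤ lam * PM := by positivity
    have := mul_le_mul_of_nonneg_right hCN2 this
    linarith
  have hnear := hN L N (R + m) lam u ka Z hlam0.le hu' hE (by
    have : 0 ≤ CN * (lam * PM) := by positivity
    rw [← hPM]
    nlinarith)
  obtain ⟨ρ, hρ0, hρ1, hρ⟩ := hLw L N R lam (C1 / ((L : ℝ) + 1) ^ (n + (m + 2))) u
    (fun e => ka {e}) Z G hLn hlam0 (by positivity) hB (by
      intro h ω hs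
      obtain ⟨-, z1, z2, -⟩ := hnear h ω (by omega)
      exact ⟨z1, z2⟩) (by
      intro q ω hqL hqs
      obtain ⟨z0, z1, z2, z3⟩ := hnear q ω (by omega)
      set x : ℝ := CN * lam * (((R + m : ℕ) : ℝ) + 1) ^ m with hx
      have hx0 : 0 ≤ x := by positivity
      have e1 : (((R + m : ℕ) : ℝ) + 1) ^ m ≤ PM := pow_le_pow_right₀ hRM1 (by omega)
      have e2 : ((((R + m : ℕ) : ℝ) + 1) ^ m) ^ 2 ≤ PM := by
        rw [← pow_mul]
        exact pow_le_pow_right₀ hRM1 (by omega)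
      have e3 : (((R + m : ℕ) : ℝ) + 1) ^ (m + 1) ≤ PM := pow_le_pow_right₀ hRM1 (by omega)
      have hx1 : x ≤ 1 / 2 := by
        have : x ≤ CN * (lam * PM) := by
          rw [hx, mul_assoc]
          gcongr
        linarith
      have h3 := hE.coef q ω x hqL (by linarith) hx1 z3
      rw [hE.top, abs_of_nonneg (by linarith : 0 ≤ Z q ω)] at h3
      set T := EE q (fun ω' => ps univ q ω' * Z (fun a => q a + 1) ω') ω with hT
      have hu1 : |lam * u q ω| ≤ lam := by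
        rw [abs_mul, abs_of_nonneg hlam0.le]
        exact mul_le_of_le_one_right hlam0.le (hu.abs q ω)
      have h4 : |(Z q ω - 1) * (lam * u q ω)| ≤ CN * lam * PM * lam := by
        rw [abs_mul]
        refine mul_le_mul (z0.trans ?_) hu1 (abs_nonneg _) (by positivity)
        gcongr
      have h5 : c * x ^ 2 * Z q ω ≤ 2 * (c * CN ^ 2 * (lam * PM)) * lam := by
        have h6 : x ^ 2 ≤ CN ^ 2 * lam ^ 2 * PM := by
          calc x ^ 2 = CN ^ 2 * lam ^ 2 * ((((R + m : ℕ) : ℝ) + 1) ^ m) ^ 2 := by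
                rw [hx]
                ring
            _ ≤ CN ^ 2 * lam ^ 2 * PM := by gcongr
        calc c * x ^ 2 * Z q ω ≤ c * (CN ^ 2 * lam ^ 2 * PM) * 2 := by gcongr
          _ = 2 * (c * CN ^ 2 * (lam * PM)) * lam := by ring
      have h6 : T - lam * u q ω = (T - Z q ω * (lam * u q ω)) + (Z q ω - 1) * (lam * u q ω) := by
        ring
      rw [h6]
      refine (abs_add_le _ _).trans ?_
      have h7 : CN * lam * PM * lam = CN * (lam * PM) * lam := by ring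
      rw [h7] at h4
      have h8 : CN * (lam * PM) * lam ≤ 1 / 16 * lam :=
        mul_le_mul_of_nonneg_right (by linarith) hlam0.le
      have h9 : 2 * (c * CN ^ 2 * (lam * PM)) * lam ≤ 1 / 8 * lam :=
        mul_le_mul_of_nonneg_right (by linarith) hlam0.le
      linarith) hbad
  refine ⟨ρ, hρ0, hρ1, ?_⟩
  intro q hqA hqR w hw hw1 hwu
  have h1 := hρ q hqA hqR w hw hw1 hwu
  have hD1 : ((L : ℝ) + 1) ^ (m + 2) * (C1 / ((L : ℝ) + 1) ^ (n + (m + 2))) =
      C1 / ((L : ℝ) + 1) ^ n := by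
    have hpos : ((L : ℝ) + 1) ^ (m + 2) ≠ 0 := by positivity
    have hpa : ((L : ℝ) + 1) ^ (n + (m + 2)) = ((L : ℝ) + 1) ^ n * ((L : ℝ) + 1) ^ (m + 2) :=
      pow_add _ _ _
    rw [hpa, ← div_div, mul_comm, div_mul_cancel₀ _ hpos]
  rw [hD1] at h1
  set E1 : ℝ := Ex ρ (fun ω => ps Finset.univ q ω * w ω) with hE1
  have h2 : CL * (1 + lam) * (C1 / ((L : ℝ) + 1) ^ n) ≤ C3 / ((L : ℝ) + 1) ^ n := by
    rw [hC3, mul_div_assoc']
    refine div_le_div_of_nonneg_right ?_ (by positivity)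
    have : 0 ≤ CL * C1 := by positivity
    nlinarith
  have h3 : lam * Av (fun ω => |w ω|) ≤ 4 * E1 + C3 / ((L : ℝ) + 1) ^ n := by linarith
  have hnn : 0 ≤ Av (fun ω => |w ω|) := SBD.Av_nonneg fun ω => abs_nonneg _
  have hC3n : 0 ≤ C3 / ((L : ℝ) + 1) ^ n := by positivity
  have h4 : 0 ≤ 4 * E1 + C3 / ((L : ℝ) + 1) ^ n := le_trans (by positivity) h3
  have h5 : Av (fun ω => |w ω|) ≤ (L : ℝ) ^ p * (4 * E1 + C3 / ((L : ℝ) + 1) ^ n) := by
    have h6 : Av (fun ω => |w ω|) = (L : ℝ) ^ p * (lam * Av (fun ω => |w ω|)) := by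
      rw [← mul_assoc, mul_comm ((L : ℝ) ^ p), hLp, one_mul]
    rw [h6]
    exact mul_le_mul_of_nonneg_left h3 (by positivity)
  have h8 : C3 / ((L : ℝ) + 1) ^ n ≤ 4 * (C3 / ((L : ℝ) + 1) ^ n) := by linarith
  have h9 : C3 / ((L : ℝ) + 1) ^ n ≤ (4 + C1 + C2 + C3) / ((L : ℝ) + 1) ^ n := by
    refine div_le_div_of_nonneg_right ?_ (by positivity)
    linarith
  have h10 : 0 ≤ E1 + (4 + C1 + C2 + C3) / ((L : ℝ) + 1) ^ n := by linarith
  calc Av (fun ω => |w ω|) ≤ (L : ℝ) ^ p * (4 * E1 + C3 / ((L : ℝ) + 1) ^ n) := h5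
    _ ≤ (L : ℝ) ^ p * (4 * (E1 + (4 + C1 + C2 + C3) / ((L : ℝ) + 1) ^ n)) := by
        refine mul_le_mul_of_nonneg_left ?_ (by positivity)
        linarith
    _ = 4 * (L : ℝ) ^ p * (E1 + (4 + C1 + C2 + C3) / ((L : ℝ) + 1) ^ n) := by ring
    _ ≤ (4 + C1 + C2 + C3) * (L : ℝ) ^ p * (E1 + (4 + C1 + C2 + C3) / ((L : ℝ) + 1) ^ n) := by
        refine mul_le_mul_of_nonneg_right ?_ h10
        refine mul_le_mul_of_nonneg_right ?_ (by positivity)
        linarith

end Pool.Agent.SHX
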