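import Pool.Agent.Lib.MP_a7b2aa_an.SHX.Gt21

/-!
# Matrix Freedman, one step (seat 21)

`two_pt`, `step`, `exp_le_trace`, the dilation of a rectangular matrix.
-/

set_option autoImplicit false

open Filter Topology Finset Matrix

namespace Pool.Agent.SHX

namespace Mf21

open Gt21

/-! ### the two point law -/

theorem exp_le_add (x : ℝ) : Real.exp x ≤ x + Real.exp (x ^ 2) := by
  by_cases h1 : |x| ≤ 1
  · have h2 := Real.abs_exp_sub_one_sub_id_le h1
    have h3 := Real.add_one_le_exp (x ^ 2)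
    have h4 := (abs_le.1 h2).2
    linarith
  · by_cases hx : 0 ≤ x
    · rw [abs_of_nonneg hx] at h1
      push Not at h1
      have : Real.exp x ≤ Real.exp (x ^ 2) := by
        rw [Real.exp_le_exp]
        nlinarith
      linarith
    · push Not at hx
      rw [abs_of_neg hx] at h1
      push Not at h1
      have h2 : Real.exp x ≤ 1 := by
        rw [← Real.exp_zero, Real.exp_le_exp]
        exact hx.le
      have h3 := Real.add_one_le_exp (x ^ 2)
      nlinarith

/-- Hoeffding for a two point law -/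
theorem two_pt {α : ℝ} (hα : |α| ≤ 1) (u : ℝ) :
    (1 + α) / 2 * Real.exp ((1 - α) * u - 4 * u ^ 2) +
      (1 - α) / 2 * Real.exp (-(1 + α) * u - 4 * u ^ 2) ≤ 1 := by
  obtain ⟨h1, h2⟩ := abs_le.1 hα
  have b1 : Real.exp ((1 - α) * u) ≤ (1 - α) * u + Real.exp (4 * u ^ 2) := by
    refine (exp_le_add _).trans (add_le_add_right ?_ _)
    rw [Real.exp_le_exp]
    have : (1 - α) ^ 2 ≤ 4 := by nlinarith
    nlinarith [sq_nonneg u, mul_nonneg (sub_nonneg.2 this) (sq_nonneg u)]
  have b2 : Real.exp (-(1 + α) * u) ≤ -(1 + α) * u + Real.exp (4 * u ^ 2) := by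
    refine (exp_le_add _).trans (add_le_add_right ?_ _)
    rw [Real.exp_le_exp]
    have : (1 + α) ^ 2 ≤ 4 := by nlinarith
    nlinarith [sq_nonneg u, mul_nonneg (sub_nonneg.2 this) (sq_nonneg u)]
  have c1 : (1 + α) / 2 * Real.exp ((1 - α) * u) ≤
      (1 + α) / 2 * ((1 - α) * u + Real.exp (4 * u ^ 2)) :=
    mul_le_mul_of_nonneg_left b1 (by linarith)
  have c2 : (1 - α) / 2 * Real.exp (-(1 + α) * u) ≤
      (1 - α) / 2 * (-(1 + α) * u + Real.exp (4 * u ^ 2)) :=
    mul_le_mul_of_nonneg_left b2 (by linarith)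
  have c3 : (1 + α) / 2 * Real.exp ((1 - α) * u) + (1 - α) / 2 * Real.exp (-(1 + α) * u) ≤
      Real.exp (4 * u ^ 2) := by
    refine (add_le_add c1 c2).trans (le_of_eq ?_)
    ring
  have e1 : ∀ x : ℝ, Real.exp (x - 4 * u ^ 2) = Real.exp x * Real.exp (-(4 * u ^ 2)) := by
    intro x
    rw [← Real.exp_add, sub_eq_add_neg]
  rw [e1, e1]
  calc (1 + α) / 2 * (Real.exp ((1 - α) * u) * Real.exp (-(4 * u ^ 2))) +
        (1 - α) / 2 * (Real.exp (-(1 + α) * u) * Real.exp (-(4 * u ^ 2)))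
      = ((1 + α) / 2 * Real.exp ((1 - α) * u) + (1 - α) / 2 * Real.exp (-(1 + α) * u)) *
        Real.exp (-(4 * u ^ 2)) := by ring
    _ ≤ Real.exp (4 * u ^ 2) * Real.exp (-(4 * u ^ 2)) :=
        mul_le_mul_of_nonneg_right c3 (Real.exp_pos _).le
    _ = 1 := by rw [← Real.exp_add]; simp

section spec

variable {n : Type*} [Fintype n] [DecidableEq n]

/-- the spectral theorem -/
theorem spectral (F : Matrix n n ℝ) (hF : Fᵀ = F) : ∃ (U : Matrix n n ℝ) (x : n → ℝ),
    Uᵀ * U = 1 ∧ U * Uᵀ = 1 ∧ F = U * diagonal x * Uᵀ := by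
  have hH : F.IsHermitian := by
    rw [Matrix.IsHermitian, conjTranspose_eq_transpose_of_trivial]
    exact hF
  have h1 := hH.spectral_theorem
  have hU1 : (hH.eigenvectorUnitary : Matrix n n ℝ)ᵀ * (hH.eigenvectorUnitary : Matrix n n ℝ) =
      1 := by
    have := Unitary.coe_star_mul_self hH.eigenvectorUnitary
    rwa [star_eq_conjTranspose, conjTranspose_eq_transpose_of_trivial] at this
  have hU2 : (hH.eigenvectorUnitary : Matrix n n ℝ) * (hH.eigenvectorUnitary : Matrix n n ℝ)ᵀ =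
      1 := mul_eq_one_comm.1 hU1
  refine ⟨hH.eigenvectorUnitary, hH.eigenvalues, hU1, hU2, ?_⟩
  rw [Unitary.conjStarAlgAut_apply, star_eq_conjTranspose,
    conjTranspose_eq_transpose_of_trivial] at h1
  exact h1

theorem exp_diag (y : n → ℝ) :
    NormedSpace.exp (diagonal y) = diagonal (fun i => Real.exp (y i)) := by
  rw [Matrix.exp_diagonal]
  congr 1
  funext i
  rw [Pi.coe_exp, Real.exp_eq_exp_ℝ]

/-- the exponential of a conjugate of a diagonal matrix -/
theorem exp_conj_diag {U : Matrix n n ℝ} (h1 : Uᵀ * U = 1) (h2 : U * Uᵀ = 1) (y : n → ℝ) :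
    NormedSpace.exp (U * diagonal y * Uᵀ) = U * diagonal (fun i => Real.exp (y i)) * Uᵀ := by
  have hU : IsUnit U := ⟨⟨U, Uᵀ, h2, h1⟩, rfl⟩
  have hi : U⁻¹ = Uᵀ := Matrix.inv_eq_right_inv h2
  have := Matrix.exp_conj U (diagonal y) hU
  rw [hi, exp_diag] at this
  exact this

/-- the trace against a function of `F` -/
theorem tr_conj {U : Matrix n n ℝ} (E : Matrix n n ℝ) (w : n → ℝ) :
    (E * (U * diagonal w * Uᵀ)).trace = ∑ i, (Uᵀ * E * U) i i * w i := by
  have h1 : (E * (U * diagonal w * Uᵀ)).trace = (Uᵀ * E * U * diagonal w).trace := by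
    rw [← Matrix.mul_assoc, ← Matrix.mul_assoc, Matrix.trace_mul_comm]
    congr 1
    simp only [Matrix.mul_assoc]
  rw [h1, trace]
  refine Finset.sum_congr rfl fun i _ => ?_
  rw [diag_apply, mul_diagonal]

/-- the diagonal entries are nonnegative -/
theorem conj_nonneg (U A : Matrix n n ℝ) (hA : Aᵀ = A) (i : n) :
    0 ≤ (Uᵀ * NormedSpace.exp A * U) i i := by
  set E := NormedSpace.exp ((1 / 2 : ℝ) • A) with hE
  have hEs : Eᵀ = E := by
    rw [hE, ← Matrix.exp_transpose, transpose_smul, hA]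
  have h2 : NormedSpace.exp A = E * E := by
    have h3 : A = (1 / 2 : ℝ) • A + (1 / 2 : ℝ) • A := by
      rw [← add_smul]
      norm_num
    conv_lhs => rw [h3]
    exact Matrix.exp_add_of_commute _ _ (Commute.refl _)
  have h3 : Uᵀ * NormedSpace.exp A * U = (E * U)ᵀ * (E * U) := by
    rw [h2, transpose_mul, hEs]
    simp only [Matrix.mul_assoc]
  rw [h3, mul_apply]
  refine Finset.sum_nonneg fun j _ => ?_
  rw [transpose_apply]
  exact mul_self_nonneg _

/-- **one step** -/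
theorem step {α : ℝ} (hα : |α| ≤ 1) (A F : Matrix n n ℝ) (hA : Aᵀ = A) (hF : Fᵀ = F) :
    (1 + α) / 2 * (NormedSpace.exp (A + ((1 - α) • F - (4 : ℝ) • (F * F)))).trace +
      (1 - α) / 2 * (NormedSpace.exp (A + ((-(1 + α)) • F - (4 : ℝ) • (F * F)))).trace ≤
      (NormedSpace.exp A).trace := by
  obtain ⟨h1, h2⟩ := abs_le.1 hα
  obtain ⟨U, x, hU1, hU2, hFx⟩ := spectral F hF
  have hFF : F * F = U * diagonal (fun i => x i ^ 2) * Uᵀ := by
    calc F * F = (U * diagonal x * Uᵀ) * (U * diagonal x * Uᵀ) := by rw [← hFx]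
      _ = U * diagonal x * (Uᵀ * U) * diagonal x * Uᵀ := by simp only [Matrix.mul_assoc]
      _ = U * (diagonal x * diagonal x) * Uᵀ := by
          rw [hU1, Matrix.mul_one]
          simp only [Matrix.mul_assoc]
      _ = _ := by
          rw [diagonal_mul_diagonal]
          congr 3
          funext i
          ring
  have hG : ∀ s : ℝ, s • F - (4 : ℝ) • (F * F) =
      U * diagonal (fun i => s * x i - 4 * x i ^ 2) * Uᵀ := by
    intro s
    rw [hFF]
    nth_rewrite 1 [hFx]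
    have e : diagonal (fun i => s * x i - 4 * x i ^ 2) =
        s • diagonal x - (4 : ℝ) • diagonal (fun i => x i ^ 2) := by
      rw [← diagonal_smul, ← diagonal_smul, diagonal_sub]
      rfl
    rw [e, Matrix.mul_sub, Matrix.sub_mul, Matrix.mul_smul, Matrix.smul_mul, Matrix.mul_smul,
      Matrix.smul_mul]
  have hGs : ∀ s : ℝ, (s • F - (4 : ℝ) • (F * F))ᵀ = s • F - (4 : ℝ) • (F * F) := by
    intro s
    rw [transpose_sub, transpose_smul, transpose_smul, transpose_mul, hF]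
  have hGT : ∀ s : ℝ, (NormedSpace.exp (A + (s • F - (4 : ℝ) • (F * F)))).trace ≤
      ∑ i, (Uᵀ * NormedSpace.exp A * U) i i * Real.exp (s * x i - 4 * x i ^ 2) := by
    intro s
    refine (golden_thompson A _ hA (hGs s)).trans (le_of_eq ?_)
    rw [hG s, exp_conj_diag hU1 hU2, tr_conj]
  have htr : (NormedSpace.exp A).trace = ∑ i, (Uᵀ * NormedSpace.exp A * U) i i := by
    have : (Uᵀ * NormedSpace.exp A * U).trace = (NormedSpace.exp A).trace := by
      rw [Matrix.trace_mul_comm, ← Matrix.mul_assoc, hU2, Matrix.one_mul]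
    rw [← this, trace]
    rfl
  calc _ ≤ (1 + α) / 2 * ∑ i, (Uᵀ * NormedSpace.exp A * U) i i *
          Real.exp ((1 - α) * x i - 4 * x i ^ 2) +
        (1 - α) / 2 * ∑ i, (Uᵀ * NormedSpace.exp A * U) i i *
          Real.exp (-(1 + α) * x i - 4 * x i ^ 2) :=
        add_le_add (mul_le_mul_of_nonneg_left (hGT _) (by linarith))
          (mul_le_mul_of_nonneg_left (hGT _) (by linarith))
    _ = ∑ i, (Uᵀ * NormedSpace.exp A * U) i i *
          ((1 + α) / 2 * Real.exp ((1 - α) * x i - 4 * x i ^ 2) +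
          (1 - α) / 2 * Real.exp (-(1 + α) * x i - 4 * x i ^ 2)) := by
        rw [Finset.mul_sum, Finset.mul_sum, ← Finset.sum_add_distrib]
        refine Finset.sum_congr rfl fun i _ => ?_
        ring
    _ ≤ ∑ i, (Uᵀ * NormedSpace.exp A * U) i i * 1 :=
        Finset.sum_le_sum fun i _ =>
          mul_le_mul_of_nonneg_left (two_pt hα (x i)) (conj_nonneg U A hA i)
    _ = _ := by rw [htr]; simp

/-- the trace of the exponential is at least the exponential of a value of the form -/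
theorem exp_le_trace (M : Matrix n n ℝ) (hM : Mᵀ = M) (x : n → ℝ) (hx : x ⬝ᵥ x = 1) :
    Real.exp (x ⬝ᵥ (M *ᵥ x)) ≤ (NormedSpace.exp M).trace := by
  obtain ⟨U, lam, hU1, hU2, hMx⟩ := spectral M hM
  set y : n → ℝ := Uᵀ *ᵥ x with hy
  have hyy : y ⬝ᵥ y = 1 := by
    rw [hy, dotProduct_mulVec, vecMul_transpose, mulVec_mulVec, hU2, one_mulVec, hx]
  have hq : x ⬝ᵥ (M *ᵥ x) = ∑ i, lam i * y i ^ 2 := by
    have e1 : x ⬝ᵥ (M *ᵥ x) = y ⬝ᵥ (diagonal lam *ᵥ y) := by
      rw [hMx, ← mulVec_mulVec, ← mulVec_mulVec, dotProduct_mulVec, ← mulVec_transpose, ← hy]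
    rw [e1, dotProduct]
    refine Finset.sum_congr rfl fun i _ => ?_
    rw [mulVec_diagonal]
    ring
  have htr : (NormedSpace.exp M).trace = ∑ i, Real.exp (lam i) := by
    rw [hMx, exp_conj_diag hU1 hU2, Matrix.trace_mul_comm, ← Matrix.mul_assoc, hU1,
      Matrix.one_mul, trace]
    refine Finset.sum_congr rfl fun i _ => ?_
    rw [diag_apply, diagonal_apply_eq]
  have hy1 : ∑ i, y i ^ 2 = 1 := by
    rw [← hyy, dotProduct]
    exact Finset.sum_congr rfl fun i _ => by ring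
  obtain ⟨i, hi⟩ : ∃ i, x ⬝ᵥ (M *ᵥ x) ≤ lam i := by
    by_contra hcon
    push Not at hcon
    have hne : ∃ i, 0 < y i ^ 2 := by
      by_contra h
      push Not at h
      have : ∑ i, y i ^ 2 ≤ 0 := Finset.sum_nonpos fun i _ => h i
      linarith
    obtain ⟨i0, hi0⟩ := hne
    have h3 : ∑ i, lam i * y i ^ 2 < ∑ i, (x ⬝ᵥ (M *ᵥ x)) * y i ^ 2 := by
      apply Finset.sum_lt_sum
      · intro i _
        exact mul_le_mul_of_nonneg_right (hcon i).le (sq_nonneg _)
      · exact ⟨i0, Finset.mem_univ _, mul_lt_mul_of_pos_right (hcon i0) hi0⟩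
    rw [← Finset.mul_sum, hy1, mul_one, ← hq] at h3
    exact lt_irrefl _ h3
  rw [htr]
  calc Real.exp (x ⬝ᵥ (M *ᵥ x)) ≤ Real.exp (lam i) := Real.exp_le_exp.2 hi
    _ ≤ ∑ i, Real.exp (lam i) :=
        Finset.single_le_sum (f := fun i => Real.exp (lam i)) (fun i _ => (Real.exp_pos _).le)
          (Finset.mem_univ i)

end spec

/-! ### dilation -/

section dil

variable {I J : Type*} [Fintype I] [DecidableEq I] [Fintype J] [DecidableEq J]

/-- the dilation -/
def dil (F : Matrix I J ℝ) : Matrix (I ⊕ J) (I ⊕ J) ℝ := fromBlocks 0 F Fᵀ 0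

omit [Fintype I] [DecidableEq I] [Fintype J] [DecidableEq J] in
theorem dil_symm (F : Matrix I J ℝ) : (dil F)ᵀ = dil F := by
  unfold dil
  rw [fromBlocks_transpose, transpose_zero, transpose_zero, transpose_transpose]

omit [DecidableEq I] [DecidableEq J] in
/-- the form of the dilation -/
theorem dil_form (F : Matrix I J ℝ) (x : I → ℝ) (y : J → ℝ) :
    Sum.elim x y ⬝ᵥ (dil F *ᵥ Sum.elim x y) = 2 * (x ⬝ᵥ (F *ᵥ y)) := by
  unfold dil
  rw [fromBlocks_mulVec, sumElim_dotProduct_sumElim]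
  simp only [zero_mulVec, zero_add, add_zero, Sum.elim_comp_inl, Sum.elim_comp_inr]
  rw [mulVec_transpose, dotProduct_comm y, ← dotProduct_mulVec]
  ring

omit [DecidableEq I] [DecidableEq J] in
/-- the form of the square of the dilation -/
theorem dil_sq_form (F : Matrix I J ℝ) (x : I → ℝ) (y : J → ℝ) :
    Sum.elim x y ⬝ᵥ ((dil F * dil F) *ᵥ Sum.elim x y) =
      (Fᵀ *ᵥ x) ⬝ᵥ (Fᵀ *ᵥ x) + (F *ᵥ y) ⬝ᵥ (F *ᵥ y) := by
  rw [← mulVec_mulVec, dotProduct_mulVec]
  have h1 : Sum.elim x y ᵥ* dil F = dil F *ᵥ Sum.elim x y := by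
    rw [← mulVec_transpose, dil_symm]
  rw [h1]
  unfold dil
  rw [fromBlocks_mulVec, sumElim_dotProduct_sumElim]
  simp only [zero_mulVec, zero_add, add_zero, Sum.elim_comp_inl, Sum.elim_comp_inr]
  ring

end dil

end Mf21

end Pool.Agent.SHX
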