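import Pool.Agent.Lib.MP_a7b2aa_an.SHX.StmtsX65

/-!
SHX, track ALL, module PHI (helper77): basic facts on the functionals `Ph`.
-/

set_option autoImplicit false

namespace Pool.Agent.SHXA

open Finset Pool.Agent.SB3 Pool.Agent.SBT Pool.Agent.SBD Pool.Agent.SHD Pool.Agent.SHX
open Pool.Agent.Lib.MP_a7b2aa_an.SHX

namespace Phi77

theorem mem_bx {m : ℕ} {H : Fin (m + 1) → ℕ} {Q : Finset (Fin (m + 1))} {c l : Fin (m + 1) → ℕ} :
    l ∈ bx H Q c ↔ (∀ a ∈ Q, l a ≤ H a) ∧ ∀ a, a ∉ Q → l a = c a := by
  unfold bx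
  rw [Fintype.mem_piFinset]
  constructor
  · intro h
    refine ⟨fun a ha => ?_, fun a ha => ?_⟩
    · have := h a
      rw [if_pos ha, mem_range] at this
      omega
    · have := h a
      rw [if_neg ha, mem_singleton] at this
      exact this
  · rintro ⟨h1, h2⟩ a
    by_cases ha : a ∈ Q
    · rw [if_pos ha, mem_range]
      have := h1 a ha
      omega
    · rw [if_neg ha, mem_singleton]
      exact h2 a ha

theorem bx_empty {m : ℕ} (H : Fin (m + 1) → ℕ) (c : Fin (m + 1) → ℕ) : bx H ∅ c = {c} := by
  ext l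
  rw [mem_bx, mem_singleton]
  constructor
  · rintro ⟨-, h⟩
    funext a
    exact h a (notMem_empty a)
  · rintro rfl
    exact ⟨fun a ha => absurd ha (notMem_empty a), fun a _ => rfl⟩

theorem fib {m : ℕ} (H : Fin (m + 1) → ℕ) (Q : Finset (Fin (m + 1))) (j : Fin (m + 1))
    (c : Fin (m + 1) → ℕ) (hj : j ∉ Q) (t : ℕ) (ht : t ≤ H j) :
    (bx H (insert j Q) c).filter (fun l => l j = t) = bx H Q (Function.update c j t) := by
  ext l
  rw [mem_filter, mem_bx, mem_bx]
  constructor
  · rintro ⟨⟨h1, h2⟩, h3⟩
    refine ⟨fun a ha => h1 a (mem_insert_of_mem ha), fun a ha => ?_⟩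
    by_cases haj : a = j
    · subst haj
      rw [Function.update_self]
      exact h3
    · rw [Function.update_of_ne haj]
      exact h2 a (by rw [mem_insert]; push Not; exact ⟨haj, ha⟩)
  · rintro ⟨h1, h2⟩
    have h3 : l j = t := by
      have := h2 j hj
      rwa [Function.update_self] at this
    refine ⟨⟨fun a ha => ?_, fun a ha => ?_⟩, h3⟩
    · rcases mem_insert.1 ha with h | h
      · subst h
        omega
      · exact h1 a h
    · rw [mem_insert] at ha
      push Not at ha
      have := h2 a ha.2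
      rwa [Function.update_of_ne ha.1] at this

theorem sum_ins {m : ℕ} (H : Fin (m + 1) → ℕ) (Q : Finset (Fin (m + 1))) (j : Fin (m + 1))
    (c : Fin (m + 1) → ℕ) (hj : j ∉ Q) (f : (Fin (m + 1) → ℕ) → ℝ) :
    ∑ l ∈ bx H (insert j Q) c, f l =
      ∑ t ∈ range (H j + 1), ∑ l ∈ bx H Q (Function.update c j t), f l := by
  rw [← sum_fiberwise_of_maps_to (s := bx H (insert j Q) c) (t := range (H j + 1))
    (g := fun l => l j)]
  · refine sum_congr rfl fun t ht => ?_
    rw [mem_range] at ht
    rw [fib H Q j c hj t (by omega)]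
  · intro l hl
    rw [mem_bx] at hl
    rw [mem_range]
    have := hl.1 j (mem_insert_self j Q)
    omega

theorem sum_shift {m : ℕ} (H : Fin (m + 1) → ℕ) (Q : Finset (Fin (m + 1))) (j : Fin (m + 1))
    (c : Fin (m + 1) → ℕ) (hj : j ∉ Q) (t : ℕ) (f : (Fin (m + 1) → ℕ) → ℝ) :
    ∑ l ∈ bx H Q (Function.update c j t), f l = ∑ l ∈ bx H Q c, f (Function.update l j t) := by
  refine sum_bij' (fun l _ => Function.update l j (c j)) (fun l _ => Function.update l j t)
    ?_ ?_ ?_ ?_ ?_
  · intro l hl
    rw [mem_bx] at hl ⊢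
    refine ⟨fun a ha => ?_, fun a ha => ?_⟩
    · have haj : a ≠ j := fun h => hj (h ▸ ha)
      rw [Function.update_of_ne haj]
      exact hl.1 a ha
    · by_cases haj : a = j
      · subst haj
        rw [Function.update_self]
      · have := hl.2 a ha
        rw [Function.update_of_ne haj] at this ⊢
        exact this
  · intro l hl
    rw [mem_bx] at hl ⊢
    refine ⟨fun a ha => ?_, fun a ha => ?_⟩
    · have haj : a ≠ j := fun h => hj (h ▸ ha)
      rw [Function.update_of_ne haj]
      exact hl.1 a ha
    · by_cases haj : a = j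
      · subst haj
        rw [Function.update_self, Function.update_self]
      · have := hl.2 a ha
        rw [Function.update_of_ne haj, Function.update_of_ne haj]
        exact this
  · intro l hl
    rw [mem_bx] at hl
    have := hl.2 j hj
    rw [Function.update_self] at this
    simp only [Function.update_idem]
    rw [← this, Function.update_eq_self]
  · intro l hl
    rw [mem_bx] at hl
    have := hl.2 j hj
    simp only [Function.update_idem]
    rw [← this, Function.update_eq_self]
  · intro l hl
    rw [mem_bx] at hl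
    have := hl.2 j hj
    rw [Function.update_self] at this
    simp only [Function.update_idem]
    rw [← this, Function.update_eq_self]

theorem prod_upd {m : ℕ} (H d : Fin (m + 1) → ℕ) (w : Fin (m + 1) → Finset ℕ)
    (Q : Finset (Fin (m + 1))) (j : Fin (m + 1)) (hj : j ∉ Q) (l : Fin (m + 1) → ℕ) (t : ℕ) :
    ∏ i ∈ Q, wt (H i) (d i) (w i) (Function.update l j t i) = ∏ i ∈ Q, wt (H i) (d i) (w i) (l i) := by
  refine prod_congr rfl fun i hi => ?_
  have hij : i ≠ j := fun h => hj (h ▸ hi)
  rw [Function.update_of_ne hij]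

theorem bx_val {m : ℕ} {H : Fin (m + 1) → ℕ} {Q : Finset (Fin (m + 1))} {c l : Fin (m + 1) → ℕ}
    (hl : l ∈ bx H Q c) (a : Fin (m + 1)) (ha : a ∉ Q) : l a = c a := (mem_bx.1 hl).2 a ha

theorem dep_eq {m : ℕ} {C : Finset (Fin (m + 1))} {F : (Fin (m + 1) → ℕ) → ℝ} (hF : Dep C F)
    {x y : Fin (m + 1) → ℕ} (h : ∀ a ∈ C, x a = y a) : F x = F y := by
  have key : ∀ S : Finset (Fin (m + 1)), Disjoint S C →
      F (fun a => if a ∈ S then x a else y a) = F y := by
    intro S
    induction S using Finset.induction_on with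
    | empty =>
      intro _
      simp
    | insert j S hj ih =>
      intro hd
      rw [disjoint_insert_left] at hd
      have e : (fun a => if a ∈ insert j S then x a else y a) =
          Function.update (fun a => if a ∈ S then x a else y a) j (x j) := by
        funext a
        by_cases haj : a = j
        · subst haj
          rw [Function.update_self, if_pos (mem_insert_self _ _)]
        · rw [Function.update_of_ne haj]
          simp only [mem_insert, haj, false_or]
      rw [e, hF _ _ _ hd.1]
      exact ih hd.2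
  rw [← key Cᶜ disjoint_compl_left]
  congr 1
  funext a
  by_cases ha : a ∈ C
  · rw [if_neg (by rw [mem_compl]; exact fun hh => hh ha)]
    exact h a ha
  · rw [if_pos (by rw [mem_compl]; exact ha)]

theorem ins {m : ℕ} (H d : Fin (m + 1) → ℕ) (w : Fin (m + 1) → Finset ℕ)
    (Q : Finset (Fin (m + 1))) (j : Fin (m + 1)) (F : (Fin (m + 1) → ℕ) → ℝ)
    (c : Fin (m + 1) → ℕ) (hj : j ∉ Q) :
    Ph H d w (insert j Q) F c =
      Fu (H j) (d j) (w j) (fun l => Ph H d w Q F (Function.update c j l)) := by
  unfold Ph Fu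
  rw [sum_ins H Q j c hj]
  refine sum_congr rfl fun t _ => ?_
  rw [mul_sum]
  refine sum_congr rfl fun l hl => ?_
  rw [prod_insert hj]
  have : l j = t := by
    have := bx_val hl j hj
    rwa [Function.update_self] at this
  rw [this, mul_assoc]

theorem ins' {m : ℕ} (H d : Fin (m + 1) → ℕ) (w : Fin (m + 1) → Finset ℕ)
    (Q : Finset (Fin (m + 1))) (j : Fin (m + 1)) (F : (Fin (m + 1) → ℕ) → ℝ)
    (c : Fin (m + 1) → ℕ) (hj : j ∉ Q) :
    Ph H d w (insert j Q) F c =
      Ph H d w Q (fun c' => Fu (H j) (d j) (w j) (fun l => F (Function.update c' j l))) c := by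
  rw [ins H d w Q j F c hj]
  unfold Ph Fu
  have e : ∀ t ∈ range (H j + 1), wt (H j) (d j) (w j) t *
      ∑ l ∈ bx H Q (Function.update c j t), (∏ i ∈ Q, wt (H i) (d i) (w i) (l i)) * F l =
      ∑ l ∈ bx H Q c, (∏ i ∈ Q, wt (H i) (d i) (w i) (l i)) *
        (wt (H j) (d j) (w j) t * F (Function.update l j t)) := by
    intro t _
    rw [sum_shift H Q j c hj t, mul_sum]
    refine sum_congr rfl fun l _ => ?_
    rw [prod_upd H d w Q j hj]
    ring
  rw [sum_congr rfl e, sum_comm]
  refine sum_congr rfl fun l _ => ?_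
  rw [mul_sum]

theorem off {m : ℕ} (H d : Fin (m + 1) → ℕ) (w : Fin (m + 1) → Finset ℕ)
    (Q : Finset (Fin (m + 1))) (j : Fin (m + 1)) (t : ℕ) (F : (Fin (m + 1) → ℕ) → ℝ)
    (c : Fin (m + 1) → ℕ) (hj : j ∈ Q) :
    Ph H d w Q F (Function.update c j t) = Ph H d w Q F c := by
  have e : bx H Q (Function.update c j t) = bx H Q c := by
    ext l
    rw [mem_bx, mem_bx]
    refine and_congr_right fun _ => forall_congr' fun a => ?_
    constructor
    · intro h ha
      have haj : a ≠ j := fun h' => ha (h' ▸ hj)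
      have := h ha
      rwa [Function.update_of_ne haj] at this
    · intro h ha
      have haj : a ≠ j := fun h' => ha (h' ▸ hj)
      rw [Function.update_of_ne haj]
      exact h ha
  unfold Ph
  rw [e]

theorem unionE {m : ℕ} (H d : Fin (m + 1) → ℕ) (w : Fin (m + 1) → Finset ℕ)
    (Q' : Finset (Fin (m + 1))) (F : (Fin (m + 1) → ℕ) → ℝ) (Q : Finset (Fin (m + 1))) :
    ∀ c : Fin (m + 1) → ℕ, Disjoint Q Q' →
    Ph H d w (Q ∪ Q') F c = Ph H d w Q (Ph H d w Q' F) c := by
  induction Q using Finset.induction_on with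
  | empty =>
    intro c _
    rw [empty_union]
    conv_rhs => unfold Ph
    rw [bx_empty, sum_singleton, prod_empty, one_mul]
    rfl
  | insert j Q hj ih =>
    intro c hd
    rw [disjoint_insert_left] at hd
    rw [insert_union, ins H d w (Q ∪ Q') j F c (by
      rw [mem_union]; push Not; exact ⟨hj, hd.1⟩), ins H d w Q j _ c hj]
    congr 1
    funext l
    exact ih _ hd.2

end Phi77

open Phi77 in
/-- PHI -/
theorem phi_77 : StPhi := by
  intro m
  refine ⟨?_, ?_, ?_, ?_, ?_, ?_, ?_, ?_, ?_, ?_, ?_, ?_⟩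
  · intro H d w F c
    unfold Ph
    rw [bx_empty, sum_singleton, prod_empty, one_mul]
  · intro H d w Q j F c hj
    exact ins H d w Q j F c hj
  · intro H d w Q j F c hj
    exact ins' H d w Q j F c hj
  · intro H d w Q Q' F c hd
    exact unionE H d w Q' F Q c hd
  · intro H d w Q j t F c hj
    exact off H d w Q j t F c hj
  · intro H d w Q C F hF c j t hj
    by_cases hjQ : j ∈ Q
    · exact off H d w Q j t F c hjQ
    · have hjC : j ∉ C := fun h => hj (mem_sdiff.2 ⟨h, hjQ⟩)
      unfold Ph
      rw [sum_shift H Q j c hjQ t]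
      refine sum_congr rfl fun l _ => ?_
      rw [prod_upd H d w Q j hjQ, hF _ _ _ hjC]
  · intro H H' d d' w w' Q F c h
    have e : bx H Q c = bx H' Q c := by
      ext l
      rw [mem_bx, mem_bx]
      refine and_congr_left fun _ => forall_congr' fun a => forall_congr' fun ha => ?_
      rw [(h a ha).1]
    unfold Ph
    rw [e]
    refine sum_congr rfl fun l _ => ?_
    congr 1
    refine prod_congr rfl fun j hj => ?_
    rw [(h j hj).1, (h j hj).2.1, (h j hj).2.2]
  · intro H d w Q F G c h
    unfold Ph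
    exact sum_congr rfl fun l hl => by rw [h l hl]
  · intro H d w Q F G c
    unfold Ph
    rw [← sum_add_distrib]
    exact sum_congr rfl fun l _ => by ring
  · intro H d w Q r F c
    unfold Ph
    rw [mul_sum]
    exact sum_congr rfl fun l _ => by ring
  · intro ι s H d w Q F c
    unfold Ph
    rw [sum_comm]
    exact sum_congr rfl fun l _ => by rw [mul_sum]
  · intro H d w Q F G c hG
    unfold Ph
    rw [mul_sum]
    refine sum_congr rfl fun l hl => ?_
    have : G l = G c := dep_eq hG (fun a ha => bx_val hl a (by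
      rw [mem_compl] at ha
      exact ha))
    show _ * (G l * F l) = _
    rw [this]
    ring

end Pool.Agent.SHXA
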