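import Pool.Agent.Lib.MP_a7b2aa_an.SHX.MstS38
import Pool.Agent.Lib.MP_a7b2aa_an.SHX.Walx38
import Pool.Agent.Lib.MP_a7b2aa_an.SHX.Phi77

/-!
SHX, track ALL, module MST (helper38): `tie`, and the assembly.
-/

set_option autoImplicit false

namespace Pool.Agent.SHXA

open Finset Pool.Agent.SB3 Pool.Agent.SBT Pool.Agent.SBD Pool.Agent.SHD Pool.Agent.SHX
open Pool.Agent.Lib.MP_a7b2aa_an.SHX

open M38 in
/-- MST, `tie` -/
theorem msttie_38 (hW : StWalx) (hP' : StPhi) (m K : ℕ) (H : Fin (m + 1) → ℕ)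
    (Q : Finset (Fin (m + 1))) (hH : ∀ j, H j < 2 ^ K) :
    ∃ (I : Finset ((Fin (m + 1) → Finset ℕ) × (Fin (m + 1) → Finset ℕ)))
      (cf : (Fin (m + 1) → Finset ℕ) × (Fin (m + 1) → Finset ℕ) → ℝ),
      ∑ i ∈ I, |cf i| ≤ T0 K ^ Q.card ∧ (∀ i ∈ I, ∀ a, i.1 a ⊆ range K ∧ i.2 a ⊆ range K) ∧
      ∀ G : (Fin (m + 1) → ℕ) → ℝ, (∀ j ∈ Q, ∀ c, c j = 0 → G c = 0) →
        ∀ c : Fin (m + 1) → ℕ, (∀ j ∈ Q, c j ≤ H j) →
        G c = ∑ i ∈ I, cf i * ((∏ j ∈ Q, wal (i.1 j) (c j)) * Ph H tm i.2 Q G c) := by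
  classical
  have hP := hP' m
  have hT : (0 : ℝ) ≤ T0 K := by
    unfold T0
    positivity
  induction Q using Finset.induction_on with
  | empty =>
    refine ⟨{(fun _ => ∅, fun _ => ∅)}, fun _ => 1, by simp, ?_, ?_⟩
    · intro i hi a
      rw [mem_singleton] at hi
      subst hi
      exact ⟨Finset.empty_subset _, Finset.empty_subset _⟩
    · intro G _ c _
      rw [Finset.sum_singleton, hP.empty, Finset.prod_empty, one_mul, one_mul]
  | insert j Q hj ih =>
    obtain ⟨I, cf, hI, hIs, hIe⟩ := ih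
    obtain ⟨cs, hcs, hce⟩ := (hW K (H j) (hH j)).tie
    obtain ⟨J, cg, hJ, hJs, hJe⟩ := push (I ×ˢ ((range K).powerset ×ˢ (range K).powerset))
      (fun x => (Function.update x.1.1 j x.2.1, Function.update x.1.2 j x.2.2))
      (fun x => cf x.1 * cs x.2.1 x.2.2)
    refine ⟨J, cg, hJ.trans ?_, ?_, ?_⟩
    · rw [Finset.sum_product, Finset.card_insert_of_notMem hj, pow_succ]
      have e : ∀ i ∈ I, ∑ y ∈ (range K).powerset ×ˢ (range K).powerset, |cf i * cs y.1 y.2| =
          |cf i| * ∑ S ∈ (range K).powerset, ∑ T ∈ (range K).powerset, |cs S T| := by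
        intro i _
        rw [Finset.sum_product, Finset.mul_sum]
        refine Finset.sum_congr rfl fun S _ => ?_
        rw [Finset.mul_sum]
        exact Finset.sum_congr rfl fun T _ => abs_mul _ _
      simp only
      rw [Finset.sum_congr rfl e, ← Finset.sum_mul]
      exact mul_le_mul hI hcs (Finset.sum_nonneg fun _ _ => Finset.sum_nonneg fun _ _ =>
        abs_nonneg _) (pow_nonneg hT _)
    · intro i hi a
      obtain ⟨x, hx, rfl⟩ := hJs i hi
      rw [Finset.mem_product, Finset.mem_product, Finset.mem_powerset, Finset.mem_powerset] at hx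
      exact ⟨upd_sub (fun a => (hIs x.1 hx.1 a).1) j hx.2.1 a,
        upd_sub (fun a => (hIs x.1 hx.1 a).2) j hx.2.2 a⟩
    · intro G hG c hc
      have hGj := hG j (Finset.mem_insert_self j Q)
      rw [hIe G (fun a ha => hG a (Finset.mem_insert_of_mem ha)) c
        (fun a ha => hc a (Finset.mem_insert_of_mem ha)),
        ← hJe (fun y => (∏ a ∈ insert j Q, wal (y.1 a) (c a)) * Ph H tm y.2 (insert j Q) G c),
        Finset.sum_product]
      refine Finset.sum_congr rfl fun i _ => ?_
      have e1 := hce (fun l => Ph H tm i.2 Q G (Function.update c j l))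
        (Ph_zero H tm i.2 Q G c j hj hGj) (c j) (hc j (Finset.mem_insert_self j Q))
      beta_reduce at e1
      rw [Function.update_eq_self] at e1
      rw [e1, Finset.sum_product, Finset.mul_sum, Finset.mul_sum]
      refine Finset.sum_congr rfl fun S _ => ?_
      rw [Finset.mul_sum, Finset.mul_sum]
      refine Finset.sum_congr rfl fun T _ => ?_
      have e2 := Ph_ins hP H tm i.2 Q G c j hj T
      have e3 : (tm : Fin (m + 1) → ℕ) j = 1 := rfl
      rw [e3] at e2
      rw [e2]
      have e4 : ∏ a ∈ insert j Q, wal (Function.update i.1 j S a) (c a) =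
          wal S (c j) * ∏ a ∈ Q, wal (i.1 a) (c a) := by
        rw [Finset.prod_insert hj, Function.update_self]
        congr 1
        refine Finset.prod_congr rfl fun a ha => ?_
        rw [Function.update_of_ne]
        rintro rfl
        exact hj ha
      simp only
      rw [e4]
      ring

/-- MST -/
theorem mst_38 (hW : StWalx) (hP : StPhi) : StMst := fun m =>
  ⟨fun K H Q hH => msttie_38 hW hP m K H Q hH,
    fun K H d w Q hH hw => mststar_38 hW hP m K H d w Q hH hw⟩

/-- MST, no hypotheses -/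
theorem mstD_38 : StMst := mst_38 walx_38 phi_77

end Pool.Agent.SHXA
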