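import Pool.Agent.Lib.MP_a7b2aa_an.SHX.StmtsX65

/-!
SHX, track ALL, module MST, the field `star` (helper38): products under the functionals, several
strings.
-/

set_option autoImplicit false

namespace Pool.Agent.SHXA

open Finset Pool.Agent.SB3 Pool.Agent.SBT Pool.Agent.SBD Pool.Agent.SHD Pool.Agent.SHX
open Pool.Agent.Lib.MP_a7b2aa_an.SHX

namespace M38

/-- push forward of coefficients -/
theorem push {α β : Type} [DecidableEq β] (s : Finset α) (f : α → β) (a : α → ℝ) :
    ∃ (I : Finset β) (cf : β → ℝ), ∑ y ∈ I, |cf y| ≤ ∑ x ∈ s, |a x| ∧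
      (∀ y ∈ I, ∃ x ∈ s, f x = y) ∧
      ∀ g : β → ℝ, ∑ x ∈ s, a x * g (f x) = ∑ y ∈ I, cf y * g y := by
  classical
  refine ⟨s.image f, fun y => ∑ x ∈ s.filter (fun x => f x = y), a x, ?_, ?_, ?_⟩
  · rw [← Finset.sum_fiberwise_of_maps_to (fun x hx => Finset.mem_image_of_mem f hx)
      (fun x => |a x|)]
    exact Finset.sum_le_sum fun y _ => Finset.abs_sum_le_sum_abs _ _
  · intro y hy
    rw [Finset.mem_image] at hy
    exact hy
  · intro g
    rw [← Finset.sum_fiberwise_of_maps_to (fun x hx => Finset.mem_image_of_mem f hx)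
      (fun x => a x * g (f x))]
    refine Finset.sum_congr rfl fun y _ => ?_
    rw [Finset.sum_mul]
    refine Finset.sum_congr rfl fun x hx => ?_
    rw [(Finset.mem_filter.1 hx).2]

/-- `Fu` is linear -/
theorem Fu_sum {ι : Type} (s : Finset ι) (H d : ℕ) (S : Finset ℕ) (a : ι → ℝ) (F : ι → ℕ → ℝ) :
    Fu H d S (fun l => ∑ i ∈ s, a i * F i l) = ∑ i ∈ s, a i * Fu H d S (F i) := by
  unfold Fu
  have e : ∀ l ∈ range (H + 1), wt H d S l * ∑ i ∈ s, a i * F i l =
      ∑ i ∈ s, a i * (wt H d S l * F i l) := by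
    intro l _
    rw [Finset.mul_sum]
    exact Finset.sum_congr rfl fun i _ => by ring
  rw [Finset.sum_congr rfl e, Finset.sum_comm]
  exact Finset.sum_congr rfl fun i _ => by rw [Finset.mul_sum]

/-- values on the box off `Q` -/
theorem bx_off {m : ℕ} {H : Fin (m + 1) → ℕ} {Q : Finset (Fin (m + 1))}
    {c l : Fin (m + 1) → ℕ} (hl : l ∈ bx H Q c) {j : Fin (m + 1)} (hj : j ∉ Q) : l j = c j := by
  unfold bx at hl
  rw [Fintype.mem_piFinset] at hl
  have := hl j
  rw [if_neg hj, mem_singleton] at this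
  exact this

/-- the functional of a function which vanishes -/
theorem Ph_zero {m : ℕ} (H d : Fin (m + 1) → ℕ) (w : Fin (m + 1) → Finset ℕ)
    (Q : Finset (Fin (m + 1))) (F : (Fin (m + 1) → ℕ) → ℝ) (c : Fin (m + 1) → ℕ)
    (j : Fin (m + 1)) (hj : j ∉ Q) (h : ∀ c, c j = 0 → F c = 0) :
    Ph H d w Q F (Function.update c j 0) = 0 := by
  unfold Ph
  refine Finset.sum_eq_zero fun l hl => ?_
  rw [h l, mul_zero]
  rw [bx_off hl hj, Function.update_self]

/-- new weights on the new string -/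
theorem Ph_ins {m : ℕ} (hP : PhF m) (H d : Fin (m + 1) → ℕ) (w : Fin (m + 1) → Finset ℕ)
    (Q : Finset (Fin (m + 1))) (F : (Fin (m + 1) → ℕ) → ℝ) (c : Fin (m + 1) → ℕ)
    (j : Fin (m + 1)) (hj : j ∉ Q) (S : Finset ℕ) :
    Fu (H j) (d j) S (fun l => Ph H d w Q F (Function.update c j l)) =
      Ph H d (Function.update w j S) (insert j Q) F c := by
  classical
  rw [hP.ins H d (Function.update w j S) Q j F c hj, Function.update_self]
  congr 1
  funext l
  refine hP.cgw H H d d w (Function.update w j S) Q F _ fun i hi => ⟨rfl, rfl, ?_⟩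
  rw [Function.update_of_ne]
  rintro rfl
  exact hj hi

theorem upd_sub {m K : ℕ} {w : Fin (m + 1) → Finset ℕ} (hw : ∀ a, w a ⊆ range K)
    (j : Fin (m + 1)) {S : Finset ℕ} (hS : S ⊆ range K) (a : Fin (m + 1)) :
    Function.update w j S a ⊆ range K := by
  classical
  by_cases h : a = j
  · subst h; rw [Function.update_self]; exact hS
  · rw [Function.update_of_ne h]; exact hw a

end M38

open M38 in
/-- MST, `star` -/
theorem mststar_38 (hW : StWalx) (hP' : StPhi) (m K : ℕ) (H d : Fin (m + 1) → ℕ)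
    (w : Fin (m + 1) → Finset ℕ) (Q : Finset (Fin (m + 1))) (hH : ∀ j, H j < 2 ^ K)
    (hw : ∀ j, w j ⊆ range K) :
    ∃ (I : Finset ((Fin (m + 1) → Finset ℕ) × (Fin (m + 1) → Finset ℕ)))
      (cf : (Fin (m + 1) → Finset ℕ) × (Fin (m + 1) → Finset ℕ) → ℝ),
      ∑ i ∈ I, |cf i| ≤ T0 K ^ Q.card ∧ (∀ i ∈ I, ∀ a, i.1 a ⊆ range K ∧ i.2 a ⊆ range K) ∧
      ∀ F G : (Fin (m + 1) → ℕ) → ℝ, (∀ j ∈ Q, ∀ c, c j = 0 → G c = 0) →
        (∀ j ∈ Q, d j = 1 → ∀ c, c j = 0 → F c = 0) → ∀ c : Fin (m + 1) → ℕ,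
        Ph H d w Q (fun l => F l * G l) c =
          ∑ i ∈ I, cf i * (Ph H d i.1 Q F c * Ph H tm i.2 Q G c) := by
  classical
  have hP := hP' m
  have hT : (0 : ℝ) ≤ T0 K := by
    unfold T0
    positivity
  induction Q using Finset.induction_on with
  | empty =>
    refine ⟨{(w, w)}, fun _ => 1, by simp, ?_, ?_⟩
    · intro i hi a
      rw [mem_singleton] at hi
      subst hi
      exact ⟨hw a, hw a⟩
    · intro F G _ _ c
      rw [Finset.sum_singleton, hP.empty, hP.empty, hP.empty, one_mul]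
  | insert j Q hj ih =>
    obtain ⟨I, cf, hI, hIs, hIe⟩ := ih
    obtain ⟨cs, hcs, hce⟩ := (hW K (H j) (hH j)).star (d j) (w j) (hw j)
    obtain ⟨J, cg, hJ, hJs, hJe⟩ := push (I ×ˢ ((range K).powerset ×ˢ (range K).powerset))
      (fun x => (Function.update x.1.1 j x.2.1, Function.update x.1.2 j x.2.2))
      (fun x => cf x.1 * cs x.2.1 x.2.2)
    refine ⟨J, cg, hJ.trans ?_, ?_, ?_⟩
    · rw [Finset.sum_product, Finset.card_insert_of_notMem hj, pow_succ]
      have e : ∀ i ∈ I, ∑ y ∈ (range K).powerset ×ˢ (range K).powerset, |cf i * cs y.1 y.2| =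
          |cf i| * ∑ S ∈ (range K).powerset, ∑ T ∈ (range K).powerset, |cs S T| := by
        intro i _
        rw [Finset.sum_product, Finset.mul_sum]
        refine Finset.sum_congr rfl fun S _ => ?_
        rw [Finset.mul_sum]
        exact Finset.sum_congr rfl fun T _ => abs_mul _ _
      simp only
      rw [Finset.sum_congr rfl e, ← Finset.sum_mul]
      exact mul_le_mul hI hcs (Finset.sum_nonneg fun _ _ => Finset.sum_nonneg fun _ _ =>
        abs_nonneg _) (pow_nonneg hT _)
    · intro i hi a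
      obtain ⟨x, hx, rfl⟩ := hJs i hi
      rw [Finset.mem_product, Finset.mem_product, Finset.mem_powerset, Finset.mem_powerset] at hx
      exact ⟨upd_sub (fun a => (hIs x.1 hx.1 a).1) j hx.2.1 a,
        upd_sub (fun a => (hIs x.1 hx.1 a).2) j hx.2.2 a⟩
    · intro F G hG hF c
      have hGj := hG j (Finset.mem_insert_self j Q)
      have hFj := hF j (Finset.mem_insert_self j Q)
      rw [hP.ins H d w Q j _ c hj]
      have e1 : (fun l => Ph H d w Q (fun l => F l * G l) (Function.update c j l)) =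
          fun l => ∑ i ∈ I, cf i * ((fun l => Ph H d i.1 Q F (Function.update c j l) *
            Ph H tm i.2 Q G (Function.update c j l)) l) := by
        funext l
        exact hIe F G (fun a ha => hG a (Finset.mem_insert_of_mem ha))
          (fun a ha => hF a (Finset.mem_insert_of_mem ha)) _
      rw [e1, Fu_sum, ← hJe (fun y => Ph H d y.1 (insert j Q) F c * Ph H tm y.2 (insert j Q) G c),
        Finset.sum_product]
      refine Finset.sum_congr rfl fun i _ => ?_
      rw [hce (fun l => Ph H d i.1 Q F (Function.update c j l))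
        (fun l => Ph H tm i.2 Q G (Function.update c j l)) (Ph_zero H tm i.2 Q G c j hj hGj)
        (fun hd => Ph_zero H d i.1 Q F c j hj (hFj hd)), Finset.sum_product, Finset.mul_sum]
      refine Finset.sum_congr rfl fun S _ => ?_
      rw [Finset.mul_sum]
      refine Finset.sum_congr rfl fun T _ => ?_
      rw [Ph_ins hP H d i.1 Q F c j hj S]
      have e2 := Ph_ins hP H tm i.2 Q G c j hj T
      have e3 : (tm : Fin (m + 1) → ℕ) j = 1 := rfl
      rw [e3] at e2
      rw [e2]
      ring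

end Pool.Agent.SHXA
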