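import Pool.Agent.Lib.MP_a7b2aa_an.SHX.PathA23

/-!
# SHX, MINBAD: minimal bad classes (seat 23)
-/

set_option autoImplicit false

namespace Pool.Agent.SHX

open Finset Pool.Agent.SB3 Pool.Agent.SBT Pool.Agent.SBD

namespace P23

section minbad

variable {m L : ℕ} {G : (Fin (m + 1) → ℕ) → Pt m L → Prop}
  {be : Fin (m + 1) → (Fin (m + 1) → ℕ) → Pt m L → ℝ} {Z : (Fin (m + 1) → ℕ) → Pt m L → ℝ}
  {h : Fin (m + 1) → ℕ} {c : Fin (m + 1)}

theorem ze_of {ω : Pt m L} (hG : Gd G h ω) : ze G Z h ω = Z h ω := by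
  unfold ze
  rw [if_pos hG]

theorem ze_off {ω : Pt m L} (hG : ¬ Gd G h ω) : ze G Z h ω = 0 := by
  unfold ze
  rw [if_neg hG]

theorem ze_ms (hB : Bay G be Z) (h : Fin (m + 1) → ℕ) : Ms h (ze G Z h) := by
  intro ω ω' hω
  have h1 := Gd_ms hB.msG h ω ω' hω
  have h2 := hB.msZ h ω ω' hω
  by_cases hG : Gd G h ω
  · have hG' : Gd G h ω' := by rw [h1]; exact hG
    rw [ze_of hG, ze_of hG', h2]
  · have hG' : ¬ Gd G h ω' := by rw [h1]; exact hG
    rw [ze_off hG, ze_off hG']

theorem ze_nonneg (hB : Bay G be Z) (hh : ∀ a, h a ≤ L) (ω : Pt m L) : 0 ≤ ze G Z h ω := by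
  by_cases hG : Gd G h ω
  · rw [ze_of hG]
    exact (pathlaw_23 m L G be Z h 0 hB hh).2.2.2.2 ω (Gd_iff.1 hG).1
  · rw [ze_off hG]

theorem upc_self : upc h c c = h c + 1 := by
  unfold upc
  rw [Function.update_self]

theorem upc_ne {a : Fin (m + 1)} (ha : a ≠ c) : upc h c a = h a := by
  unfold upc
  rw [Function.update_of_ne ha]

theorem upc_le (hh : ∀ a, h a ≤ L) (hc : h c < L) (a : Fin (m + 1)) : upc h c a ≤ L := by
  by_cases ha : a = c
  · subst ha
    rw [upc_self]
    exact hc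
  · rw [upc_ne ha]
    exact hh a

theorem le_upc : h ≤ upc h c := by
  intro a
  by_cases ha : a = c
  · subst ha
    rw [upc_self]
    exact Nat.le_succ _
  · rw [upc_ne ha]

theorem EE_sb_cls (E : Eeb m L) (hh : ∀ a, h a ≤ L) (hc : h c < L) (ω : Pt m L) :
    EE h (sb c (h c)) ω = 0 := by
  have h1 := E.comp h (one L c (h c)) (sb c (h c)) ω
  have h2 : EE (one L c (h c)) (sb (L := L) c (h c)) = fun _ => 0 := by
    funext ω
    exact EE_sb E hc ω
  have h3 : (fun a => min (h a) (one L c (h c) a)) = h := by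
    funext a
    by_cases ha : a = c
    · subst ha
      rw [one_s]
      exact min_self _
    · rw [one, Function.update_of_ne ha]
      exact min_eq_left (hh a)
  rw [h3, h2, E.const] at h1
  exact h1.symm

/-- the factor of one step -/
noncomputable def fac (G : (Fin (m + 1) → ℕ) → Pt m L → Prop)
    (be : Fin (m + 1) → (Fin (m + 1) → ℕ) → Pt m L → ℝ) (c : Fin (m + 1))
    (h : Fin (m + 1) → ℕ) (ω : Pt m L) : ℝ := 1 + sb c (h c) ω * bh G be c h ω

theorem fac_ge (hB : Bay G be Z) (hh : ∀ a, h a ≤ L) (hc : h c < L) (ω : Pt m L) :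
    1 / 2 ≤ fac G be c h ω := by
  have h1 : |sb c (h c) ω * bh G be c h ω| ≤ 1 / 2 := by
    rw [abs_mul, sb_abs, one_mul]
    exact bh_abs hB hh hc ω
  have := (abs_le.1 h1).1
  unfold fac
  linarith

theorem fac_le (hB : Bay G be Z) (hh : ∀ a, h a ≤ L) (hc : h c < L) (ω : Pt m L) :
    fac G be c h ω ≤ 2 := by
  have h1 : |sb c (h c) ω * bh G be c h ω| ≤ 1 / 2 := by
    rw [abs_mul, sb_abs, one_mul]
    exact bh_abs hB hh hc ω
  have := (abs_le.1 h1).2
  unfold fac
  linarith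

theorem EE_fac (E : Eeb m L) (hB : Bay G be Z) (hh : ∀ a, h a ≤ L) (hc : h c < L)
    (ω : Pt m L) : EE h (fun ω' => ze G Z h ω' * fac G be c h ω') ω = ze G Z h ω := by
  rw [E.pull _ _ _ (ze_ms hB h)]
  have h1 : fac G be c h = fun ω => 1 + bh G be c h ω * sb c (h c) ω := by
    funext ω
    unfold fac
    ring
  rw [h1, E.add, E.const, E.pull _ _ _ (bh_ms hB c h), EE_sb_cls E hh hc, mul_zero, add_zero,
    mul_one]

theorem Z_upc (hB : Bay G be Z) (hh : ∀ a, h a ≤ L) (hc : h c < L) {ω : Pt m L}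
    (hG : Gd G h ω) : Z (upc h c) ω = Z h ω * fac G be c h ω := by
  rw [hB.step c h ω hh hc hG]
  unfold fac bh
  rw [if_pos hG]

theorem ze_upc_le (hB : Bay G be Z) (hh : ∀ a, h a ≤ L) (hc : h c < L) (ω : Pt m L) :
    ze G Z (upc h c) ω ≤ ze G Z h ω * fac G be c h ω := by
  by_cases hG : Gd G (upc h c) ω
  · have hG' : Gd G h ω := Gd_mono le_upc hG
    rw [ze_of hG, ze_of hG', Z_upc hB hh hc hG']
  · rw [ze_off hG]
    exact mul_nonneg (ze_nonneg hB hh ω) (by have := fac_ge hB hh hc ω; linarith)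

/-- supermartingale, one step -/
theorem super_one (E : Eeb m L) (hB : Bay G be Z) (hh : ∀ a, h a ≤ L) (hc : h c < L)
    (ω : Pt m L) : EE h (ze G Z (upc h c)) ω ≤ ze G Z h ω := by
  refine (E.mono _ _ _ (ze_upc_le hB hh hc) ω).trans ?_
  rw [EE_fac E hB hh hc]

theorem min_cls {r : Fin (m + 1) → ℕ} (hr : r ≤ h) : (fun a => min (r a) (h a)) = r := by
  funext a
  exact min_eq_left (hr a)

/-- a smaller class: one digit less somewhere -/
theorem exists_pred {r : Fin (m + 1) → ℕ} (hr : r ≤ h) (hne : r ≠ h) :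
    ∃ (h' : Fin (m + 1) → ℕ) (c : Fin (m + 1)), r ≤ h' ∧ h' ≤ h ∧ h = upc h' c ∧ h' c + 1 = h c ∧
      ∑ a, h' a + 1 = ∑ a, h a := by
  obtain ⟨c, hc⟩ : ∃ c, r c < h c := by
    by_contra hcon
    push Not at hcon
    exact hne (le_antisymm hr hcon)
  have e1 : h c - 1 + 1 = h c := by omega
  have e2 : upc (Function.update h c (h c - 1)) c = h := by
    unfold upc
    rw [Function.update_self, Function.update_idem, e1, Function.update_eq_self]
  refine ⟨Function.update h c (h c - 1), c, ?_, ?_, e2.symm, ?_, ?_⟩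
  · intro a
    by_cases ha : a = c
    · subst ha
      rw [Function.update_self]
      exact Nat.le_sub_one_of_lt hc
    · rw [Function.update_of_ne ha]
      exact hr a
  · intro a
    by_cases ha : a = c
    · subst ha
      rw [Function.update_self]
      exact Nat.sub_le _ _
    · rw [Function.update_of_ne ha]
  · rw [Function.update_self]
    exact e1
  · rw [Finset.sum_update_of_mem (mem_univ c), ← Finset.add_sum_erase _ _ (mem_univ c)]
    rw [Finset.sdiff_singleton_eq_erase]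
    omega

/-- supermartingale -/
theorem super_all (E : Eeb m L) (hB : Bay G be Z) : ∀ (n : ℕ) (h r : Fin (m + 1) → ℕ),
    ∑ a, h a ≤ ∑ a, r a + n → (∀ a, h a ≤ L) → r ≤ h → ∀ ω : Pt m L,
    EE r (ze G Z h) ω ≤ ze G Z r ω := by
  intro n
  induction n with
  | zero =>
    intro h r hn hh hr ω
    have : r = h := by
      by_contra hne
      obtain ⟨h', c, h1, h2, h3, h4, h5⟩ := exists_pred hr hne
      have := Finset.sum_le_sum (s := univ) (fun a _ => h1 a)
      omega
    subst this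
    rw [E.idem _ _ (ze_ms hB r)]
  | succ n ih =>
    intro h r hn hh hr ω
    by_cases hne : r = h
    · subst hne
      rw [E.idem _ _ (ze_ms hB r)]
    · obtain ⟨h', c, h1, h2, h3, h4, h5⟩ := exists_pred hr hne
      have hh' : ∀ a, h' a ≤ L := fun a => (h2 a).trans (hh a)
      have hc' : h' c < L := by
        have := hh c
        omega
      have e1 := E.comp r h' (ze G Z h) ω
      rw [min_cls h1] at e1
      rw [← e1]
      refine (E.mono r _ (ze G Z h') (fun ω => ?_) ω).trans (ih h' r (by omega) hh' h1 ω)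
      rw [h3]
      exact super_one E hB hh' hc' ω

theorem super (E : Eeb m L) (hB : Bay G be Z) {r : Fin (m + 1) → ℕ} (hh : ∀ a, h a ≤ L)
    (hr : r ≤ h) (ω : Pt m L) : EE r (ze G Z h) ω ≤ ze G Z r ω :=
  super_all E hB (∑ a, h a) h r (by omega) hh hr ω

theorem exists_succ {r : Fin (m + 1) → ℕ} (hr : r ≤ h) (hne : r ≠ h) :
    ∃ c : Fin (m + 1), r c < h c ∧ upc r c ≤ h ∧ ∑ a, upc r c a = ∑ a, r a + 1 := by
  obtain ⟨c, hc⟩ : ∃ c, r c < h c := by
    by_contra hcon
    push Not at hcon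
    exact hne (le_antisymm hr hcon)
  refine ⟨c, hc, ?_, ?_⟩
  · intro a
    by_cases ha : a = c
    · subst ha
      rw [upc_self]
      exact hc
    · rw [upc_ne ha]
      exact hr a
  · unfold upc
    rw [Finset.sum_update_of_mem (mem_univ c), ← Finset.add_sum_erase (a := c) univ r (mem_univ c),
      Finset.sdiff_singleton_eq_erase]
    omega

/-- the density of a smaller class -/
theorem Z_le_pow (hB : Bay G be Z) (hh : ∀ a, h a ≤ L) {ω : Pt m L} (hG : Gl G h ω) :
    ∀ (n : ℕ) (r : Fin (m + 1) → ℕ), r ≤ h → ∑ a, h a = ∑ a, r a + n →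
      Z r ω ≤ 2 ^ n * Z h ω := by
  intro n
  induction n with
  | zero =>
    intro r hr hn
    have : r = h := by
      by_contra hne
      obtain ⟨c, hc, h1, h2⟩ := exists_succ hr hne
      have := Finset.sum_le_sum (s := univ) (fun a _ => h1 a)
      omega
    rw [this, pow_zero, one_mul]
  | succ n ih =>
    intro r hr hn
    have hne : r ≠ h := by
      rintro rfl
      omega
    obtain ⟨c, hc, h1, h2⟩ := exists_succ hr hne
    have hG' : Gd G r ω := Gl_Gd hr hne hG
    have hr' : ∀ a, r a ≤ L := fun a => (hr a).trans (hh a)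
    have hcL : r c < L := lt_of_lt_of_le hc (hh c)
    have h3 := ih (upc r c) h1 (by omega)
    rw [Z_upc hB hr' hcL hG'] at h3
    have h4 := fac_ge hB hr' hcL (c := c) ω
    have h5 : 0 ≤ Z r ω := by
      have := ze_nonneg hB hr' (Z := Z) ω
      rwa [ze_of hG'] at this
    have h6 : Z r ω * (1 / 2) ≤ Z r ω * fac G be c r ω := mul_le_mul_of_nonneg_left h4 h5
    rw [pow_succ]
    linarith

theorem exists_minbad {p : Fin (m + 1) → ℕ} {ω : Pt m L} (hp : ¬ Gd G p ω) :
    ∃ r, r ≤ p ∧ Gl G r ω ∧ ¬ G r ω := by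
  by_contra hcon
  push Not at hcon
  have key : ∀ n : ℕ, ∀ r : Fin (m + 1) → ℕ, ∑ a, r a ≤ n → r ≤ p → G r ω := by
    intro n
    induction n with
    | zero =>
      intro r hr hrp
      refine hcon r hrp fun q hq hne => ?_
      exfalso
      obtain ⟨c, hc, h1, h2⟩ := exists_succ hq hne
      have := Finset.sum_le_sum (s := univ) (fun a _ => h1 a)
      omega
    | succ n ih =>
      intro r hr hrp
      refine hcon r hrp fun q hq hne => ?_
      obtain ⟨c, hc, h1, h2⟩ := exists_succ hq hne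
      have := Finset.sum_le_sum (s := univ) (fun a _ => h1 a)
      exact ih q (by omega) (hq.trans hrp)
  exact hp fun r hr => key _ r le_rfl hr

open Classical in
/-- indicator of the event that `h` is a minimal bad class -/
noncomputable def bd (G : (Fin (m + 1) → ℕ) → Pt m L → Prop) (h : Fin (m + 1) → ℕ)
    (ω : Pt m L) : ℝ := if Gl G h ω ∧ ¬ G h ω then 1 else 0

theorem bd_nonneg (h : Fin (m + 1) → ℕ) (ω : Pt m L) : 0 ≤ bd G h ω := by
  unfold bd
  split_ifs <;> norm_num

theorem Gl_ms (hG : ∀ h, Ms h (G h)) (h : Fin (m + 1) → ℕ) : Ms h (Gl G h) := by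
  intro ω ω' hω
  refine propext ?_
  constructor
  · intro h1 r hr hne
    have h2 := ((hG r).mono (r := h) (fun a => Or.inl (hr a))) ω ω' hω
    rw [← h2]
    exact h1 r hr hne
  · intro h1 r hr hne
    have h2 := ((hG r).mono (r := h) (fun a => Or.inl (hr a))) ω ω' hω
    rw [h2]
    exact h1 r hr hne

theorem bd_ms (hG : ∀ h, Ms h (G h)) (h : Fin (m + 1) → ℕ) : Ms h (bd G h) := by
  intro ω ω' hω
  have h1 := Gl_ms hG h ω ω' hω
  have h2 := hG h ω ω' hω
  unfold bd
  by_cases hP : Gl G h ω ∧ ¬ G h ω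
  · have hP' : Gl G h ω' ∧ ¬ G h ω' := by rw [h1, h2]; exact hP
    rw [if_pos hP, if_pos hP']
  · have hP' : ¬ (Gl G h ω' ∧ ¬ G h ω') := by rw [h1, h2]; exact hP
    rw [if_neg hP, if_neg hP']

/-- one minimal bad class costs at most `2 ^ (m + 1) δ` -/
theorem one_bad (E : Eeb m L) (hB : Bay G be Z) {δ : ℝ} {p : Fin (m + 1) → ℕ}
    (hp : ∀ a, p a ≤ L) (hh : ∀ a, h a ≤ L) (hph : ∀ a, h a ≤ p a + 1) (hδ0 : 0 ≤ δ)
    (hδ : Av (fun ω => bd G h ω * Z h ω) ≤ δ) :
    Av (fun ω => ze G Z p ω * bd G h ω) ≤ 2 ^ (m + 1) * δ := by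
  set r : Fin (m + 1) → ℕ := fun a => min (h a) (p a) with hr
  have hrh : r ≤ h := fun a => min_le_left _ _
  have hrp : r ≤ p := fun a => min_le_right _ _
  -- condition on the class `h`
  have h1 : Av (fun ω => ze G Z p ω * bd G h ω) ≤ Av (fun ω => ze G Z r ω * bd G h ω) := by
    rw [← E.mean h]
    refine Av_mono fun ω => ?_
    have e1 : (fun ω => ze G Z p ω * bd G h ω) = fun ω => bd G h ω * ze G Z p ω := by
      funext ω
      ring
    rw [e1, E.pull _ _ _ (bd_ms hB.msG h), mul_comm (ze G Z r ω)]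
    refine mul_le_mul_of_nonneg_left ?_ (bd_nonneg h ω)
    have e2 := E.comp h p (ze G Z p) ω
    have e3 : EE p (ze G Z p) = ze G Z p := by
      funext ω
      exact E.idem _ _ (ze_ms hB p) ω
    rw [e3] at e2
    rw [e2]
    exact super E hB hp hrp ω
  refine h1.trans ?_
  by_cases hne : r = h
  · have h2 : (fun ω => ze G Z r ω * bd G h ω) = fun _ => 0 := by
      funext ω
      rw [hne]
      unfold bd
      by_cases hP : Gl G h ω ∧ ¬ G h ω
      · rw [ze_off (fun hG => hP.2 (Gd_iff.1 hG).2), zero_mul]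
      · rw [if_neg hP, mul_zero]
    rw [h2, Av_const]
    positivity
  · have hsum : ∑ a, h a ≤ ∑ a, r a + (m + 1) := by
      have : ∑ a : Fin (m + 1), h a ≤ ∑ a : Fin (m + 1), (r a + 1) := by
        refine Finset.sum_le_sum fun a _ => ?_
        rw [hr]
        have := hph a
        simp only
        omega
      rw [Finset.sum_add_distrib] at this
      simpa using this
    have hsum' : ∑ a, r a ≤ ∑ a, h a := Finset.sum_le_sum fun a _ => hrh a
    have h2 : Av (fun ω => ze G Z r ω * bd G h ω) ≤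
        Av (fun ω => 2 ^ (m + 1) * (bd G h ω * Z h ω)) := by
      refine Av_mono fun ω => ?_
      unfold bd
      by_cases hP : Gl G h ω ∧ ¬ G h ω
      · rw [if_pos hP, mul_one, one_mul]
        have hGr : Gd G r ω := Gl_Gd hrh hne hP.1
        rw [ze_of hGr]
        have h3 := Z_le_pow hB hh hP.1 (∑ a, h a - ∑ a, r a) r hrh (by omega)
        have h4 : 0 ≤ Z h ω := (pathlaw_23 m L G be Z h 0 hB hh).2.2.2.2 ω hP.1
        refine h3.trans (mul_le_mul_of_nonneg_right ?_ h4)
        exact pow_le_pow_right₀ (by norm_num) (by omega)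
      · rw [if_neg hP, mul_zero, zero_mul, mul_zero]
    refine h2.trans ?_
    rw [Av_smul]
    exact mul_le_mul_of_nonneg_left hδ (by positivity)

/-- all classes -/
def boxL (m L : ℕ) : Finset (Fin (m + 1) → ℕ) := Fintype.piFinset fun _ => range (L + 1)

theorem mem_boxL : h ∈ boxL m L ↔ ∀ a, h a ≤ L := by
  unfold boxL
  rw [Fintype.mem_piFinset]
  exact forall_congr' fun a => by rw [mem_range, Nat.lt_succ_iff]

theorem card_boxL : (boxL m L).card = (L + 1) ^ (m + 1) := by
  unfold boxL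
  rw [Fintype.card_piFinset]
  simp

open Classical in
/-- the density against the event that a neighbour is bad -/
theorem near_bad (E : Eeb m L) (hB : Bay G be Z) {δ : ℝ} {p p' : Fin (m + 1) → ℕ}
    (hp : ∀ a, p a ≤ L) (hp' : ∀ a, p' a ≤ L) (hpp : ∀ a, p' a ≤ p a + 1) (hδ0 : 0 ≤ δ)
    (hδ : ∀ h : Fin (m + 1) → ℕ, (∀ a, h a ≤ L) → Av (fun ω => bd G h ω * Z h ω) ≤ δ) :
    Av (fun ω => if Gd G p' ω then 0 else ze G Z p ω) ≤
      2 ^ (m + 1) * ((L : ℝ) + 1) ^ (m + 1) * δ := by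
  have h1 : ∀ ω, (if Gd G p' ω then 0 else ze G Z p ω) ≤
      ∑ h ∈ (boxL m L).filter (fun h => h ≤ p'), ze G Z p ω * bd G h ω := by
    intro ω
    have hnn : 0 ≤ ∑ h ∈ (boxL m L).filter (fun h => h ≤ p'), ze G Z p ω * bd G h ω :=
      sum_nonneg fun h _ => mul_nonneg (ze_nonneg hB hp ω) (bd_nonneg h ω)
    split_ifs with hG
    · exact hnn
    · obtain ⟨r, hr, h2, h3⟩ := exists_minbad hG
      have hmem : r ∈ (boxL m L).filter (fun h => h ≤ p') := by
        rw [mem_filter, mem_boxL]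
        exact ⟨fun a => (hr a).trans (hp' a), hr⟩
      have h4 := single_le_sum (f := fun h => ze G Z p ω * bd G h ω)
        (fun h _ => mul_nonneg (ze_nonneg hB hp ω) (bd_nonneg h ω)) hmem
      refine le_trans (le_of_eq ?_) h4
      beta_reduce
      unfold bd
      rw [if_pos ⟨h2, h3⟩, mul_one]
  refine (Av_mono h1).trans ?_
  rw [Av_sum]
  have h2 : ∀ h ∈ (boxL m L).filter (fun h => h ≤ p'),
      Av (fun ω => ze G Z p ω * bd G h ω) ≤ 2 ^ (m + 1) * δ := by
    intro h hh
    rw [mem_filter, mem_boxL] at hh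
    exact one_bad E hB hp hh.1 (fun a => (hh.2 a).trans (hpp a)) hδ0 (hδ h hh.1)
  refine (sum_le_sum h2).trans ?_
  rw [sum_const, nsmul_eq_mul]
  have h3 : (((boxL m L).filter (fun h => h ≤ p')).card : ℝ) ≤ ((L : ℝ) + 1) ^ (m + 1) := by
    have := card_filter_le (boxL m L) (fun h => h ≤ p')
    rw [card_boxL] at this
    exact_mod_cast this
  calc _ ≤ ((L : ℝ) + 1) ^ (m + 1) * (2 ^ (m + 1) * δ) :=
        mul_le_mul_of_nonneg_right h3 (by positivity)
    _ = _ := by ring

theorem Av_ze_zero (hB : Bay G be Z) : Av (ze G Z (fun _ => 0)) = 1 := by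
  have : ze G Z (fun _ => 0) = fun _ => 1 := by
    funext ω
    have hG : Gd G (fun _ => 0) ω := by
      intro r hr
      have : r = fun _ => 0 := le_antisymm hr (fun a => Nat.zero_le _)
      rw [this]
      exact hB.start ω
    rw [ze_of hG, hB.zero _ _ ⟨0, rfl⟩]
  rw [this, Av_const]

theorem Av_ze_le (E : Eeb m L) (hB : Bay G be Z) {p q : Fin (m + 1) → ℕ} (hp : ∀ a, p a ≤ L)
    (hq : q ≤ p) : Av (ze G Z p) ≤ Av (ze G Z q) := by
  rw [← E.mean q (ze G Z p)]
  exact Av_mono fun ω => super E hB hp hq ω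

theorem Av_ze_le_one (E : Eeb m L) (hB : Bay G be Z) {p : Fin (m + 1) → ℕ} (hp : ∀ a, p a ≤ L) :
    Av (ze G Z p) ≤ 1 := by
  rw [← Av_ze_zero hB]
  exact Av_ze_le E hB hp fun a => Nat.zero_le _

theorem loss_step (E : Eeb m L) (hB : Bay G be Z) {δ : ℝ} (hh : ∀ a, h a ≤ L) (hc : h c < L)
    (hδ0 : 0 ≤ δ)
    (hδ : ∀ h : Fin (m + 1) → ℕ, (∀ a, h a ≤ L) → Av (fun ω => bd G h ω * Z h ω) ≤ δ) :
    Av (ze G Z h) ≤ Av (ze G Z (upc h c)) + 2 * (2 ^ (m + 1) * ((L : ℝ) + 1) ^ (m + 1) * δ) := by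
  classical
  have h1 := near_bad E hB (p := h) (p' := upc h c) hh (upc_le hh hc) (fun a => by
    by_cases ha : a = c
    · subst ha
      rw [upc_self]
    · rw [upc_ne ha]
      omega) hδ0 hδ
  have h2 : Av (ze G Z h) = Av (fun ω => ze G Z h ω * fac G be c h ω) := by
    rw [← E.mean h (fun ω => ze G Z h ω * fac G be c h ω)]
    congr 1
    funext ω
    exact (EE_fac E hB hh hc ω).symm
  have h3 : Av (fun ω => ze G Z h ω * fac G be c h ω) ≤
      Av (fun ω => ze G Z (upc h c) ω + 2 * (if Gd G (upc h c) ω then 0 else ze G Z h ω)) := by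
    refine Av_mono fun ω => ?_
    beta_reduce
    by_cases hG : Gd G (upc h c) ω
    · have hG' : Gd G h ω := Gd_mono le_upc hG
      rw [if_pos hG, ze_of hG, ze_of hG', Z_upc hB hh hc hG', mul_zero, add_zero]
    · rw [if_neg hG, ze_off hG, zero_add, mul_comm]
      exact mul_le_mul_of_nonneg_right (fac_le hB hh hc ω) (ze_nonneg hB hh ω)
  rw [Av_add, Av_smul] at h3
  rw [h2]
  linarith

theorem loss_all (E : Eeb m L) (hB : Bay G be Z) {δ : ℝ} (hδ0 : 0 ≤ δ)
    (hδ : ∀ h : Fin (m + 1) → ℕ, (∀ a, h a ≤ L) → Av (fun ω => bd G h ω * Z h ω) ≤ δ) :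
    ∀ (n : ℕ) (h : Fin (m + 1) → ℕ), ∑ a, h a = n → (∀ a, h a ≤ L) →
      1 ≤ Av (ze G Z h) + n * (2 * (2 ^ (m + 1) * ((L : ℝ) + 1) ^ (m + 1) * δ)) := by
  intro n
  induction n with
  | zero =>
    intro h hn hh
    have : h = fun _ => 0 := by
      by_contra hne
      obtain ⟨c, hc, h1, h2⟩ := exists_succ (r := fun _ => 0) (h := h)
        (fun a => Nat.zero_le _) (fun he => hne he.symm)
      have := Finset.sum_le_sum (s := univ) (fun a _ => h1 a)
      omega
    rw [this, Av_ze_zero hB]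
    simp
  | succ n ih =>
    intro h hn hh
    have hne : (fun _ => 0 : Fin (m + 1) → ℕ) ≠ h := by
      rintro rfl
      simp at hn
    obtain ⟨h', c, h1, h2, h3, h4, h5⟩ := exists_pred (r := fun _ => 0) (h := h)
      (fun a => Nat.zero_le _) hne
    have hh' : ∀ a, h' a ≤ L := fun a => (h2 a).trans (hh a)
    have hc' : h' c < L := by
      have := hh c
      omega
    have h6 := ih h' (by omega) hh'
    have h7 := loss_step E hB hh' hc' hδ0 hδ
    rw [← h3] at h7
    push_cast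
    linarith

end minbad

end P23

end Pool.Agent.SHX
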