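import Mathlib

/-! SHX general m (helper74): raising the strings one after the other. -/

set_option autoImplicit false

namespace Pool.Agent.SHX

open Finset

/-- the class on the way from `h` to `H`: the strings before `g` (except `e`) are raised to `H`, the
string `g` has length `j`, the string `e` and the strings after `g` are as in `h` -/
def rz {n : ℕ} (H : Fin n → ℕ) (e g : Fin n) (h : Fin n → ℕ) (j : ℕ) : Fin n → ℕ :=
  fun s => if s = e then h s else if s < g then H s else if s = g then j else h s

namespace Rz74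

variable {n : ℕ}

theorem at_e (H : Fin n → ℕ) (e g : Fin n) (h : Fin n → ℕ) (j : ℕ) : rz H e g h j e = h e := by
  simp [rz]

theorem at_g (H : Fin n → ℕ) {e g : Fin n} (hg : g ≠ e) (h : Fin n → ℕ) (j : ℕ) :
    rz H e g h j g = j := by
  simp [rz, hg]

theorem le_H {H : Fin n → ℕ} {e g : Fin n} {h : Fin n → ℕ} {j : ℕ} (hh : h ≤ H) (hj : j ≤ H g) :
    rz H e g h j ≤ H := by
  intro s
  unfold rz
  split_ifs with h1 h2 h3
  · exact hh s
  · exact le_rfl
  · subst h3; exact hj
  · exact hh s

theorem ge_h {H : Fin n → ℕ} {e g : Fin n} {h : Fin n → ℕ} {j : ℕ} (hh : h ≤ H) (hj : h g ≤ j) :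
    h ≤ rz H e g h j := by
  intro s
  unfold rz
  split_ifs with h1 h2 h3
  · exact le_rfl
  · exact hh s
  · subst h3; exact hj
  · exact le_rfl

theorem succ_eq (H : Fin n → ℕ) {e g : Fin n} (hg : g ≠ e) (h : Fin n → ℕ) (j : ℕ) :
    Function.update (rz H e g h j) g (j + 1) = rz H e g h (j + 1) := by
  funext s
  by_cases hs : s = g
  · subst hs; rw [Function.update_self, at_g H hg]
  · rw [Function.update_of_ne hs]
    unfold rz
    simp [hs]

/-- the strings before `k` are raised -/
def rk (H : Fin n → ℕ) (e : Fin n) (h : Fin n → ℕ) (k : ℕ) : Fin n → ℕ :=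
  fun s => if s = e then h s else if s.val < k then H s else h s

theorem rk_zero (H : Fin n → ℕ) (e : Fin n) (h : Fin n → ℕ) : rk H e h 0 = h := by
  funext s; simp [rk]

theorem rk_last (H : Fin n → ℕ) (e : Fin n) (h : Fin n → ℕ) :
    rk H e h n = Function.update H e (h e) := by
  funext s
  by_cases hs : s = e
  · subst hs; simp [rk]
  · rw [Function.update_of_ne hs]; simp [rk, hs, s.isLt]

theorem rk_self (H : Fin n → ℕ) {e g : Fin n} (hg : g ≠ e) (h : Fin n → ℕ) :
    rk H e h g.val = rz H e g h (h g) := by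
  funext s
  unfold rk rz
  by_cases h1 : s = e
  · simp [h1]
  · by_cases h2 : s < g
    · have : s.val < g.val := h2
      simp [h1, h2]
    · have h3 : ¬ s.val < g.val := h2
      by_cases h4 : s = g
      · subst h4; simp [h1]
      · simp [h1, h2, h4]

theorem rk_succ (H : Fin n → ℕ) {e g : Fin n} (hg : g ≠ e) (h : Fin n → ℕ) :
    rk H e h (g.val + 1) = rz H e g h (H g) := by
  funext s
  unfold rk rz
  by_cases h1 : s = e
  · simp [h1]
  · by_cases h2 : s < g
    · have : s.val < g.val + 1 := Nat.lt_succ_of_lt h2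
      simp [h1, h2, this]
    · by_cases h4 : s = g
      · subst h4; simp [h1]
      · have h5 : ¬ s.val < g.val + 1 := by
          intro h6
          have h7 : s.val ≠ g.val := fun h8 => h4 (Fin.ext h8)
          exact h2 (show s.val < g.val by omega)
        simp [h1, h2, h4, h5]

theorem rk_e (H : Fin n → ℕ) (e : Fin n) (h : Fin n → ℕ) :
    rk H e h (e.val + 1) = rk H e h e.val := by
  funext s
  unfold rk
  by_cases h1 : s = e
  · simp [h1]
  · by_cases h2 : s.val < e.val
    · have : s.val < e.val + 1 := Nat.lt_succ_of_lt h2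
      simp [h1, h2, this]
    · have h5 : ¬ s.val < e.val + 1 := by
        intro h6
        have h7 : s.val ≠ e.val := fun h8 => h1 (Fin.ext h8)
        omega
      simp [h1, h2, h5]

theorem ico_sub (f : ℕ → ℝ) {a b : ℕ} (hab : a ≤ b) :
    ∑ j ∈ Finset.Ico a b, (f (j + 1) - f j) = f b - f a := by
  induction b, hab using Nat.le_induction with
  | base => simp
  | succ b hb ih => rw [Finset.sum_Ico_succ_top hb, ih]; ring

/-- telescoping along the path -/
theorem tele (H h : Fin n → ℕ) (e : Fin n) (hh : h ≤ H) (F : (Fin n → ℕ) → ℝ) :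
    F (Function.update H e (h e)) - F h =
      ∑ g ∈ univ.erase e, ∑ j ∈ Finset.Ico (h g) (H g),
        (F (rz H e g h (j + 1)) - F (rz H e g h j)) := by
  have h1 : ∑ g ∈ univ.erase e, ∑ j ∈ Finset.Ico (h g) (H g),
        (F (rz H e g h (j + 1)) - F (rz H e g h j)) =
      ∑ g : Fin n, (F (rk H e h (g.val + 1)) - F (rk H e h g.val)) := by
    rw [← Finset.sum_erase_add univ _ (Finset.mem_univ e), rk_e, sub_self, add_zero]
    refine Finset.sum_congr rfl (fun g hg => ?_)
    have hge : g ≠ e := Finset.ne_of_mem_erase hg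
    rw [rk_succ H hge, rk_self H hge]
    exact ico_sub (fun j => F (rz H e g h j)) (hh g)
  rw [h1, Fin.sum_univ_eq_sum_range (fun k => F (rk H e h (k + 1)) - F (rk H e h k)) n,
    Finset.sum_range_sub (fun k => F (rk H e h k)), rk_last, rk_zero]

end Rz74

end Pool.Agent.SHX
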