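import Pool.Agent.Lib.MP_a7b2aa_an.SHX.Conb25

/-!
SHX, track D3 (helper25): module SFB.
-/

set_option autoImplicit false

namespace Pool.Agent.SHX

open Finset Pool.Agent.SB3 Pool.Agent.SBT Pool.Agent.SBD Pool.Agent.SHD

namespace G25

/-- the band has at most `2 R + 1` indices on every line -/
theorem band_card (N R n s : ℕ) (P : ℕ → Prop) [DecidablePred P]
    (hP : ∀ t, P t → dst (t + s) N ≤ R) : ((range n).filter P).card ≤ 2 * R + 1 := by
  have h1 : (range n).filter P ⊆ Finset.Icc (N - s - R) (N - s + R) := by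
    intro t ht
    rw [Finset.mem_filter] at ht
    have h2 := hP t ht.2
    unfold dst at h2
    rw [Finset.mem_Icc]
    omega
  have h2 := Finset.card_le_card h1
  rw [Nat.card_Icc] at h2
  omega

theorem sum_band {N R n s : ℕ} {a : ℕ → ℝ} {B : ℝ} (hB : ∀ t, |a t| ≤ B)
    (h0 : ∀ t, R < dst (t + s) N → a t = 0) :
    |∑ t ∈ range n, a t| ≤ (2 * (R : ℝ) + 1) * B := by
  classical
  have hB0 : 0 ≤ B := (abs_nonneg _).trans (hB 0)
  have h1 : ∑ t ∈ range n, a t = ∑ t ∈ (range n).filter (fun t => dst (t + s) N ≤ R), a t := by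
    symm
    apply Finset.sum_filter_of_ne
    intro t _ ht
    by_contra hc
    exact ht (h0 t (not_le.1 hc))
  rw [h1]
  calc _ ≤ ∑ t ∈ (range n).filter (fun t => dst (t + s) N ≤ R), |a t| :=
        Finset.abs_sum_le_sum_abs _ _
    _ ≤ ∑ t ∈ (range n).filter (fun t => dst (t + s) N ≤ R), B :=
        Finset.sum_le_sum fun t _ => hB t
    _ = ((range n).filter (fun t => dst (t + s) N ≤ R)).card * B := by
        rw [Finset.sum_const, nsmul_eq_mul]
    _ ≤ (2 * (R : ℝ) + 1) * B := by
        apply mul_le_mul_of_nonneg_right _ hB0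
        have := band_card N R n s (fun t => dst (t + s) N ≤ R) (fun t ht => ht)
        exact_mod_cast this

/-- a separated function on a line of two variables -/
theorem atom3 (c : Fin 3) (α : Fin 3 → ℕ → ℝ) (x y i : ℕ) :
    α 0 (cls c x y i 0) * α 1 (cls c x y i 1) * α 2 (cls c x y i 2) =
      α c i * α (c + 1) x * α (c + 2) y := by
  fin_cases c <;> simp [cls] <;> ring

/-- the main estimate: two covariances and a separated weight, sum over `t` -/
theorem tri {L n1 n2 i : ℕ} {f g α a b : ℕ → ℝ} {M M' : ℕ → ℕ → ℝ} {w : ℝ} (h1 : n1 ≤ L)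
    (hi : i < L) (hf : ∀ n, |f n| ≤ 1) (hg : ∀ n, |g n| ≤ 1) (hα : ∀ n, |α n| ≤ 1)
    (ha : ∀ n, |a n| ≤ 1) (hb : ∀ n, |b n| ≤ 1) (hM : BF L M 1) (hM' : BF L M' 1) :
    nr L (fun r => if r < n2 then ∑ t ∈ range n1, f t * g r *
      (w * (M t r * M' i t * (a t * b r))) * α t else 0) ≤ |w| := by
  set x : ℕ → ℝ := fun t => if t < n1 then f t * (M' i t * a t) * α t else 0 with hx
  have e1 : ∀ r, ∑ t ∈ range L, x t * M t r =
      ∑ t ∈ range n1, f t * (M' i t * a t) * α t * M t r := by
    intro r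
    symm
    rw [← Finset.sum_subset (Finset.range_subset_range.2 h1)]
    · refine Finset.sum_congr rfl fun t ht => ?_
      rw [hx]
      simp only [if_pos (Finset.mem_range.1 ht)]
    · intro t _ ht
      rw [hx]
      simp only [if_neg (fun h => ht (Finset.mem_range.2 h)), zero_mul]
  have h2 : nr L (fun r => if r < n2 then ∑ t ∈ range n1, f t * g r *
      (w * (M t r * M' i t * (a t * b r))) * α t else 0) ≤
      nr L (fun r => w * ∑ t ∈ range L, x t * M t r) := by
    apply nr_mono
    intro r _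
    rw [e1]
    by_cases hr : r < n2
    · rw [if_pos hr]
      have e2 : ∑ t ∈ range n1, f t * g r * (w * (M t r * M' i t * (a t * b r))) * α t =
          (g r * b r) * (w * ∑ t ∈ range n1, f t * (M' i t * a t) * α t * M t r) := by
        rw [Finset.mul_sum, Finset.mul_sum]
        exact Finset.sum_congr rfl fun t _ => by ring
      rw [e2, abs_mul, abs_mul]
      have : |g r| * |b r| ≤ 1 := mul_le_one₀ (hg r) (abs_nonneg _) (hb r)
      have := mul_le_mul_of_nonneg_right this
        (abs_nonneg (w * ∑ t ∈ range n1, f t * (M' i t * a t) * α t * M t r))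
      linarith
    · rw [if_neg hr, abs_zero]
      exact abs_nonneg _
  refine h2.trans ?_
  rw [nr_smul]
  have h3 := bf_row zero_le_one hM x
  have h4 : nr L x ≤ nr L (fun t => M' i t) := by
    apply nr_mono
    intro t _
    rw [hx]
    simp only
    by_cases ht : t < n1
    · rw [if_pos ht, abs_mul, abs_mul, abs_mul]
      have e1 : |f t| * |α t| ≤ 1 := mul_le_one₀ (hf t) (abs_nonneg _) (hα t)
      have e2 : |f t| * |α t| * |a t| ≤ 1 := mul_le_one₀ e1 (abs_nonneg _) (ha t)
      have := mul_le_mul_of_nonneg_right e2 (abs_nonneg (M' i t))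
      linarith
    · rw [if_neg ht, abs_zero]
      exact abs_nonneg _
  have h5 := bf_entry_row zero_le_one hM' hi
  have h6 : nr L (fun v => ∑ i ∈ range L, x i * M i v) ≤ 1 := by linarith
  have := mul_le_mul_of_nonneg_left h6 (abs_nonneg w)
  linarith

/-- the vector of the sums over `t` -/
noncomputable def Psi (L n1 n2 : ℕ) (f g α : ℕ → ℝ) (p : ℕ → ℕ → Fin 3 → ℕ)
    (κ κ' ζ : (Fin 3 → ℕ) → ℝ) : ℝ :=
  nr L (fun r => if r < n2 then ∑ t ∈ range n1, f t * g r *
    (κ (p t r) * κ' (p t r) * ζ (p t r)) * α t else 0)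

theorem Psi_add1 (L n1 n2 : ℕ) (f g α : ℕ → ℝ) (p : ℕ → ℕ → Fin 3 → ℕ)
    (κ₁ κ₂ κ' ζ : (Fin 3 → ℕ) → ℝ) : Psi L n1 n2 f g α p (fun h => κ₁ h + κ₂ h) κ' ζ ≤
      Psi L n1 n2 f g α p κ₁ κ' ζ + Psi L n1 n2 f g α p κ₂ κ' ζ := by
  refine le_trans (le_of_eq ?_) (nr_add L _ _)
  refine nr_congr fun r _ => ?_
  by_cases hr : r < n2
  · simp only [if_pos hr]
    rw [← Finset.sum_add_distrib]
    exact Finset.sum_congr rfl fun t _ => by ring
  · simp only [if_neg hr, add_zero]

theorem Psi_add2 (L n1 n2 : ℕ) (f g α : ℕ → ℝ) (p : ℕ → ℕ → Fin 3 → ℕ)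
    (κ κ₁ κ₂ ζ : (Fin 3 → ℕ) → ℝ) : Psi L n1 n2 f g α p κ (fun h => κ₁ h + κ₂ h) ζ ≤
      Psi L n1 n2 f g α p κ κ₁ ζ + Psi L n1 n2 f g α p κ κ₂ ζ := by
  refine le_trans (le_of_eq ?_) (nr_add L _ _)
  refine nr_congr fun r _ => ?_
  by_cases hr : r < n2
  · simp only [if_pos hr]
    rw [← Finset.sum_add_distrib]
    exact Finset.sum_congr rfl fun t _ => by ring
  · simp only [if_neg hr, add_zero]

theorem Psi_add3 (L n1 n2 : ℕ) (f g α : ℕ → ℝ) (p : ℕ → ℕ → Fin 3 → ℕ)
    (κ κ' ζ₁ ζ₂ : (Fin 3 → ℕ) → ℝ) : Psi L n1 n2 f g α p κ κ' (fun h => ζ₁ h + ζ₂ h) ≤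
      Psi L n1 n2 f g α p κ κ' ζ₁ + Psi L n1 n2 f g α p κ κ' ζ₂ := by
  refine le_trans (le_of_eq ?_) (nr_add L _ _)
  refine nr_congr fun r _ => ?_
  by_cases hr : r < n2
  · simp only [if_pos hr]
    rw [← Finset.sum_add_distrib]
    exact Finset.sum_congr rfl fun t _ => by ring
  · simp only [if_neg hr, add_zero]

theorem Psi_cg {L n1 n2 : ℕ} {f g α : ℕ → ℝ} {p : ℕ → ℕ → Fin 3 → ℕ}
    {κ₁ κ₂ κ₁' κ₂' ζ₁ ζ₂ : (Fin 3 → ℕ) → ℝ} (h : ∀ t r, t < n1 → r < n2 →
      κ₁ (p t r) * κ₁' (p t r) * ζ₁ (p t r) = κ₂ (p t r) * κ₂' (p t r) * ζ₂ (p t r)) :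
    Psi L n1 n2 f g α p κ₂ κ₂' ζ₂ ≤ Psi L n1 n2 f g α p κ₁ κ₁' ζ₁ := by
  refine le_of_eq (nr_congr fun r _ => ?_)
  by_cases hr : r < n2
  · simp only [if_pos hr]
    refine Finset.sum_congr rfl fun t ht => ?_
    rw [h t r (Finset.mem_range.1 ht) hr]
  · simp only [if_neg hr]

/-- the estimate for separated factors, from the estimate for atoms -/
theorem Psi_le {L n1 n2 : ℕ} {f g α : ℕ → ℝ} {p : ℕ → ℕ → Fin 3 → ℕ} {c c' : Fin 3}
    {D D' D'' : Set (Fin 3 → ℕ)} {k0 : ℝ} {κ κ' ζ : (Fin 3 → ℕ) → ℝ}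
    (h1 : ∀ t r, t < n1 → r < n2 → p t r ∈ D) (h2 : ∀ t r, t < n1 → r < n2 → p t r ∈ D')
    (h3 : ∀ t r, t < n1 → r < n2 → p t r ∈ D'') (hκ : SepM L c D k0 κ) (hκ' : SepM L c' D' k0 κ')
    (hζ : Sep3 D'' 16 ζ)
    (hat : ∀ (w w' w'' : ℝ) (M M' : ℕ → ℕ → ℝ) (d d' : ℕ → ℝ) (β : Fin 3 → ℕ → ℝ),
      BF L M 1 → BF L M' 1 → (∀ n, |d n| ≤ 1) → (∀ n, |d' n| ≤ 1) → (∀ e n, |β e n| ≤ 1) →
      Psi L n1 n2 f g α p (fun h => w * (M (h (c + 1)) (h (c + 2)) * d (h c)))
        (fun h => w' * (M' (h (c' + 1)) (h (c' + 2)) * d' (h c')))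
        (fun h => w'' * (β 0 (h 0) * β 1 (h 1) * β 2 (h 2))) ≤ |w| * |w'| * |w''|) :
    Psi L n1 n2 f g α p κ κ' ζ ≤ 16 * k0 ^ 2 := by
  have hk0 : 0 ≤ k0 := sepM_nn hκ
  have key : Psi L n1 n2 f g α p κ κ' ζ ≤ k0 * (k0 * (16 * 1)) := by
    refine sepM_le hκ (fun κ => Psi L n1 n2 f g α p κ κ' ζ) (k0 * (16 * 1)) (by positivity) ?_
      (fun φ ψ => Psi_add1 L n1 n2 f g α p φ ψ _ _) (fun φ ψ h => Psi_cg fun t r ht hr => by
        rw [h _ (h1 t r ht hr)])
    intro w M d hM hd
    have g2 := sepM_le hκ' (fun κ' => Psi L n1 n2 f g α p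
      (fun h => w * (M (h (c + 1)) (h (c + 2)) * d (h c))) κ' ζ) (|w| * (16 * 1))
      (by positivity) ?_
      (fun φ ψ => Psi_add2 L n1 n2 f g α p _ φ ψ _) (fun φ ψ h => Psi_cg fun t r ht hr => by
        rw [h _ (h2 t r ht hr)])
    · refine g2.trans (le_of_eq ?_)
      ring
    intro w' M' d' hM' hd'
    have g3 := sep3_le hζ (fun ζ => Psi L n1 n2 f g α p
      (fun h => w * (M (h (c + 1)) (h (c + 2)) * d (h c)))
      (fun h => w' * (M' (h (c' + 1)) (h (c' + 2)) * d' (h c'))) ζ)
      (|w'| * |w|) (by positivity) ?_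
      (fun φ ψ => Psi_add3 L n1 n2 f g α p _ _ φ ψ) (fun φ ψ h => Psi_cg fun t r ht hr => by
        rw [h _ (h3 t r ht hr)])
    · refine g3.trans (le_of_eq ?_)
      ring
    intro w'' β hβ
    refine (hat w w' w'' M M' d d' β hM hM' hd hd' hβ).trans (le_of_eq ?_)
    ring
  refine key.trans (le_of_eq ?_)
  ring

theorem up_ne1 (H : Fin 3 → ℕ) (c : Fin 3) : up H c (c + 1) = H (c + 1) := by
  unfold up
  rw [Function.update_of_ne (by fin_cases c <;> decide)]

theorem up_ne2 (H : Fin 3 → ℕ) (c : Fin 3) : up H c (c + 2) = H (c + 2) := by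
  unfold up
  rw [Function.update_of_ne (by fin_cases c <;> decide)]

theorem up_self (H : Fin 3 → ℕ) (c : Fin 3) : up H c c = H c + 1 := by
  unfold up
  rw [Function.update_self]

end G25

open G25

theorem sfb_25 : StSfb := by
  intro L N R N1 N2 lam k0 c H u ζ ka f g hH hlam hf hg hu hband hN1 hN2 hHL hka
  subst hN1 hN2
  have hdst : ∀ t r, R < dst (t + (r + H c)) N → u (cls c t r (H c)) = 0 := by
    intro t r h
    apply hband
    rw [cls_sum]
    have : t + r + H c = t + (r + H c) := by omega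
    rw [this]
    exact h
  have hdst' : ∀ r t, R < dst (r + (t + H c)) N → u (cls c t r (H c)) = 0 := by
    intro r t h
    apply hband
    rw [cls_sum]
    have : t + r + H c = r + (t + H c) := by omega
    rw [this]
    exact h
  have hk0 : 0 ≤ k0 := sepM_nn (hka c)
  refine ⟨?_, ?_, ?_⟩
  · intro hζ α hα
    have hB0 : 0 ≤ 2 * (2 * (R : ℝ) + 1) * lam := by positivity
    have hterm : ∀ t r, t < H (c + 1) → r < H (c + 2) →
        |lam * u (cls c t r (H c)) * ζ (cls c t r (H c))| ≤ 2 * lam := by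
      intro t r ht hr
      rw [abs_mul, abs_mul, abs_of_nonneg hlam]
      have h1 := hζ (cls c t r (H c)) ⟨cls_le le_rfl ht.le hr.le, by rw [cls_1]; exact ht,
        by rw [cls_2]; exact hr⟩
      have h2 := hu (cls c t r (H c))
      have h3 : lam * |u (cls c t r (H c))| ≤ lam := by
        have := mul_le_mul_of_nonneg_left h2 hlam
        linarith
      calc _ ≤ lam * 2 := mul_le_mul h3 h1 (abs_nonneg _) hlam
        _ = 2 * lam := mul_comm _ _
    constructor
    · apply nr_bd hB0
      intro r hr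
      by_cases hr2 : r < H (c + 2)
      · rw [if_pos hr2]
        have e : ∑ t ∈ range (H (c + 1)), f t * g r *
            (lam * u (cls c t r (H c)) * ζ (cls c t r (H c))) * α t =
            ∑ t ∈ range (H (c + 1)), (if t < H (c + 1) then f t * g r *
              (lam * u (cls c t r (H c)) * ζ (cls c t r (H c))) * α t else 0) :=
          Finset.sum_congr rfl fun t ht => by rw [if_pos (Finset.mem_range.1 ht)]
        rw [e]
        have h1 := sum_band (N := N) (R := R) (n := H (c + 1)) (s := r + H c) (B := 2 * lam)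
          (a := fun t => if t < H (c + 1) then f t * g r *
              (lam * u (cls c t r (H c)) * ζ (cls c t r (H c))) * α t else 0) ?_ ?_
        · linarith
        · intro t
          by_cases ht : t < H (c + 1)
          · simp only [if_pos ht]
            rw [abs_mul, abs_mul, abs_mul]
            have e1 : |f t| * |g r| ≤ 1 := mul_le_one₀ (hf t) (abs_nonneg _) (hg r)
            have e2 := hterm t r ht hr2
            have e3 := hα t
            calc _ ≤ 1 * (2 * lam) * 1 := by
                  apply mul_le_mul _ e3 (abs_nonneg _) (by positivity)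
                  exact mul_le_mul e1 e2 (abs_nonneg _) zero_le_one
              _ = 2 * lam := by ring
          · simp only [if_neg ht, abs_zero]
            positivity
        · intro t ht
          by_cases ht1 : t < H (c + 1)
          · rw [if_pos ht1, hdst t r ht]
            ring
          · rw [if_neg ht1]
      · rw [if_neg hr2, abs_zero]
        exact hB0
    · apply nr_bd hB0
      intro t ht
      by_cases ht2 : t < H (c + 1)
      · rw [if_pos ht2]
        have e : ∑ r ∈ range (H (c + 2)), f t * g r *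
            (lam * u (cls c t r (H c)) * ζ (cls c t r (H c))) * α r =
            ∑ r ∈ range (H (c + 2)), (if r < H (c + 2) then f t * g r *
              (lam * u (cls c t r (H c)) * ζ (cls c t r (H c))) * α r else 0) :=
          Finset.sum_congr rfl fun r hr => by rw [if_pos (Finset.mem_range.1 hr)]
        rw [e]
        have h1 := sum_band (N := N) (R := R) (n := H (c + 2)) (s := t + H c) (B := 2 * lam)
          (a := fun r => if r < H (c + 2) then f t * g r *
              (lam * u (cls c t r (H c)) * ζ (cls c t r (H c))) * α r else 0) ?_ ?_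
        · linarith
        · intro r
          by_cases hr : r < H (c + 2)
          · simp only [if_pos hr]
            rw [abs_mul, abs_mul, abs_mul]
            have e1 : |f t| * |g r| ≤ 1 := mul_le_one₀ (hf t) (abs_nonneg _) (hg r)
            have e2 := hterm t r ht2 hr
            have e3 := hα r
            calc _ ≤ 1 * (2 * lam) * 1 := by
                  apply mul_le_mul _ e3 (abs_nonneg _) (by positivity)
                  exact mul_le_mul e1 e2 (abs_nonneg _) zero_le_one
              _ = 2 * lam := by ring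
          · simp only [if_neg hr, abs_zero]
            positivity
        · intro r hr
          by_cases hr1 : r < H (c + 2)
          · rw [if_pos hr1, hdst' r t hr]
            ring
          · rw [if_neg hr1]
      · rw [if_neg ht2, abs_zero]
        exact hB0
  · intro hζ α hα
    refine Psi_le (p := fun t r => cls c t r (H c)) (c := c) (c' := c + 2)
      (D := Dom2 H (up H c) c) (D' := Dom2 H (up H c) (c + 2)) (D'' := Dom H (c + 1))
      ?_ ?_ ?_ (hka c) (hka (c + 2)) hζ ?_
    · intro t r ht hr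
      refine ⟨cls_le le_rfl ht.le hr.le, ?_, ?_⟩
      · rw [cls_1, up_ne1]; exact ht
      · rw [cls_2, up_ne2]; exact hr
    · intro t r ht hr
      refine ⟨cls_le le_rfl ht.le hr.le, ?_, ?_⟩
      · rw [c21, cls_c, up_self]; exact Nat.lt_succ_self _
      · rw [c22, cls_1, up_ne1]; exact ht
    · intro t r ht hr
      exact ⟨cls_le le_rfl ht.le hr.le, by rw [cls_1]; exact ht⟩
    · intro w w' w'' M M' d d' β hM hM' hd hd' hβ
      have h4 := tri (L := L) (n1 := H (c + 1)) (n2 := H (c + 2)) (i := H c) (f := f) (g := g)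
        (α := α) (a := β (c + 1)) (b := fun r => d' r * β (c + 2) r) (M := M) (M' := M')
        (w := w * w' * w'' * (d (H c) * β c (H c))) (hH (c + 1)) hHL hf hg hα (hβ (c + 1))
        (fun r => by rw [abs_mul]; exact mul_le_one₀ (hd' r) (abs_nonneg _) (hβ (c + 2) r)) hM hM'
      refine le_trans (le_of_eq ?_) (h4.trans ?_)
      · refine nr_congr fun r _ => ?_
        by_cases hr : r < H (c + 2)
        · simp only [if_pos hr]
          refine Finset.sum_congr rfl fun t _ => ?_
          rw [atom3, c21, c22, cls_c, cls_1, cls_2]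
          ring
        · simp only [if_neg hr]
      · rw [abs_mul, abs_mul, abs_mul, abs_mul (d (H c))]
        have h5 : |d (H c)| * |β c (H c)| ≤ 1 := mul_le_one₀ (hd _) (abs_nonneg _) (hβ c _)
        calc |w| * |w'| * |w''| * (|d (H c)| * |β c (H c)|) ≤ |w| * |w'| * |w''| * 1 :=
              mul_le_mul_of_nonneg_left h5 (by positivity)
          _ = _ := by ring
  · intro hζ α hα
    have key := Psi_le (L := L) (n1 := H (c + 2)) (n2 := H (c + 1)) (f := g) (g := f) (α := α)
      (k0 := k0) (κ := ka c) (κ' := ka (c + 1)) (ζ := ζ) (p := fun r t => cls c t r (H c)) (c := c)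
      (c' := c + 1)
      (D := Dom2 H (up H c) c) (D' := Dom2 H (up H c) (c + 1)) (D'' := Dom H (c + 2))
      ?_ ?_ ?_ (hka c) (hka (c + 1)) hζ ?_
    · refine le_trans (le_of_eq ?_) key
      refine nr_congr fun t _ => ?_
      by_cases ht : t < H (c + 1)
      · simp only [if_pos ht]
        exact Finset.sum_congr rfl fun r _ => by ring
      · simp only [if_neg ht]
    · intro r t hr ht
      refine ⟨cls_le le_rfl ht.le hr.le, ?_, ?_⟩
      · rw [cls_1, up_ne1]; exact ht
      · rw [cls_2, up_ne2]; exact hr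
    · intro r t hr ht
      refine ⟨cls_le le_rfl ht.le hr.le, ?_, ?_⟩
      · rw [c11, cls_2, up_ne2]; exact hr
      · rw [c12, cls_c, up_self]; exact Nat.lt_succ_self _
    · intro r t hr ht
      exact ⟨cls_le le_rfl ht.le hr.le, by rw [cls_2]; exact hr⟩
    · intro w w' w'' M M' d d' β hM hM' hd hd' hβ
      have h4 := tri (L := L) (n1 := H (c + 2)) (n2 := H (c + 1)) (i := H c) (f := g) (g := f)
        (α := α) (a := β (c + 2)) (b := fun t => d' t * β (c + 1) t) (M := fun p q => M q p)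
        (M' := fun p q => M' q p)
        (w := w * w' * w'' * (d (H c) * β c (H c))) (hH (c + 2)) hHL hg hf hα (hβ (c + 2))
        (fun r => by rw [abs_mul]; exact mul_le_one₀ (hd' r) (abs_nonneg _) (hβ (c + 1) r))
        (bf_tr hM) (bf_tr hM')
      refine le_trans (le_of_eq ?_) (h4.trans ?_)
      · refine nr_congr fun t _ => ?_
        by_cases ht : t < H (c + 1)
        · simp only [if_pos ht]
          refine Finset.sum_congr rfl fun r _ => ?_
          rw [atom3, c11, c12, cls_c, cls_1, cls_2]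
          ring
        · simp only [if_neg ht]
      · rw [abs_mul, abs_mul, abs_mul, abs_mul (d (H c))]
        have h5 : |d (H c)| * |β c (H c)| ≤ 1 := mul_le_one₀ (hd _) (abs_nonneg _) (hβ c _)
        calc |w| * |w'| * |w''| * (|d (H c)| * |β c (H c)|) ≤ |w| * |w'| * |w''| * 1 :=
              mul_le_mul_of_nonneg_left h5 (by positivity)
          _ = _ := by ring

end Pool.Agent.SHX
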