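import Pool.Agent.Lib.MP_a7b2aa_an.SHX.Sfb25

/-!
SHX, track D3 (helper25): module SFY.
-/

set_option autoImplicit false

namespace Pool.Agent.SHX

open Finset Pool.Agent.SB3 Pool.Agent.SBT Pool.Agent.SBD Pool.Agent.SHD

namespace G25

/-- Schur's test for a band matrix -/
theorem schur {n1 n2 N R s : ℕ} {B : ℕ → ℕ → ℝ} (hB : ∀ i y, |B i y| ≤ 1)
    (h0 : ∀ i y, R < dst (y + i + s) N → B i y = 0) (w : ℕ → ℝ) :
    ∑ i ∈ range n1, (∑ y ∈ range n2, B i y * w y) ^ 2 ≤
      (2 * (R : ℝ) + 1) ^ 2 * ∑ y ∈ range n2, w y ^ 2 := by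
  classical
  have h1 : ∀ i, (∑ y ∈ range n2, B i y * w y) ^ 2 ≤
      (2 * (R : ℝ) + 1) * ∑ y ∈ range n2, if dst (y + i + s) N ≤ R then w y ^ 2 else 0 := by
    intro i
    have e1 : ∑ y ∈ range n2, B i y * w y =
        ∑ y ∈ (range n2).filter (fun y => dst (y + i + s) N ≤ R), B i y * w y := by
      symm
      apply Finset.sum_filter_of_ne
      intro y _ hy
      by_contra hc
      apply hy
      rw [h0 i y (not_le.1 hc), zero_mul]
    rw [e1, ← Finset.sum_filter]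
    have h2 := Finset.sum_mul_sq_le_sq_mul_sq
      ((range n2).filter (fun y => dst (y + i + s) N ≤ R)) (B i) w
    refine h2.trans ?_
    apply mul_le_mul_of_nonneg_right _ (Finset.sum_nonneg fun _ _ => sq_nonneg _)
    calc ∑ y ∈ (range n2).filter (fun y => dst (y + i + s) N ≤ R), B i y ^ 2 ≤
        ∑ _y ∈ (range n2).filter (fun y => dst (y + i + s) N ≤ R), (1 : ℝ) := by
          refine Finset.sum_le_sum fun y _ => ?_
          rw [← sq_abs]
          exact pow_le_one₀ (abs_nonneg _) (hB i y)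
      _ = ((range n2).filter (fun y => dst (y + i + s) N ≤ R)).card := by
          rw [Finset.sum_const, nsmul_eq_mul, mul_one]
      _ ≤ 2 * (R : ℝ) + 1 := by
          have := band_card N R n2 (i + s) (fun y => dst (y + i + s) N ≤ R) (fun y hy => by
            rwa [← add_assoc])
          exact_mod_cast this
  calc ∑ i ∈ range n1, (∑ y ∈ range n2, B i y * w y) ^ 2 ≤
      ∑ i ∈ range n1, (2 * (R : ℝ) + 1) *
        ∑ y ∈ range n2, (if dst (y + i + s) N ≤ R then w y ^ 2 else 0) :=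
        Finset.sum_le_sum fun i _ => h1 i
    _ = (2 * (R : ℝ) + 1) * ∑ y ∈ range n2, ∑ i ∈ range n1,
        (if dst (y + i + s) N ≤ R then w y ^ 2 else 0) := by
        rw [← Finset.mul_sum, Finset.sum_comm]
    _ ≤ (2 * (R : ℝ) + 1) * ∑ y ∈ range n2, (2 * (R : ℝ) + 1) * w y ^ 2 := by
        apply mul_le_mul_of_nonneg_left _ (by positivity)
        refine Finset.sum_le_sum fun y _ => ?_
        rw [← Finset.sum_filter, Finset.sum_const, nsmul_eq_mul]
        apply mul_le_mul_of_nonneg_right _ (sq_nonneg _)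
        have := band_card N R n1 (y + s) (fun i => dst (y + i + s) N ≤ R) (fun i hi => by
          have : i + (y + s) = y + i + s := by omega
          rw [this]
          exact hi)
        exact_mod_cast this
    _ = _ := by rw [← Finset.mul_sum]; ring

/-- a matrix of norm one acts on a short vector -/
theorem bf_short {L n : ℕ} {W : ℕ → ℕ → ℝ} (hW : BF L W 1) (hn : n ≤ L) (χ : ℕ → ℝ) :
    ∑ v ∈ range L, (∑ i ∈ range n, χ i * W i v) ^ 2 ≤ ∑ i ∈ range n, χ i ^ 2 := by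
  have h1 := bf_row zero_le_one hW (fun i => if i < n then χ i else 0)
  rw [one_mul] at h1
  have h2 := pow_le_pow_left₀ (nr_nonneg _ _) h1 2
  rw [nr_sq, nr_sq] at h2
  have e1 : ∀ v, ∑ i ∈ range L, (if i < n then χ i else 0) * W i v =
      ∑ i ∈ range n, χ i * W i v := by
    intro v
    symm
    rw [← Finset.sum_subset (Finset.range_subset_range.2 hn)]
    · exact Finset.sum_congr rfl fun i hi => by rw [if_pos (Finset.mem_range.1 hi)]
    · intro i _ hi
      rw [if_neg (fun h => hi (Finset.mem_range.2 h)), zero_mul]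
  have e2 : ∑ i ∈ range L, (if i < n then χ i else 0) ^ 2 = ∑ i ∈ range n, χ i ^ 2 := by
    symm
    rw [← Finset.sum_subset (Finset.range_subset_range.2 hn)]
    · exact Finset.sum_congr rfl fun i hi => by rw [if_pos (Finset.mem_range.1 hi)]
    · intro i _ hi
      rw [if_neg (fun h => hi (Finset.mem_range.2 h))]
      ring
  rw [e2] at h2
  refine le_trans (le_of_eq ?_) h2
  exact Finset.sum_congr rfl fun v _ => by rw [e1]

/-- Minkowski's inequality for double sums -/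
theorem mink {s t : Finset ℕ} {F F' : ℕ → ℕ → ℝ} :
    Real.sqrt (∑ v ∈ s, ∑ x ∈ t, (F v x + F' v x) ^ 2) ≤
      Real.sqrt (∑ v ∈ s, ∑ x ∈ t, F v x ^ 2) + Real.sqrt (∑ v ∈ s, ∑ x ∈ t, F' v x ^ 2) := by
  rw [← Finset.sum_product', ← Finset.sum_product', ← Finset.sum_product']
  set a := ∑ p ∈ s ×ˢ t, F p.1 p.2 ^ 2 with ha
  set b := ∑ p ∈ s ×ˢ t, F' p.1 p.2 ^ 2 with hb
  have ha0 : 0 ≤ a := Finset.sum_nonneg fun _ _ => sq_nonneg _
  have hb0 : 0 ≤ b := Finset.sum_nonneg fun _ _ => sq_nonneg _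
  have h1 := Real.sqrt_nonneg a
  have h2 := Real.sqrt_nonneg b
  rw [Real.sqrt_le_left (by positivity)]
  have e : ∑ p ∈ s ×ˢ t, (F p.1 p.2 + F' p.1 p.2) ^ 2 =
      a + 2 * ∑ p ∈ s ×ˢ t, F p.1 p.2 * F' p.1 p.2 + b := by
    rw [ha, hb, Finset.mul_sum, ← Finset.sum_add_distrib, ← Finset.sum_add_distrib]
    exact Finset.sum_congr rfl fun p _ => by ring
  have h3 := Finset.sum_mul_sq_le_sq_mul_sq (s ×ˢ t) (fun p => F p.1 p.2) (fun p => F' p.1 p.2)
  have h4 : ∑ p ∈ s ×ˢ t, F p.1 p.2 * F' p.1 p.2 ≤ Real.sqrt a * Real.sqrt b := by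
    rw [← Real.sqrt_mul ha0]
    exact Real.le_sqrt_of_sq_le h3
  rw [e]
  have h5 := Real.sq_sqrt ha0
  have h6 := Real.sq_sqrt hb0
  nlinarith

/-- the norm of the square function, rows `x` -/
noncomputable def Fr (L n1 n2 n3 : ℕ) (p : ℕ → ℕ → ℕ → Fin 3 → ℕ) (U : (Fin 3 → ℕ) → ℝ)
    (f w : ℕ → ℝ) (Φ : (Fin 3 → ℕ) → ℕ → ℝ) : ℝ :=
  Real.sqrt (∑ v ∈ range L, ∑ x ∈ range n1, (∑ y ∈ range n2,
    (∑ i ∈ range n3, f i * (U (p x y i) * Φ (p x y i) v)) * w y) ^ 2)

theorem Fr_add (L n1 n2 n3 : ℕ) (p : ℕ → ℕ → ℕ → Fin 3 → ℕ) (U : (Fin 3 → ℕ) → ℝ)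
    (f w : ℕ → ℝ) (φ ψ : (Fin 3 → ℕ) → ℕ → ℝ) :
    Fr L n1 n2 n3 p U f w (fun h v => φ h v + ψ h v) ≤
      Fr L n1 n2 n3 p U f w φ + Fr L n1 n2 n3 p U f w ψ := by
  refine le_trans (le_of_eq ?_) mink
  unfold Fr
  congr 1
  refine Finset.sum_congr rfl fun v _ => Finset.sum_congr rfl fun x _ => ?_
  congr 1
  rw [← Finset.sum_add_distrib]
  refine Finset.sum_congr rfl fun y _ => ?_
  rw [← add_mul, ← Finset.sum_add_distrib]
  congr 1
  exact Finset.sum_congr rfl fun i _ => by ring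

theorem Fr_cg {L n1 n2 n3 : ℕ} {p : ℕ → ℕ → ℕ → Fin 3 → ℕ} {U : (Fin 3 → ℕ) → ℝ}
    {f w : ℕ → ℝ} {φ ψ : (Fin 3 → ℕ) → ℕ → ℝ}
    (h : ∀ x y i v, x < n1 → y < n2 → i < n3 → v < L → φ (p x y i) v = ψ (p x y i) v) :
    Fr L n1 n2 n3 p U f w ψ ≤ Fr L n1 n2 n3 p U f w φ := by
  unfold Fr
  refine le_of_eq ?_
  congr 1
  refine Finset.sum_congr rfl fun v hv => Finset.sum_congr rfl fun x hx => ?_
  congr 1
  refine Finset.sum_congr rfl fun y hy => ?_
  congr 1
  refine Finset.sum_congr rfl fun i hi => ?_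
  rw [h x y i v (Finset.mem_range.1 hx) (Finset.mem_range.1 hy) (Finset.mem_range.1 hi)
    (Finset.mem_range.1 hv)]

/-- the estimate for atoms -/
theorem Fr_atom {L N R n1 n2 n3 : ℕ} {p : ℕ → ℕ → ℕ → Fin 3 → ℕ} {u : (Fin 3 → ℕ) → ℝ}
    {lam : ℝ} (hlam : 0 ≤ lam) {f w a b : ℕ → ℝ} {W : ℕ → ℕ → ℝ} {w0 : ℝ} (h1 : n1 ≤ L)
    (h3 : n3 ≤ L) (hf : ∀ n, |f n| ≤ 1) (ha : ∀ n, |a n| ≤ 1) (hb : ∀ n, |b n| ≤ 1)
    (hu : ∀ q, |u q| ≤ 1) (hband : ∀ x y i, R < dst (x + y + i) N → u (p x y i) = 0)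
    (hW : BF L W 1) :
    Real.sqrt (∑ v ∈ range L, ∑ x ∈ range n1, (∑ y ∈ range n2,
      (∑ i ∈ range n3, f i * (lam * u (p x y i) * (w0 * (a x * b y * W i v)))) * w y) ^ 2) ≤
      |w0| * ((2 * (R : ℝ) + 1) * lam * Real.sqrt L * Real.sqrt (∑ y ∈ range n2, w y ^ 2)) := by
  set Wn := ∑ y ∈ range n2, w y ^ 2 with hWn
  have hWn0 : 0 ≤ Wn := Finset.sum_nonneg fun _ _ => sq_nonneg _
  have key : ∑ v ∈ range L, ∑ x ∈ range n1, (∑ y ∈ range n2,
      (∑ i ∈ range n3, f i * (lam * u (p x y i) * (w0 * (a x * b y * W i v)))) * w y) ^ 2 ≤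
      w0 ^ 2 * ((2 * (R : ℝ) + 1) ^ 2 * lam ^ 2 * L * Wn) := by
    rw [Finset.sum_comm]
    have hx : ∀ x ∈ range n1, ∑ v ∈ range L, (∑ y ∈ range n2,
        (∑ i ∈ range n3, f i * (lam * u (p x y i) * (w0 * (a x * b y * W i v)))) * w y) ^ 2 ≤
        w0 ^ 2 * ((2 * (R : ℝ) + 1) ^ 2 * lam ^ 2 * Wn) := by
      intro x _
      set χ : ℕ → ℝ := fun i => ∑ y ∈ range n2, (f i * u (p x y i) * b y) * w y with hχ
      have e1 : ∀ v, ∑ y ∈ range n2,
          (∑ i ∈ range n3, f i * (lam * u (p x y i) * (w0 * (a x * b y * W i v)))) * w y =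
          (w0 * lam * a x) * ∑ i ∈ range n3, χ i * W i v := by
        intro v
        rw [Finset.mul_sum]
        simp only [hχ, Finset.sum_mul, Finset.mul_sum]
        rw [Finset.sum_comm]
        exact Finset.sum_congr rfl fun i _ => Finset.sum_congr rfl fun y _ => by ring
      have e2 : ∑ v ∈ range L, (∑ y ∈ range n2,
          (∑ i ∈ range n3, f i * (lam * u (p x y i) * (w0 * (a x * b y * W i v)))) * w y) ^ 2 =
          (w0 * lam * a x) ^ 2 * ∑ v ∈ range L, (∑ i ∈ range n3, χ i * W i v) ^ 2 := by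
        rw [Finset.mul_sum]
        exact Finset.sum_congr rfl fun v _ => by rw [e1, mul_pow]
      rw [e2]
      have h4 := bf_short hW h3 χ
      have h5 := schur (n1 := n3) (n2 := n2) (N := N) (R := R) (s := x)
        (B := fun i y => f i * u (p x y i) * b y) (fun i y => by
          rw [abs_mul, abs_mul]
          exact mul_le_one₀ (mul_le_one₀ (hf i) (abs_nonneg _) (hu _)) (abs_nonneg _) (hb y))
        (fun i y h => by
          have : u (p x y i) = 0 := by
            apply hband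
            have e : x + y + i = y + i + x := by omega
            rw [e]
            exact h
          rw [this]
          ring) w
      have h6 : a x ^ 2 ≤ 1 := by
        rw [← sq_abs]
        exact pow_le_one₀ (abs_nonneg _) (ha x)
      have h7 : (0 : ℝ) ≤ ∑ v ∈ range L, (∑ i ∈ range n3, χ i * W i v) ^ 2 :=
        Finset.sum_nonneg fun _ _ => sq_nonneg _
      calc (w0 * lam * a x) ^ 2 * ∑ v ∈ range L, (∑ i ∈ range n3, χ i * W i v) ^ 2 =
          (w0 ^ 2 * lam ^ 2) * (a x ^ 2 * ∑ v ∈ range L, (∑ i ∈ range n3, χ i * W i v) ^ 2) := by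
            ring
        _ ≤ (w0 ^ 2 * lam ^ 2) * (1 * ((2 * (R : ℝ) + 1) ^ 2 * Wn)) := by
            apply mul_le_mul_of_nonneg_left _ (by positivity)
            exact mul_le_mul h6 (h4.trans h5) h7 zero_le_one
        _ = _ := by ring
    refine (Finset.sum_le_sum hx).trans ?_
    rw [Finset.sum_const, nsmul_eq_mul, Finset.card_range]
    have : (n1 : ℝ) ≤ L := by exact_mod_cast h1
    calc (n1 : ℝ) * (w0 ^ 2 * ((2 * (R : ℝ) + 1) ^ 2 * lam ^ 2 * Wn)) ≤
        L * (w0 ^ 2 * ((2 * (R : ℝ) + 1) ^ 2 * lam ^ 2 * Wn)) :=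
          mul_le_mul_of_nonneg_right this (by positivity)
      _ = _ := by ring
  rw [Real.sqrt_le_left (by positivity)]
  refine key.trans (le_of_eq ?_)
  have e1 := Real.sq_sqrt (Nat.cast_nonneg (α := ℝ) L)
  have e2 := Real.sq_sqrt hWn0
  calc w0 ^ 2 * ((2 * (R : ℝ) + 1) ^ 2 * lam ^ 2 * L * Wn) =
      |w0| ^ 2 * ((2 * (R : ℝ) + 1) ^ 2 * lam ^ 2 * (Real.sqrt L ^ 2) * (Real.sqrt Wn ^ 2)) := by
        rw [e1, e2, sq_abs]
    _ = _ := by ring

theorem sq_of_sqrt {A K W L : ℝ} (hA : 0 ≤ A) (hL : 0 ≤ L) (hW : 0 ≤ W)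
    (h : Real.sqrt A ≤ K * Real.sqrt L * Real.sqrt W) : A ≤ K ^ 2 * L * W := by
  have h1 := pow_le_pow_left₀ (Real.sqrt_nonneg A) h 2
  rw [Real.sq_sqrt hA, mul_pow, mul_pow, Real.sq_sqrt hL, Real.sq_sqrt hW] at h1
  exact h1

end G25

open G25

theorem sfy_25 : StSfy := by
  intro L N R lam g0 c H u f Φ hH hlam hf hu hband hΦ
  have hdm : ∀ x y i, x < H (c + 1) → y < H (c + 2) → i < H c → cls c x y i ∈ Dom H c := by
    intro x y i hx hy hi
    exact ⟨cls_le hi.le hx.le hy.le, by rw [cls_c]; exact hi⟩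
  constructor
  · intro w
    have key := sepW_le hΦ (fun Φ => Fr L (H (c + 1)) (H (c + 2)) (H c)
      (fun x y i => cls c x y i) (fun q => lam * u q) f w Φ)
      ((2 * (R : ℝ) + 1) * lam * Real.sqrt L *
        Real.sqrt (∑ y ∈ range (H (c + 2)), w y ^ 2)) (by positivity) ?_ ?_ ?_
    · apply sq_of_sqrt (Finset.sum_nonneg fun _ _ => Finset.sum_nonneg fun _ _ => sq_nonneg _)
        (Nat.cast_nonneg L) (Finset.sum_nonneg fun _ _ => sq_nonneg _)
      refine le_trans key (le_of_eq ?_)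
      ring
    · intro w0 W α α' hW hα hα'
      have h1 := Fr_atom (p := fun x y i => cls c x y i) (u := u) hlam (f := f) (w := w) (a := α)
        (b := α') (W := W) (w0 := w0) (n2 := H (c + 2)) (hH (c + 1)) (hH c) hf hα hα' hu
        (fun x y i h => hband _ (by rw [cls_sum]; exact h)) hW
      refine le_trans (le_of_eq ?_) h1
      unfold Fr
      simp only [cls_c, cls_1, cls_2]
    · intro φ ψ
      exact Fr_add _ _ _ _ _ _ _ _ φ ψ
    · intro φ ψ h
      exact Fr_cg fun x y i v hx hy hi hv => h _ (hdm x y i hx hy hi) v hv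
  · intro w
    have key := sepW_le hΦ (fun Φ => Fr L (H (c + 2)) (H (c + 1)) (H c)
      (fun y x i => cls c x y i) (fun q => lam * u q) f w Φ)
      ((2 * (R : ℝ) + 1) * lam * Real.sqrt L *
        Real.sqrt (∑ x ∈ range (H (c + 1)), w x ^ 2)) (by positivity) ?_ ?_ ?_
    · apply sq_of_sqrt (Finset.sum_nonneg fun _ _ => Finset.sum_nonneg fun _ _ => sq_nonneg _)
        (Nat.cast_nonneg L) (Finset.sum_nonneg fun _ _ => sq_nonneg _)
      refine le_trans key (le_of_eq ?_)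
      ring
    · intro w0 W α α' hW hα hα'
      have h1 := Fr_atom (p := fun y x i => cls c x y i) (u := u) hlam (f := f) (w := w) (a := α')
        (b := α) (W := W) (w0 := w0) (n2 := H (c + 1)) (hH (c + 2)) (hH c) hf hα' hα hu
        (fun y x i h => hband _ (by
          rw [cls_sum]
          have : x + y + i = y + x + i := by omega
          rw [this]
          exact h)) hW
      refine le_trans (le_of_eq ?_) h1
      unfold Fr
      congr 1
      refine Finset.sum_congr rfl fun v _ => Finset.sum_congr rfl fun y _ => ?_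
      congr 1
      refine Finset.sum_congr rfl fun x _ => ?_
      congr 1
      refine Finset.sum_congr rfl fun i _ => ?_
      simp only [cls_c, cls_1, cls_2]
      ring
    · intro φ ψ
      exact Fr_add _ _ _ _ _ _ _ _ φ ψ
    · intro φ ψ h
      exact Fr_cg fun y x i v hy hx hi hv => h _ (hdm x y i hx hy hi) v hv

end Pool.Agent.SHX
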