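import Pool.Agent.Lib.MP_a7b2aa_an.SHD.Stmts4_25

/-!
SHX (chair: helper74): MP_a7b2aa_an, dimension `d = 3`, all coefficients, gain `1 / 2 - ε`.
Definitions and statements (as `Prop`s) of the modules. Proof text: SHX_74.md.

Strings `0, 1, 2`; a class is `h : Fin 3 → ℕ`; `be c h`: bias of the sign `h c` of string `c`, given
the class `h`; `ka c h`: covariance of the next signs of the two strings other than `c`.
-/

set_option autoImplicit false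

namespace Pool.Agent.SHX

open Finset Pool.Agent.SB3 Pool.Agent.SBT Pool.Agent.SBD Pool.Agent.SHD

/-! ### part 0: pointwise objects -/

/-- one more sign of string `c` -/
def up (h : Fin 3 → ℕ) (c : Fin 3) : Fin 3 → ℕ := Function.update h c (h c + 1)

/-- the class with `i` signs of string `c`, `x` of string `c + 1`, `y` of string `c + 2` -/
def cls (c : Fin 3) (x y i : ℕ) : Fin 3 → ℕ := fun e => if e = c then i else if e = c + 1 then x else y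

/-- the recentred sign `z / (1 + z β)` -/
noncomputable def zt (z : Fin 3 → ℕ → ℝ) (be : Fin 3 → (Fin 3 → ℕ) → ℝ) (c : Fin 3)
    (h : Fin 3 → ℕ) : ℝ := z c (h c) / (1 + z c (h c) * be c h)

/-- `1 / (1 - β ^ 2)` -/
noncomputable def ph (be : Fin 3 → (Fin 3 → ℕ) → ℝ) (c : Fin 3) (h : Fin 3 → ℕ) : ℝ :=
  1 / (1 - be c h ^ 2)

/-- mixed difference of `be c` in the directions `c + 1`, `c + 2` -/
def DB (be : Fin 3 → (Fin 3 → ℕ) → ℝ) (c : Fin 3) (h : Fin 3 → ℕ) : ℝ :=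
  be c (up (up h (c + 1)) (c + 2)) - be c (up h (c + 1)) - be c (up h (c + 2)) + be c h

/-- euclidean norm of the first `L` entries -/
noncomputable def nr (L : ℕ) (x : ℕ → ℝ) : ℝ := Real.sqrt (∑ p ∈ range L, x p ^ 2)

/-- the matrix `M` (rows and columns below `L`) has operator norm at most `k`, as bilinear form -/
def BF (L : ℕ) (M : ℕ → ℕ → ℝ) (k : ℝ) : Prop := ∀ x y : ℕ → ℝ,
  |∑ p ∈ range L, ∑ q ∈ range L, x p * M p q * y q| ≤ k * (nr L x * nr L y)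

/-- the twisted source matrix: rows string `c + 1`, columns string `c + 2`, indices below `E`
(`E = h` or `E = up h c0`) -/
noncomputable def YP (lam : ℝ) (z : Fin 3 → ℕ → ℝ) (u : (Fin 3 → ℕ) → ℝ)
    (be : Fin 3 → (Fin 3 → ℕ) → ℝ) (c : Fin 3) (f : ℕ → ℝ) (h E : Fin 3 → ℕ) (x y : ℕ) : ℝ :=
  if x < E (c + 1) ∧ y < E (c + 2) then
    ∑ i ∈ range (h c), f i * (lam * u (cls c x y i) * zt z be c (cls c x y i)) else 0

/-- the twisted bias -/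
noncomputable def BP (be : Fin 3 → (Fin 3 → ℕ) → ℝ) (c : Fin 3) (f g : ℕ → ℝ)
    (h : Fin 3 → ℕ) : ℝ :=
  ∑ t ∈ range (h (c + 1)), ∑ r ∈ range (h (c + 2)), f t * g r * DB be c (cls c t r (h c))

/-- the exact system on the classes `≤ H` -/
structure PS (lam : ℝ) (z : Fin 3 → ℕ → ℝ) (u : (Fin 3 → ℕ) → ℝ)
    (be ka : Fin 3 → (Fin 3 → ℕ) → ℝ) (H : Fin 3 → ℕ) : Prop where
  sq : ∀ c j, z c j * z c j = 1
  be0 : ∀ c h, h (c + 1) = 0 ∨ h (c + 2) = 0 → be c h = 0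
  ka0 : ∀ c h, h c = 0 → ka c h = 0
  rk : ∀ c h, ka c (up h c) = ka c h + lam * u h * zt z be c h -
    ka (c + 1) h * ka (c + 2) h * zt z be c h ^ 2
  rb1 : ∀ c h, h ≤ H → h (c + 1) < H (c + 1) →
    be c (up h (c + 1)) = be c h + ka (c + 2) h * zt z be (c + 1) h
  rb2 : ∀ c h, h ≤ H → h (c + 2) < H (c + 2) →
    be c (up h (c + 2)) = be c h + ka (c + 1) h * zt z be (c + 2) h
  bd : ∀ c h, h ≤ H → h c < H c → |be c h| ≤ 1 / 2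

/-- classes `≤ H` with a next sign of string `c` -/
def Dom (H : Fin 3 → ℕ) (c : Fin 3) : Set (Fin 3 → ℕ) := {h | h ≤ H ∧ h c < H c}

/-- classes `≤ H`, indices of the strings `c + 1`, `c + 2` below `E` (`E = H` or `E = up H c0`) -/
def Dom2 (H E : Fin 3 → ℕ) (c : Fin 3) : Set (Fin 3 → ℕ) :=
  {h | h ≤ H ∧ h (c + 1) < E (c + 1) ∧ h (c + 2) < E (c + 2)}

/-! ### part I: projective norms -/

/-- separated functions of the class, on the set `D` -/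
inductive Sep3 (D : Set (Fin 3 → ℕ)) : ℝ → ((Fin 3 → ℕ) → ℝ) → Prop
  | atom (w : ℝ) (α : Fin 3 → ℕ → ℝ) (hα : ∀ c n, |α c n| ≤ 1) :
      Sep3 D |w| (fun h => w * (α 0 (h 0) * α 1 (h 1) * α 2 (h 2)))
  | add {a b : ℝ} {φ ψ : (Fin 3 → ℕ) → ℝ} : Sep3 D a φ → Sep3 D b ψ →
      Sep3 D (a + b) (fun h => φ h + ψ h)
  | le {a b : ℝ} {φ ψ : (Fin 3 → ℕ) → ℝ} : Sep3 D a φ → a ≤ b → (∀ h ∈ D, φ h = ψ h) →
      Sep3 D b ψ

/-- separated arrays for the strings `c + 1`, `c + 2`, level `h c` -/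
inductive SepM (L : ℕ) (c : Fin 3) (D : Set (Fin 3 → ℕ)) : ℝ → ((Fin 3 → ℕ) → ℝ) → Prop
  | atom (w : ℝ) (M : ℕ → ℕ → ℝ) (d : ℕ → ℝ) (hM : BF L M 1) (hd : ∀ n, |d n| ≤ 1) :
      SepM L c D |w| (fun h => w * (M (h (c + 1)) (h (c + 2)) * d (h c)))
  | add {a b : ℝ} {φ ψ : (Fin 3 → ℕ) → ℝ} : SepM L c D a φ → SepM L c D b ψ →
      SepM L c D (a + b) (fun h => φ h + ψ h)
  | le {a b : ℝ} {φ ψ : (Fin 3 → ℕ) → ℝ} : SepM L c D a φ → a ≤ b → (∀ h ∈ D, φ h = ψ h) →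
      SepM L c D b ψ

/-- separated kernels: own index `h c`, second index `v < L`, levels `h (c + 1)`, `h (c + 2)` -/
inductive SepW (L : ℕ) (c : Fin 3) (D : Set (Fin 3 → ℕ)) :
    ℝ → ((Fin 3 → ℕ) → ℕ → ℝ) → Prop
  | atom (w : ℝ) (W : ℕ → ℕ → ℝ) (α α' : ℕ → ℝ) (hW : BF L W 1) (hα : ∀ n, |α n| ≤ 1)
      (hα' : ∀ n, |α' n| ≤ 1) :
      SepW L c D |w| (fun h v => w * (α (h (c + 1)) * α' (h (c + 2)) * W (h c) v))
  | add {a b : ℝ} {φ ψ : (Fin 3 → ℕ) → ℕ → ℝ} : SepW L c D a φ → SepW L c D b ψ →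
      SepW L c D (a + b) (fun h v => φ h v + ψ h v)
  | le {a b : ℝ} {φ ψ : (Fin 3 → ℕ) → ℕ → ℝ} : SepW L c D a φ → a ≤ b →
      (∀ h ∈ D, ∀ v < L, φ h v = ψ h v) → SepW L c D b ψ

/-- truncation as a separated sum -/
structure Trn (L K : ℕ) (T : ℝ) (cf : Fin K → ℝ) (f g : Fin K → ℕ → ℝ) : Prop where
  sum : ∑ k, |cf k| ≤ T
  f1 : ∀ k n, |f k n| ≤ 1
  g1 : ∀ k n, |g k n| ≤ 1
  eq : ∀ i j, i ≤ L → j ≤ L → ∑ k, cf k * (f k i * g k j) = if i < j then 1 else 0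

/-- TRN: dyadic intervals and Walsh characters -/
def StTrn : Prop := ∀ L : ℕ, 1 ≤ L → ∃ (K : ℕ) (cf : Fin K → ℝ) (f g : Fin K → ℕ → ℝ),
  K ≤ 4 * L ∧ Trn L K ((Nat.log 2 L : ℝ) + 2) cf f g

/-- BFA: algebra of bilinear forms -/
structure Bfa (L : ℕ) : Prop where
  add : ∀ (M M' : ℕ → ℕ → ℝ) (k k' : ℝ), BF L M k → BF L M' k' →
    BF L (fun p q => M p q + M' p q) (k + k')
  smul : ∀ (M : ℕ → ℕ → ℝ) (k w : ℝ), BF L M k → BF L (fun p q => w * M p q) (|w| * k)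
  tr : ∀ (M : ℕ → ℕ → ℝ) (k : ℝ), BF L M k → BF L (fun p q => M q p) k
  mul : ∀ (M M' : ℕ → ℕ → ℝ) (k k' : ℝ), 0 ≤ k → 0 ≤ k' → BF L M k → BF L M' k' →
    BF L (fun p q => ∑ j ∈ range L, M p j * M' j q) (k * k')
  diag : ∀ (M : ℕ → ℕ → ℝ) (k : ℝ) (a b : ℕ → ℝ), 0 ≤ k → (∀ n, |a n| ≤ 1) → (∀ n, |b n| ≤ 1) →
    BF L M k → BF L (fun p q => a p * M p q * b q) k
  vec : ∀ (M : ℕ → ℕ → ℝ) (k : ℝ) (x : ℕ → ℝ), 0 ≤ k → BF L M k →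
    nr L (fun p => ∑ q ∈ range L, M p q * x q) ≤ k * nr L x
  col : ∀ (M : ℕ → ℕ → ℝ) (k : ℝ) (q : ℕ), 0 ≤ k → BF L M k → q < L → nr L (fun p => M p q) ≤ k
  entry : ∀ (M : ℕ → ℕ → ℝ) (k : ℝ) (p q : ℕ), 0 ≤ k → BF L M k → p < L → q < L → |M p q| ≤ k
  nadd : ∀ x y : ℕ → ℝ, nr L (fun p => x p + y p) ≤ nr L x + nr L y
  nsmul : ∀ (w : ℝ) (x : ℕ → ℝ), nr L (fun p => w * x p) = |w| * nr L x
  nbd : ∀ (x : ℕ → ℝ) (B : ℝ), 0 ≤ B → (∀ p < L, |x p| ≤ B) → nr L x ≤ B * Real.sqrt L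
  dot : ∀ x y : ℕ → ℝ, |∑ p ∈ range L, x p * y p| ≤ nr L x * nr L y
  rows : ∀ (M : ℕ → ℕ → ℝ) (B : ℝ) (D : ℕ), 0 ≤ B → (∀ p < L, ∀ q < L, |M p q| ≤ B) →
    (∀ p < L, ((range L).filter (fun q => M p q ≠ 0)).card ≤ D) →
    (∀ q < L, ((range L).filter (fun p => M p q ≠ 0)).card ≤ D) → BF L M (B * D)
  nb : ∀ (M : ℕ → ℕ → ℝ) (k : ℝ), 0 ≤ k →
    (BF L M k ↔ NB (Matrix.of (fun (x y : Fin L) => M x y)) (k ^ 2))

/-- BFA -/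
def StBfa : Prop := ∀ L : ℕ, Bfa L

/-- SEP: algebra of the projective norms. `D` a set of classes in the box `≤ L` -/
structure SepA (L : ℕ) : Prop where
  nn : ∀ (D : Set (Fin 3 → ℕ)) (a : ℝ) (φ : (Fin 3 → ℕ) → ℝ), Sep3 D a φ → 0 ≤ a
  abs : ∀ (D : Set (Fin 3 → ℕ)) (a : ℝ) (φ : (Fin 3 → ℕ) → ℝ), Sep3 D a φ → ∀ h ∈ D, |φ h| ≤ a
  mul : ∀ (D : Set (Fin 3 → ℕ)) (a b : ℝ) (φ ψ : (Fin 3 → ℕ) → ℝ), Sep3 D a φ → Sep3 D b ψ →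
    Sep3 D (a * b) (fun h => φ h * ψ h)
  smul : ∀ (D : Set (Fin 3 → ℕ)) (a w : ℝ) (φ : (Fin 3 → ℕ) → ℝ), Sep3 D a φ →
    Sep3 D (|w| * a) (fun h => w * φ h)
  sub : ∀ (D D' : Set (Fin 3 → ℕ)) (a : ℝ) (φ : (Fin 3 → ℕ) → ℝ), D' ⊆ D → Sep3 D a φ →
    Sep3 D' a φ
  inv : ∀ (D : Set (Fin 3 → ℕ)) (φ : (Fin 3 → ℕ) → ℝ), (∀ h ∈ D, ∀ c, h c ≤ L) →
    Sep3 D (1 / 4) φ → Sep3 D 2 (fun h => 1 / (1 - φ h ^ 2))
  mnn : ∀ (c : Fin 3) (D : Set (Fin 3 → ℕ)) (a : ℝ) (φ : (Fin 3 → ℕ) → ℝ), SepM L c D a φ → 0 ≤ a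
  mact : ∀ (c : Fin 3) (D : Set (Fin 3 → ℕ)) (a b : ℝ) (φ κ : (Fin 3 → ℕ) → ℝ), Sep3 D a φ →
    SepM L c D b κ → SepM L c D (a * b) (fun h => φ h * κ h)
  msub : ∀ (c : Fin 3) (D D' : Set (Fin 3 → ℕ)) (a : ℝ) (φ : (Fin 3 → ℕ) → ℝ), D' ⊆ D →
    SepM L c D a φ → SepM L c D' a φ
  wnn : ∀ (c : Fin 3) (D : Set (Fin 3 → ℕ)) (a : ℝ) (φ : (Fin 3 → ℕ) → ℕ → ℝ), SepW L c D a φ →
    0 ≤ a
  wact : ∀ (c : Fin 3) (D : Set (Fin 3 → ℕ)) (a b : ℝ) (φ : (Fin 3 → ℕ) → ℝ)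
    (κ : (Fin 3 → ℕ) → ℕ → ℝ), Sep3 D a φ → SepW L c D b κ →
    SepW L c D (a * b) (fun h v => φ h * κ h v)

/-- SEP (from BFA) -/
def StSepA : Prop := ∀ L : ℕ, 1 ≤ L → SepA L

/-! ### part II: deterministic modules -/

/-- BSEP: the biases are separated (telescoping and TRN) -/
def StBsep : Prop := ∀ (L K : ℕ) (T y : ℝ) (cf : Fin K → ℝ) (f g : Fin K → ℕ → ℝ)
    (be : Fin 3 → (Fin 3 → ℕ) → ℝ) (H : Fin 3 → ℕ) (c : Fin 3), (∀ e, H e ≤ L) → 0 ≤ y →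
    Trn L K T cf f g → (∀ h, h (c + 1) = 0 ∨ h (c + 2) = 0 → be c h = 0) →
    (∀ k l j, j < H c → |BP be c (f k) (f l) (Function.update H c j)| ≤ y) →
    Sep3 (Dom H c) (T ^ 2 * y) (be c)

/-- MPROD: the contraction of two arrays (from BFA, TRN) -/
def StMprod : Prop := ∀ (L K : ℕ) (T : ℝ) (cf : Fin K → ℝ) (f g : Fin K → ℕ → ℝ)
    (H E : Fin 3 → ℕ) (c : Fin 3) (a b w : ℝ) (κ κ' φ : (Fin 3 → ℕ) → ℝ), (∀ e, E e ≤ L) →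
    H ≤ E → Trn L K T cf f g → SepM L (c + 1) (Dom2 H E (c + 1)) a κ →
    SepM L (c + 2) (Dom2 H E (c + 2)) b κ' → Sep3 (Dom H c) w φ →
    SepM L c (Dom2 H E c) (T * (a * b * w)) (fun h => ∑ i ∈ range (h c),
      κ (Function.update h c i) * κ' (Function.update h c i) * φ (Function.update h c i))

/-- RICC: natural norms of the covariances (from MPROD, TRN, SEP) -/
def StRicc : Prop := ∀ (L K : ℕ) (T lam y : ℝ) (cf : Fin K → ℝ) (f g : Fin K → ℕ → ℝ)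
    (z : Fin 3 → ℕ → ℝ) (u : (Fin 3 → ℕ) → ℝ) (be ka : Fin 3 → (Fin 3 → ℕ) → ℝ)
    (H E : Fin 3 → ℕ), 1 ≤ L → (∀ e, E e ≤ L) → H ≤ E → 1 ≤ T → 0 ≤ y → 64 * T ^ 2 * y ≤ 1 →
    Trn L K T cf f g → PS lam z u be ka H → (∀ c, Sep3 (Dom H c) 4 (zt z be c)) →
    (∀ c k, BF L (YP lam z u be c (f k) H E) y) →
    ∀ c, SepM L c (Dom2 H E c) (2 * T * y) (ka c)

/-- the chain kernels: `k` steps from the class `h`, string `c`, to the sign `v` of string `s` -/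
noncomputable def WK (be ka : Fin 3 → (Fin 3 → ℕ) → ℝ) (H : Fin 3 → ℕ) :
    ℕ → Fin 3 → Fin 3 → (Fin 3 → ℕ) → ℕ → ℝ
  | 0, c, s, h, v => if s = c ∧ v = h c then ph be c h else 0
  | n + 1, c, s, h, v => ph be c h *
      ((∑ j ∈ Finset.Ico (h (c + 1)) (H (c + 1)), ka (c + 2) (Function.update h (c + 1) j) *
          WK be ka H n (c + 1) s (Function.update h (c + 1) j) v) +
        ∑ j ∈ Finset.Ico (h (c + 2)) (H (c + 2)),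
          ka (c + 1) (Function.update (Function.update h (c + 1) (H (c + 1))) (c + 2) j) *
          WK be ka H n (c + 2) s
            (Function.update (Function.update h (c + 1) (H (c + 1))) (c + 2) j) v)

/-- the remainder after `n` steps -/
noncomputable def RK (z : Fin 3 → ℕ → ℝ) (be ka : Fin 3 → (Fin 3 → ℕ) → ℝ) (H : Fin 3 → ℕ) :
    ℕ → Fin 3 → (Fin 3 → ℕ) → ℝ
  | 0, c, h => zt z be c h
  | n + 1, c, h => ph be c h *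
      ((∑ j ∈ Finset.Ico (h (c + 1)) (H (c + 1)), ka (c + 2) (Function.update h (c + 1) j) *
          RK z be ka H n (c + 1) (Function.update h (c + 1) j)) +
        ∑ j ∈ Finset.Ico (h (c + 2)) (H (c + 2)),
          ka (c + 1) (Function.update (Function.update h (c + 1) (H (c + 1))) (c + 2) j) *
          RK z be ka H n (c + 2)
            (Function.update (Function.update h (c + 1) (H (c + 1))) (c + 2) j))

/-- CHID: the chain identity -/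
def StChid : Prop := ∀ (lam : ℝ) (z : Fin 3 → ℕ → ℝ) (u : (Fin 3 → ℕ) → ℝ)
    (be ka : Fin 3 → (Fin 3 → ℕ) → ℝ) (H : Fin 3 → ℕ), PS lam z u be ka H →
    ∀ (n : ℕ) (c : Fin 3) (h : Fin 3 → ℕ), h ∈ Dom H c →
    zt z be c h = ∑ k ∈ range n, ∑ s : Fin 3, ∑ v ∈ range (H s),
      WK be ka H k c s h v * (z s v - be s (Function.update H s v)) + RK z be ka H n c h

/-- CHSEP: norms of the chain kernels and of the remainder (from BFA, TRN, SEP) -/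
def StChsep : Prop := ∀ (L K : ℕ) (T k0 : ℝ) (cf : Fin K → ℝ) (f g : Fin K → ℕ → ℝ)
    (z : Fin 3 → ℕ → ℝ) (be ka : Fin 3 → (Fin 3 → ℕ) → ℝ) (H : Fin 3 → ℕ), 1 ≤ L →
    (∀ e, H e ≤ L) → Trn L K T cf f g → (∀ c, Sep3 (Dom H c) 2 (ph be c)) →
    (∀ c, Sep3 (Dom H c) 4 (zt z be c)) → (∀ c, SepM L c (Dom2 H H c) k0 (ka c)) →
    ∀ (n : ℕ) (c : Fin 3),
      (∀ s, SepW L c (Dom H c) (2 * (4 * T * k0) ^ n) (WK be ka H n c s)) ∧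
      SepW L c (Dom H c) (4 * Real.sqrt L * (4 * T * k0) ^ n)
        (fun h v => if v = 0 then RK z be ka H n c h else 0)

/-- CONB: contraction of a kernel with weights `G t r`, string `c + 2`, class
`(c : i, c + 1 : t + 1, c + 2 : r)`; and the same for string `c + 1` (from BFA) -/
def StConb : Prop := ∀ (L i N1 N2 : ℕ) (c : Fin 3) (H : Fin 3 → ℕ) (g0 N : ℝ)
    (G : ℕ → ℕ → ℝ) (Φ : (Fin 3 → ℕ) → ℕ → ℝ), (∀ e, H e ≤ L) → i ≤ H c → 0 ≤ N →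
    N1 ≤ H (c + 1) → N2 ≤ H (c + 2) →
    ((∀ α : ℕ → ℝ, (∀ n, |α n| ≤ 1) →
        nr L (fun r => if r < N2 then ∑ t ∈ range N1, G t r * α t else 0) ≤ N) →
      SepW L (c + 2) (Dom H (c + 2)) g0 Φ →
      nr L (fun v => ∑ t ∈ range N1, ∑ r ∈ range N2, G t r * Φ (cls c (t + 1) r i) v) ≤ g0 * N) ∧
    ((∀ α : ℕ → ℝ, (∀ n, |α n| ≤ 1) →
        nr L (fun t => if t < N1 then ∑ r ∈ range N2, G t r * α r else 0) ≤ N) →
      SepW L (c + 1) (Dom H (c + 1)) g0 Φ →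
      nr L (fun v => ∑ t ∈ range N1, ∑ r ∈ range N2, G t r * Φ (cls c t (r + 1) i) v) ≤ g0 * N)

/-- DBID: the mixed difference of the bias (identity) -/
def StDbid : Prop := ∀ (lam : ℝ) (z : Fin 3 → ℕ → ℝ) (u : (Fin 3 → ℕ) → ℝ)
    (be ka : Fin 3 → (Fin 3 → ℕ) → ℝ) (H : Fin 3 → ℕ), PS lam z u be ka H →
    ∀ (c : Fin 3) (h : Fin 3 → ℕ), h ∈ Dom2 H H c →
    DB be c h = lam * u h * zt z be (c + 1) h * zt z be (c + 2) (up h (c + 1)) -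
      ka c h * ka (c + 2) h * zt z be (c + 1) h ^ 2 * zt z be (c + 2) (up h (c + 1)) -
      ka c h * ka (c + 1) h * zt z be (c + 2) h ^ 2 * zt z be (c + 1) (up h (c + 2))

/-! ### part III: the global system -/

/-- the data: size, source array, biases and covariances, truncation, threshold -/
structure Cx (L : ℕ) where
  lam : ℝ
  u : (Fin 3 → ℕ) → Pt 2 L → ℝ
  be : Fin 3 → (Fin 3 → ℕ) → Pt 2 L → ℝ
  ka : Fin 3 → (Fin 3 → ℕ) → Pt 2 L → ℝ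
  K : ℕ
  T : ℝ
  cf : Fin K → ℝ
  f : Fin K → ℕ → ℝ
  g : Fin K → ℕ → ℝ
  y : ℝ

/-- the signs at the point `ω` -/
noncomputable def zp {L : ℕ} (ω : Pt 2 L) : Fin 3 → ℕ → ℝ := fun c j => sb c j ω

/-- good classes -/
def Cx.Gd {L : ℕ} (X : Cx L) (h : Fin 3 → ℕ) (ω : Pt 2 L) : Prop :=
  (∀ c k, BF L (YP X.lam (zp ω) (fun q => X.u q ω) (fun e q => X.be e q ω) c (X.f k) h h) X.y) ∧
    ∀ c k l, h c < L → |BP (fun e q => X.be e q ω) c (X.f k) (X.f l) h| ≤ X.y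

/-- all classes `≤ h` are good -/
def Cx.GA {L : ℕ} (X : Cx L) (h : Fin 3 → ℕ) (ω : Pt 2 L) : Prop := ∀ q, q ≤ h → X.Gd q ω

/-- all classes `< h` are good -/
def Cx.GB {L : ℕ} (X : Cx L) (h : Fin 3 → ℕ) (ω : Pt 2 L) : Prop := ∀ q, q < h → X.Gd q ω

open Classical in
/-- the gated bias -/
noncomputable def Cx.bh {L : ℕ} (X : Cx L) (s : Fin 3) (h : Fin 3 → ℕ) (ω : Pt 2 L) : ℝ :=
  if X.GA h ω then X.be s h ω else 0

/-- the law of the class `H`, string `s` last -/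
noncomputable def Cx.Z {L : ℕ} (X : Cx L) (s : Fin 3) (H : Fin 3 → ℕ) (ω : Pt 2 L) : ℝ :=
  ∏ v ∈ range (H s), (1 + sb s v ω * X.bh s (Function.update H s v) ω)

/-- the assumptions on the data -/
structure Cx.Ok {L : ℕ} (X : Cx L) (N R : ℕ) : Prop where
  hL : 1 ≤ L
  lam0 : 0 ≤ X.lam
  u1 : ArF N R X.u
  msb : ∀ c h, Ms h (X.be c h)
  msk : ∀ c h, Ms h (X.ka c h)
  be0 : ∀ c h ω, h (c + 1) = 0 ∨ h (c + 2) = 0 → X.be c h ω = 0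
  sys : ∀ (H : Fin 3 → ℕ) (ω : Pt 2 L), (∀ e, H e ≤ L) →
    (∀ c h, h ∈ Dom H c → |X.be c h ω| ≤ 1 / 2) →
    PS X.lam (zp ω) (fun q => X.u q ω) (fun e q => X.be e q ω) (fun e q => X.ka e q ω) H
  trn : Trn L X.K X.T X.cf X.f X.g
  K4 : X.K ≤ 4 * L
  T1 : 1 ≤ X.T
  y0 : 0 < X.y
  ysmall : 256 * X.T ^ 2 * X.y ≤ 1
  lsmall : 2 * (2 * (R : ℝ) + 1) * X.lam * Real.sqrt L ≤ X.y

/-- EXIS: existence of the exact system for every flat band array -/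
def StExis : Prop := ∀ (L N R : ℕ) (lam : ℝ) (u : (Fin 3 → ℕ) → Pt 2 L → ℝ), ArF N R u →
  ∃ be ka : Fin 3 → (Fin 3 → ℕ) → Pt 2 L → ℝ,
    (∀ c h, Ms h (be c h)) ∧ (∀ c h, Ms h (ka c h)) ∧
    (∀ c h ω, h (c + 1) = 0 ∨ h (c + 2) = 0 → be c h ω = 0) ∧
    ∀ (H : Fin 3 → ℕ) (ω : Pt 2 L), (∀ e, H e ≤ L) →
      (∀ c h, h ∈ Dom H c → |be c h ω| ≤ 1 / 2) →
      PS lam (zp ω) (fun q => u q ω) (fun e q => be e q ω) (fun e q => ka e q ω) H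

/-- what holds at the point `ω` for the box `H` -/
structure Cx.Det {L : ℕ} (X : Cx L) (H : Fin 3 → ℕ) (ω : Pt 2 L) : Prop where
  ps : PS X.lam (zp ω) (fun q => X.u q ω) (fun e q => X.be e q ω) (fun e q => X.ka e q ω) H
  b : ∀ c, Sep3 (Dom H c) (1 / 4) (fun h => X.be c h ω)
  z : ∀ c, Sep3 (Dom H c) 4 (zt (zp ω) (fun e q => X.be e q ω) c)
  p : ∀ c, Sep3 (Dom H c) 2 (ph (fun e q => X.be e q ω) c)
  k : ∀ c, SepM L c (Dom2 H H c) (8 * X.T * X.y) (fun h => X.ka c h ω)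
  k1 : ∀ c0, H c0 < L → ∀ c, SepM L c (Dom2 H (up H c0) c) (8 * X.T * X.y) (fun h => X.ka c h ω)

/-- GDET: below a class all of whose predecessors are good, everything is natural
(from BSEP, SEP, RICC) -/
def StGdet : Prop := ∀ (L N R : ℕ) (X : Cx L) (H : Fin 3 → ℕ) (ω : Pt 2 L), X.Ok N R →
  (∀ e, H e ≤ L) → X.GB H ω → X.Det H ω

/-- GDBE: the bias at a good class is small (from BSEP, SEP) -/
def StGdbe : Prop := ∀ (L N R : ℕ) (X : Cx L) (H : Fin 3 → ℕ) (ω : Pt 2 L) (s : Fin 3), X.Ok N R →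
  (∀ e, H e ≤ L) → H s < L → X.GA H ω → |X.be s H ω| ≤ 1 / 4

/-- GMS: measurability of the good events and of the densities -/
def StGms : Prop := ∀ (L N R : ℕ) (X : Cx L), X.Ok N R → ∀ h : Fin 3 → ℕ,
  Ms h (X.Gd h) ∧ Ms h (X.GA h) ∧ Ms h (X.GB h) ∧ (∀ s, Ms h (X.bh s h)) ∧ ∀ s, Ms h (X.Z s h)

/-- ZLAW: the law (from GDBE, GMS, ALX) -/
def StZlaw : Prop := ∀ (L N R : ℕ) (X : Cx L) (H : Fin 3 → ℕ) (s : Fin 3), X.Ok N R →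
  (∀ e, H e ≤ L) → Law L (X.Z s H) ∧ (∀ ω, 0 < X.Z s H ω) ∧
    ∀ v < H s, ∀ ω, al (X.Z s H) s v ω = X.bh s (Function.update H s v) ω

/-- ZPATH: the density does not depend on the path (from GDBE, PS) -/
def StZpath : Prop := ∀ (L N R : ℕ) (X : Cx L) (H : Fin 3 → ℕ) (ω : Pt 2 L) (s s' : Fin 3),
  X.Ok N R → (∀ e, H e ≤ L) → X.GB H ω → X.Z s H ω = X.Z s' H ω

open Classical in
/-- ZSUP: the killed density is a supermartingale in every direction (from ZPATH, GMS, EEB) -/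
def StZsup : Prop := ∀ (L N R : ℕ) (X : Cx L) (h : Fin 3 → ℕ) (c : Fin 3) (ω : Pt 2 L),
  X.Ok N R → (∀ e, h e ≤ L) → h c < L →
  EE h (fun ω' => if X.GA (up h c) ω' then X.Z 2 (up h c) ω' else 0) ω ≤
    if X.GA h ω then X.Z 2 h ω else 0

open Classical in
/-- the mass of the event that `H` is a minimal bad class -/
noncomputable def Cx.bad {L : ℕ} (X : Cx L) (H : Fin 3 → ℕ) : ℝ :=
  Av (fun ω => if X.GB H ω ∧ ¬ X.Gd H ω then X.Z 2 H ω else 0)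

/-- the full class -/
def top3 (L : ℕ) : Fin 3 → ℕ := fun _ => L

/-- ZUNI: union over the minimal bad classes (from ZSUP, ZLAW, GMS, EEB) -/
def StZuni : Prop := ∀ (L N R : ℕ) (X : Cx L), X.Ok N R →
  Pr (X.Z 2 (top3 L)) (fun ω => ¬ X.GA (top3 L) ω) ≤
    4 * ∑ H ∈ Fintype.piFinset (fun _ : Fin 3 => range (L + 1)), X.bad H

/-- CHMS: the chain kernels are predictable -/
def StChms : Prop := ∀ (L : ℕ) (be ka : Fin 3 → (Fin 3 → ℕ) → Pt 2 L → ℝ) (H : Fin 3 → ℕ),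
  (∀ c h, Ms h (be c h)) → (∀ c h, Ms h (ka c h)) →
  ∀ (n : ℕ) (c s : Fin 3) (h : Fin 3 → ℕ) (v : ℕ), h ∈ Dom H c →
    (v < h s → ∀ ω, WK (fun e q => be e q ω) (fun e q => ka e q ω) H n c s h v = 0) ∧
    Ms (Function.update H s v)
      (fun ω => WK (fun e q => be e q ω) (fun e q => ka e q ω) H n c s h v)

/-! ### part IV: matrix martingales -/

/-- MFR: matrix martingales with bounded square functions, natural size (Golden - Thompson) -/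
def StMfr : Prop := ∀ (n : ℕ) (ε : ℝ), 0 < ε → ∃ C : ℝ, 1 ≤ C ∧
  ∀ (m L : ℕ) (c : Fin (m + 1)) (F : ℕ → Pt m L → Matrix (Fin L) (Fin L) ℝ) (k B : ℝ)
    (ρ : Pt m L → ℝ) (G : Pt m L → Prop), 1 ≤ L → Law k ρ → 0 ≤ B →
    (∀ t, Ms (one L c t) (F t)) →
    (∀ ω, G ω → ∀ w : Fin L → ℝ,
      ∑ t ∈ range L, ∑ x, (∑ y, F t ω x y * w y) ^ 2 ≤ B * ∑ y, w y ^ 2) →
    (∀ ω, G ω → ∀ w : Fin L → ℝ,
      ∑ t ∈ range L, ∑ y, (∑ x, F t ω x y * w x) ^ 2 ≤ B * ∑ x, w x ^ 2) →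
    Pr ρ (fun ω => G ω ∧ ¬ NB (∑ t ∈ range L, (sb c t ω - al ρ c t ω) • F t ω)
      (C * (L : ℝ) ^ ε * B)) ≤ C / (L + 1) ^ n

/-- SFY: square functions for the source matrix (deterministic, from BFA) -/
def StSfy : Prop := ∀ (L N R : ℕ) (lam g0 : ℝ) (c : Fin 3) (H : Fin 3 → ℕ)
    (u : (Fin 3 → ℕ) → ℝ) (f : ℕ → ℝ) (Φ : (Fin 3 → ℕ) → ℕ → ℝ), (∀ e, H e ≤ L) → 0 ≤ lam →
    (∀ n, |f n| ≤ 1) → (∀ q, |u q| ≤ 1) → (∀ q, R < dst (∑ a, q a) N → u q = 0) →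
    SepW L c (Dom H c) g0 Φ →
    (∀ w : ℕ → ℝ, ∑ v ∈ range L, ∑ x ∈ range (H (c + 1)), (∑ y ∈ range (H (c + 2)),
      (∑ i ∈ range (H c), f i * (lam * u (cls c x y i) * Φ (cls c x y i) v)) * w y) ^ 2 ≤
        ((2 * (R : ℝ) + 1) * lam * g0) ^ 2 * L * ∑ y ∈ range (H (c + 2)), w y ^ 2) ∧
    (∀ w : ℕ → ℝ, ∑ v ∈ range L, ∑ y ∈ range (H (c + 2)), (∑ x ∈ range (H (c + 1)),
      (∑ i ∈ range (H c), f i * (lam * u (cls c x y i) * Φ (cls c x y i) v)) * w x) ^ 2 ≤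
        ((2 * (R : ℝ) + 1) * lam * g0) ^ 2 * L * ∑ x ∈ range (H (c + 1)), w x ^ 2)

/-- SFB: the vectors for the twisted bias (deterministic, from BFA, SEP) -/
def StSfb : Prop := ∀ (L N R N1 N2 : ℕ) (lam k0 : ℝ) (c : Fin 3) (H : Fin 3 → ℕ)
    (u ζ : (Fin 3 → ℕ) → ℝ) (ka : Fin 3 → (Fin 3 → ℕ) → ℝ) (f g : ℕ → ℝ), (∀ e, H e ≤ L) →
    0 ≤ lam → (∀ n, |f n| ≤ 1) → (∀ n, |g n| ≤ 1) → (∀ q, |u q| ≤ 1) →
    (∀ q, R < dst (∑ a, q a) N → u q = 0) → N1 = H (c + 1) → N2 = H (c + 2) → H c < L →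
    (∀ e, SepM L e (Dom2 H (up H c) e) k0 (ka e)) →
    ((∀ h ∈ Dom2 H H c, |ζ h| ≤ 2) → ∀ α : ℕ → ℝ, (∀ n, |α n| ≤ 1) →
      nr L (fun r => if r < N2 then ∑ t ∈ range N1, f t * g r *
        (lam * u (cls c t r (H c)) * ζ (cls c t r (H c))) * α t else 0) ≤
        2 * (2 * (R : ℝ) + 1) * lam * Real.sqrt L ∧
      nr L (fun t => if t < N1 then ∑ r ∈ range N2, f t * g r *
        (lam * u (cls c t r (H c)) * ζ (cls c t r (H c))) * α r else 0) ≤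
        2 * (2 * (R : ℝ) + 1) * lam * Real.sqrt L) ∧
    (Sep3 (Dom H (c + 1)) 16 ζ → ∀ α : ℕ → ℝ, (∀ n, |α n| ≤ 1) →
      nr L (fun r => if r < N2 then ∑ t ∈ range N1, f t * g r *
        (ka c (cls c t r (H c)) * ka (c + 2) (cls c t r (H c)) * ζ (cls c t r (H c))) * α t
          else 0) ≤ 16 * k0 ^ 2) ∧
    (Sep3 (Dom H (c + 2)) 16 ζ → ∀ α : ℕ → ℝ, (∀ n, |α n| ≤ 1) →
      nr L (fun t => if t < N1 then ∑ r ∈ range N2, f t * g r *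
        (ka c (cls c t r (H c)) * ka (c + 1) (cls c t r (H c)) * ζ (cls c t r (H c))) * α r
          else 0) ≤ 16 * k0 ^ 2)

/-! ### part V: probabilities and the end -/

open Classical in
/-- PRY: the source matrices are natural (from GDET, CHID, CHSEP, CHMS, SFY, MFR, ZLAW, ZPATH) -/
def StPrY : Prop := ∀ (n n0 : ℕ) (ε : ℝ), 0 < ε → ∃ C : ℝ, 1 ≤ C ∧
  ∀ (L N R : ℕ) (X : Cx L) (H : Fin 3 → ℕ) (c : Fin 3) (k : Fin X.K), X.Ok N R →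
    (∀ e, H e ≤ L) →
    C * (L : ℝ) ^ ε * ((2 * (R : ℝ) + 1) * X.lam * Real.sqrt L) ≤ X.y →
    C * L * (32 * X.T ^ 2 * X.y) ^ n0 ≤ 1 →
    Av (fun ω => if X.GB H ω ∧ ¬ BF L (YP X.lam (zp ω) (fun q => X.u q ω)
      (fun e q => X.be e q ω) c (X.f k) H H) X.y then X.Z 2 H ω else 0) ≤ C / (L + 1) ^ n

open Classical in
/-- PRB: the twisted biases are natural (from GDET, CHID, CHSEP, CHMS, DBID, CONB, SFB, SC, ZLAW,
ZPATH) -/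
def StPrB : Prop := ∀ (n n0 : ℕ) (ε : ℝ), 0 < ε → ∃ C : ℝ, 1 ≤ C ∧
  ∀ (L N R : ℕ) (X : Cx L) (H : Fin 3 → ℕ) (c : Fin 3) (k l : Fin X.K), X.Ok N R →
    (∀ e, H e ≤ L) → H c < L →
    C * (L : ℝ) ^ ε * ((2 * (R : ℝ) + 1) * X.lam * Real.sqrt L + (X.T * X.y) ^ 2) ≤ X.y →
    C * L * (32 * X.T ^ 2 * X.y) ^ n0 ≤ 1 →
    Av (fun ω => if X.GB H ω ∧ X.y < |BP (fun e q => X.be e q ω) c (X.f k) (X.f l) H|
      then X.Z 2 H ω else 0) ≤ C / (L + 1) ^ n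

/-- BADH: minimal bad classes are rare (from PRY, PRB) -/
def StBadH : Prop := ∀ (n n0 : ℕ) (ε : ℝ), 0 < ε → ∃ C : ℝ, 1 ≤ C ∧
  ∀ (L N R : ℕ) (X : Cx L) (H : Fin 3 → ℕ), X.Ok N R → (∀ e, H e ≤ L) →
    C * (L : ℝ) ^ ε * ((2 * (R : ℝ) + 1) * X.lam * Real.sqrt L + (X.T * X.y) ^ 2) ≤ X.y →
    C * L * (32 * X.T ^ 2 * X.y) ^ n0 ≤ 1 → X.bad H ≤ C / (L + 1) ^ n

/-- BND: classes in or below the band (deterministic) -/
def StBnd : Prop := ∀ (L N R : ℕ) (X : Cx L), X.Ok N R → 36 * X.lam * (2 * (R : ℝ) + 4) ^ 2 ≤ 1 →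
  ∀ (h : Fin 3 → ℕ) (ω : Pt 2 L), (∀ e, h e ≤ L) → h 0 + h 1 + h 2 ≤ N + R + 3 → ∀ c,
    |X.be c h ω| ≤ 12 * X.lam * (2 * (R : ℝ) + 4) ^ 2 ∧ |X.ka c h ω| ≤ 3 * X.lam * (2 * (R : ℝ) + 4) ∧
    (h 0 + h 1 + h 2 + R ≤ N → X.be c h ω = 0 ∧ X.ka c h ω = 0)

/-- LOW: the mean of `HH v` under the law (from ZLAW, ZPATH, ZSUP, GMS, BND, EEB) -/
def StLow : Prop := ∃ C : ℝ, 1 ≤ C ∧ ∀ (L N R : ℕ) (X : Cx L)
    (v : (Fin 3 → ℕ) → Pt 2 L → ℝ) (M δ : ℝ), X.Ok N R → ArF N R v →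
    (∀ q ω, X.u q ω * v q ω = |v q ω|) → C * X.lam * ((R : ℝ) + 2) ^ 6 ≤ 1 →
    Pr (X.Z 2 (top3 L)) (fun ω => ¬ X.GA (top3 L) ω) ≤ δ → (∀ ω, |HH v ω| ≤ M) →
    X.lam * ∑ q ∈ All 2 L, Av (fun ω => |v q ω|) ≤ 4 * M + 12 * (L : ℝ) ^ 3 * δ

/-- BAND3: the theorem for band arrays (from TRN, EXIS, BADH, ZUNI, LOW) -/
def StBand3 : Prop := ∀ (ε K : ℝ), 0 < ε → 0 < K → ∃ C : ℝ, 0 < C ∧
  ∀ (L N R : ℕ) (v : (Fin 3 → ℕ) → Pt 2 L → ℝ), 1 ≤ L →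
    (R : ℝ) ≤ K * Real.log (L + 1) + 1 → ArF N R v → (∀ ω, |HH v ω| ≤ 2) →
    ∑ q ∈ All 2 L, Av (fun ω => |v q ω|) ≤ C * (L : ℝ) ^ ((1 : ℝ) / 2 + ε)

end Pool.Agent.SHX
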