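import Pool.Agent.Lib.MP_a7b2aa_an.SHX.PathD23
import Pool.Agent.Lib.MP_a7b2aa_an.SHX.MfB21

/-!
SHX, general `m` (chairs: helper66, helper65): MP_a7b2aa_an, every dimension `d = m + 1 ≥ 3`, all
coefficients, gain `1 / 2 - ε`. Definitions and statements (as `Prop`s) of the modules.

Strings `s : Fin (m + 1)`, classes `h : Fin (m + 1) → ℕ`. For a function `U` of the class and a set
`C` of strings (the own strings of `U`) the other strings are levels: they are removed by level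
functionals `lev w (H s) τ` (value at `0`, or difference summed below `H s` with a Walsh twist).
-/

set_option autoImplicit false

namespace Pool.Agent.SHXG

open Finset Pool.Agent.SB3 Pool.Agent.SBT Pool.Agent.SBD Pool.Agent.SHD Pool.Agent.SHX

/-- classes -/
abbrev Cl (m : ℕ) : Type := Fin (m + 1) → ℕ

/-! ### part 0: level functionals -/

/-- evaluation at `x` -/
def dl (x j : ℕ) : ℝ := if j = x then 1 else 0

/-- the twisted difference `U ↦ ∑_{i < H} f i (U (i + 1) - U i)` -/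
def tw (H : ℕ) (f : ℕ → ℝ) (j : ℕ) : ℝ :=
  (if 1 ≤ j ∧ j ≤ H then f (j - 1) else 0) - (if j < H then f j else 0)

/-- the Walsh family: closed under products, contains truncations and shifts -/
structure Wal (L M : ℕ) (K : ℝ) (w : Fin M → ℕ → ℝ) : Prop where
  abs : ∀ k n, |w k n| ≤ 1
  one : ∃ k, ∀ n, w k n = 1
  mul : ∀ k l, ∃ r, ∀ n, w r n = w k n * w l n
  trn : ∃ c : Fin M → Fin M → ℝ, ∑ k, ∑ l, |c k l| ≤ K ∧ ∀ i j, i ≤ L → j ≤ L →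
    ∑ k, ∑ l, c k l * (w k i * w l j) = if i < j then 1 else 0
  shf : ∀ k, ∃ c : Fin M → ℝ, ∑ l, |c l| ≤ K ∧ ∀ n < L, w k (n + 1) = ∑ l, c l * w l n

/-- WAL: existence (Walsh functions on `[0, 2 ^ b)`, `L < 2 ^ b ≤ 2 (L + 1)`) -/
def StWal : Prop := ∀ L : ℕ, 1 ≤ L → ∃ (M : ℕ) (w : Fin M → ℕ → ℝ), M ≤ 2 * (L + 1) ∧
  Wal L M ((Nat.log 2 L : ℝ) + 2) w

/-- level functionals: value at `0`, or twisted difference -/
def lev {M : ℕ} (w : Fin M → ℕ → ℝ) (H : ℕ) : Option (Fin M) → ℕ → ℝ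
  | none => dl 0
  | some k => tw H (w k)

/-- the twist as a function -/
def wv {M : ℕ} (w : Fin M → ℕ → ℝ) : Option (Fin M) → ℕ → ℝ
  | none => fun _ => 0
  | some k => w k

/-- the kernel of the string `s`: own index `h s`, or level functional -/
def kr {m M : ℕ} (w : Fin M → ℕ → ℝ) (C : Finset (Fin (m + 1)))
    (ν : Fin (m + 1) → Option (Fin M)) (H h : Cl m) (s : Fin (m + 1)) : ℕ → ℝ :=
  if s ∈ C then dl (h s) else lev w (H s) (ν s)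

/-- the functional `T`: own strings `C` at the indices `h`, levels up to `H` -/
noncomputable def TT {m M : ℕ} (L : ℕ) (w : Fin M → ℕ → ℝ) (C : Finset (Fin (m + 1)))
    (ν : Fin (m + 1) → Option (Fin M)) (H : Cl m) (U : Cl m → ℝ) (h : Cl m) : ℝ :=
  ∑ g ∈ Fintype.piFinset (fun _ : Fin (m + 1) => range (L + 1)),
    (∏ s, kr w C ν H h s (g s)) * U g

/-- the cost of one string -/
def qc (K : ℝ) : ℝ := 2 + K + K ^ 2

/-- KER: identities for one string, `H ≤ L`: (1) product of two levels, (2) evaluation -/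
def StKer : Prop := ∀ (L M : ℕ) (K : ℝ) (w : Fin M → ℕ → ℝ) (H : ℕ), Wal L M K w → 0 ≤ K → H ≤ L →
  (∀ τ : Option (Fin M), ∃ c : Option (Fin M) → Option (Fin M) → ℝ,
    ∑ p, ∑ q, |c p q| ≤ qc K ∧ ∀ j j', j ≤ L → j' ≤ L →
      (if j = j' then lev w H τ j else 0) = ∑ p, ∑ q, c p q * (lev w H p j * lev w H q j')) ∧
  ∃ (b : Option (Fin M) → ℕ → ℝ) (c : Option (Fin M) → ℝ), ∑ p, c p ≤ qc K ∧
    (∀ p x, |b p x| ≤ c p) ∧ ∀ x j, x ≤ H → j ≤ L → dl x j = ∑ p, b p x * lev w H p j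

/-- PRD: product formula, several strings (from KER, `Finset.prod_univ_sum`) -/
def StPrd : Prop := ∀ (m L M : ℕ) (K : ℝ) (w : Fin M → ℕ → ℝ) (H : Cl m)
    (C₁ C₂ : Finset (Fin (m + 1))) (ν : Fin (m + 1) → Option (Fin M)),
    Wal L M K w → 0 ≤ K → (∀ s, H s ≤ L) →
  ∃ (n : ℕ) (c : Fin n → ℝ) (a : Fin n → Fin (m + 1) → ℕ → ℝ)
    (ν₁ ν₂ : Fin n → Fin (m + 1) → Option (Fin M)),
    ∑ i, |c i| ≤ qc K ^ (m + 1) ∧ (∀ i s x, |a i s x| ≤ 1) ∧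
    ∀ (U V : Cl m → ℝ) (h : Cl m), (∀ s ∈ C₁ ∪ C₂, h s ≤ H s) →
      TT L w (C₁ ∪ C₂) ν H (fun g => U g * V g) h =
        ∑ i, c i * ((∏ s ∈ C₁ ∪ C₂, a i s (h s)) *
          (TT L w C₁ (ν₁ i) H U h * TT L w C₂ (ν₂ i) H V h))

/-- EVL: evaluation (from KER) -/
def StEvl : Prop := ∀ (m L M : ℕ) (K : ℝ) (w : Fin M → ℕ → ℝ) (H : Cl m)
    (C : Finset (Fin (m + 1))), Wal L M K w → 0 ≤ K → (∀ s, H s ≤ L) →
  ∃ (n : ℕ) (c : Fin n → ℝ) (a : Fin n → Fin (m + 1) → ℕ → ℝ)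
    (ν : Fin n → Fin (m + 1) → Option (Fin M)),
    ∑ i, |c i| ≤ qc K ^ (m + 1) ∧ (∀ i s x, |a i s x| ≤ 1) ∧
    ∀ (U : Cl m → ℝ) (h : Cl m), (∀ s, h s ≤ H s) →
      U h = ∑ i, c i * ((∏ s, a i s (h s)) * TT L w C (ν i) H U h)

/-- RAI: one level string becomes an own string -/
def StRai : Prop := ∀ (m L M : ℕ) (w : Fin M → ℕ → ℝ) (H : Cl m)
    (C : Finset (Fin (m + 1))) (ν : Fin (m + 1) → Option (Fin M)) (e : Fin (m + 1))
    (U : Cl m → ℝ) (h : Cl m), (∀ s, H s ≤ L) → e ∉ C → (∀ g : Cl m, g e = 0 → U g = 0) →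
  TT L w C ν H U h = ∑ j ∈ range (H e), wv w (ν e) j *
    TT L w (insert e C) ν H (fun g => U (upc g e) - U g) (Function.update h e j)

/-! ### part I: tensors -/

/-- classes below `E`, supported on `X` -/
def bx {m : ℕ} (E : Cl m) (X : Finset (Fin (m + 1))) : Finset (Cl m) :=
  Fintype.piFinset (fun s => if s ∈ X then range (E s) else {0})

/-- operator norm of a flattening: columns `Y`, rows `X` -/
def ON {m : ℕ} (E : Cl m) (X Y : Finset (Fin (m + 1))) (T : Cl m → ℝ) (k : ℝ) : Prop :=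
  ∀ q : Cl m → ℝ, ∑ x ∈ bx E X, (∑ y ∈ bx E Y, T (x + y) * q y) ^ 2 ≤
    k ^ 2 * ∑ y ∈ bx E Y, q y ^ 2

/-- the tensor `T` with own strings `C` on the box `E` has all norms at most `k` -/
structure NT {m : ℕ} (E : Cl m) (C : Finset (Fin (m + 1))) (T : Cl m → ℝ) (k : ℝ) : Prop where
  nn : 0 ≤ k
  dep : ∀ h h' : Cl m, (∀ s ∈ C, h s = h' s) → T h = T h'
  sup : ∀ h ∈ bx E C, |T h| ≤ k
  fl : ∀ X Y : Finset (Fin (m + 1)), X.Nonempty → Y.Nonempty → Disjoint X Y → X ∪ Y = C →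
    ON E X Y T k

/-- TEN: algebra of tensors -/
structure Ten (m : ℕ) : Prop where
  congr : ∀ (E : Cl m) (C : Finset (Fin (m + 1))) (T T' : Cl m → ℝ) (k : ℝ), NT E C T k →
    (∀ h h' : Cl m, (∀ s ∈ C, h s = h' s) → T' h = T' h') → (∀ h ∈ bx E C, T' h = T h) →
    NT E C T' k
  mono : ∀ (E : Cl m) (C : Finset (Fin (m + 1))) (T : Cl m → ℝ) (k l : ℝ), k ≤ l →
    NT E C T k → NT E C T l
  add : ∀ (E : Cl m) (C : Finset (Fin (m + 1))) (T T' : Cl m → ℝ) (k l : ℝ), NT E C T k →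
    NT E C T' l → NT E C (fun h => T h + T' h) (k + l)
  smul : ∀ (E : Cl m) (C : Finset (Fin (m + 1))) (T : Cl m → ℝ) (k c : ℝ), NT E C T k →
    NT E C (fun h => c * T h) (|c| * k)
  res : ∀ (E E' : Cl m) (C : Finset (Fin (m + 1))) (T : Cl m → ℝ) (k : ℝ),
    (∀ s ∈ C, E' s ≤ E s) → NT E C T k → NT E' C T k
  lin : ∀ (E : Cl m) (C : Finset (Fin (m + 1))) (n : ℕ) (c : Fin n → ℝ)
    (a : Fin n → Fin (m + 1) → ℕ → ℝ) (T : Fin n → Cl m → ℝ) (k Q : ℝ), 0 ≤ k → ∑ i, |c i| ≤ Q →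
    (∀ i s x, |a i s x| ≤ 1) → (∀ i, NT E C (T i) k) →
    NT E C (fun h => ∑ i, c i * ((∏ s ∈ C, a i s (h s)) * T i h)) (Q * k)
  mul : ∀ (E : Cl m) (B₁ B₂ : Finset (Fin (m + 1))) (e : Fin (m + 1)) (T₁ T₂ : Cl m → ℝ)
    (k₁ k₂ : ℝ), e ∉ B₁ → e ∉ B₂ → Disjoint B₁ B₂ → NT E (insert e B₁) T₁ k₁ →
    NT E (insert e B₂) T₂ k₂ → NT E (insert e (B₁ ∪ B₂)) (fun h => T₁ h * T₂ h) (k₁ * k₂)
  star : ∀ (E : Cl m) (B₁ B₂ : Finset (Fin (m + 1))) (e : Fin (m + 1)) (T₁ T₂ : Cl m → ℝ)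
    (k₁ k₂ : ℝ) (d : ℕ → ℝ), e ∉ B₁ → e ∉ B₂ → Disjoint B₁ B₂ → B₁.Nonempty → B₂.Nonempty →
    (∀ j, |d j| ≤ 1) → NT E (insert e B₁) T₁ k₁ → NT E (insert e B₂) T₂ k₂ →
    NT E (B₁ ∪ B₂) (fun h => ∑ j ∈ range (E e), d j *
      (T₁ (Function.update h e j) * T₂ (Function.update h e j))) (k₁ * k₂)

/-- TEN -/
def StTen : Prop := ∀ m : ℕ, Ten m

/-- the function `U` with own strings `C` has norm at most `k`: indices below `E`, levels up to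
`H` -/
def NN {m M : ℕ} (L : ℕ) (w : Fin M → ℕ → ℝ) (E H : Cl m) (C : Finset (Fin (m + 1)))
    (U : Cl m → ℝ) (k : ℝ) : Prop := ∀ ν : Fin (m + 1) → Option (Fin M), NT E C (TT L w C ν H U) k

/-- ALG: the algebra of functions (from PRD, EVL, TEN) -/
structure Alg (m L M : ℕ) (K : ℝ) (w : Fin M → ℕ → ℝ) : Prop where
  congr : ∀ (E H : Cl m) (C : Finset (Fin (m + 1))) (U V : Cl m → ℝ) (k : ℝ), (∀ s, H s ≤ L) →
    (∀ s ∈ C, E s ≤ H s + 1) →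
    (∀ g : Cl m, (∀ s, g s ≤ H s) → (∀ s ∈ C, g s < E s) → V g = U g) →
    NN L w E H C U k → NN L w E H C V k
  mono : ∀ (E H : Cl m) (C : Finset (Fin (m + 1))) (U : Cl m → ℝ) (k l : ℝ), k ≤ l →
    NN L w E H C U k → NN L w E H C U l
  res : ∀ (E E' H : Cl m) (C : Finset (Fin (m + 1))) (U : Cl m → ℝ) (k : ℝ),
    (∀ s ∈ C, E' s ≤ E s) → NN L w E H C U k → NN L w E' H C U k
  add : ∀ (E H : Cl m) (C : Finset (Fin (m + 1))) (U V : Cl m → ℝ) (k l : ℝ),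
    NN L w E H C U k → NN L w E H C V l → NN L w E H C (fun g => U g + V g) (k + l)
  smul : ∀ (E H : Cl m) (C : Finset (Fin (m + 1))) (U : Cl m → ℝ) (k c : ℝ),
    NN L w E H C U k → NN L w E H C (fun g => c * U g) (|c| * k)
  mul : ∀ (E H : Cl m) (B₁ B₂ : Finset (Fin (m + 1))) (e : Fin (m + 1)) (U V : Cl m → ℝ)
    (k l : ℝ), (∀ s, H s ≤ L) → (∀ s, E s ≤ H s + 1) → e ∉ B₁ → e ∉ B₂ → Disjoint B₁ B₂ →
    NN L w E H (insert e B₁) U k → NN L w E H (insert e B₂) V l →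
    NN L w E H (insert e (B₁ ∪ B₂)) (fun g => U g * V g) (qc K ^ (m + 1) * (k * l))
  star : ∀ (E H : Cl m) (B₁ B₂ : Finset (Fin (m + 1))) (e : Fin (m + 1)) (U V : Cl m → ℝ)
    (k l : ℝ) (d : ℕ → ℝ) (ν : Fin (m + 1) → Option (Fin M)), (∀ s, H s ≤ L) →
    (∀ s, E s ≤ H s + 1) → e ∉ B₁ → e ∉ B₂ → Disjoint B₁ B₂ → B₁.Nonempty → B₂.Nonempty →
    (∀ j, |d j| ≤ 1) → NN L w E H (insert e B₁) U k → NN L w E H (insert e B₂) V l →
    NT E (B₁ ∪ B₂) (fun h => ∑ j ∈ range (E e), d j *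
      TT L w (insert e (B₁ ∪ B₂)) ν H (fun g => U g * V g) (Function.update h e j))
      (qc K ^ (m + 1) * (k * l))
  ev : ∀ (E H : Cl m) (C : Finset (Fin (m + 1))) (U : Cl m → ℝ) (k : ℝ) (g : Cl m),
    (∀ s, H s ≤ L) → (∀ s, g s ≤ H s) → (∀ s ∈ C, g s < E s) → NN L w E H C U k →
    |U g| ≤ qc K ^ (m + 1) * k
  one : ∀ (E H : Cl m) (e : Fin (m + 1)) (z : ℕ → ℝ), (∀ s, H s ≤ L) → (∀ s, E s ≤ H s + 1) →
    (∀ j, |z j| ≤ 1) → NN L w E H {e} (fun g => z (g e)) 1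
  crude : ∀ (E H : Cl m) (e : Fin (m + 1)) (U : Cl m → ℝ) (k : ℝ), (∀ s, H s ≤ L) →
    (∀ s, E s ≤ H s + 1) → 0 ≤ k → (∀ g : Cl m, (∀ s, g s ≤ H s) → g e < E e → |U g| ≤ k) →
    NN L w E H {e} U ((2 * ((L : ℝ) + 1)) ^ (m + 1) * k)

/-- ALG -/
def StAlg : Prop := ∀ (m L M : ℕ) (K : ℝ) (w : Fin M → ℕ → ℝ), Wal L M K w → 1 ≤ K →
  Alg m L M K w

/-- INV: `1 / (1 - b ^ 2)` in the algebra of functions with one own string (from ALG) -/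
def StInv : Prop := ∀ (m L M : ℕ) (K : ℝ) (w : Fin M → ℕ → ℝ) (E H : Cl m) (e : Fin (m + 1))
    (b : Cl m → ℝ) (y : ℝ), Wal L M K w → 1 ≤ K → (∀ s, H s ≤ L) → (∀ s, E s ≤ H s + 1) →
    2 * (qc K ^ (m + 1)) ^ 2 * y ≤ 1 → NN L w E H {e} b y →
    NN L w E H {e} (fun g => 1 / (1 - b g ^ 2)) 2

/-! ### part II: the exact system at a point -/

/-- the recentred sign `z / (1 + z β)` -/
noncomputable def zt {m : ℕ} (z : Fin (m + 1) → ℕ → ℝ)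
    (ka : Finset (Fin (m + 1)) → Cl m → ℝ) (c : Fin (m + 1)) (h : Cl m) : ℝ :=
  z c (h c) / (1 + z c (h c) * ka {c} h)

/-- `1 / (1 - β ^ 2)` -/
noncomputable def ph {m : ℕ} (ka : Finset (Fin (m + 1)) → Cl m → ℝ) (c : Fin (m + 1))
    (h : Cl m) : ℝ := 1 / (1 - ka {c} h ^ 2)

/-- powers of `∑_B ka (insert e B) θ^B` (ordered set partitions of `A` into `n` nonempty blocks) -/
noncomputable def cv {m : ℕ} (ka : Finset (Fin (m + 1)) → Cl m → ℝ) (e : Fin (m + 1)) (h : Cl m) :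
    ℕ → Finset (Fin (m + 1)) → ℝ
  | 0, A => if A = ∅ then 1 else 0
  | n + 1, A => ∑ B ∈ A.powerset.erase ∅, ka (insert e B) h * cv ka e h n (A \ B)

/-- the terms with at least two blocks -/
noncomputable def RD {m : ℕ} (z : Fin (m + 1) → ℕ → ℝ)
    (ka : Finset (Fin (m + 1)) → Cl m → ℝ) (A : Finset (Fin (m + 1))) (e : Fin (m + 1))
    (h : Cl m) : ℝ :=
  ∑ n ∈ Finset.Ico 1 A.card, (-1) ^ n / ((n : ℝ) + 1) * zt z ka e h ^ (n + 1) *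
    cv ka e h (n + 1) A

/-- the exact system on the classes `≤ H` -/
structure PS {m : ℕ} (z : Fin (m + 1) → ℕ → ℝ)
    (ka : Finset (Fin (m + 1)) → Cl m → ℝ) (H : Cl m) : Prop where
  sq : ∀ c j, z c j * z c j = 1
  van : ∀ A h, A.Nonempty → (∃ s, s ∉ A ∧ h s = 0) → ka A h = 0
  r1 : ∀ A e h, A.Nonempty → e ∉ A → (∀ s, h s ≤ H s) → h e < H e →
    ka A (upc h e) - ka A h = zt z ka e h * ka (insert e A) h + RD z ka A e h
  bd : ∀ c h, (∀ s, h s ≤ H s) → h c < H c → |ka {c} h| ≤ 1 / 2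

/-- the box of the own indices when the string `e` is strict -/
def Ex1 {m : ℕ} (H : Cl m) (e : Fin (m + 1)) : Cl m := Function.update (fun s => H s + 1) e (H e)

/-- ZTN: powers of `zt` (from ALG, INV) -/
def StZtn : Prop := ∀ (m L M : ℕ) (K : ℝ) (w : Fin M → ℕ → ℝ) (E H : Cl m) (e : Fin (m + 1))
    (z : Fin (m + 1) → ℕ → ℝ) (ka : Finset (Fin (m + 1)) → Cl m → ℝ) (y : ℝ),
    Wal L M K w → 1 ≤ K → (∀ s, H s ≤ L) → (∀ s, E s ≤ H s + 1) → E e ≤ H e → PS z ka H →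
    2 * (qc K ^ (m + 1)) ^ 2 * y ≤ 1 → NN L w E H {e} (ka {e}) y →
    NN L w E H {e} (ph ka e) 2 ∧ NN L w E H {e} (zt z ka e) (4 * qc K ^ (m + 1)) ∧
    ∀ n : ℕ, NN L w E H {e} (fun g => zt z ka e g ^ (n + 1))
      ((qc K ^ (m + 1)) ^ n * (4 * qc K ^ (m + 1)) ^ (n + 1))

/-- DET: the terms with at least two blocks are deterministic (from ALG, ZTN) -/
def StDet : Prop := ∀ m : ℕ, ∃ C : ℝ, 1 ≤ C ∧ ∀ (L M : ℕ) (K : ℝ) (w : Fin M → ℕ → ℝ) (H : Cl m)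
    (e : Fin (m + 1)) (A : Finset (Fin (m + 1))) (z : Fin (m + 1) → ℕ → ℝ)
    (ka : Finset (Fin (m + 1)) → Cl m → ℝ) (y : ℝ) (ν : Fin (m + 1) → Option (Fin M)),
    Wal L M K w → 1 ≤ K → (∀ s, H s ≤ L) → PS z ka H → A.Nonempty → e ∉ A → 0 ≤ y →
    2 * (qc K ^ (m + 1)) ^ 2 * y ≤ 1 →
    (∀ B, B ⊂ A → NN L w (Ex1 H e) H (insert e B) (ka (insert e B)) y) →
    NT (Ex1 H e) A (fun h => ∑ j ∈ range (H e), wv w (ν e) j *
      TT L w (insert e A) ν H (RD z ka A e) (Function.update h e j))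
      (C * (qc K ^ (m + 1)) ^ (4 * m + 4) * y ^ 2)

/-! ### part III: chains -/

/-- the class `h` with the strings before `c'` raised to `H` (except `c`) and `c'` at `j` -/
def rz {m : ℕ} (H : Cl m) (c c' : Fin (m + 1)) (h : Cl m) (j : ℕ) : Cl m :=
  fun t => if t = c' then j else if t = c then h c else if t < c' then H t else h t

/-- chain arrays: `n` steps, then the array `Wb` -/
noncomputable def CH {m : ℕ} (ka : Finset (Fin (m + 1)) → Cl m → ℝ) (H : Cl m)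
    (Wb : Fin (m + 1) → Cl m → ℕ → ℝ) : ℕ → Fin (m + 1) → Cl m → ℕ → ℝ
  | 0, c, h, v => Wb c h v
  | n + 1, c, h, v => ph ka c h * ∑ c' ∈ univ.erase c, ∑ j ∈ Finset.Ico (h c') (H c'),
      ka {c, c'} (rz H c c' h j) * CH ka H Wb n c' (rz H c c' h j) v

/-- the end of a chain at the sign `v` of the string `s` -/
noncomputable def We {m : ℕ} (ka : Finset (Fin (m + 1)) → Cl m → ℝ) (s c : Fin (m + 1)) (h : Cl m)
    (v : ℕ) : ℝ := if c = s ∧ v = h c then ph ka c h else 0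

/-- the end of a chain in the remainder -/
noncomputable def Wr {m : ℕ} (z : Fin (m + 1) → ℕ → ℝ) (ka : Finset (Fin (m + 1)) → Cl m → ℝ)
    (c : Fin (m + 1)) (h : Cl m) (_ : ℕ) : ℝ := zt z ka c h

/-- CHI: the chain identity -/
def StChi : Prop := ∀ (m : ℕ) (z : Fin (m + 1) → ℕ → ℝ)
    (ka : Finset (Fin (m + 1)) → Cl m → ℝ) (H : Cl m), PS z ka H →
  ∀ (n : ℕ) (c : Fin (m + 1)) (h : Cl m), (∀ s, h s ≤ H s) → h c < H c →
    zt z ka c h = ∑ k ∈ range n, ∑ s : Fin (m + 1), ∑ v ∈ range (H s),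
      CH ka H (We ka s) k c h v * (z s v - ka {s} (Function.update H s v)) +
        CH ka H (Wr z ka) n c h 0

/-- rows `i < n` are mapped to `v < V` with norm at most `k` -/
def MN (n V : ℕ) (W : ℕ → ℕ → ℝ) (k : ℝ) : Prop := 0 ≤ k ∧ ∀ q : ℕ → ℝ,
  ∑ v ∈ range V, (∑ i ∈ range n, W i v * q i) ^ 2 ≤ k ^ 2 * ∑ i ∈ range n, q i ^ 2

/-- the array `Φ` with own string `c` (index below `H c`) and extra index `v < V` has norm at
most `k` -/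
def WN {m M : ℕ} (L : ℕ) (w : Fin M → ℕ → ℝ) (H : Cl m) (c : Fin (m + 1)) (V : ℕ)
    (Φ : Cl m → ℕ → ℝ) (k : ℝ) : Prop := ∀ ν : Fin (m + 1) → Option (Fin M),
  MN (H c) V (fun i v => TT L w {c} ν H (fun g => Φ g v) (Function.update (fun _ => 0) c i)) k

/-- CHR: one step of a chain, as a functional: level strings before `c'` are evaluated at `H`,
the string `c'` is summed -/
def StChr : Prop := ∀ (m L M : ℕ) (K : ℝ) (w : Fin M → ℕ → ℝ) (H : Cl m)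
    (c c' : Fin (m + 1)) (ν : Fin (m + 1) → Option (Fin M)), Wal L M K w → (∀ s, H s ≤ L) →
    c' ≠ c →
  ∃ (n : ℕ) (d : Fin n → ℕ → ℝ) (ν' : Fin n → Fin (m + 1) → Option (Fin M)), n ≤ 2 ^ (m + 1) ∧
    (∀ i j, |d i j| ≤ 1) ∧ ∀ (U : Cl m → ℝ) (h : Cl m), h c ≤ L →
      TT L w {c} ν H (fun g => ∑ j ∈ Finset.Ico (g c') (H c'), U (rz H c c' g j)) h =
        ∑ i, ∑ j ∈ range (H c'), d i j * TT L w {c, c'} (ν' i) H U (Function.update h c' j)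

/-- CHN: norms of chain arrays (from PRD, CHR, ALG) -/
def StChn : Prop := ∀ (m L M V : ℕ) (K p y b : ℝ) (w : Fin M → ℕ → ℝ) (H : Cl m)
    (ka : Finset (Fin (m + 1)) → Cl m → ℝ) (Wb : Fin (m + 1) → Cl m → ℕ → ℝ),
    Wal L M K w → 1 ≤ K → (∀ s, H s ≤ L) → 0 ≤ p → 0 ≤ y → 0 ≤ b →
    (∀ c, NN L w H H {c} (ph ka c) p) →
    (∀ c c' : Fin (m + 1), c' ≠ c → NN L w H H {c, c'} (ka {c, c'}) y) →
    (∀ c, WN L w H c V (Wb c) b) →
    ∀ (n : ℕ) (c : Fin (m + 1)), WN L w H c V (CH ka H Wb n c)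
      (b * (((m : ℝ) + 1) * 2 ^ (m + 1) * (qc K ^ (m + 1)) ^ 2 * p * y) ^ n)

/-- CHB: norms of the two kinds of ends (from ALG) -/
def StChb : Prop := ∀ (m L M : ℕ) (K p : ℝ) (w : Fin M → ℕ → ℝ) (H : Cl m)
    (z : Fin (m + 1) → ℕ → ℝ) (ka : Finset (Fin (m + 1)) → Cl m → ℝ),
    Wal L M K w → 1 ≤ K → (∀ s, H s ≤ L) → 1 ≤ L → 0 ≤ p →
    ((∀ c, NN L w H H {c} (ph ka c) p) → ∀ s c, WN L w H c L (We ka s c) p) ∧
    ((∀ c, NN L w H H {c} (zt z ka c) p) → ∀ c, WN L w H c 1 (Wr z ka c) (L * p))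

/-- the coefficient of the extra index `v` -/
noncomputable def FF {m M : ℕ} (L : ℕ) (w : Fin M → ℕ → ℝ)
    (ka : Finset (Fin (m + 1)) → Cl m → ℝ) (H : Cl m) (A : Finset (Fin (m + 1)))
    (ν : Fin (m + 1) → Option (Fin M)) (e : Fin (m + 1)) (Φ : Cl m → ℕ → ℝ) (v : ℕ) (h : Cl m) :
    ℝ := ∑ j ∈ range (H e), wv w (ν e) j *
  TT L w (insert e A) ν H (fun g => Φ g v * ka (insert e A) g) (Function.update h e j)

/-- CON: contraction of a cumulant with a chain array (from PRD, ALG) -/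
def StCon : Prop := ∀ (m L M V : ℕ) (K y k : ℝ) (w : Fin M → ℕ → ℝ) (H : Cl m)
    (ka : Finset (Fin (m + 1)) → Cl m → ℝ) (A : Finset (Fin (m + 1)))
    (ν : Fin (m + 1) → Option (Fin M)) (e : Fin (m + 1)) (Φ : Cl m → ℕ → ℝ),
    Wal L M K w → 1 ≤ K → (∀ s, H s ≤ L) → A.Nonempty → e ∉ A →
    NN L w (Ex1 H e) H (insert e A) (ka (insert e A)) y → WN L w H e V Φ k →
    (A.card = 1 → ∀ h ∈ bx (Ex1 H e) A, ∑ v ∈ range V, FF L w ka H A ν e Φ v h ^ 2 ≤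
      (qc K ^ (m + 1) * (k * y)) ^ 2) ∧
    ∀ X Y : Finset (Fin (m + 1)), X.Nonempty → Y.Nonempty → Disjoint X Y → X ∪ Y = A →
      ∀ q : Cl m → ℝ, ∑ v ∈ range V, ∑ x ∈ bx (Ex1 H e) X, (∑ y' ∈ bx (Ex1 H e) Y,
        FF L w ka H A ν e Φ v (x + y') * q y') ^ 2 ≤
          (qc K ^ (m + 1) * (k * y)) ^ 2 * ∑ y' ∈ bx (Ex1 H e) Y, q y' ^ 2

/-- REP: the representation of the cumulant `A` at the class `H` (from RAI, CHI) -/
def StRep : Prop := ∀ (m L M : ℕ) (w : Fin M → ℕ → ℝ) (H : Cl m) (z : Fin (m + 1) → ℕ → ℝ)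
    (ka : Finset (Fin (m + 1)) → Cl m → ℝ) (A : Finset (Fin (m + 1)))
    (ν : Fin (m + 1) → Option (Fin M)) (e : Fin (m + 1)) (n : ℕ) (h : Cl m),
    (∀ s, H s ≤ L) → PS z ka H → A.Nonempty → e ∉ A → (∀ s ∈ A, h s ≤ H s) →
  TT L w A ν H (ka A) h = (∑ j ∈ range (H e), wv w (ν e) j *
      TT L w (insert e A) ν H (RD z ka A e) (Function.update h e j)) +
    FF L w ka H A ν e (CH ka H (Wr z ka) n e) 0 h +
    ∑ k ∈ range n, ∑ s : Fin (m + 1), ∑ v ∈ range (H s),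
      (z s v - ka {s} (Function.update H s v)) * FF L w ka H A ν e (CH ka H (We ka s) k e) v h

/-! ### part IV: the global system -/

/-- the exact law of the array `lam u`: cumulants and densities -/
structure ExS {m L : ℕ} (lam : ℝ) (u : Cl m → Pt m L → ℝ)
    (ka : Finset (Fin (m + 1)) → Cl m → Pt m L → ℝ) (Z : Cl m → Pt m L → ℝ) : Prop where
  msk : ∀ A h, Ms h (ka A h)
  msZ : ∀ h, Ms h (Z h)
  zero : ∀ h ω, (∃ a, h a = 0) → Z h ω = 1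
  van : ∀ A h ω, A.Nonempty → (∃ s, s ∉ A ∧ h s = 0) → ka A h ω = 0
  top : ∀ h ω, Z h ω ≠ 0 → ka univ h ω = lam * u h ω
  step : ∀ c h ω, Z h ω ≠ 0 → Z (upc h c) ω = Z h ω * (1 + sb c (h c) ω * ka {c} h ω)
  r1 : ∀ A e h ω, A.Nonempty → e ∉ A → Z h ω ≠ 0 → |ka {e} h ω| < 1 →
    ka A (upc h e) ω - ka A h ω =
      zt (fun c j => sb c j ω) (fun B g => ka B g ω) e h * ka (insert e A) h ω +
        RD (fun c j => sb c j ω) (fun B g => ka B g ω) A e h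

/-- EXS: existence of the exact law -/
def StExs : Prop := ∀ (m L : ℕ) (lam : ℝ) (u : Cl m → Pt m L → ℝ), (∀ q, Ms q (u q)) →
  ∃ (ka : Finset (Fin (m + 1)) → Cl m → Pt m L → ℝ) (Z : Cl m → Pt m L → ℝ), ExS lam u ka Z

/-- the data: array, cumulants, densities, Walsh functions, thresholds -/
structure Cx (m L : ℕ) where
  lam : ℝ
  u : Cl m → Pt m L → ℝ
  ka : Finset (Fin (m + 1)) → Cl m → Pt m L → ℝ
  Z : Cl m → Pt m L → ℝ
  M : ℕ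
  K : ℝ
  w : Fin M → ℕ → ℝ
  y : ℕ → ℝ

/-- the cost of a product -/
noncomputable def Cx.Q {m L : ℕ} (X : Cx m L) : ℝ := qc X.K ^ (m + 1)

/-- the signs at the point `ω` -/
noncomputable def zp {m L : ℕ} (ω : Pt m L) : Fin (m + 1) → ℕ → ℝ := fun c j => sb c j ω

/-- the cumulants at the point `ω` -/
def Cx.kp {m L : ℕ} (X : Cx m L) (ω : Pt m L) : Finset (Fin (m + 1)) → Cl m → ℝ :=
  fun A h => X.ka A h ω

/-- good classes -/
def Cx.G {m L : ℕ} (X : Cx m L) (r : Cl m) (ω : Pt m L) : Prop :=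
  ∀ A : Finset (Fin (m + 1)), A.Nonempty → A ≠ univ → ∀ ν : Fin (m + 1) → Option (Fin X.M),
    NT (fun s => r s + 1) A (TT L X.w A ν r (X.kp ω A)) (X.y A.card)

/-- the biases -/
def Cx.be {m L : ℕ} (X : Cx m L) (c : Fin (m + 1)) (h : Cl m) (ω : Pt m L) : ℝ := X.ka {c} h ω

/-- the assumptions on the data -/
structure Cx.Ok {m L : ℕ} (X : Cx m L) (N R : ℕ) : Prop where
  hm : 1 ≤ m
  hL : 1 ≤ L
  lam0 : 0 ≤ X.lam
  u1 : ArF N R X.u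
  ex : ExS X.lam X.u X.ka X.Z
  wal : Wal L X.M X.K X.w
  K1 : 1 ≤ X.K
  M2 : X.M ≤ 2 * (L + 1)
  y0 : ∀ a, 0 < X.y a
  ymono : ∀ a, X.y (a + 1) ≤ X.y a
  ysmall : 4 * X.Q ^ 2 * X.y 1 ≤ 1
  ytop : (2 * (R : ℝ) + 1) * X.lam * Real.sqrt (((L : ℝ) + 1) ^ (m - 1)) ≤ X.y (m + 1)

/-- TOP: the top cumulant (Schur test) -/
def StTop : Prop := ∀ (m L M N R : ℕ) (lam : ℝ) (w : Fin M → ℕ → ℝ) (E H : Cl m)
    (u : Cl m → Pt m L → ℝ) (ω : Pt m L) (U : Cl m → ℝ), 1 ≤ m → 0 ≤ lam → ArF N R u →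
    (∀ s, H s ≤ L) → (∀ s, E s ≤ H s + 1) → (∀ g : Cl m, (∀ s, g s < E s) → U g = lam * u g ω) →
    NN L w E H univ U ((2 * (R : ℝ) + 1) * lam * Real.sqrt (((L : ℝ) + 1) ^ (m - 1)))

/-- what holds at the point `ω` for the class `H` if all smaller classes are good -/
structure Cx.Det {m L : ℕ} (X : Cx m L) (H : Cl m) (ω : Pt m L) : Prop where
  ps : PS (zp ω) (X.kp ω) H
  pos : ∀ g : Cl m, (∀ s, g s ≤ H s) → 0 < X.Z g ω
  k : ∀ (A : Finset (Fin (m + 1))) (e : Fin (m + 1)), A.Nonempty → e ∈ A →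
    NN L X.w (Ex1 H e) H A (X.kp ω A) (X.y A.card)

/-- GDT: all smaller classes good (from ALG, TOP) -/
def StGdt : Prop := ∀ (m L N R : ℕ) (X : Cx m L) (H : Cl m) (ω : Pt m L), X.Ok N R →
  (∀ s, H s ≤ L) → Gl X.G H ω → X.Det H ω

/-- BAY: the structure of PathD23 (from ALG, GDT) -/
def StBay : Prop := ∀ (m L N R : ℕ) (X : Cx m L), X.Ok N R → Bay X.G X.be X.Z

/-- CHM: the chain arrays are predictable -/
def StChm : Prop := ∀ (m L : ℕ) (ka : Finset (Fin (m + 1)) → Cl m → Pt m L → ℝ) (H : Cl m),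
  (∀ A h, Ms h (ka A h)) → ∀ (k : ℕ) (c s : Fin (m + 1)) (h : Cl m) (v : ℕ), (∀ t, h t ≤ H t) →
    (v < h s → ∀ ω, CH (fun A g => ka A g ω) H (We (fun A g => ka A g ω) s) k c h v = 0) ∧
    Ms (Function.update H s v)
      (fun ω => CH (fun A g => ka A g ω) H (We (fun A g => ka A g ω) s) k c h v)

/-- FFM: the coefficients are predictable (from CHM) -/
def StFfm : Prop := ∀ (m L N R : ℕ) (X : Cx m L) (H : Cl m), X.Ok N R → (∀ s, H s ≤ L) →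
  ∀ (A : Finset (Fin (m + 1))) (ν : Fin (m + 1) → Option (Fin X.M)) (e s : Fin (m + 1))
    (k v : ℕ) (h : Cl m), e ∉ A → (∀ t ∈ A, h t ≤ H t) → v < H s →
    Ms (Function.update H s v) (fun ω => FF L X.w (X.kp ω) H A ν e
      (CH (X.kp ω) H (We (X.kp ω) s) k e) v h)

/-- SQF: the coefficients below good classes: square functions, remainder, deterministic part
(from GDT, DET, ZTN, CHN, CHB, CON) -/
def StSqf : Prop := ∀ (m n₀ : ℕ), ∃ C : ℝ, 1 ≤ C ∧ ∀ (L N R : ℕ) (X : Cx m L) (H : Cl m)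
    (ω : Pt m L) (A : Finset (Fin (m + 1))) (ν : Fin (m + 1) → Option (Fin X.M))
    (e : Fin (m + 1)), X.Ok N R → (∀ s, H s ≤ L) → Gl X.G H ω → A.Nonempty → e ∉ A →
    C * X.Q ^ 3 * X.y 1 ≤ 1 →
  (∀ k < n₀, ∀ s, (A.card = 1 → ∀ h ∈ bx (Ex1 H e) A, ∑ v ∈ range L, FF L X.w (X.kp ω) H A ν e
      (CH (X.kp ω) H (We (X.kp ω) s) k e) v h ^ 2 ≤ (2 * X.Q * X.y (A.card + 1)) ^ 2) ∧
    ∀ Y₁ Y₂ : Finset (Fin (m + 1)), Y₁.Nonempty → Y₂.Nonempty → Disjoint Y₁ Y₂ → Y₁ ∪ Y₂ = A →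
      ∀ q : Cl m → ℝ, ∑ v ∈ range L, ∑ x ∈ bx (Ex1 H e) Y₁, (∑ y' ∈ bx (Ex1 H e) Y₂,
        FF L X.w (X.kp ω) H A ν e (CH (X.kp ω) H (We (X.kp ω) s) k e) v (x + y') * q y') ^ 2 ≤
          (2 * X.Q * X.y (A.card + 1)) ^ 2 * ∑ y' ∈ bx (Ex1 H e) Y₂, q y' ^ 2) ∧
  NT (Ex1 H e) A (fun h => (∑ j ∈ range (H e), wv X.w (ν e) j *
      TT L X.w (insert e A) ν H (RD (zp ω) (X.kp ω) A e) (Function.update h e j)) +
    FF L X.w (X.kp ω) H A ν e (CH (X.kp ω) H (Wr (zp ω) (X.kp ω)) n₀ e) 0 h)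
    (C * X.Q ^ (4 * m + 4) * (X.y 1 ^ 2 + L * (C * X.Q ^ 3 * X.y 1) ^ n₀))

open Classical in
/-- STEP: minimal bad classes are rare (from GDT, REP, FFM, SQF, PATHLAW, MFREE) -/
def StStep : Prop := ∀ (m n n₀ : ℕ) (ε : ℝ), 0 < ε → ∃ C : ℝ, 1 ≤ C ∧
  ∀ (L N R : ℕ) (X : Cx m L) (H : Cl m), X.Ok N R → (∀ s, H s ≤ L) →
    (∀ a, 1 ≤ a → a ≤ m → C * (L : ℝ) ^ ε * X.Q ^ 2 * X.y (a + 1) ≤ X.y a) →
    C * X.Q ^ (4 * m + 4) * (X.y 1 ^ 2 + L * (C * X.Q ^ 3 * X.y 1) ^ n₀) ≤ X.y m →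
    Av (fun ω => if Gl X.G H ω ∧ ¬ X.G H ω then X.Z H ω else 0) ≤ C / (L + 1) ^ n

open Classical in
/-- GOODX: the propagation theorem, `lam = 1 / (C L ^ p)`, `p > (m - 1) / 2`
(from WAL, STEP, BAY) -/
def StGoodX : Prop := ∀ (m n : ℕ) (p K₀ : ℝ), 1 ≤ m → ((m : ℝ) - 1) / 2 < p → 0 < K₀ →
  ∃ C : ℝ, 1 ≤ C ∧ ∀ (L N R : ℕ) (u : Cl m → Pt m L → ℝ)
    (ka : Finset (Fin (m + 1)) → Cl m → Pt m L → ℝ) (Z : Cl m → Pt m L → ℝ), C ≤ (L : ℝ) →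
    (R : ℝ) ≤ K₀ * Real.log (L + 1) + 1 → ArF N R u → ExS (1 / (L : ℝ) ^ p) u ka Z →
    ∃ G : Cl m → Pt m L → Prop, Bay G (fun c h ω => ka {c} h ω) Z ∧
      ∀ H : Cl m, (∀ s, H s ≤ L) →
        Av (fun ω => if Gl G H ω ∧ ¬ G H ω then Z H ω else 0) ≤ C / (L + 1) ^ n

end Pool.Agent.SHXG
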