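import Pool.Agent.Lib.MP_a7b2aa_an.SHD.Stmts3_23

/-!
SHX (chair: helper65): the exponent `(d - 2) / 2 + ε`. Matrix Freedman inequality, in event form.
-/

set_option autoImplicit false

namespace Pool.Agent.SHX

open Finset Pool.Agent.SB3 Pool.Agent.SBT Pool.Agent.SBD Pool.Agent.SHD

/-- MFX: matrix martingales with a bounded square function (Golden - Thompson) -/
def StMfx : Prop := ∀ (n D : ℕ) (ε : ℝ), 0 < ε → ∃ C : ℝ, 1 ≤ C ∧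
  ∀ (m L : ℕ) (κ κ' : Type) [Fintype κ] [Fintype κ'] [DecidableEq κ] [DecidableEq κ']
    (c : Fin (m + 1)) (K : ℕ → Pt m L → Matrix κ κ' ℝ) (k B : ℝ) (ρ : Pt m L → ℝ)
    (G : Pt m L → Prop), 1 ≤ L → Law k ρ → 0 ≤ B → Fintype.card κ ≤ (L + 1) ^ D →
    Fintype.card κ' ≤ (L + 1) ^ D → (∀ t, Ms (one L c t) (K t)) →
    (∀ ω, G ω → ∀ w : κ' → ℝ,
      ∑ t ∈ range L, ∑ x, (∑ y, K t ω x y * w y) ^ 2 ≤ B * ∑ y, w y ^ 2) →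
    (∀ ω, G ω → ∀ w : κ → ℝ,
      ∑ t ∈ range L, ∑ y, (∑ x, K t ω x y * w x) ^ 2 ≤ B * ∑ x, w x ^ 2) →
    Pr ρ (fun ω => G ω ∧ ¬ NB (∑ t ∈ range L, (sb c t ω - al ρ c t ω) • K t ω)
      (C * (L : ℝ) ^ ε * B)) ≤ C / (L + 1) ^ n

end Pool.Agent.SHX
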