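import Pool.Agent.Lib.MP_a7b2aa_an.SHX.StmtsY65

/-!
SHX, track ALL (helper65): module SYSALL, the choice of the parameters.
-/

set_option autoImplicit false

namespace Pool.Agent.SHXA

open Finset Pool.Agent.SB3 Pool.Agent.SBT Pool.Agent.SBD Pool.Agent.SHD Pool.Agent.SHX
open Pool.Agent.Lib.MP_a7b2aa_an.SHX

/-- powers of the logarithm are small -/
theorem large65 (A : ℝ) (k : ℕ) (δ : ℝ) (hδ : 0 < δ) : ∃ X : ℝ, 1 ≤ X ∧ ∀ x : ℝ, X ≤ x →
    A * (Real.log x + 1) ^ k ≤ x ^ δ := by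
  have h1 := isLittleO_log_rpow_rpow_atTop (k : ℝ) hδ
  have h2 : ∀ᶠ x : ℝ in Filter.atTop, ‖Real.log x ^ (k : ℝ)‖ ≤
      (1 / (2 ^ k * (|A| + 1))) * ‖x ^ δ‖ := h1.bound (by positivity)
  obtain ⟨X, hX⟩ := Filter.eventually_atTop.1 h2
  refine ⟨max X (Real.exp 1), ?_, fun x hx => ?_⟩
  · exact le_trans (by have := Real.add_one_le_exp (1 : ℝ); linarith) (le_max_right _ _)
  · have hx1 : X ≤ x := (le_max_left _ _).trans hx
    have hx2 : Real.exp 1 ≤ x := (le_max_right _ _).trans hx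
    have hx0 : 0 < x := lt_of_lt_of_le (Real.exp_pos 1) hx2
    have hlog : 1 ≤ Real.log x := by
      rw [Real.le_log_iff_exp_le hx0]
      exact hx2
    have h3 := hX x hx1
    have h4 : 0 ≤ Real.log x ^ (k : ℝ) := Real.rpow_nonneg (by linarith) _
    rw [Real.norm_of_nonneg h4, Real.norm_of_nonneg (Real.rpow_nonneg hx0.le _),
      Real.rpow_natCast] at h3
    have h5 : (Real.log x + 1) ^ k ≤ 2 ^ k * Real.log x ^ k := by
      rw [← mul_pow]
      exact pow_le_pow_left₀ (by linarith) (by linarith) k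
    have hA : 0 < |A| + 1 := by positivity
    have h6 : A * (Real.log x + 1) ^ k ≤ (|A| + 1) * (Real.log x + 1) ^ k := by
      refine mul_le_mul_of_nonneg_right ?_ (by positivity)
      have := le_abs_self A
      linarith
    calc A * (Real.log x + 1) ^ k ≤ (|A| + 1) * (Real.log x + 1) ^ k := h6
      _ ≤ (|A| + 1) * (2 ^ k * Real.log x ^ k) := mul_le_mul_of_nonneg_left h5 hA.le
      _ ≤ (|A| + 1) * (2 ^ k * (1 / (2 ^ k * (|A| + 1)) * x ^ δ)) := by gcongr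
      _ = x ^ δ := by
        field_simp

/-- SYSALL -/
theorem sysall_65 (hE : StExactB) (hB : StBayx) (hG : StGoodx) : StSysAll := by
  classical
  intro m ε hm hε
  obtain ⟨c, hc, hE⟩ := hE m
  refine ⟨c, hc, fun n K hK => ?_⟩
  set δ : ℝ := min ε 1 with hδ
  have hδ0 : 0 < δ := lt_min hε one_pos
  have hδε : δ ≤ ε := min_le_left _ _
  have hδ1 : δ ≤ 1 := min_le_right _ _
  set ε' : ℝ := δ / (8 * ((m : ℝ) + 1)) with hε'
  have hm0 : (0 : ℝ) < (m : ℝ) + 1 := by positivity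
  have hε'0 : 0 < ε' := by positivity
  set n0 : ℕ := ⌈16 / δ⌉₊ with hn0
  have hn0' : 16 / δ ≤ n0 := Nat.le_ceil _
  obtain ⟨C1, e, hC1, hG⟩ := hG m n n0 ε' (by omega) hε'0
  -- thresholds
  obtain ⟨X1, hX1, hX1'⟩ := large65 ((2 * (C1 * 6 ^ e)) ^ (2 * m + 2)) (e * (2 * m + 2)) (δ / 4)
    (by positivity)
  obtain ⟨X2, hX2, hX2'⟩ := large65 (C1 * 6 ^ e) e (δ / 8) (by positivity)
  obtain ⟨X3, hX3, hX3'⟩ := large65 (2 * 6 ^ (m + 1)) (m + 1) (δ / 4) (by positivity)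
  obtain ⟨X4, hX4, hX4'⟩ := large65 ((2 * K + 3) ^ 2 * 2 ^ (m - 1)) 2 δ hδ0
  refine ⟨max (max (max X1 X2) (max X3 X4)) C1, hC1.trans (le_max_right _ _), ?_⟩
  intro L N R u hL hR hu
  have hLC1 : C1 ≤ L := (le_max_right _ _).trans hL
  have hLX := (le_max_left _ _).trans hL
  have hLX1 : X1 ≤ L := ((le_max_left _ _).trans (le_max_left _ _)).trans hLX
  have hLX2 : X2 ≤ L := ((le_max_right _ _).trans (le_max_left _ _)).trans hLX
  have hLX3 : X3 ≤ L := ((le_max_left _ _).trans (le_max_right _ _)).trans hLX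
  have hLX4 : X4 ≤ L := ((le_max_right _ _).trans (le_max_right _ _)).trans hLX
  have hL1 : (1 : ℝ) ≤ L := hC1.trans hLC1
  have hL1' : 1 ≤ L := by exact_mod_cast hL1
  have hL0 : (0 : ℝ) < L := by linarith
  set lg : ℝ := Real.log L + 1 with hlg
  have hlog0 : 0 ≤ Real.log L := Real.log_nonneg hL1
  have hlg1 : 1 ≤ lg := by rw [hlg]; linarith
  set p : ℝ := ((m : ℝ) - 1) / 2 + ε with hp
  set lam : ℝ := (L : ℝ) ^ (-p) with hlam
  have hlam0 : 0 ≤ lam := Real.rpow_nonneg hL0.le _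
  obtain ⟨Z, ka, W, hEx, hExB⟩ := hE L lam u hu.dep
  -- bits
  set Kb : ℕ := Nat.log 2 L + 1 with hKb
  have hK1 : L < 2 ^ Kb := Nat.lt_pow_succ_log_self (by norm_num) L
  have hK2 : 2 ^ Kb ≤ 2 * (L + 1) := by
    rw [hKb, pow_succ]
    have := Nat.pow_log_le_self 2 (show L ≠ 0 by omega)
    omega
  have hT : T0 Kb ≤ 6 * lg := by
    unfold T0
    have h1 : (Nat.log 2 L : ℝ) * Real.log 2 ≤ Real.log L := by
      have h2 : ((2 : ℝ) ^ (Nat.log 2 L)) ≤ L := by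
        exact_mod_cast Nat.pow_log_le_self 2 (show L ≠ 0 by omega)
      have h3 := Real.log_le_log (by positivity) h2
      rwa [Real.log_pow] at h3
    have h2 : (1 : ℝ) / 2 ≤ Real.log 2 := by
      have := Real.log_two_gt_d9
      linarith
    have h3 : (Nat.log 2 L : ℝ) * (1 / 2) ≤ Real.log L :=
      le_trans (mul_le_mul_of_nonneg_left h2 (by positivity)) h1
    rw [hKb, hlg]
    push_cast
    linarith
  have hT1 : 1 ≤ T0 Kb := by
    unfold T0
    have : (0 : ℝ) ≤ (Kb : ℝ) := by positivity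
    linarith
  set T : ℝ := T0 Kb with hTd
  have hT0 : 0 ≤ T := by linarith
  -- parameters
  set η : ℝ := (L : ℝ) ^ (-(δ / 2)) with hη
  have hη0 : 0 < η := Real.rpow_pos_of_pos hL0 _
  set a : ℝ := 2 * (C1 * T ^ e * (L : ℝ) ^ ε') with ha
  have hLε' : 1 ≤ (L : ℝ) ^ ε' := Real.one_le_rpow hL1 hε'0.le
  have hTe : 1 ≤ T ^ e := one_le_pow₀ hT1
  have ha1 : 1 ≤ a := by
    rw [ha]
    have h1 : 1 ≤ C1 * T ^ e := by nlinarith
    nlinarith
  have ha0 : 0 ≤ a := by linarith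
  set bs : ℕ → ℝ := fun j => a ^ (m + 1 - j) * η with hbs
  set b : ℝ := a ^ (m + 1) * η with hb
  have hb0 : 0 ≤ b := by positivity
  have hapow : a ^ (2 * m + 2) ≤ (L : ℝ) ^ (δ / 2) := by
    have h1 : a ≤ 2 * (C1 * 6 ^ e) * lg ^ e * (L : ℝ) ^ ε' := by
      rw [ha]
      have h2 : T ^ e ≤ (6 * lg) ^ e := pow_le_pow_left₀ hT0 hT e
      rw [mul_pow] at h2
      have h3 : C1 * T ^ e ≤ C1 * (6 ^ e * lg ^ e) := mul_le_mul_of_nonneg_left h2 (by linarith)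
      have h4 : C1 * T ^ e * (L : ℝ) ^ ε' ≤ C1 * (6 ^ e * lg ^ e) * (L : ℝ) ^ ε' :=
        mul_le_mul_of_nonneg_right h3 (by positivity)
      nlinarith
    have h2 : a ^ (2 * m + 2) ≤ (2 * (C1 * 6 ^ e) * lg ^ e * (L : ℝ) ^ ε') ^ (2 * m + 2) :=
      pow_le_pow_left₀ ha0 h1 _
    have h3 : ((L : ℝ) ^ ε') ^ (2 * m + 2) = (L : ℝ) ^ (δ / 4) := by
      rw [← Real.rpow_natCast, ← Real.rpow_mul hL0.le]
      congr 1
      rw [hε']
      push_cast
      field_simp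
      ring
    have h5 : (2 * (C1 * 6 ^ e) * lg ^ e * (L : ℝ) ^ ε') ^ (2 * m + 2) =
        (2 * (C1 * 6 ^ e)) ^ (2 * m + 2) * lg ^ (e * (2 * m + 2)) * (L : ℝ) ^ (δ / 4) := by
      rw [mul_pow, mul_pow, h3, ← pow_mul]
    rw [h5] at h2
    have h4 := hX1' L hLX1
    calc a ^ (2 * m + 2) ≤ _ := h2
      _ ≤ (L : ℝ) ^ (δ / 4) * (L : ℝ) ^ (δ / 4) :=
        mul_le_mul_of_nonneg_right h4 (by positivity)
      _ = (L : ℝ) ^ (δ / 2) := by
        rw [← Real.rpow_add hL0]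
        congr 1
        ring
  have haη : b ^ 2 ≤ η := by
    have h1 : b ^ 2 = a ^ (2 * m + 2) * (η * η) := by
      rw [hb]
      ring
    have h2 : (L : ℝ) ^ (δ / 2) * η = 1 := by
      rw [hη, ← Real.rpow_add hL0]
      simp
    rw [h1]
    calc a ^ (2 * m + 2) * (η * η) ≤ (L : ℝ) ^ (δ / 2) * (η * η) :=
          mul_le_mul_of_nonneg_right hapow (by positivity)
      _ = ((L : ℝ) ^ (δ / 2) * η) * η := by ring
      _ = η := by rw [h2, one_mul]
  have hbL : b ≤ (L : ℝ) ^ (-(δ / 4)) := by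
    have h1 : η = ((L : ℝ) ^ (-(δ / 4))) ^ 2 := by
      rw [← Real.rpow_natCast, ← Real.rpow_mul hL0.le, hη]
      congr 1
      push_cast
      ring
    rw [h1] at haη
    exact (pow_le_pow_iff_left₀ hb0 (by positivity) two_ne_zero).1 haη
  have hCb : C1 * T ^ e * b ≤ (L : ℝ) ^ (-(δ / 8)) := by
    have h2 : T ^ e ≤ 6 ^ e * lg ^ e := by
      rw [← mul_pow]
      exact pow_le_pow_left₀ hT0 hT e
    have h3 : C1 * T ^ e ≤ C1 * 6 ^ e * lg ^ e := by
      rw [mul_assoc]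
      exact mul_le_mul_of_nonneg_left h2 (by linarith)
    have h4 := hX2' L hLX2
    calc C1 * T ^ e * b ≤ (L : ℝ) ^ (δ / 8) * (L : ℝ) ^ (-(δ / 4)) :=
          mul_le_mul (h3.trans h4) hbL hb0 (by positivity)
      _ = (L : ℝ) ^ (-(δ / 8)) := by
        rw [← Real.rpow_add hL0]
        congr 1
        ring
  have hCb0 : 0 ≤ C1 * T ^ e * b := by positivity
  have hone : (L : ℝ) ^ (-(δ / 8)) ≤ 1 := Real.rpow_le_one_of_one_le_of_nonpos hL1 (by linarith)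
  have hCb1 : C1 * T ^ e * b ≤ 1 := hCb.trans hone
  have hCL : C1 * T ^ e * L * (C1 * T ^ e * b) ^ n0 ≤ 1 := by
    have h2 : T ^ e ≤ 6 ^ e * lg ^ e := by
      rw [← mul_pow]
      exact pow_le_pow_left₀ hT0 hT e
    have h3 : C1 * T ^ e ≤ C1 * 6 ^ e * lg ^ e := by
      rw [mul_assoc]
      exact mul_le_mul_of_nonneg_left h2 (by linarith)
    have h4 := h3.trans (hX2' L hLX2)
    have h5 : (L : ℝ) ^ (δ / 8) ≤ L := by
      conv_rhs => rw [← Real.rpow_one (L : ℝ)]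
      exact Real.rpow_le_rpow_of_exponent_le hL1 (by linarith)
    have h6 : (C1 * T ^ e * b) ^ n0 ≤ (L : ℝ) ^ (-2 : ℝ) := by
      calc (C1 * T ^ e * b) ^ n0 ≤ ((L : ℝ) ^ (-(δ / 8))) ^ n0 := pow_le_pow_left₀ hCb0 hCb n0
        _ = (L : ℝ) ^ (-(δ / 8) * n0) := by
          rw [← Real.rpow_natCast, ← Real.rpow_mul hL0.le]
        _ ≤ (L : ℝ) ^ (-2 : ℝ) := by
          refine Real.rpow_le_rpow_of_exponent_le hL1 ?_
          have h7 : δ / 8 * (16 / δ) = 2 := by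
            field_simp
            norm_num
          have h8 : δ / 8 * (16 / δ) ≤ δ / 8 * n0 := mul_le_mul_of_nonneg_left hn0' (by positivity)
          linarith
    have h7 : (L : ℝ) * L * (L : ℝ) ^ (-2 : ℝ) = 1 := by
      have h8 : (L : ℝ) ^ (-2 : ℝ) = ((L : ℝ) ^ 2)⁻¹ := by
        rw [Real.rpow_neg hL0.le, Real.rpow_two]
      rw [h8]
      field_simp
    calc C1 * T ^ e * L * (C1 * T ^ e * b) ^ n0 ≤ (L : ℝ) * L * (L : ℝ) ^ (-2 : ℝ) :=
          mul_le_mul (mul_le_mul_of_nonneg_right (h4.trans h5) hL0.le) h6 (by positivity)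
            (by positivity)
      _ = 1 := h7
  have hSz : Sz m b η bs := by
    refine ⟨fun j => by positivity, fun j => ?_, ?_⟩
    · rw [hbs, hb]
      exact mul_le_mul_of_nonneg_right (pow_le_pow_right₀ ha1 (Nat.sub_le _ _)) hη0.le
    · rw [hbs]
      simp
  have hstep : ∀ j, 1 ≤ j → j ≤ m → C1 * T ^ e * (L : ℝ) ^ ε' * (bs (j + 1) + b ^ 2) ≤ bs j := by
    intro j hj1 hjm
    have h1 : b ^ 2 ≤ bs (j + 1) := by
      refine haη.trans ?_
      rw [hbs]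
      have : 1 ≤ a ^ (m + 1 - (j + 1)) := one_le_pow₀ ha1
      nlinarith
    have h2 : bs j = a * bs (j + 1) := by
      rw [hbs]
      beta_reduce
      have h3 : m + 1 - j = (m + 1 - (j + 1)) + 1 := by omega
      rw [h3, pow_succ]
      ring
    have h3 : C1 * T ^ e * (L : ℝ) ^ ε' = a / 2 := by
      rw [ha]
      ring
    rw [h2, h3]
    nlinarith
  have hηbig : (2 * (R : ℝ) + 1) ^ 2 * lam ^ 2 * ((L : ℝ) + 1) ^ (m - 1) ≤ η ^ 2 := by
    have h1 : 2 * (R : ℝ) + 1 ≤ (2 * K + 3) * lg := by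
      have h2 : Real.log ((L : ℝ) + 1) ≤ lg := by
        have h3 : (L : ℝ) + 1 ≤ Real.exp 1 * L := by
          have := Real.add_one_le_exp (1 : ℝ)
          nlinarith
        have h4 := Real.log_le_log (by linarith) h3
        rw [Real.log_mul (Real.exp_pos 1).ne' hL0.ne', Real.log_exp] at h4
        rw [hlg]
        linarith
      have h3 : K * Real.log ((L : ℝ) + 1) ≤ K * lg := mul_le_mul_of_nonneg_left h2 hK.le
      nlinarith
    have h2 : ((L : ℝ) + 1) ^ (m - 1) ≤ 2 ^ (m - 1) * (L : ℝ) ^ (m - 1) := by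
      rw [← mul_pow]
      exact pow_le_pow_left₀ (by linarith) (by linarith) _
    have h3 : lam ^ 2 * (L : ℝ) ^ (m - 1) = (L : ℝ) ^ (-(2 * ε)) := by
      rw [hlam, ← Real.rpow_natCast _ 2, ← Real.rpow_mul hL0.le, ← Real.rpow_natCast (L : ℝ) (m - 1),
        ← Real.rpow_add hL0]
      congr 1
      rw [hp, Nat.cast_sub (by omega)]
      push_cast
      ring
    have h4 := hX4' L hLX4
    have h5 : (2 * (R : ℝ) + 1) ^ 2 ≤ ((2 * K + 3) * lg) ^ 2 :=
      pow_le_pow_left₀ (by positivity) h1 2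
    have h6 : η ^ 2 = (L : ℝ) ^ (-δ) := by
      rw [hη, ← Real.rpow_natCast, ← Real.rpow_mul hL0.le]
      congr 1
      push_cast
      ring
    rw [h6]
    calc (2 * (R : ℝ) + 1) ^ 2 * lam ^ 2 * ((L : ℝ) + 1) ^ (m - 1)
        ≤ ((2 * K + 3) * lg) ^ 2 * lam ^ 2 * (2 ^ (m - 1) * (L : ℝ) ^ (m - 1)) := by gcongr
      _ = ((2 * K + 3) ^ 2 * 2 ^ (m - 1) * lg ^ 2) * (lam ^ 2 * (L : ℝ) ^ (m - 1)) := by ring
      _ ≤ (L : ℝ) ^ δ * (L : ℝ) ^ (-(2 * ε)) := by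
        rw [h3]
        exact mul_le_mul_of_nonneg_right h4 (by positivity)
      _ = (L : ℝ) ^ (δ - 2 * ε) := by
        rw [← Real.rpow_add hL0]
        congr 1
      _ ≤ (L : ℝ) ^ (-δ) := Real.rpow_le_rpow_of_exponent_le hL1 (by linarith)
  have hTb : 2 * T ^ (m + 1) * b ≤ 1 := by
    have h2 : T ^ (m + 1) ≤ 6 ^ (m + 1) * lg ^ (m + 1) := by
      rw [← mul_pow]
      exact pow_le_pow_left₀ hT0 hT _
    have h3 := hX3' L hLX3
    calc 2 * T ^ (m + 1) * b ≤ (L : ℝ) ^ (δ / 4) * (L : ℝ) ^ (-(δ / 4)) := by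
          refine mul_le_mul ?_ hbL hb0 (by positivity)
          refine le_trans ?_ h3
          nlinarith
      _ = 1 := by
        rw [← Real.rpow_add hL0]
        simp
  obtain ⟨hBay, -, -⟩ := hB m L Kb N R lam b η bs u Z ka W (by omega) hL1' hK1 hEx hu hlam0 hη0.le
    hηbig hSz hTb
  refine ⟨ka, Z, Gk Kb bs ka, hExB, hBay, fun h hh => ?_⟩
  have hfin := hG L Kb N R lam b η bs u Z W ka h hL1' hK1 hK2 hh hu hlam0 hη0.le hηbig hEx hSz
    hCb1 hCL hstep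
  have hfin2 : Av (fun ω => if Gl (Gk Kb bs ka) h ω ∧ ¬ Gk Kb bs ka h ω then Z h ω else 0) ≤
      C1 / ((L : ℝ) + 1) ^ n := by
    have h1 : PP (Gk Kb bs ka) Z h (fun ω => ¬ Gk Kb bs ka h ω) =
        Av (fun ω => if Gl (Gk Kb bs ka) h ω ∧ ¬ Gk Kb bs ka h ω then Z h ω else 0) := by
      unfold PP
      congr 1
      funext ω
      congr
    rw [← h1]
    exact hfin
  refine hfin2.trans ?_
  have : (0 : ℝ) < ((L : ℝ) + 1) ^ n := by positivity
  exact div_le_div_of_nonneg_right (le_max_right _ _) this.le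

end Pool.Agent.SHXA
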