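import Pool.Agent.Lib.MP_a7b2aa_an.SHX.StmtsY65
import Pool.Agent.Lib.MP_a7b2aa_an.SHX.StmtsL21
import Pool.Agent.Lib.MP_a7b2aa_an.SHX.StmtsEndF30

/-!
SHX, track ALL (helper65): the choice of the parameters, polylogarithmic version.
-/

set_option autoImplicit false

namespace Pool.Agent.SHXA

open Finset Pool.Agent.SB3 Pool.Agent.SBT Pool.Agent.SBD Pool.Agent.SHD Pool.Agent.SHX
open Pool.Agent.Lib.MP_a7b2aa_an.SHX

/-- SYSF -/
theorem sysf_65 (hE : StExactB) (hB : StBayx) (hG : StGoodxL) :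
    ∀ m : ℕ, 2 ≤ m → ∃ E : ℕ, StSysF m (((m : ℝ) - 1) / 2) E := by
  classical
  intro m hm
  obtain ⟨c, hc, hE⟩ := hE m
  obtain ⟨e, hG⟩ := hG m (by omega)
  set r : ℕ := 2 * (e + 1) * (m + 1) + (m + 2) with hr
  refine ⟨r + 2, c, hc, fun n K hK => ?_⟩
  obtain ⟨C1, hC1, hG⟩ := hG n
  -- threshold: the logarithm is large
  set A : ℝ := 2 * C1 * 6 ^ e + 2 * 6 ^ (m + 1) + (2 * K + 3) * 2 ^ m with hA
  have hA0 : 0 ≤ A := by positivity
  refine ⟨max (Real.exp A) C1, hC1.trans (le_max_right _ _), ?_⟩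
  intro L N R u hL hR hu
  have hLC1 : C1 ≤ L := (le_max_right _ _).trans hL
  have hLA : Real.exp A ≤ L := (le_max_left _ _).trans hL
  have hL1 : (1 : ℝ) ≤ L := hC1.trans hLC1
  have hL1' : 1 ≤ L := by exact_mod_cast hL1
  have hL0 : (0 : ℝ) < L := by linarith
  set ℓ : ℝ := Real.log ((L : ℝ) + 1) + 1 with hℓ
  have hlogA : A ≤ Real.log L := by
    rw [Real.le_log_iff_exp_le hL0]
    exact hLA
  have hlog1 : Real.log L ≤ Real.log ((L : ℝ) + 1) := Real.log_le_log hL0 (by linarith)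
  have hlog0 : 0 ≤ Real.log L := Real.log_nonneg hL1
  have hAℓ : A ≤ ℓ := by rw [hℓ]; linarith
  have hℓ1 : 1 ≤ ℓ := by rw [hℓ]; linarith
  have hℓ0 : 0 < ℓ := by linarith
  have hp1 : 2 * C1 * 6 ^ e ≤ ℓ := by
    have h1 : (0 : ℝ) ≤ 2 * 6 ^ (m + 1) := by positivity
    have h2 : 0 ≤ (2 * K + 3) * 2 ^ m := by positivity
    linarith
  have hp2 : 2 * 6 ^ (m + 1) ≤ ℓ := by
    have h1 : (0 : ℝ) ≤ 2 * C1 * 6 ^ e := by positivity
    have h2 : 0 ≤ (2 * K + 3) * 2 ^ m := by positivity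
    linarith
  have hp3 : (2 * K + 3) * 2 ^ m ≤ ℓ := by
    have h1 : (0 : ℝ) ≤ 2 * C1 * 6 ^ e := by positivity
    have h2 : (0 : ℝ) ≤ 2 * 6 ^ (m + 1) := by positivity
    linarith
  set lam : ℝ := (lf (((m : ℝ) - 1) / 2) (r + 2) L)⁻¹ with hlam
  have hlfpos : 0 < lf (((m : ℝ) - 1) / 2) (r + 2) L := by
    unfold lf
    have : 0 < Real.log ((L : ℝ) + 1) + 1 := hℓ0
    positivity
  have hlam0 : 0 ≤ lam := (inv_pos.2 hlfpos).le
  obtain ⟨Z, ka, W, hEx, hExB⟩ := hE L lam u hu.dep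
  -- bits
  set Kb : ℕ := Nat.log 2 L + 1 with hKb
  have hK1 : L < 2 ^ Kb := Nat.lt_pow_succ_log_self (by norm_num) L
  have hK2 : 2 ^ Kb ≤ 2 * (L + 1) := by
    rw [hKb, pow_succ]
    have := Nat.pow_log_le_self 2 (show L ≠ 0 by omega)
    omega
  have hT : T0 Kb ≤ 6 * ℓ := by
    unfold T0
    have h1 : (Nat.log 2 L : ℝ) * Real.log 2 ≤ Real.log L := by
      have h2 : ((2 : ℝ) ^ (Nat.log 2 L)) ≤ L := by
        exact_mod_cast Nat.pow_log_le_self 2 (show L ≠ 0 by omega)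
      have h3 := Real.log_le_log (by positivity) h2
      rwa [Real.log_pow] at h3
    have h2 : (1 : ℝ) / 2 ≤ Real.log 2 := by
      have := Real.log_two_gt_d9
      linarith
    have h3 : (Nat.log 2 L : ℝ) * (1 / 2) ≤ Real.log L :=
      le_trans (mul_le_mul_of_nonneg_left h2 (by positivity)) h1
    rw [hKb, hℓ]
    push_cast
    linarith
  have hT1 : 1 ≤ T0 Kb := by
    unfold T0
    have : (0 : ℝ) ≤ (Kb : ℝ) := by positivity
    linarith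
  have hT0 : 0 ≤ T0 Kb := by linarith
  -- parameters
  set η : ℝ := (ℓ ^ r)⁻¹ with hη
  have hη0 : 0 < η := by positivity
  set a : ℝ := ℓ ^ (e + 1) with ha
  have ha1 : 1 ≤ a := one_le_pow₀ hℓ1
  have ha0 : 0 ≤ a := by linarith
  set bs : ℕ → ℝ := fun j => a ^ (m + 1 - j) * η with hbs
  set b : ℝ := a ^ (m + 1) * η with hb
  have hb0 : 0 ≤ b := by positivity
  have hCT : 2 * (C1 * T0 Kb ^ e) ≤ a := by
    have h2 : T0 Kb ^ e ≤ 6 ^ e * ℓ ^ e := by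
      rw [← mul_pow]
      exact pow_le_pow_left₀ hT0 hT e
    calc 2 * (C1 * T0 Kb ^ e) ≤ 2 * (C1 * (6 ^ e * ℓ ^ e)) := by gcongr
      _ = (2 * C1 * 6 ^ e) * ℓ ^ e := by ring
      _ ≤ ℓ * ℓ ^ e := mul_le_mul_of_nonneg_right hp1 (by positivity)
      _ = a := by rw [ha]; ring
  have hrel : ∀ k : ℕ, k ≤ r → ℓ ^ k * η ≤ 1 := by
    intro k hk
    rw [hη]
    have h1 : ℓ ^ k ≤ ℓ ^ r := pow_le_pow_right₀ hℓ1 hk
    have h2 : 0 < ℓ ^ r := by positivity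
    rw [← div_eq_mul_inv, div_le_one h2]
    exact h1
  have haη : b ^ 2 ≤ η := by
    have h1 : b ^ 2 = (ℓ ^ (2 * (e + 1) * (m + 1)) * η) * η := by
      rw [hb, ha]
      ring_nf
    rw [h1]
    have h2 := hrel (2 * (e + 1) * (m + 1)) (by rw [hr]; omega)
    nlinarith
  have hCb1 : C1 * T0 Kb ^ e * b ≤ 1 := by
    have h1 : C1 * T0 Kb ^ e ≤ a := by
      have : 0 ≤ C1 * T0 Kb ^ e := by positivity
      linarith
    calc C1 * T0 Kb ^ e * b ≤ a * b := mul_le_mul_of_nonneg_right h1 hb0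
      _ = ℓ ^ ((e + 1) * (m + 2)) * η := by
        rw [hb, ha]
        ring_nf
      _ ≤ 1 := hrel _ (by
        rw [hr]
        nlinarith)
  have hSz : Sz m b η bs := by
    refine ⟨fun j => by positivity, fun j => ?_, ?_⟩
    · rw [hbs, hb]
      exact mul_le_mul_of_nonneg_right (pow_le_pow_right₀ ha1 (Nat.sub_le _ _)) hη0.le
    · rw [hbs]
      simp
  have hstep : ∀ j, 1 ≤ j → j ≤ m → C1 * T0 Kb ^ e * (bs (j + 1) + b ^ 2) ≤ bs j := by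
    intro j hj1 hjm
    have h1 : b ^ 2 ≤ bs (j + 1) := by
      refine haη.trans ?_
      rw [hbs]
      have : 1 ≤ a ^ (m + 1 - (j + 1)) := one_le_pow₀ ha1
      nlinarith
    have h2 : bs j = a * bs (j + 1) := by
      rw [hbs]
      beta_reduce
      have h3 : m + 1 - j = (m + 1 - (j + 1)) + 1 := by omega
      rw [h3, pow_succ]
      ring
    have h4 : 0 ≤ bs (j + 1) := hSz.nn _
    have h5 : 0 ≤ C1 * T0 Kb ^ e := by positivity
    rw [h2]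
    nlinarith
  have hηbig : (2 * (R : ℝ) + 1) ^ 2 * lam ^ 2 * ((L : ℝ) + 1) ^ (m - 1) ≤ η ^ 2 := by
    have h1 : 2 * (R : ℝ) + 1 ≤ (2 * K + 3) * ℓ := by
      have h3 : K * Real.log ((L : ℝ) + 1) ≤ K * ℓ := mul_le_mul_of_nonneg_left
        (by rw [hℓ]; linarith) hK.le
      nlinarith
    have h2 : ((L : ℝ) + 1) ^ (m - 1) ≤ 2 ^ (m - 1) * (L : ℝ) ^ (m - 1) := by
      rw [← mul_pow]
      exact pow_le_pow_left₀ (by linarith) (by linarith) _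
    have h3 : lam ^ 2 * (L : ℝ) ^ (m - 1) = ((ℓ ^ (r + 2)) ^ 2)⁻¹ := by
      have h4 : ((L : ℝ) ^ (((m : ℝ) - 1) / 2)) ^ 2 = (L : ℝ) ^ (m - 1) := by
        rw [← Real.rpow_natCast _ 2, ← Real.rpow_mul hL0.le, ← Real.rpow_natCast (L : ℝ) (m - 1)]
        congr 1
        rw [Nat.cast_sub (by omega)]
        push_cast
        ring
      have h5 : (0 : ℝ) < (L : ℝ) ^ (m - 1) := by positivity
      have h6 : (0 : ℝ) < ℓ ^ (r + 2) := by positivity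
      rw [hlam]
      unfold lf
      rw [← hℓ, inv_pow, mul_pow, h4, mul_inv]
      field_simp
    have h5 : (2 * (R : ℝ) + 1) ^ 2 ≤ ((2 * K + 3) * ℓ) ^ 2 :=
      pow_le_pow_left₀ (by positivity) h1 2
    have h7 : (2 : ℝ) ^ (m - 1) ≤ (2 ^ m) ^ 2 := by
      rw [← pow_mul]
      exact pow_le_pow_right₀ (by norm_num) (by omega)
    calc (2 * (R : ℝ) + 1) ^ 2 * lam ^ 2 * ((L : ℝ) + 1) ^ (m - 1)
        ≤ ((2 * K + 3) * ℓ) ^ 2 * lam ^ 2 * (2 ^ (m - 1) * (L : ℝ) ^ (m - 1)) := by gcongr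
      _ = ((2 * K + 3) * ℓ) ^ 2 * 2 ^ (m - 1) * (lam ^ 2 * (L : ℝ) ^ (m - 1)) := by ring
      _ ≤ ((2 * K + 3) * ℓ) ^ 2 * (2 ^ m) ^ 2 * ((ℓ ^ (r + 2)) ^ 2)⁻¹ := by
        rw [h3]
        gcongr
      _ = (((2 * K + 3) * 2 ^ m) * ℓ) ^ 2 * ((ℓ ^ (r + 2)) ^ 2)⁻¹ := by ring
      _ ≤ (ℓ * ℓ) ^ 2 * ((ℓ ^ (r + 2)) ^ 2)⁻¹ := by gcongr
      _ = η ^ 2 := by
        rw [hη, pow_add]
        have h8 : (0 : ℝ) < ℓ ^ r := by positivity
        field_simp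
  have hTb : 2 * T0 Kb ^ (m + 1) * b ≤ 1 := by
    have h2 : T0 Kb ^ (m + 1) ≤ 6 ^ (m + 1) * ℓ ^ (m + 1) := by
      rw [← mul_pow]
      exact pow_le_pow_left₀ hT0 hT _
    have h3 : 2 * T0 Kb ^ (m + 1) ≤ ℓ ^ (m + 2) := by
      calc 2 * T0 Kb ^ (m + 1) ≤ 2 * (6 ^ (m + 1) * ℓ ^ (m + 1)) := by gcongr
        _ = (2 * 6 ^ (m + 1)) * ℓ ^ (m + 1) := by ring
        _ ≤ ℓ * ℓ ^ (m + 1) := mul_le_mul_of_nonneg_right hp2 (by positivity)
        _ = ℓ ^ (m + 2) := by ring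
    calc 2 * T0 Kb ^ (m + 1) * b ≤ ℓ ^ (m + 2) * b := mul_le_mul_of_nonneg_right h3 hb0
      _ = ℓ ^ ((e + 1) * (m + 1) + (m + 2)) * η := by
        rw [hb, ha]
        ring_nf
      _ ≤ 1 := hrel _ (by
        rw [hr]
        nlinarith)
  obtain ⟨hBay, -, -⟩ := hB m L Kb N R lam b η bs u Z ka W (by omega) hL1' hK1 hEx hu hlam0 hη0.le
    hηbig hSz hTb
  refine ⟨ka, Z, Gk Kb bs ka, hExB, hBay, fun h hh => ?_⟩
  have hfin := hG L Kb N R lam b η bs u Z W ka h hL1' hK1 hK2 hh hu hlam0 hη0.le hηbig hEx hSz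
    hCb1 hstep
  have hfin2 : Av (fun ω => if Gl (Gk Kb bs ka) h ω ∧ ¬ Gk Kb bs ka h ω then Z h ω else 0) ≤
      C1 / ((L : ℝ) + 1) ^ n := by
    have h1 : PP (Gk Kb bs ka) Z h (fun ω => ¬ Gk Kb bs ka h ω) =
        Av (fun ω => if Gl (Gk Kb bs ka) h ω ∧ ¬ Gk Kb bs ka h ω then Z h ω else 0) := by
      unfold PP
      congr 1
      funext ω
      congr
    rw [← h1]
    exact hfin
  refine hfin2.trans ?_
  have : (0 : ℝ) < ((L : ℝ) + 1) ^ n := by positivity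
  exact div_le_div_of_nonneg_right (le_max_right _ _) this.le

end Pool.Agent.SHXA
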