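import Pool.Agent.Lib.MP_a7b2aa_an.SHX.Wal38

/-!
SHX, general `m`: the one-level coefficient functionals (helper38).

`aw H τ t` are coefficient functions on `[0, H]` : `none` is the evaluation at `0`, `some S` is the
Walsh twisted sum of the differences.  `Tf H τ u = ∑ t ≤ H, aw H τ t * u t`.
* `Tf_mul`  (K1): the product rule `Tf τ (u v) = ∑ c p q Tf p u Tf q v`, cost `2 K + 3`;
* `Tf_ev`   (K2): `u t₀ = ∑ c p S wal S t₀ Tf p u`, cost `K + 1`, for every `t₀ ≤ H`;
* `Tf_le`   (K2'): the functional of `1[t ≤ j] u t`, cost `...`, Walsh functions of `j`;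
* `aw_sum_le`, `aw_sum_gt` (K3).
-/

set_option autoImplicit false

open Finset

namespace Pool.Agent.Lib.MP_a7b2aa_an.SHX

/-- the twists of one level -/
abbrev Tw := Option (Finset ℕ)

/-- the finite family of twists of level `K` -/
def Tws (K : ℕ) : Finset Tw := insertNone (range K).powerset

/-- the coefficient function of a twist on the level range `[0, H]` -/
def aw (H : ℕ) (τ : Tw) (t : ℕ) : ℝ :=
  match τ with
  | none => if t = 0 then 1 else 0
  | some S => (if 1 ≤ t then wal S (t - 1) else 0) - (if t < H then wal S t else 0)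

/-- the functional of a twist -/
def Tf (H : ℕ) (τ : Tw) (u : ℕ → ℝ) : ℝ := ∑ t ∈ range (H + 1), aw H τ t * u t

theorem Tws_card (K : ℕ) : (Tws K).card = 2 ^ K + 1 := by
  unfold Tws
  rw [Finset.card_insertNone, Finset.card_powerset, Finset.card_range]

theorem sum_Tws {M : Type*} [AddCommMonoid M] (K : ℕ) (f : Tw → M) :
    ∑ τ ∈ Tws K, f τ = f none + ∑ S ∈ (range K).powerset, f (some S) := by
  unfold Tws
  exact Finset.sum_insertNone f _

theorem Tf_none (H : ℕ) (u : ℕ → ℝ) : Tf H none u = u 0 := by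
  unfold Tf aw
  rw [Finset.sum_eq_single 0]
  · simp
  · intro b _ hb
    simp [hb]
  · intro h
    exact absurd (mem_range.2 (Nat.succ_pos H)) h

theorem Tf_some (H : ℕ) (S : Finset ℕ) (u : ℕ → ℝ) :
    Tf H (some S) u = ∑ j ∈ range H, wal S j * (u (j + 1) - u j) := by
  unfold Tf aw
  have h1 : ∀ t ∈ range (H + 1), ((if 1 ≤ t then wal S (t - 1) else 0) -
      (if t < H then wal S t else 0)) * u t =
      (if 1 ≤ t then wal S (t - 1) * u t else 0) - (if t < H then wal S t * u t else 0) := by
    intro t _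
    split_ifs <;> ring
  simp only
  rw [Finset.sum_congr rfl h1, Finset.sum_sub_distrib]
  have h2 : ∑ t ∈ range (H + 1), (if 1 ≤ t then wal S (t - 1) * u t else 0) =
      ∑ j ∈ range H, wal S j * u (j + 1) := by
    rw [Finset.sum_range_succ']
    simp
  have h3 : ∑ t ∈ range (H + 1), (if t < H then wal S t * u t else 0) =
      ∑ j ∈ range H, wal S j * u j := by
    rw [Finset.sum_range_succ, if_neg (lt_irrefl H), add_zero]
    refine Finset.sum_congr rfl fun j hj => ?_
    rw [if_pos (mem_range.1 hj)]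
  rw [h2, h3, ← Finset.sum_sub_distrib]
  exact Finset.sum_congr rfl fun j _ => by ring

/-- the value at `t` from the value at zero and the differences -/
theorem val_eq (u : ℕ → ℝ) (t : ℕ) : u t = u 0 + ∑ j ∈ range t, (u (j + 1) - u j) := by
  rw [Finset.sum_range_sub]; ring

theorem range_ind (H t : ℕ) (ht : t ≤ H) (g : ℕ → ℝ) :
    ∑ j ∈ range t, g j = ∑ j ∈ range H, (if j < t then (1 : ℝ) else 0) * g j := by
  have h1 : ∑ j ∈ range H, (if j < t then (1 : ℝ) else 0) * g j =
      ∑ j ∈ (range H).filter (fun j => j < t), g j := by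
    rw [Finset.sum_filter]
    refine Finset.sum_congr rfl fun j _ => ?_
    split_ifs <;> ring
  rw [h1]
  refine Finset.sum_congr ?_ fun _ _ => rfl
  ext j
  simp only [mem_filter, mem_range]
  omega

/-- (K2) **evaluation** at a point, with Walsh functions of the point -/
theorem Tf_ev (K : ℕ) : ∃ c : Tw → Finset ℕ → ℝ,
    ∑ p ∈ Tws K, ∑ S ∈ (range K).powerset, |c p S| ≤ K + 1 ∧
    ∀ H : ℕ, H < 2 ^ K → ∀ t₀ : ℕ, t₀ ≤ H → ∀ u : ℕ → ℝ,
      u t₀ = ∑ p ∈ Tws K, ∑ S ∈ (range K).powerset, c p S * (wal S t₀ * Tf H p u) := by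
  classical
  obtain ⟨f, ⟨d, hd, hf⟩, hfe⟩ := wal_trunc K
  refine ⟨fun p S => match p with
    | none => if S = ∅ then 1 else 0
    | some W => d W S, ?_, fun H hH t₀ ht₀ u => ?_⟩
  · rw [sum_Tws]
    have h1 : ∑ S ∈ (range K).powerset, |(if S = ∅ then (1 : ℝ) else 0)| = 1 := by
      rw [Finset.sum_eq_single ∅]
      · simp
      · intro b _ hb
        simp [hb]
      · intro h
        exact absurd (Finset.empty_mem_powerset _) h
    simp only
    rw [h1]
    linarith
  · rw [sum_Tws]
    simp only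
    have h1 : ∑ S ∈ (range K).powerset, (if S = ∅ then (1 : ℝ) else 0) * (wal S t₀ * Tf H none u)
        = u 0 := by
      rw [Finset.sum_eq_single ∅]
      · simp [wal_empty, Tf_none]
      · intro b _ hb
        simp [hb]
      · intro h
        exact absurd (Finset.empty_mem_powerset _) h
    rw [h1, val_eq u t₀, range_ind H t₀ ht₀]
    congr 1
    have h2 : ∀ j ∈ range H, (if j < t₀ then (1 : ℝ) else 0) * (u (j + 1) - u j) =
        ∑ W ∈ (range K).powerset, ∑ S ∈ (range K).powerset,
          d W S * (wal S t₀ * (wal W j * (u (j + 1) - u j))) := by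
      intro j hj
      have hj' : j % 2 ^ K = j := Nat.mod_eq_of_lt (lt_trans (mem_range.1 hj) hH)
      have ht' : t₀ % 2 ^ K = t₀ := Nat.mod_eq_of_lt (lt_of_le_of_lt ht₀ hH)
      have h3 := hfe j t₀
      rw [hj', ht'] at h3
      have h3' : (if j < t₀ then (1 : ℝ) else 0) = f j t₀ := by rw [h3]
      rw [h3', hf, Finset.sum_mul]
      refine Finset.sum_congr rfl fun W _ => ?_
      rw [Finset.sum_mul]
      exact Finset.sum_congr rfl fun S _ => by ring
    rw [Finset.sum_congr rfl h2, Finset.sum_comm]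
    refine Finset.sum_congr rfl fun W _ => ?_
    rw [Finset.sum_comm]
    refine Finset.sum_congr rfl fun S _ => ?_
    rw [Tf_some, ← Finset.mul_sum, ← Finset.mul_sum]

/-- bilinear combinations of the functionals with cost `C` -/
def Bl (K : ℕ) (C : ℝ) (F : ℕ → (ℕ → ℝ) → (ℕ → ℝ) → ℝ) : Prop :=
  ∃ c : Tw → Tw → ℝ, ∑ p ∈ Tws K, ∑ q ∈ Tws K, |c p q| ≤ C ∧
    ∀ H : ℕ, H < 2 ^ K → ∀ u v : ℕ → ℝ,
      F H u v = ∑ p ∈ Tws K, ∑ q ∈ Tws K, c p q * (Tf H p u * Tf H q v)

theorem Bl.add {K : ℕ} {C D : ℝ} {f g : ℕ → (ℕ → ℝ) → (ℕ → ℝ) → ℝ} (hf : Bl K C f)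
    (hg : Bl K D g) : Bl K (C + D) (fun H u v => f H u v + g H u v) := by
  obtain ⟨c, hc, hf⟩ := hf
  obtain ⟨d, hd, hg⟩ := hg
  refine ⟨fun S T => c S T + d S T, ?_, fun H hH u v => ?_⟩
  · refine le_trans ?_ (add_le_add hc hd)
    rw [← Finset.sum_add_distrib]
    refine Finset.sum_le_sum fun S _ => ?_
    rw [← Finset.sum_add_distrib]
    exact Finset.sum_le_sum fun T _ => abs_add_le _ _
  · beta_reduce
    rw [hf H hH, hg H hH, ← Finset.sum_add_distrib]
    refine Finset.sum_congr rfl fun S _ => ?_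
    rw [← Finset.sum_add_distrib]
    exact Finset.sum_congr rfl fun T _ => by ring

theorem Bl.smul {K : ℕ} {C : ℝ} {f : ℕ → (ℕ → ℝ) → (ℕ → ℝ) → ℝ} (a : ℝ) (hf : Bl K C f) :
    Bl K (|a| * C) (fun H u v => a * f H u v) := by
  obtain ⟨c, hc, hf⟩ := hf
  refine ⟨fun S T => a * c S T, ?_, fun H hH u v => ?_⟩
  · refine le_trans (le_of_eq ?_) (mul_le_mul_of_nonneg_left hc (abs_nonneg a))
    rw [Finset.mul_sum]
    refine Finset.sum_congr rfl fun S _ => ?_
    rw [Finset.mul_sum]
    exact Finset.sum_congr rfl fun T _ => abs_mul _ _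
  · beta_reduce
    rw [hf H hH, Finset.mul_sum]
    refine Finset.sum_congr rfl fun S _ => ?_
    rw [Finset.mul_sum]
    exact Finset.sum_congr rfl fun T _ => by ring

theorem Bl.mono {K : ℕ} {C D : ℝ} {f : ℕ → (ℕ → ℝ) → (ℕ → ℝ) → ℝ} (hf : Bl K C f)
    (h : C ≤ D) : Bl K D f := by
  obtain ⟨c, hc, hf⟩ := hf
  exact ⟨c, hc.trans h, hf⟩

theorem Bl.single {K : ℕ} {p q : Tw} (hp : p ∈ Tws K) (hq : q ∈ Tws K) :
    Bl K 1 (fun H u v => Tf H p u * Tf H q v) := by
  classical
  refine ⟨fun p' q' => if p' = p ∧ q' = q then 1 else 0, ?_, fun H hH u v => ?_⟩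
  · beta_reduce
    rw [Finset.sum_eq_single p, Finset.sum_eq_single q]
    · simp
    · intro b _ hb
      rw [if_neg (fun h => hb h.2), abs_zero]
    · intro h
      exact absurd hq h
    · intro b _ hb
      refine Finset.sum_eq_zero fun T' _ => ?_
      rw [if_neg (fun h => hb h.1), abs_zero]
    · intro h
      exact absurd hp h
  · beta_reduce
    rw [Finset.sum_eq_single p, Finset.sum_eq_single q]
    · simp
    · intro b _ hb
      rw [if_neg (fun h => hb h.2), zero_mul]
    · intro h
      exact absurd hq h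
    · intro b _ hb
      refine Finset.sum_eq_zero fun T' _ => ?_
      rw [if_neg (fun h => hb h.1), zero_mul]
    · intro h
      exact absurd hp h

theorem Bl.zero {K : ℕ} : Bl K 0 (fun _ _ _ => 0) :=
  ⟨fun _ _ => 0, by simp, fun _ _ _ _ => by simp⟩

theorem Bl.sum {K : ℕ} {ι : Type} (s : Finset ι) (C : ι → ℝ)
    (f : ι → ℕ → (ℕ → ℝ) → (ℕ → ℝ) → ℝ) (hf : ∀ i ∈ s, Bl K (C i) (f i)) :
    Bl K (∑ i ∈ s, C i) (fun H u v => ∑ i ∈ s, f i H u v) := by
  classical
  induction s using Finset.induction_on with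
  | empty => simpa using Bl.zero (K := K)
  | insert a s ha ih =>
    have h1 := (hf a (Finset.mem_insert_self a s)).add
      (ih fun i hi => hf i (Finset.mem_insert_of_mem hi))
    rw [Finset.sum_insert ha]
    have e : (fun H u v => ∑ i ∈ insert a s, f i H u v) =
        fun H u v => f a H u v + ∑ i ∈ s, f i H u v := by
      funext H u v
      rw [Finset.sum_insert ha]
    rw [e]
    exact h1

theorem Bl.congr {K : ℕ} {C : ℝ} {f g : ℕ → (ℕ → ℝ) → (ℕ → ℝ) → ℝ} (hf : Bl K C f)
    (h : ∀ H : ℕ, H < 2 ^ K → ∀ u v, g H u v = f H u v) : Bl K C g := by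
  obtain ⟨c, hc, hf⟩ := hf
  exact ⟨c, hc, fun H hH u v => by rw [h H hH, hf H hH]⟩

theorem none_mem (K : ℕ) : (none : Tw) ∈ Tws K := Finset.none_mem_insertNone

theorem some_mem {K : ℕ} {S : Finset ℕ} : (some S : Tw) ∈ Tws K ↔ S ⊆ range K := by
  unfold Tws
  rw [Finset.some_mem_insertNone, Finset.mem_powerset]

theorem symm_sub {K : ℕ} {S T : Finset ℕ} (hS : S ⊆ range K) (hT : T ⊆ range K) :
    symmDiff S T ⊆ range K := by
  intro x hx
  rw [Finset.mem_symmDiff] at hx
  rcases hx with hx | hx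
  · exact hS hx.1
  · exact hT hx.1

open Classical in
/-- the double sum over `i < j` of differences, with the kernel `wal S j` -/
theorem Bl.lt {K : ℕ} {S : Finset ℕ} (hS : S ⊆ range K) :
    Bl K K (fun H u v => ∑ j ∈ range H, wal S j * (u (j + 1) - u j) *
      ∑ i ∈ range H, (if i < j then (1 : ℝ) else 0) * (v (i + 1) - v i)) ∧
    Bl K K (fun H u v => ∑ j ∈ range H, wal S j * (v (j + 1) - v j) *
      ∑ i ∈ range H, (if j < i then (1 : ℝ) else 0) * (u (i + 1) - u i)) := by
  classical
  obtain ⟨f, ⟨d, hd, hf⟩, hfe⟩ := wal_trunc K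
  have hlt : ∀ H : ℕ, H < 2 ^ K → ∀ i ∈ range H, ∀ j ∈ range H,
      (if i < j then (1 : ℝ) else 0) = ∑ W ∈ (range K).powerset, ∑ S' ∈ (range K).powerset,
        d W S' * (wal W i * wal S' j) := by
    intro H hH i hi j hj
    have hi' : i % 2 ^ K = i := Nat.mod_eq_of_lt (lt_trans (mem_range.1 hi) hH)
    have hj' : j % 2 ^ K = j := Nat.mod_eq_of_lt (lt_trans (mem_range.1 hj) hH)
    have h3 := hfe i j
    rw [hi', hj'] at h3
    rw [← hf, h3]
  constructor
  · have h1 : Bl K (∑ W ∈ (range K).powerset, ∑ S' ∈ (range K).powerset, |d W S'| * 1)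
        (fun H u v => ∑ W ∈ (range K).powerset, ∑ S' ∈ (range K).powerset,
          d W S' * (Tf H (some (symmDiff S S')) u * Tf H (some W) v)) := by
      refine Bl.sum _ _ _ fun W hW => Bl.sum _ _ _ fun S' hS' => Bl.smul _ (Bl.single
        (some_mem.2 (symm_sub hS (Finset.mem_powerset.1 hS')))
        (some_mem.2 (Finset.mem_powerset.1 hW)))
    refine (h1.mono (by simpa using hd)).congr fun H hH u v => ?_
    have e : ∀ j ∈ range H, wal S j * (u (j + 1) - u j) *
        ∑ i ∈ range H, (if i < j then (1 : ℝ) else 0) * (v (i + 1) - v i) =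
        ∑ W ∈ (range K).powerset, ∑ S' ∈ (range K).powerset,
          d W S' * ((wal (symmDiff S S') j * (u (j + 1) - u j)) * Tf H (some W) v) := by
      intro j hj
      have e1 : ∑ i ∈ range H, (if i < j then (1 : ℝ) else 0) * (v (i + 1) - v i) =
          ∑ W ∈ (range K).powerset, ∑ S' ∈ (range K).powerset,
            d W S' * (wal S' j * Tf H (some W) v) := by
        have e2 : ∀ i ∈ range H, (if i < j then (1 : ℝ) else 0) * (v (i + 1) - v i) =
            ∑ W ∈ (range K).powerset, ∑ S' ∈ (range K).powerset,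
              d W S' * (wal S' j * (wal W i * (v (i + 1) - v i))) := by
          intro i hi
          rw [hlt H hH i hi j hj, Finset.sum_mul]
          refine Finset.sum_congr rfl fun W _ => ?_
          rw [Finset.sum_mul]
          exact Finset.sum_congr rfl fun S' _ => by ring
        rw [Finset.sum_congr rfl e2, Finset.sum_comm]
        refine Finset.sum_congr rfl fun W _ => ?_
        rw [Finset.sum_comm]
        refine Finset.sum_congr rfl fun S' _ => ?_
        rw [Tf_some, ← Finset.mul_sum, ← Finset.mul_sum]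
      rw [e1, Finset.mul_sum]
      refine Finset.sum_congr rfl fun W _ => ?_
      rw [Finset.mul_sum]
      refine Finset.sum_congr rfl fun S' _ => ?_
      rw [← wal_mul]
      ring
    beta_reduce
    rw [Finset.sum_congr rfl e, Finset.sum_comm]
    refine Finset.sum_congr rfl fun W _ => ?_
    rw [Finset.sum_comm]
    refine Finset.sum_congr rfl fun S' _ => ?_
    rw [← Finset.mul_sum, ← Finset.sum_mul, ← Tf_some]
  · have h1 : Bl K (∑ W ∈ (range K).powerset, ∑ S' ∈ (range K).powerset, |d W S'| * 1)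
        (fun H u v => ∑ W ∈ (range K).powerset, ∑ S' ∈ (range K).powerset,
          d W S' * (Tf H (some S') u * Tf H (some (symmDiff S W)) v)) := by
      refine Bl.sum _ _ _ fun W hW => Bl.sum _ _ _ fun S' hS' => Bl.smul _ (Bl.single
        (some_mem.2 (Finset.mem_powerset.1 hS'))
        (some_mem.2 (symm_sub hS (Finset.mem_powerset.1 hW))))
    refine (h1.mono (by simpa using hd)).congr fun H hH u v => ?_
    have e : ∀ j ∈ range H, wal S j * (v (j + 1) - v j) *
        ∑ i ∈ range H, (if j < i then (1 : ℝ) else 0) * (u (i + 1) - u i) =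
        ∑ W ∈ (range K).powerset, ∑ S' ∈ (range K).powerset,
          d W S' * (Tf H (some S') u * (wal (symmDiff S W) j * (v (j + 1) - v j))) := by
      intro j hj
      have e1 : ∑ i ∈ range H, (if j < i then (1 : ℝ) else 0) * (u (i + 1) - u i) =
          ∑ W ∈ (range K).powerset, ∑ S' ∈ (range K).powerset,
            d W S' * (wal W j * Tf H (some S') u) := by
        have e2 : ∀ i ∈ range H, (if j < i then (1 : ℝ) else 0) * (u (i + 1) - u i) =
            ∑ W ∈ (range K).powerset, ∑ S' ∈ (range K).powerset,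
              d W S' * (wal W j * (wal S' i * (u (i + 1) - u i))) := by
          intro i hi
          rw [hlt H hH j hj i hi, Finset.sum_mul]
          refine Finset.sum_congr rfl fun W _ => ?_
          rw [Finset.sum_mul]
          exact Finset.sum_congr rfl fun S' _ => by ring
        rw [Finset.sum_congr rfl e2, Finset.sum_comm]
        refine Finset.sum_congr rfl fun W _ => ?_
        rw [Finset.sum_comm]
        refine Finset.sum_congr rfl fun S' _ => ?_
        rw [Tf_some, ← Finset.mul_sum, ← Finset.mul_sum]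
      rw [e1, Finset.mul_sum]
      refine Finset.sum_congr rfl fun W _ => ?_
      rw [Finset.mul_sum]
      refine Finset.sum_congr rfl fun S' _ => ?_
      rw [← wal_mul]
      ring
    beta_reduce
    rw [Finset.sum_congr rfl e, Finset.sum_comm]
    refine Finset.sum_congr rfl fun W _ => ?_
    rw [Finset.sum_comm]
    refine Finset.sum_congr rfl fun S' _ => ?_
    rw [← Finset.mul_sum, ← Finset.mul_sum, ← Tf_some]

/-- (K1) **product rule** for one level -/
theorem Tf_mul (K : ℕ) (τ : Tw) (hτ : τ ∈ Tws K) :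
    Bl K (2 * K + 3) (fun H u v => Tf H τ (fun t => u t * v t)) := by
  classical
  cases τ with
  | none =>
    refine ((Bl.single (none_mem K) (none_mem K)).mono ?_).congr fun H hH u v => ?_
    · have : (0 : ℝ) ≤ K := Nat.cast_nonneg K
      linarith
    · beta_reduce
      rw [Tf_none, Tf_none, Tf_none]
  | some S =>
    have hS := some_mem.1 hτ
    obtain ⟨h1, h2⟩ := Bl.lt hS
    have h3 := Bl.single (K := K) hτ (none_mem K)
    have h4 := Bl.single (K := K) (none_mem K) hτ
    have h5 := Bl.single (K := K) (some_mem.2 (Finset.empty_subset (range K))) hτ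
    refine (((((h3.add h1).add h4).add h5).add (h2.smul (-1))).mono ?_).congr fun H hH u v => ?_
    · rw [abs_neg, abs_one]
      linarith
    · beta_reduce
      rw [Tf_some, Tf_none, Tf_none, Tf_some, Tf_some, Tf_some, Finset.sum_mul, Finset.mul_sum,
        Finset.mul_sum, Finset.mul_sum, ← Finset.sum_add_distrib, ← Finset.sum_add_distrib,
        ← Finset.sum_add_distrib, ← Finset.sum_add_distrib]
      refine Finset.sum_congr rfl fun j hj => ?_
      have hj' : j ≤ H := (mem_range.1 hj).le
      have e1 := val_eq v j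
      rw [range_ind H j hj'] at e1
      have e2 : u (j + 1) = u 0 + ∑ i ∈ range H, (u (i + 1) - u i) -
          ∑ i ∈ range H, (if j < i then (1 : ℝ) else 0) * (u (i + 1) - u i) := by
        rw [val_eq u (j + 1), range_ind H (j + 1) (mem_range.1 hj), add_sub_assoc,
          ← Finset.sum_sub_distrib]
        congr 1
        refine Finset.sum_congr rfl fun i _ => ?_
        by_cases h : i < j + 1
        · rw [if_pos h, if_neg (by omega)]; ring
        · rw [if_neg h, if_pos (by omega)]; ring
      have e3 : ∑ i ∈ range H, wal ∅ i * (u (i + 1) - u i) = ∑ i ∈ range H, (u (i + 1) - u i) := by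
        refine Finset.sum_congr rfl fun i _ => ?_
        rw [wal_empty, one_mul]
      rw [e3]
      linear_combination (wal S j * (u (j + 1) - u j)) * e1 +
        (wal S j * (v (j + 1) - v j)) * e2

/-- the functional of a point mass -/
theorem Tf_single (H : ℕ) (τ : Tw) (t : ℕ) (ht : t ≤ H) :
    Tf H τ (fun x => if x = t then 1 else 0) = aw H τ t := by
  unfold Tf
  rw [Finset.sum_eq_single t]
  · simp
  · intro b _ hb
    simp [hb]
  · intro h
    exact absurd (mem_range.2 (Nat.lt_succ_of_le ht)) h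

/-- (K1) in kernel form -/
theorem aw_mul (K : ℕ) (τ : Tw) (hτ : τ ∈ Tws K) :
    ∃ c : Tw → Tw → ℝ, ∑ p ∈ Tws K, ∑ q ∈ Tws K, |c p q| ≤ 2 * K + 3 ∧
      ∀ H : ℕ, H < 2 ^ K → ∀ t t' : ℕ, t ≤ H → t' ≤ H →
        aw H τ t * (if t = t' then 1 else 0) =
          ∑ p ∈ Tws K, ∑ q ∈ Tws K, c p q * (aw H p t * aw H q t') := by
  obtain ⟨c, hc, h⟩ := Tf_mul K τ hτ
  refine ⟨c, hc, fun H hH t t' ht ht' => ?_⟩
  have h1 := h H hH (fun x => if x = t then 1 else 0) (fun x => if x = t' then 1 else 0)
  beta_reduce at h1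
  have e1 : Tf H τ (fun x => (if x = t then (1 : ℝ) else 0) * (if x = t' then 1 else 0)) =
      aw H τ t * (if t = t' then 1 else 0) := by
    by_cases htt : t = t'
    · subst htt
      rw [if_pos rfl, mul_one, ← Tf_single H τ t ht]
      congr 1
      funext x
      split_ifs <;> ring
    · rw [if_neg htt, mul_zero]
      unfold Tf
      refine Finset.sum_eq_zero fun x _ => ?_
      beta_reduce
      by_cases hx : x = t
      · rw [if_pos hx, if_neg (fun h => htt (hx.symm.trans h))]; ring
      · rw [if_neg hx]; ring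
  rw [← e1, h1]
  refine Finset.sum_congr rfl fun p _ => Finset.sum_congr rfl fun q _ => ?_
  rw [Tf_single H p t ht, Tf_single H q t' ht']

/-- (K2) in kernel form -/
theorem aw_ev (K : ℕ) : ∃ c : Tw → Finset ℕ → ℝ,
    ∑ p ∈ Tws K, ∑ S ∈ (range K).powerset, |c p S| ≤ K + 1 ∧
    ∀ H : ℕ, H < 2 ^ K → ∀ t t₀ : ℕ, t ≤ H → t₀ ≤ H →
      (if t₀ = t then (1 : ℝ) else 0) =
        ∑ p ∈ Tws K, ∑ S ∈ (range K).powerset, c p S * (wal S t₀ * aw H p t) := by
  obtain ⟨c, hc, h⟩ := Tf_ev K
  refine ⟨c, hc, fun H hH t t₀ ht ht₀ => ?_⟩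
  have h1 := h H hH t₀ ht₀ (fun x => if x = t then 1 else 0)
  beta_reduce at h1
  rw [h1]
  refine Finset.sum_congr rfl fun p _ => Finset.sum_congr rfl fun S _ => ?_
  rw [Tf_single H p t ht]

/-- (K3) partial sums of the coefficient functions -/
theorem aw_sum (H : ℕ) (τ : Tw) (j : ℕ) (hj : j ≤ H) :
    ∑ t ∈ range (j + 1), aw H τ t = match τ with
      | none => 1
      | some S => - (if j < H then wal S j else 0) := by
  cases τ with
  | none =>
    unfold aw
    simp only
    rw [Finset.sum_eq_single 0]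
    · simp
    · intro b _ hb
      simp [hb]
    · intro h
      exact absurd (mem_range.2 (Nat.succ_pos j)) h
  | some S =>
    simp only
    induction j with
    | zero =>
      rw [zero_add, Finset.sum_range_one]
      unfold aw
      simp
    | succ j ih =>
      rw [Finset.sum_range_succ, ih (Nat.le_of_succ_le hj)]
      unfold aw
      simp only
      rw [if_pos (by omega : 1 ≤ j + 1), Nat.add_sub_cancel, if_pos (by omega : j < H)]
      ring

theorem aw_sum_abs (H : ℕ) (τ : Tw) (j : ℕ) (hj : j ≤ H) :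
    |∑ t ∈ range (j + 1), aw H τ t| ≤ 1 := by
  rw [aw_sum H τ j hj]
  cases τ with
  | none => simp
  | some S =>
    simp only
    rw [abs_neg]
    split_ifs
    · rw [wal_abs]
    · simp

theorem aw_tot (H : ℕ) (τ : Tw) : ∑ t ∈ range (H + 1), aw H τ t = if τ = none then 1 else 0 := by
  rw [aw_sum H τ H le_rfl]
  cases τ with
  | none => simp
  | some S => simp

end Pool.Agent.Lib.MP_a7b2aa_an.SHX
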